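import Pool.Agent.P.MP_cf7202_gt.Scale

/-! Local existence, smoothness in time and local uniqueness for the abstract system. -/

namespace Pool.Agent.P.MP_cf7202_gt

open Set Filter Topology Function MeasureTheory
open scoped ContDiff ENNReal

namespace ABSAux

theorem pj_coe {s : ℝ} (hs : s ∈ Icc (0 : ℝ) 1) : ((pj s : II) : ℝ) = s := by
  simp [pj, projIcc_of_mem _ hs]

theorem pj_val (t : II) : pj (t : ℝ) = t := by simp [pj, projIcc_val]

theorem eqOn_of_ae {E : Type} [NormedAddCommGroup E] {f g : ℝ → E}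
    (hf : ContinuousOn f (Ioo 0 1)) (hg : ContinuousOn g (Ioo 0 1))
    (h : ∀ᵐ t : II, f t = g t) : EqOn f g (Ioo 0 1) := by
  refine Measure.eqOn_open_of_ae_eq (μ := volume) ?_ isOpen_Ioo hf hg
  rw [ae_II_iff] at h
  refine (ae_restrict_iff' measurableSet_Ioo).2 ?_
  filter_upwards [h] with s hs hI
  have := hs (Ioo_subset_Icc_self hI)
  rwa [pj_coe (Ioo_subset_Icc_self hI)] at this

variable {H V Y K : Type} [NormedAddCommGroup H] [InnerProductSpace ℝ H] [CompleteSpace H]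
  [NormedAddCommGroup V] [NormedSpace ℝ V] [CompleteSpace V] [NormedAddCommGroup Y]
  [NormedSpace ℝ Y] (S : Sys H V Y K)

omit [CompleteSpace V] in
theorem isUnit_A {L : V} (hL : L ∈ S.U) : IsUnit (S.A L) := by
  have h1 : ‖(1 : H →L[ℝ] H) - (1 / S.c) • S.A L‖ < 1 := by
    refine lt_of_le_of_lt (ContinuousLinearMap.opNorm_le_bound _ (sub_nonneg.2 S.hγ1) fun h => ?_)
      (sub_lt_self _ S.hγ)
    have := S.hA L hL 1 ⟨by norm_num, by norm_num⟩ h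
    rwa [norm_sub_rev] at this
  have h2 : IsUnit ((1 / S.c) • S.A L) := by
    have := (Units.oneSub _ h1).isUnit
    simpa using this
  have h3 : IsUnit (algebraMap ℝ (H →L[ℝ] H) S.c) := (IsUnit.mk0 _ S.hc.ne').map _
  have h4 := h3.mul h2
  rwa [← Algebra.smul_def, smul_smul, mul_one_div_cancel S.hc.ne', one_smul] at h4

omit [CompleteSpace V] [CompleteSpace H] in
theorem cont_v {X : Type} [TopologicalSpace X] {T : Set X} {l : X → V} {d1 d2 : X → H}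
    (hm : ∀ x ∈ T, l x ∈ S.U) (hl : ContinuousOn l T) (h1 : ContinuousOn d1 T)
    (h2 : ContinuousOn d2 T) : ContinuousOn (fun x => S.v (l x) (d1 x) (d2 x)) T := by
  have a1 : ContinuousOn (fun x => S.W (l x)) T := S.sW.continuousOn.comp hl hm
  have a2 : ContinuousOn (fun x => S.W0 (l x, d1 x)) T :=
    S.sW0.continuousOn.comp (hl.prodMk h1) fun x hx => ⟨hm x hx, trivial⟩
  exact (a1.clm_apply (((S.T1 1).continuous.comp_continuousOn h1).add
    ((S.T2 1).continuous.comp_continuousOn h2))).add a2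

omit [CompleteSpace V] [CompleteSpace H] in
theorem cont_F {X : Type} [TopologicalSpace X] {T : Set X} {l w : X → V} {d1 d2 : X → H}
    (hm : ∀ x ∈ T, l x ∈ S.U) (hl : ContinuousOn l T) (h1 : ContinuousOn d1 T)
    (h2 : ContinuousOn d2 T) (hw : ContinuousOn w T) :
    ContinuousOn (fun x => S.F (l x) (d1 x) (d2 x) (w x)) T := by
  have a1 : ContinuousOn (fun x => S.A (l x)) T := S.sA.continuousOn.comp hl hm
  have a2 : ContinuousOn (fun x => S.N0 (l x, d1 x)) T :=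
    S.sN0.continuousOn.comp (hl.prodMk h1) fun x hx => ⟨hm x hx, trivial⟩
  have a3 : ContinuousOn (fun x => S.N1 (l x, d1 x)) T :=
    S.sN1.continuousOn.comp (hl.prodMk h1) fun x hx => ⟨hm x hx, trivial⟩
  exact ((a1.clm_apply h2).add a2).add (a3.clm_apply hw)

/-- the classical solution on the unit time scale -/
theorem unit_sol {τ : ℝ} (hτ : 0 < τ) {L : C(II, V)} {D0 D1 : C(II, H)} {D2 F : L2 H} {w : L2 V}
    (h : S.WS τ L D0 D1 D2 F w) (sL : ContDiffOn ℝ ∞ (fun s : ℝ => L (pj s)) (Ioo 0 1))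
    (sD0 : ContDiffOn ℝ ∞ (fun s : ℝ => D0 (pj s)) (Ioo 0 1))
    (sD1 : ContDiffOn ℝ ∞ (fun s : ℝ => D1 (pj s)) (Ioo 0 1)) :
    ∃ d2 : ℝ → H, ContDiffOn ℝ ∞ d2 (Ioo 0 1) ∧ ∀ s ∈ Ioo (0 : ℝ) 1,
      S.M.R2 (D1 (pj s)) (d2 s) ∧
      HasDerivAt (fun s : ℝ => L (pj s)) (τ • S.v (L (pj s)) (D1 (pj s)) (d2 s)) s ∧
      HasDerivAt (fun s : ℝ => D0 (pj s)) (τ • S.F (L (pj s)) (D1 (pj s)) (d2 s)
        (S.v (L (pj s)) (D1 (pj s)) (d2 s))) s := by
  set l : ℝ → V := fun s => L (pj s) with hl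
  set d0 : ℝ → H := fun s => D0 (pj s) with hd0
  set d1 : ℝ → H := fun s => D1 (pj s) with hd1
  have hm : ∀ s, l s ∈ S.U := fun s => h.mem _
  have sl' : ContDiffOn ℝ ∞ (fun s => τ⁻¹ • deriv l s) (Ioo 0 1) :=
    (sL.deriv_of_isOpen isOpen_Ioo (by simp)).const_smul _
  have sd' : ContDiffOn ℝ ∞ (fun s => τ⁻¹ • deriv d0 s) (Ioo 0 1) :=
    (sD0.deriv_of_isOpen isOpen_Ioo (by simp)).const_smul _
  have sA : ContDiffOn ℝ ∞ (fun s => S.A (l s)) (Ioo 0 1) := S.sA.comp sL fun s _ => hm s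
  have sI : ContDiffOn ℝ ∞ (fun s => Ring.inverse (S.A (l s))) (Ioo 0 1) := by
    intro s hs
    obtain ⟨u, hu⟩ := isUnit_A S (hm s)
    have := contDiffAt_ringInverse (n := ∞) ℝ u
    rw [hu] at this
    exact this.comp_contDiffWithinAt s (sA s hs)
  have sN0 : ContDiffOn ℝ ∞ (fun s => S.N0 (l s, d1 s)) (Ioo 0 1) :=
    S.sN0.comp (sL.prodMk sD1) fun s _ => ⟨hm s, trivial⟩
  have sN1 : ContDiffOn ℝ ∞ (fun s => S.N1 (l s, d1 s)) (Ioo 0 1) :=
    S.sN1.comp (sL.prodMk sD1) fun s _ => ⟨hm s, trivial⟩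
  set d2 : ℝ → H := fun s => Ring.inverse (S.A (l s))
    (τ⁻¹ • deriv d0 s - S.N0 (l s, d1 s) - S.N1 (l s, d1 s) (τ⁻¹ • deriv l s)) with hd2
  have sd2 : ContDiffOn ℝ ∞ d2 (Ioo 0 1) :=
    sI.clm_apply ((sd'.sub sN0).sub (sN1.clm_apply sl'))
  have hae : ∀ᵐ t : II, τ⁻¹ • deriv l t = w t ∧ d2 t = D2 t := by
    filter_upwards [JJ_ae_hasDerivAt w, JJ_ae_hasDerivAt F, h.hF] with t e1 e2 e3
    have a1 : HasDerivAt l (τ • w t) t := by
      have : l = fun s => L 0 + τ • JJ w (pj s) := funext fun s => h.iL _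
      rw [this]
      exact (e1.const_smul τ).const_add _
    have a2 : HasDerivAt d0 (τ • F t) t := by
      have : d0 = fun s => D0 0 + τ • JJ F (pj s) := funext fun s => h.iD _
      rw [this]
      exact (e2.const_smul τ).const_add _
    have b1 : τ⁻¹ • deriv l t = w t := by rw [a1.deriv, inv_smul_smul₀ hτ.ne']
    have b2 : τ⁻¹ • deriv d0 t = F t := by rw [a2.deriv, inv_smul_smul₀ hτ.ne']
    refine ⟨b1, ?_⟩
    have b3 : F t - S.N0 (L t, D1 t) - S.N1 (L t, D1 t) (w t) = S.A (L t) (D2 t) := by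
      rw [e3, Sys.F]; abel
    simp only [hd2, b1, b2]
    simp only [hl, hd1, pj_val, b3]
    rw [← mul_apply_eq_comp, Ring.inverse_mul_cancel _ (isUnit_A S (h.mem t)),
      one_apply_eq_self]
  have hv : EqOn (fun s => τ⁻¹ • deriv l s) (fun s => S.v (l s) (d1 s) (d2 s)) (Ioo 0 1) := by
    refine eqOn_of_ae sl'.continuousOn
      (cont_v S (fun s _ => hm s) sL.continuousOn sD1.continuousOn sd2.continuousOn) ?_
    filter_upwards [hae, h.hw] with t e1 e2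
    rw [e1.1, e1.2, e2]
    simp only [hl, hd1, pj_val]
  have hr : ∀ k, EqOn (fun s => inner ℝ (S.M.e k) (d2 s))
      (fun s => -(S.M.om k * inner ℝ (S.M.et k) (d1 s))) (Ioo 0 1) := by
    intro k
    refine eqOn_of_ae (continuousOn_const.inner (𝕜 := ℝ) sd2.continuousOn)
      (continuousOn_const.mul (continuousOn_const.inner (𝕜 := ℝ) sD1.continuousOn)).neg ?_
    filter_upwards [hae, h.r2] with t e1 e2
    rw [e1.2, e2 k]
    simp only [hd1, pj_val]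
  refine ⟨d2, sd2, fun s hs => ⟨fun k => hr k hs, ?_, ?_⟩⟩
  · have a1 := ((sL.contDiffAt (isOpen_Ioo.mem_nhds hs)).differentiableAt (by simp)).hasDerivAt
    have a2 : τ⁻¹ • deriv l s = S.v (l s) (d1 s) (d2 s) := hv hs
    rw [← a2, smul_inv_smul₀ hτ.ne']
    exact a1
  · have a1 := ((sD0.contDiffAt (isOpen_Ioo.mem_nhds hs)).differentiableAt (by simp)).hasDerivAt
    have a2 : τ⁻¹ • deriv l s = S.v (l s) (d1 s) (d2 s) := hv hs
    have a3 : S.F (l s) (d1 s) (d2 s) (τ⁻¹ • deriv l s) = τ⁻¹ • deriv d0 s := by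
      rw [Sys.F, hd2]
      simp only
      rw [← mul_apply_eq_comp, Ring.mul_inverse_cancel _ (isUnit_A S (hm s)),
        one_apply_eq_self]
      abel
    rw [← a2, a3, smul_inv_smul₀ hτ.ne']
    exact a1

/-- a classical solution, continuous up to time zero, is a strong solution -/
theorem ws_of_cl {τ' : ℝ} (hτ : 0 < τ') {L : ℝ → V} {D0 D1 D2 : ℝ → H} (h : S.Cl τ' L D0 D1 D2)
    (cL : ContinuousOn L (Ico 0 τ')) (c0 : ContinuousOn D0 (Ico 0 τ'))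
    (c1 : ContinuousOn D1 (Ico 0 τ')) (c2 : ContinuousOn D2 (Ico 0 τ')) (m0 : L 0 ∈ S.U)
    (r0 : S.M.R1 (D0 0) (D1 0)) :
    ∃ (Lc : C(II, V)) (D0c D1c : C(II, H)) (D2c F : L2 H) (w : L2 V),
      S.WS (τ' / 2) Lc D0c D1c D2c F w ∧ ∀ t : II, Lc t = L (τ' / 2 * t) ∧
        D0c t = D0 (τ' / 2 * t) ∧ D1c t = D1 (τ' / 2 * t) := by
  have hI : ∀ t : II, τ' / 2 * (t : ℝ) ∈ Ico 0 τ' := fun t =>
    ⟨mul_nonneg (half_pos hτ).le t.2.1, by nlinarith [t.2.2, t.2.1]⟩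
  have hI' : ∀ t : II, t ≠ 0 → τ' / 2 * (t : ℝ) ∈ Ioo 0 τ' := fun t ht =>
    ⟨mul_pos (half_pos hτ) (unitInterval.pos_iff_ne_zero.2 ht), (hI t).2⟩
  have hc : Continuous fun t : II => τ' / 2 * (t : ℝ) := by fun_prop
  let Lc : C(II, V) := ⟨fun t => L (τ' / 2 * t), cL.comp_continuous hc hI⟩
  let D0c : C(II, H) := ⟨fun t => D0 (τ' / 2 * t), c0.comp_continuous hc hI⟩
  let D1c : C(II, H) := ⟨fun t => D1 (τ' / 2 * t), c1.comp_continuous hc hI⟩
  let D2c : C(II, H) := ⟨fun t => D2 (τ' / 2 * t), c2.comp_continuous hc hI⟩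
  have hm : ∀ t, Lc t ∈ S.U := by
    intro t
    by_cases ht : t = 0
    · subst ht
      simpa [Lc] using m0
    · exact h.mem _ (hI' t ht)
  let wc : C(II, V) := ⟨fun t => S.v (Lc t) (D1c t) (D2c t), continuousOn_univ.1
    (cont_v S (fun t _ => hm t) Lc.continuous.continuousOn D1c.continuous.continuousOn
      D2c.continuous.continuousOn)⟩
  let Fc : C(II, H) := ⟨fun t => S.F (Lc t) (D1c t) (D2c t) (wc t), continuousOn_univ.1
    (cont_F S (fun t _ => hm t) Lc.continuous.continuousOn D1c.continuous.continuousOn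
      D2c.continuous.continuousOn wc.continuous.continuousOn)⟩
  have hsub : Icc 0 (τ' / 2) ⊆ Ico 0 τ' := Icc_subset_Ico_right (half_lt_self hτ)
  have hne : ∀ t : II, (t : ℝ) ∈ Ioo (0 : ℝ) 1 → t ≠ 0 := fun t ht h0 => by
    subst h0; exact lt_irrefl _ ht.1
  refine ⟨Lc, D0c, D1c, tL D2c, tL Fc, tL wc, ⟨hm, fun t => ?_, ?_, ?_, ?_, fun t => ?_,
    fun t => ?_⟩, fun t => ⟨rfl, rfl, rfl⟩⟩
  · by_cases ht : t = 0
    · subst ht
      simpa [D0c, D1c] using r0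
    · exact h.r1 _ (hI' t ht)
  · have : ∀ᵐ t : II, t ≠ 0 := by
      rw [ae_iff]; simp
    filter_upwards [this, tL_coe D2c] with t ht e
    rw [e]
    exact h.r2 _ (hI' t ht)
  · filter_upwards [tL_coe D2c, tL_coe wc] with t e1 e2
    rw [e1, e2]; rfl
  · filter_upwards [tL_coe D2c, tL_coe wc, tL_coe Fc] with t e1 e2 e3
    rw [e1, e2, e3]; rfl
  · have := ftc_II (half_pos hτ).le L wc (cL.mono hsub)
      (fun t ht => h.dL _ (hI' t (hne t ht))) t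
    simpa [Lc] using this
  · have := ftc_II (half_pos hτ).le D0 Fc (c0.mono hsub)
      (fun t ht => h.dD _ (hI' t (hne t ht))) t
    simpa [D0c] using this

/-- restriction to a prescribed shorter interval -/
theorem ws_short {τ τ3 : ℝ} (h3 : 0 < τ3) (hle : τ3 ≤ τ) {L : C(II, V)} {D0 D1 : C(II, H)}
    {D2 F : L2 H} {w : L2 V} (h : S.WS τ L D0 D1 D2 F w) :
    ∃ (ρ : II) (D2' F' : L2 H) (w' : L2 V), (ρ : ℝ) = τ3 / τ ∧
      S.WS τ3 (L.comp (scm ρ)) (D0.comp (scm ρ)) (D1.comp (scm ρ)) D2' F' w' ∧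
      √τ3 * ‖D2'‖ ≤ √τ * ‖D2‖ ∧ ‖D1.comp (scm ρ)‖ ≤ ‖D1‖ := by
  have hτ : 0 < τ := h3.trans_le hle
  let ρ : II := ⟨τ3 / τ, (div_pos h3 hτ).le, (div_le_one hτ).2 hle⟩
  obtain ⟨D2', F', w', a1, a2, a3⟩ := h.scale (ρ := ρ) (div_pos h3 hτ)
  have e : (ρ : ℝ) * τ = τ3 := div_mul_cancel₀ _ hτ.ne'
  refine ⟨ρ, D2', F', w', rfl, e ▸ a1, ?_, a3⟩
  rw [← e, Real.sqrt_mul ρ.2.1, mul_comm (√(ρ : ℝ)), mul_assoc]
  exact mul_le_mul_of_nonneg_left a2 (Real.sqrt_nonneg _)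

end ABSAux

open ABSAux in
theorem abs_ex : S_UNI → S_EXSM → S_ABS := by
  intro hU hE H V Y K _ _ _ _ _ _ _ _ _ _ S R δ hR hδ
  obtain ⟨τ, hτ, hex⟩ := hE H V Y K S R δ hR hδ
  refine ⟨τ, hτ, fun L0 h0 h1 hb hr1 hn => ?_⟩
  obtain ⟨L, D0, D1, D2, F, w, hWS, e0, e1, e2, sL, sD0, sD1⟩ := hex L0 h0 h1 hb hr1 hn
  obtain ⟨d2, sd2, hd2⟩ := unit_sol S hτ hWS sL sD0 sD1
  have hI : ∀ t ∈ Ioo 0 τ, t / τ ∈ Ioo (0 : ℝ) 1 := fun t ht =>
    ⟨div_pos ht.1 hτ, (div_lt_one hτ).2 ht.2⟩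
  have hs : ContDiffOn ℝ ∞ (fun t : ℝ => t / τ) (Ioo 0 τ) := (contDiff_id.div_const τ).contDiffOn
  have hc : Continuous fun t : ℝ => pj (t / τ) := continuous_projIcc.comp (continuous_id.div_const τ)
  have hz : pj (0 / τ) = 0 := by simp [pj]
  have hd : ∀ t : ℝ, HasDerivAt (fun t : ℝ => t / τ) τ⁻¹ t := fun t => by
    simpa using (hasDerivAt_id t).div_const τ
  refine ⟨fun t => L (pj (t / τ)), fun t => D0 (pj (t / τ)), fun t => D1 (pj (t / τ)),
    fun t => d2 (t / τ), ⟨fun t _ => hWS.mem _, fun t _ => hWS.r1 _,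
      fun t ht => (hd2 _ (hI t ht)).1, fun t ht => ?_, fun t ht => ?_⟩, sL.comp hs hI,
    sD0.comp hs hI, sD1.comp hs hI, sd2.comp hs hI, (L.continuous.comp hc).continuousOn,
    (D0.continuous.comp hc).continuousOn, (D1.continuous.comp hc).continuousOn,
    by simp only [hz, e0], by simp only [hz, e1], by simp only [hz, e2], ?_⟩
  · have := (hd2 _ (hI t ht)).2.1.scomp t (hd t)
    rwa [inv_smul_smul₀ hτ.ne'] at this
  · have := (hd2 _ (hI t ht)).2.2.scomp t (hd t)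
    rwa [inv_smul_smul₀ hτ.ne'] at this
  intro τ' L' D0' D1' D2' hτ' hCl cL c0 c1 c2 f0 f1 f2
  obtain ⟨Lc, D0c, D1c, D2c, Fc, wc, hWS', hval⟩ := ws_of_cl S hτ' hCl cL c0 c1 c2
    (f0 ▸ hb (Metric.mem_ball_self hδ)) (f1 ▸ f2 ▸ hr1)
  obtain ⟨τ0, hτ0, huni⟩ := hU H V Y K S
    (max (max ‖D1‖ ‖D1c‖) (max (√τ * ‖D2‖) (√(τ' / 2) * ‖D2c‖)))
    (le_max_of_le_left (le_max_of_le_left (norm_nonneg _)))
  set τ3 := min τ0 (min τ (τ' / 2)) with hτ3
  have h3 : 0 < τ3 := lt_min hτ0 (lt_min hτ (half_pos hτ'))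
  have l1 : τ3 ≤ τ := (min_le_right _ _).trans (min_le_left _ _)
  have l2 : τ3 ≤ τ' / 2 := (min_le_right _ _).trans (min_le_right _ _)
  obtain ⟨ρ, A2, AF, Aw, hρ, a1, a2, a3⟩ := ws_short S h3 l1 hWS
  obtain ⟨ρ', B2, BF, Bw, hρ', b1, b2, b3⟩ := ws_short S h3 l2 hWS'
  obtain ⟨u1, u2, u3⟩ := huni τ3 ⟨h3, min_le_left _ _⟩ _ _ _ _ _ _ _ _ _ _ _ _ a1 b1
    (a3.trans (le_max_of_le_left (le_max_left _ _)))
    (b3.trans (le_max_of_le_left (le_max_right _ _)))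
    (a2.trans (le_max_of_le_right (le_max_left _ _)))
    (b2.trans (le_max_of_le_right (le_max_right _ _)))
    (by simp [(hval 0).1, e0, f0]) (by simp [(hval 0).2.1, e1, f1])
  refine ⟨τ3, h3, fun s hs => ?_⟩
  let t : II := ⟨s / τ3, (div_pos hs.1 h3).le, (div_le_one h3).2 hs.2.le⟩
  have t1 : pj (s / τ) = ρ * t := by
    have : s / τ = ((ρ * t : II) : ℝ) := by
      rw [Set.Icc.coe_mul, hρ]
      change _ = τ3 / τ * (s / τ3)
      field_simp
    rw [this, pj_val]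
  have t2 : τ' / 2 * ((ρ' * t : II) : ℝ) = s := by
    rw [Set.Icc.coe_mul, hρ']
    change τ' / 2 * (τ3 / (τ' / 2) * (s / τ3)) = s
    field_simp
  have v1 := congrArg (fun f : C(II, V) => f t) u1
  have v2 := congrArg (fun f : C(II, H) => f t) u2
  have v3 := congrArg (fun f : C(II, H) => f t) u3
  simp only [ContinuousMap.comp_apply, scm_apply] at v1 v2 v3
  obtain ⟨w1, w2, w3⟩ := hval (ρ' * t)
  rw [t2] at w1 w2 w3
  simp only [t1]
  exact ⟨w1 ▸ v1.symm, w2 ▸ v2.symm, w3 ▸ v3.symm⟩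

end Pool.Agent.P.MP_cf7202_gt
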