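import Pool.Agent.P.MP_cf7202_gt.DefAbs

/-! Estimates for the rescaled right hand sides and short time uniqueness. -/

namespace Pool.Agent.P.MP_cf7202_gt

open Set Filter Topology Function MeasureTheory
open scoped ContDiff ENNReal

namespace AESTAux

section
variable {E F G E' F' : Type} [NormedAddCommGroup E] [NormedSpace ℝ E] [NormedAddCommGroup F]
  [NormedSpace ℝ F] [NormedAddCommGroup G] [NormedSpace ℝ G] [NormedAddCommGroup E']
  [NormedSpace ℝ E'] [NormedAddCommGroup F'] [NormedSpace ℝ F']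

theorem exists_comb (g : L2 G) (g' : L2 E) {a b : ℝ} (ha : 0 ≤ a) (hb : 0 ≤ b) :
    ∃ u : L2 ℝ, (∀ᵐ t : II, ‖u t‖ = a * ‖g t‖ + b * ‖g' t‖) ∧ ‖u‖ ≤ a * ‖g‖ + b * ‖g'‖ := by
  have h : ∀ᵐ t : II, ‖(a • (Lp.memLp g).norm.toLp _ + b • (Lp.memLp g').norm.toLp _ : L2 ℝ) t‖
      = a * ‖g t‖ + b * ‖g' t‖ := by
    filter_upwards [Lp.coeFn_add (a • (Lp.memLp g).norm.toLp _)
      (b • (Lp.memLp g').norm.toLp _), Lp.coeFn_smul a ((Lp.memLp g).norm.toLp _),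
      Lp.coeFn_smul b ((Lp.memLp g').norm.toLp _), (Lp.memLp g).norm.coeFn_toLp,
      (Lp.memLp g').norm.coeFn_toLp] with t e2 e3 e4 e5 e6
    rw [e2, Pi.add_apply, e3, e4, Pi.smul_apply, Pi.smul_apply, e5, e6, smul_eq_mul, smul_eq_mul]
    exact Real.norm_of_nonneg (by positivity)
  refine ⟨_, h, ?_⟩
  have := L2_norm_le _ g g' ha hb le_rfl (h.mono fun t ht => by rw [ht, add_zero])
  simpa using this

theorem L2_norm_le4 (f : L2 F) (g1 : L2 G) (g2 : L2 E) (g3 : L2 E') (g4 : L2 F')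
    {a b c d e : ℝ} (ha : 0 ≤ a) (hb : 0 ≤ b) (hc : 0 ≤ c) (hd : 0 ≤ d) (he : 0 ≤ e)
    (h : ∀ᵐ t : II, ‖f t‖ ≤ a * ‖g1 t‖ + b * ‖g2 t‖ + c * ‖g3 t‖ + d * ‖g4 t‖ + e) :
    ‖f‖ ≤ a * ‖g1‖ + b * ‖g2‖ + c * ‖g3‖ + d * ‖g4‖ + e := by
  obtain ⟨u, hu, nu⟩ := exists_comb g1 g2 ha hb
  obtain ⟨v, hv, nv⟩ := exists_comb g3 g4 hc hd
  have := L2_norm_le f u v zero_le_one zero_le_one he (by
    filter_upwards [h, hu, hv] with t h0 h1 h2
    rw [h1, h2]; linarith)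
  linarith

end

section
variable {H V Y K : Type} [NormedAddCommGroup H] [InnerProductSpace ℝ H]
  [NormedAddCommGroup V] [NormedSpace ℝ V] [NormedAddCommGroup Y] [NormedSpace ℝ Y]
  (S : Sys H V Y K)

theorem BL_prod {Z : Type} [NormedAddCommGroup Z] {U : Set V} {R : ℝ} {N : V × H → Z}
    (h : BL (U ×ˢ Metric.closedBall (0 : H) R) N) : ∃ C : ℝ, 0 ≤ C ∧
      (∀ L ∈ U, ∀ x : H, ‖x‖ ≤ R → ‖N (L, x)‖ ≤ C) ∧ ∀ L ∈ U, ∀ L' ∈ U, ∀ x x' : H,
        ‖x‖ ≤ R → ‖x'‖ ≤ R → ‖N (L, x) - N (L', x')‖ ≤ C * (‖L - L'‖ + ‖x - x'‖) := by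
  obtain ⟨C, h0, h1, h2⟩ := h
  refine ⟨C, h0, fun L hL x hx => h1 _ ⟨hL, by simpa using hx⟩, fun L hL L' hL' x x' hx hx' => ?_⟩
  refine (h2 (L, x) ⟨hL, by simpa using hx⟩ (L', x') ⟨hL', by simpa using hx'⟩).trans ?_
  gcongr
  rw [Prod.mk_sub_mk, Prod.norm_mk]
  exact max_le (le_add_of_nonneg_right (norm_nonneg _)) (le_add_of_nonneg_left (norm_nonneg _))

theorem tr_le {ε : ℝ} (hε : ε ∈ Ioc (0 : ℝ) 1) (h1 h2 : H) :
    ‖ε ^ 2 • S.T1 ε h1 + S.T2 ε h2‖ ≤ S.CT * ε * (‖h1‖ + ‖h2‖) := by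
  have a := S.hT1 ε hε h1
  have b := S.hT2 ε hε h2
  refine (norm_add_le _ _).trans ?_
  rw [norm_smul, Real.norm_of_nonneg (sq_nonneg ε)]
  have := mul_le_mul_of_nonneg_left a hε.1.le
  nlinarith

theorem est_w (R : ℝ) (hR : 0 ≤ R) : ∃ E : ℝ, 0 ≤ E ∧ ∀ ε ∈ Ioc (0 : ℝ) 1,
    ∀ (L L' : C(II, V)) (D1 D1' : C(II, H)) (D2 D2' : L2 H) (w w' : L2 V),
      (∀ t, L t ∈ S.U) → (∀ t, L' t ∈ S.U) → ‖D1‖ ≤ R → ‖D1'‖ ≤ R → ‖D2‖ ≤ R →
      (∀ᵐ t : II, w t = S.vh ε (L t) (D1 t) (D2 t)) →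
      (∀ᵐ t : II, w' t = S.vh ε (L' t) (D1' t) (D2' t)) →
      ‖w‖ ≤ E * ε ∧ ‖w - w'‖ ≤ E * ε * (‖L - L'‖ + ‖D1 - D1'‖ + ‖D2 - D2'‖) := by
  obtain ⟨CW, p1, bW, lW⟩ := S.bW
  obtain ⟨C0, p2, b0, l0⟩ := BL_prod (S.bW0 R)
  have p3 := S.hCT
  refine ⟨2 * (CW * S.CT) * R + CW * S.CT + C0, by positivity, ?_⟩
  intro ε hε L L' D1 D1' D2 D2' w w' hL hL' h1 h1' h2 hw hw'
  have e0 := hε.1
  have e1 := hε.2
  have e2 : ε ^ 2 ≤ ε := by nlinarith
  have n1 : ∀ t, ‖D1 t‖ ≤ R := fun t => (D1.norm_coe_le_norm t).trans h1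
  have n1' : ∀ t, ‖D1' t‖ ≤ R := fun t => (D1'.norm_coe_le_norm t).trans h1'
  set M := CW * S.CT with hM
  have pM : 0 ≤ M := by positivity
  constructor
  · have := L2_norm_le w D2 D2 (a := M * ε) (b := 0) (c := M * ε * R + C0 * ε) (by positivity)
      le_rfl (by positivity) (by
        filter_upwards [hw] with t ht
        rw [ht, Sys.vh]
        refine (norm_add_le _ _).trans ?_
        have a1 := (S.W (L t)).le_of_opNorm_le_of_le (bW _ (hL t)) (tr_le S hε (D1 t) (D2 t))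
        have a2 : ‖ε ^ 2 • S.W0 (L t, D1 t)‖ ≤ ε * C0 := by
          rw [norm_smul, Real.norm_of_nonneg (sq_nonneg ε)]
          exact mul_le_mul e2 (b0 _ (hL t) _ (n1 t)) (norm_nonneg _) e0.le
        have a3 : M * ε * ‖D1 t‖ ≤ M * ε * R := by gcongr; exact n1 t
        have a4 : CW * (S.CT * ε * (‖D1 t‖ + ‖D2 t‖)) = M * ε * ‖D1 t‖ + M * ε * ‖D2 t‖ := by
          rw [hM]; ring
        linarith)
    have a5 : M * ε * ‖D2‖ ≤ M * ε * R := by gcongr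
    have a6 : 0 ≤ M * ε := by positivity
    linarith
  · set y := ‖L - L'‖ with hy
    set d1 := ‖D1 - D1'‖ with hd1
    have py : 0 ≤ y := norm_nonneg _
    have pd : 0 ≤ d1 := norm_nonneg _
    have := L2_norm_le (w - w') D2 (D2 - D2') (a := M * ε * y) (b := M * ε)
      (c := M * ε * y * R + M * ε * d1 + C0 * ε * (y + d1)) (by positivity)
      (by positivity) (by positivity) (by
        filter_upwards [hw, hw', Lp.coeFn_sub w w', Lp.coeFn_sub D2 D2'] with t ht ht' s1 s2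
        have ny : ‖L t - L' t‖ ≤ y := (L - L').norm_coe_le_norm t
        have nd : ‖D1 t - D1' t‖ ≤ d1 := (D1 - D1').norm_coe_le_norm t
        rw [s1, s2, Pi.sub_apply, Pi.sub_apply, ht, ht']
        have e : S.vh ε (L t) (D1 t) (D2 t) - S.vh ε (L' t) (D1' t) (D2' t) =
            (S.W (L t) - S.W (L' t)) (ε ^ 2 • S.T1 ε (D1 t) + S.T2 ε (D2 t)) +
            S.W (L' t) (ε ^ 2 • S.T1 ε (D1 t - D1' t) + S.T2 ε (D2 t - D2' t)) +
            ε ^ 2 • (S.W0 (L t, D1 t) - S.W0 (L' t, D1' t)) := by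
          simp only [Sys.vh, ContinuousLinearMap.sub_apply, map_add, map_sub, map_smul, smul_sub]
          abel
        rw [e]
        refine (norm_add₃_le).trans ?_
        have a0 : ‖S.W (L t) - S.W (L' t)‖ ≤ CW * y :=
          (lW _ (hL t) _ (hL' t)).trans (by gcongr)
        have a1 := (S.W (L t) - S.W (L' t)).le_of_opNorm_le_of_le a0 (tr_le S hε (D1 t) (D2 t))
        have a1' := (S.W (L' t)).le_of_opNorm_le_of_le (bW _ (hL' t))
          (tr_le S hε (D1 t - D1' t) (D2 t - D2' t))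
        have a2 : ‖ε ^ 2 • (S.W0 (L t, D1 t) - S.W0 (L' t, D1' t))‖ ≤ ε * (C0 * (y + d1)) := by
          rw [norm_smul, Real.norm_of_nonneg (sq_nonneg ε)]
          refine mul_le_mul e2 ((l0 _ (hL t) _ (hL' t) _ _ (n1 t) (n1' t)).trans ?_)
            (norm_nonneg _) e0.le
          gcongr
        have a3 : M * ε * y * ‖D1 t‖ ≤ M * ε * y * R := by gcongr; exact n1 t
        have a3' : M * ε * ‖D1 t - D1' t‖ ≤ M * ε * d1 := by gcongr
        have a4 : CW * y * (S.CT * ε * (‖D1 t‖ + ‖D2 t‖)) =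
            M * ε * y * ‖D1 t‖ + M * ε * y * ‖D2 t‖ := by rw [hM]; ring
        have a4' : CW * (S.CT * ε * (‖D1 t - D1' t‖ + ‖D2 t - D2' t‖)) =
            M * ε * ‖D1 t - D1' t‖ + M * ε * ‖D2 t - D2' t‖ := by rw [hM]; ring
        linarith)
    have a5 : M * ε * y * ‖D2‖ ≤ M * ε * y * R := by gcongr
    set d2 := ‖D2 - D2'‖ with hd2
    have pd2 : 0 ≤ d2 := norm_nonneg _
    have a6 : 0 ≤ M * ε * y + 2 * M * R * ε * d1 + 2 * M * R * ε * d2 + C0 * ε * d2 := by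
      positivity
    linarith

theorem est : S.Est := by
  intro R hR
  obtain ⟨E, pE, hE⟩ := est_w S R hR
  obtain ⟨CA, p1, -, lA⟩ := S.bA
  obtain ⟨C0, p2, b0, l0⟩ := BL_prod (S.bN0 R)
  obtain ⟨C1, p3, b1, l1⟩ := BL_prod (S.bN1 R)
  have pc := S.hc
  have pγ : 0 ≤ 1 - S.γ := sub_nonneg.2 S.hγ1
  set k := 2 / S.c with hk
  have pk : 0 ≤ k := by positivity
  refine ⟨E + k * (CA * R + 2 * C1 * E + C0), by positivity, ?_⟩
  intro ε hε μ hμ L L' D1 D1' D2 D2' G G' w w' hL hL' h1 h1' h2 h2' hw hw' hG hG'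
  obtain ⟨w1, w2⟩ := hE ε hε L L' D1 D1' D2 D2' w w' hL hL' h1 h1' h2 hw hw'
  have e0 := hε.1
  have e1 := hε.2
  have e2 : ε ^ 2 ≤ ε := by nlinarith
  have n1 : ∀ t, ‖D1 t‖ ≤ R := fun t => (D1.norm_coe_le_norm t).trans h1
  have n1' : ∀ t, ‖D1' t‖ ≤ R := fun t => (D1'.norm_coe_le_norm t).trans h1'
  have hm : ∀ (x : H) (r : ℝ), ‖x‖ ≤ r → ‖(μ / S.c) • x‖ ≤ k * r := fun x r hx => by
    have : 0 ≤ μ := by linarith [hμ.1]
    rw [norm_smul, Real.norm_of_nonneg (by positivity)]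
    refine mul_le_mul ?_ hx (norm_nonneg _) pk
    rw [hk]; gcongr; exact hμ.2
  set y := ‖L - L'‖ with hy
  set d1 := ‖D1 - D1'‖ with hd1
  set d2 := ‖D2 - D2'‖ with hd2
  have py : 0 ≤ y := norm_nonneg _
  have pd : 0 ≤ d1 := norm_nonneg _
  have pd2 : 0 ≤ d2 := norm_nonneg _
  refine ⟨?_, ?_, ?_, ?_⟩
  · have : 0 ≤ k * (CA * R + 2 * C1 * E + C0) * ε := by positivity
    linarith
  · have := L2_norm_le ((μ / S.c) • G - D2) D2 w (a := 1 - S.γ) (b := k * C1) (c := k * (ε * C0))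
      pγ (by positivity) (by positivity) (by
        filter_upwards [hG, Lp.coeFn_sub ((μ / S.c) • G) D2, Lp.coeFn_smul (μ / S.c) G]
          with t ht s1 s2
        rw [s1, Pi.sub_apply, s2, Pi.smul_apply, ht]
        have e : (μ / S.c) • S.Gh ε (L t) (D1 t) (D2 t) (w t) - D2 t =
            ((μ / S.c) • S.A (L t) (D2 t) - D2 t) + (μ / S.c) • S.N1 (L t, D1 t) (w t) +
            (μ / S.c) • ε ^ 2 • S.N0 (L t, D1 t) := by
          simp only [Sys.Gh, smul_add]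
          abel
        rw [e]
        refine (norm_add₃_le).trans ?_
        have a1 := S.hA _ (hL t) μ hμ (D2 t)
        have a2 := hm _ _ ((S.N1 (L t, D1 t)).le_of_opNorm_le (b1 _ (hL t) _ (n1 t)) (w t))
        have a3 : ‖ε ^ 2 • S.N0 (L t, D1 t)‖ ≤ ε * C0 := by
          rw [norm_smul, Real.norm_of_nonneg (sq_nonneg ε)]
          exact mul_le_mul e2 (b0 _ (hL t) _ (n1 t)) (norm_nonneg _) e0.le
        have a4 := hm _ _ a3
        linarith)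
    have a5 : k * C1 * ‖w‖ ≤ k * C1 * (E * ε) := by gcongr
    have a6 : 0 ≤ E * ε + k * CA * R * ε + k * C1 * E * ε := by positivity
    linarith
  · have : 0 ≤ k * (CA * R + 2 * C1 * E + C0) * ε * (y + d1 + d2) := by positivity
    linarith
  · have := L2_norm_le4 (((μ / S.c) • G - D2) - ((μ / S.c) • G' - D2')) (D2 - D2') D2' w (w - w')
      (a := 1 - S.γ) (b := k * (CA * y)) (c := k * (C1 * (y + d1))) (d := k * C1)
      (e := k * (ε * (C0 * (y + d1)))) pγ (by positivity) (by positivity) (by positivity)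
      (by positivity) (by
        filter_upwards [hG, hG', Lp.coeFn_sub ((μ / S.c) • G) D2, Lp.coeFn_smul (μ / S.c) G,
          Lp.coeFn_sub ((μ / S.c) • G') D2', Lp.coeFn_smul (μ / S.c) G',
          Lp.coeFn_sub ((μ / S.c) • G - D2) ((μ / S.c) • G' - D2'), Lp.coeFn_sub D2 D2',
          Lp.coeFn_sub w w'] with t ht ht' s1 s2 s3 s4 s5 s6 s7
        have ny : ‖L t - L' t‖ ≤ y := (L - L').norm_coe_le_norm t
        have nd : ‖D1 t - D1' t‖ ≤ d1 := (D1 - D1').norm_coe_le_norm t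
        rw [s5, Pi.sub_apply, s1, s3, Pi.sub_apply, Pi.sub_apply, s2, s4, Pi.smul_apply,
          Pi.smul_apply, ht, ht', s6, s7, Pi.sub_apply, Pi.sub_apply]
        have e : (μ / S.c) • S.Gh ε (L t) (D1 t) (D2 t) (w t) - D2 t -
            ((μ / S.c) • S.Gh ε (L' t) (D1' t) (D2' t) (w' t) - D2' t) =
            (((μ / S.c) • S.A (L t) (D2 t - D2' t) - (D2 t - D2' t)) +
            (μ / S.c) • (S.A (L t) - S.A (L' t)) (D2' t) +
            (μ / S.c) • (S.N1 (L t, D1 t) - S.N1 (L' t, D1' t)) (w t)) +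
            (μ / S.c) • S.N1 (L' t, D1' t) (w t - w' t) +
            (μ / S.c) • ε ^ 2 • (S.N0 (L t, D1 t) - S.N0 (L' t, D1' t)) := by
          simp only [Sys.Gh, smul_add, smul_sub, map_sub, ContinuousLinearMap.sub_apply]
          abel
        rw [e]
        refine (norm_add₃_le).trans (add_le_add (add_le_add (norm_add₃_le.trans ?_) ?_) ?_)
        · have a1 := S.hA _ (hL t) μ hμ (D2 t - D2' t)
          have b2 : ‖S.A (L t) - S.A (L' t)‖ ≤ CA * y := (lA _ (hL t) _ (hL' t)).trans (by gcongr)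
          have a2 := hm _ _ ((S.A (L t) - S.A (L' t)).le_of_opNorm_le b2 (D2' t))
          have b3 : ‖S.N1 (L t, D1 t) - S.N1 (L' t, D1' t)‖ ≤ C1 * (y + d1) :=
            (l1 _ (hL t) _ (hL' t) _ _ (n1 t) (n1' t)).trans (by gcongr)
          have a3 := hm _ _ ((S.N1 (L t, D1 t) - S.N1 (L' t, D1' t)).le_of_opNorm_le b3 (w t))
          linarith
        · have a2 := hm _ _ ((S.N1 (L' t, D1' t)).le_of_opNorm_le (b1 _ (hL' t) _ (n1' t))
            (w t - w' t))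
          linarith
        · refine hm _ _ ?_
          rw [norm_smul, Real.norm_of_nonneg (sq_nonneg ε)]
          refine mul_le_mul e2 ((l0 _ (hL t) _ (hL' t) _ _ (n1 t) (n1' t)).trans ?_)
            (norm_nonneg _) e0.le
          gcongr)
    have a5 : k * (CA * y) * ‖D2'‖ ≤ k * (CA * y) * R := by gcongr
    have a6 : k * (C1 * (y + d1)) * ‖w‖ ≤ k * (C1 * (y + d1)) * (E * ε) := by gcongr
    have a7 : k * C1 * ‖w - w'‖ ≤ k * C1 * (E * ε * (y + d1 + d2)) := by gcongr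
    have a8 : k * (2 * C1 * E + C0) * y * ε ≤ k * (2 * C1 * E + C0) * y * 1 := by gcongr
    have a9 : 0 ≤ E * y + E * ε * (d1 + d2) + k * CA * R * ε * (d1 + d2)
        + k * (C1 * E + C0) * ε * d2 := by positivity
    linarith

theorem R2_smul {M : Modes H K} {h1 h2 : H} (h : M.R2 h1 h2) (b : ℝ) :
    M.R2 (b • h1) (b • h2) := fun k => by
  rw [inner_smul_right, inner_smul_right, h k]; ring

/-- the rescaled form of a strong solution -/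
theorem resc {τ ε : ℝ} (hε : ε ∈ Ioc (0 : ℝ) 1) (hτ : ε ^ 4 = S.c * τ) {L : C(II, V)}
    {D0 D1 : C(II, H)} {D2 F : L2 H} {w : L2 V} (h : S.WS τ L D0 D1 D2 F w) :
    (∀ᵐ t : II, (ε ^ 2 • w) t = S.vh ε (L t) (D1 t) ((ε ^ 2 • D2) t)) ∧
    (∀ᵐ t : II, (ε ^ 2 • F) t = S.Gh ε (L t) (D1 t) ((ε ^ 2 • D2) t) ((ε ^ 2 • w) t)) ∧
    (∀ t, D0 t = D0 0 + ε ^ 2 • JJ (ε ^ 2 • D2 + ((1 / S.c) • ε ^ 2 • F - ε ^ 2 • D2)) t) ∧
    (∀ᵐ t : II, S.M.R2 (ε ^ 2 • D1 t) ((ε ^ 2 • D2) t)) ∧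
    ∀ t, L t = L 0 + (ε ^ 2 / S.c) • JJ (ε ^ 2 • w) t := by
  have pc := S.hc
  have e : ε ^ 2 / S.c * ε ^ 2 = τ := by
    field_simp
    linarith
  refine ⟨?_, ?_, fun t => ?_, ?_, fun t => ?_⟩
  · filter_upwards [h.hw, h.r2, Lp.coeFn_smul (ε ^ 2) w, Lp.coeFn_smul (ε ^ 2) D2]
      with t h1 h2 s1 s2
    rw [s1, s2, Pi.smul_apply, Pi.smul_apply, h1, Sys.v, Sys.vh, ← S.hT ε hε _ _ h2, map_smul,
      ← smul_add, map_smul, smul_add]
  · filter_upwards [h.hF, Lp.coeFn_smul (ε ^ 2) w, Lp.coeFn_smul (ε ^ 2) D2,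
      Lp.coeFn_smul (ε ^ 2) F] with t h1 s1 s2 s3
    rw [s1, s2, s3, Pi.smul_apply, Pi.smul_apply, Pi.smul_apply, h1, Sys.F, Sys.Gh, map_smul,
      map_smul, smul_add, smul_add]
  · rw [add_sub_cancel, map_smul, map_smul, ContinuousMap.smul_apply, ContinuousMap.smul_apply,
      smul_smul, smul_smul, mul_one_div, e]
    exact h.iD t
  · filter_upwards [h.r2, Lp.coeFn_smul (ε ^ 2) D2] with t h2 s2
    rw [s2, Pi.smul_apply]
    exact R2_smul h2 _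
  · rw [map_smul, ContinuousMap.smul_apply, smul_smul, e]
    exact h.iL t

theorem arith {γ c C ε x y : ℝ} (hγ : γ ≤ 1) (hc : 0 < c) (hC : 0 ≤ C) (e0 : 0 < ε) (e1 : ε ≤ 1)
    (hx : 0 ≤ x) (hy : 0 ≤ y) (hQ : ε * (4 * C ^ 2 / c + 2 * C + 2 * C / c + 1) ≤ γ)
    (h1 : x ≤ (1 - γ) * x + C * y + C * ε * (x + x))
    (h2 : y ≤ ε ^ 2 / c * (C * ε * (y + x + x))) : x = 0 ∧ y = 0 := by
  set κ := C * ε / c with hκ
  have pκ : 0 ≤ κ := by positivity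
  have q1 : 0 ≤ ε * (4 * C ^ 2 / c) := by positivity
  have q2 : 0 ≤ ε * (2 * C) := by positivity
  have q3 : ε * (2 * C / c) = 2 * κ := by rw [hκ]; ring
  have q4 : ε * (4 * C ^ 2 / c) = 4 * C * κ := by rw [hκ]; ring
  have k1 : 2 * κ ≤ 1 := by nlinarith
  have h3 : y ≤ κ * (y + x + x) := by
    refine h2.trans ?_
    have : ε ^ 2 / c * (C * ε * (y + x + x)) = ε ^ 2 * (κ * (y + x + x)) := by rw [hκ]; ring
    rw [this]
    exact mul_le_of_le_one_left (by positivity) (by nlinarith)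
  have h4 : y ≤ 4 * κ * x := by nlinarith
  have h5 : C * y ≤ C * (4 * κ * x) := by gcongr
  have h6 : (4 * C * κ + ε * (2 * C) + ε) * x ≤ γ * x := by
    gcongr
    nlinarith
  have h7 : ε * x ≤ 0 := by nlinarith
  have h8 : x = 0 := le_antisymm (by by_contra h; push Not at h; nlinarith) hx
  refine ⟨h8, le_antisymm ?_ hy⟩
  rw [h8] at h4
  simpa using h4

end

end AESTAux

open AESTAux

theorem aest : S_AEST := by
  intro H V Y K _ _ _ _ _ _ _ _ _ _ S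
  exact est S

theorem uni : S_MR → S_AEST → S_UNI := by
  intro mr ae H V Y K _ _ _ _ _ _ _ _ _ _ S R hR
  have pc := S.hc
  have pγ := S.hγ
  obtain ⟨C, pC, hC⟩ := ae H V Y K S (R + √S.c * R) (by positivity)
  set Q := 4 * C ^ 2 / S.c + 2 * C + 2 * C / S.c + 1 with hQ
  have Q1 : 1 ≤ Q := by rw [hQ]; exact le_add_of_nonneg_left (by positivity)
  have pQ : 0 < Q := by linarith
  refine ⟨(S.γ / Q) ^ 4 / S.c, by positivity, ?_⟩
  intro τ hτ L L' D0 D0' D1 D1' D2 D2' F F' w w' h h' n1 n1' n2 n2' i1 i2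
  have pτ := hτ.1
  set ε := √(√(S.c * τ)) with hεd
  have e2 : ε ^ 2 = √S.c * √τ := by
    rw [hεd, Real.sq_sqrt (Real.sqrt_nonneg _), Real.sqrt_mul pc.le]
  have e4 : ε ^ 4 = S.c * τ := by
    rw [show ε ^ 4 = (ε ^ 2) ^ 2 by ring, e2, mul_pow, Real.sq_sqrt pc.le, Real.sq_sqrt pτ.le]
  have e0 : 0 < ε := Real.sqrt_pos.2 (Real.sqrt_pos.2 (by positivity))
  have e5 : ε ≤ S.γ / Q := by
    refine le_of_pow_le_pow_left₀ (n := 4) (by norm_num) (by positivity) ?_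
    rw [e4, mul_comm]
    exact (le_div_iff₀ pc).1 hτ.2
  have e6 : ε * Q ≤ S.γ := (le_div_iff₀ pQ).1 e5
  have e1 : ε ≤ 1 := by nlinarith [S.hγ1]
  have hε : ε ∈ Ioc (0 : ℝ) 1 := ⟨e0, e1⟩
  obtain ⟨a1, a2, a3, a4, a5⟩ := resc S hε e4 h
  obtain ⟨b1, b2, b3, b4, b5⟩ := resc S hε e4 h'
  have pR : 0 ≤ √S.c * R := by positivity
  have m2 : ∀ D : L2 H, √τ * ‖D‖ ≤ R → ‖ε ^ 2 • D‖ ≤ R + √S.c * R := fun D hD => by
    rw [norm_smul, Real.norm_of_nonneg (sq_nonneg ε), e2, mul_assoc]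
    have : √S.c * (√τ * ‖D‖) ≤ √S.c * R := by gcongr
    linarith
  obtain ⟨-, -, c3, c4⟩ := hC ε hε 1 ⟨by norm_num, by norm_num⟩ L L' D1 D1' _ _ _ _ _ _ h.mem h'.mem
    (by linarith) (by linarith) (m2 D2 n2) (m2 D2' n2') a1 b1 a2 b2
  obtain ⟨S1, S2, s1, s2, hS⟩ := mr H K S.M (ε ^ 2) (by positivity)
  obtain ⟨U1, U2, -, -, -, hU⟩ := hS (D0 0) (D1 0) (h.r1 0)
  set g := (1 / S.c) • ε ^ 2 • F - ε ^ 2 • D2 with hg
  set g' := (1 / S.c) • ε ^ 2 • F' - ε ^ 2 • D2' with hg'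
  obtain ⟨u1, u2⟩ := hU D1 (ε ^ 2 • D2) g (fun t => by rw [← a3 t]; exact h.r1 t) a4
  obtain ⟨v1, v2⟩ := hU D1' (ε ^ 2 • D2') g' (fun t => by rw [i2, ← b3 t]; exact h'.r1 t) b4
  have d1 : ‖D1 - D1'‖ ≤ ‖g - g'‖ := by
    rw [u1, v1, add_sub_add_left_eq_sub, ← map_sub]; exact s1 _
  have d2 : ‖ε ^ 2 • D2 - ε ^ 2 • D2'‖ ≤ ‖g - g'‖ := by
    rw [u2, v2, add_sub_add_left_eq_sub, ← map_sub]; exact s2 _
  have d3 : ‖L - L'‖ ≤ ε ^ 2 / S.c * ‖ε ^ 2 • w - ε ^ 2 • w'‖ := by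
    have : L - L' = (ε ^ 2 / S.c) • JJ (ε ^ 2 • w - ε ^ 2 • w') := by
      ext t
      rw [ContinuousMap.sub_apply, a5 t, b5 t, i1, add_sub_add_left_eq_sub, map_sub,
        ContinuousMap.smul_apply, ContinuousMap.sub_apply, smul_sub]
    rw [this, norm_smul, Real.norm_of_nonneg (by positivity)]
    gcongr
    exact JJ_norm _
  have pγ' : 0 ≤ 1 - S.γ := sub_nonneg.2 S.hγ1
  obtain ⟨x0, y0⟩ := arith (x := ‖g - g'‖) (y := ‖L - L'‖) S.hγ1 pc pC e0 e1 (norm_nonneg _)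
    (norm_nonneg _) e6 (c4.trans (by gcongr)) (d3.trans (by gcongr; exact c3.trans (by gcongr)))
  rw [x0] at d1 d2
  have gg : g = g' := sub_eq_zero.1 (norm_eq_zero.1 x0)
  have dd : ε ^ 2 • D2 = ε ^ 2 • D2' := sub_eq_zero.1 (norm_le_zero_iff.1 d2)
  refine ⟨sub_eq_zero.1 (norm_eq_zero.1 y0), ?_, sub_eq_zero.1 (norm_le_zero_iff.1 d1)⟩
  ext t
  rw [a3 t, b3 t, i2, gg, dd]

end Pool.Agent.P.MP_cf7202_gt
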