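import Pool.Agent.P.MP_cf7202_gt.DefGeo

/-! The monotonicity formula for the quarter network and its consequence. -/

namespace Pool.Agent.P.MP_cf7202_gt

open Set Filter Topology Function Real

namespace B10Aux

variable (G : GS TT) (i : Fin 3)

/-- the backward heat kernel along the edge -/
noncomputable def R (t p : ℝ) : ℝ :=
  (σσ t)⁻¹ * exp (-(G.x i t p ^ 2 + G.y i t p ^ 2) / (2 * σσ t ^ 2))

/-- tangential component of the position -/
noncomputable def Xt (t p : ℝ) : ℝ :=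
  G.x i t p * cos (G.θ i t p + αα i) + G.y i t p * sin (G.θ i t p + αα i)

/-- normal component of the position -/
noncomputable def Xn (t p : ℝ) : ℝ :=
  G.y i t p * cos (G.θ i t p + αα i) - G.x i t p * sin (G.θ i t p + αα i)

/-- the defect in the shrinker equation -/
noncomputable def a (t p : ℝ) : ℝ := G.κ i t p + Xn G i t p / σσ t ^ 2

/-- the boundary term -/
noncomputable def B (t p : ℝ) : ℝ := R G i t p * (G.lam i t p + Xt G i t p / σσ t ^ 2)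

/-- its derivative along the edge -/
noncomputable def Bp (t p : ℝ) : ℝ :=
  R G i t p * (G.mt i t p + G.κ i t p ^ 2 * G.m i t p +
    (G.m i t p + G.m i t p * G.κ i t p * Xn G i t p) / σσ t ^ 2 -
    G.m i t p * Xt G i t p / σσ t ^ 2 * (G.lam i t p + Xt G i t p / σσ t ^ 2))

/-- the dissipation density -/
noncomputable def D (t p : ℝ) : ℝ := R G i t p * (a G i t p ^ 2 * G.m i t p)

theorem hasB {t p : ℝ} (ht : t ∈ Ioo 0 TT) (hp : p ∈ Icc (0 : ℝ) 1) (h0 : σσ t ≠ 0) :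
    HasDerivWithinAt (B G i t) (Bp G i t p) (Icc 0 1) p := by
  have ht' : t ∈ Ico 0 TT := ⟨ht.1.le, ht.2⟩
  have hx := G.xp i t ht' p hp
  have hy := G.yp i t ht' p hp
  have hθ := (G.θp i t ht p hp).add_const (αα i)
  have hl := G.lamp i t ht p hp
  have hR := (((hx.fun_pow 2).fun_add (hy.fun_pow 2)).fun_neg.div_const
    (2 * σσ t ^ 2)).exp.const_mul (σσ t)⁻¹
  have hX := ((hx.fun_mul hθ.cos).fun_add (hy.fun_mul hθ.sin)).div_const (σσ t ^ 2)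
  refine HasDerivWithinAt.congr_deriv (hR.fun_mul (hl.fun_add hX)) ?_
  simp only [Bp, R, Xt, Xn]
  have h1 := sin_sq_add_cos_sq (G.θ i t p + αα i)
  generalize exp (-(G.x i t p ^ 2 + G.y i t p ^ 2) / (2 * σσ t ^ 2)) = E
  generalize sin (G.θ i t p + αα i) = s at h1 ⊢
  generalize cos (G.θ i t p + αα i) = c at h1 ⊢
  field_simp
  norm_num
  linear_combination (2 * E * σσ t ^ 2 * G.m i t p) * h1

theorem hasT (nm : S_NUM) {t p : ℝ} (ht : t ∈ Ioo 0 TT) (hp : p ∈ Icc (0 : ℝ) 1) :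
    HasDerivAt (fun s => R G i s p * G.m i s p) (Bp G i t p - D G i t p) t := by
  have h0 := (nm.pos t ht.2).ne'
  have hx := G.xt i t ht p hp
  have hy := G.yt i t ht p hp
  have hm := G.mt' i t ht p hp
  have hs := nm.der t ht.2
  have hR := (hs.fun_inv h0).fun_mul (((hx.fun_pow 2).fun_add (hy.fun_pow 2)).fun_neg.fun_div
    ((hs.fun_pow 2).const_mul 2) (by positivity)).exp
  refine HasDerivAt.congr_deriv (hR.fun_mul hm) ?_
  simp only [Bp, D, a, R, Xt, Xn]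
  have h1 := sin_sq_add_cos_sq (G.θ i t p + αα i)
  generalize exp (-(G.x i t p ^ 2 + G.y i t p ^ 2) / (2 * σσ t ^ 2)) = E
  generalize sin (G.θ i t p + αα i) = s at h1 ⊢
  generalize cos (G.θ i t p + αα i) = c at h1 ⊢
  field_simp
  norm_num
  linear_combination (2 * σσ t * E * G.m i t p * (G.x i t p ^ 2 + G.y i t p ^ 2)) * h1


theorem ct0 {f : ℝ → ℝ → ℝ} (h : Ct0 TT f) :
    ContinuousOn (fun z : ℝ × ℝ => f z.1 z.2) (Ioo 0 TT ×ˢ Icc 0 1) :=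
  ContinuousOn.mono h (prod_mono Ioo_subset_Ico_self Subset.rfl)

theorem slice {f : ℝ → ℝ → ℝ} (h : Ct 0 TT f) {t : ℝ} (ht : t ∈ Ioo 0 TT) :
    ContinuousOn (f t) (Icc 0 1) :=
  ContinuousOn.comp (f := fun p : ℝ => (t, p)) h (by fun_prop) fun _ hp => ⟨ht, hp⟩

theorem cσ (nm : S_NUM) : ContinuousOn (fun z : ℝ × ℝ => σσ z.1) (Ioo 0 TT ×ˢ Icc 0 1) :=
  (nm.cont.comp continuous_fst).continuousOn

theorem nσ (nm : S_NUM) : ∀ z ∈ (Ioo 0 TT ×ˢ Icc 0 1 : Set (ℝ × ℝ)), σσ z.1 ≠ 0 :=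
  fun z hz => (nm.pos z.1 hz.1.2).ne'

theorem nσ2 (nm : S_NUM) : ∀ z ∈ (Ioo 0 TT ×ˢ Icc 0 1 : Set (ℝ × ℝ)), σσ z.1 ^ 2 ≠ 0 :=
  fun z hz => pow_ne_zero _ (nσ nm z hz)

theorem cR (nm : S_NUM) : Ct 0 TT (R G i) :=
  ((cσ nm).inv₀ (nσ nm)).mul
    (((((ct0 (G.cx i)).pow 2).add ((ct0 (G.cy i)).pow 2)).neg.div
      (continuousOn_const.mul ((cσ nm).pow 2))
      fun z hz => mul_ne_zero two_ne_zero (nσ2 nm z hz)).rexp)

theorem ccos : ContinuousOn (fun z : ℝ × ℝ => cos (G.θ i z.1 z.2 + αα i)) (Ioo 0 TT ×ˢ Icc 0 1) :=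
  continuous_cos.comp_continuousOn ((ct0 (G.cθ i)).add continuousOn_const)

theorem csin : ContinuousOn (fun z : ℝ × ℝ => sin (G.θ i z.1 z.2 + αα i)) (Ioo 0 TT ×ˢ Icc 0 1) :=
  continuous_sin.comp_continuousOn ((ct0 (G.cθ i)).add continuousOn_const)

theorem cXt : Ct 0 TT (Xt G i) :=
  ((ct0 (G.cx i)).mul (ccos G i)).add ((ct0 (G.cy i)).mul (csin G i))

theorem cXn : Ct 0 TT (Xn G i) :=
  ((ct0 (G.cy i)).mul (ccos G i)).sub ((ct0 (G.cx i)).mul (csin G i))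

theorem ca (nm : S_NUM) : Ct 0 TT (a G i) :=
  ContinuousOn.add (G.cκ i) (ContinuousOn.div (cXn G i) ((cσ nm).pow 2) (nσ2 nm))

theorem cD (nm : S_NUM) : Ct 0 TT (D G i) :=
  ContinuousOn.mul (cR G i nm) ((ContinuousOn.pow (ca G i nm) 2).mul (ct0 (G.cm i)))

theorem cBp (nm : S_NUM) : Ct 0 TT (Bp G i) :=
  ContinuousOn.mul (cR G i nm) (((ContinuousOn.add (G.cmt i)
    ((ContinuousOn.pow (G.cκ i) 2).mul (ct0 (G.cm i)))).add
    (((ct0 (G.cm i)).add (((ct0 (G.cm i)).mul (G.cκ i)).mul (cXn G i))).div ((cσ nm).pow 2)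
      (nσ2 nm))).sub ((((ct0 (G.cm i)).mul (cXt G i)).div ((cσ nm).pow 2) (nσ2 nm)).mul
      (ContinuousOn.add (G.clam i) (ContinuousOn.div (cXt G i) ((cσ nm).pow 2) (nσ2 nm)))))

theorem ii {f : ℝ → ℝ} (h : ContinuousOn f (Icc 0 1)) :
    IntervalIntegrable f MeasureTheory.volume 0 1 :=
  ContinuousOn.intervalIntegrable_of_Icc zero_le_one h

/-- the monotonicity formula on one edge -/
theorem edge (tk : S_TK) (nm : S_NUM) {t : ℝ} (ht : t ∈ Ioo 0 TT) :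
    HasDerivAt (fun s => ∫ p in (0 : ℝ)..1, R G i s p * G.m i s p)
      (B G i t 1 - B G i t 0 - ∫ p in (0 : ℝ)..1, D G i t p) t := by
  have h := tk.int_dt 0 TT (fun s p => R G i s p * G.m i s p)
    (fun s p => Bp G i s p - D G i s p) (ContinuousOn.mul (cR G i nm) (ct0 (G.cm i)))
    (ContinuousOn.sub (cBp G i nm) (cD G i nm)) (fun s hs p hp => hasT G i nm hs hp) t ht 1
    ⟨zero_le_one, le_rfl⟩
  refine h.congr_deriv ?_
  rw [intervalIntegral.integral_sub (ii (slice (cBp G i nm) ht)) (ii (slice (cD G i nm) ht)),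
    tk.ftc (B G i t) (Bp G i t) (slice (cBp G i nm) ht)
      (fun p hp => hasB G i ht hp (nm.pos t ht.2).ne') 1 ⟨zero_le_one, le_rfl⟩]

theorem Rpos (nm : S_NUM) {t : ℝ} (ht : t ∈ Ioo 0 TT) (p : ℝ) : 0 < R G i t p := by
  have := nm.pos t ht.2
  unfold R
  positivity

theorem Dnn (nm : S_NUM) {t : ℝ} (ht : t ∈ Ioo 0 TT) : 0 ≤ ∫ p in (0 : ℝ)..1, D G i t p :=
  intervalIntegral.integral_nonneg zero_le_one fun p hp =>
    mul_nonneg (Rpos G i nm ht p).le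
      (mul_nonneg (sq_nonneg _) (G.mpos i t ⟨ht.1.le, ht.2⟩ p hp).le)

theorem α0 : αα 0 = 2 * π / 3 := rfl

theorem α1 : αα 1 = 4 * π / 3 := rfl

theorem α2 : αα 2 = 0 := rfl

theorem c23 : cos (2 * π / 3) = -1 / 2 := by
  rw [show 2 * π / 3 = π - π / 3 by ring, cos_pi_sub, cos_pi_div_three]; ring

theorem s23 : sin (2 * π / 3) = √3 / 2 := by
  rw [show 2 * π / 3 = π - π / 3 by ring, sin_pi_sub, sin_pi_div_three]

theorem c43 : cos (4 * π / 3) = -1 / 2 := by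
  rw [show 4 * π / 3 = π / 3 + π by ring, cos_add_pi, cos_pi_div_three]; ring

theorem s43 : sin (4 * π / 3) = -(√3 / 2) := by
  rw [show 4 * π / 3 = π / 3 + π by ring, sin_add_pi, sin_pi_div_three]

theorem junction {t : ℝ} (ht : t ∈ Ioo 0 TT) : B G 0 t 0 + B G 1 t 0 + B G 2 t 0 = 0 := by
  have ht' : t ∈ Ico 0 TT := ⟨ht.1.le, ht.2⟩
  have l0 : G.lam 0 t 0 = (G.κ 2 t 0 - G.κ 1 t 0) / √3 := G.jlam 0 t ht
  have l1 : G.lam 1 t 0 = (G.κ 0 t 0 - G.κ 2 t 0) / √3 := G.jlam 1 t ht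
  have l2 : G.lam 2 t 0 = (G.κ 1 t 0 - G.κ 0 t 0) / √3 := G.jlam 2 t ht
  simp only [B, R, Xt, G.jx 1 t ht', G.jx 2 t ht', G.jy 1 t ht', G.jy 2 t ht', G.jθ 1 t ht',
    G.jθ 2 t ht', l0, l1, l2, α0, α1, α2, cos_add, sin_add, c23, s23, c43, s43, cos_zero, sin_zero]
  ring

theorem end0 {t : ℝ} (ht : t ∈ Ioo 0 TT) : B G 0 t 1 = 0 := by
  have ht' : t ∈ Ico 0 TT := ⟨ht.1.le, ht.2⟩
  simp only [B, Xt, G.el0 t ht, G.ex0 t ht', G.eθ0 t ht', α0]
  rw [show π / 3 + 2 * π / 3 = π by ring, sin_pi]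
  ring

/-- the contribution of the segment -/
noncomputable def W (t : ℝ) : ℝ := 1 / 2 * ∫ z in (0 : ℝ)..(G.ζ t / σσ t), exp (-z ^ 2 / 2)

theorem hasW (nm : S_NUM) {t : ℝ} (ht : t ∈ Ioo 0 TT) : HasDerivAt (W G) (-B G 1 t 1) t := by
  have ht' : t ∈ Ico 0 TT := ⟨ht.1.le, ht.2⟩
  have h0 := (nm.pos t ht.2).ne'
  have hc : Continuous fun z : ℝ => exp (-z ^ 2 / 2) := by fun_prop
  have h2 := (hc.integral_hasStrictDerivAt 0 (G.ζ t / σσ t)).hasDerivAt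
  have h3 : HasDerivAt (fun s => G.ζ s / σσ s) _ t :=
    (G.xt 1 t ht 1 ⟨zero_le_one, le_rfl⟩).fun_div (nm.der t ht.2) h0
  refine HasDerivAt.congr_deriv ((h2.comp t h3).const_mul (1 / 2)) ?_
  have e : -(G.ζ t / σσ t) ^ 2 / 2 = -(G.x 1 t 1 ^ 2 + 0 ^ 2) / (2 * σσ t ^ 2) := by
    unfold GS.ζ
    field_simp
    ring
  simp only [B, R, Xt, G.el1 t ht, G.ey1 t ht', G.eθ1 t ht', α1, zero_add, c43, s43, e]
  generalize exp (-(G.x 1 t 1 ^ 2 + 0 ^ 2) / (2 * σσ t ^ 2)) = E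
  have h4 : √3 ^ 2 = 3 := sq_sqrt (by norm_num)
  have h5 : √3 ≠ 0 := by positivity
  field_simp
  rw [h4]
  ring

theorem end2 (nm : S_NUM) (mo : Mono G) {t : ℝ} (ht : t ∈ Ioo 0 TT) : B G 2 t 1 ≤ 1 := by
  have ht' : t ∈ Ico 0 TT := ⟨ht.1.le, ht.2⟩
  have h0 := nm.pos t ht.2
  have h1 := nm.le t ht.1.le
  have h3 : √3 ≤ 2 := by rw [sqrt_le_iff]; norm_num
  have h4 : 0 ≤ √3 := sqrt_nonneg _
  have hL : 30 ≤ LL ∧ LL ≤ 31 := by unfold LL; constructor <;> linarith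
  have hη : 0 ≤ ηη ∧ ηη ≤ 1 := by unfold ηη; constructor <;> norm_num
  have hX : Xt G 2 t 1 ≤ 32 := by
    simp only [Xt, mo.ex t ht', mo.ey t ht']
    have := cos_le_one (G.θ 2 t 1 + αα 2)
    have := sin_le_one (G.θ 2 t 1 + αα 2)
    nlinarith
  have hE : exp (-(LL ^ 2 + ηη ^ 2) / (2 * σσ t ^ 2)) ≤ σσ t ^ 4 / 100000 := by
    have hu : 450 / σσ t ^ 2 ≤ (LL ^ 2 + ηη ^ 2) / (2 * σσ t ^ 2) := by
      rw [div_le_div_iff₀ (by positivity) (by positivity)]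
      have : 900 ≤ LL ^ 2 + ηη ^ 2 := by nlinarith
      nlinarith [sq_nonneg (σσ t)]
    have h5 := quadratic_le_exp_of_nonneg (x := 450 / σσ t ^ 2) (by positivity)
    have h6 : 100000 / σσ t ^ 4 ≤ (450 / σσ t ^ 2) ^ 2 / 2 := by
      rw [div_pow, div_div, div_le_div_iff₀ (by positivity) (by positivity)]
      nlinarith [pow_pos h0 4]
    have h7 : 0 ≤ 450 / σσ t ^ 2 := by positivity
    rw [neg_div, exp_neg, ← inv_div 100000, inv_le_inv₀ (exp_pos _) (by positivity)]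
    exact le_trans (by linarith) (exp_le_exp.mpr hu)
  have hR : R G 2 t 1 ≤ σσ t ^ 3 / 100000 := by
    simp only [R, mo.ex t ht', mo.ey t ht']
    refine (mul_le_mul_of_nonneg_left hE (by positivity)).trans (le_of_eq ?_)
    field_simp
  simp only [B, G.el2 t ht, zero_add]
  calc R G 2 t 1 * (Xt G 2 t 1 / σσ t ^ 2) ≤ R G 2 t 1 * (32 / σσ t ^ 2) :=
        mul_le_mul_of_nonneg_left (div_le_div_of_nonneg_right hX (by positivity))
          (Rpos G 2 nm ht 1).le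
    _ ≤ σσ t ^ 3 / 100000 * (32 / σσ t ^ 2) := mul_le_mul_of_nonneg_right hR (by positivity)
    _ = 32 * σσ t / 100000 := by field_simp
    _ ≤ 1 := by linarith

/-- the monotone quantity -/
noncomputable def Θ (t : ℝ) : ℝ :=
  (∫ p in (0 : ℝ)..1, R G 0 t p * G.m 0 t p) + (∫ p in (0 : ℝ)..1, R G 1 t p * G.m 1 t p) +
    (∫ p in (0 : ℝ)..1, R G 2 t p * G.m 2 t p) + W G t

theorem Θnn (nm : S_NUM) (mo : Mono G) (es : Est G) {t : ℝ} (ht : t ∈ Ioo 0 TT) : 0 ≤ Θ G t := by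
  have ht' : t ∈ Ico 0 TT := ⟨ht.1.le, ht.2⟩
  have h0 := nm.pos t ht.2
  have h1 : ∀ i, 0 ≤ ∫ p in (0 : ℝ)..1, R G i t p * G.m i t p := fun i =>
    intervalIntegral.integral_nonneg zero_le_one fun p hp =>
      mul_nonneg (Rpos G i nm ht p).le (G.mpos i t ht' p hp).le
  have h2 : 0 ≤ G.ζ t := by
    have a1 := (abs_le.mp (mo.x1 t ht' 1 ⟨zero_le_one, le_rfl⟩)).1
    have a2 := (es.ξ t ht').1
    have a3 := es.h' t ht'
    unfold GS.ζ
    linarith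
  have h3 : 0 ≤ W G t := mul_nonneg (by norm_num)
    (intervalIntegral.integral_nonneg (div_nonneg h2 h0.le) fun _ _ => (exp_pos _).le)
  unfold Θ
  linarith [h1 0, h1 1, h1 2]

theorem hasΘ (tk : S_TK) (nm : S_NUM) (mo : Mono G) {t : ℝ} (ht : t ∈ Ioo 0 TT) :
    ∃ d, HasDerivAt (Θ G) d t ∧ d ≤ 1 - ∫ p in (0 : ℝ)..1, D G 0 t p := by
  refine ⟨_, (((edge G 0 tk nm ht).fun_add (edge G 1 tk nm ht)).fun_add
    (edge G 2 tk nm ht)).fun_add (hasW G nm ht), ?_⟩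
  linarith [junction G ht, end0 G ht, end2 G nm mo ht, Dnn G 1 nm ht, Dnn G 2 nm ht]

theorem Rlow (nm : S_NUM) (mo : Mono G) (es : Est G) {t p : ℝ} (ht : t ∈ Ioo 0 TT)
    (hp : p ∈ Icc (0 : ℝ) 1) : (σσ t)⁻¹ * exp (-385) ≤ R G 0 t p := by
  have ht' : t ∈ Ico 0 TT := ⟨ht.1.le, ht.2⟩
  have h0 := nm.pos t ht.2
  obtain ⟨x1, x2⟩ := mo.x0 t ht' p hp
  obtain ⟨y1, y2⟩ := mo.y0 t ht' p hp
  have a1 := (es.ξ t ht').2
  have a2 := es.h' t ht'
  have a3 := (mo.smono 0 t ht' p hp).2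
  have a4 := (mo.s0 t ht').2
  have a5 := mo.hpos t ht'
  have b1 : G.x 0 t p ^ 2 ≤ (12 * σσ t) ^ 2 := pow_le_pow_left₀ x1 (by linarith) 2
  have b2 : G.y 0 t p ^ 2 ≤ (25 * σσ t) ^ 2 := pow_le_pow_left₀ (by linarith) (by linarith) 2
  refine mul_le_mul_of_nonneg_left (exp_le_exp.mpr ?_) (by positivity)
  rw [le_div_iff₀ (by positivity)]
  nlinarith [sq_nonneg (σσ t)]

/-- the dissipation controls the mean defect -/
theorem low (nm : S_NUM) (mo : Mono G) (es : Est G) {t ε : ℝ} (hε : 0 < ε) (ht : t ∈ Ioo 0 TT)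
    (h : ε < ∫ p in (0 : ℝ)..1, |a G 0 t p| * G.m 0 t p) :
    exp (-385) * (ε ^ 2 / 24) / σσ t ^ 2 ≤ ∫ p in (0 : ℝ)..1, D G 0 t p := by
  have ht' : t ∈ Ico 0 TT := ⟨ht.1.le, ht.2⟩
  have h0 := nm.pos t ht.2
  have cm : ContinuousOn (G.m 0 t) (Icc 0 1) := slice (ct0 (G.cm 0)) ht
  have ca' := slice (ca G 0 nm) ht
  have cJ : ContinuousOn (fun p => a G 0 t p ^ 2 * G.m 0 t p) (Icc 0 1) := (ca'.pow 2).mul cm
  have h1 : ∫ p in (0 : ℝ)..1, |a G 0 t p| * G.m 0 t p ≤ ∫ p in (0 : ℝ)..1,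
      (ε / (48 * σσ t) * G.m 0 t p + 12 * σσ t / ε * (a G 0 t p ^ 2 * G.m 0 t p)) := by
    refine intervalIntegral.integral_mono_on zero_le_one (ii (ca'.abs.mul cm))
      (ii ((continuousOn_const.mul cm).add (continuousOn_const.mul cJ))) fun p hp => ?_
    rw [← mul_assoc, ← add_mul]
    refine mul_le_mul_of_nonneg_right ?_ (G.mpos 0 t ht' p hp).le
    rw [← sq_abs, ← sub_nonneg]
    have : ε / (48 * σσ t) + 12 * σσ t / ε * |a G 0 t p| ^ 2 - |a G 0 t p| =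
        (24 * σσ t * |a G 0 t p| - ε) ^ 2 / (48 * σσ t * ε) := by
      field_simp
      ring
    rw [this]
    positivity
  rw [intervalIntegral.integral_add ((ii cm).const_mul _) ((ii cJ).const_mul _),
    intervalIntegral.integral_const_mul,
    intervalIntegral.integral_const_mul] at h1
  have h2 : ∫ p in (0 : ℝ)..1, G.m 0 t p ≤ 24 * σσ t := by
    have a1 := (es.ξ t ht').2
    have a4 := (mo.s0 t ht').2
    unfold GS.s at a4
    linarith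
  have h3 : ε / (48 * σσ t) * ∫ p in (0 : ℝ)..1, G.m 0 t p ≤ ε / 2 :=
    (mul_le_mul_of_nonneg_left h2 (by positivity)).trans (le_of_eq (by field_simp; norm_num))
  have h4 : ε ^ 2 / 24 / σσ t ≤ ∫ p in (0 : ℝ)..1, a G 0 t p ^ 2 * G.m 0 t p := by
    have h5 : ε / 2 ≤ 12 * σσ t / ε * ∫ p in (0 : ℝ)..1, a G 0 t p ^ 2 * G.m 0 t p := by linarith
    rw [div_mul_eq_mul_div, le_div_iff₀ hε] at h5
    rw [div_le_iff₀ h0]
    linarith
  calc exp (-385) * (ε ^ 2 / 24) / σσ t ^ 2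
      = (σσ t)⁻¹ * exp (-385) * (ε ^ 2 / 24 / σσ t) := by field_simp
    _ ≤ (σσ t)⁻¹ * exp (-385) * ∫ p in (0 : ℝ)..1, a G 0 t p ^ 2 * G.m 0 t p :=
      mul_le_mul_of_nonneg_left h4 (by positivity)
    _ ≤ ∫ p in (0 : ℝ)..1, D G 0 t p := by
      rw [← intervalIntegral.integral_const_mul]
      refine intervalIntegral.integral_mono_on zero_le_one (ii (continuousOn_const.mul cJ))
        (ii (slice (cD G 0 nm) ht)) fun p hp => ?_
      exact mul_le_mul_of_nonneg_right (Rlow G nm mo es ht hp)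
        (mul_nonneg (sq_nonneg _) (G.mpos 0 t ht' p hp).le)

end B10Aux

open B10Aux

theorem b10 (tk : S_TK) (nm : S_NUM) : S_B10 := by
  intro G mo es ε hε t₁ ht₁
  by_contra hn
  push Not at hn
  obtain ⟨e, he⟩ : ∃ e, e = exp (-385) * (ε ^ 2 / 24) := ⟨_, rfl⟩
  have he0 : 0 < e := by rw [he]; positivity
  have key : ∀ t ∈ Ioo t₁ TT, ∃ d, HasDerivAt (fun s => Θ G s - s - e * log (σσ s)) d t ∧
      d ≤ 0 := fun t ht => by
    have ht' : t ∈ Ioo 0 TT := ⟨ht₁.1.trans ht.1, ht.2⟩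
    have h0 := nm.pos t ht.2
    obtain ⟨d, h1, h2⟩ := hasΘ G tk nm mo ht'
    have h3 := low G nm mo es hε ht' (hn t ht)
    rw [← he] at h3
    refine ⟨_, (h1.fun_sub (hasDerivAt_id' t)).fun_sub
      (((nm.der t ht.2).log h0.ne').const_mul e), ?_⟩
    have : e * (-(σσ t)⁻¹ / σσ t) = -(e / σσ t ^ 2) := by field_simp
    linarith
  have anti : AntitoneOn (fun s => Θ G s - s - e * log (σσ s)) (Ioo t₁ TT) := by
    refine antitoneOn_of_deriv_nonpos (convex_Ioo _ _)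
      (fun t ht => (key t ht).choose_spec.1.continuousAt.continuousWithinAt) (fun t ht => ?_)
      fun t ht => ?_
    · rw [interior_Ioo] at ht
      exact (key t ht).choose_spec.1.differentiableAt.differentiableWithinAt
    · rw [interior_Ioo] at ht
      rw [(key t ht).choose_spec.1.deriv]
      exact (key t ht).choose_spec.2
  obtain ⟨t₂, h1, h2⟩ := exists_between ht₁.2
  obtain ⟨K, hK⟩ : ∃ K, K = Θ G t₂ - t₂ - e * log (σσ t₂) + TT := ⟨_, rfl⟩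
  obtain ⟨r, hr⟩ : ∃ r, r = min (σσ t₂) (exp (-(K / e) - 1)) := ⟨_, rfl⟩
  have hσ := nm.pos t₂ h2
  have r0 : 0 < r := by rw [hr]; exact lt_min hσ (exp_pos _)
  have r1 : r ^ 2 ≤ 2 * (TT - t₂) := by
    rw [← nm.sq t₂ h2.le]
    exact pow_le_pow_left₀ r0.le (hr ▸ min_le_left _ _) 2
  have r2 : log r ≤ -(K / e) - 1 := by
    rw [log_le_iff_le_exp r0, hr]
    exact min_le_right _ _
  have r3 : σσ (TT - r ^ 2 / 2) = r := by
    unfold σσ
    rw [show 2 * (TT - (TT - r ^ 2 / 2)) = r ^ 2 by ring, sqrt_sq r0.le]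
  have r4 : 0 < r ^ 2 := by positivity
  have hm : TT - r ^ 2 / 2 ∈ Ioo t₁ TT := ⟨by linarith, by linarith⟩
  have h3 := anti ⟨h1, h2⟩ hm (by linarith)
  have h4 := Θnn G nm mo es (t := TT - r ^ 2 / 2) ⟨ht₁.1.trans hm.1, hm.2⟩
  simp only [r3] at h3
  have h5 := mul_le_mul_of_nonneg_left r2 he0.le
  have h6 : e * (-(K / e) - 1) = -K - e := by field_simp
  linarith

end Pool.Agent.P.MP_cf7202_gt
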