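import Pool.Agent.P.MP_cf7202_gt.DefGeo

/-! Barrier for the angle on the upper arc and the improved lower bound for the junction. -/

namespace Pool.Agent.P.MP_cf7202_gt

open Set Filter Topology Function Real

namespace B4Aux

lemma sin_eq (θ : ℝ) : sin (θ + αα 0) = sin (π / 3 - θ) := by
  have h : θ + αα 0 = π - (π / 3 - θ) := by
    simp only [αα, Matrix.cons_val_zero]; ring
  rw [h, sin_pi_sub]

lemma cos_eq (θ : ℝ) : cos (θ + αα 0) = -cos (π / 3 - θ) := by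
  have h : θ + αα 0 = π - (π / 3 - θ) := by
    simp only [αα, Matrix.cons_val_zero]; ring
  rw [h, cos_pi_sub]

lemma trig {θ : ℝ} (h0 : 0 ≤ θ) (h1 : θ ≤ π / 3) :
    0 ≤ sin (θ + αα 0) ∧ sin (θ + αα 0) ≤ √3 / 2 ∧ cos (θ + αα 0) ≤ -(1 / 2) := by
  have hp := pi_pos
  rw [sin_eq, cos_eq]
  refine ⟨sin_nonneg_of_nonneg_of_le_pi (by linarith) (by linarith), ?_, ?_⟩
  · rw [← sin_pi_div_three]
    exact sin_le_sin_of_le_of_le_pi_div_two (by linarith) (by linarith) (by linarith)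
  · rw [← cos_pi_div_three, neg_le_neg_iff]
    exact cos_le_cos_of_nonneg_of_le_pi (by linarith) (by linarith) (by linarith)

/-- a nonnegative function vanishing at the right end has nonpositive derivative there -/
lemma der_end {f : ℝ → ℝ} {d : ℝ} (hd : HasDerivWithinAt f d (Icc 0 1) 1)
    (h1 : f 1 = 0) (h : ∀ p ∈ Icc (0 : ℝ) 1, 0 ≤ f p) : d ≤ 0 := by
  have hmin : IsLocalMinOn f (Icc 0 1) 1 := by
    apply IsMinOn.localize
    intro p hp
    simpa [h1] using h p hp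
  have hy : (0 : ℝ) - 1 ∈ posTangentConeAt (Icc (0 : ℝ) 1) 1 := by
    apply sub_mem_posTangentConeAt_of_segment_subset
    rw [segment_symm, segment_eq_Icc zero_le_one]
  have := hmin.hasFDerivWithinAt_nonneg hd.hasFDerivWithinAt hy
  simp at this
  linarith

lemma slice {T : ℝ} {f : ℝ → ℝ → ℝ} (h : Ct0 T f) {t : ℝ} (ht : t ∈ Ico 0 T) :
    ContinuousOn (f t) (Icc 0 1) := by
  have : ContinuousOn (fun p : ℝ => (t, p)) (Icc 0 1) := by fun_prop
  exact ContinuousOn.comp (g := uncurry f) h this (fun p hp => ⟨ht, hp⟩)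

lemma alg {s c z : ℝ} (hs : 0 ≤ s) (hc : c ≤ -(1 / 2)) (h : s ^ 2 + c ^ 2 = 1) (hz : s ≤ z) :
    s + (z + 4 / 3 * z ^ 3) * c ≤ 0 := by
  have hc1 : -1 ≤ c := by nlinarith [sq_nonneg s]
  have h3 : s ^ 3 ≤ z ^ 3 := pow_le_pow_left₀ hs hz 3
  have h1 : (z + 4 / 3 * z ^ 3) * c ≤ (s + 4 / 3 * s ^ 3) * c :=
    mul_le_mul_of_nonpos_right (by linarith) (by linarith)
  have h2 : 1 + (1 + 4 / 3 * s ^ 2) * c ≤ 0 := by
    have hs2 : s ^ 2 = 1 - c ^ 2 := by linarith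
    rw [hs2]
    have : 0 ≤ (c + 1) * (-(2 * c + 1)) * (3 - 2 * c) :=
      mul_nonneg (mul_nonneg (by linarith) (by linarith)) (by linarith)
    nlinarith
  have h4 : s * (1 + (1 + 4 / 3 * s ^ 2) * c) ≤ 0 := mul_nonpos_of_nonneg_of_nonpos hs h2
  nlinarith

/-- the barrier inequality -/
lemma bar (num : S_NUM) (mp : S_MP) {T t₁ : ℝ} (G : GS T) (hT : T ≤ TT) (hI : Init G)
    (hM : Mono G) (ht₁ : t₁ ∈ Ico 0 T) (hB : BW G t₁) :
    ∀ t ∈ Icc 0 t₁, ∀ p ∈ Icc (0 : ℝ) 1,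
      0 ≤ 5 / 6 * G.x 0 t p / σσ t - sin (G.θ 0 t p + αα 0) := by
  have hco : ∀ t ∈ Icc 0 t₁, t ∈ Ico 0 T := fun t ht => ⟨ht.1, ht.2.trans_lt ht₁.2⟩
  have hoo : ∀ t ∈ Ioc 0 t₁, t ∈ Ioo 0 T := fun t ht => ⟨ht.1, ht.2.trans_lt ht₁.2⟩
  have hoc : ∀ t ∈ Ioc 0 t₁, t ∈ Ico 0 T := fun t ht => ⟨ht.1.le, ht.2.trans_lt ht₁.2⟩
  have hσ : ∀ t ∈ Ico 0 T, 0 < σσ t := fun t ht => num.pos t (ht.2.trans_le hT)
  have key := mp 0 t₁ (1 / σσ t₁ ^ 2)
    (fun _ t p => 5 / 6 * G.x 0 t p / σσ t - sin (G.θ 0 t p + αα 0))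
    (fun _ t p => cos (G.θ 0 t p + αα 0) * (5 / 6 / σσ t - G.κ 0 t p))
    (fun _ t p => -(sin (G.θ 0 t p + αα 0) * G.κ 0 t p * (5 / 6 / σσ t - G.κ 0 t p))
      - cos (G.θ 0 t p + αα 0) * G.ks 0 t p)
    (fun _ t p => 5 / 6 * (G.lam 0 t p * cos (G.θ 0 t p + αα 0)
        - G.κ 0 t p * sin (G.θ 0 t p + αα 0)) / σσ t + 5 / 6 * G.x 0 t p / σσ t ^ 3
      - cos (G.θ 0 t p + αα 0) * (G.ks 0 t p + G.lam 0 t p * G.κ 0 t p))
    (fun _ t p => G.m 0 t p) ?_ ?_ ?_ ?_ ?_ ?_ ?_ ?_ ?_ ?_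
  · exact key 0
  · intro _
    have hsub : Icc 0 t₁ ×ˢ Icc (0 : ℝ) 1 ⊆ Ico 0 T ×ˢ Icc (0 : ℝ) 1 :=
      prod_mono (fun t ht => hco t ht) le_rfl
    have hx := (G.cx 0).mono hsub
    have hθ := (G.cθ 0).mono hsub
    have hs : ContinuousOn (fun z : ℝ × ℝ => σσ z.1) (Icc 0 t₁ ×ˢ Icc (0 : ℝ) 1) :=
      (num.cont.comp continuous_fst).continuousOn
    exact ((continuousOn_const.mul hx).div hs (fun z hz => (hσ _ (hco _ hz.1)).ne')).sub
      (continuous_sin.comp_continuousOn (hθ.add continuousOn_const))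
  · intro _ t ht p hp
    exact G.mpos 0 t (hoc t ht) p hp
  · intro _ t ht p hp
    have h1 := (((G.xp 0 t (hoc t ht) p hp).const_mul (5 / 6)).div_const (σσ t)).sub
      ((G.θp 0 t (hoo t ht) p hp).add_const (αα 0)).sin
    exact h1.congr_deriv (by ring)
  · intro _ t ht p hp
    have h1 := ((G.θp 0 t (hoo t ht) p hp).add_const (αα 0)).cos.mul
      ((G.κp 0 t (hoo t ht) p hp).const_sub (5 / 6 / σσ t))
    exact h1.congr_deriv (by ring)
  · intro _ t ht p hp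
    have hs := hσ t (hoc t ht)
    have h1 := (((G.xt 0 t (hoo t ht) p hp).const_mul (5 / 6)).div
      (num.der t ((hoc t ht).2.trans_le hT)) hs.ne').sub
      ((G.θt 0 t (hoo t ht) p hp).add_const (αα 0)).sin
    refine h1.congr_deriv ?_
    field_simp
    ring
  · intro _ t ht p hp hf h1 h2
    have hs := hσ t (hoc t ht)
    have hs1 := hσ t₁ ht₁
    obtain ⟨a0, -, a2⟩ := trig (hM.θ 0 t (hoc t ht) p hp).1 (hM.θ 0 t (hoc t ht) p hp).2
    have hk : 5 / 6 / σσ t - G.κ 0 t p = 0 := by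
      rcases mul_eq_zero.1 h1 with h | h
      · linarith
      · exact h
    have hk' : G.κ 0 t p = 5 / 6 / σσ t := by linarith
    have hle : σσ t₁ ^ 2 ≤ σσ t ^ 2 := by
      rw [num.sq t₁ (ht₁.2.le.trans hT), num.sq t ((hoc t ht).2.le.trans hT)]
      linarith [ht.2]
    have hC : 1 / σσ t ^ 2 ≤ 1 / σσ t₁ ^ 2 :=
      one_div_le_one_div_of_le (by positivity) hle
    rw [hk] at h2
    rw [hk']
    set S := sin (G.θ 0 t p + αα 0)
    set C := cos (G.θ 0 t p + αα 0)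
    have e1 : 5 / 6 * (G.lam 0 t p * C - 5 / 6 / σσ t * S) / σσ t + 5 / 6 * G.x 0 t p / σσ t ^ 3
        - C * (G.ks 0 t p + G.lam 0 t p * (5 / 6 / σσ t))
        = -(C * G.ks 0 t p) + 11 / 36 * (S / σσ t ^ 2)
          + 1 / σσ t ^ 2 * (5 / 6 * G.x 0 t p / σσ t - S) := by
      field_simp
      ring
    rw [e1]
    have e2 : 1 / σσ t₁ ^ 2 * (5 / 6 * G.x 0 t p / σσ t - S)
        ≤ 1 / σσ t ^ 2 * (5 / 6 * G.x 0 t p / σσ t - S) :=
      mul_le_mul_of_nonpos_right hC hf.le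
    have e3 : 0 ≤ S / σσ t ^ 2 := by positivity
    have e4 : 0 ≤ -(C * G.ks 0 t p) := by linarith
    linarith
  · intro _ t _
    rfl
  · intro t ht hf
    exfalso
    have hs := hσ t (hoc t ht)
    have h0 : (0 : ℝ) ∈ Icc (0 : ℝ) 1 := ⟨le_rfl, zero_le_one⟩
    obtain ⟨-, a1, -⟩ := trig (hM.θ 0 t (hoc t ht) 0 h0).1 (hM.θ 0 t (hoc t ht) 0 h0).2
    have hb := (hB t ⟨ht.1.le, ht.2⟩).1
    have h3 : √3 ≤ 1.7321 := by
      rw [sqrt_le_left (by norm_num)]; norm_num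
    have h4 : 5 / 6 * 1.04 ≤ 5 / 6 * G.x 0 t 0 / σσ t := by
      rw [le_div_iff₀ hs]
      unfold GS.ξ at hb
      linarith
    linarith
  · intro _ t ht hf
    exfalso
    rw [G.ex0 t (hoc t ht), G.eθ0 t (hoc t ht), sin_eq] at hf
    simp at hf
  · intro _ p hp
    have := hI.b4 p hp
    rw [sin_eq]
    linarith

end B4Aux

open B4Aux in
theorem b4 : S_TK → S_NUM → S_MP → S_B4 := by
  intro tk num mp T t₁ G hT hI hM ht₁ hB t ht
  have hb := bar num mp G hT hI hM ht₁ hB t ht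
  have htc : t ∈ Ico 0 T := ⟨ht.1, ht.2.trans_lt ht₁.2⟩
  have hs : 0 < σσ t := num.pos t (htc.2.trans_le hT)
  have h1 : (1 : ℝ) ∈ Icc (0 : ℝ) 1 := ⟨zero_le_one, le_rfl⟩
  constructor
  · -- the area estimate
    have cx := slice (G.cx 0) htc
    have cy := slice (G.cy 0) htc
    have cm := slice (G.cm 0) htc
    have cc : ContinuousOn (fun p => cos (G.θ 0 t p + αα 0)) (Icc 0 1) :=
      continuous_cos.comp_continuousOn ((slice (G.cθ 0) htc).add continuousOn_const)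
    have cs : ContinuousOn (fun p => sin (G.θ 0 t p + αα 0)) (Icc 0 1) :=
      continuous_sin.comp_continuousOn ((slice (G.cθ 0) htc).add continuousOn_const)
    set A : ℝ := 5 / 6 / σσ t with hA
    have cA : ContinuousOn (fun p => G.y 0 t p * (G.m 0 t p * cos (G.θ 0 t p + αα 0))) (Icc 0 1) :=
      cy.mul (cm.mul cc)
    have cB : ContinuousOn (fun p => G.y 0 t p * (G.m 0 t p * cos (G.θ 0 t p + αα 0))
        + G.x 0 t p * G.m 0 t p * (sin (G.θ 0 t p + αα 0)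
          + (A * G.x 0 t p + 4 / 3 * (A * G.x 0 t p) ^ 3) * cos (G.θ 0 t p + αα 0))) (Icc 0 1) :=
      cA.add ((cx.mul cm).mul (cs.add (((continuousOn_const.mul cx).add
        (continuousOn_const.mul ((continuousOn_const.mul cx).pow 3))).mul cc)))
    have hf := tk.ftc
      (fun p => G.x 0 t p * G.y 0 t p + A / 3 * G.x 0 t p ^ 3 + 4 / 15 * A ^ 3 * G.x 0 t p ^ 5)
      _ cB (fun p hp => by
        have hx := G.xp 0 t htc p hp
        have hy := G.yp 0 t htc p hp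
        have h := ((hx.mul hy).add ((hx.pow 3).const_mul (A / 3))).add
          ((hx.pow 5).const_mul (4 / 15 * A ^ 3))
        refine h.congr_deriv ?_
        simp only [Nat.cast_ofNat]
        ring) 1 h1
    have hle : ∫ p in (0 : ℝ)..1, (G.y 0 t p * (G.m 0 t p * cos (G.θ 0 t p + αα 0))
        + G.x 0 t p * G.m 0 t p * (sin (G.θ 0 t p + αα 0)
          + (A * G.x 0 t p + 4 / 3 * (A * G.x 0 t p) ^ 3) * cos (G.θ 0 t p + αα 0)))
        ≤ G.ar 0 t 1 := by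
      unfold GS.ar
      apply intervalIntegral.integral_mono_on zero_le_one
      · exact (cB.mono (by rw [uIcc_of_le zero_le_one])).intervalIntegrable
      · exact (cA.mono (by rw [uIcc_of_le zero_le_one])).intervalIntegrable
      · intro p hp
        obtain ⟨a0, -, a2⟩ := trig (hM.θ 0 t htc p hp).1 (hM.θ 0 t htc p hp).2
        have hz : sin (G.θ 0 t p + αα 0) ≤ A * G.x 0 t p := by
          have := hb p hp
          have e : A * G.x 0 t p = 5 / 6 * G.x 0 t p / σσ t := by rw [hA]; ring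
          linarith
        have := mul_nonpos_of_nonneg_of_nonpos
          (mul_nonneg (hM.x0 t htc p hp).1 (G.mpos 0 t htc p hp).le)
          (alg a0 a2 (sin_sq_add_cos_sq _) hz)
        linarith
    rw [hf, G.ex0 t htc] at hle
    have har := hM.area t htc
    have ha1 := (abs_le.1 (hM.ar1 t htc)).2
    obtain ⟨b1, b2⟩ := hB t ht
    have hh := hM.hpos t htc
    unfold GS.ξ at b1 ⊢
    unfold GS.h at b2 hh ha1
    by_contra hlt
    push Not at hlt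
    set ξ := G.x 0 t 0
    set h := G.y 0 t 0
    set σ := σσ t
    have hξ : 0 ≤ ξ := by linarith
    have e1 : ξ * h ≤ (1.05 * σ) * (σ / 1000) := mul_le_mul hlt.le b2 hh.le (by positivity)
    have e2 : h ^ 2 ≤ (σ / 1000) ^ 2 := pow_le_pow_left₀ hh.le b2 2
    have hA0 : 0 ≤ A := by rw [hA]; positivity
    have e3 : A / 3 * ξ ^ 3 ≤ A / 3 * (1.05 * σ) ^ 3 :=
      mul_le_mul_of_nonneg_left (pow_le_pow_left₀ hξ hlt.le 3) (by positivity)
    have e4 : 4 / 15 * A ^ 3 * ξ ^ 5 ≤ 4 / 15 * A ^ 3 * (1.05 * σ) ^ 5 :=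
      mul_le_mul_of_nonneg_left (pow_le_pow_left₀ hξ hlt.le 5) (by positivity)
    have e5 : A / 3 * (1.05 * σ) ^ 3 = 5 / 18 * 1.05 ^ 3 * σ ^ 2 := by
      rw [hA]; field_simp; ring
    have e6 : 4 / 15 * A ^ 3 * (1.05 * σ) ^ 5 = 4 / 15 * (5 / 6) ^ 3 * 1.05 ^ 5 * σ ^ 2 := by
      rw [hA]; field_simp
    have e7 : 3.14 * σ ^ 2 ≤ π * σ ^ 2 :=
      mul_le_mul_of_nonneg_right pi_gt_d2.le (by positivity)
    have e8 : 0 < σ ^ 2 := by positivity
    nlinarith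
  · intro h0
    have hto : t ∈ Ioo 0 T := ⟨h0, htc.2⟩
    have hd := (((G.xp 0 t htc 1 h1).const_mul (5 / 6)).div_const (σσ t)).sub
      ((G.θp 0 t hto 1 h1).add_const (αα 0)).sin
    have hz : 5 / 6 * G.x 0 t 1 / σσ t - sin (G.θ 0 t 1 + αα 0) = 0 := by
      rw [G.ex0 t htc, G.eθ0 t htc, sin_eq]
      simp
    have := der_end hd hz hb
    rw [G.eθ0 t htc, cos_eq] at this
    simp only [sub_self, cos_zero] at this
    have hm := G.mpos 0 t htc 1 h1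
    have e : G.m 0 t 1 * (G.κ 0 t 1 - 5 / 6 / σσ t) ≤ 0 := by
      have e' : G.m 0 t 1 * (G.κ 0 t 1 - 5 / 6 / σσ t)
          = 5 / 6 * (G.m 0 t 1 * -1) / σσ t - -1 * (G.m 0 t 1 * G.κ 0 t 1) := by ring
      rw [e']
      exact this
    have e2 : G.κ 0 t 1 - 5 / 6 / σσ t ≤ 0 := by
      by_contra hc
      push Not at hc
      linarith [mul_pos hm hc]
    have e3 : 5 / 6 / σσ t ≤ 1 / σσ t := div_le_div_of_nonneg_right (by norm_num) hs.le
    linarith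

end Pool.Agent.P.MP_cf7202_gt
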