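import Pool.Agent.P.MP_cf7202_gt.DefGeo

/-! Barrier for the height of the top point. -/

namespace Pool.Agent.P.MP_cf7202_gt

open Set Filter Topology Function Real

namespace B5Aux

/-- first space derivative of the subsolution -/
noncomputable def Px (s x : ℝ) : ℝ := s ^ 3 * (9 * s ^ 2 - x ^ 2) / (9 * s ^ 2 + x ^ 2) ^ 2

/-- second space derivative of the subsolution -/
noncomputable def Pxx (s x : ℝ) : ℝ :=
  2 * s ^ 3 * x * (x ^ 2 - 27 * s ^ 2) / (9 * s ^ 2 + x ^ 2) ^ 3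

/-- time derivative of the subsolution -/
noncomputable def Pt (s x : ℝ) : ℝ := -(s * x * (9 * s ^ 2 + 3 * x ^ 2) / (9 * s ^ 2 + x ^ 2) ^ 2)

theorem dP {s : ℝ} (hs : 0 < s) {x : ℝ → ℝ} {x' p : ℝ} {S : Set ℝ}
    (h : HasDerivWithinAt x x' S p) :
    HasDerivWithinAt (fun q => s ^ 3 * x q / (9 * s ^ 2 + x q ^ 2)) (Px s (x p) * x') S p := by
  have hD : 9 * s ^ 2 + x p ^ 2 ≠ 0 := by positivity
  refine ((h.const_mul (s ^ 3)).div ((h.pow 2).const_add (9 * s ^ 2)) hD).congr_deriv ?_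
  simp only [Px, Pi.pow_apply]
  field_simp
  ring

theorem dPx {s : ℝ} (hs : 0 < s) {x : ℝ → ℝ} {x' p : ℝ} {S : Set ℝ}
    (h : HasDerivWithinAt x x' S p) :
    HasDerivWithinAt (fun q => Px s (x q)) (Pxx s (x p) * x') S p := by
  have hD : 9 * s ^ 2 + x p ^ 2 ≠ 0 := by positivity
  refine ((((h.pow 2).const_sub (9 * s ^ 2)).const_mul (s ^ 3)).div
    (((h.pow 2).const_add (9 * s ^ 2)).pow 2) (pow_ne_zero 2 hD)).congr_deriv ?_
  simp only [Pxx, Pi.pow_apply]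
  field_simp
  ring

theorem dPt {s x : ℝ → ℝ} {x' t : ℝ} (hs : 0 < s t) (h1 : HasDerivAt s (-(s t)⁻¹) t)
    (h : HasDerivAt x x' t) :
    HasDerivAt (fun q => s q ^ 3 * x q / (9 * s q ^ 2 + x q ^ 2))
      (Pt (s t) (x t) + Px (s t) (x t) * x') t := by
  have hD : 9 * s t ^ 2 + x t ^ 2 ≠ 0 := by positivity
  refine (((h1.pow 3).mul h).div (((h1.pow 2).const_mul 9).add (h.pow 2)) hD).congr_deriv ?_
  simp only [Pt, Px, Pi.pow_apply, Pi.add_apply, Pi.mul_apply]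
  field_simp
  ring

theorem Pt_le {s x : ℝ} (hs : 0 < s) (hx : 0 ≤ x) : Pt s x ≤ Pxx s x := by
  have hD : 0 < 9 * s ^ 2 + x ^ 2 := by positivity
  have : Pxx s x - Pt s x =
      s * x * (27 * s ^ 4 + 38 * s ^ 2 * x ^ 2 + 3 * x ^ 4) / (9 * s ^ 2 + x ^ 2) ^ 3 := by
    unfold Pxx Pt; field_simp; ring
  have : 0 ≤ s * x * (27 * s ^ 4 + 38 * s ^ 2 * x ^ 2 + 3 * x ^ 4) / (9 * s ^ 2 + x ^ 2) ^ 3 := by
    positivity
  linarith

theorem end_le {f : ℝ → ℝ} {d : ℝ} (h : HasDerivWithinAt f d (Icc 0 1) 1)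
    (h0 : ∀ p ∈ Icc (0 : ℝ) 1, 0 ≤ f p) (h1 : f 1 = 0) : d ≤ 0 := by
  have hm : IsMinOn f (Icc 0 1) 1 := fun p hp => by simpa [h1] using h0 p hp
  have := hm.localize.hasFDerivWithinAt_nonneg h.hasFDerivWithinAt (y := -1)
    (mem_posTangentConeAt_of_segment_subset (by
      rw [segment_symm, show (1 : ℝ) + -1 = 0 by norm_num, segment_eq_Icc zero_le_one]))
  simpa using this

theorem ang (θ : ℝ) : cos (θ + αα 0) = -cos (π / 3 - θ) ∧ sin (θ + αα 0) = sin (π / 3 - θ) := by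
  have : θ + αα 0 = π - (π / 3 - θ) := by simp only [αα, Matrix.cons_val_zero]; ring
  rw [this, cos_pi_sub, sin_pi_sub]
  exact ⟨rfl, rfl⟩

end B5Aux

open B5Aux

theorem b5 : S_TK → S_NUM → S_MP → S_B5 := by
  intro tk num mp T t₁ G hT ini mo ht₁ bw
  have i1 : ∀ t ∈ Icc 0 t₁, t ∈ Ico 0 T := fun t ht => ⟨ht.1, ht.2.trans_lt ht₁.2⟩
  have i2 : ∀ t ∈ Ioc 0 t₁, t ∈ Ioo 0 T := fun t ht => ⟨ht.1, ht.2.trans_lt ht₁.2⟩
  have i3 : ∀ t ∈ Ioc 0 t₁, t ∈ Icc 0 t₁ := fun t ht => Ioc_subset_Icc_self ht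
  have sp : ∀ t ∈ Icc 0 t₁, 0 < σσ t := fun t ht => num.pos t ((i1 t ht).2.trans_le hT)
  have o1 : (1 : ℝ) ∈ Icc (0 : ℝ) 1 := right_mem_Icc.2 zero_le_one
  have c0 : Ct0 T fun t q => G.y 0 t q * (G.m 0 t q * cos (G.θ 0 t q + αα 0)) :=
    (G.cy 0).mul ((G.cm 0).mul (continuous_cos.comp_continuousOn
      ((G.cθ 0).add continuousOn_const)))
  have c1 : Ct0 T (G.ar 0) := tk.ct0_int T _ c0
  have hp : ∀ t ∈ Icc 0 t₁, ∀ p ∈ Icc (0 : ℝ) 1,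
      HasDerivWithinAt (fun p => G.ar 0 t p - G.ar 0 t 1 - ΦΦ t (G.x 0 t p))
        (G.m 0 t p * (cos (G.θ 0 t p + αα 0) * (G.y 0 t p - Px (σσ t) (G.x 0 t p)))) (Icc 0 1) p := by
    intro t ht p hp
    have a1 := tk.int_dx (fun q => G.y 0 t q * (G.m 0 t q * cos (G.θ 0 t q + αα 0)))
      (c0.comp (Continuous.prodMk_right t).continuousOn fun q hq => ⟨i1 t ht, hq⟩) p hp
    refine ((a1.sub_const (G.ar 0 t 1)).sub
      (dP (sp t ht) (G.xp 0 t (i1 t ht) p hp))).congr_deriv ?_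
    ring
  have e1 : ∀ t ∈ Icc 0 t₁, G.ar 0 t 1 - G.ar 0 t 1 - ΦΦ t (G.x 0 t 1) = 0 := fun t ht => by
    simp [ΦΦ, G.ex0 t (i1 t ht)]
  have key := mp 0 t₁ 0 (fun _ t p => G.ar 0 t p - G.ar 0 t 1 - ΦΦ t (G.x 0 t p))
    (fun _ t p => cos (G.θ 0 t p + αα 0) * (G.y 0 t p - Px (σσ t) (G.x 0 t p)))
    (fun _ t p => -sin (G.θ 0 t p + αα 0) * G.κ 0 t p * (G.y 0 t p - Px (σσ t) (G.x 0 t p)) +
      cos (G.θ 0 t p + αα 0) * (sin (G.θ 0 t p + αα 0) -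
        Pxx (σσ t) (G.x 0 t p) * cos (G.θ 0 t p + αα 0)))
    (fun _ t p => G.θ 0 t p - π / 3 - Pt (σσ t) (G.x 0 t p) + (G.y 0 t p - Px (σσ t) (G.x 0 t p)) *
      (G.lam 0 t p * cos (G.θ 0 t p + αα 0) - G.κ 0 t p * sin (G.θ 0 t p + αα 0)))
    (fun _ => G.m 0) (fun _ => ?_) (fun _ t ht => G.mpos 0 t (i1 t (i3 t ht)))
    (fun _ t ht => hp t (i3 t ht)) (fun _ t ht p hp => ?_) (fun _ t ht p hp => ?_)
    (fun _ t ht p hp _ h1 h2 => ?_) (fun _ _ _ => rfl) (fun t ht h => ?_)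
    (fun _ t ht h => absurd (e1 t (i3 t ht)) h.ne) (fun _ p hp => sub_nonneg.2 (ini.b5 p hp))
  · intro t ht
    have h1 := end_le (hp t ht 1 o1) (key 0 t ht) (e1 t ht)
    have h2 := G.mpos 0 t (i1 t ht) 1 o1
    have h3 : Px (σσ t) 0 = σσ t / 9 := by
      have := sp t ht
      unfold Px; field_simp; ring
    rw [(ang _).1, G.eθ0 t (i1 t ht), sub_self, cos_zero, G.ex0 t (i1 t ht), h3] at h1
    unfold GS.H
    nlinarith
  · have s1 : Icc 0 t₁ ×ˢ Icc (0 : ℝ) 1 ⊆ Ico 0 T ×ˢ Icc 0 1 := prod_mono i1 Subset.rfl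
    have a1 := (G.cx 0).mono s1
    have a2 : ContinuousOn (fun z : ℝ × ℝ => σσ z.1) (Icc 0 t₁ ×ˢ Icc 0 1) :=
      (num.cont.comp continuous_fst).continuousOn
    refine ((c1.mono s1).sub (c1.comp (continuous_fst.prodMk continuous_const).continuousOn
      fun z hz => ⟨i1 _ hz.1, o1⟩)).sub (((a2.pow 3).mul a1).div
        ((continuousOn_const.mul (a2.pow 2)).add (a1.pow 2)) fun z hz => ?_)
    have := sp _ hz.1
    positivity
  · have a1 := G.xp 0 t (i1 t (i3 t ht)) p hp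
    refine ((((G.θp 0 t (i2 t ht) p hp).add_const (αα 0)).cos).mul
      ((G.yp 0 t (i1 t (i3 t ht)) p hp).sub (dPx (sp t (i3 t ht)) a1))).congr_deriv ?_
    simp only [Pi.sub_apply]
    ring
  · have h1 := i2 t ht
    refine (((mo.art 0 t h1 p hp).sub (mo.art 0 t h1 1 o1)).sub (dPt (sp t (i3 t ht))
      (num.der t (h1.2.trans_le hT)) (G.xt 0 t h1 p hp))).congr_deriv ?_
    rw [(ang (G.θ 0 t 1)).2, G.eθ0 t (i1 t (i3 t ht)), sub_self, sin_zero, G.el0 t h1]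
    ring
  · obtain ⟨a1, a2⟩ := mo.θ 0 t (i1 t (i3 t ht)) p hp
    have a3 := Pt_le (sp t (i3 t ht)) (mo.x0 t (i1 t (i3 t ht)) p hp).1
    have pi0 := pi_pos
    have a4 : 0 < cos (π / 3 - G.θ 0 t p) := cos_pos_of_mem_Ioo ⟨by linarith, by linarith⟩
    have a5 := le_tan (x := π / 3 - G.θ 0 t p) (by linarith) (by linarith)
    rw [tan_eq_sin_div_cos, le_div_iff₀ a4] at a5
    simp only [(ang _).1, (ang _).2] at h1 h2 ⊢
    rw [(mul_eq_zero.1 h1).resolve_left (by linarith)] at h2 ⊢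
    have a6 : sin (π / 3 - G.θ 0 t p) + Pxx (σσ t) (G.x 0 t p) * cos (π / 3 - G.θ 0 t p) ≤ 0 := by
      nlinarith
    nlinarith
  · refine absurd h (not_lt.2 ?_)
    have h1 := i1 t (i3 t ht)
    have a1 := mo.area t h1
    have a2 := (abs_le.1 (mo.ar1 t h1)).2
    have a3 := mo.hpos t h1
    have a4 := (bw t (i3 t ht)).2
    have a5 := sp t (i3 t ht)
    have a6 : ΦΦ t (G.x 0 t 0) ≤ σσ t ^ 2 / 6 := by
      unfold ΦΦ
      rw [div_le_div_iff₀ (by positivity) (by norm_num)]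
      nlinarith [mul_nonneg (sq_nonneg (σσ t)) (sq_nonneg (3 * σσ t - G.x 0 t 0))]
    have a7 : G.ar 0 t 0 = 0 := intervalIntegral.integral_same
    have a8 := pi_gt_three
    nlinarith

end Pool.Agent.P.MP_cf7202_gt
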