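import Pool.Agent.P.MP_cf7202_gt.DefGeo

/-! The barrier for the tangent angle and its consequences. -/

namespace Pool.Agent.P.MP_cf7202_gt

open Set Filter Topology Function Real

namespace B6Aux

theorem mono_of {g g' : ℝ → ℝ}
    (h : ∀ p ∈ Icc (0 : ℝ) 1, HasDerivWithinAt g (g' p) (Icc 0 1) p)
    (h' : ∀ p ∈ Icc (0 : ℝ) 1, 0 ≤ g' p) : ∀ p ∈ Icc (0 : ℝ) 1, g 0 ≤ g p := fun _ hp =>
  monotoneOn_of_hasDerivWithinAt_nonneg (convex_Icc 0 1) (fun x hx => (h x hx).continuousWithinAt)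
    (fun x hx => (h x (interior_subset hx)).mono interior_subset)
    (fun x hx => h' x (interior_subset hx)) (left_mem_Icc.2 zero_le_one) hp hp.1

theorem end_nonpos {g : ℝ → ℝ} {d : ℝ} (h : HasDerivWithinAt g d (Icc 0 1) 1)
    (h0 : ∀ p ∈ Icc (0 : ℝ) 1, 0 ≤ g p) (h1 : g 1 = 0) : d ≤ 0 := by
  rw [hasDerivWithinAt_iff_tendsto_slope] at h
  have hne : (𝓝[Icc (0 : ℝ) 1 \ {1}] 1).NeBot := by
    rw [Icc_sdiff_right, ← mem_closure_iff_nhdsWithin_neBot, closure_Ico zero_ne_one]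
    exact right_mem_Icc.2 zero_le_one
  refine le_of_tendsto h ?_
  filter_upwards [self_mem_nhdsWithin] with p hp
  rw [slope_def_field, h1, sub_zero]
  exact div_nonpos_of_nonneg_of_nonpos (h0 p hp.1) (sub_nonpos.2 hp.1.2)

theorem a0 : αα 0 = 2 * π / 3 := rfl

theorem a1 : αα 1 = 4 * π / 3 := rfl

theorem a2 : αα 2 = 0 := rfl

theorem sin_sum (a : ℝ) : sin (a + αα 0) + sin (a + αα 1) + sin (a + αα 2) = 0 := by
  have e0 : αα 0 = π - π / 3 := by rw [a0]; ring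
  have e1 : αα 1 = π / 3 + π := by rw [a1]; ring
  rw [e0, e1, a2, add_zero, sin_add, sin_add, cos_pi_sub, sin_pi_sub, cos_add_pi, sin_add_pi,
    cos_pi_div_three]
  ring

theorem slice {T t : ℝ} {f : ℝ → ℝ → ℝ} (h : Ct0 T f) (ht : t ∈ Ico 0 T) :
    ContinuousOn (f t) (Icc 0 1) :=
  h.comp (Continuous.prodMk_right t).continuousOn fun _ hp => ⟨ht, hp⟩

variable {T t₁ : ℝ} {G : GS T}

theorem ynn (hM : Mono G) (i : Fin 3) {t p : ℝ} (ht : t ∈ Ico 0 T) (hp : p ∈ Icc (0 : ℝ) 1) :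
    0 ≤ G.y i t p := by
  have h := hM.hpos t ht
  fin_cases i
  · exact h.le.trans (hM.y0 t ht p hp).1
  · exact (hM.y1 t ht p hp).1
  · exact h.le.trans (hM.y2 t ht p hp).1

theorem dp (i : Fin 3) (M : ℝ) {t p : ℝ} (ht : t ∈ Ioo 0 T) (hp : p ∈ Icc (0 : ℝ) 1) :
    HasDerivWithinAt (fun p => M * G.y i t p - G.θ i t p)
      (G.m i t p * (M * sin (G.θ i t p + αα i) - G.κ i t p)) (Icc 0 1) p := by
  refine (((G.yp i t (Ioo_subset_Ico_self ht) p hp).const_mul M).sub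
    (G.θp i t ht p hp)).congr_deriv ?_
  ring

theorem barrier (hN : S_NUM) (hP : S_MP) (hT : T ≤ TT) (hI : Init G) (hM : Mono G)
    (h1 : t₁ ∈ Ico 0 T) (hH : ∀ t ∈ Icc 0 t₁, σσ t / 9 ≤ G.H t) :
    ∀ i, ∀ t ∈ Icc 0 t₁, ∀ p ∈ Icc (0 : ℝ) 1, 0 ≤ 10 / σσ t * G.y i t p - G.θ i t p := by
  have s1 : Icc 0 t₁ ⊆ Ico 0 T := Icc_subset_Ico_right h1.2
  have s2 : Ioc 0 t₁ ⊆ Ioo 0 T := Ioc_subset_Ioo_right h1.2
  have s3 : Ioc 0 t₁ ⊆ Ico 0 T := s2.trans Ioo_subset_Ico_self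
  have hσ : ∀ t ∈ Ico 0 T, 0 < σσ t := fun t ht => hN.pos t (ht.2.trans_le hT)
  refine hP 2 t₁ 0 (fun i t p => 10 / σσ t * G.y i t p - G.θ i t p)
    (fun i t p => 10 / σσ t * sin (G.θ i t p + αα i) - G.κ i t p)
    (fun i t p => 10 / σσ t * (G.κ i t p * cos (G.θ i t p + αα i)) - G.ks i t p)
    (fun i t p => 10 / σσ t ^ 3 * G.y i t p
      + (10 / σσ t * (G.κ i t p * cos (G.θ i t p + αα i)) - G.ks i t p)
      + G.lam i t p * (10 / σσ t * sin (G.θ i t p + αα i) - G.κ i t p)) G.m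
    (fun i => ?_) (fun i t ht => G.mpos i t (s3 ht)) (fun i t ht p hp => dp i _ (s2 ht) hp)
    (fun i t ht p hp => ?_) (fun i t ht p hp => ?_) (fun i t ht p hp _ e1 e2 => ?_)
    (fun i t ht => ?_) (fun t ht _ => ?_) (fun i t ht h => ?_)
    (fun i p hp => sub_nonneg.2 (hI.b6 i p hp))
  · have s4 := prod_mono s1 (Subset.refl (Icc (0 : ℝ) 1))
    exact ((continuousOn_const.div (hN.cont.comp continuous_fst).continuousOn
      fun z hz => (hσ _ (s1 hz.1)).ne').mul ((G.cy i).mono s4)).sub ((G.cθ i).mono s4)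
  · refine (((((G.θp i t (s2 ht) p hp).add_const (αα i)).sin).const_mul (10 / σσ t)).sub
      (G.κp i t (s2 ht) p hp)).congr_deriv ?_
    ring
  · have h2 := (hσ t (s3 ht)).ne'
    refine ((((hasDerivAt_const t (10 : ℝ)).fun_div (hN.der t ((s3 ht).2.trans_le hT)) h2).fun_mul
      (G.yt i t (s2 ht) p hp)).sub (G.θt i t (s2 ht) p hp)).congr_deriv ?_
    field_simp
    ring
  · have h2 := hσ t (s3 ht)
    have h3 := ynn hM i (s3 ht) hp
    have h4 : 0 ≤ 10 / σσ t ^ 3 * G.y i t p := by positivity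
    rw [e1]
    linarith
  · simp only [G.jy i t (s3 ht), G.jθ i t (s3 ht)]
  · have h2 := sin_sum (G.θ 0 t 0)
    have h3 := G.jκ t (s2 ht)
    refine (Fin.sum_univ_three _).trans_le (le_of_eq ?_)
    rw [G.jθ 1 t (s3 ht), G.jθ 2 t (s3 ht)]
    linear_combination (10 / σσ t) * h2 - h3
  · have h2 := hσ t (s3 ht)
    fin_cases i
    · have h3 : σσ t / 9 ≤ G.y 0 t 1 := hH t (Ioc_subset_Icc_self ht)
      have h4 : 10 / σσ t * G.y 0 t 1 - G.θ 0 t 1 < 0 := h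
      have h5 : 10 / σσ t * (σσ t / 9) = 10 / 9 := by field_simp
      have h6 := mul_le_mul_of_nonneg_left h3 (by positivity : 0 ≤ 10 / σσ t)
      rw [G.eθ0 t (s3 ht)] at h4
      linarith [pi_lt_d2]
    · have h4 : 10 / σσ t * G.y 1 t 1 - G.θ 1 t 1 < 0 := h
      rw [G.eθ1 t (s3 ht), G.ey1 t (s3 ht)] at h4
      simp at h4
    · have h3 := hM.θ 2 t (s3 ht) 1 (right_mem_Icc.2 zero_le_one)
      have h4 := sin_nonneg_of_nonneg_of_le_pi h3.1 (by linarith [h3.2, pi_pos])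
      change 0 ≤ 10 / σσ t * sin (G.θ 2 t 1 + αα 2) - G.κ 2 t 1
      rw [G.eκ2 t (s2 ht), a2, add_zero, sub_zero]
      positivity

theorem key {M y θ : ℝ} (hM : 0 < M) (hy : 0 ≤ y) (h0 : 0 ≤ θ) (h1 : θ ≤ π / 3) (h2 : θ ≤ M * y) :
    0 ≤ cos (θ + αα 0) + 9 / 2 / (1 + M * y) ^ 2 * sin (θ + αα 0)
      - 2 * M * (y * cos (θ + αα 0)) := by
  have e : θ + αα 0 = π - (π / 3 - θ) := by rw [a0]; ring
  rw [e, cos_pi_sub, sin_pi_sub]
  have hπ := pi_gt_three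
  have hc := cos_nonneg_of_neg_pi_div_two_le_of_le (x := π / 3 - θ) (by linarith) (by linarith)
  have hs := sin_nonneg_of_nonneg_of_le_pi (x := π / 3 - θ) (by linarith) (by linarith)
  have hz : 0 ≤ M * y := by positivity
  rcases le_total (1 / 2) (M * y) with h | h
  · have h3 : 0 ≤ 9 / 2 / (1 + M * y) ^ 2 * sin (π / 3 - θ) := by positivity
    nlinarith
  · have h3 : 2 ≤ 9 / 2 / (1 + M * y) ^ 2 := by
      rw [le_div_iff₀ (by positivity)]
      nlinarith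
    have h4 := sin_le_sin_of_le_of_le_pi_div_two (x := π / 6) (y := π / 3 - θ) (by linarith)
      (by linarith) (by linarith)
    rw [sin_pi_div_six] at h4
    have h5 := cos_le_one (π / 3 - θ)
    nlinarith [mul_nonneg hz hc]

theorem xi_le (hK : S_TK) (hM : Mono G) {t M : ℝ} (ht : t ∈ Ico 0 T) (hp : 0 < M)
    (h : ∀ p ∈ Icc (0 : ℝ) 1, G.θ 0 t p ≤ M * G.y 0 t p) :
    G.ξ t ≤ 9 / 2 / M - 2 * M * G.ar 0 t 1 := by
  have hc : ContinuousOn (fun q => G.y 0 t q * (G.m 0 t q * cos (G.θ 0 t q + αα 0))) (Icc 0 1) :=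
    (slice (G.cy 0) ht).mul ((slice (G.cm 0) ht).mul
      (continuous_cos.comp_continuousOn ((slice (G.cθ 0) ht).add continuousOn_const)))
  have hz : ∀ p ∈ Icc (0 : ℝ) 1, 0 < 1 + M * G.y 0 t p := fun p hq => by
    have := ynn hM 0 ht hq
    positivity
  have h1 := mono_of (g := fun p => G.x 0 t p - 9 / 2 / M * (1 + M * G.y 0 t p)⁻¹
      - 2 * M * G.ar 0 t p)
    (g' := fun p => G.m 0 t p * (cos (G.θ 0 t p + αα 0)
      + 9 / 2 / (1 + M * G.y 0 t p) ^ 2 * sin (G.θ 0 t p + αα 0)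
      - 2 * M * (G.y 0 t p * cos (G.θ 0 t p + αα 0)))) (fun p hq => by
      refine (((G.xp 0 t ht p hq).sub (((((G.yp 0 t ht p hq).const_mul M).const_add 1).fun_inv
        (hz p hq).ne').const_mul (9 / 2 / M))).sub
        ((hK.int_dx _ hc p hq).const_mul (2 * M))).congr_deriv ?_
      field_simp
      ring)
    (fun p hq => mul_nonneg (G.mpos 0 t ht p hq).le
      (key hp (ynn hM 0 ht hq) (hM.θ 0 t ht p hq).1 (hM.θ 0 t ht p hq).2 (h p hq)))
    1 (right_mem_Icc.2 zero_le_one)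
  have h2 : G.ar 0 t 0 = 0 := intervalIntegral.integral_same
  have h3 := inv_pos.2 (hz 1 (right_mem_Icc.2 zero_le_one))
  have h4 : (1 + M * G.y 0 t 0)⁻¹ ≤ 1 := inv_le_one_of_one_le₀ (by
    have := ynn hM 0 ht (left_mem_Icc.2 zero_le_one)
    nlinarith)
  have h5 : 0 < 9 / 2 / M := by positivity
  simp only [h2, G.ex0 t ht] at h1
  unfold GS.ξ
  nlinarith

theorem y2_le (hM : Mono G) {t M : ℝ} (ht : t ∈ Ico 0 T)
    (h : ∀ p ∈ Icc (0 : ℝ) 1, G.θ 2 t p ≤ M * G.y 2 t p) :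
    ∀ p ∈ Icc (0 : ℝ) 1, G.y 2 t p ≤ G.h t * exp (2 * M * (G.x 2 t p - G.ξ t)) := by
  intro p hp
  have h1 := mono_of (g := fun p => -(G.y 2 t p * exp (-(2 * M) * G.x 2 t p)))
    (g' := fun p => G.m 2 t p * exp (-(2 * M) * G.x 2 t p) *
      (2 * (M * G.y 2 t p) * cos (G.θ 2 t p) - sin (G.θ 2 t p))) (fun p hq => by
      refine ((G.yp 2 t ht p hq).fun_mul
        ((G.xp 2 t ht p hq).const_mul (-(2 * M))).exp).neg.congr_deriv ?_
      rw [a2, add_zero]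
      ring)
    (fun p hq => by
      obtain ⟨h2, h3⟩ := hM.θ 2 t ht p hq
      have h4 := cos_le_cos_of_nonneg_of_le_pi h2 (by linarith [pi_pos]) h3
      rw [cos_pi_div_three] at h4
      have h5 := sin_le h2
      have h6 := h p hq
      exact mul_nonneg (mul_pos (G.mpos 2 t ht p hq) (exp_pos _)).le (by nlinarith)) p hp
  simp only [neg_le_neg_iff, G.jy 2 t ht, G.jx 2 t ht] at h1
  have h2 := mul_le_mul_of_nonneg_right h1 (exp_pos (2 * M * G.x 2 t p)).le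
  rw [mul_assoc (G.y 2 t p), mul_assoc (G.y 0 t 0), ← exp_add, ← exp_add] at h2
  have e1 : -(2 * M) * G.x 2 t p + 2 * M * G.x 2 t p = 0 := by ring
  have e2 : -(2 * M) * G.x 0 t 0 + 2 * M * G.x 2 t p = 2 * M * (G.x 2 t p - G.x 0 t 0) := by ring
  rwa [e1, e2, exp_zero, mul_one] at h2

end B6Aux

open B6Aux

theorem b6 : S_TK → S_NUM → S_MP → S_B6 := by
  intro hK hN hP T t₁ G hT hI hM h1 hB hH t ht
  have hb := barrier hN hP hT hI hM h1 hH
  have ht' : t ∈ Ico 0 T := Icc_subset_Ico_right h1.2 ht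
  have hσ := hN.pos t (ht'.2.trans_le hT)
  have hq : 0 < 10 / σσ t := by positivity
  have hb' : ∀ i, ∀ p ∈ Icc (0 : ℝ) 1, G.θ i t p ≤ 10 / σσ t * G.y i t p :=
    fun i p hp => sub_nonneg.1 (hb i t ht p hp)
  refine ⟨hb', fun h0 => ?_, ?_, fun p hp => ?_⟩
  · have h2 := end_nonpos (dp (G := G) 1 (10 / σσ t) ⟨h0, ht'.2⟩ (right_mem_Icc.2 zero_le_one))
      (hb 1 t ht) (by simp [G.eθ1 t ht', G.ey1 t ht'])
    have h3 := nonpos_of_mul_nonpos_right h2 (G.mpos 1 t ht' 1 (right_mem_Icc.2 zero_le_one))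
    nlinarith [neg_one_le_sin (G.θ 1 t 1 + αα 1)]
  · have h2 := xi_le hK hM ht' hq (hb' 0)
    have h3 := hM.area t ht'
    have h4 := (abs_le.1 (hM.ar1 t ht')).1
    have h5 := (hB t ht).2
    have h6 := hM.hpos t ht'
    have h7 : -G.ar 0 t 1 ≤ 0.55 * σσ t ^ 2 := by nlinarith [pi_lt_d2]
    have h8 := mul_le_mul_of_nonneg_left h7 hq.le
    have h9 : 10 / σσ t * (0.55 * σσ t ^ 2) = 5.5 * σσ t := by field_simp; ring
    have h10 : 9 / 2 / (10 / σσ t) = 0.45 * σσ t := by field_simp; ring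
    linarith
  · convert y2_le hM ht' (hb' 2) p hp using 4
    ring

end Pool.Agent.P.MP_cf7202_gt
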