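import Pool.Agent.P.MP_cf7202_gt.DefGeo

/-! Barrier for the thin region under the long edge. -/

namespace Pool.Agent.P.MP_cf7202_gt

open Set Filter Topology Function Real

namespace B7Aux

/-- first space derivative of the barrier -/
noncomputable def Px (t x : ℝ) : ℝ :=
  x ^ (1 / 32 : ℝ) * (65 / 32 * x - 1.07 / 32 * σσ t ^ 2 / x)

/-- second space derivative of the barrier -/
noncomputable def Pxx (t x : ℝ) : ℝ :=
  x ^ (1 / 32 : ℝ) * (65 / 32 * (33 / 32) + 1.07 / 32 * (31 / 32) * σσ t ^ 2 / x ^ 2)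

theorem hg {x : ℝ} (hx : 0 < x) :
    HasDerivAt (fun z : ℝ => z ^ (1 / 32 : ℝ)) (x ^ (1 / 32 : ℝ) / (32 * x)) x := by
  have h := Real.hasDerivAt_rpow_const (x := x) (p := (1 / 32 : ℝ)) (Or.inl hx.ne')
  convert h using 1
  rw [Real.rpow_sub_one hx.ne']
  field_simp

theorem hP (t : ℝ) {x : ℝ} (hx : 0 < x) : HasDerivAt (ΨΨ t) (Px t x) x := by
  have h := (hg hx).mul (((hasDerivAt_id x).pow 2).sub_const (1.07 * σσ t ^ 2))
  refine HasDerivAt.congr_deriv h ?_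
  simp only [Px, id, Pi.pow_apply]
  field_simp
  ring

theorem hPx (t : ℝ) {x : ℝ} (hx : 0 < x) : HasDerivAt (Px t) (Pxx t x) x := by
  have h := (hg hx).mul (((hasDerivAt_id x).const_mul (65 / 32 : ℝ)).sub
    ((hasDerivAt_const x (1.07 / 32 * σσ t ^ 2)).div (hasDerivAt_id x) hx.ne'))
  refine HasDerivAt.congr_deriv h ?_
  simp only [Pxx, id, Pi.sub_apply, Pi.div_apply]
  field_simp
  ring

theorem hPt (num : S_NUM) {t : ℝ} (ht : t < TT) {X : ℝ → ℝ} {X' : ℝ} (hX : HasDerivAt X X' t)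
    (hx : 0 < X t) :
    HasDerivAt (fun s => ΨΨ s (X s)) (2.14 * X t ^ (1 / 32 : ℝ) + Px t (X t) * X') t := by
  have h := ((hg hx).comp t hX).mul ((hX.pow 2).sub (((num.der t ht).pow 2).const_mul 1.07))
  have hs := (num.pos t ht).ne'
  refine HasDerivAt.congr_deriv h ?_
  simp only [Px, comp_apply, Pi.sub_apply, Pi.pow_apply]
  field_simp
  ring

theorem pxx_le {t x : ℝ} (hs : 0 < σσ t) (hx : 1.04 * σσ t ≤ x) :
    Pxx t x ≤ 2.14 * x ^ (1 / 32 : ℝ) := by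
  have hx0 : 0 < x := by linarith
  have h1 : σσ t ^ 2 / x ^ 2 ≤ 1 := by
    rw [div_le_one (by positivity)]
    nlinarith
  have h2 : 0 ≤ x ^ (1 / 32 : ℝ) := by positivity
  have h3 : 1.07 / 32 * (31 / 32) * σσ t ^ 2 / x ^ 2 = 1.07 / 32 * (31 / 32) * (σσ t ^ 2 / x ^ 2) := by
    ring
  rw [Pxx, h3]
  nlinarith

theorem LL_ge : 30 ≤ LL := by
  have : 0 ≤ √3 := Real.sqrt_nonneg 3
  unfold LL
  linarith

theorem px_ge {t : ℝ} (hs : 0 < σσ t) (hs1 : σσ t ≤ 0.77) : 1 ≤ Px t LL := by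
  have hL := LL_ge
  have h1 : 1 ≤ LL ^ (1 / 32 : ℝ) := Real.one_le_rpow (by linarith) (by norm_num)
  have h2 : 1.07 / 32 * σσ t ^ 2 / LL ≤ 1 := by
    rw [div_le_one (by linarith)]
    nlinarith
  rw [Px]
  nlinarith

theorem eta_pos : 0 < ηη := by unfold ηη; positivity

theorem cos_pos' {a : ℝ} (h0 : 0 ≤ a) (h1 : a ≤ π / 3) : 0 < cos a :=
  Real.cos_pos_of_mem_Ioo ⟨by linarith [pi_pos], by linarith [pi_pos]⟩

theorem al2 : αα 2 = 0 := rfl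

theorem ct_ar (tk : S_TK) {T : ℝ} (G : GS T) (i : Fin 3) : Ct0 T (G.ar i) := by
  refine tk.ct0_int T (fun t q => G.y i t q * (G.m i t q * cos (G.θ i t q + αα i))) ?_
  exact (G.cy i).mul ((G.cm i).mul
    (Real.continuous_cos.comp_continuousOn ((G.cθ i).add continuousOn_const)))

theorem ct_slice {T : ℝ} {f : ℝ → ℝ → ℝ} (hf : Ct0 T f) {t : ℝ} (ht : t ∈ Ico 0 T) :
    ContinuousOn (f t) (Icc 0 1) :=
  hf.comp (Continuous.continuousOn (by fun_prop : Continuous fun p : ℝ => (t, p)))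
    (fun _ hp => ⟨ht, hp⟩)

theorem ar_p (tk : S_TK) {T : ℝ} (G : GS T) (i : Fin 3) {t : ℝ} (ht : t ∈ Ico 0 T) {p : ℝ}
    (hp : p ∈ Icc (0 : ℝ) 1) : HasDerivWithinAt (G.ar i t)
      (G.y i t p * (G.m i t p * cos (G.θ i t p + αα i))) (Icc 0 1) p := by
  refine tk.int_dx (fun q => G.y i t q * (G.m i t q * cos (G.θ i t q + αα i))) ?_ p hp
  exact (ct_slice (G.cy i) ht).mul ((ct_slice (G.cm i) ht).mul
    (Real.continuous_cos.comp_continuousOn ((ct_slice (G.cθ i) ht).add continuousOn_const)))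

/-- the barrier inequality -/
theorem barrier (tk : S_TK) (num : S_NUM) (mp : S_MP) {T t₁ : ℝ} (G : GS T) (hT : T ≤ TT)
    (hI : Init G) (hM : Mono G) (ht₁ : t₁ ∈ Ico 0 T) (hB : BW G t₁)
    (hh : ∀ t ∈ Icc 0 t₁, G.h t ≤ 400 * ηη * σσ t ^ (1 + 1 / 32 : ℝ)) :
    ∀ t ∈ Icc 0 t₁, ∀ p ∈ Icc (0 : ℝ) 1,
      G.ar 2 t p - G.ar 1 t 1 ≤ ηη * ΨΨ t (G.x 2 t p) := by
  have hc : ∀ t ∈ Icc 0 t₁, t ∈ Ico 0 T := fun t ht => ⟨ht.1, ht.2.trans_lt ht₁.2⟩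
  have ho : ∀ t ∈ Ioc 0 t₁, t ∈ Ioo 0 T := fun t ht => ⟨ht.1, ht.2.trans_lt ht₁.2⟩
  have hoc : ∀ t ∈ Ioc 0 t₁, t ∈ Icc 0 t₁ := fun t ht => ⟨ht.1.le, ht.2⟩
  have hlt : ∀ t ∈ Icc 0 t₁, t < TT := fun t ht => (hc t ht).2.trans_le hT
  have hs : ∀ t ∈ Icc 0 t₁, 0 < σσ t := fun t ht => num.pos t (hlt t ht)
  have hx : ∀ t ∈ Icc 0 t₁, ∀ p ∈ Icc (0 : ℝ) 1, 1.04 * σσ t ≤ G.x 2 t p := fun t ht p hp =>
    (hB t ht).1.trans (hM.x2 t (hc t ht) p hp).1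
  have hx0 : ∀ t ∈ Icc 0 t₁, ∀ p ∈ Icc (0 : ℝ) 1, 0 < G.x 2 t p := fun t ht p hp => by
    have := hx t ht p hp
    have := hs t ht
    linarith
  have h0 : (0 : ℝ) ∈ Icc (0 : ℝ) 1 := ⟨le_rfl, zero_le_one⟩
  have h1 : (1 : ℝ) ∈ Icc (0 : ℝ) 1 := ⟨zero_le_one, le_rfl⟩
  have hη := eta_pos
  have key := mp 0 t₁ 0
    (fun _ t p => ηη * ΨΨ t (G.x 2 t p) - (G.ar 2 t p - G.ar 1 t 1))
    (fun _ t p => cos (G.θ 2 t p) * (ηη * Px t (G.x 2 t p) - G.y 2 t p))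
    (fun _ t p => -(sin (G.θ 2 t p) * G.κ 2 t p) * (ηη * Px t (G.x 2 t p) - G.y 2 t p)
      + cos (G.θ 2 t p) * (ηη * Pxx t (G.x 2 t p) * cos (G.θ 2 t p) - sin (G.θ 2 t p)))
    (fun _ t p => ηη * (2.14 * G.x 2 t p ^ (1 / 32 : ℝ)) - G.θ 2 t p
      + (ηη * Px t (G.x 2 t p) - G.y 2 t p)
        * (G.lam 2 t p * cos (G.θ 2 t p) - G.κ 2 t p * sin (G.θ 2 t p)))
    (fun _ t p => G.m 2 t p) ?_ ?_ ?_ ?_ ?_ ?_ ?_ ?_ ?_ ?_
  · intro t ht p hp
    have := key 0 t ht p hp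
    linarith
  · intro _
    have hsub : Icc 0 t₁ ×ˢ Icc (0 : ℝ) 1 ⊆ Ico 0 T ×ˢ Icc (0 : ℝ) 1 :=
      fun z hz => ⟨hc _ hz.1, hz.2⟩
    have hxc : ContinuousOn (fun z : ℝ × ℝ => G.x 2 z.1 z.2) (Icc 0 t₁ ×ˢ Icc 0 1) :=
      (G.cx 2).mono hsub
    have ha2 : ContinuousOn (fun z : ℝ × ℝ => G.ar 2 z.1 z.2) (Icc 0 t₁ ×ˢ Icc 0 1) :=
      (ct_ar tk G 2).mono hsub
    have ha1 : ContinuousOn (fun z : ℝ × ℝ => G.ar 1 z.1 1) (Icc 0 t₁ ×ˢ Icc 0 1) :=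
      (ct_ar tk G 1).comp
        (Continuous.continuousOn (by fun_prop : Continuous fun z : ℝ × ℝ => (z.1, (1 : ℝ))))
        (fun z hz => ⟨hc _ hz.1, h1⟩)
    have hσ : ContinuousOn (fun z : ℝ × ℝ => σσ z.1) (Icc 0 t₁ ×ˢ Icc 0 1) :=
      (num.cont.comp continuous_fst).continuousOn
    have hr : ContinuousOn (fun z : ℝ × ℝ => G.x 2 z.1 z.2 ^ (1 / 32 : ℝ))
        (Icc 0 t₁ ×ˢ Icc 0 1) := hxc.rpow_const (fun _ _ => Or.inr (by norm_num))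
    exact (continuousOn_const.mul
      (hr.mul ((hxc.pow 2).sub (continuousOn_const.mul (hσ.pow 2))))).sub (ha2.sub ha1)
  · intro _ t ht p hp
    exact G.mpos 2 t (hc t (hoc t ht)) p hp
  · intro _ t ht p hp
    have htc := hc t (hoc t ht)
    have a1 := (hP t (hx0 t (hoc t ht) p hp)).comp_hasDerivWithinAt p (G.xp 2 t htc p hp)
    have a2 := (a1.const_mul ηη).sub ((ar_p tk G 2 htc hp).sub_const (G.ar 1 t 1))
    refine HasDerivWithinAt.congr_deriv a2 ?_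
    simp only [al2, add_zero]
    ring
  · intro _ t ht p hp
    have htc := hc t (hoc t ht)
    have a1 := (hPx t (hx0 t (hoc t ht) p hp)).comp_hasDerivWithinAt p (G.xp 2 t htc p hp)
    have a2 := (G.θp 2 t (ho t ht) p hp).cos.mul ((a1.const_mul ηη).sub (G.yp 2 t htc p hp))
    refine HasDerivWithinAt.congr_deriv a2 ?_
    simp only [al2, add_zero, comp_apply, Pi.sub_apply]
    ring
  · intro _ t ht p hp
    have htc := hc t (hoc t ht)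
    have hto := ho t ht
    have a1 := hPt num (hlt t (hoc t ht)) (G.xt 2 t hto p hp) (hx0 t (hoc t ht) p hp)
    have a2 := (a1.const_mul ηη).sub ((hM.art 2 t hto p hp).sub (hM.art 1 t hto 1 h1))
    refine HasDerivAt.congr_deriv a2 ?_
    rw [hM.jxt 1 t hto, hM.jxt 2 t hto, G.jy 1 t htc, G.jy 2 t htc, G.jθ 1 t htc, G.jθ 2 t htc,
      G.eθ1 t htc, G.ey1 t htc]
    simp only [al2, add_zero]
    ring
  · intro _ t ht p hp _ hf1 hf2
    have htc := hc t (hoc t ht)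
    obtain ⟨hθ0, hθ1⟩ := hM.θ 2 t htc p hp
    have hcos := cos_pos' hθ0 hθ1
    have hz : ηη * Px t (G.x 2 t p) - G.y 2 t p = 0 := by
      rcases mul_eq_zero.1 hf1 with h | h
      · exact absurd h hcos.ne'
      · exact h
    simp only [hz, mul_zero, zero_add, zero_mul, add_zero] at hf2 ⊢
    have b1 : sin (G.θ 2 t p) ≤ ηη * Pxx t (G.x 2 t p) * cos (G.θ 2 t p) := by
      have := nonneg_of_mul_nonneg_right (a := cos (G.θ 2 t p)) hf2
      by_contra hcon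
      push Not at hcon
      nlinarith
    have b2 : tan (G.θ 2 t p) ≤ ηη * Pxx t (G.x 2 t p) := by
      rw [Real.tan_eq_sin_div_cos, div_le_iff₀ hcos]
      exact b1
    have b3 : G.θ 2 t p ≤ tan (G.θ 2 t p) := Real.le_tan hθ0 (by linarith [pi_pos])
    have b4 := mul_le_mul_of_nonneg_left
      (pxx_le (hs t (hoc t ht)) (hx t (hoc t ht) p hp)) hη.le
    linarith
  · intro _ _ _
    rfl
  · intro t ht hf
    exfalso
    have ht' := hoc t ht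
    have htc := hc t ht'
    have hσ := hs t ht'
    have hσ1 := num.le t ht'.1
    have e0 : G.ar 2 t 0 = 0 := by simp [GS.ar]
    have e1 := (abs_le.1 (hM.ar1 t htc)).1
    have e2 := hx t ht' 0 h0
    have e3 : σσ t ^ (1 / 32 : ℝ) ≤ G.x 2 t 0 ^ (1 / 32 : ℝ) :=
      Real.rpow_le_rpow hσ.le (by linarith) (by norm_num)
    have e4 : σσ t ^ (1 / 32 : ℝ) ≤ 1 := Real.rpow_le_one hσ.le (by linarith) (by norm_num)
    have e5 : 0 < σσ t ^ (1 / 32 : ℝ) := by positivity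
    have e6 := hh t ht'
    rw [Real.rpow_add hσ, Real.rpow_one] at e6
    have e7 := hM.hpos t htc
    have e8 : 0.01 * σσ t ^ 2 ≤ G.x 2 t 0 ^ 2 - 1.07 * σσ t ^ 2 := by nlinarith
    have e9 : σσ t ^ (1 / 32 : ℝ) * (0.01 * σσ t ^ 2) ≤ ΨΨ t (G.x 2 t 0) :=
      mul_le_mul e3 e8 (by positivity) (e5.le.trans e3)
    have e10 : G.h t ^ 2 ≤ (400 * ηη * (σσ t * σσ t ^ (1 / 32 : ℝ))) ^ 2 :=
      pow_le_pow_left₀ e7.le e6 2
    have e11 : (400 * ηη * (σσ t * σσ t ^ (1 / 32 : ℝ))) ^ 2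
        ≤ ηη * (σσ t ^ (1 / 32 : ℝ) * (0.01 * σσ t ^ 2)) := by
      have e12 : 0 < ηη * (σσ t ^ (1 / 32 : ℝ) * σσ t ^ 2) := by positivity
      have e13 : ηη * σσ t ^ (1 / 32 : ℝ) ≤ 1 / 10 ^ 8 := by
        have : ηη = 1 / 10 ^ 8 := rfl
        nlinarith
      have e14 : (400 * ηη * (σσ t * σσ t ^ (1 / 32 : ℝ))) ^ 2
          = 160000 * (ηη * σσ t ^ (1 / 32 : ℝ)) * (ηη * (σσ t ^ (1 / 32 : ℝ) * σσ t ^ 2)) := by
        ring
      rw [e14]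
      nlinarith
    have e15 := mul_le_mul_of_nonneg_left e9 hη.le
    simp only [e0] at hf
    linarith
  · intro _ t ht _
    have ht' := hoc t ht
    have htc := hc t ht'
    obtain ⟨hθ0, hθ1⟩ := hM.θ 2 t htc 1 h1
    have hcos := cos_pos' hθ0 hθ1
    have e1 := px_ge (hs t ht') (num.le t ht'.1)
    simp only [hM.ex t htc, hM.ey t htc]
    exact mul_nonneg hcos.le (by nlinarith)
  · intro _ p hp
    have := hI.b7 p hp
    linarith

end B7Aux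

open B7Aux in
theorem b7 : S_TK → S_NUM → S_MP → S_B7 := by
  intro tk num mp T t₁ G hT hI hM ht₁ hB hh hξ t ht
  have hb := barrier tk num mp G hT hI hM ht₁ hB hh t ht
  have htc : t ∈ Ico 0 T := ⟨ht.1, ht.2.trans_lt ht₁.2⟩
  have hσ := num.pos t (htc.2.trans_le hT)
  have hσ1 := num.le t ht.1
  have hL := LL_ge
  have hη := eta_pos
  have hxi := hξ t ht
  obtain ⟨hxi', hh'⟩ := hB t ht
  have hpos := hM.hpos t htc
  have e0 : G.x 2 t 0 = G.ξ t := G.jx 2 t htc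
  obtain ⟨p, hp, hxp⟩ : G.ξ t + σσ t ∈ G.x 2 t '' Icc 0 1 := by
    refine intermediate_value_Icc zero_le_one (ct_slice (G.cx 2) htc) ?_
    rw [e0, hM.ex t htc]
    constructor <;> linarith
  have hcm : ContinuousOn (fun q => G.m 2 t q * cos (G.θ 2 t q + αα 2)) (Icc 0 1) :=
    (ct_slice (G.cm 2) htc).mul
      (Real.continuous_cos.comp_continuousOn ((ct_slice (G.cθ 2) htc).add continuousOn_const))
  have e1 := tk.ftc _ _ hcm (G.xp 2 t htc) p hp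
  have hsub : uIcc 0 p ⊆ Icc (0 : ℝ) 1 := by
    rw [uIcc_of_le hp.1]
    exact Icc_subset_Icc le_rfl hp.2
  have e2 : G.h t * σσ t ≤ G.ar 2 t p := by
    have e3 : G.h t * σσ t = ∫ q in (0 : ℝ)..p, G.h t * (G.m 2 t q * cos (G.θ 2 t q + αα 2)) := by
      rw [intervalIntegral.integral_const_mul, e1, hxp, e0]
      ring
    rw [e3]
    refine intervalIntegral.integral_mono_on hp.1
      ((continuousOn_const.mul hcm).mono hsub).intervalIntegrable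
      (((ct_slice (G.cy 2) htc).mul hcm).mono hsub).intervalIntegrable (fun q hq => ?_)
    have hq' : q ∈ Icc (0 : ℝ) 1 := ⟨hq.1, hq.2.trans hp.2⟩
    obtain ⟨hθ0, hθ1⟩ := hM.θ 2 t htc q hq'
    refine mul_le_mul_of_nonneg_right (hM.y2 t htc q hq').1
      (mul_nonneg (G.mpos 2 t htc q hq').le ?_)
    rw [al2, add_zero]
    exact (cos_pos' hθ0 hθ1).le
  have e4 := (abs_le.1 (hM.ar1 t htc)).2
  have e5 := hb p hp
  rw [hxp] at e5
  have hX0 : 0 < G.ξ t + σσ t := by linarith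
  have hX1 : G.ξ t + σσ t ≤ 13 * σσ t := by linarith
  have e6 : (G.ξ t + σσ t) ^ (1 / 32 : ℝ) ≤ 2 * σσ t ^ (1 / 32 : ℝ) := by
    have e7 : (G.ξ t + σσ t) ^ (1 / 32 : ℝ) ≤ (2 ^ 32 * σσ t) ^ (1 / 32 : ℝ) :=
      Real.rpow_le_rpow hX0.le (by nlinarith) (by norm_num)
    have e8 : ((2 : ℝ) ^ 32) ^ (1 / 32 : ℝ) = 2 := by
      have := Real.pow_rpow_inv_natCast (x := 2) (by norm_num) (n := 32) (by norm_num)
      rw [one_div]
      exact_mod_cast this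
    rwa [Real.mul_rpow (by positivity) hσ.le, e8] at e7
  have e9 : 0 < σσ t ^ (1 / 32 : ℝ) := by positivity
  have e10 : ΨΨ t (G.ξ t + σσ t) ≤ 2 * σσ t ^ (1 / 32 : ℝ) * (169 * σσ t ^ 2) := by
    have e11 : (G.ξ t + σσ t) ^ 2 - 1.07 * σσ t ^ 2 ≤ 169 * σσ t ^ 2 := by nlinarith
    have e12 : 0 ≤ (G.ξ t + σσ t) ^ 2 - 1.07 * σσ t ^ 2 := by nlinarith
    exact mul_le_mul e6 e11 e12 (by positivity)
  have e13 := mul_le_mul_of_nonneg_left e10 hη.le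
  have e14 : G.h t ^ 2 ≤ G.h t * (σσ t / 1000) := by nlinarith
  rw [Real.rpow_add hσ, Real.rpow_one]
  have e15 : 0 < ηη * (σσ t * σσ t ^ (1 / 32 : ℝ)) := by positivity
  have e16 : (999 / 1000 * G.h t) * σσ t ≤ (338 * (ηη * (σσ t * σσ t ^ (1 / 32 : ℝ)))) * σσ t := by
    nlinarith
  have e17 := le_of_mul_le_mul_right e16 hσ
  nlinarith

end Pool.Agent.P.MP_cf7202_gt
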