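import Pool.Agent.P.MP_cf7202_gt.DefGeo

/-! Weighted energy estimate for the quarter network before the singular time. -/

namespace Pool.Agent.P.MP_cf7202_gt

open Set Filter Topology Function Real

namespace B9Aux

/-- the weight -/
noncomputable def w (a : ℝ) : ℝ := 1 - 3 / 2 * (a - π / 6) ^ 2

/-- derivative of the weight -/
noncomputable def w1 (a : ℝ) : ℝ := -3 * (a - π / 6)

lemma w_bd {a : ℝ} (h0 : 0 ≤ a) (h1 : a ≤ π / 3) : 1 / 2 ≤ w a ∧ w a ≤ 1 := by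
  have hp := Real.pi_lt_d2
  have hp0 := Real.pi_pos
  have h2 : (a - π / 6) ^ 2 ≤ (π / 6) ^ 2 := by nlinarith
  have h3 : (π / 6) ^ 2 ≤ 1 / 3 := by nlinarith
  unfold w
  constructor <;> nlinarith [sq_nonneg (a - π / 6)]

lemma w1_bd {a : ℝ} (h0 : 0 ≤ a) (h1 : a ≤ π / 3) : |w1 a| ≤ 1.6 := by
  have hp := Real.pi_lt_d2
  unfold w1
  rw [abs_le]
  constructor <;> linarith

lemma ct_of_ct0 {T : ℝ} {f : ℝ → ℝ → ℝ} (h : Ct0 T f) : Ct 0 T f :=
  ContinuousOn.mono h (prod_mono Ioo_subset_Ico_self subset_rfl)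

lemma ct_slice {a b : ℝ} {f : ℝ → ℝ → ℝ} (h : Ct a b f) {t : ℝ} (ht : t ∈ Ioo a b) :
    ContinuousOn (f t) (Icc 0 1) := by
  have h1 : ContinuousOn (fun p : ℝ => ((t, p) : ℝ × ℝ)) (Icc 0 1) := by fun_prop
  exact ContinuousOn.comp (g := uncurry f) h h1 (fun p hp => ⟨ht, hp⟩)

variable {T : ℝ} (G : GS T)

/-- energy density -/
noncomputable def ee (i : Fin 3) (t p : ℝ) : ℝ := w (G.θ i t p) * G.κ i t p ^ 2 * G.m i t p

/-- time derivative of the energy density -/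
noncomputable def et (i : Fin 3) (t p : ℝ) : ℝ :=
  w1 (G.θ i t p) * (G.ks i t p + G.lam i t p * G.κ i t p) * G.κ i t p ^ 2 * G.m i t p
    + w (G.θ i t p) * (2 * G.κ i t p
      * (G.kss i t p + G.lam i t p * G.ks i t p + G.κ i t p ^ 3)) * G.m i t p
    + w (G.θ i t p) * G.κ i t p ^ 2 * G.mt i t p

/-- boundary term -/
noncomputable def BB (i : Fin 3) (t p : ℝ) : ℝ :=
  2 * w (G.θ i t p) * G.κ i t p * (G.ks i t p + G.lam i t p * G.κ i t p)
    - w (G.θ i t p) * G.κ i t p ^ 2 * G.lam i t p - w1 (G.θ i t p) * G.κ i t p ^ 3 / 3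

/-- the dissipation density -/
noncomputable def dd (i : Fin 3) (t p : ℝ) : ℝ :=
  G.m i t p * (-2 * w (G.θ i t p) * G.ks i t p ^ 2 + (w (G.θ i t p) - 1) * G.κ i t p ^ 4)

lemma ct_ee (i : Fin 3) : Ct 0 T (ee G i) := by
  have h1 := ct_of_ct0 (G.cθ i)
  have h2 := ct_of_ct0 (G.cm i)
  have h3 := G.cκ i
  unfold Ct at *
  have : uncurry (ee G i) = fun z => (1 - 3 / 2 * (uncurry (G.θ i) z - π / 6) ^ 2)
      * uncurry (G.κ i) z ^ 2 * uncurry (G.m i) z := by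
    funext z; rfl
  rw [this]
  fun_prop

lemma ct_et (i : Fin 3) : Ct 0 T (et G i) := by
  have h1 := ct_of_ct0 (G.cθ i)
  have h2 := ct_of_ct0 (G.cm i)
  have h3 := G.cκ i
  have h4 := G.cks i
  have h5 := G.ckss i
  have h6 := G.cmt i
  have h7 := G.clam i
  unfold Ct at *
  have : uncurry (et G i) = fun z =>
      (-3 * (uncurry (G.θ i) z - π / 6))
        * (uncurry (G.ks i) z + uncurry (G.lam i) z * uncurry (G.κ i) z)
        * uncurry (G.κ i) z ^ 2 * uncurry (G.m i) z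
      + (1 - 3 / 2 * (uncurry (G.θ i) z - π / 6) ^ 2) * (2 * uncurry (G.κ i) z
        * (uncurry (G.kss i) z + uncurry (G.lam i) z * uncurry (G.ks i) z
          + uncurry (G.κ i) z ^ 3)) * uncurry (G.m i) z
      + (1 - 3 / 2 * (uncurry (G.θ i) z - π / 6) ^ 2) * uncurry (G.κ i) z ^ 2
        * uncurry (G.mt i) z := by
    funext z; rfl
  rw [this]
  fun_prop

lemma ct_dd (i : Fin 3) : Ct 0 T (dd G i) := by
  have h1 := ct_of_ct0 (G.cθ i)
  have h2 := ct_of_ct0 (G.cm i)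
  have h3 := G.cκ i
  have h4 := G.cks i
  unfold Ct at *
  have : uncurry (dd G i) = fun z => uncurry (G.m i) z
      * (-2 * (1 - 3 / 2 * (uncurry (G.θ i) z - π / 6) ^ 2) * uncurry (G.ks i) z ^ 2
        + ((1 - 3 / 2 * (uncurry (G.θ i) z - π / 6) ^ 2) - 1) * uncurry (G.κ i) z ^ 4) := by
    funext z; rfl
  rw [this]
  fun_prop

lemma ee_dt (i : Fin 3) {t : ℝ} (ht : t ∈ Ioo 0 T) {p : ℝ} (hp : p ∈ Icc (0 : ℝ) 1) :
    HasDerivAt (fun s => ee G i s p) (et G i t p) t := by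
  have h1 := G.θt i t ht p hp
  have h2 := G.κt i t ht p hp
  have h3 := G.mt' i t ht p hp
  have h4 := ((((((h1.sub_const (π / 6)).pow 2).const_mul (3 / 2)).const_sub 1).mul
    (h2.pow 2)).mul h3)
  refine HasDerivAt.congr_deriv (f' := _) h4 ?_
  simp only [et, w, w1, Pi.mul_apply, Pi.pow_apply]
  push_cast
  ring

lemma BB_dp (i : Fin 3) {t : ℝ} (ht : t ∈ Ioo 0 T) {p : ℝ} (hp : p ∈ Icc (0 : ℝ) 1) :
    HasDerivWithinAt (BB G i t) (et G i t p - dd G i t p) (Icc 0 1) p := by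
  have h1 := G.θp i t ht p hp
  have h2 := G.κp i t ht p hp
  have h3 := G.ksp i t ht p hp
  have h4 := G.lamp i t ht p hp
  have hw := (((h1.sub_const (π / 6)).pow 2).const_mul (3 / 2)).const_sub 1
  have hw1 := (h1.sub_const (π / 6)).const_mul (-3)
  have h5 := ((((hw.const_mul 2).mul h2).mul (h3.add (h4.mul h2))).sub
    ((hw.mul (h2.pow 2)).mul h4)).sub ((hw1.mul (h2.pow 3)).div_const 3)
  refine HasDerivWithinAt.congr_deriv (f' := _) h5 ?_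
  simp only [et, dd, w, w1, Pi.mul_apply, Pi.pow_apply, Pi.add_apply]
  push_cast
  ring

/-- the dissipation of one edge -/
noncomputable def JJ (i : Fin 3) (t : ℝ) : ℝ := ∫ q in (0 : ℝ)..1, G.ks i t q ^ 2 * G.m i t q

/-- the energy of one edge -/
noncomputable def EE (i : Fin 3) (t : ℝ) : ℝ := ∫ q in (0 : ℝ)..1, ee G i t q

lemma ii {f : ℝ → ℝ} (h : ContinuousOn f (Icc 0 1)) :
    IntervalIntegrable f MeasureTheory.volume 0 1 :=
  ContinuousOn.intervalIntegrable_of_Icc zero_le_one h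

lemma edge (tk : S_TK) (hM : Mono G) (i : Fin 3) {t : ℝ} (ht : t ∈ Ioo 0 T) :
    ∃ D, HasDerivAt (EE G i) D t ∧ D ≤ BB G i t 1 - BB G i t 0 - JJ G i t := by
  have h1 : (1 : ℝ) ∈ Icc (0 : ℝ) 1 := ⟨zero_le_one, le_rfl⟩
  refine ⟨_, tk.int_dt 0 T (ee G i) (et G i) (ct_ee G i) (ct_et G i)
    (fun s hs p hp => ee_dt G i hs hp) t ht 1 h1, ?_⟩
  have c1 := ct_slice (ct_et G i) ht
  have c2 := ct_slice (ct_dd G i) ht
  have c3 := ct_slice (G.cks i) ht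
  have c4 := ct_slice (ct_of_ct0 (G.cm i)) ht
  have h2 := tk.ftc (BB G i t) (fun p => et G i t p - dd G i t p) (c1.sub c2)
    (fun p hp => BB_dp G i ht hp) 1 h1
  rw [intervalIntegral.integral_sub (ii c1) (ii c2)] at h2
  have c5 : ContinuousOn (fun q => -(G.ks i t q ^ 2 * G.m i t q)) (Icc 0 1) := by fun_prop
  have h3 : ∫ q in (0 : ℝ)..1, dd G i t q ≤ ∫ q in (0 : ℝ)..1, -(G.ks i t q ^ 2 * G.m i t q) := by
    refine intervalIntegral.integral_mono_on zero_le_one (ii c2) (ii c5) ?_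
    intro p hp
    have hθ := hM.θ i t (Ioo_subset_Ico_self ht) p hp
    have hw := w_bd hθ.1 hθ.2
    have hm := G.mpos i t (Ioo_subset_Ico_self ht) p hp
    have a1 : -2 * w (G.θ i t p) * G.ks i t p ^ 2 + (w (G.θ i t p) - 1) * G.κ i t p ^ 4
        ≤ -G.ks i t p ^ 2 := by
      have b1 : 0 ≤ G.κ i t p ^ 4 := by positivity
      have b2 : 0 ≤ G.ks i t p ^ 2 := by positivity
      nlinarith [hw.1, hw.2]
    unfold dd
    nlinarith
  rw [intervalIntegral.integral_neg] at h3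
  unfold JJ
  linarith

lemma cub {a b : ℝ} (ha : 0 ≤ a) (hb : 0 ≤ b) : a ^ 2 * b + b ^ 2 * a ≤ a ^ 3 + b ^ 3 := by
  nlinarith [mul_nonneg (add_nonneg ha hb) (sq_nonneg (a - b))]

lemma junc_alg {W W1 q a b c : ℝ} (hW0 : 0 ≤ W) (hW : W ≤ 1) (hW1 : |W1| ≤ 1.6)
    (hs : a + b + c = 0) :
    -((2 * W * a * q - W * a ^ 2 * ((c - b) / √3) - W1 * a ^ 3 / 3)
      + (2 * W * b * q - W * b ^ 2 * ((a - c) / √3) - W1 * b ^ 3 / 3)
      + (2 * W * c * q - W * c ^ 2 * ((b - a) / √3) - W1 * c ^ 3 / 3))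
      ≤ 2 * (|a| ^ 3 + |b| ^ 3 + |c| ^ 3) := by
  have h3 : (1.7 : ℝ) ≤ √3 := by
    rw [Real.le_sqrt (by norm_num) (by norm_num)]; norm_num
  have h3p : (0 : ℝ) < √3 := by linarith
  set S := |a| ^ 3 + |b| ^ 3 + |c| ^ 3 with hS
  have ha := abs_nonneg a
  have hb := abs_nonneg b
  have hc := abs_nonneg c
  have hS0 : 0 ≤ S := by positivity
  have e1 : -((2 * W * a * q - W * a ^ 2 * ((c - b) / √3) - W1 * a ^ 3 / 3)
      + (2 * W * b * q - W * b ^ 2 * ((a - c) / √3) - W1 * b ^ 3 / 3)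
      + (2 * W * c * q - W * c ^ 2 * ((b - a) / √3) - W1 * c ^ 3 / 3))
      = W * ((a ^ 2 * (c - b) + b ^ 2 * (a - c) + c ^ 2 * (b - a)) / √3)
        + W1 * (a ^ 3 + b ^ 3 + c ^ 3) / 3 - 2 * W * q * (a + b + c) := by ring
  rw [e1, hs]
  have k1 : ∀ x y z : ℝ, x ^ 2 * (y - z) ≤ |x| ^ 2 * |y| + |x| ^ 2 * |z| := by
    intro x y z
    rw [sq_abs]
    have := le_abs_self y
    have := neg_abs_le z
    nlinarith [sq_nonneg x]
  have k2 : a ^ 2 * (c - b) + b ^ 2 * (a - c) + c ^ 2 * (b - a) ≤ 2 * S := by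
    have := k1 a c b
    have := k1 b a c
    have := k1 c b a
    have := cub ha hb
    have := cub hb hc
    have := cub ha hc
    linarith
  have k3 : (a ^ 2 * (c - b) + b ^ 2 * (a - c) + c ^ 2 * (b - a)) / √3 ≤ 1.2 * S := by
    rw [div_le_iff₀ h3p]
    nlinarith
  have k4 : W * ((a ^ 2 * (c - b) + b ^ 2 * (a - c) + c ^ 2 * (b - a)) / √3) ≤ 1.2 * S := by
    have := mul_le_mul_of_nonneg_left k3 hW0
    nlinarith
  have k5 : |a ^ 3 + b ^ 3 + c ^ 3| ≤ S := by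
    have := abs_add_three (a ^ 3) (b ^ 3) (c ^ 3)
    rwa [abs_pow, abs_pow, abs_pow] at this
  have k6 : W1 * (a ^ 3 + b ^ 3 + c ^ 3) ≤ 1.6 * S := by
    refine (le_abs_self _).trans ?_
    rw [abs_mul]
    exact mul_le_mul hW1 k5 (abs_nonneg _) (by norm_num)
  linarith

lemma jq (i : Fin 3) {t : ℝ} (ht : t ∈ Ioo 0 T) :
    G.ks i t 0 + G.lam i t 0 * G.κ i t 0 = G.ks 0 t 0 + G.lam 0 t 0 * G.κ 0 t 0 := by
  have h0 : (0 : ℝ) ∈ Icc (0 : ℝ) 1 := ⟨le_rfl, zero_le_one⟩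
  have h1 := G.θt i t ht 0 h0
  have h2 := G.θt 0 t ht 0 h0
  have h3 : (fun s => G.θ i s 0) =ᶠ[𝓝 t] fun s => G.θ 0 s 0 := by
    filter_upwards [isOpen_Ioo.mem_nhds ht] with s hs
    exact G.jθ i s (Ioo_subset_Ico_self hs)
  exact h1.unique (h2.congr_of_eventuallyEq h3)

lemma eq0 (i : Fin 3) {c : ℝ} (hc : ∀ s ∈ Ico 0 T, G.θ i s 1 = c) {t : ℝ} (ht : t ∈ Ioo 0 T) :
    G.ks i t 1 + G.lam i t 1 * G.κ i t 1 = 0 := by
  have h0 : (1 : ℝ) ∈ Icc (0 : ℝ) 1 := ⟨zero_le_one, le_rfl⟩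
  have h1 := G.θt i t ht 1 h0
  have h3 : (fun s => G.θ i s 1) =ᶠ[𝓝 t] fun _ => c := by
    filter_upwards [isOpen_Ioo.mem_nhds ht] with s hs
    exact hc s (Ioo_subset_Ico_self hs)
  exact h1.unique ((hasDerivAt_const t c).congr_of_eventuallyEq h3)

lemma junc (hM : Mono G) {t : ℝ} (ht : t ∈ Ioo 0 T) :
    -(BB G 0 t 0 + BB G 1 t 0 + BB G 2 t 0)
      ≤ 2 * (|G.κ 0 t 0| ^ 3 + |G.κ 1 t 0| ^ 3 + |G.κ 2 t 0| ^ 3) := by
  have ht' := Ioo_subset_Ico_self ht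
  have h0 : (0 : ℝ) ∈ Icc (0 : ℝ) 1 := ⟨le_rfl, zero_le_one⟩
  have hθ := hM.θ 0 t ht' 0 h0
  have hw := w_bd hθ.1 hθ.2
  have hw1 := w1_bd hθ.1 hθ.2
  have key := junc_alg (q := G.ks 0 t 0 + G.lam 0 t 0 * G.κ 0 t 0)
    (by linarith [hw.1] : 0 ≤ w (G.θ 0 t 0)) hw.2 hw1 (G.jκ t ht)
  have l0 : G.lam 0 t 0 = (G.κ 2 t 0 - G.κ 1 t 0) / √3 := G.jlam 0 t ht
  have l1 : G.lam 1 t 0 = (G.κ 0 t 0 - G.κ 2 t 0) / √3 := G.jlam 1 t ht
  have l2 : G.lam 2 t 0 = (G.κ 1 t 0 - G.κ 0 t 0) / √3 := G.jlam 2 t ht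
  rw [← l0, ← l1, ← l2] at key
  unfold BB
  rw [jq G 1 ht, jq G 2 ht, G.jθ 1 t ht', G.jθ 2 t ht']
  exact key

lemma ends (nm : S_NUM) (hT : T < TT) (hM : Mono G) (hE : Est G) {t : ℝ} (ht : t ∈ Ioo 0 T) :
    BB G 0 t 1 + BB G 1 t 1 + BB G 2 t 1 ≤ 2001 * (1 / σσ t) ^ 3 := by
  have ht' := Ioo_subset_Ico_self ht
  have hσ := nm.pos t (ht.2.trans hT)
  have hp := Real.pi_lt_d2
  have hp0 := Real.pi_pos
  have hr : 0 < 1 / σσ t := by positivity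
  have b2 : BB G 2 t 1 = 0 := by
    unfold BB
    rw [G.eκ2 t ht]
    ring
  have b0 : BB G 0 t 1 ≤ (1 / σσ t) ^ 3 := by
    unfold BB
    rw [eq0 G 0 G.eθ0 ht, G.el0 t ht, G.eθ0 t ht']
    have k0 := hM.κ0 t ht
    have k1 := hE.κ0 t ht
    have k2 : G.κ 0 t 1 ^ 3 ≤ (1 / σσ t) ^ 3 := pow_le_pow_left₀ k0 k1 3
    have k3 : 0 ≤ G.κ 0 t 1 ^ 3 := by positivity
    unfold w1
    nlinarith
  have b1 : BB G 1 t 1 ≤ 2000 * (1 / σσ t) ^ 3 := by
    unfold BB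
    rw [eq0 G 1 G.eθ1 ht, G.el1 t ht, G.eθ1 t ht']
    have k0 := hM.κ1 t ht
    have k1 := hE.κ1 t ht
    have k1' : -G.κ 1 t 1 ≤ 10 * (1 / σσ t) := by
      have : 10 / σσ t = 10 * (1 / σσ t) := by ring
      linarith
    have k2 : (-G.κ 1 t 1) ^ 3 ≤ (10 * (1 / σσ t)) ^ 3 :=
      pow_le_pow_left₀ (by linarith) k1' 3
    have k3 : 0 ≤ (-G.κ 1 t 1) ^ 3 := pow_nonneg (by linarith) 3
    have hw := w_bd (le_refl (0 : ℝ)) (by positivity)
    have h3p : (0 : ℝ) < √3 := by positivity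
    have k4 : 0 ≤ w 0 * ((-G.κ 1 t 1) ^ 3 / √3) :=
      mul_nonneg (by linarith [hw.1]) (div_nonneg k3 h3p.le)
    have e : 2 * w 0 * G.κ 1 t 1 * 0 - w 0 * G.κ 1 t 1 ^ 2 * (-G.κ 1 t 1 / √3)
        - w1 0 * G.κ 1 t 1 ^ 3 / 3
        = -(w 0 * ((-G.κ 1 t 1) ^ 3 / √3)) + π / 6 * (-G.κ 1 t 1) ^ 3 := by
      unfold w1
      ring
    rw [e]
    have k5 : (10 * (1 / σσ t)) ^ 3 = 1000 * (1 / σσ t) ^ 3 := by ring
    have k6 : 0 ≤ (1 / σσ t) ^ 3 := by positivity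
    nlinarith
  linarith

lemma curv (nm : S_NUM) (hI : S_INT) (hT : T < TT) (hM : Mono G) (hE : Est G) (i : Fin 3)
    {t : ℝ} (ht : t ∈ Ioo 0 T) :
    |G.κ i t 0| ^ 3 ≤ 0.16 * JJ G i t + 64000 * (1 / σσ t) ^ 3 := by
  have ht' := Ioo_subset_Ico_self ht
  have hσ := nm.pos t (ht.2.trans hT)
  have hσ1 := nm.le t ht.1.le
  have hh := hM.hpos t ht'
  have hh1 := hE.h' t ht'
  have hξ := hE.ξ t ht'
  have hL : (30 : ℝ) ≤ LL := by
    unfold LL
    have : (0 : ℝ) ≤ √3 / 2 := by positivity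
    linarith
  have hδ : G.h t ≤ G.s i t 1 := by
    have s0 := (hM.s0 t ht').1
    have s1 := (hM.s1 t ht').1
    have s2 := (hM.s2 t ht').1
    fin_cases i
    · change G.h t ≤ G.s 0 t 1
      linarith [hξ.1]
    · exact s1
    · change G.h t ≤ G.s 2 t 1
      linarith [hξ.2]
  have hy : ∀ p ∈ Icc (0 : ℝ) 1, G.s i t p ≤ G.h t → G.y i t p ≤ 2 * G.h t := by
    intro p hp hs
    have y0 := (hM.y0 t ht' p hp).2
    have y1 := (hM.y1 t ht' p hp).2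
    have y2 := (hM.y2 t ht' p hp).2.1
    fin_cases i
    · change G.y 0 t p ≤ _
      change G.s 0 t p ≤ _ at hs
      linarith
    · change G.y 1 t p ≤ _
      linarith
    · change G.y 2 t p ≤ _
      change G.s 2 t p ≤ _ at hs
      linarith
  have key := hI (G.θ i t) (G.κ i t) (G.ks i t) (G.m i t) (20 * G.h t / σσ t) (G.h t)
    (ct_slice (ct_of_ct0 (G.cm i)) ht) (ct_slice (G.cks i) ht) (G.mpos i t ht')
    (G.θp i t ht) (G.κp i t ht) hh hδ (by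
      intro p hp hs
      refine ⟨(hM.θ i t ht' p hp).1, (hE.θ i t ht' p hp).trans ?_⟩
      have := hy p hp hs
      have e : 20 * G.h t / σσ t = 10 / σσ t * (2 * G.h t) := by ring
      rw [e]
      exact mul_le_mul_of_nonneg_left this (by positivity))
  have hJ : 0 ≤ JJ G i t := by
    refine intervalIntegral.integral_nonneg zero_le_one ?_
    intro p hp
    have := G.mpos i t ht' p hp
    positivity
  have hA : 20 * G.h t / σσ t ≤ 0.02 := by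
    rw [div_le_iff₀ hσ]
    linarith
  have e : 8 * (20 * G.h t / σσ t) ^ 3 / G.h t ^ 3 = 64000 * (1 / σσ t) ^ 3 := by
    field_simp
    ring
  rw [e] at key
  change _ ≤ 8 * _ * JJ G i t + _ at key
  nlinarith

lemma JJ_nonneg (i : Fin 3) {t : ℝ} (ht : t ∈ Ioo 0 T) : 0 ≤ JJ G i t := by
  refine intervalIntegral.integral_nonneg zero_le_one ?_
  intro p hp
  have := G.mpos i t (Ioo_subset_Ico_self ht) p hp
  positivity

lemma total (tk : S_TK) (nm : S_NUM) (hI : S_INT) (hT : T < TT) (hM : Mono G) (hE : Est G)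
    {t : ℝ} (ht : t ∈ Ioo 0 T) :
    ∃ D, HasDerivAt (fun s => EE G 0 s + EE G 1 s + EE G 2 s) D t ∧
      D ≤ 400000 * (1 / σσ T) ^ 3 := by
  obtain ⟨D0, h0, k0⟩ := edge G tk hM 0 ht
  obtain ⟨D1, h1, k1⟩ := edge G tk hM 1 ht
  obtain ⟨D2, h2, k2⟩ := edge G tk hM 2 ht
  refine ⟨D0 + D1 + D2, (h0.add h1).add h2, ?_⟩
  have a1 := junc G hM ht
  have a2 := ends G nm hT hM hE ht
  have c0 := curv G nm hI hT hM hE 0 ht
  have c1 := curv G nm hI hT hM hE 1 ht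
  have c2 := curv G nm hI hT hM hE 2 ht
  have j0 := JJ_nonneg G 0 ht
  have j1 := JJ_nonneg G 1 ht
  have j2 := JJ_nonneg G 2 ht
  have hσ := nm.pos t (ht.2.trans hT)
  have hσT := nm.pos T hT
  have hle : σσ T ≤ σσ t := by
    unfold σσ
    exact Real.sqrt_le_sqrt (by linarith [ht.2])
  have r1 : (1 / σσ t) ^ 3 ≤ (1 / σσ T) ^ 3 :=
    pow_le_pow_left₀ (by positivity) (one_div_le_one_div_of_le hσT hle) 3
  have r2 : 0 ≤ (1 / σσ t) ^ 3 := by positivity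
  linarith

lemma EE_bd (hM : Mono G) (i : Fin 3) {t : ℝ} (ht : t ∈ Ioo 0 T) :
    0 ≤ EE G i t ∧ ∫ p in (0 : ℝ)..1, G.κ i t p ^ 2 * G.m i t p ≤ 2 * EE G i t := by
  have ht' := Ioo_subset_Ico_self ht
  have c1 := ct_slice (ct_ee G i) ht
  have c3 := ct_slice (G.cκ i) ht
  have c4 := ct_slice (ct_of_ct0 (G.cm i)) ht
  constructor
  · refine intervalIntegral.integral_nonneg zero_le_one ?_
    intro p hp
    have hm := G.mpos i t ht' p hp
    have hθ := hM.θ i t ht' p hp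
    have hw : 0 ≤ w (G.θ i t p) := by linarith [(w_bd hθ.1 hθ.2).1]
    unfold ee
    positivity
  · unfold EE
    rw [← intervalIntegral.integral_const_mul]
    have c5 : ContinuousOn (fun p => G.κ i t p ^ 2 * G.m i t p) (Icc 0 1) := by fun_prop
    have c6 : ContinuousOn (fun p => 2 * ee G i t p) (Icc 0 1) := by fun_prop
    refine intervalIntegral.integral_mono_on zero_le_one (ii c5) (ii c6) ?_
    intro p hp
    have hm := G.mpos i t ht' p hp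
    have hθ := hM.θ i t ht' p hp
    have hw := (w_bd hθ.1 hθ.2).1
    have : 0 ≤ G.κ i t p ^ 2 * G.m i t p := by positivity
    unfold ee
    nlinarith

end B9Aux

open B9Aux in
theorem b9 (tk : S_TK) (nm : S_NUM) (hI : S_INT) : S_B9 := by
  intro T t₀ G hT hM hE ht₀
  set C := 400000 * (1 / σσ T) ^ 3 with hC
  have hC0 : 0 ≤ C := by
    have := nm.pos T hT
    positivity
  set F : ℝ → ℝ := fun s => EE G 0 s + EE G 1 s + EE G 2 s with hF
  have hd : ∀ t ∈ Ioo 0 T, ∃ D, HasDerivAt F D t ∧ D ≤ C :=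
    fun t ht => total G tk nm hI hT hM hE ht
  have hb : ∀ t ∈ Ico t₀ T, F t ≤ F t₀ + C * T := by
    intro t ht
    have hsub : Icc t₀ t ⊆ Ioo 0 T := fun s hs => ⟨ht₀.1.trans_le hs.1, hs.2.trans_lt ht.2⟩
    have hc : ContinuousOn F (Icc t₀ t) := by
      intro s hs
      obtain ⟨D, h1, _⟩ := hd s (hsub hs)
      exact h1.continuousAt.continuousWithinAt
    have hdf : DifferentiableOn ℝ F (interior (Icc t₀ t)) := by
      intro s hs
      obtain ⟨D, h1, _⟩ := hd s (hsub (interior_subset hs))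
      exact h1.differentiableAt.differentiableWithinAt
    have hle : ∀ s ∈ interior (Icc t₀ t), deriv F s ≤ C := by
      intro s hs
      obtain ⟨D, h1, h2⟩ := hd s (hsub (interior_subset hs))
      rwa [h1.deriv]
    have := (convex_Icc t₀ t).image_sub_le_mul_sub_of_deriv_le hc hdf hle t₀
      ⟨le_rfl, ht.1⟩ t ⟨ht.1, le_rfl⟩ ht.1
    have h2 : C * (t - t₀) ≤ C * T :=
      mul_le_mul_of_nonneg_left (by linarith [ht.2, ht₀.1]) hC0
    linarith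
  refine ⟨2 * (F t₀ + C * T), fun t ht i => ?_⟩
  have ht' : t ∈ Ioo 0 T := ⟨ht₀.1.trans_le ht.1, ht.2⟩
  have e0 := EE_bd G hM 0 ht'
  have e1 := EE_bd G hM 1 ht'
  have e2 := EE_bd G hM 2 ht'
  have hFt : F t = EE G 0 t + EE G 1 t + EE G 2 t := rfl
  have := hb t ht
  fin_cases i
  · change ∫ p in (0 : ℝ)..1, G.κ 0 t p ^ 2 * G.m 0 t p ≤ _
    linarith [e0.1, e0.2, e1.1, e2.1]
  · change ∫ p in (0 : ℝ)..1, G.κ 1 t p ^ 2 * G.m 1 t p ≤ _
    linarith [e0.1, e1.2, e1.1, e2.1]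
  · change ∫ p in (0 : ℝ)..1, G.κ 2 t p ^ 2 * G.m 2 t p ≤ _
    linarith [e0.1, e2.2, e1.1, e2.1]

end Pool.Agent.P.MP_cf7202_gt
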