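import Pool.Agent.P.MP_cf7202_gt.DefFD

/-! The blow-up limit of the symmetric network. -/

namespace Pool.Agent.P.MP_cf7202_gt

open Set Filter Topology Function Real
open scoped ContDiff ENNReal

namespace BLOWAux

/-- the reflections as continuous linear maps -/
noncomputable def syL (b c : Bool) : ℂ →L[ℝ] ℂ :=
  LinearMap.toContinuousLinearMap
    { toFun := sy b c
      map_add' := fun z w => by
        cases b <;> cases c <;> apply Complex.ext <;> simp [sy, add_comm]
      map_smul' := fun a z => by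
        cases b <;> cases c <;> apply Complex.ext <;> simp [sy] }

theorem syL_apply (b c : Bool) (z : ℂ) : syL b c z = sy b c z := rfl

theorem norm_sy (b c : Bool) (z : ℂ) : ‖sy b c z‖ = ‖z‖ := by
  cases b <;> cases c <;> simp [sy, Complex.norm_def, Complex.normSq_apply]

theorem sy_sub (b c : Bool) (z w : ℂ) : sy b c z - sy b c w = sy b c (z - w) :=
  ((syL b c).map_sub z w).symm

theorem sy_smul (b c : Bool) (a : ℝ) (z : ℂ) : a • sy b c z = sy b c (a • z) :=
  ((syL b c).map_smul a z).symm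

theorem nor_sy (b c : Bool) (τ v : ℂ) : nor (sy b c τ) (sy b c v) = sy b c (nor τ v) := by
  have : (inner ℝ (sy b c v) (sy b c τ) : ℝ) = inner ℝ v τ := by
    cases b <;> cases c <;> simp [sy, Complex.inner]
  rw [nor, nor, this, sy_smul, sy_sub]

theorem deriv_sy (b c : Bool) {f : ℝ → ℂ} (hf : Differentiable ℝ f) :
    deriv (fun s => sy b c (f s)) = fun s => sy b c (deriv f s) :=
  funext fun s => ((syL b c).hasFDerivAt.comp_hasDerivAt s (hf s).hasDerivAt).deriv

theorem shr_diff {f : ℝ → ℂ} (hf : IsShrinkerCurve f) : Differentiable ℝ f :=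
  hf.1.differentiable (by simp)

theorem shr_sy (b c : Bool) {f : ℝ → ℂ} (hf : IsShrinkerCurve f) :
    IsShrinkerCurve fun s => sy b c (f s) := by
  have h2 : Differentiable ℝ (deriv f) :=
    (contDiff_succ_iff_deriv.mp (show ContDiff ℝ (1 + 1) f from by
      rw [one_add_one_eq_two]; exact hf.1)).2.2.differentiable (by simp)
  refine ⟨(syL b c).contDiff.comp hf.1, fun s => ?_⟩
  rw [deriv_sy b c (shr_diff hf), deriv_sy b c h2]
  refine ⟨by rw [norm_sy]; exact (hf.2 s).1, ?_⟩
  dsimp only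
  rw [nor_sy]
  have := congrArg (syL b c) (hf.2 s).2
  rwa [map_add, map_zero] at this

theorem deriv_line (r : ℝ) : deriv (fun s : ℝ => ((r + s : ℝ) : ℂ)) = fun _ => 1 :=
  funext fun s => by
    simpa using (((hasDerivAt_id s).const_add r).ofReal_comp).deriv

theorem shr_line (r : ℝ) : IsShrinkerCurve fun s : ℝ => ((r + s : ℝ) : ℂ) := by
  refine ⟨Complex.ofRealCLM.contDiff.comp (contDiff_const.add contDiff_id), fun s => ?_⟩
  rw [deriv_line]
  refine ⟨by simp, ?_⟩
  apply Complex.ext <;> simp [nor, Complex.inner]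

theorem ee_ang (b c : Bool) (φ : ℝ) :
    ee (if b then (if c then π + φ else π - φ) else (if c then -φ else φ)) = sy b c (ee φ) := by
  cases b <;> cases c <;> apply Complex.ext <;> simp [ee, sy, cos_add, sin_add]

theorem int_mono {a b : ℝ} {X : ℝ → ℝ → ℂ} {φ m κ lam : ℝ → ℝ → ℝ} (h : MC a b X φ m κ lam)
    {t : ℝ} (ht : t ∈ Ioo a b) {x : ℝ} (hx : x ∈ Icc (0 : ℝ) 1) :
    ∫ q in (0 : ℝ)..x, m t q ≤ ∫ q in (0 : ℝ)..1, m t q := by
  have hc : ContinuousOn (m t) (Icc 0 1) :=
    h.sm.continuousOn.comp (f := fun q => (t, q)) (by fun_prop) fun q hq => ⟨ht, hq⟩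
  refine intervalIntegral.integral_mono_interval le_rfl hx.1 hx.2 ?_
    (hc.intervalIntegrable_of_Icc zero_le_one)
  filter_upwards [MeasureTheory.ae_restrict_mem measurableSet_Ioc] with q hq
  exact (h.pos t ht q (Ioc_subset_Icc_self hq)).le

/-- the limit curves -/
noncomputable def lc (r : ℝ) (c₀ c₁ : ℝ → ℂ) : Ix → ℝ → ℂ
  | .inl _ => fun s => ((-r + s : ℝ) : ℂ)
  | .inr (.inl c) => fun s => sy false c (c₀ s)
  | .inr (.inr (.inl bc)) => fun s => sy bc.1 bc.2 (c₁ s)
  | .inr (.inr (.inr bc)) => fun s => sy bc.1 bc.2 ((r + s : ℝ) : ℂ)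

/-- the limit lengths -/
noncomputable def ll (r l : ℝ) : Ix → ℝ≥0∞
  | .inl _ => ENNReal.ofReal (2 * r)
  | .inr (.inl _) => ENNReal.ofReal l
  | .inr (.inr (.inl _)) => 0
  | .inr (.inr (.inr _)) => ⊤

end BLOWAux

open BLOWAux

theorem blow : S_MC → S_LOC → S_CONV → S_BLOW := by
  intro hMC hLOC hCONV D
  obtain ⟨t, r, l, c₀, c₁, hs, s0, s1, k0, k1, k2⟩ := hCONV D
  have ht : ∀ j, t j ∈ Ioo D.a D.T := fun j => ⟨D.ha.trans_le (hs.times j).1, (hs.times j).2⟩
  have hσ : ∀ j, 0 < D.σ (t j) := fun j => by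
    rw [D.hσ]
    exact Real.sqrt_pos.mpr (by linarith [(ht j).2])
  have hL := fun j => hLOC D (t j) (ht j)
  have key : ∀ j i, ∀ x ∈ Icc (0 : ℝ) 1,
      unitTan (resc D.net D.T 0 (t j) i) x = ee (D.ang i (t j) x) ∧
      arc (resc D.net D.T 0 (t j) i) x = (D.σ (t j))⁻¹ * ∫ q in (0 : ℝ)..x, D.spd i (t j) q := by
    intro j i x hx
    obtain ⟨κ, lam, h⟩ := hMC.net D i
    rw [D.hσ]
    exact hMC.resc _ _ _ i _ _ _ _ h _ (ht j) x hx
  have hres : ∀ j i x, resc D.net D.T 0 (t j) i x = (D.σ (t j))⁻¹ • D.net i (t j) x :=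
    fun j i x => by rw [resc, sub_zero, D.hσ]
  have one : (1 : ℝ) ∈ Icc (0 : ℝ) 1 := ⟨zero_le_one, le_rfl⟩
  have base : ∀ (i : Ix) (n : Fin 3) (b c : Bool) (f : ℝ → ℂ), IsShrinkerCurve f → Conv D t n f →
      (∀ s p, D.net i s p = sy b c (D.X n s p)) → D.spd i = D.m n →
      (∀ s p, ee (D.ang i s p) = sy b c (ee (D.φ n s p))) →
      ∀ S : ℝ, ∀ ε > 0, ∀ᶠ j in atTop, ∀ x ∈ Icc (0 : ℝ) 1,
        arc (resc D.net D.T 0 (t j) i) x ≤ S →
        ‖resc D.net D.T 0 (t j) i x - sy b c (f (arc (resc D.net D.T 0 (t j) i) x))‖ ≤ ε ∧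
        ‖unitTan (resc D.net D.T 0 (t j) i) x -
          deriv (fun s => sy b c (f s)) (arc (resc D.net D.T 0 (t j) i) x)‖ ≤ ε := by
    intro i n b c f hf hk e1 e2 e3 S ε hε
    filter_upwards [hk S ε hε] with j hj x hx hS
    rw [(key j i x hx).2, e2] at hS
    rw [(key j i x hx).1, (key j i x hx).2, hres, e1, e2, e3, deriv_sy b c (shr_diff hf), sy_smul,
      sy_sub, sy_sub, norm_sy, norm_sy]
    exact hj x hx hS
  refine ⟨t, lc r c₀ c₁, ll r l, ⟨hs.times, hs.lim, ?_, ?_, ?_, fun R => ?_⟩,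
    .inr (.inr (.inr (false, false))), .inr (.inr (.inr (false, true))), by simp, rfl, rfl, r,
    fun s => ⟨?_, ?_⟩⟩
  · rintro (_ | c | bc | bc)
    exacts [shr_line _, shr_sy _ _ s0, shr_sy _ _ s1, shr_sy _ _ (shr_line r)]
  · intro i
    simp only [fun j => (key j i 1 one).2]
    rcases i with _ | c | bc | bc
    · refine ENNReal.tendsto_ofReal ((hs.ζ.const_mul 2).congr fun j => ?_)
      simp only [FD.spd, intervalIntegral.integral_const, smul_eq_mul]
      ring
    · exact ENNReal.tendsto_ofReal hs.len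
    · have h0 := ENNReal.tendsto_ofReal (hs.h.const_mul 2)
      rw [mul_zero, ENNReal.ofReal_zero] at h0
      refine tendsto_of_tendsto_of_tendsto_of_le_of_le tendsto_const_nhds h0
        (fun j => zero_le) fun j => ENNReal.ofReal_le_ofReal ?_
      have := mul_le_mul_of_nonneg_left (hL j).len1 (inv_pos.mpr (hσ j)).le
      refine le_trans this (le_of_eq ?_)
      ring
    · refine ENNReal.tendsto_ofReal_atTop.comp (tendsto_atTop_mono (fun j => ?_)
        (tendsto_inv_nhdsGT_zero.comp (tendsto_nhdsWithin_iff.mpr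
          ⟨hs.σ, Eventually.of_forall hσ⟩)))
      exact le_mul_of_one_le_right (inv_pos.mpr (hσ j)).le (hL j).len2
  · rintro (_ | c | bc | bc)
    · intro S ε hε
      filter_upwards [Metric.tendsto_nhds.mp hs.ζ ε hε] with j hj x hx _
      rw [(key j _ x hx).1, (key j _ x hx).2, hres]
      simp only [lc, FD.spd, FD.net, FD.ang, deriv_line, intervalIntegral.integral_const,
        smul_eq_mul]
      refine ⟨le_trans (le_of_eq ?_) hj.le, ?_⟩
      · rw [dist_comm, Real.dist_eq, ← Real.norm_eq_abs, ← Complex.norm_real]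
        congr 1
        apply Complex.ext
        · simp only [Complex.sub_re, Complex.smul_re, Complex.ofReal_re, smul_eq_mul]
          ring
        · simp only [Complex.sub_im, Complex.smul_im, Complex.ofReal_im, smul_eq_mul]
          ring
      · have : ee 0 = 1 := by apply Complex.ext <;> simp [ee]
        rw [this, sub_self, norm_zero]
        exact hε.le
    · exact base _ 0 false c c₀ s0 k0 (fun _ _ => rfl) rfl fun s p => ee_ang false c _
    · exact base _ 1 bc.1 bc.2 c₁ s1 k1 (fun _ _ => rfl) rfl fun s p => ee_ang _ _ _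
    · exact base _ 2 bc.1 bc.2 _ (shr_line r) k2 (fun _ _ => rfl) rfl fun s p => ee_ang _ _ _
  · refine ⟨max 50 (2 * R), Eventually.of_forall fun j i x hx hS => ?_⟩
    rw [(key j i x hx).2, max_lt_iff, lt_inv_mul_iff₀ (hσ j), lt_inv_mul_iff₀ (hσ j)] at hS
    have h1 := D.hle' _ (ht j)
    have h2 := D.ξb _ (ht j)
    have h3 := hσ j
    rcases i with _ | c | bc | bc
    · exfalso
      have h4 := (abs_le.mp (hL j).ζ.1).2
      have h5 := (hL j).ζ.2
      have h6 := hS.1
      simp only [FD.spd, intervalIntegral.integral_const, smul_eq_mul] at h6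
      nlinarith [hx.1, hx.2]
    · exfalso
      have h4 := int_mono (D.mc 0) (ht j) hx
      have h5 := (hL j).len0
      have h6 : D.σ (t j) * 50 < ∫ q in (0 : ℝ)..x, D.m 0 (t j) q := hS.1
      linarith
    · exfalso
      have h4 := int_mono (D.mc 1) (ht j) hx
      have h5 := (hL j).len1
      have h6 : D.σ (t j) * 50 < ∫ q in (0 : ℝ)..x, D.m 1 (t j) q := hS.1
      linarith
    · have h4 := ((hL j).x2 x hx).1
      have h6 : D.σ (t j) * (2 * R) < ∫ q in (0 : ℝ)..x, D.m 2 (t j) q := hS.2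
      have h7 := Complex.re_le_norm (D.X 2 (t j) x)
      rw [hres, norm_smul, Real.norm_of_nonneg (inv_pos.mpr h3).le, lt_inv_mul_iff₀ h3]
      change _ < ‖sy bc.1 bc.2 (D.X 2 (t j) x)‖
      rw [norm_sy]
      linarith
  · apply Complex.ext <;> simp [lc, sy]
  · apply Complex.ext <;> simp [lc, sy]

end Pool.Agent.P.MP_cf7202_gt
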