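import Pool.Agent.P.MP_cf7202_gt.DefCl

/-! Bootstrapping in the space variable, and smoothness of the reflected angle. -/

namespace Pool.Agent.P.MP_cf7202_gt

open Set Filter Topology Function Real
open scoped ContDiff

namespace BOOTAux

/-- the family generated by the time derivatives of the three unknowns and smooth functions -/
inductive Fam (a b : ℝ) (θ P Λ : ℝ → ℝ → ℝ) : (ℝ → ℝ → ℝ) → Prop
  | th (k : ℕ) : Fam a b θ P Λ (dt^[k] θ)
  | pp (k : ℕ) : Fam a b θ P Λ (dt^[k] P)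
  | ll (k : ℕ) : Fam a b θ P Λ (dt^[k] Λ)
  | sm (f : ℝ → ℝ → ℝ) : Sm a b f → Fam a b θ P Λ f
  | add (f g : ℝ → ℝ → ℝ) : Fam a b θ P Λ f → Fam a b θ P Λ g →
      Fam a b θ P Λ (fun t x => f t x + g t x)
  | mul (f g : ℝ → ℝ → ℝ) : Fam a b θ P Λ f → Fam a b θ P Λ g →
      Fam a b θ P Λ (fun t x => f t x * g t x)
  | congr (f g : ℝ → ℝ → ℝ) : Fam a b θ P Λ f →
      (∀ t ∈ Ioo a b, ∀ x ∈ Icc (0 : ℝ) 1, g t x = f t x) → Fam a b θ P Λ g

theorem ct_slice {a b : ℝ} {f : ℝ → ℝ → ℝ} (h : Ct a b f) {t : ℝ} (ht : t ∈ Ioo a b) :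
    ContinuousOn (f t) (Icc 0 1) := by
  have h1 : ContinuousOn (fun x : ℝ => (t, x)) (Icc 0 1) := by fun_prop
  exact h.comp h1 (fun x hx => ⟨ht, hx⟩)

theorem sm_ct {a b : ℝ} {f : ℝ → ℝ → ℝ} (h : Sm a b f) : Ct a b f := h.continuousOn

variable {a b : ℝ} {θ P Λ : ℝ → ℝ → ℝ}

theorem fam_ct (hθ : TS a b θ) (hP : TS a b P) (hΛ : TS a b Λ) {f : ℝ → ℝ → ℝ}
    (hf : Fam a b θ P Λ f) : Ct a b f := by
  induction hf with
  | th k => exact (hθ k).1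
  | pp k => exact (hP k).1
  | ll k => exact (hΛ k).1
  | sm f h => exact sm_ct h
  | add f g _ _ ihf ihg => exact ContinuousOn.add ihf ihg
  | mul f g _ _ ihf ihg => exact ContinuousOn.mul ihf ihg
  | congr f g _ h ih => exact ContinuousOn.congr ih (fun z hz => h z.1 hz.1 z.2 hz.2)

theorem fam_dt0 (tk : S_TK) (hθ : TS a b θ) (hP : TS a b P) (hΛ : TS a b Λ) {f : ℝ → ℝ → ℝ}
    (hf : Fam a b θ P Λ f) : ∃ g, Fam a b θ P Λ g ∧ ∀ t ∈ Ioo a b, ∀ x ∈ Icc (0 : ℝ) 1,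
      HasDerivAt (fun s => f s x) (g t x) t := by
  induction hf with
  | th k =>
    refine ⟨_, Fam.th (k + 1), fun t ht x hx => ?_⟩
    rw [Function.iterate_succ_apply']
    exact ((hθ k).2 t ht x hx).hasDerivAt
  | pp k =>
    refine ⟨_, Fam.pp (k + 1), fun t ht x hx => ?_⟩
    rw [Function.iterate_succ_apply']
    exact ((hP k).2 t ht x hx).hasDerivAt
  | ll k =>
    refine ⟨_, Fam.ll (k + 1), fun t ht x hx => ?_⟩
    rw [Function.iterate_succ_apply']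
    exact ((hΛ k).2 t ht x hx).hasDerivAt
  | sm f h => exact ⟨_, Fam.sm _ (tk.sm_dt a b f h), tk.has_dt a b f h⟩
  | add f g _ _ ihf ihg =>
    obtain ⟨f', hf', h1⟩ := ihf
    obtain ⟨g', hg', h2⟩ := ihg
    exact ⟨_, Fam.add _ _ hf' hg', fun t ht x hx => (h1 t ht x hx).add (h2 t ht x hx)⟩
  | mul f g hf hg ihf ihg =>
    obtain ⟨f', hf', h1⟩ := ihf
    obtain ⟨g', hg', h2⟩ := ihg
    exact ⟨_, Fam.add _ _ (Fam.mul _ _ hf' hg) (Fam.mul _ _ hf hg'),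
      fun t ht x hx => (h1 t ht x hx).mul (h2 t ht x hx)⟩
  | congr f g _ h ih =>
    obtain ⟨f', hf', h1⟩ := ih
    refine ⟨f', hf', fun t ht x hx => (h1 t ht x hx).congr_of_eventuallyEq ?_⟩
    filter_upwards [Ioo_mem_nhds ht.1 ht.2] with s hs using h s hs x hx

theorem fam_dt (tk : S_TK) (hθ : TS a b θ) (hP : TS a b P) (hΛ : TS a b Λ) {f : ℝ → ℝ → ℝ}
    (hf : Fam a b θ P Λ f) : Fam a b θ P Λ (dt f) ∧ ∀ t ∈ Ioo a b, ∀ x ∈ Icc (0 : ℝ) 1,
      HasDerivAt (fun s => f s x) (dt f t x) t := by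
  obtain ⟨g, hg, h⟩ := fam_dt0 tk hθ hP hΛ hf
  exact ⟨Fam.congr g _ hg (fun t ht x hx => (h t ht x hx).deriv),
    fun t ht x hx => (h t ht x hx).differentiableAt.hasDerivAt⟩

/-- the space derivative exists and is a member of the family -/
def HX (a b : ℝ) (θ P Λ f : ℝ → ℝ → ℝ) : Prop :=
  ∃ g, Fam a b θ P Λ g ∧ ∀ t ∈ Ioo a b, ∀ x ∈ Icc (0 : ℝ) 1,
    HasDerivWithinAt (f t) (g t x) (Icc 0 1) x

theorem hx_dt (tk : S_TK) (hθ : TS a b θ) (hP : TS a b P) (hΛ : TS a b Λ) {f : ℝ → ℝ → ℝ}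
    (hf : Fam a b θ P Λ f) (hx : HX a b θ P Λ f) : HX a b θ P Λ (dt f) := by
  obtain ⟨w, hw, h⟩ := hx
  obtain ⟨hw', hw2⟩ := fam_dt tk hθ hP hΛ hw
  obtain ⟨_, hf2⟩ := fam_dt tk hθ hP hΛ hf
  have cw := fam_ct hθ hP hΛ hw
  have cw' := fam_ct hθ hP hΛ hw'
  refine ⟨dt w, hw', fun t ht x hx => ?_⟩
  have h0 : (0 : ℝ) ∈ Icc (0 : ℝ) 1 := ⟨le_rfl, zero_le_one⟩
  have key : ∀ z ∈ Icc (0 : ℝ) 1, dt f t z = dt f t 0 + ∫ y in (0 : ℝ)..z, dt w t y := by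
    intro z hz
    have e1 := (hf2 t ht 0 h0).add (tk.int_dt a b w (dt w) cw cw' hw2 t ht z hz)
    refine (hf2 t ht z hz).unique (e1.congr_of_eventuallyEq ?_)
    filter_upwards [Ioo_mem_nhds ht.1 ht.2] with s hs
    have := tk.ftc (f s) (w s) (ct_slice cw hs) (h s hs) z hz
    simp only [Pi.add_apply]
    linarith
  have e2 := (tk.int_dx (dt w t) (ct_slice cw' ht) x hx).const_add (dt f t 0)
  exact e2.congr key (key x hx)

theorem hx_iter (tk : S_TK) (hθ : TS a b θ) (hP : TS a b P) (hΛ : TS a b Λ) {f : ℝ → ℝ → ℝ}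
    (hf : ∀ k, Fam a b θ P Λ (dt^[k] f)) (hx : HX a b θ P Λ f) (k : ℕ) :
    HX a b θ P Λ (dt^[k] f) := by
  induction k with
  | zero => exact hx
  | succ k ih =>
    rw [Function.iterate_succ_apply']
    exact hx_dt tk hθ hP hΛ (hf k) ih

theorem fam_hx (tk : S_TK) (hθ : TS a b θ) (hP : TS a b P) (hΛ : TS a b Λ)
    (h1 : HX a b θ P Λ θ) (h2 : HX a b θ P Λ P) (h3 : HX a b θ P Λ Λ) {f : ℝ → ℝ → ℝ}
    (hf : Fam a b θ P Λ f) : HX a b θ P Λ f := by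
  induction hf with
  | th k => exact hx_iter tk hθ hP hΛ Fam.th h1 k
  | pp k => exact hx_iter tk hθ hP hΛ Fam.pp h2 k
  | ll k => exact hx_iter tk hθ hP hΛ Fam.ll h3 k
  | sm f h => exact ⟨_, Fam.sm _ (tk.sm_dx a b f h), tk.has_dx a b f h⟩
  | add f g _ _ ihf ihg =>
    obtain ⟨f', hf', e1⟩ := ihf
    obtain ⟨g', hg', e2⟩ := ihg
    exact ⟨_, Fam.add _ _ hf' hg', fun t ht x hx => (e1 t ht x hx).add (e2 t ht x hx)⟩
  | mul f g hf hg ihf ihg =>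
    obtain ⟨f', hf', e1⟩ := ihf
    obtain ⟨g', hg', e2⟩ := ihg
    exact ⟨_, Fam.add _ _ (Fam.mul _ _ hf' hg) (Fam.mul _ _ hf hg'),
      fun t ht x hx => (e1 t ht x hx).mul (e2 t ht x hx)⟩
  | congr f g _ h ih =>
    obtain ⟨f', hf', e1⟩ := ih
    exact ⟨f', hf', fun t ht x hx => (e1 t ht x hx).congr (h t ht) (h t ht x hx)⟩

theorem sm_const (a b c : ℝ) : Sm a b (fun _ _ => c) := contDiffOn_const

theorem sm_inv {m : ℝ → ℝ → ℝ} (hm : Sm a b m)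
    (hpos : ∀ t ∈ Ioo a b, ∀ x ∈ Icc (0 : ℝ) 1, 0 < m t x) :
    Sm a b (fun t x => (m t x)⁻¹) :=
  ContDiffOn.inv hm (fun z hz => (hpos z.1 hz.1 z.2 hz.2).ne')

/-! ### gluing by reflection -/

/-- two functions on the unit interval glued at their right end points -/
noncomputable def gl (f g : ℝ → ℝ → ℝ) (t x : ℝ) : ℝ :=
  if x ≤ 1 / 2 then f t (2 * x) else g t (2 - 2 * x)

theorem dt_gl (f g : ℝ → ℝ → ℝ) : dt (gl f g) = gl (dt f) (dt g) := by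
  funext t x
  by_cases h : x ≤ 1 / 2
  · simp only [dt, gl, if_pos h]
  · simp only [dt, gl, if_neg h]

theorem iter_gl (f g : ℝ → ℝ → ℝ) (k : ℕ) : dt^[k] (gl f g) = gl (dt^[k] f) (dt^[k] g) := by
  induction k with
  | zero => rfl
  | succ k ih =>
    rw [Function.iterate_succ_apply', Function.iterate_succ_apply', Function.iterate_succ_apply',
      ih, dt_gl]

theorem mem_l {x : ℝ} (hx : x ∈ Icc (0 : ℝ) (1 / 2)) : 2 * x ∈ Icc (0 : ℝ) 1 :=
  ⟨by linarith [hx.1], by linarith [hx.2]⟩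

theorem mem_r {x : ℝ} (hx : x ∈ Icc (1 / 2 : ℝ) 1) : 2 - 2 * x ∈ Icc (0 : ℝ) 1 :=
  ⟨by linarith [hx.2], by linarith [hx.1]⟩

theorem gl_l (f g : ℝ → ℝ → ℝ) (t : ℝ) {x : ℝ} (hx : x ≤ 1 / 2) : gl f g t x = f t (2 * x) :=
  if_pos hx

theorem gl_r (f g : ℝ → ℝ → ℝ) {t : ℝ} (h : f t 1 = g t 1) {x : ℝ} (hx : 1 / 2 ≤ x) :
    gl f g t x = g t (2 - 2 * x) := by
  by_cases h1 : x ≤ 1 / 2
  · have : x = 1 / 2 := le_antisymm h1 hx
    subst this
    rw [gl_l f g t le_rfl]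
    norm_num [h]
  · exact if_neg h1

theorem ct_gl {f g : ℝ → ℝ → ℝ} (hf : Ct a b f) (hg : Ct a b g)
    (h : ∀ t ∈ Ioo a b, f t 1 = g t 1) : Ct a b (gl f g) := by
  have c1 : ContinuousOn (uncurry (gl f g)) (Ioo a b ×ˢ Icc (0 : ℝ) (1 / 2)) := by
    have m1 : ContinuousOn (fun z : ℝ × ℝ => (z.1, 2 * z.2)) (Ioo a b ×ˢ Icc (0 : ℝ) (1 / 2)) := by
      fun_prop
    refine (ContinuousOn.comp hf m1 (fun z hz => ⟨hz.1, mem_l hz.2⟩)).congr ?_
    intro z hz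
    exact gl_l f g z.1 hz.2.2
  have c2 : ContinuousOn (uncurry (gl f g)) (Ioo a b ×ˢ Icc (1 / 2 : ℝ) 1) := by
    have m1 : ContinuousOn (fun z : ℝ × ℝ => (z.1, 2 - 2 * z.2))
        (Ioo a b ×ˢ Icc (1 / 2 : ℝ) 1) := by
      fun_prop
    refine (ContinuousOn.comp hg m1 (fun z hz => ⟨hz.1, mem_r hz.2⟩)).congr ?_
    intro z hz
    exact gl_r f g (h z.1 hz.1) hz.2.1
  intro z hz
  have hU : Ioo a b ×ˢ Icc (0 : ℝ) 1 =
      Ioo a b ×ˢ Icc (0 : ℝ) (1 / 2) ∪ Ioo a b ×ˢ Icc (1 / 2 : ℝ) 1 := by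
    rw [← prod_union, Icc_union_Icc_eq_Icc (by norm_num) (by norm_num)]
  rw [hU]
  refine ContinuousWithinAt.union ?_ ?_
  · by_cases h1 : z.2 ≤ 1 / 2
    · exact c1 z ⟨hz.1, hz.2.1, h1⟩
    · refine continuousWithinAt_of_notMem_closure ?_
      rw [closure_prod_eq, isClosed_Icc.closure_eq]
      exact fun hh => h1 hh.2.2
  · by_cases h1 : 1 / 2 ≤ z.2
    · exact c2 z ⟨hz.1, h1, hz.2.2⟩
    · refine continuousWithinAt_of_notMem_closure ?_
      rw [closure_prod_eq, isClosed_Icc.closure_eq]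
      exact fun hh => h1 hh.2.1

theorem seam_iter {f g : ℝ → ℝ → ℝ} (h : ∀ t ∈ Ioo a b, f t 1 = g t 1) (k : ℕ) :
    ∀ t ∈ Ioo a b, (dt^[k] f) t 1 = (dt^[k] g) t 1 := by
  induction k with
  | zero => exact h
  | succ k ih =>
    intro t ht
    rw [Function.iterate_succ_apply', Function.iterate_succ_apply']
    refine Filter.EventuallyEq.deriv_eq ?_
    filter_upwards [Ioo_mem_nhds ht.1 ht.2] with s hs using ih s hs

theorem ts_gl {f g : ℝ → ℝ → ℝ} (hf : TS a b f) (hg : TS a b g)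
    (h : ∀ t ∈ Ioo a b, f t 1 = g t 1) : TS a b (gl f g) := by
  intro k
  rw [iter_gl]
  refine ⟨ct_gl (hf k).1 (hg k).1 (seam_iter h k), fun t ht x hx => ?_⟩
  by_cases h1 : x ≤ 1 / 2
  · simp only [gl, if_pos h1]
    exact (hf k).2 t ht _ (mem_l ⟨hx.1, h1⟩)
  · simp only [gl, if_neg h1]
    exact (hg k).2 t ht _ (mem_r ⟨(not_le.1 h1).le, hx.2⟩)

theorem dx_gl {f g f' g' : ℝ → ℝ → ℝ} {t : ℝ}
    (hf : ∀ x ∈ Icc (0 : ℝ) 1, HasDerivWithinAt (f t) (f' t x) (Icc 0 1) x)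
    (hg : ∀ x ∈ Icc (0 : ℝ) 1, HasDerivWithinAt (g t) (g' t x) (Icc 0 1) x)
    (h : f t 1 = g t 1) (h' : f' t 1 = -g' t 1) {x : ℝ} (hx : x ∈ Icc (0 : ℝ) 1) :
    HasDerivWithinAt (gl f g t)
      (gl (fun s y => 2 * f' s y) (fun s y => -2 * g' s y) t x) (Icc 0 1) x := by
  have hU : Icc (0 : ℝ) 1 = Icc (0 : ℝ) (1 / 2) ∪ Icc (1 / 2 : ℝ) 1 := by
    rw [Icc_union_Icc_eq_Icc (by norm_num) (by norm_num)]
  rw [hU]
  refine HasDerivWithinAt.union ?_ ?_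
  · by_cases h1 : x ≤ 1 / 2
    · have m1 : HasDerivWithinAt (fun y : ℝ => 2 * y) 2 (Icc (0 : ℝ) (1 / 2)) x := by
        simpa using ((hasDerivAt_id x).const_mul (2 : ℝ)).hasDerivWithinAt
      have e := (hf (2 * x) (mem_l ⟨hx.1, h1⟩)).comp x m1 (fun y hy => mem_l hy)
      rw [gl_l _ _ t h1]
      refine (e.congr (fun y hy => gl_l f g t hy.2) (gl_l f g t h1)).congr_deriv ?_
      ring
    · refine hasDerivWithinAt_iff_hasFDerivWithinAt.2 (HasFDerivWithinAt.of_notMem_closure ?_)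
      rw [isClosed_Icc.closure_eq]
      exact fun hh => h1 hh.2
  · by_cases h1 : 1 / 2 ≤ x
    · have m1 : HasDerivWithinAt (fun y : ℝ => 2 - 2 * y) (-2) (Icc (1 / 2 : ℝ) 1) x := by
        simpa using (((hasDerivAt_id x).const_mul (2 : ℝ)).const_sub 2).hasDerivWithinAt
      have e := (hg (2 - 2 * x) (mem_r ⟨h1, hx.2⟩)).comp x m1 (fun y hy => mem_r hy)
      rw [gl_r _ _ (by simp only [h']; ring) h1]
      refine (e.congr (fun y hy => gl_r f g h hy.1) (gl_r f g h h1)).congr_deriv ?_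
      ring
    · refine hasDerivWithinAt_iff_hasFDerivWithinAt.2 (HasFDerivWithinAt.of_notMem_closure ?_)
      rw [isClosed_Icc.closure_eq]
      exact fun hh => h1 hh.1

/-! ### the quarter system -/

variable {u : ℝ → St}

theorem sm_me (h : QS a b u) (i : Fin 3) (c : ℝ) : Sm a b (fun t x => me u i t (c * x)) := by
  have h1 : ∀ j, ContDiffOn ℝ ∞ (fun z : ℝ × ℝ => (u z.1).2 j) (Ioo a b ×ˢ Icc (0 : ℝ) 1) :=
    fun j => (h.sL j).comp contDiffOn_fst (fun z hz => hz.1)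
  have h2 : ContDiffOn ℝ ∞ (fun z : ℝ × ℝ => gg (c * z.2)) (Ioo a b ×ˢ Icc (0 : ℝ) 1) := by
    unfold gg
    fun_prop
  exact (h1 1).add (((h1 i).sub (h1 1)).mul h2)

theorem sm_me1 (h : QS a b u) (i : Fin 3) : Sm a b (me u i) := by
  simpa using sm_me h i 1

theorem has_me (u : ℝ → St) (i : Fin 3) (t x : ℝ) :
    HasDerivAt (me u i t) (((u t).2 i - (u t).2 1) * (3 * (1 - x))) x := by
  have h1 : HasDerivAt gg (3 * (1 - x)) x := by
    have := (((hasDerivAt_id x).const_mul (2 : ℝ)).sub (hasDerivAt_pow 2 x)).const_mul (3 / 2 : ℝ)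
    refine HasDerivAt.congr_deriv this ?_
    norm_num
    ring
  exact (h1.const_mul _).const_add _

theorem dx_me (u : ℝ → St) (i : Fin 3) (t : ℝ) {x : ℝ} (hx : x ∈ Icc (0 : ℝ) 1) :
    dx (me u i) t x = ((u t).2 i - (u t).2 1) * (3 * (1 - x)) :=
  (has_me u i t x).hasDerivWithinAt.derivWithin (uniqueDiffOn_Icc zero_lt_one x hx)

theorem sm_ka (tk : S_TK) (h : QS a b u) (i : Fin 3) : Sm a b (ka u i) :=
  ContDiffOn.div (tk.sm_dx a b _ (h.sth i)) (sm_me1 h i)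
    (fun z hz => (h.pos z.1 hz.1 i z.2 hz.2).ne')

theorem sm_at0 {f : ℝ → ℝ → ℝ} (hf : Sm a b f) : Sm a b (fun t _ => f t 0) := by
  have m1 : ContDiffOn ℝ ∞ (fun z : ℝ × ℝ => (z.1, (0 : ℝ))) (Ioo a b ×ˢ Icc (0 : ℝ) 1) := by
    fun_prop
  exact ContDiffOn.comp hf m1 (fun z hz => ⟨hz.1, le_rfl, zero_le_one⟩)

theorem sm_lai (tk : S_TK) (h : QS a b u) (i : Fin 3) :
    Sm a b (fun t y => dt (me u i) t y + ka u i t y ^ 2 * me u i t y) :=
  ContDiffOn.add (tk.sm_dt a b _ (sm_me1 h i))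
    (ContDiffOn.mul (ContDiffOn.pow (sm_ka tk h i) 2) (sm_me1 h i))

theorem sm_la (tk : S_TK) (h : QS a b u) (i : Fin 3) : Sm a b (la u i) :=
  ContDiffOn.add
    (ContDiffOn.div_const
      (ContDiffOn.sub (sm_at0 (sm_ka tk h (i + 2))) (sm_at0 (sm_ka tk h (i + 1)))) _)
    (tk.sm_int a b _ (sm_lai tk h i))

theorem has_la (tk : S_TK) (h : QS a b u) (i : Fin 3) {t : ℝ} (ht : t ∈ Ioo a b) {x : ℝ}
    (hx : x ∈ Icc (0 : ℝ) 1) :
    HasDerivWithinAt (la u i t) (dt (me u i) t x + dx (th u i) t x ^ 2 / me u i t x)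
      (Icc 0 1) x := by
  have e := (tk.int_dx _ (ct_slice (sm_ct (sm_lai tk h i)) ht) x hx).const_add
    ((ka u (i + 2) t 0 - ka u (i + 1) t 0) / √3)
  refine HasDerivWithinAt.congr_deriv e ?_
  have := (h.pos t ht i x hx).ne'
  unfold ka
  field_simp

/-- the second space derivative of the angle, from the equation -/
noncomputable def QQ (u : ℝ → St) (i : Fin 3) (t x : ℝ) : ℝ :=
  me u i t x ^ 2 * dt (th u i) t x + dx (me u i) t x * dx (th u i) t x / me u i t x -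
    la u i t x * me u i t x * dx (th u i) t x

theorem has_dxth (tk : S_TK) (h : QS a b u) (i : Fin 3) {t : ℝ} (ht : t ∈ Ioo a b) {x : ℝ}
    (hx : x ∈ Icc (0 : ℝ) 1) :
    HasDerivWithinAt (dx (th u i) t) (QQ u i t x) (Icc 0 1) x := by
  have e1 := tk.has_dx a b _ (tk.sm_dx a b _ (h.sth i)) t ht x hx
  have e2 := tk.has_dx a b _ (sm_me1 h i) t ht x hx
  have hm := (h.pos t ht i x hx).ne'
  have e3 : HasDerivWithinAt (ka u i t) _ (Icc 0 1) x := e1.div e2 hm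
  have e4 : dx (ka u i) t x = _ := e3.derivWithin (uniqueDiffOn_Icc zero_lt_one x hx)
  refine e1.congr_deriv ?_
  unfold QQ
  rw [h.pde t ht i x hx, e4]
  unfold ka
  field_simp
  ring

theorem qq_one (h : QS a b u) {t : ℝ} (ht : t ∈ Ioo a b) : QQ u 0 t 1 = 0 := by
  have e1 : dt (th u 0) t 1 = 0 := by
    have : (fun s => th u 0 s 1) =ᶠ[𝓝 t] fun _ => π / 3 := by
      filter_upwards [Ioo_mem_nhds ht.1 ht.2] with s hs using h.e0 s hs
    unfold dt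
    rw [this.deriv_eq, deriv_const]
  unfold QQ
  rw [e1, h.l0 t ht, dx_me u 0 t ⟨zero_le_one, le_rfl⟩]
  simp

theorem me_refl (u : ℝ → St) (i : Fin 3) (t x : ℝ) : me u i t (2 - 2 * x) = me u i t (2 * x) := by
  unfold me mm gg
  ring

end BOOTAux

open BOOTAux in
theorem boot : S_TK → S_BOOT := by
  intro tk a b θ P Λ m hθ hP hΛ hm hpos d1 d2 d3
  have fθ : Fam a b θ P Λ θ := Fam.th 0
  have fP : Fam a b θ P Λ P := Fam.pp 0
  have fΛ : Fam a b θ P Λ Λ := Fam.ll 0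
  have fθt : Fam a b θ P Λ (dt θ) := Fam.th 1
  have fm : Fam a b θ P Λ m := Fam.sm _ hm
  have fi : Fam a b θ P Λ (fun t x => (m t x)⁻¹) := Fam.sm _ (sm_inv hm hpos)
  have fmt : Fam a b θ P Λ (dt m) := Fam.sm _ (tk.sm_dt a b m hm)
  have fmx : Fam a b θ P Λ (dx m) := Fam.sm _ (tk.sm_dx a b m hm)
  have fn : Fam a b θ P Λ (fun _ _ => (-1 : ℝ)) := Fam.sm _ (sm_const a b _)
  have h1 : HX a b θ P Λ θ := ⟨P, fP, d1⟩
  have h3 : HX a b θ P Λ Λ := by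
    refine ⟨fun t x => dt m t x + P t x ^ 2 / m t x, ?_, d2⟩
    refine Fam.congr _ _ (Fam.add _ _ fmt (Fam.mul _ _ (Fam.mul _ _ fP fP) fi)) ?_
    intro t _ x _
    ring
  have h2 : HX a b θ P Λ P := by
    refine ⟨fun t x =>
      m t x ^ 2 * dt θ t x + dx m t x * P t x / m t x - Λ t x * m t x * P t x, ?_, d3⟩
    refine Fam.congr _ _ (Fam.add _ _ (Fam.add _ _ (Fam.mul _ _ (Fam.mul _ _ fm fm) fθt)
      (Fam.mul _ _ (Fam.mul _ _ fmx fP) fi))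
      (Fam.mul _ _ fn (Fam.mul _ _ (Fam.mul _ _ fΛ fm) fP))) ?_
    intro t _ x _
    ring
  have key := tk.fam a b {f | Fam a b θ P Λ f} (fun f hf => fam_ct hθ hP hΛ hf)
    (fun f hf => fam_dt0 tk hθ hP hΛ hf) (fun f hf => fam_hx tk hθ hP hΛ h1 h2 h3 hf)
  exact ⟨key θ fθ, key Λ fΛ⟩

open BOOTAux in
theorem glue : S_TK → S_BOOT → S_GLUE := by
  intro tk bt a b u h
  have sθ := h.sth 0
  have sθ' : Sm a b (fun t x => 2 * π / 3 - th u 0 t x) := ContDiffOn.sub contDiffOn_const sθ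
  have sP : Sm a b (fun t x => 2 * dx (th u 0) t x) :=
    ContDiffOn.mul contDiffOn_const (tk.sm_dx a b _ sθ)
  have sΛ := sm_la tk h 0
  have sΛ' : Sm a b (fun t x => -la u 0 t x) := ContDiffOn.neg sΛ
  have sm : Sm a b (fun t x => 2 * me u 0 t (2 * x)) :=
    ContDiffOn.mul contDiffOn_const (sm_me h 0 2)
  have seamθ : ∀ t ∈ Ioo a b, th u 0 t 1 = 2 * π / 3 - th u 0 t 1 := by
    intro t ht
    rw [h.e0 t ht]
    ring
  have seamΛ : ∀ t ∈ Ioo a b, la u 0 t 1 = -la u 0 t 1 := by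
    intro t ht
    rw [h.l0 t ht, neg_zero]
  have mt : ∀ t ∈ Ioo a b, ∀ x ∈ Icc (0 : ℝ) 1,
      dt (fun t x => 2 * me u 0 t (2 * x)) t x = 2 * dt (me u 0) t (2 * x) := by
    intro t _ x _
    unfold dt
    rw [deriv_const_mul_field]
  have mt' : ∀ t x, dt (me u 0) t (2 * x) = dt (me u 0) t (2 - 2 * x) := by
    intro t x
    unfold dt
    simp only [me_refl]
  have mx : ∀ t, ∀ x ∈ Icc (0 : ℝ) 1, dx (fun t x => 2 * me u 0 t (2 * x)) t x =
      4 * (((u t).2 0 - (u t).2 1) * (3 * (1 - 2 * x))) := by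
    intro t x hx
    have m1 : HasDerivAt (fun y : ℝ => 2 * y) 2 x := by
      simpa using (hasDerivAt_id x).const_mul (2 : ℝ)
    have e := ((has_me u 0 t (2 * x)).comp x m1).const_mul (2 : ℝ)
    refine (e.hasDerivWithinAt.derivWithin (uniqueDiffOn_Icc zero_lt_one x hx)).trans ?_
    ring
  have θt : ∀ t ∈ Ioo a b, ∀ x ∈ Icc (0 : ℝ) 1,
      dt (fun t x => 2 * π / 3 - th u 0 t x) t x = -dt (th u 0) t x := by
    intro t _ x _
    unfold dt
    rw [deriv_const_sub]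
  refine (bt a b (gl (th u 0) (fun t x => 2 * π / 3 - th u 0 t x))
    (gl (fun t x => 2 * dx (th u 0) t x) (fun t x => 2 * dx (th u 0) t x))
    (gl (la u 0) (fun t x => -la u 0 t x)) (fun t x => 2 * me u 0 t (2 * x))
    (ts_gl (tk.sm_ts a b _ sθ) (tk.sm_ts a b _ sθ') seamθ)
    (ts_gl (tk.sm_ts a b _ sP) (tk.sm_ts a b _ sP) (fun _ _ => rfl))
    (ts_gl (tk.sm_ts a b _ sΛ) (tk.sm_ts a b _ sΛ') seamΛ) sm ?_ ?_ ?_ ?_).1
  · intro t ht x hx
    by_cases h1 : x ≤ 1 / 2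
    · exact mul_pos two_pos (h.pos t ht 0 _ (mem_l ⟨hx.1, h1⟩))
    · rw [← me_refl]
      exact mul_pos two_pos (h.pos t ht 0 _ (mem_r ⟨(not_le.1 h1).le, hx.2⟩))
  · intro t ht x hx
    have e := dx_gl (f := th u 0) (g := fun t x => 2 * π / 3 - th u 0 t x) (f' := dx (th u 0))
      (g' := fun t x => -dx (th u 0) t x) (t := t) (tk.has_dx a b _ sθ t ht)
      (fun y hy => (tk.has_dx a b _ sθ t ht y hy).const_sub _) (seamθ t ht) (neg_neg _).symm hx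
    refine e.congr_deriv ?_
    unfold gl
    split_ifs
    · rfl
    · ring
  · intro t ht x hx
    have e := dx_gl (f := la u 0) (g := fun t x => -la u 0 t x)
      (f' := fun t x => dt (me u 0) t x + dx (th u 0) t x ^ 2 / me u 0 t x)
      (g' := fun t x => -(dt (me u 0) t x + dx (th u 0) t x ^ 2 / me u 0 t x)) (t := t)
      (fun y hy => has_la tk h 0 ht hy)
      (fun y hy => (has_la tk h 0 ht hy).neg) (seamΛ t ht) (neg_neg _).symm hx
    refine e.congr_deriv ?_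
    rw [mt t ht x hx]
    unfold gl
    split_ifs
    · ring
    · rw [mt', ← me_refl]
      ring
  · intro t ht x hx
    have e := dx_gl (f := fun t x => 2 * dx (th u 0) t x) (g := fun t x => 2 * dx (th u 0) t x)
      (f' := fun t x => 2 * QQ u 0 t x) (g' := fun t x => 2 * QQ u 0 t x) (t := t)
      (fun y hy => (has_dxth tk h 0 ht hy).const_mul 2)
      (fun y hy => (has_dxth tk h 0 ht hy).const_mul 2) rfl
      (by simp only [qq_one h ht]; norm_num) hx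
    refine e.congr_deriv ?_
    rw [mx t x hx, dt_gl]
    unfold gl QQ
    split_ifs with h1
    · beta_reduce
      rw [dx_me u 0 t (mem_l ⟨hx.1, h1⟩)]
      ring
    · have hr := mem_r ⟨(not_le.1 h1).le, hx.2⟩
      rw [θt t ht _ hr]
      beta_reduce
      rw [dx_me u 0 t hr, me_refl]
      ring

end Pool.Agent.P.MP_cf7202_gt
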