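import Pool.Agent.P.MP_cf7202_gt.DefCon

/-! Abstract solutions which are smooth in time are classical solutions of the quarter system. -/

namespace Pool.Agent.P.MP_cf7202_gt

open Set Filter Topology Function MeasureTheory Real
open scoped ContDiff ENNReal

namespace C4Aux

theorem pj_coe {x : ℝ} (hx : x ∈ Icc (0 : ℝ) 1) : ((pj x : II) : ℝ) = x := by
  simp [pj, projIcc_of_mem _ hx]

theorem pj_val (x : II) : pj (x : ℝ) = x := by simp [pj, projIcc_val]

theorem pj_zero : pj 0 = 0 := pj_val 0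

theorem pj_one : pj 1 = 1 := pj_val 1

theorem mm_pos {K : ℝ} (hK : 0 < K) {L : VV} (hL : L ∈ UU K) (i : Fin 3) {x : ℝ}
    (hx : x ∈ Icc (0 : ℝ) 1) : 0 < mm L i x := by
  obtain ⟨-, h1, h2⟩ := hL
  have h0 : 0 < (2 * K)⁻¹ := by positivity
  have h3 := h2 i
  have g0 : 0 ≤ gg x := by
    unfold gg
    nlinarith [hx.1, hx.2]
  have g1 : gg x ≤ 3 / 2 := by
    unfold gg
    nlinarith [sq_nonneg (1 - x)]
  unfold mm
  rcases le_total 0 (L i - L 1) with h | h
  · nlinarith [mul_nonneg h g0]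
  · nlinarith [mul_nonneg_of_nonpos_of_nonpos h (sub_nonpos.2 g1)]

theorem mm_zero (L : VV) (i : Fin 3) : mm L i 0 = L 1 := by simp [mm, gg]

theorem mm_one (L : VV) (x : ℝ) : mm L 1 x = L 1 := by simp [mm]

theorem cont_mm (L : VV) (i : Fin 3) : Continuous (mm L i) := by
  unfold mm gg
  fun_prop

theorem hd_mm (L : VV) (i : Fin 3) (x : ℝ) :
    HasDerivAt (mm L i) ((L i - L 1) * (3 - 3 * x)) x := by
  have h := (((((hasDerivAt_id x).const_mul 2).sub (hasDerivAt_pow 2 x)).const_mul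
    (3 / 2)).const_mul (L i - L 1)).const_add (L 1)
  refine HasDerivAt.congr_deriv h ?_
  push_cast
  ring

theorem cont_θs (i : Fin 3) : Continuous (θs i) := by
  unfold θs
  fin_cases i <;> simp <;> fun_prop

theorem cont_θs1 (i : Fin 3) : Continuous (θs1 i) := by
  unfold θs1
  fin_cases i <;> simp <;> fun_prop

theorem hd_θs (i : Fin 3) (x : ℝ) : HasDerivAt (θs i) (θs1 i x) x := by
  unfold θs θs1
  fin_cases i
  · have h := (hasDerivAt_pow 2 x).const_mul (π / 3)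
    refine HasDerivAt.congr_deriv h ?_
    simp
    ring
  · simpa using hasDerivAt_const x (0 : ℝ)
  · simpa using hasDerivAt_const x (0 : ℝ)

theorem hd_θs1 (i : Fin 3) (x : ℝ) : HasDerivAt (θs1 i) (θs2 i) x := by
  unfold θs1 θs2
  fin_cases i
  · simpa using (hasDerivAt_id x).const_mul (2 * π / 3)
  · simpa using hasDerivAt_const x (0 : ℝ)
  · simpa using hasDerivAt_const x (0 : ℝ)

theorem cont_Pf (p : C(II, E3)) (i : Fin 3) : Continuous (Pf p i) :=
  (cont_θs1 i).add ((EuclideanSpace.proj i : E3 →L[ℝ] ℝ).continuous.comp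
    (p.continuous.comp continuous_projIcc))

theorem hd_prim (c : E3) (u : C(II, E3)) (i : Fin 3) {x : ℝ} (hx : x ∈ Icc (0 : ℝ) 1) :
    HasDerivWithinAt (fun y => prim c (tL u) (pj y) i) (u (pj x) i) (Icc 0 1) x := by
  have h := JJ_tL_hasDerivWithinAt u (pj x)
  rw [pj_coe hx] at h
  exact (EuclideanSpace.proj i : E3 →L[ℝ] ℝ).hasFDerivAt.comp_hasDerivWithinAt x (h.const_add c)

theorem prim_zero (c : E3) (h : HH) : prim c h 0 = c := by simp [prim, JJ_zero]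

theorem cont_sq {K : ℝ} (hK : 0 < K) {L : VV} (hL : L ∈ UU K) (p : C(II, E3)) (i : Fin 3) :
    ContinuousOn (fun y => Pf p i y ^ 2 / mm L i y) (Icc 0 1) :=
  ((cont_Pf p i).pow 2).continuousOn.div (cont_mm L i).continuousOn
    fun _ hy => (mm_pos hK hL i hy).ne'

theorem hd_lamF (tk : S_TK) {K : ℝ} (hK : 0 < K) {L : VV} (hL : L ∈ UU K) (p : C(II, E3)) (w : VV)
    (i : Fin 3) {x : ℝ} (hx : x ∈ Icc (0 : ℝ) 1) :
    HasDerivWithinAt (lamF L p w i) (w 1 + (w i - w 1) * gg x + Pf p i x ^ 2 / mm L i x)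
      (Icc 0 1) x := by
  have h1 := tk.int_dx _ (cont_sq hK hL p i) x hx
  have h2 := (((hasDerivAt_id x).const_mul (w 1)).add
    ((((hasDerivAt_pow 2 x).const_mul (3 / 2)).sub
      ((hasDerivAt_pow 3 x).div_const 2)).const_mul (w i - w 1))).hasDerivWithinAt (s := Icc 0 1)
  have h3 := (h2.const_add (![-(w 0 + sF L p 0 1), w 0 + sF L p 0 1 + (w 2 + sF L p 2 1),
    -(w 2 + sF L p 2 1)] i)).add h1
  refine HasDerivWithinAt.congr_deriv h3 ?_
  simp only [gg]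
  push_cast
  ring

theorem exists_q (tk : S_TK) {K : ℝ} (hK : 0 < K) {L : VV} (hL : L ∈ UU K) (p Fc : C(II, E3))
    (w : VV) : ∃ q : C(II, E3), (∀ (x : II) i, Fc x i = FF L p (q x i) w i x) ∧
      ∀ (x : II) i, θs2 i + q x i = mm L i x ^ 2 * Fc x i
        + (L i - L 1) * (3 - 3 * x) * Pf p i x / mm L i x - lamF L p w i x * mm L i x * Pf p i x := by
  have hc : ∀ i, Continuous fun x : II => mm L i x ^ 2 * Fc x i
      + (L i - L 1) * (3 - 3 * x) * Pf p i x / mm L i x - lamF L p w i x * mm L i x * Pf p i x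
      - θs2 i := by
    intro i
    have h1 : Continuous fun x : II => mm L i x := (cont_mm L i).comp continuous_subtype_val
    have h2 : Continuous fun x : II => Pf p i x := (cont_Pf p i).comp continuous_subtype_val
    have h3 : Continuous fun x : II => lamF L p w i x :=
      (show ContinuousOn (lamF L p w i) (Icc 0 1) from
        fun x hx => (hd_lamF tk hK hL p w i hx).continuousWithinAt).comp_continuous
        continuous_subtype_val fun x => x.2
    have h4 : Continuous fun x : II => Fc x i :=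
      (EuclideanSpace.proj i : E3 →L[ℝ] ℝ).continuous.comp Fc.continuous
    have h5 : Continuous fun x : II => (L i - L 1) * (3 - 3 * (x : ℝ)) := by fun_prop
    exact ((((h1.pow 2).mul h4).add ((h5.mul h2).div h1 fun x => (mm_pos hK hL i x.2).ne')).sub
      ((h3.mul h1).mul h2)).sub continuous_const
  refine ⟨⟨fun x => WithLp.toLp 2 fun i => mm L i x ^ 2 * Fc x i
      + (L i - L 1) * (3 - 3 * x) * Pf p i x / mm L i x - lamF L p w i x * mm L i x * Pf p i x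
      - θs2 i, (PiLp.continuous_toLp 2 _).comp (continuous_pi hc)⟩, fun x i => ?_, fun x i => ?_⟩
  · have := (mm_pos hK hL i x.2).ne'
    simp only [FF, ContinuousMap.coe_mk]
    field_simp
    ring
  · simp only [ContinuousMap.coe_mk]
    ring

theorem A_inj (S : Sys HH VV (E3 × E3) KK) {L : VV} (hL : L ∈ S.U) {h h' : HH}
    (e : S.A L h = S.A L h') : h = h' := by
  have h1 := S.hA L hL 1 ⟨by norm_num, by norm_num⟩ (h - h')
  rw [map_sub, e, sub_self, smul_zero, zero_sub, norm_neg] at h1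
  have h2 : ‖h - h'‖ ≤ 0 := by nlinarith [S.hγ, norm_nonneg (h - h')]
  exact sub_eq_zero.1 (norm_le_zero_iff.1 h2)

/-- a component of a continuous function with values in `E3` -/
noncomputable def pr (i : Fin 3) : C(II, E3) →L[ℝ] C(II, ℝ) :=
  (EuclideanSpace.proj i : E3 →L[ℝ] ℝ).compLeftContinuous ℝ II

theorem pr_apply (i : Fin 3) (u : C(II, E3)) (x : II) : pr i u x = u x i := rfl

/-- restriction of a continuous function to the unit interval -/
def rs (f : ℝ → ℝ) (hf : Continuous f) : C(II, ℝ) := ⟨fun x => f x, hf.comp continuous_subtype_val⟩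

section time

variable {s : Set ℝ}

theorem cd_eval {F : Type} [NormedAddCommGroup F] [NormedSpace ℝ F] {u : ℝ → C(II, F)}
    (hu : ContDiffOn ℝ ∞ u s) (x : II) : ContDiffOn ℝ ∞ (fun t => u t x) s :=
  (ContinuousMap.evalCLM ℝ x : C(II, F) →L[ℝ] F).contDiff.comp_contDiffOn hu

theorem cd_pr {u : ℝ → C(II, E3)} (hu : ContDiffOn ℝ ∞ u s) (i : Fin 3) :
    ContDiffOn ℝ ∞ (fun t => pr i (u t)) s := (pr i).contDiff.comp_contDiffOn hu

theorem cd_c1 {D : ℝ → HH} (hD : ContDiffOn ℝ ∞ D s) : ContDiffOn ℝ ∞ (fun t => c1 (D t)) s := by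
  have h1 : ContDiffOn ℝ ∞ (fun t => JJ (D t)) s :=
    (JJ : HH →L[ℝ] C(II, E3)).contDiff.comp_contDiffOn hD
  have h2 := (cd_eval (cd_pr h1 0) 1).neg.smul
    (contDiffOn_const (c := ContinuousMap.const II (!₂[1, 1, 1] : E3)))
  refine (h2.add h1).congr fun t _ => ?_
  ext x i
  fin_cases i <;> simp [c1, prim, pr_apply]

/-- the metric as a continuous function -/
noncomputable def mC (L : VV) (i : Fin 3) : C(II, ℝ) := rs (mm L i) (cont_mm L i)

/-- the derivative of the angle as a continuous function -/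
noncomputable def PC (p : C(II, E3)) (i : Fin 3) : C(II, ℝ) := rs (θs1 i) (cont_θs1 i) + pr i p

theorem PC_apply (p : C(II, E3)) (i : Fin 3) (x : II) : PC p i x = Pf p i x := by
  rw [Pf, pj_val]
  rfl

/-- the primitive of the squared curvature as a continuous function -/
noncomputable def sC (L : VV) (p : C(II, E3)) (i : Fin 3) : C(II, ℝ) :=
  JJ (tL (PC p i ^ 2 * Ring.inverse (mC L i)))

theorem mC_unit {K : ℝ} (hK : 0 < K) {L : VV} (hL : L ∈ UU K) (i : Fin 3) : IsUnit (mC L i) :=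
  (ContinuousMap.isUnit_iff_forall_ne_zero _).2 fun x => (mm_pos hK hL i x.2).ne'

theorem sC_apply {K : ℝ} (hK : 0 < K) {L : VV} (hL : L ∈ UU K) (p : C(II, E3)) (i : Fin 3)
    (x : II) : sC L p i x = sF L p i x := by
  rw [sC, JJ_tL, sF]
  refine intervalIntegral.integral_congr fun y hy => ?_
  rw [uIcc_of_le x.2.1] at hy
  have hy' : y ∈ Icc (0 : ℝ) 1 := ⟨hy.1, hy.2.trans x.2.2⟩
  have h1 := congrArg (fun f : C(II, ℝ) => f (pj y)) (Ring.mul_inverse_cancel _ (mC_unit hK hL i))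
  have h2 : mC L i (pj y) = mm L i y := congrArg (mm L i) (pj_coe hy')
  simp only [ContinuousMap.mul_apply, ContinuousMap.one_apply, h2] at h1
  simp only [ContinuousMap.mul_apply, ContinuousMap.pow_apply, PC_apply, pj_coe hy']
  rw [eq_inv_of_mul_eq_one_right h1, div_eq_mul_inv]

theorem cd_comp {L : ℝ → VV} (hL : ContDiffOn ℝ ∞ L s) (i : Fin 3) :
    ContDiffOn ℝ ∞ (fun t => L t i) s := contDiffOn_pi.1 hL i

theorem cd_mC {L : ℝ → VV} (hL : ContDiffOn ℝ ∞ L s) (i : Fin 3) :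
    ContDiffOn ℝ ∞ (fun t => mC (L t) i) s := by
  have hg : Continuous gg := by
    unfold gg
    fun_prop
  have h := ((cd_comp hL 1).smul (contDiffOn_const (c := (1 : C(II, ℝ))))).add
    (((cd_comp hL i).sub (cd_comp hL 1)).smul (contDiffOn_const (c := rs gg hg)))
  refine h.congr fun t _ => ?_
  ext x
  simp [mC, rs, mm]

theorem cd_PC {p : ℝ → C(II, E3)} (hp : ContDiffOn ℝ ∞ p s) (i : Fin 3) :
    ContDiffOn ℝ ∞ (fun t => PC (p t) i) s := contDiffOn_const.add (cd_pr hp i)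

theorem cd_sC {K : ℝ} (hK : 0 < K) {L : ℝ → VV} (hU : ∀ t ∈ s, L t ∈ UU K)
    (hL : ContDiffOn ℝ ∞ L s) {p : ℝ → C(II, E3)} (hp : ContDiffOn ℝ ∞ p s) (i : Fin 3) :
    ContDiffOn ℝ ∞ (fun t => sC (L t) (p t) i) s := by
  have h1 : ContDiffOn ℝ ∞ (fun t => Ring.inverse (mC (L t) i)) s := by
    intro t ht
    obtain ⟨v, hv⟩ := mC_unit hK (hU t ht) i
    have h := contDiffAt_ringInverse ℝ (n := ∞) v
    rw [hv] at h
    exact h.comp_contDiffWithinAt t (cd_mC hL i t ht)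
  exact JJ.contDiff.comp_contDiffOn (tL.contDiff.comp_contDiffOn (((cd_PC hp i).pow 2).mul h1))

theorem ts_lam (tk : S_TK) {K a b : ℝ} (hK : 0 < K) {L w : ℝ → VV}
    (hU : ∀ t ∈ Ioo a b, L t ∈ UU K) (hL : ContDiffOn ℝ ∞ L (Ioo a b))
    (hw : ContDiffOn ℝ ∞ w (Ioo a b)) {p : ℝ → C(II, E3)} (hp : ContDiffOn ℝ ∞ p (Ioo a b))
    (i : Fin 3) : TS a b fun t x => lamF (L t) (p t) (w t) i x := by
  have hs := cd_sC hK hU hL hp
  have hs1 : ∀ j, ContDiffOn ℝ ∞ (fun t => w t j + sF (L t) (p t) j 1) (Ioo a b) := fun j =>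
    ((cd_comp hw j).add (cd_eval (hs j) 1)).congr fun t ht => by
      rw [sC_apply hK (hU t ht)]
      rfl
  have h0 : ContDiffOn ℝ ∞ (fun t => ![-(w t 0 + sF (L t) (p t) 0 1),
      w t 0 + sF (L t) (p t) 0 1 + (w t 2 + sF (L t) (p t) 2 1),
      -(w t 2 + sF (L t) (p t) 2 1)] i) (Ioo a b) := by
    fin_cases i
    · exact (hs1 0).neg
    · exact (hs1 0).add (hs1 2)
    · exact (hs1 2).neg
  have h := ((h0.smul (contDiffOn_const (c := (1 : C(II, ℝ))))).add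
    (((cd_comp hw 1).smul (contDiffOn_const (c := rs id continuous_id))).add
    (((cd_comp hw i).sub (cd_comp hw 1)).smul (contDiffOn_const
      (c := rs (fun x => 3 / 2 * x ^ 2 - x ^ 3 / 2) (by fun_prop)))))).add (hs i)
  refine tk.ts_cm a b _ _ h fun t ht x => ?_
  simp [lamF, rs, sC_apply hK (hU t ht)]

theorem sm_me {a b : ℝ} {L : ℝ → VV} (hL : ContDiffOn ℝ ∞ L (Ioo a b)) (i : Fin 3) :
    Sm a b fun t x => mm (L t) i x := by
  have h : ∀ j, ContDiffOn ℝ ∞ (fun z : ℝ × ℝ => L z.1 j) (Ioo a b ×ˢ Icc 0 1) := fun j =>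
    (cd_comp hL j).comp contDiffOn_fst fun z hz => hz.1
  have hg : ContDiffOn ℝ ∞ (fun z : ℝ × ℝ => gg z.2) (Ioo a b ×ˢ Icc 0 1) := by
    unfold gg
    fun_prop
  exact (h 1).add (((h i).sub (h 1)).mul hg)

theorem hd_me {L : ℝ → VV} {w : VV} {t : ℝ} (h : HasDerivAt L w t) (i : Fin 3) (x : ℝ) :
    HasDerivAt (fun r => mm (L r) i x) (w 1 + (w i - w 1) * gg x) t :=
  (hasDerivAt_pi.1 h 1).add (((hasDerivAt_pi.1 h i).sub (hasDerivAt_pi.1 h 1)).mul_const _)

end time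

theorem lamF_zero {L : VV} (p : C(II, E3)) (i : Fin 3) :
    lamF L p (vF L p) i 0 = (p 0 (i + 2) / L 1 - p 0 (i + 1) / L 1) / √3 := by
  have e : ∀ j, sF L p j 0 = 0 := fun j => intervalIntegral.integral_same
  fin_cases i <;> simp [lamF, vF, e] <;> ring

theorem lamF_one {L : VV} (p : C(II, E3)) :
    lamF L p (vF L p) 0 1 = 0 ∧ lamF L p (vF L p) 1 1 = -(p 1 1 / L 1) / √3 ∧
      lamF L p (vF L p) 2 1 = 0 := by
  refine ⟨?_, ?_, ?_⟩ <;> simp [lamF, vF] <;> ring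

end C4Aux

open C4Aux in
theorem c4 : S_TK → S_BOOT → S_REL → S_C4 := by
  intro tk boot rel K S hK hC τ L D0 D1 D2 hcl hL hD1 hD2
  obtain ⟨-, r2, -, r4⟩ := rel S.M hC.m
  have hU : ∀ t ∈ Ioo 0 τ, L t ∈ UU K := fun t ht => hC.u ▸ hcl.mem t ht
  have h01 : (1 : ℝ) ∈ Ioc (0 : ℝ) 1 := ⟨one_pos, le_rfl⟩
  set p : ℝ → C(II, E3) := fun t => prim (S.T1 1 (D1 t) + S.T2 1 (D2 t)).1 (D2 t) with hpdef
  have hp : ∀ t ∈ Ioo 0 τ, D1 t = tL (p t) ∧ p t 0 0 + p t 0 1 + p t 0 2 = 0 ∧ p t 1 2 = 0 ∧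
      S.T1 1 (tL (p t)) + S.T2 1 (D2 t) = (p t 0, p t 1) := by
    intro t ht
    obtain ⟨c, h1, h2, h3⟩ := r4 _ _ (hcl.r2 t ht)
    have h4 := hC.tr.val 1 h01 c (D2 t)
    have h5 : p t = prim c (D2 t) := by
      simp only [hpdef]
      rw [h3, h4]
    rw [h5, prim_zero]
    exact ⟨h3, h1, h2, h4⟩
  have sp : ContDiffOn ℝ ∞ p (Ioo 0 τ) :=
    ((ContinuousLinearMap.const ℝ II : E3 →L[ℝ] C(II, E3)).contDiff.comp_contDiffOn
      (((S.T1 1).contDiff.comp_contDiffOn hD1).add ((S.T2 1).contDiff.comp_contDiffOn hD2)).fst).add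
      ((JJ : HH →L[ℝ] C(II, E3)).contDiff.comp_contDiffOn hD2)
  have hv : ∀ t ∈ Ioo 0 τ, S.v (L t) (D1 t) (D2 t) = vF (L t) (p t) := by
    intro t ht
    rw [(hp t ht).1]
    exact hC.v _ (hU t ht) _ _ (hp t ht).2.2.2
  have dL : ∀ t ∈ Ioo 0 τ, HasDerivAt L (vF (L t) (p t)) t := fun t ht => hv t ht ▸ hcl.dL t ht
  have sw : ContDiffOn ℝ ∞ (fun t => vF (L t) (p t)) (Ioo 0 τ) :=
    (hL.deriv_of_isOpen isOpen_Ioo (by simp)).congr fun t ht => (dL t ht).deriv.symm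
  have sθ := cd_c1 hD1
  set θd : ℝ → C(II, E3) := deriv fun t => c1 (D1 t) with hθd
  have dθ : ∀ t ∈ Ioo 0 τ, HasDerivAt (fun t => c1 (D1 t)) (θd t) t := fun t ht =>
    ((sθ.contDiffAt (isOpen_Ioo.mem_nhds ht)).differentiableAt (by simp)).hasDerivAt
  have hF : ∀ t ∈ Ioo 0 τ, S.F (L t) (tL (p t)) (D2 t) (vF (L t) (p t)) = tL (θd t) := by
    intro t ht
    have h1 := (tL : C(II, E3) →L[ℝ] HH).hasFDerivAt.comp_hasDerivAt t (dθ t ht)
    have h2 := hcl.dD t ht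
    rw [hv t ht, (hp t ht).1] at h2
    refine h2.unique (h1.congr_of_eventuallyEq ?_)
    filter_upwards [isOpen_Ioo.mem_nhds ht] with r hr
    exact (r2 _ _ (hcl.r1 r hr)).2
  set u : ℝ → St := fun t => toSt (L t) (D1 t) with hu
  have eth : ∀ i t x, th u i t x = θs i (pj x) + c1 (D1 t) (pj x) i := fun _ _ _ => rfl
  have eme : ∀ i, me u i = fun t x => mm (L t) i x := fun _ => rfl
  have hdt : ∀ i, ∀ t ∈ Ioo 0 τ, ∀ x, dt (th u i) t x = θd t (pj x) i := by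
    intro i t ht x
    have h1 := ((ContinuousMap.evalCLM ℝ (pj x) : C(II, ℝ) →L[ℝ] ℝ).comp
      (pr i)).hasFDerivAt.comp_hasDerivAt t (dθ t ht)
    exact (h1.const_add (θs i (pj x))).deriv
  have hdm : ∀ i, ∀ t ∈ Ioo 0 τ, ∀ x, dt (me u i) t x
      = vF (L t) (p t) 1 + (vF (L t) (p t) i - vF (L t) (p t) 1) * gg x :=
    fun i t ht x => (hd_me (dL t ht) i x).deriv
  have hxm : ∀ i t, ∀ x ∈ Icc (0 : ℝ) 1, dx (me u i) t x = (L t i - L t 1) * (3 - 3 * x) :=
    fun i t x hx => (hd_mm (L t) i x).hasDerivWithinAt.derivWithin (uniqueDiffOn_Icc one_pos x hx)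
  have hθx : ∀ i, ∀ t ∈ Ioo 0 τ, ∀ x ∈ Icc (0 : ℝ) 1,
      HasDerivWithinAt (th u i t) (Pf (p t) i x) (Icc 0 1) x := by
    intro i t ht x hx
    have h1 := hd_prim !₂[-(JJ (D1 t) 1 0), -(JJ (D1 t) 1 0), -(JJ (D1 t) 1 0)] (p t) i hx
    rw [← (hp t ht).1] at h1
    refine ((hd_θs i x).hasDerivWithinAt.add h1).congr (fun y hy => ?_) ?_
    · rw [eth, pj_coe hy]
      rfl
    · rw [eth, pj_coe hx]
      rfl
  have hΛx : ∀ i, ∀ t ∈ Ioo 0 τ, ∀ x ∈ Icc (0 : ℝ) 1,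
      HasDerivWithinAt (lamF (L t) (p t) (vF (L t) (p t)) i)
        (dt (me u i) t x + Pf (p t) i x ^ 2 / me u i t x) (Icc 0 1) x := by
    intro i t ht x hx
    rw [hdm i t ht]
    exact hd_lamF tk hK (hU t ht) _ _ i hx
  have hPx : ∀ i, ∀ t ∈ Ioo 0 τ, ∀ x ∈ Icc (0 : ℝ) 1, HasDerivWithinAt (Pf (p t) i)
      (me u i t x ^ 2 * dt (th u i) t x + dx (me u i) t x * Pf (p t) i x / me u i t x
        - lamF (L t) (p t) (vF (L t) (p t)) i x * me u i t x * Pf (p t) i x) (Icc 0 1) x := by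
    intro i t ht x hx
    obtain ⟨q, hq1, hq2⟩ := exists_q tk hK (hU t ht) (p t) (θd t) (vF (L t) (p t))
    have h1 := hC.F _ (hU t ht) _ q _ _ hq1
    rw [← hF t ht] at h1
    have h2 : tL q = D2 t :=
      A_inj S (hcl.mem t ht) (add_right_cancel (add_right_cancel h1))
    have h3 := hd_prim (S.T1 1 (D1 t) + S.T2 1 (D2 t)).1 q i hx
    rw [h2] at h3
    have h4 := hq2 (pj x) i
    rw [pj_coe hx] at h4
    rw [hdt i t ht, hxm i t x hx]
    exact ((hd_θs1 i x).hasDerivWithinAt.add h3).congr_deriv h4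
  have hpos : ∀ t ∈ Ioo 0 τ, ∀ i, ∀ x ∈ Icc (0 : ℝ) 1, 0 < me u i t x :=
    fun t ht i x hx => mm_pos hK (hU t ht) i hx
  have hka : ∀ i, ∀ t ∈ Ioo 0 τ, ∀ x ∈ Icc (0 : ℝ) 1, ka u i t x = Pf (p t) i x / mm (L t) i x := by
    intro i t ht x hx
    rw [ka, dx, (hθx i t ht x hx).derivWithin (uniqueDiffOn_Icc one_pos x hx)]
    rfl
  have z0 : (0 : ℝ) ∈ Icc (0 : ℝ) 1 := ⟨le_rfl, zero_le_one⟩
  have z1 : (1 : ℝ) ∈ Icc (0 : ℝ) 1 := ⟨zero_le_one, le_rfl⟩
  have hk0 : ∀ i, ∀ t ∈ Ioo 0 τ, ka u i t 0 = p t 0 i / L t 1 := by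
    intro i t ht
    have e : θs1 i 0 = 0 := by fin_cases i <;> simp [θs1]
    rw [hka i t ht 0 z0, mm_zero, Pf, pj_zero, e, zero_add]
  have hla : ∀ i, ∀ t ∈ Ioo 0 τ, ∀ x ∈ Icc (0 : ℝ) 1,
      la u i t x = lamF (L t) (p t) (vF (L t) (p t)) i x := by
    intro i t ht x hx
    have hc : ContinuousOn (fun y => dt (me u i) t y + Pf (p t) i y ^ 2 / me u i t y)
        (Icc 0 1) := by
      simp only [hdm i t ht]
      refine ContinuousOn.add ?_ (cont_sq hK (hU t ht) _ i)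
      unfold gg
      fun_prop
    have h1 := tk.ftc _ _ hc (hΛx i t ht) x hx
    have h2 : ∫ y in (0 : ℝ)..x, (dt (me u i) t y + ka u i t y ^ 2 * me u i t y)
        = ∫ y in (0 : ℝ)..x, (dt (me u i) t y + Pf (p t) i y ^ 2 / me u i t y) := by
      refine intervalIntegral.integral_congr fun y hy => ?_
      rw [uIcc_of_le hx.1] at hy
      have hy' : y ∈ Icc (0 : ℝ) 1 := ⟨hy.1, hy.2.trans hx.2⟩
      have := (mm_pos hK (hU t ht) i hy').ne'
      simp only [hka i t ht y hy', eme]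
      field_simp
    rw [la, h2, h1, hk0 _ t ht, hk0 _ t ht, lamF_zero]
    ring
  refine ⟨fun i => ?_, fun i => cd_comp hL i, fun t _ i x => ?_, hpos, fun t ht i x hx => ?_,
    fun t _ i => ?_, fun t ht => ?_, fun t _ => ?_, fun t ht => ?_, fun t ht => ?_,
    fun t ht => ?_, fun t ht => ?_, fun t ht => ?_⟩
  · refine (boot 0 τ (th u i) (fun t => Pf (p t) i) (fun t => lamF (L t) (p t) (vF (L t) (p t)) i)
      (me u i) ?_ ?_ (ts_lam tk hK hU hL sw sp i) (sm_me hL i) (fun t ht => hpos t ht i) (hθx i)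
      (hΛx i) (hPx i)).1
    · refine tk.ts_cm 0 τ _ _ ((contDiffOn_const (c := rs (θs i) (cont_θs i))).add (cd_pr sθ i))
        fun t _ x => ?_
      rw [eth, pj_val]
      rfl
    · exact tk.ts_cm 0 τ _ _ (cd_PC sp i) fun t _ x => (PC_apply _ _ _).symm
  · change th u i t x = th u i t (pj x)
    rw [eth, eth, pj_val]
  · have hm := (mm_pos hK (hU t ht) i hx).ne'
    have h1 := ((hPx i t ht x hx).div (hd_mm (L t) i x).hasDerivWithinAt hm).congr
      (f₁ := ka u i t) (fun y hy => hka i t ht y hy) (hka i t ht x hx)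
    rw [show dx (ka u i) t x = _ from h1.derivWithin (uniqueDiffOn_Icc one_pos x hx),
      hla i t ht x hx, hka i t ht x hx, hxm i t x hx]
    simp only [eme]
    field_simp
    ring
  · rw [eth, eth, pj_zero, c1, prim_zero]
    fin_cases i <;> simp [θs]
  · rw [hk0 _ t ht, hk0 _ t ht, hk0 _ t ht, ← add_div, ← add_div, (hp t ht).2.1, zero_div]
  · rw [eth, pj_one]
    simp [θs, c1, prim]
  · rw [eth, pj_one]
    simp [θs, c1, prim, (r2 _ _ (hcl.r1 t ht)).1]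
  · rw [hka 2 t ht 1 z1, Pf, pj_one, (hp t ht).2.2.1]
    simp [θs1]
  · rw [hla 0 t ht 1 z1, (lamF_one _).1]
  · rw [hla 1 t ht 1 z1, (lamF_one _).2.1, hka 1 t ht 1 z1, mm_one, Pf, pj_one]
    simp [θs1]
  · rw [hla 2 t ht 1 z1, (lamF_one _).2.2]

end Pool.Agent.P.MP_cf7202_gt
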