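import Pool.Agent.P.MP_cf7202_gt.DefCon

/-! Classical solutions of the quarter system are abstract solutions. -/

namespace Pool.Agent.P.MP_cf7202_gt

open Set Filter Topology Function MeasureTheory Real
open scoped ContDiff ENNReal

namespace C5Aux

/-- evaluation of a component -/
noncomputable def evi (x : II) (i : Fin 3) : C(II, E3) →L[ℝ] ℝ :=
  (EuclideanSpace.proj i : E3 →L[ℝ] ℝ).comp (ContinuousMap.evalCLM ℝ x)

theorem evi_apply (x : II) (i : Fin 3) (P : C(II, E3)) : evi x i P = P x i := rfl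

/-- three functions of time and space as a curve of continuous maps -/
noncomputable def cur (f : Fin 3 → ℝ → ℝ → ℝ) (t : ℝ) : C(II, E3) :=
  ContinuousMap.mkD (fun x : II => (WithLp.toLp 2 fun i => f i t x : E3)) 0

variable {a b t : ℝ} {f g : Fin 3 → ℝ → ℝ → ℝ}

theorem unc_cont (hf : ∀ i, Ct a b (f i)) :
    ContinuousOn (uncurry fun (t : ℝ) (x : II) => (WithLp.toLp 2 fun i => f i t x : E3))
      (Ioo a b ×ˢ univ) :=
  (PiLp.continuous_toLp 2 _).comp_continuousOn (continuousOn_pi.2 fun i =>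
    ContinuousOn.comp (hf i) (f := fun z : ℝ × II => (z.1, (z.2 : ℝ))) (by fun_prop)
      fun z hz => ⟨hz.1, z.2.2⟩)

theorem cur_apply (hf : ∀ i, Ct a b (f i)) (ht : t ∈ Ioo a b) (x : II) (i : Fin 3) :
    cur f t x i = f i t x := by
  have h : Continuous fun x : II => (WithLp.toLp 2 fun i => f i t x : E3) :=
    (unc_cont hf).comp_continuous (Continuous.prodMk_right t) fun _ => ⟨ht, trivial⟩
  rw [cur, ContinuousMap.mkD_apply_of_continuous h]

theorem cur_cont (hf : ∀ i, Ct a b (f i)) : ContinuousOn (cur f) (Ioo a b) :=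
  ContinuousMap.continuousOn_mkD_of_uncurry _ _ (unc_cont hf)

theorem cur_deriv (hf : ∀ i, Ct a b (f i)) (hg : ∀ i, Ct a b (g i))
    (hd : ∀ i, ∀ t ∈ Ioo a b, ∀ x ∈ Icc (0 : ℝ) 1, HasDerivAt (fun s => f i s x) (g i t x) t)
    (ht : t ∈ Ioo a b) : HasDerivAt (cur f) (cur g t) t := by
  have hc := cur_cont hg
  have h1 : HasDerivAt (fun s => cur f t + ∫ r in t..s, cur g r) (cur g t) t :=
    (intervalIntegral.integral_hasDerivAt_right IntervalIntegrable.refl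
      (hc.stronglyMeasurableAtFilter isOpen_Ioo t ht)
      (hc.continuousAt (isOpen_Ioo.mem_nhds ht))).const_add _
  refine h1.congr_of_eventuallyEq ?_
  filter_upwards [isOpen_Ioo.mem_nhds ht] with s hs
  have hsub : uIcc t s ⊆ Ioo a b := ordConnected_Ioo.uIcc_subset ht hs
  have hint : IntervalIntegrable (cur g) volume t s := (hc.mono hsub).intervalIntegrable
  ext x i
  have e1 : (∫ r in t..s, cur g r) x i = ∫ r in t..s, evi x i (cur g r) :=
    ((evi x i).intervalIntegral_comp_comm hint).symm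
  have e2 : ∫ r in t..s, evi x i (cur g r) = f i s x - f i t x := by
    refine intervalIntegral.integral_eq_sub_of_hasDerivAt (f := fun s => f i s x)
      (fun r hr => ?_) ?_
    · rw [evi_apply, cur_apply hg (hsub hr)]
      exact hd i r (hsub hr) x x.2
    · exact ((evi x i).continuous.comp_continuousOn (hc.mono hsub)).intervalIntegrable
  rw [ContinuousMap.add_apply, PiLp.add_apply, e1, e2, cur_apply hf hs, cur_apply hf ht]
  ring

theorem pj_coe {x : ℝ} (hx : x ∈ Icc (0 : ℝ) 1) : ((pj x : II) : ℝ) = x := by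
  simp [pj, projIcc_of_mem _ hx]

theorem prim_apply (c : E3) (h : HH) (x : II) (i : Fin 3) : prim c h x i = c i + JJ h x i := rfl

theorem prim_eq (tk : S_TK) {P Q : C(II, E3)} {φ ψ : Fin 3 → ℝ → ℝ}
    (hP : ∀ (x : II) i, P x i = φ i x) (hQ : ∀ (x : II) i, Q x i = ψ i x)
    (hd : ∀ i, ∀ x ∈ Icc (0 : ℝ) 1, HasDerivWithinAt (φ i) (ψ i x) (Icc 0 1) x) :
    P = prim (P 0) (tL Q) := by
  ext x i
  have hc : Continuous fun s : ℝ => Q (pj s) := Q.continuous.comp continuous_projIcc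
  have hq : ∀ y ∈ Icc (0 : ℝ) 1, ψ i y = Q (pj y) i := fun y hy => by rw [hQ, pj_coe hy]
  have hψ : ContinuousOn (ψ i) (Icc 0 1) :=
    (((EuclideanSpace.proj i : E3 →L[ℝ] ℝ).continuous.comp hc).continuousOn).congr hq
  have e1 : JJ (tL Q) x i = ∫ s in (0 : ℝ)..x, Q (pj s) i := by
    rw [JJ_tL]
    exact ((EuclideanSpace.proj i : E3 →L[ℝ] ℝ).intervalIntegral_comp_comm
      (hc.intervalIntegrable _ _)).symm
  have e2 : ∫ s in (0 : ℝ)..x, Q (pj s) i = ∫ s in (0 : ℝ)..x, ψ i s := by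
    refine intervalIntegral.integral_congr fun y hy => ?_
    rw [uIcc_of_le x.2.1] at hy
    exact (hq y ⟨hy.1, hy.2.trans x.2.2⟩).symm
  rw [prim_apply, e1, e2, tk.ftc (φ i) (ψ i) hψ (hd i) x x.2, hP, hP]
  simp

theorem θs_deriv (i : Fin 3) (x : ℝ) : HasDerivAt (θs i) (θs1 i x) x := by
  fin_cases i
  · refine (((hasDerivAt_id' x).fun_pow 2).const_mul (π / 3)).congr_deriv ?_
    simp [θs1]; ring
  · exact hasDerivAt_const x (0 : ℝ)
  · exact hasDerivAt_const x (0 : ℝ)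

theorem θs1_deriv (i : Fin 3) (x : ℝ) : HasDerivAt (θs1 i) (θs2 i) x := by
  fin_cases i
  · refine ((hasDerivAt_id' x).const_mul (2 * π / 3)).congr_deriv ?_
    simp [θs2]
  · exact hasDerivAt_const x (0 : ℝ)
  · exact hasDerivAt_const x (0 : ℝ)

theorem θs_zero (i : Fin 3) : θs i 0 = 0 := by fin_cases i <;> simp [θs]

theorem θs1_zero (i : Fin 3) : θs1 i 0 = 0 := by fin_cases i <;> simp [θs1]

theorem ct_sub {F : ℝ → ℝ → ℝ} (hF : Sm a b F) {φ : ℝ → ℝ} (hφ : Continuous φ) :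
    Ct a b fun t x => F t x - φ x :=
  hF.continuousOn.sub (hφ.comp continuous_snd).continuousOn

noncomputable def θ0 (u : ℝ → St) (i : Fin 3) (t x : ℝ) : ℝ := th u i t x - θs i x
noncomputable def p0 (u : ℝ → St) (i : Fin 3) (t x : ℝ) : ℝ := dx (th u i) t x - θs1 i x
noncomputable def q0 (u : ℝ → St) (i : Fin 3) (t x : ℝ) : ℝ := dx (dx (th u i)) t x - θs2 i
noncomputable def θd (u : ℝ → St) (i : Fin 3) : ℝ → ℝ → ℝ := dt (th u i)
noncomputable def wv (u : ℝ → St) (t : ℝ) : VV := fun i => deriv (fun s => (u s).2 i) t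

variable {u : ℝ → St}

theorem ct_θ0 (h : QS a b u) (i : Fin 3) : Ct a b (θ0 u i) :=
  ct_sub (h.sth i) (continuous_iff_continuousAt.2 fun x => (θs_deriv i x).continuousAt)

theorem ct_p0 (tk : S_TK) (h : QS a b u) (i : Fin 3) : Ct a b (p0 u i) :=
  ct_sub (tk.sm_dx _ _ _ (h.sth i))
    (continuous_iff_continuousAt.2 fun x => (θs1_deriv i x).continuousAt)

theorem ct_q0 (tk : S_TK) (h : QS a b u) (i : Fin 3) : Ct a b (q0 u i) :=
  ct_sub (tk.sm_dx _ _ _ (tk.sm_dx _ _ _ (h.sth i))) continuous_const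

theorem ct_θd (tk : S_TK) (h : QS a b u) (i : Fin 3) : Ct a b (θd u i) :=
  (tk.sm_dt _ _ _ (h.sth i)).continuousOn

theorem p_prim (tk : S_TK) (h : QS a b u) (ht : t ∈ Ioo a b) :
    cur (p0 u) t = prim (cur (p0 u) t 0) (tL (cur (q0 u) t)) :=
  prim_eq tk (φ := fun i => p0 u i t) (ψ := fun i => q0 u i t) (cur_apply (ct_p0 tk h) ht)
    (cur_apply (ct_q0 tk h) ht) fun i x hx =>
      (tk.has_dx _ _ _ (tk.sm_dx _ _ _ (h.sth i)) t ht x hx).sub (θs1_deriv i x).hasDerivWithinAt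

theorem θ_prim (tk : S_TK) (h : QS a b u) (ht : t ∈ Ioo a b) :
    cur (θ0 u) t = prim (cur (θ0 u) t 0) (tL (cur (p0 u) t)) :=
  prim_eq tk (φ := fun i => θ0 u i t) (ψ := fun i => p0 u i t) (cur_apply (ct_θ0 h) ht)
    (cur_apply (ct_p0 tk h) ht) fun i x hx =>
      (tk.has_dx _ _ _ (h.sth i) t ht x hx).sub (θs_deriv i x).hasDerivWithinAt

theorem JJ_p (tk : S_TK) (h : QS a b u) (ht : t ∈ Ioo a b) (i : Fin 3) :
    JJ (tL (cur (p0 u) t)) 1 i = th u i t 1 - θs i 1 - th u 0 t 0 := by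
  have h1 := congrArg (fun P : C(II, E3) => P 1 i) (θ_prim tk h ht)
  simp only [prim_apply, cur_apply (ct_θ0 h) ht, θ0, Icc.coe_one, Icc.coe_zero, θs_zero,
    h.j0 t ht i] at h1
  linarith

theorem JJ_p0 (tk : S_TK) (h : QS a b u) (ht : t ∈ Ioo a b) :
    JJ (tL (cur (p0 u) t)) 1 0 = -th u 0 t 0 := by
  rw [JJ_p tk h ht, h.e0 t ht]; simp [θs]

theorem JJ_p1 (tk : S_TK) (h : QS a b u) (ht : t ∈ Ioo a b) :
    JJ (tL (cur (p0 u) t)) 1 1 = -th u 0 t 0 := by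
  rw [JJ_p tk h ht, h.e1 t ht]; simp [θs]

theorem θ_c1 (tk : S_TK) (h : QS a b u) (ht : t ∈ Ioo a b) :
    cur (θ0 u) t = c1 (tL (cur (p0 u) t)) := by
  rw [c1, JJ_p0 tk h ht, neg_neg]
  refine (θ_prim tk h ht).trans ?_
  congr 1
  ext i
  rw [cur_apply (ct_θ0 h) ht, θ0, Icc.coe_zero, θs_zero, h.j0 t ht i, sub_zero]
  fin_cases i <;> rfl

theorem me_zero (i : Fin 3) (t : ℝ) : me u i t 0 = (u t).2 1 := by simp [me, mm, gg]

theorem me_one (t x : ℝ) : me u 1 t x = (u t).2 1 := by simp [me, mm]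

theorem Pf_eq (tk : S_TK) (h : QS a b u) (ht : t ∈ Ioo a b) (i : Fin 3) {x : ℝ}
    (hx : x ∈ Icc (0 : ℝ) 1) : Pf (cur (p0 u) t) i x = dx (th u i) t x := by
  rw [Pf, cur_apply (ct_p0 tk h) ht, pj_coe hx, p0]; ring

theorem p_zero (tk : S_TK) (h : QS a b u) (ht : t ∈ Ioo a b) (i : Fin 3) :
    cur (p0 u) t 0 i = ka u i t 0 * (u t).2 1 := by
  have hp := h.pos t ht i 0 ⟨le_rfl, zero_le_one⟩
  rw [cur_apply (ct_p0 tk h) ht, p0, Icc.coe_zero, θs1_zero, sub_zero, ka, ← me_zero i,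
    div_mul_cancel₀ _ hp.ne']

theorem p_one1 (tk : S_TK) (h : QS a b u) (ht : t ∈ Ioo a b) :
    cur (p0 u) t 1 1 = ka u 1 t 1 * (u t).2 1 := by
  have hp := h.pos t ht 1 1 ⟨zero_le_one, le_rfl⟩
  rw [cur_apply (ct_p0 tk h) ht, p0, Icc.coe_one, ka, ← me_one t 1, div_mul_cancel₀ _ hp.ne']
  simp [θs1]

theorem p_one2 (tk : S_TK) (h : QS a b u) (ht : t ∈ Ioo a b) : cur (p0 u) t 1 2 = 0 := by
  have hp := h.pos t ht 2 1 ⟨zero_le_one, le_rfl⟩
  have h2 := h.e2 t ht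
  rw [ka, div_eq_zero_iff] at h2
  rw [cur_apply (ct_p0 tk h) ht, p0, Icc.coe_one, h2.resolve_right hp.ne']
  simp [θs1]

theorem L_deriv (h : QS a b u) (ht : t ∈ Ioo a b) (i : Fin 3) :
    HasDerivAt (fun s => (u s).2 i) (wv u t i) t :=
  (((h.sL i).contDiffAt (isOpen_Ioo.mem_nhds ht)).differentiableAt (by simp)).hasDerivAt

theorem dt_me (h : QS a b u) (ht : t ∈ Ioo a b) (i : Fin 3) (y : ℝ) :
    dt (me u i) t y = wv u t 1 + (wv u t i - wv u t 1) * gg y :=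
  ((L_deriv h ht 1).add (((L_deriv h ht i).sub (L_deriv h ht 1)).mul_const (gg y))).deriv

theorem gg_deriv (x : ℝ) : HasDerivAt gg (3 - 3 * x) x := by
  refine ((((hasDerivAt_id' x).const_mul 2).fun_sub ((hasDerivAt_id' x).fun_pow 2)).const_mul
    (3 / 2 : ℝ)).congr_deriv ?_
  simp; ring

theorem gg_cont : Continuous gg := continuous_iff_continuousAt.2 fun x => (gg_deriv x).continuousAt

theorem me_deriv (i : Fin 3) (t x : ℝ) :
    HasDerivAt (me u i t) (((u t).2 i - (u t).2 1) * (3 - 3 * x)) x :=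
  ((gg_deriv x).const_mul _).const_add _

theorem int_gg (A B x : ℝ) :
    ∫ y in (0 : ℝ)..x, (A + B * gg y) = A * x + B * (3 / 2 * x ^ 2 - x ^ 3 / 2) := by
  have hd : ∀ y ∈ uIcc (0 : ℝ) x, HasDerivAt
      (fun z : ℝ => A * z + B * (3 / 2 * z ^ 2 - z ^ 3 / 2)) (A + B * gg y) y := by
    intro y _
    refine (((hasDerivAt_id' y).const_mul A).fun_add (((((hasDerivAt_id' y).fun_pow 2).const_mul
      (3 / 2 : ℝ)).fun_sub (((hasDerivAt_id' y).fun_pow 3).div_const 2)).const_mul B)).congr_deriv ?_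
    simp only [gg, Nat.cast_ofNat, Nat.add_one_sub_one]; ring
  rw [intervalIntegral.integral_eq_sub_of_hasDerivAt hd
    ((continuous_const.add (continuous_const.mul gg_cont)).intervalIntegrable _ _)]
  ring

theorem la_eq (tk : S_TK) (h : QS a b u) (ht : t ∈ Ioo a b) (i : Fin 3) {x : ℝ}
    (hx : x ∈ Icc (0 : ℝ) 1) :
    la u i t x = (ka u (i + 2) t 0 - ka u (i + 1) t 0) / √3 +
      (wv u t 1 * x + (wv u t i - wv u t 1) * (3 / 2 * x ^ 2 - x ^ 3 / 2))
      + sF (u t).2 (cur (p0 u) t) i x := by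
  have hsub : uIcc (0 : ℝ) x ⊆ Icc 0 1 := by
    rw [uIcc_of_le hx.1]; exact Icc_subset_Icc le_rfl hx.2
  have hP : Continuous (Pf (cur (p0 u) t) i) :=
    (continuous_iff_continuousAt.2 fun x => (θs1_deriv i x).continuousAt).add
      ((EuclideanSpace.proj i : E3 →L[ℝ] ℝ).continuous.comp
        ((cur (p0 u) t).continuous.comp continuous_projIcc))
  have hm : Continuous (me u i t) :=
    continuous_iff_continuousAt.2 fun x => (me_deriv i t x).continuousAt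
  have hi : IntervalIntegrable (fun y => Pf (cur (p0 u) t) i y ^ 2 / mm (u t).2 i y) volume 0 x :=
    ContinuousOn.intervalIntegrable (((hP.pow 2).continuousOn).div hm.continuousOn
      fun y hy => (h.pos t ht i y (hsub hy)).ne')
  have hj : IntervalIntegrable (fun y => wv u t 1 + (wv u t i - wv u t 1) * gg y) volume 0 x :=
    (continuous_const.add (continuous_const.mul gg_cont)).intervalIntegrable _ _
  rw [la, add_assoc, ← int_gg, sF, ← intervalIntegral.integral_add hj hi]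
  congr 1
  refine intervalIntegral.integral_congr fun y hy => ?_
  have hp := h.pos t ht i y (hsub hy)
  simp only [dt_me h ht, Pf_eq tk h ht i (hsub hy), ka]
  change _ = _ + _ / me u i t y
  field_simp

theorem la_one (tk : S_TK) (h : QS a b u) (ht : t ∈ Ioo a b) (i : Fin 3) :
    la u i t 1 = (ka u (i + 2) t 0 - ka u (i + 1) t 0) / √3 + wv u t i
      + sF (u t).2 (cur (p0 u) t) i 1 := by
  rw [la_eq tk h ht i ⟨zero_le_one, le_rfl⟩]; ring

theorem la_lamF (tk : S_TK) (h : QS a b u) (ht : t ∈ Ioo a b) (i : Fin 3) {x : ℝ}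
    (hx : x ∈ Icc (0 : ℝ) 1) : la u i t x = lamF (u t).2 (cur (p0 u) t) (wv u t) i x := by
  have h0 := la_one tk h ht 0
  have h2 := la_one tk h ht 2
  rw [h.l0 t ht] at h0
  rw [h.l2 t ht] at h2
  rw [la_eq tk h ht i hx, lamF]
  congr 2
  have e0 : (0 : Fin 3) + 2 = 2 := rfl
  have e1 : (0 : Fin 3) + 1 = 1 := rfl
  have e2 : (2 : Fin 3) + 2 = 1 := rfl
  have e3 : (2 : Fin 3) + 1 = 0 := rfl
  rw [e0, e1] at h0
  rw [e2, e3] at h2
  fin_cases i
  · change (ka u 2 t 0 - ka u 1 t 0) / √3 = -(wv u t 0 + sF (u t).2 (cur (p0 u) t) 0 1)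
    linarith
  · change (ka u 0 t 0 - ka u 2 t 0) / √3 = wv u t 0 + sF (u t).2 (cur (p0 u) t) 0 1 +
      (wv u t 2 + sF (u t).2 (cur (p0 u) t) 2 1)
    have : (ka u 0 t 0 - ka u 2 t 0) / √3 =
        -((ka u 2 t 0 - ka u 1 t 0) / √3) - (ka u 1 t 0 - ka u 0 t 0) / √3 := by ring
    linarith
  · change (ka u 1 t 0 - ka u 0 t 0) / √3 = -(wv u t 2 + sF (u t).2 (cur (p0 u) t) 2 1)
    linarith

theorem wv_vF (tk : S_TK) (h : QS a b u) (ht : t ∈ Ioo a b) :
    vF (u t).2 (cur (p0 u) t) = wv u t := by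
  have hL : 0 < (u t).2 1 := by
    have := h.pos t ht 1 0 ⟨le_rfl, zero_le_one⟩
    rwa [me_one] at this
  have h3 : (√3 : ℝ) ≠ 0 := by positivity
  have key : ∀ i : Fin 3, (![0, -(cur (p0 u) t 1 1), 0] : Fin 3 → ℝ) i
      = la u i t 1 * (√3 * (u t).2 1) := by
    intro i
    fin_cases i
    · change (0 : ℝ) = la u 0 t 1 * _
      rw [h.l0 t ht, zero_mul]
    · change -(cur (p0 u) t 1 1) = la u 1 t 1 * _
      rw [h.l1 t ht, p_one1 tk h ht]; field_simp
    · change (0 : ℝ) = la u 2 t 1 * _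
      rw [h.l2 t ht, zero_mul]
  funext i
  rw [vF, key i, p_zero tk h ht, p_zero tk h ht, la_one tk h ht i]
  field_simp
  ring

theorem θd_FF (tk : S_TK) (h : QS a b u) (ht : t ∈ Ioo a b) (x : II) (i : Fin 3) :
    cur (θd u) t x i = FF (u t).2 (cur (p0 u) t) (cur (q0 u) t x i) (wv u t) i x := by
  have hp := h.pos t ht i x x.2
  have hk : HasDerivWithinAt (ka u i t) _ (Icc 0 1) x :=
    (tk.has_dx _ _ _ (tk.sm_dx _ _ _ (h.sth i)) t ht x x.2).div
      (me_deriv (u := u) i t x).hasDerivWithinAt hp.ne'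
  have hdx : dx (ka u i) t x = _ := hk.derivWithin (uniqueDiffOn_Icc zero_lt_one x x.2)
  rw [cur_apply (ct_θd tk h) ht, cur_apply (ct_q0 tk h) ht, θd, h.pde t ht i x x.2, hdx, FF,
    ← la_lamF tk h ht i x.2, Pf_eq tk h ht i x.2, q0, ka]
  change _ = _ / me u i t x ^ 2 - _ / me u i t x ^ 3 + _ / me u i t x
  field_simp
  ring

end C5Aux

open C5Aux in
theorem c5 : S_TK → S_REL → S_C5 := by
  intro tk rel K S _ hC a b t₀ τ u h ha hτ hb hU
  obtain ⟨r1, -, r3, -⟩ := rel S.M hC.m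
  have hm : ∀ s ∈ Ico 0 τ, t₀ + s ∈ Ioo a b := fun s hs =>
    ⟨by linarith [hs.1], by linarith [hs.2]⟩
  have hm' : ∀ s ∈ Ioo 0 τ, t₀ + s ∈ Ioo a b := fun s hs => hm s (Ioo_subset_Ico_self hs)
  have hU' : ∀ s ∈ Ioo 0 τ, (u (t₀ + s)).2 ∈ UU K := fun s hs => hU s (Ioo_subset_Icc_self hs)
  have hcont : ∀ f : Fin 3 → ℝ → ℝ → ℝ, (∀ i, Ct a b (f i)) →
      ContinuousOn (fun s => tL (cur f (t₀ + s))) (Ico 0 τ) := fun f hf =>
    tL.continuous.comp_continuousOn ((cur_cont hf).comp (by fun_prop) hm)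
  have hR1 : ∀ t ∈ Ioo a b, S.M.R1 (tL (cur (θ0 u) t)) (tL (cur (p0 u) t)) := fun t ht => by
    rw [θ_c1 tk h ht]
    exact r1 _ (by rw [JJ_p0 tk h ht, JJ_p1 tk h ht])
  have hR2 : ∀ t ∈ Ioo a b, S.M.R2 (tL (cur (p0 u) t)) (tL (cur (q0 u) t)) := fun t ht => by
    have := r3 (cur (p0 u) t 0) (tL (cur (q0 u) t))
      (by rw [p_zero tk h ht, p_zero tk h ht, p_zero tk h ht, ← add_mul, ← add_mul, h.j1 t ht,
        zero_mul])
      (by rw [← p_prim tk h ht]; exact p_one2 tk h ht)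
    rwa [← p_prim tk h ht] at this
  have hv : ∀ t ∈ Ioo a b, (u t).2 ∈ UU K →
      S.v (u t).2 (tL (cur (p0 u) t)) (tL (cur (q0 u) t)) = wv u t := fun t ht hL => by
    have := hC.tr.val 1 ⟨zero_lt_one, le_rfl⟩ (cur (p0 u) t 0) (tL (cur (q0 u) t))
    rw [← p_prim tk h ht] at this
    rw [hC.v _ hL _ _ this, wv_vF tk h ht]
  refine ⟨fun s => tL (cur (θ0 u) (t₀ + s)), fun s => tL (cur (p0 u) (t₀ + s)),
    fun s => tL (cur (q0 u) (t₀ + s)), ⟨fun s hs => ?_, fun s hs => hR1 _ (hm' s hs),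
      fun s hs => hR2 _ (hm' s hs), fun s hs => ?_, fun s hs => ?_⟩, hcont _ (ct_θ0 h),
    hcont _ (ct_p0 tk h), hcont _ (ct_q0 tk h), fun s hs => ⟨hR1 _ (hm s hs), ?_⟩⟩
  · rw [hC.u]; exact hU' s hs
  · rw [hv _ (hm' s hs) (hU' s hs)]
    exact hasDerivAt_pi.2 fun i => (L_deriv h (hm' s hs) i).comp_const_add t₀ s
  · rw [hv _ (hm' s hs) (hU' s hs),
      hC.F _ (hU' s hs) _ _ (cur (θd u) (t₀ + s)) _ (θd_FF tk h (hm' s hs))]
    have h1 := cur_deriv (ct_θ0 h) (ct_θd tk h)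
      (fun i t ht x hx => (tk.has_dt _ _ _ (h.sth i) t ht x hx).sub_const (θs i x)) (hm' s hs)
    exact tL.hasFDerivAt.comp_hasDerivAt s (h1.comp_const_add t₀ s)
  · refine Prod.ext ?_ rfl
    funext i x
    change θs i (pj x) + c1 (tL (cur (p0 u) (t₀ + s))) (pj x) i = _
    rw [← θ_c1 tk h (hm s hs), cur_apply (ct_θ0 h) (hm s hs), θ0, h.nrm _ (hm s hs) i x, th]
    ring

end Pool.Agent.P.MP_cf7202_gt
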