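import Pool.Agent.P.MP_cf7202_gt.DefCl

/-! Continuation of solutions of the quarter system under an a priori bound. -/

namespace Pool.Agent.P.MP_cf7202_gt

open Set Filter Topology Function Real
open scoped ContDiff

namespace CONTAux

theorem dt_eq {f g : ℝ → ℝ → ℝ} {a b c t : ℝ} (h : ∀ s ∈ Ioo a b, f s = g (s + c))
    (ht : t ∈ Ioo a b) (x : ℝ) : dt f t x = dt g (t + c) x := by
  have h1 : (fun s => f s x) =ᶠ[𝓝 t] fun s => g (s + c) x := by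
    filter_upwards [Ioo_mem_nhds ht.1 ht.2] with s hs
    rw [h s hs]
  rw [dt, dt, h1.deriv_eq]
  exact deriv_comp_add_const (fun s => g s x) c t

/-- restriction, time shift and change outside the interval -/
theorem transfer {a b a' b' c : ℝ} {u v : ℝ → St} (hu : QS a b u)
    (hs : ∀ t ∈ Ioo a' b', t + c ∈ Ioo a b) (h : ∀ t ∈ Ioo a' b', v t = u (t + c)) :
    QS a' b' v := by
  have hth : ∀ i, ∀ t ∈ Ioo a' b', th v i t = th u i (t + c) := fun i t ht => by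
    funext x; rw [th, th, h t ht]
  have hme : ∀ i, ∀ t ∈ Ioo a' b', me v i t = me u i (t + c) := fun i t ht => by
    funext x; rw [me, me, h t ht]
  have hka : ∀ i, ∀ t ∈ Ioo a' b', ka v i t = ka u i (t + c) := fun i t ht => by
    funext x; rw [ka, ka, dx, dx, hth i t ht, hme i t ht]
  have hla : ∀ i, ∀ t ∈ Ioo a' b', la v i t = la u i (t + c) := fun i t ht => by
    funext x
    simp only [la, hka _ t ht, hme _ t ht, dt_eq (hme i) ht]
  refine ⟨fun i => ?_, fun i => ?_, fun t ht => ?_, fun t ht i x hx => ?_,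
    fun t ht i x hx => ?_, fun t ht i => ?_, fun t ht => ?_, fun t ht => ?_, fun t ht => ?_,
    fun t ht => ?_, fun t ht => ?_, fun t ht => ?_, fun t ht => ?_⟩
  · have h1 : ContDiffOn ℝ ∞ (fun z : ℝ × ℝ => (z.1 + c, z.2)) (Ioo a' b' ×ˢ Icc 0 1) := by
      fun_prop
    refine ((hu.sth i).comp h1 fun z hz => ⟨hs _ hz.1, hz.2⟩).congr fun z hz => ?_
    exact congrFun (hth i z.1 hz.1) z.2
  · have h1 : ContDiffOn ℝ ∞ (fun t : ℝ => t + c) (Ioo a' b') := by fun_prop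
    refine ((hu.sL i).comp h1 hs).congr fun t ht => ?_
    simp only [h t ht, comp_apply]
  · rw [h t ht]; exact hu.nrm _ (hs t ht)
  · rw [hme i t ht]; exact hu.pos _ (hs t ht) i x hx
  · rw [dt_eq (hth i) ht, dx, hka i t ht, hme i t ht, hla i t ht]
    exact hu.pde _ (hs t ht) i x hx
  · rw [hth i t ht, hth 0 t ht]; exact hu.j0 _ (hs t ht) i
  · rw [hka 0 t ht, hka 1 t ht, hka 2 t ht]; exact hu.j1 _ (hs t ht)
  · rw [hth 0 t ht]; exact hu.e0 _ (hs t ht)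
  · rw [hth 1 t ht]; exact hu.e1 _ (hs t ht)
  · rw [hka 2 t ht]; exact hu.e2 _ (hs t ht)
  · rw [hla 0 t ht]; exact hu.l0 _ (hs t ht)
  · rw [hla 1 t ht, hka 1 t ht]; exact hu.l1 _ (hs t ht)
  · rw [hla 2 t ht]; exact hu.l2 _ (hs t ht)

theorem restr {a b a' b' : ℝ} {u v : ℝ → St} (hu : QS a b u) (hs : Ioo a' b' ⊆ Ioo a b)
    (h : ∀ t ∈ Ioo a' b', v t = u t) : QS a' b' v :=
  transfer (c := 0) hu (fun t ht => by rw [add_zero]; exact hs ht)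
    fun t ht => by rw [add_zero]; exact h t ht

/-- being a solution is a local property in time -/
theorem locality {a b : ℝ} {u : ℝ → St}
    (h : ∀ t ∈ Ioo a b, ∃ a' b', t ∈ Ioo a' b' ∧ QS a' b' u) : QS a b u := by
  choose! a' b' hm hq using h
  refine ⟨fun i z hz => ?_, fun i t ht => ?_, fun t ht => (hq t ht).nrm t (hm t ht),
    fun t ht => (hq t ht).pos t (hm t ht), fun t ht => (hq t ht).pde t (hm t ht),
    fun t ht => (hq t ht).j0 t (hm t ht), fun t ht => (hq t ht).j1 t (hm t ht),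
    fun t ht => (hq t ht).e0 t (hm t ht), fun t ht => (hq t ht).e1 t (hm t ht),
    fun t ht => (hq t ht).e2 t (hm t ht), fun t ht => (hq t ht).l0 t (hm t ht),
    fun t ht => (hq t ht).l1 t (hm t ht), fun t ht => (hq t ht).l2 t (hm t ht)⟩
  · refine ((hq z.1 hz.1).sth i z ⟨hm _ hz.1, hz.2⟩).mono_of_mem_nhdsWithin ?_
    refine mem_nhdsWithin.2 ⟨Ioo (a' z.1) (b' z.1) ×ˢ univ, isOpen_Ioo.prod isOpen_univ,
      ⟨hm _ hz.1, trivial⟩, fun w hw => ⟨hw.1.1, hw.2.2⟩⟩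
  · exact (((hq t ht).sL i).contDiffAt (Ioo_mem_nhds (hm t ht).1 (hm t ht).2)).contDiffWithinAt

theorem adm {a b t : ℝ} {u : ℝ → St} (hu : QS a b u) (ht : t ∈ Ioo a b) :
    ∃ K > 0, Adm K (u t) := by
  have hlo : ∀ i, ∀ᶠ K : ℝ in atTop, ∀ x ∈ Icc (0 : ℝ) 1, K⁻¹ ≤ mm (u t).2 i x := by
    intro i
    have hc : ContinuousOn (mm (u t).2 i) (Icc 0 1) := by
      unfold mm gg
      fun_prop
    obtain ⟨x₀, hx₀, hmin⟩ := isCompact_Icc.exists_isMinOn (nonempty_Icc.2 zero_le_one) hc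
    have h0 : 0 < mm (u t).2 i x₀ := hu.pos t ht i x₀ hx₀
    filter_upwards [tendsto_inv_atTop_zero.eventually (ge_mem_nhds h0)] with K hK x hx
    exact hK.trans (hmin hx)
  have h1 : ∀ᶠ K : ℝ in atTop, 0 < K ∧ Adm K (u t) := by
    filter_upwards [eventually_gt_atTop 0, eventually_all.2 hlo,
      eventually_all.2 fun i => eventually_ge_atTop
        (∫ x in (0 : ℝ)..1, derivWithin ((u t).1 i) (Icc 0 1) x ^ 2),
      eventually_all.2 fun i => eventually_ge_atTop |(u t).2 i|] with K h0 h1 h2 h3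
    refine ⟨h0, hu.nrm t ht, fun i => ?_, hu.j0 t ht, hu.e0 t ht, hu.e1 t ht, h2, h1, h3⟩
    have h4 : ContDiffOn ℝ ∞ (fun x : ℝ => (t, x)) (Icc 0 1) := by fun_prop
    exact ((hu.sth i).comp h4 fun x hx => ⟨ht, hx⟩).of_le (by exact_mod_cast le_top)
  exact h1.exists

theorem contOn {a b : ℝ} {u : ℝ → St} (hu : QS a b u) : ContinuousOn u (Ioo a b) := by
  refine ContinuousOn.prodMk (f := fun t => (u t).1) (g := fun t => (u t).2) ?_ ?_
  · refine continuousOn_pi.2 fun i => continuousOn_pi.2 fun x => ?_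
    have h4 : ContinuousOn (fun t : ℝ => (t, (projIcc (0 : ℝ) 1 zero_le_one x : ℝ)))
        (Ioo a b) := by fun_prop
    refine ((hu.sth i).continuousOn.comp h4 fun t ht => ⟨ht, Subtype.prop _⟩).congr
      fun t ht => ?_
    exact hu.nrm t ht i x
  · exact continuousOn_pi.2 fun i => (hu.sL i).continuousOn

/-- forward uniqueness -/
theorem uniq (ex : S_EX) {a b t₁ : ℝ} {u v : ℝ → St} (hu : QS a b u) (hv : QS a b v)
    (h₁ : t₁ ∈ Ioo a b) (h : u t₁ = v t₁) {t : ℝ} (ht : t ∈ Ico t₁ b) : u t = v t := by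
  have hsub : Icc t₁ t ⊆ Ioo a b := fun s hs => ⟨h₁.1.trans_le hs.1, hs.2.trans_lt ht.2⟩
  have hcl : IsClosed ({s | u s = v s} ∩ Icc t₁ t) := by
    rw [inter_comm]
    exact isClosed_Icc.isClosed_eq ((contOn hu).mono hsub) ((contOn hv).mono hsub)
  refine hcl.Icc_subset_of_forall_exists_gt h (fun x hx y hy => ?_) ⟨ht.1, le_rfl⟩
  have hx' : x ∈ Ioo a b := hsub ⟨hx.2.1, hx.2.2.le⟩
  obtain ⟨K, hK, hA⟩ := adm hu hx'
  obtain ⟨τ, -, hτ⟩ := ex K hK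
  obtain ⟨w, -, -, -, hw⟩ := hτ _ hA
  obtain ⟨ε₁, hε₁, e₁⟩ := hw a b x u hu hx' rfl
  obtain ⟨ε₂, hε₂, e₂⟩ := hw a b x v hv hx' hx.1.symm
  have hy' : 0 < y - x := sub_pos.2 hy
  have hm : 0 < min (min ε₁ ε₂) (y - x) := lt_min (lt_min hε₁ hε₂) hy'
  have m1 := (min_le_left (min ε₁ ε₂) (y - x)).trans (min_le_left ε₁ ε₂)
  have m2 := (min_le_left (min ε₁ ε₂) (y - x)).trans (min_le_right ε₁ ε₂)
  have m3 := min_le_right (min ε₁ ε₂) (y - x)
  refine ⟨x + min (min ε₁ ε₂) (y - x) / 2, ?_, by linarith, by linarith⟩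
  exact (e₁ _ ⟨by linarith, by linarith⟩).trans (e₂ _ ⟨by linarith, by linarith⟩).symm

theorem cont0 {e τ b : ℝ} {u u₀ : ℝ → St} (he : 0 < e) (heτ : e ≤ τ) (h₀ : Cont0 τ u₀)
    (hu : QS 0 b u) (h : EqOn u u₀ (Icc 0 e)) : Cont0 b u := by
  refine ⟨fun i => ?_, fun i => ?_⟩
  · refine continuousOn_of_locally_continuousOn fun z hz => ?_
    by_cases hz' : z.1 < e
    · refine ⟨Iio e ×ˢ univ, isOpen_Iio.prod isOpen_univ, ⟨hz', trivial⟩, ?_⟩
      refine ((h₀.cth i).mono fun w hw => ⟨⟨hw.1.1.1, lt_of_lt_of_le hw.2.1 heτ⟩, hw.1.2⟩).congr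
        fun w hw => ?_
      simp only [uncurry, th, h ⟨hw.1.1.1, le_of_lt hw.2.1⟩]
    · refine ⟨Ioi 0 ×ˢ univ, isOpen_Ioi.prod isOpen_univ,
        ⟨he.trans_le (not_lt.1 hz'), trivial⟩, ?_⟩
      exact (hu.sth i).continuousOn.mono fun w hw => ⟨⟨hw.2.1, hw.1.1.2⟩, hw.1.2⟩
  · refine continuousOn_of_locally_continuousOn fun z hz => ?_
    by_cases hz' : z < e
    · refine ⟨Iio e, isOpen_Iio, hz', ?_⟩
      refine ((h₀.cL i).mono fun w hw => ⟨hw.1.1, lt_of_lt_of_le hw.2 heτ⟩).congr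
        fun w hw => ?_
      simp only [h ⟨hw.1.1, le_of_lt hw.2⟩]
    · refine ⟨Ioi 0, isOpen_Ioi, he.trans_le (not_lt.1 hz'), ?_⟩
      exact (hu.sL i).continuousOn.mono fun w hw => ⟨hw.2, hw.1.2⟩

end CONTAux

open CONTAux

theorem cont : S_TK → S_EX → S_CONT := by
  intro _ ex T K₀ d hT hK₀ hd apr
  obtain ⟨τ₀, hτ₀, h₀⟩ := ex K₀ hK₀
  obtain ⟨u₀, hq₀, hc₀, hd₀, -⟩ := h₀ d hd
  have hm : 0 < min τ₀ T := lt_min hτ₀ hT
  have m1 := min_le_left τ₀ T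
  have m2 := min_le_right τ₀ T
  obtain ⟨e, he⟩ : ∃ e, e = min τ₀ T / 2 := ⟨_, rfl⟩
  have he0 : 0 < e := by linarith
  let S : Set ℝ := {T' | e < T' ∧ T' ≤ T ∧ ∃ u, QS 0 T' u ∧ EqOn u u₀ (Icc 0 e)}
  have hS0 : min τ₀ T ∈ S :=
    ⟨by linarith, m2, u₀, restr hq₀ (Ioo_subset_Ioo_right m1) fun _ _ => rfl, fun _ _ => rfl⟩
  have hbd : BddAbove S := ⟨T, fun s hs => hs.2.1⟩
  obtain ⟨Ts, hTs⟩ : ∃ Ts, Ts = sSup S := ⟨_, rfl⟩
  have hle : ∀ s ∈ S, s ≤ Ts := fun s hs => hTs ▸ le_csSup hbd hs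
  have heT : e < Ts := hS0.1.trans_le (hle _ hS0)
  have hTT : Ts ≤ T := hTs ▸ csSup_le ⟨_, hS0⟩ fun s hs => hs.2.1
  have hex : ∀ t < Ts, ∃ T' w, t < T' ∧ e < T' ∧ T' ≤ Ts ∧ QS 0 T' w ∧ EqOn w u₀ (Icc 0 e) := by
    intro t ht
    obtain ⟨T', hT', h1⟩ := exists_lt_of_lt_csSup ⟨_, hS0⟩ (hTs ▸ ht)
    obtain ⟨w, hw⟩ := hT'.2.2
    exact ⟨T', w, h1, hT'.1, hle _ hT', hw⟩
  choose! T' w h1 h2 h3 h4 h5 using hex
  let U : ℝ → St := fun t => w t t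
  have hUe : EqOn U u₀ (Icc 0 e) := fun t ht => h5 t (ht.2.trans_lt heT) ht
  have hU : QS 0 Ts U := by
    refine locality fun t ht => ⟨0, T' t, ⟨ht.1, h1 t ht.2⟩, restr (h4 t ht.2) subset_rfl ?_⟩
    intro s hs
    have hs' : s < Ts := hs.2.trans_le (h3 t ht.2)
    rcases le_total s e with hse | hse
    · exact (hUe ⟨hs.1.le, hse⟩).trans (h5 t ht.2 ⟨hs.1.le, hse⟩).symm
    · exact uniq ex (b := min (T' s) (T' t)) (t₁ := e)
        (restr (h4 s hs') (Ioo_subset_Ioo_right (min_le_left _ _)) fun _ _ => rfl)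
        (restr (h4 t ht.2) (Ioo_subset_Ioo_right (min_le_right _ _)) fun _ _ => rfl)
        ⟨he0, lt_min (h2 s hs') (h2 t ht.2)⟩
        ((h5 s hs' ⟨he0.le, le_rfl⟩).trans (h5 t ht.2 ⟨he0.le, le_rfl⟩).symm)
        ⟨hse, lt_min (h1 s hs') hs.2⟩
  have hUc : Cont0 Ts U := cont0 he0 (by linarith) hc₀ hU hUe
  have hU0 : U 0 = d := (hUe ⟨le_rfl, he0.le⟩).trans hd₀
  rcases hTT.eq_or_lt with h | h
  · exact ⟨U, h ▸ hU, h ▸ hUc, hU0⟩
  exfalso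
  have hTs0 : 0 < Ts := he0.trans heT
  obtain ⟨K, hK, hA⟩ := apr Ts U hTs0 h hU hUc hU0
  obtain ⟨τ, hτ, hτ'⟩ := ex K hK
  obtain ⟨t₀, ht₀⟩ : ∃ t₀, t₀ = max (max (Ts / 2) (Ts - τ / 2)) e := ⟨_, rfl⟩
  have n1 : Ts / 2 ≤ t₀ := ht₀ ▸ (le_max_left _ _).trans (le_max_left _ _)
  have n2 : Ts - τ / 2 ≤ t₀ := ht₀ ▸ (le_max_right _ _).trans (le_max_left _ _)
  have n3 : e ≤ t₀ := ht₀ ▸ le_max_right _ _
  have n4 : t₀ < Ts := ht₀ ▸ max_lt (max_lt (by linarith) (by linarith)) heT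
  obtain ⟨u₁, hq₁, -, -, hu₁⟩ := hτ' _ (hA t₀ ⟨n1, n4⟩)
  obtain ⟨ε, hε, hε'⟩ := hu₁ 0 Ts t₀ U hU ⟨by linarith, n4⟩ rfl
  obtain ⟨δ, hδ⟩ : ∃ δ, δ = min ε (Ts - t₀) / 2 := ⟨_, rfl⟩
  have p0 : 0 < min ε (Ts - t₀) := lt_min hε (by linarith)
  have p1 := min_le_left ε (Ts - t₀)
  have p2 := min_le_right ε (Ts - t₀)
  let V : ℝ → St := fun t => if t ≤ t₀ + δ then U t else u₁ (t + -t₀)
  have hV1 : QS 0 (t₀ + δ) V :=
    restr hU (Ioo_subset_Ioo_right (by linarith)) fun t ht => if_pos ht.2.le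
  have hV2 : QS t₀ (t₀ + τ) V := by
    refine transfer (c := -t₀) hq₁ (fun t ht => ⟨by linarith [ht.1], by linarith [ht.2]⟩)
      fun t ht => ?_
    by_cases h' : t ≤ t₀ + δ
    · have := hε' (t + -t₀) ⟨by linarith [ht.1], by linarith⟩
      rw [show t₀ + (t + -t₀) = t by ring] at this
      exact (if_pos h').trans this
    · exact if_neg h'
  have hlt : Ts < min (t₀ + τ) T := lt_min (by linarith) h
  have hmem : min (t₀ + τ) T ∈ S := by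
    refine ⟨heT.trans hlt, min_le_right _ _, V, locality fun t ht => ?_, fun t ht => ?_⟩
    · by_cases h' : t < t₀ + δ
      · exact ⟨_, _, ⟨ht.1, h'⟩, hV1⟩
      · exact ⟨_, _, ⟨by linarith, ht.2.trans_le (min_le_left _ _)⟩, hV2⟩
    · exact (if_pos (by linarith [ht.2])).trans (hUe ht)
  exact absurd (hle _ hmem) (not_le.2 hlt)

end Pool.Agent.P.MP_cf7202_gt
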