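import Pool.Agent.P.MP_cf7202_gt.DefFD

/-! Selection of the times and convergence of the three rescaled base curves. -/

namespace Pool.Agent.P.MP_cf7202_gt

open Set Filter Topology Function Real

namespace CONVAux

theorem ee_lip (a b : ℝ) : ‖ee a - ee b‖ ≤ 2 * |a - b| := by
  refine (Complex.norm_le_abs_re_add_abs_im _).trans ?_
  have h1 := Real.abs_cos_sub_cos_le a b
  have h2 := Real.abs_sin_sub_sin_le a b
  simp only [ee, Complex.sub_re, Complex.sub_im]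
  linarith

theorem near (σ : ℝ) (z : ℂ) (w : ℝ) : ‖σ⁻¹ • z - (w : ℂ)‖ ≤ |z.re / σ - w| + |z.im / σ| := by
  refine (Complex.norm_le_abs_re_add_abs_im _).trans (le_of_eq ?_)
  rw [Complex.sub_re, Complex.sub_im, Complex.smul_re, Complex.smul_im, Complex.ofReal_re,
    Complex.ofReal_im, sub_zero, smul_eq_mul, smul_eq_mul, div_eq_inv_mul, div_eq_inv_mul]

theorem slice {a b : ℝ} {f : ℝ → ℝ → ℝ} (h : Sm a b f) {t : ℝ} (ht : t ∈ Ioo a b) :
    ContinuousOn (f t) (Icc 0 1) :=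
  h.continuousOn.comp (Continuous.prodMk_right t).continuousOn fun _ hp => ⟨ht, hp⟩

theorem ii {f : ℝ → ℝ} (h : ContinuousOn f (Icc 0 1)) {p q : ℝ} (hp : p ∈ Icc (0 : ℝ) 1)
    (hq : q ∈ Icc (0 : ℝ) 1) : IntervalIntegrable f MeasureTheory.volume p q :=
  (h.mono (uIcc_subset_Icc hp hq)).intervalIntegrable

theorem int_nonneg {f : ℝ → ℝ} (h0 : ∀ p ∈ Icc (0 : ℝ) 1, 0 < f p) {p q : ℝ}
    (hp : p ∈ Icc (0 : ℝ) 1) (hq : q ∈ Icc (0 : ℝ) 1) (hpq : p ≤ q) : 0 ≤ ∫ y in p..q, f y :=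
  intervalIntegral.integral_nonneg hpq fun y hy => (h0 y ⟨hp.1.trans hy.1, hy.2.trans hq.2⟩).le

theorem int_mono {f : ℝ → ℝ} (h : ContinuousOn f (Icc 0 1)) (h0 : ∀ p ∈ Icc (0 : ℝ) 1, 0 < f p)
    {p q : ℝ} (hp : p ∈ Icc (0 : ℝ) 1) (hq : q ∈ Icc (0 : ℝ) 1) (hpq : p ≤ q) :
    ∫ y in (0 : ℝ)..p, f y ≤ ∫ y in (0 : ℝ)..q, f y := by
  have h1 := intervalIntegral.integral_add_adjacent_intervals
    (ii h (left_mem_Icc.mpr zero_le_one) hp) (ii h hp hq)
  have h2 := int_nonneg h0 hp hq hpq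
  linarith

variable (D : FD)

theorem sig_pos {t : ℝ} (ht : t < D.T) : 0 < D.σ t := by
  rw [D.hσ]; exact Real.sqrt_pos.mpr (by linarith)

theorem mem {t : ℝ} (ht : t ∈ Ico 0 D.T) : t ∈ Ioo D.a D.T := ⟨D.ha.trans_le ht.1, ht.2⟩

theorem seq (loc : S_LOC) : ∃ (t : ℕ → ℝ) (r l : ℝ), Seq D t r l := by
  have h1 : ∀ j : ℕ, max 0 (D.T - 1 / ((j : ℝ) + 1)) ∈ Ioo D.a D.T := fun j =>
    ⟨D.ha.trans_le (le_max_left _ _), max_lt D.hT (sub_lt_self _ Nat.one_div_pos_of_nat)⟩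
  choose t0 ht0 hd using fun j : ℕ => D.diss (1 / ((j : ℝ) + 1)) Nat.one_div_pos_of_nat _ (h1 j)
  have hI : ∀ j, t0 j ∈ Ico 0 D.T := fun j =>
    ⟨(le_max_left _ _).trans (ht0 j).1.le, (ht0 j).2⟩
  have hz : Tendsto (fun j : ℕ => 1 / ((j : ℝ) + 1)) atTop (𝓝 0) :=
    tendsto_one_div_add_atTop_nhds_zero_nat
  have hlim : Tendsto t0 atTop (𝓝 D.T) := by
    refine tendsto_of_tendsto_of_tendsto_of_le_of_le (g := fun j : ℕ => D.T - 1 / ((j : ℝ) + 1))
      (h := fun _ => D.T) ?_ tendsto_const_nhds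
      (fun j => (le_max_right _ _).trans (ht0 j).1.le) fun j => (ht0 j).2.le
    simpa using hz.const_sub D.T
  have hσ : Tendsto (fun j => D.σ (t0 j)) atTop (𝓝 0) := by
    simp only [D.hσ]
    have := ((hlim.const_sub D.T).const_mul 2).sqrt
    simpa using this
  have hp : ∀ j, 0 < D.σ (t0 j) := fun j => sig_pos D (hI j).2
  have hh : Tendsto (fun j => D.h (t0 j) / D.σ (t0 j)) atTop (𝓝 0) := by
    have h2 : Tendsto (fun j => D.σ (t0 j) ^ (1 / 32 : ℝ) / 1000) atTop (𝓝 0) := by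
      have := (hσ.rpow_const (p := 1 / 32) (Or.inr (by norm_num))).div_const 1000
      rwa [Real.zero_rpow (by norm_num), zero_div] at this
    refine squeeze_zero (fun j => div_nonneg (D.hpos _ (mem D (hI j))).le (hp j).le) (fun j => ?_) h2
    have h3 := D.hle _ (mem D (hI j))
    rw [Real.rpow_add (hp j), Real.rpow_one] at h3
    rw [div_le_iff₀ (hp j)]
    linarith
  obtain ⟨⟨r, l⟩, -, ψ, hψ, hc⟩ := (isCompact_Icc.prod isCompact_Icc).tendsto_subseq
    (x := fun j => (D.ξ (t0 j) / D.σ (t0 j), (D.σ (t0 j))⁻¹ * ∫ q in (0 : ℝ)..1, D.m 0 (t0 j) q))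
    (s := Icc (0 : ℝ) 12 ×ˢ Icc (0 : ℝ) 48) fun j => by
      have h2 := D.ξb _ (mem D (hI j))
      have h3 := (loc D _ (mem D (hI j))).len0
      have h4 := int_nonneg ((D.mc 0).pos _ (mem D (hI j))) (left_mem_Icc.mpr zero_le_one)
        (right_mem_Icc.mpr zero_le_one) zero_le_one
      have h5 := hp j
      refine ⟨⟨div_nonneg (by linarith) h5.le, (div_le_iff₀ h5).mpr h2.2⟩, by positivity, ?_⟩
      rw [← div_eq_inv_mul, div_le_iff₀ h5]
      exact h3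
  have hψ' := hψ.tendsto_atTop
  have hξ : Tendsto (fun j => D.ξ (t0 (ψ j)) / D.σ (t0 (ψ j))) atTop (𝓝 r) :=
    (continuous_fst.tendsto _).comp hc
  refine ⟨fun j => t0 (ψ j), r, l, fun j => hI _, hlim.comp hψ', hξ, ?_, hh.comp hψ', hσ.comp hψ',
    (continuous_snd.tendsto _).comp hc, ?_⟩
  · have h2 : Tendsto (fun j => (D.ζ (t0 j) - D.ξ (t0 j)) / D.σ (t0 j)) atTop (𝓝 0) := by
      refine squeeze_zero_norm (fun j => ?_) hh
      rw [Real.norm_eq_abs, abs_div, abs_of_pos (hp j)]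
      exact div_le_div_of_nonneg_right (loc D _ (mem D (hI j))).ζ.1 (hp j).le
    have h3 := (h2.comp hψ').add hξ
    rw [zero_add] at h3
    exact h3.congr fun j => by simp only [comp_apply]; ring
  · refine squeeze_zero (fun j => intervalIntegral.integral_nonneg zero_le_one fun y hy => ?_)
      (fun j => hd (ψ j)) (hz.comp hψ')
    exact mul_nonneg (abs_nonneg _) ((D.mc 0).pos _ (mem D (hI _)) y hy).le

variable {D} {t : ℕ → ℝ} {r l : ℝ}

theorem small {f : ℕ → ℝ} (h : Tendsto f atTop (𝓝 0)) {δ : ℝ} (hδ : 0 < δ) :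
    ∀ᶠ j in atTop, f j ≤ δ := h.eventually_le_const hδ

theorem xi_lim (hs : Seq D t r l) :
    Tendsto (fun j => |D.ξ (t j) / D.σ (t j) - r|) atTop (𝓝 0) := by
  simpa using (hs.ξ.sub_const r).abs

theorem conv0 (loc : S_LOC) (gr : S_GR) (hs : Seq D t r l) {c : ℝ → ℂ} {Φ : ℝ → ℝ}
    (h0 : c 0 = r) (h1 : Φ 0 = 2 * π / 3) (hc : ∀ s, HasDerivAt c (ee (Φ s)) s)
    (hΦ : ∀ s, HasDerivAt Φ ((c s).re * sin (Φ s) - (c s).im * cos (Φ s)) s) : Conv D t 0 c := by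
  intro S ε hε
  obtain ⟨δ, hδ, H⟩ := gr c Φ hc hΦ 48 (ε / 2) (half_pos hε)
  have e1 : Tendsto (fun j => |D.ξ (t j) / D.σ (t j) - r| + D.h (t j) / D.σ (t j)) atTop (𝓝 0) := by
    simpa using (xi_lim hs).add hs.h
  have e2 : Tendsto (fun j => 10 * (D.h (t j) / D.σ (t j))) atTop (𝓝 0) := by
    simpa using hs.h.const_mul 10
  filter_upwards [small e1 hδ, small e2 hδ, small hs.diss hδ] with j a1 a2 a3 p hp _
  have ht := mem D (hs.times j)
  have hσ := sig_pos D ht.2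
  have M := D.mc 0
  have z0 : (0 : ℝ) ∈ Icc (0 : ℝ) 1 := left_mem_Icc.mpr zero_le_one
  have key := H (fun p => (D.σ (t j))⁻¹ • D.X 0 (t j) p) (D.φ 0 (t j))
    (fun p => (D.σ (t j))⁻¹ * D.m 0 (t j) p) (fun p => D.σ (t j) * D.κ 0 (t j) p)
    (continuousOn_const.mul (slice M.sm ht)) (continuousOn_const.mul (slice M.sκ ht))
    (fun p hp => mul_pos (inv_pos.mpr hσ) (M.pos _ ht p hp))
    (fun p hp => by rw [mul_smul]; exact (M.Xp _ ht p hp).const_smul (D.σ (t j))⁻¹)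
    (fun p hp => by convert M.φp _ ht p hp using 1; field_simp)
    (by
      rw [intervalIntegral.integral_const_mul, ← div_eq_inv_mul, div_le_iff₀ hσ]
      exact (loc D _ ht).len0)
    (by
      rw [h0, D.start 0 _ ht]
      refine (near _ _ _).trans ?_
      rwa [abs_of_pos (div_pos (D.hpos _ ht) hσ)])
    (by
      have b1 := D.φ2 _ ht 0 z0
      have b2 := (D.r2 _ ht 0 z0).1
      rw [D.start 2 _ ht] at b1
      rw [h1, D.ang0 _ ht, add_sub_cancel_right, abs_of_nonneg b2]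
      refine b1.trans (le_of_eq_of_le ?_ a2)
      ring)
    (by
      refine le_of_eq_of_le (intervalIntegral.integral_congr fun q _ => ?_) a3
      have b1 : D.σ (t j) * D.κ 0 (t j) q + (((D.σ (t j))⁻¹ • D.X 0 (t j) q).im
          * cos (D.φ 0 (t j) q) - ((D.σ (t j))⁻¹ • D.X 0 (t j) q).re * sin (D.φ 0 (t j) q)) =
          D.σ (t j) * (D.κ 0 (t j) q + ((D.X 0 (t j) q).im * cos (D.φ 0 (t j) q)
            - (D.X 0 (t j) q).re * sin (D.φ 0 (t j) q)) / D.σ (t j) ^ 2) := by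
        rw [Complex.smul_im, Complex.smul_re, smul_eq_mul, smul_eq_mul]
        field_simp
      simp only [b1, abs_mul, abs_of_pos hσ]
      field_simp) p hp
  rw [intervalIntegral.integral_const_mul] at key
  refine ⟨key.1.trans (half_le_self hε.le), ?_⟩
  rw [(hc _).deriv]
  exact (ee_lip _ _).trans (by linarith [key.2])

theorem conv1 (loc : S_LOC) (hs : Seq D t r l) {c : ℝ → ℂ} {Φ : ℝ → ℝ}
    (h0 : c 0 = r) (h1 : Φ 0 = 4 * π / 3) (hc : ∀ s, HasDerivAt c (ee (Φ s)) s)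
    (hΦ : ContinuousAt Φ 0) : Conv D t 1 c := by
  intro S ε hε
  obtain ⟨δ1, hδ1, H1⟩ := Metric.continuousAt_iff.mp (hc 0).continuousAt (ε / 2) (half_pos hε)
  obtain ⟨δ2, hδ2, H2⟩ := Metric.continuousAt_iff.mp hΦ (ε / 4) (by positivity)
  have e1 : Tendsto (fun j => |D.ξ (t j) / D.σ (t j) - r| + 2 * (D.h (t j) / D.σ (t j))) atTop
      (𝓝 0) := by simpa using (xi_lim hs).add (hs.h.const_mul 2)
  have e2 : Tendsto (fun j => 10 * (D.h (t j) / D.σ (t j))) atTop (𝓝 0) := by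
    simpa using hs.h.const_mul 10
  filter_upwards [small e1 (half_pos hε), small e2 (show 0 < ε / 4 by positivity),
    small e2 (lt_min hδ1 hδ2)] with j a1 a2 a3 p hp _
  have ht := mem D (hs.times j)
  have hσ := sig_pos D ht.2
  have hh := D.hpos _ ht
  have hq := div_pos hh hσ
  have M := D.mc 1
  have L := loc D _ ht
  have z0 : (0 : ℝ) ∈ Icc (0 : ℝ) 1 := left_mem_Icc.mpr zero_le_one
  have z1 : (1 : ℝ) ∈ Icc (0 : ℝ) 1 := right_mem_Icc.mpr zero_le_one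
  set s := (D.σ (t j))⁻¹ * ∫ q in (0 : ℝ)..p, D.m 1 (t j) q with hsdef
  have s0 : 0 ≤ s := mul_nonneg (inv_pos.mpr hσ).le (int_nonneg (M.pos _ ht) z0 hp hp.1)
  have s1 : s ≤ 2 * (D.h (t j) / D.σ (t j)) := by
    rw [hsdef, ← div_eq_inv_mul, ← mul_div_assoc]
    exact div_le_div_of_nonneg_right
      ((int_mono (slice M.sm ht) (M.pos _ ht) hp z1 hp.2).trans L.len1) hσ.le
  have s2 : dist s 0 < min δ1 δ2 := by
    rw [Real.dist_eq, sub_zero, abs_of_nonneg s0]; linarith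
  have b1 := H1 (s2.trans_le (min_le_left _ _))
  have b2 := H2 (s2.trans_le (min_le_right _ _))
  rw [h0, dist_comm, dist_eq_norm] at b1
  rw [h1, Real.dist_eq, abs_lt] at b2
  constructor
  · have y0 : (D.X 1 (t j) p).im ≤ D.h (t j) := by
      have := L.a1.antitoneOn z0 hp hp.1
      simpa only [D.start 1 _ ht] using this
    have y1 : 0 ≤ (D.X 1 (t j) p).im := by
      have := L.a1.antitoneOn hp z1 hp.2
      simpa only [D.end1 _ ht] using this
    have x0 : |(D.X 1 (t j) p).re / D.σ (t j) - D.ξ (t j) / D.σ (t j)| ≤ D.h (t j) / D.σ (t j) := by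
      rw [← sub_div, abs_div, abs_of_pos hσ]
      exact div_le_div_of_nonneg_right (D.x1 _ ht p hp) hσ.le
    have y2 : |(D.X 1 (t j) p).im / D.σ (t j)| ≤ D.h (t j) / D.σ (t j) := by
      rw [abs_of_nonneg (div_nonneg y1 hσ.le)]
      exact div_le_div_of_nonneg_right y0 hσ.le
    have b3 := near (D.σ (t j)) (D.X 1 (t j) p) r
    have b4 := abs_sub_le ((D.X 1 (t j) p).re / D.σ (t j)) (D.ξ (t j) / D.σ (t j)) r
    have b5 := norm_sub_le_norm_sub_add_norm_sub ((D.σ (t j))⁻¹ • D.X 1 (t j) p) (r : ℂ) (c s)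
    linarith
  · rw [(hc _).deriv]
    refine (ee_lip _ _).trans ?_
    have b3 := D.φ1 _ ht p hp
    have b4 := (D.r1 _ ht p hp).1
    have b5 : 10 / D.σ (t j) * D.h (t j) = 10 * (D.h (t j) / D.σ (t j)) := by ring
    have b6 : |D.φ 1 (t j) p - Φ s| ≤ ε / 2 := abs_le.mpr ⟨by linarith, by linarith⟩
    linarith

theorem conv2 (tk : S_TK) (loc : S_LOC) (hs : Seq D t r l) :
    Conv D t 2 fun s => ((r + s : ℝ) : ℂ) := by
  intro S ε hε
  have e0 : Tendsto (fun j => D.h (t j) / D.σ (t j) * exp (20 * S)) atTop (𝓝 0) := by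
    simpa using hs.h.mul_const (exp (20 * S))
  have e1 : Tendsto (fun j => |D.ξ (t j) / D.σ (t j) - r| +
      10 * (D.h (t j) / D.σ (t j) * exp (20 * S)) * S + D.h (t j) / D.σ (t j) * exp (20 * S))
      atTop (𝓝 0) := by simpa using ((xi_lim hs).add ((e0.const_mul 10).mul_const S)).add e0
  have e2 : Tendsto (fun j => 20 * (D.h (t j) / D.σ (t j) * exp (20 * S))) atTop (𝓝 0) := by
    simpa using e0.const_mul 20
  filter_upwards [small e1 hε, small e2 hε] with j a1 a2 p hp hS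
  have ht := mem D (hs.times j)
  have hσ := sig_pos D ht.2
  have hh := D.hpos _ ht
  have M := D.mc 2
  have L := loc D _ ht
  have z0 : (0 : ℝ) ∈ Icc (0 : ℝ) 1 := left_mem_Icc.mpr zero_le_one
  have cm := slice M.sm ht
  have cc : ContinuousOn (fun q => D.m 2 (t j) q * cos (D.φ 2 (t j) q)) (Icc 0 1) :=
    cm.mul (continuous_cos.comp_continuousOn (slice M.sφ ht))
  set η := D.h (t j) / D.σ (t j) * exp (20 * S) with hη
  have η0 : 0 ≤ η := by positivity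
  have hy : ∀ q ∈ Icc (0 : ℝ) p, (D.X 2 (t j) q).im / D.σ (t j) ≤ η := fun q hq => by
    have hq' : q ∈ Icc (0 : ℝ) 1 := ⟨hq.1, hq.2.trans hp.2⟩
    have b1 := (L.x2 q hq').2.trans (int_mono cm (M.pos _ ht) hq' hp hq.2)
    have b2 : 20 / D.σ (t j) * ((D.X 2 (t j) q).re - D.ξ (t j)) ≤ 20 * S := by
      have := (mul_le_mul_of_nonneg_left b1 (inv_pos.mpr hσ).le).trans hS
      rw [div_eq_mul_inv, mul_assoc]
      linarith
    rw [hη, div_mul_eq_mul_div]
    exact div_le_div_of_nonneg_right ((D.y2 _ ht q hq').trans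
      (mul_le_mul_of_nonneg_left (exp_le_exp.mpr b2) hh.le)) hσ.le
  have hφ : ∀ q ∈ Icc (0 : ℝ) p, |D.φ 2 (t j) q - 0| ≤ 10 * η := fun q hq => by
    have hq' : q ∈ Icc (0 : ℝ) 1 := ⟨hq.1, hq.2.trans hp.2⟩
    have b1 := D.φ2 _ ht q hq'
    have b2 := hy q hq
    have b3 : 10 / D.σ (t j) * (D.X 2 (t j) q).im = 10 * ((D.X 2 (t j) q).im / D.σ (t j)) := by ring
    rw [sub_zero, abs_of_nonneg (D.r2 _ ht q hq').1]
    linarith
  have hp' : p ∈ Icc (0 : ℝ) p := right_mem_Icc.mpr hp.1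
  constructor
  · have f1 := tk.ftc (fun q => (D.X 2 (t j) q).re) _ cc (fun q hq => by
      have := Complex.reCLM.hasFDerivAt.comp_hasDerivWithinAt q (M.Xp _ ht q hq)
      have e : Complex.reCLM (D.m 2 (t j) q • ee (D.φ 2 (t j) q)) =
          D.m 2 (t j) q * cos (D.φ 2 (t j) q) := by simp [ee]
      rw [e] at this
      exact this) p hp
    have f2 : ∫ q in (0 : ℝ)..p, (1 - 10 * η) * D.m 2 (t j) q ≤
        ∫ q in (0 : ℝ)..p, D.m 2 (t j) q * cos (D.φ 2 (t j) q) := by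
      refine intervalIntegral.integral_mono_on hp.1 (ii (continuousOn_const.mul cm) z0 hp)
        (ii cc z0 hp) fun q hq => ?_
      have b1 := (abs_le.mp ((Real.abs_cos_sub_cos_le _ _).trans (hφ q hq))).1
      rw [cos_zero] at b1
      rw [mul_comm]
      exact mul_le_mul_of_nonneg_left (by linarith) (M.pos _ ht q ⟨hq.1, hq.2.trans hp.2⟩).le
    rw [intervalIntegral.integral_const_mul, f1, D.start 2 _ ht] at f2
    have f3 := (L.x2 p hp).2
    set I := ∫ q in (0 : ℝ)..p, D.m 2 (t j) q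
    have x0 : |(D.X 2 (t j) p).re / D.σ (t j) - (D.ξ (t j) / D.σ (t j) + (D.σ (t j))⁻¹ * I)|
        ≤ 10 * η * S := by
      have b1 : (D.X 2 (t j) p).re / D.σ (t j) - (D.ξ (t j) / D.σ (t j) + (D.σ (t j))⁻¹ * I) =
          -((D.σ (t j))⁻¹ * (I - ((D.X 2 (t j) p).re - D.ξ (t j)))) := by ring
      have b2 : I - ((D.X 2 (t j) p).re - D.ξ (t j)) ≤ 10 * η * I := by
        simp only at f2; linarith
      rw [b1, abs_neg, abs_of_nonneg (mul_nonneg (inv_pos.mpr hσ).le (by linarith))]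
      refine (mul_le_mul_of_nonneg_left b2 (inv_pos.mpr hσ).le).trans ?_
      rw [mul_left_comm]
      exact mul_le_mul_of_nonneg_left hS (by positivity)
    have y1 : 0 ≤ (D.X 2 (t j) p).im := by
      have := L.a2' z0 hp hp.1
      simp only [D.start 2 _ ht] at this
      linarith
    have b3 := near (D.σ (t j)) (D.X 2 (t j) p) (r + (D.σ (t j))⁻¹ * I)
    have b4 := abs_sub_le ((D.X 2 (t j) p).re / D.σ (t j))
      (D.ξ (t j) / D.σ (t j) + (D.σ (t j))⁻¹ * I) (r + (D.σ (t j))⁻¹ * I)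
    rw [add_sub_add_right_eq_sub] at b4
    rw [abs_of_nonneg (div_nonneg y1 hσ.le)] at b3
    linarith [hy p hp']
  · have d1 : ∀ s : ℝ, deriv (fun s : ℝ => ((r + s : ℝ) : ℂ)) s = ee 0 := fun s => by
      have := (((hasDerivAt_id s).const_add r).ofReal_comp).deriv
      rw [show ee 0 = ((1 : ℝ) : ℂ) by simp [ee, Complex.ext_iff]]
      exact this
    rw [d1]
    exact (ee_lip _ _).trans (by linarith [hφ p hp'])

end CONVAux

open CONVAux in
theorem conv : S_TK → S_LOC → S_ODE → S_GR → S_CONV := by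
  intro tk loc ode gr D
  obtain ⟨t, r, l, hs⟩ := seq D loc
  obtain ⟨c₀, Φ₀, a1, a2, a3, a4, a5⟩ := ode r (2 * π / 3)
  obtain ⟨c₁, Φ₁, b1, b2, b3, b4, b5⟩ := ode r (4 * π / 3)
  exact ⟨t, r, l, c₀, c₁, hs, a5, b5, conv0 loc gr hs a1 a2 a3 a4,
    conv1 loc hs b1 b2 b3 (b4 0).continuousAt, conv2 tk loc hs⟩

end Pool.Agent.P.MP_cf7202_gt
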