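import Pool.Agent.P.MP_cf7202_gt.Ops

/-! Abstract existence theory: a parabolic equation in a Hilbert space coupled with an ordinary
differential equation driven by boundary traces. -/

namespace Pool.Agent.P.MP_cf7202_gt

open Set Filter Topology Function MeasureTheory
open scoped ContDiff ENNReal

/-- two orthonormal families `e`, `et` with `e' = om et`, `et' = -om e`; `e` is total and `et`
together with `z` is total -/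
structure Modes (H : Type) [NormedAddCommGroup H] [InnerProductSpace ℝ H] (K : Type) where
  e : K → H
  et : K → H
  z : H
  om : K → ℝ
  oe : Orthonormal ℝ e
  oet : Orthonormal ℝ et
  oz : ∀ k, inner ℝ z (et k) = 0
  te : ∀ h : H, (∀ k, inner ℝ (e k) h = 0) → h = 0
  tet : ∀ h : H, (∀ k, inner ℝ (et k) h = 0) → inner ℝ z h = 0 → h = 0

section
variable {H : Type} [NormedAddCommGroup H] [InnerProductSpace ℝ H] {K : Type}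

/-- `h1` is the derivative of `h0`, which satisfies the Dirichlet type boundary conditions -/
def Modes.R1 (M : Modes H K) (h0 h1 : H) : Prop :=
  (∀ k, inner ℝ (M.et k) h1 = M.om k * inner ℝ (M.e k) h0) ∧ inner ℝ M.z h1 = 0

/-- `h2` is the derivative of `h1`, which satisfies the Neumann type boundary conditions -/
def Modes.R2 (M : Modes H K) (h1 h2 : H) : Prop :=
  ∀ k, inner ℝ (M.e k) h2 = -(M.om k * inner ℝ (M.et k) h1)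

end

/-- the scalar equation `a' = g - l a` -/
def S_SC : Prop :=
  ∀ l : ℝ, 0 ≤ l → ∃ (KK : L2 ℝ →L[ℝ] C(II, ℝ)) (EE : C(II, ℝ)),
    (∀ g t, KK g t = JJ (g - l • tL (KK g)) t) ∧ (∀ g t, 2 * l * KK g t ^ 2 ≤ ‖g‖ ^ 2) ∧
    (∀ g, l * ‖tL (KK g)‖ ≤ ‖g‖) ∧
    (∀ t, EE t = 1 + JJ (-(l • tL EE)) t) ∧ (∀ t, |EE t| ≤ 1) ∧ 2 * l * ‖tL EE‖ ^ 2 ≤ 1 ∧
    ∀ (a : C(II, ℝ)) (a0 : ℝ) (g : L2 ℝ), (∀ t, a t = a0 + JJ (g - l • tL a) t) →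
      a = a0 • EE + KK g

/-- maximal regularity in `L²` with constant one, in rescaled form -/
def S_MR : Prop :=
  ∀ (H : Type) [NormedAddCommGroup H] [InnerProductSpace ℝ H] [CompleteSpace H] (K : Type)
    [Countable K] (M : Modes H K) (b : ℝ), 0 < b →
    ∃ (S1 : L2 H →L[ℝ] C(II, H)) (S2 : L2 H →L[ℝ] L2 H), (∀ g, ‖S1 g‖ ≤ ‖g‖) ∧
      (∀ g, ‖S2 g‖ ≤ ‖g‖) ∧ ∀ h0 h1 : H, M.R1 h0 h1 →
      ∃ (U1 : C(II, H)) (U2 : L2 H), ‖U1‖ ≤ ‖h1‖ ∧ ‖U2‖ ≤ ‖h1‖ ∧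
        (∀ g, (U1 + S1 g) 0 = h1 ∧
          (∀ t, M.R1 (h0 + b • JJ (U2 + S2 g + g) t) ((U1 + S1 g) t)) ∧
          ∀ᵐ t : II, M.R2 (b • (U1 + S1 g) t) ((U2 + S2 g) t)) ∧
        ∀ (D1 : C(II, H)) (D2 g : L2 H), (∀ t, M.R1 (h0 + b • JJ (D2 + g) t) (D1 t)) →
          (∀ᵐ t : II, M.R2 (b • D1 t) (D2 t)) → D1 = U1 + S1 g ∧ D2 = U2 + S2 g

/-- bounded and Lipschitz on a set -/
def BL {X Y : Type} [NormedAddCommGroup X] [NormedAddCommGroup Y] (S : Set X) (F : X → Y) : Prop :=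
  ∃ C : ℝ, 0 ≤ C ∧ (∀ x ∈ S, ‖F x‖ ≤ C) ∧ ∀ x ∈ S, ∀ y ∈ S, ‖F x - F y‖ ≤ C * ‖x - y‖

/-- composition with a smooth map is smooth on spaces of continuous functions -/
def S_NEM : Prop :=
  ∀ (X Y : Type) [NormedAddCommGroup X] [NormedSpace ℝ X] [NormedAddCommGroup Y]
    [NormedSpace ℝ Y] (U : Set X) (G : X → Y), IsOpen U → ContDiffOn ℝ ∞ G U →
    IsOpen {u : C(II, X) | ∀ t, u t ∈ U} ∧
    ∃ N : C(II, X) → C(II, Y), ContDiffOn ℝ ∞ N {u | ∀ t, u t ∈ U} ∧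
      ∀ u : C(II, X), (∀ t, u t ∈ U) → ∀ t, N u t = G (u t)

/-- smooth dependence of the fixed point of a contraction on a parameter -/
def S_FIX : Prop :=
  ∀ (X : Type) [NormedAddCommGroup X] [NormedSpace ℝ X] [CompleteSpace X] (Φ : ℝ × X → X)
    (a b R q : ℝ), 0 < R → 0 ≤ q → q < 1 →
    ContDiffOn ℝ ∞ Φ (Ioo a b ×ˢ Metric.ball 0 (2 * R)) →
    (∀ μ ∈ Ioo a b, ∀ x ∈ Metric.ball (0 : X) (2 * R), ∀ y ∈ Metric.ball (0 : X) (2 * R),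
      ‖Φ (μ, x) - Φ (μ, y)‖ ≤ q * ‖x - y‖) →
    (∀ μ ∈ Ioo a b, ∀ x : X, ‖x‖ ≤ R → ‖Φ (μ, x)‖ ≤ R) →
    ∃ z : ℝ → X, ContDiffOn ℝ ∞ z (Ioo a b) ∧ ∀ μ ∈ Ioo a b, ‖z μ‖ ≤ R ∧ Φ (μ, z μ) = z μ

/-- the data of the abstract system -/
structure Sys (H V Y K : Type) [NormedAddCommGroup H] [InnerProductSpace ℝ H]
    [NormedAddCommGroup V] [NormedSpace ℝ V] [NormedAddCommGroup Y] [NormedSpace ℝ Y] where
  M : Modes H K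
  U : Set V
  A : V → H →L[ℝ] H
  N0 : V × H → H
  N1 : V × H → V →L[ℝ] H
  W : V → Y →L[ℝ] V
  W0 : V × H → V
  T1 : ℝ → H →L[ℝ] Y
  T2 : ℝ → H →L[ℝ] Y
  c : ℝ
  γ : ℝ
  CT : ℝ
  hc : 0 < c
  hγ : 0 < γ
  hγ1 : γ ≤ 1
  hCT : 0 ≤ CT
  oU : IsOpen U
  sA : ContDiffOn ℝ ∞ A U
  sN0 : ContDiffOn ℝ ∞ N0 (U ×ˢ univ)
  sN1 : ContDiffOn ℝ ∞ N1 (U ×ˢ univ)
  sW : ContDiffOn ℝ ∞ W U
  sW0 : ContDiffOn ℝ ∞ W0 (U ×ˢ univ)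
  bA : BL U A
  bN0 : ∀ R, BL (U ×ˢ Metric.closedBall 0 R) N0
  bN1 : ∀ R, BL (U ×ˢ Metric.closedBall 0 R) N1
  bW : BL U W
  bW0 : ∀ R, BL (U ×ˢ Metric.closedBall 0 R) W0
  hA : ∀ L ∈ U, ∀ μ ∈ Icc (1 / 2 : ℝ) 2, ∀ h : H, ‖(μ / c) • A L h - h‖ ≤ (1 - γ) * ‖h‖
  hT1 : ∀ δ ∈ Ioc (0 : ℝ) 1, ∀ h : H, δ * ‖T1 δ h‖ ≤ CT * ‖h‖
  hT2 : ∀ δ ∈ Ioc (0 : ℝ) 1, ∀ h : H, ‖T2 δ h‖ ≤ CT * δ * ‖h‖
  hT : ∀ δ ∈ Ioc (0 : ℝ) 1, ∀ h1 h2 : H, M.R2 h1 h2 → T1 δ h1 + T2 δ h2 = T1 1 h1 + T2 1 h2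

namespace Sys

variable {H V Y K : Type} [NormedAddCommGroup H] [InnerProductSpace ℝ H]
  [NormedAddCommGroup V] [NormedSpace ℝ V] [NormedAddCommGroup Y] [NormedSpace ℝ Y]
  (S : Sys H V Y K)

/-- right hand side of the ordinary differential equation -/
noncomputable def v (L : V) (h1 h2 : H) : V := S.W L (S.T1 1 h1 + S.T2 1 h2) + S.W0 (L, h1)

/-- right hand side of the parabolic equation -/
noncomputable def F (L : V) (h1 h2 : H) (w : V) : H := S.A L h2 + S.N0 (L, h1) + S.N1 (L, h1) w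

/-- rescaled right hand side of the ordinary differential equation -/
noncomputable def vh (ε : ℝ) (L : V) (h1 h2 : H) : V :=
  S.W L (ε ^ 2 • S.T1 ε h1 + S.T2 ε h2) + ε ^ 2 • S.W0 (L, h1)

/-- rescaled right hand side of the parabolic equation -/
noncomputable def Gh (ε : ℝ) (L : V) (h1 h2 : H) (w : V) : H :=
  S.A L h2 + ε ^ 2 • S.N0 (L, h1) + S.N1 (L, h1) w

/-- strong `L²` solution on a time interval of length `τ`, rescaled to the unit interval -/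
structure WS (τ : ℝ) (L : C(II, V)) (D0 D1 : C(II, H)) (D2 F : L2 H) (w : L2 V) : Prop where
  mem : ∀ t, L t ∈ S.U
  r1 : ∀ t, S.M.R1 (D0 t) (D1 t)
  r2 : ∀ᵐ t : II, S.M.R2 (D1 t) (D2 t)
  hw : ∀ᵐ t : II, w t = S.v (L t) (D1 t) (D2 t)
  hF : ∀ᵐ t : II, F t = S.F (L t) (D1 t) (D2 t) (w t)
  iL : ∀ t, L t = L 0 + τ • JJ w t
  iD : ∀ t, D0 t = D0 0 + τ • JJ F t

/-- pointwise in time solution on `(0,τ)` -/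
structure Cl (τ : ℝ) (L : ℝ → V) (D0 D1 D2 : ℝ → H) : Prop where
  mem : ∀ t ∈ Ioo 0 τ, L t ∈ S.U
  r1 : ∀ t ∈ Ioo 0 τ, S.M.R1 (D0 t) (D1 t)
  r2 : ∀ t ∈ Ioo 0 τ, S.M.R2 (D1 t) (D2 t)
  dL : ∀ t ∈ Ioo 0 τ, HasDerivAt L (S.v (L t) (D1 t) (D2 t)) t
  dD : ∀ t ∈ Ioo 0 τ, HasDerivAt D0 (S.F (L t) (D1 t) (D2 t) (S.v (L t) (D1 t) (D2 t))) t

/-- estimates for the rescaled right hand sides -/
def Est : Prop :=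
  ∀ R : ℝ, 0 ≤ R → ∃ C : ℝ, 0 ≤ C ∧ ∀ ε ∈ Ioc (0 : ℝ) 1, ∀ μ ∈ Icc (1 / 2 : ℝ) 2,
    ∀ (L L' : C(II, V)) (D1 D1' : C(II, H)) (D2 D2' G G' : L2 H) (w w' : L2 V),
      (∀ t, L t ∈ S.U) → (∀ t, L' t ∈ S.U) → ‖D1‖ ≤ R → ‖D1'‖ ≤ R → ‖D2‖ ≤ R → ‖D2'‖ ≤ R →
      (∀ᵐ t : II, w t = S.vh ε (L t) (D1 t) (D2 t)) →
      (∀ᵐ t : II, w' t = S.vh ε (L' t) (D1' t) (D2' t)) →
      (∀ᵐ t : II, G t = S.Gh ε (L t) (D1 t) (D2 t) (w t)) →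
      (∀ᵐ t : II, G' t = S.Gh ε (L' t) (D1' t) (D2' t) (w' t)) →
      ‖w‖ ≤ C * ε ∧ ‖(μ / S.c) • G - D2‖ ≤ (1 - S.γ) * ‖D2‖ + C * ε ∧
      ‖w - w'‖ ≤ C * ε * (‖L - L'‖ + ‖D1 - D1'‖ + ‖D2 - D2'‖) ∧
      ‖((μ / S.c) • G - D2) - ((μ / S.c) • G' - D2')‖ ≤ (1 - S.γ) * ‖D2 - D2'‖ + C * ‖L - L'‖
        + C * ε * (‖D1 - D1'‖ + ‖D2 - D2'‖)

/-- the rescaled right hand sides as smooth maps between function spaces -/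
def Dyn : Prop :=
  ∀ ε : ℝ, ∃ (w : C(II, V) × C(II, H) × L2 H → L2 V) (G : C(II, V) × C(II, H) × L2 H → L2 H),
    IsOpen {s : C(II, V) × C(II, H) × L2 H | ∀ t, s.1 t ∈ S.U} ∧
    ContDiffOn ℝ ∞ w {s | ∀ t, s.1 t ∈ S.U} ∧ ContDiffOn ℝ ∞ G {s | ∀ t, s.1 t ∈ S.U} ∧
    ∀ s : C(II, V) × C(II, H) × L2 H, (∀ t, s.1 t ∈ S.U) →
      (∀ᵐ t : II, w s t = S.vh ε (s.1 t) (s.2.1 t) (s.2.2 t)) ∧
      ∀ᵐ t : II, G s t = S.Gh ε (s.1 t) (s.2.1 t) (s.2.2 t) (w s t)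

/-- uniqueness for short times -/
def Uni : Prop :=
  ∀ R : ℝ, 0 ≤ R → ∃ τ₀ > 0, ∀ τ ∈ Ioc 0 τ₀,
    ∀ (L L' : C(II, V)) (D0 D0' D1 D1' : C(II, H)) (D2 D2' F F' : L2 H) (w w' : L2 V),
      S.WS τ L D0 D1 D2 F w → S.WS τ L' D0' D1' D2' F' w' →
      ‖D1‖ ≤ R → ‖D1'‖ ≤ R → √τ * ‖D2‖ ≤ R → √τ * ‖D2'‖ ≤ R → L 0 = L' 0 → D0 0 = D0' 0 →
      L = L' ∧ D0 = D0' ∧ D1 = D1'

/-- existence of a family of solutions depending smoothly on the length of the time interval -/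
def ExMu : Prop :=
  ∀ R δ : ℝ, 0 ≤ R → 0 < δ → ∃ R' : ℝ, 0 ≤ R' ∧ ∀ τ₀ > 0, ∃ τ ∈ Ioc 0 τ₀,
    ∀ (L0 : V) (h0 h1 : H), Metric.ball L0 δ ⊆ S.U → S.M.R1 h0 h1 → ‖h1‖ ≤ R →
      ∃ (L : ℝ → C(II, V)) (D0 D1 : ℝ → C(II, H)) (D2 F : ℝ → L2 H) (w : ℝ → L2 V),
        ContDiffOn ℝ ∞ L (Ioo (1 / 2) 2) ∧ ContDiffOn ℝ ∞ D0 (Ioo (1 / 2) 2) ∧
        ContDiffOn ℝ ∞ D1 (Ioo (1 / 2) 2) ∧ ∀ μ ∈ Ioo (1 / 2 : ℝ) 2,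
          S.WS (μ * τ) (L μ) (D0 μ) (D1 μ) (D2 μ) (F μ) (w μ) ∧ L μ 0 = L0 ∧ D0 μ 0 = h0 ∧
          D1 μ 0 = h1 ∧ ‖D1 μ‖ ≤ R' ∧ √(μ * τ) * ‖D2 μ‖ ≤ R'

/-- a strong solution which is smooth in time for positive times -/
def ExSm : Prop :=
  ∀ R δ : ℝ, 0 ≤ R → 0 < δ → ∃ τ > 0,
    ∀ (L0 : V) (h0 h1 : H), Metric.ball L0 δ ⊆ S.U → S.M.R1 h0 h1 → ‖h1‖ ≤ R →
      ∃ (L : C(II, V)) (D0 D1 : C(II, H)) (D2 F : L2 H) (w : L2 V),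
        S.WS τ L D0 D1 D2 F w ∧ L 0 = L0 ∧ D0 0 = h0 ∧ D1 0 = h1 ∧
        ContDiffOn ℝ ∞ (fun s : ℝ => L (pj s)) (Ioo 0 1) ∧
        ContDiffOn ℝ ∞ (fun s : ℝ => D0 (pj s)) (Ioo 0 1) ∧
        ContDiffOn ℝ ∞ (fun s : ℝ => D1 (pj s)) (Ioo 0 1)

/-- local existence, smoothness in time and local uniqueness -/
def Abs : Prop :=
  ∀ R δ : ℝ, 0 ≤ R → 0 < δ → ∃ τ > 0,
    ∀ (L0 : V) (h0 h1 : H), Metric.ball L0 δ ⊆ S.U → S.M.R1 h0 h1 → ‖h1‖ ≤ R →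
      ∃ (L : ℝ → V) (D0 D1 D2 : ℝ → H), S.Cl τ L D0 D1 D2 ∧
        ContDiffOn ℝ ∞ L (Ioo 0 τ) ∧ ContDiffOn ℝ ∞ D0 (Ioo 0 τ) ∧
        ContDiffOn ℝ ∞ D1 (Ioo 0 τ) ∧ ContDiffOn ℝ ∞ D2 (Ioo 0 τ) ∧
        ContinuousOn L (Ico 0 τ) ∧ ContinuousOn D0 (Ico 0 τ) ∧ ContinuousOn D1 (Ico 0 τ) ∧
        L 0 = L0 ∧ D0 0 = h0 ∧ D1 0 = h1 ∧
        ∀ (τ' : ℝ) (L' : ℝ → V) (D0' D1' D2' : ℝ → H), 0 < τ' → S.Cl τ' L' D0' D1' D2' →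
          ContinuousOn L' (Ico 0 τ') → ContinuousOn D0' (Ico 0 τ') →
          ContinuousOn D1' (Ico 0 τ') → ContinuousOn D2' (Ico 0 τ') →
          L' 0 = L0 → D0' 0 = h0 → D1' 0 = h1 →
          ∃ ε > 0, ∀ s ∈ Ioo 0 ε, L' s = L s ∧ D0' s = D0 s ∧ D1' s = D1 s

end Sys

/-- a property of all systems -/
def AllSys (P : ∀ {H V Y K : Type} [NormedAddCommGroup H] [InnerProductSpace ℝ H]
    [NormedAddCommGroup V] [NormedSpace ℝ V] [NormedAddCommGroup Y] [NormedSpace ℝ Y],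
    Sys H V Y K → Prop) : Prop :=
  ∀ (H V Y K : Type) [NormedAddCommGroup H] [InnerProductSpace ℝ H] [CompleteSpace H]
    [NormedAddCommGroup V] [NormedSpace ℝ V] [CompleteSpace V] [NormedAddCommGroup Y]
    [NormedSpace ℝ Y] [CompleteSpace Y] [Countable K] (S : Sys H V Y K), P S

def S_AEST : Prop := AllSys fun S => S.Est
def S_DYN : Prop := AllSys fun S => S.Dyn
def S_UNI : Prop := AllSys fun S => S.Uni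
def S_EXMU : Prop := AllSys fun S => S.ExMu
def S_EXSM : Prop := AllSys fun S => S.ExSm
def S_ABS : Prop := AllSys fun S => S.Abs

end Pool.Agent.P.MP_cf7202_gt
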