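import Mathlib

/-! Classical layer: the reduced (quarter) system on three edges, calculus toolkit statements,
local existence and continuation statements. -/

namespace Pool.Agent.P.MP_cf7202_gt

open Set Filter Topology Function Real
open scoped ContDiff

/-- derivative in the space variable, one-sided at the ends of `[0,1]` -/
noncomputable def dx (f : ℝ → ℝ → ℝ) (t x : ℝ) : ℝ := derivWithin (f t) (Icc 0 1) x

/-- derivative in the time variable -/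
noncomputable def dt (f : ℝ → ℝ → ℝ) (t x : ℝ) : ℝ := deriv (fun s => f s x) t

/-- jointly continuous on `(a,b) × [0,1]` -/
def Ct (a b : ℝ) (f : ℝ → ℝ → ℝ) : Prop := ContinuousOn (uncurry f) (Ioo a b ×ˢ Icc 0 1)

/-- jointly continuous on `[0,b) × [0,1]` -/
def Ct0 (b : ℝ) (f : ℝ → ℝ → ℝ) : Prop := ContinuousOn (uncurry f) (Ico 0 b ×ˢ Icc 0 1)

/-- jointly smooth on `(a,b) × [0,1]` -/
def Sm (a b : ℝ) (f : ℝ → ℝ → ℝ) : Prop :=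
  ContDiffOn ℝ ∞ (uncurry f) (Ioo a b ×ˢ Icc 0 1)

/-- all time derivatives exist and are jointly continuous on `(a,b) × [0,1]` -/
def TS (a b : ℝ) (f : ℝ → ℝ → ℝ) : Prop :=
  ∀ k : ℕ, Ct a b (dt^[k] f) ∧
    ∀ t ∈ Ioo a b, ∀ x ∈ Icc (0 : ℝ) 1, DifferentiableAt ℝ (fun s => (dt^[k] f) s x) t

/-- calculus toolkit -/
structure S_TK : Prop where
  /-- family lemma: a family closed under both first derivatives consists of smooth functions -/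
  fam : ∀ (a b : ℝ) (𝓕 : Set (ℝ → ℝ → ℝ)),
    (∀ f ∈ 𝓕, Ct a b f) →
    (∀ f ∈ 𝓕, ∃ g ∈ 𝓕, ∀ t ∈ Ioo a b, ∀ x ∈ Icc (0 : ℝ) 1,
      HasDerivAt (fun s => f s x) (g t x) t) →
    (∀ f ∈ 𝓕, ∃ g ∈ 𝓕, ∀ t ∈ Ioo a b, ∀ x ∈ Icc (0 : ℝ) 1,
      HasDerivWithinAt (f t) (g t x) (Icc 0 1) x) →
    ∀ f ∈ 𝓕, Sm a b f
  sm_dx : ∀ a b f, Sm a b f → Sm a b (dx f)
  sm_dt : ∀ a b f, Sm a b f → Sm a b (dt f)
  has_dx : ∀ a b f, Sm a b f → ∀ t ∈ Ioo a b, ∀ x ∈ Icc (0 : ℝ) 1,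
    HasDerivWithinAt (f t) (dx f t x) (Icc 0 1) x
  has_dt : ∀ a b f, Sm a b f → ∀ t ∈ Ioo a b, ∀ x ∈ Icc (0 : ℝ) 1,
    HasDerivAt (fun s => f s x) (dt f t x) t
  comm : ∀ a b f, Sm a b f → ∀ t ∈ Ioo a b, ∀ x ∈ Icc (0 : ℝ) 1,
    dt (dx f) t x = dx (dt f) t x
  /-- differentiation under the integral sign -/
  int_dt : ∀ (a b : ℝ) (f g : ℝ → ℝ → ℝ), Ct a b f → Ct a b g →
    (∀ t ∈ Ioo a b, ∀ x ∈ Icc (0 : ℝ) 1, HasDerivAt (fun s => f s x) (g t x) t) →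
    ∀ t ∈ Ioo a b, ∀ x ∈ Icc (0 : ℝ) 1,
      HasDerivAt (fun s => ∫ y in (0 : ℝ)..x, f s y) (∫ y in (0 : ℝ)..x, g t y) t
  /-- fundamental theorem of calculus on `[0,1]`, first form -/
  int_dx : ∀ (f : ℝ → ℝ), ContinuousOn f (Icc 0 1) → ∀ x ∈ Icc (0 : ℝ) 1,
    HasDerivWithinAt (fun z => ∫ y in (0 : ℝ)..z, f y) (f x) (Icc 0 1) x
  /-- fundamental theorem of calculus on `[0,1]`, second form -/
  ftc : ∀ (f g : ℝ → ℝ), ContinuousOn g (Icc 0 1) →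
    (∀ x ∈ Icc (0 : ℝ) 1, HasDerivWithinAt f (g x) (Icc 0 1) x) →
    ∀ x ∈ Icc (0 : ℝ) 1, ∫ y in (0 : ℝ)..x, g y = f x - f 0
  ct_int : ∀ a b f, Ct a b f → Ct a b (fun t x => ∫ y in (0 : ℝ)..x, f t y)
  ct0_int : ∀ b f, Ct0 b f → Ct0 b (fun t x => ∫ y in (0 : ℝ)..x, f t y)
  sm_int : ∀ a b f, Sm a b f → Sm a b (fun t x => ∫ y in (0 : ℝ)..x, f t y)
  sm_ts : ∀ a b f, Sm a b f → TS a b f
  /-- a smooth curve in `C([0,1])` has jointly continuous time derivatives -/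
  ts_cm : ∀ (a b : ℝ) (F : ℝ → C(unitInterval, ℝ)) (f : ℝ → ℝ → ℝ),
    ContDiffOn ℝ ∞ F (Ioo a b) → (∀ t ∈ Ioo a b, ∀ x : unitInterval, f t x = F t x) → TS a b f

/-- bootstrapping in the space variable for the scalar tangent angle equation -/
def S_BOOT : Prop :=
  ∀ (a b : ℝ) (θ P Λ m : ℝ → ℝ → ℝ), TS a b θ → TS a b P → TS a b Λ → Sm a b m →
    (∀ t ∈ Ioo a b, ∀ x ∈ Icc (0 : ℝ) 1, 0 < m t x) →
    (∀ t ∈ Ioo a b, ∀ x ∈ Icc (0 : ℝ) 1, HasDerivWithinAt (θ t) (P t x) (Icc 0 1) x) →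
    (∀ t ∈ Ioo a b, ∀ x ∈ Icc (0 : ℝ) 1,
      HasDerivWithinAt (Λ t) (dt m t x + P t x ^ 2 / m t x) (Icc 0 1) x) →
    (∀ t ∈ Ioo a b, ∀ x ∈ Icc (0 : ℝ) 1, HasDerivWithinAt (P t)
      (m t x ^ 2 * dt θ t x + dx m t x * P t x / m t x - Λ t x * m t x * P t x) (Icc 0 1) x) →
    Sm a b θ ∧ Sm a b Λ

/-- profile of the metric; it vanishes at `0`, has integral `1` over `[0,1]`, is even about `1` -/
noncomputable def gg (x : ℝ) : ℝ := 3 / 2 * (2 * x - x ^ 2)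

/-- speed of the parametrisation of edge `i` when the three lengths are `L` -/
noncomputable def mm (L : Fin 3 → ℝ) (i : Fin 3) (x : ℝ) : ℝ := L 1 + (L i - L 1) * gg x

/-- a state: three tangent angle functions and three lengths -/
abbrev St : Type := (Fin 3 → ℝ → ℝ) × (Fin 3 → ℝ)

/-- tangent angle -/
def th (u : ℝ → St) (i : Fin 3) (t x : ℝ) : ℝ := (u t).1 i x

/-- metric -/
noncomputable def me (u : ℝ → St) (i : Fin 3) (t x : ℝ) : ℝ := mm (u t).2 i x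

/-- curvature -/
noncomputable def ka (u : ℝ → St) (i : Fin 3) (t x : ℝ) : ℝ := dx (th u i) t x / me u i t x

/-- tangential velocity -/
noncomputable def la (u : ℝ → St) (i : Fin 3) (t x : ℝ) : ℝ :=
  (ka u (i + 2) t 0 - ka u (i + 1) t 0) / √3 +
    ∫ y in (0 : ℝ)..x, (dt (me u i) t y + ka u i t y ^ 2 * me u i t y)

/-- the angle functions are constant outside `[0,1]` -/
def Nrm (d : St) : Prop := ∀ i x, d.1 i x = d.1 i (projIcc (0 : ℝ) 1 zero_le_one x)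

/-- smooth solution of the quarter system on the time interval `(a,b)` -/
structure QS (a b : ℝ) (u : ℝ → St) : Prop where
  sth : ∀ i, Sm a b (th u i)
  sL : ∀ i, ContDiffOn ℝ ∞ (fun t => (u t).2 i) (Ioo a b)
  nrm : ∀ t ∈ Ioo a b, Nrm (u t)
  pos : ∀ t ∈ Ioo a b, ∀ i, ∀ x ∈ Icc (0 : ℝ) 1, 0 < me u i t x
  pde : ∀ t ∈ Ioo a b, ∀ i, ∀ x ∈ Icc (0 : ℝ) 1,
    dt (th u i) t x = dx (ka u i) t x / me u i t x + la u i t x * ka u i t x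
  j0 : ∀ t ∈ Ioo a b, ∀ i, th u i t 0 = th u 0 t 0
  j1 : ∀ t ∈ Ioo a b, ka u 0 t 0 + ka u 1 t 0 + ka u 2 t 0 = 0
  e0 : ∀ t ∈ Ioo a b, th u 0 t 1 = π / 3
  e1 : ∀ t ∈ Ioo a b, th u 1 t 1 = 0
  e2 : ∀ t ∈ Ioo a b, ka u 2 t 1 = 0
  l0 : ∀ t ∈ Ioo a b, la u 0 t 1 = 0
  l1 : ∀ t ∈ Ioo a b, la u 1 t 1 = -ka u 1 t 1 / √3
  l2 : ∀ t ∈ Ioo a b, la u 2 t 1 = 0

/-- continuity up to the initial time `0` -/
structure Cont0 (b : ℝ) (u : ℝ → St) : Prop where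
  cth : ∀ i, Ct0 b (th u i)
  cL : ∀ i, ContinuousOn (fun t => (u t).2 i) (Ico 0 b)

/-- admissible data with bound `K` -/
structure Adm (K : ℝ) (d : St) : Prop where
  nrm : Nrm d
  c1 : ∀ i, ContDiffOn ℝ 1 (d.1 i) (Icc 0 1)
  j0 : ∀ i, d.1 i 0 = d.1 0 0
  e0 : d.1 0 1 = π / 3
  e1 : d.1 1 1 = 0
  en : ∀ i, ∫ x in (0 : ℝ)..1, derivWithin (d.1 i) (Icc 0 1) x ^ 2 ≤ K
  lo : ∀ i, ∀ x ∈ Icc (0 : ℝ) 1, K⁻¹ ≤ mm d.2 i x
  hi : ∀ i, |d.2 i| ≤ K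

/-- local existence with a uniform time, and local uniqueness -/
def S_EX : Prop :=
  ∀ K > 0, ∃ τ > 0, ∀ d : St, Adm K d → ∃ u : ℝ → St, QS 0 τ u ∧ Cont0 τ u ∧ u 0 = d ∧
    ∀ (a b t₀ : ℝ) (u' : ℝ → St), QS a b u' → t₀ ∈ Ioo a b → u' t₀ = d →
      ∃ ε > 0, ∀ s ∈ Ioo 0 ε, u' (t₀ + s) = u s

/-- continuation up to time `T` under an a priori bound -/
def S_CONT : Prop :=
  ∀ (T K₀ : ℝ) (d : St), 0 < T → 0 < K₀ → Adm K₀ d →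
    (∀ (T' : ℝ) (u : ℝ → St), 0 < T' → T' < T → QS 0 T' u → Cont0 T' u → u 0 = d →
      ∃ K > 0, ∀ t ∈ Ico (T' / 2) T', Adm K (u t)) →
    ∃ u : ℝ → St, QS 0 T u ∧ Cont0 T u ∧ u 0 = d

/-- the angle of edge `0` continued by reflection across its end point, on `[0,1]` -/
noncomputable def thG (u : ℝ → St) (t x : ℝ) : ℝ :=
  if x ≤ 1 / 2 then th u 0 t (2 * x) else 2 * π / 3 - th u 0 t (2 - 2 * x)

/-- the reflected angle is smooth -/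
def S_GLUE : Prop := ∀ (a b : ℝ) (u : ℝ → St), QS a b u → Sm a b (thG u)

end Pool.Agent.P.MP_cf7202_gt
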