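import Pool.Agent.P.MP_cf7202_gt.DefAbs
import Pool.Agent.P.MP_cf7202_gt.DefCl

/-! Concrete realisation of the abstract system for the quarter network. -/

namespace Pool.Agent.P.MP_cf7202_gt

open Set Filter Topology Function MeasureTheory Real
open scoped ContDiff ENNReal

abbrev E3 : Type := EuclideanSpace ℝ (Fin 3)
abbrev HH : Type := L2 E3
abbrev VV : Type := Fin 3 → ℝ
abbrev KK : Type := ℕ ⊕ ℤ

/-- frequencies -/
noncomputable def omg : KK → ℝ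
  | .inl k => (k + 1) * π
  | .inr k => arctan (√2) + k * π

/-- eigenfunctions -/
noncomputable def eC : KK → C(II, E3)
  | .inl k => ⟨fun x => !₂[sin (omg (.inl k) * x), -sin (omg (.inl k) * x), 0], by fun_prop⟩
  | .inr k => ⟨fun x => !₂[sin (omg (.inr k) * (1 - x)) / √2, sin (omg (.inr k) * (1 - x)) / √2,
      cos (omg (.inr k) * (1 - x))], by fun_prop⟩

/-- normalised derivatives of the eigenfunctions -/
noncomputable def etC : KK → C(II, E3)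
  | .inl k => ⟨fun x => !₂[cos (omg (.inl k) * x), -cos (omg (.inl k) * x), 0], by fun_prop⟩
  | .inr k => ⟨fun x => !₂[-cos (omg (.inr k) * (1 - x)) / √2, -cos (omg (.inr k) * (1 - x)) / √2,
      sin (omg (.inr k) * (1 - x))], by fun_prop⟩

/-- the constant mode -/
noncomputable def zC : C(II, E3) := ContinuousMap.const II !₂[1, -1, 0]

/-- `M` is the concrete family of modes -/
def IsM (M : Modes HH KK) : Prop :=
  (∀ k, M.e k = tL (eC k)) ∧ (∀ k, M.et k = tL (etC k)) ∧ M.z = tL zC ∧ M.om = omg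

/-- totality of the cosine and of the sine system -/
def S_TRIG : Prop :=
  (∀ f : L2 ℝ, (∀ k : ℕ, ∫ x : II, cos (k * π * x) * f x = 0) → f = 0) ∧
  ∀ f : L2 ℝ, (∀ k : ℕ, ∫ x : II, sin ((k + 1) * π * x) * f x = 0) → f = 0

def S_MODES : Prop := ∃ M : Modes HH KK, IsM M

/-- the primitive with initial value `c` -/
noncomputable def prim (c : E3) (h : HH) : C(II, E3) := ContinuousMap.const II c + JJ h

/-- the primitive which is continuous at the junction and vanishes at the end of edge `0` -/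
noncomputable def c1 (h : HH) : C(II, E3) :=
  prim !₂[-(JJ h 1 0), -(JJ h 1 0), -(JJ h 1 0)] h

/-- meaning of the mode relations -/
def S_REL : Prop :=
  ∀ M : Modes HH KK, IsM M →
    (∀ h1 : HH, JJ h1 1 0 = JJ h1 1 1 → M.R1 (tL (c1 h1)) h1) ∧
    (∀ h0 h1 : HH, M.R1 h0 h1 → JJ h1 1 0 = JJ h1 1 1 ∧ h0 = tL (c1 h1)) ∧
    (∀ (c : E3) (h2 : HH), c 0 + c 1 + c 2 = 0 → prim c h2 1 2 = 0 → M.R2 (tL (prim c h2)) h2) ∧
    ∀ h1 h2 : HH, M.R2 h1 h2 →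
      ∃ c : E3, c 0 + c 1 + c 2 = 0 ∧ prim c h2 1 2 = 0 ∧ h1 = tL (prim c h2)

/-- trace operators -/
structure IsTr (T1 T2 : ℝ → HH →L[ℝ] E3 × E3) : Prop where
  h1 : ∀ δ ∈ Ioc (0 : ℝ) 1, ∀ h : HH, δ * ‖T1 δ h‖ ≤ 1 * ‖h‖
  h2 : ∀ δ ∈ Ioc (0 : ℝ) 1, ∀ h : HH, ‖T2 δ h‖ ≤ 1 * δ * ‖h‖
  val : ∀ δ ∈ Ioc (0 : ℝ) 1, ∀ (c : E3) (h : HH),
    T1 δ (tL (prim c h)) + T2 δ h = (c, prim c h 1)

def S_TR : Prop := ∃ T1 T2, IsTr T1 T2

/-- admissible lengths -/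
def UU (K : ℝ) : Set VV :=
  {L | ‖L‖ < 2 * K ∧ (2 * K)⁻¹ < L 1 ∧ ∀ i, (2 * K)⁻¹ < L 1 + 3 / 2 * (L i - L 1)}

/-- the reference angle and its first two derivatives -/
noncomputable def θs (i : Fin 3) (x : ℝ) : ℝ := ![π / 3 * x ^ 2, 0, 0] i
noncomputable def θs1 (i : Fin 3) (x : ℝ) : ℝ := ![2 * π / 3 * x, 0, 0] i
noncomputable def θs2 (i : Fin 3) : ℝ := ![2 * π / 3, 0, 0] i

/-- derivative of the angle -/
noncomputable def Pf (p : C(II, E3)) (i : Fin 3) (x : ℝ) : ℝ := θs1 i x + p (pj x) i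

/-- primitive of the squared curvature -/
noncomputable def sF (L : VV) (p : C(II, E3)) (i : Fin 3) (x : ℝ) : ℝ :=
  ∫ y in (0 : ℝ)..x, Pf p i y ^ 2 / mm L i y

/-- tangential velocity in terms of the rates `w` of the three lengths -/
noncomputable def lamF (L : VV) (p : C(II, E3)) (w : VV) (i : Fin 3) (x : ℝ) : ℝ :=
  ![-(w 0 + sF L p 0 1), w 0 + sF L p 0 1 + (w 2 + sF L p 2 1), -(w 2 + sF L p 2 1)] i
    + (w 1 * x + (w i - w 1) * (3 / 2 * x ^ 2 - x ^ 3 / 2)) + sF L p i x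

/-- right hand side of the angle equation, `q` being the second derivative of `θ - θs` -/
noncomputable def FF (L : VV) (p : C(II, E3)) (q : ℝ) (w : VV) (i : Fin 3) (x : ℝ) : ℝ :=
  (θs2 i + q) / mm L i x ^ 2 - (L i - L 1) * (3 - 3 * x) * Pf p i x / mm L i x ^ 3
    + lamF L p w i x * Pf p i x / mm L i x

/-- rates of the three lengths -/
noncomputable def vF (L : VV) (p : C(II, E3)) : VV := fun i =>
  (![0, -(p 1 1), 0] i - (p 0 (i + 2) - p 0 (i + 1))) / (√3 * L 1) - sF L p i 1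

/-- the abstract system `S` realises the quarter system -/
structure Con (K : ℝ) (S : Sys HH VV (E3 × E3) KK) : Prop where
  m : IsM S.M
  u : S.U = UU K
  tr : IsTr S.T1 S.T2
  F : ∀ L ∈ UU K, ∀ (p q Fc : C(II, E3)) (w : VV),
    (∀ (x : II) i, Fc x i = FF L p (q x i) w i x) → S.F L (tL p) (tL q) w = tL Fc
  v : ∀ L ∈ UU K, ∀ (p : C(II, E3)) (h2 : HH), S.T1 1 (tL p) + S.T2 1 h2 = (p 0, p 1) →
    S.v L (tL p) h2 = vF L p

def S_SYS : Prop := ∀ K > 0, ∃ S, Con K S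

/-- the state given by the lengths and the derivative of `θ - θs` -/
noncomputable def toSt (L : VV) (h1 : HH) : St :=
  (fun i x => θs i (pj x) + c1 h1 (pj x) i, L)

/-- abstract solutions which are smooth in time are classical solutions -/
def S_C4 : Prop :=
  ∀ (K : ℝ) (S : Sys HH VV (E3 × E3) KK), 0 < K → Con K S →
    ∀ (τ : ℝ) (L : ℝ → VV) (D0 D1 D2 : ℝ → HH), S.Cl τ L D0 D1 D2 →
      ContDiffOn ℝ ∞ L (Ioo 0 τ) → ContDiffOn ℝ ∞ D1 (Ioo 0 τ) → ContDiffOn ℝ ∞ D2 (Ioo 0 τ) →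
      QS 0 τ (fun t => toSt (L t) (D1 t))

/-- classical solutions are abstract solutions -/
def S_C5 : Prop :=
  ∀ (K : ℝ) (S : Sys HH VV (E3 × E3) KK), 0 < K → Con K S →
    ∀ (a b t₀ τ : ℝ) (u : ℝ → St), QS a b u → a < t₀ → 0 < τ → t₀ + τ < b →
      (∀ s ∈ Icc 0 τ, (u (t₀ + s)).2 ∈ UU K) →
      ∃ D0 D1 D2 : ℝ → HH, S.Cl τ (fun s => (u (t₀ + s)).2) D0 D1 D2 ∧
        ContinuousOn D0 (Ico 0 τ) ∧ ContinuousOn D1 (Ico 0 τ) ∧ ContinuousOn D2 (Ico 0 τ) ∧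
        ∀ s ∈ Ico 0 τ, S.M.R1 (D0 s) (D1 s) ∧ toSt (u (t₀ + s)).2 (D1 s) = u (t₀ + s)

end Pool.Agent.P.MP_cf7202_gt
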