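import Pool.Agent.P.MP_cf7202_gt.DefCl

/-! Geometric layer: first order jets of the quarter network, barrier statements. -/

namespace Pool.Agent.P.MP_cf7202_gt

open Set Filter Topology Function Real
open scoped ContDiff

/-- height of the fixed end point, also the initial height of the upper junction -/
noncomputable def ηη : ℝ := 1 / 10 ^ 8

/-- abscissa of the fixed end point -/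
noncomputable def LL : ℝ := 30 + √3 / 2

/-- the singular time -/
noncomputable def TT : ℝ := 3 / π * (π / 6 - √3 / 8 + √3 / 2 * ηη - ηη ^ 2 / (2 * √3))

/-- the parabolic length scale -/
noncomputable def σσ (t : ℝ) : ℝ := √(2 * (TT - t))

/-- offsets of the tangent angles of the three edges -/
noncomputable def αα : Fin 3 → ℝ := ![2 * π / 3, 4 * π / 3, 0]

/-- initial lengths -/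
noncomputable def L0 : Fin 3 → ℝ := ![π / 3, 2 * ηη / √3, 30]

/-- initial angle on edge `0`: arclength along the unit circle -/
noncomputable def θ0 (x : ℝ) : ℝ := L0 1 * x + (L0 0 - L0 1) * (3 / 2 * x ^ 2 - x ^ 3 / 2)

/-- the initial state -/
noncomputable def d0 : St :=
  (![fun x => θ0 (projIcc (0 : ℝ) 1 zero_le_one x), fun _ => 0, fun _ => 0], L0)

/-- jets of a moving quarter network on the time interval `[0,T)`: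
angle `θ`, curvature `κ` and its arclength derivatives, metric `m`, tangential velocity `lam`,
positions `x`, `y`. Edge `0` ends on the vertical axis, edge `1` on the horizontal axis,
edge `2` at a fixed point. -/
structure GS (T : ℝ) where
  θ : Fin 3 → ℝ → ℝ → ℝ
  κ : Fin 3 → ℝ → ℝ → ℝ
  ks : Fin 3 → ℝ → ℝ → ℝ
  kss : Fin 3 → ℝ → ℝ → ℝ
  m : Fin 3 → ℝ → ℝ → ℝ
  mt : Fin 3 → ℝ → ℝ → ℝ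
  lam : Fin 3 → ℝ → ℝ → ℝ
  x : Fin 3 → ℝ → ℝ → ℝ
  y : Fin 3 → ℝ → ℝ → ℝ
  cθ : ∀ i, Ct0 T (θ i)
  cm : ∀ i, Ct0 T (m i)
  cx : ∀ i, Ct0 T (x i)
  cy : ∀ i, Ct0 T (y i)
  cκ : ∀ i, Ct 0 T (κ i)
  cks : ∀ i, Ct 0 T (ks i)
  ckss : ∀ i, Ct 0 T (kss i)
  cmt : ∀ i, Ct 0 T (mt i)
  clam : ∀ i, Ct 0 T (lam i)
  mpos : ∀ i, ∀ t ∈ Ico 0 T, ∀ p ∈ Icc (0 : ℝ) 1, 0 < m i t p
  xp : ∀ i, ∀ t ∈ Ico 0 T, ∀ p ∈ Icc (0 : ℝ) 1,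
    HasDerivWithinAt (x i t) (m i t p * cos (θ i t p + αα i)) (Icc 0 1) p
  yp : ∀ i, ∀ t ∈ Ico 0 T, ∀ p ∈ Icc (0 : ℝ) 1,
    HasDerivWithinAt (y i t) (m i t p * sin (θ i t p + αα i)) (Icc 0 1) p
  θp : ∀ i, ∀ t ∈ Ioo 0 T, ∀ p ∈ Icc (0 : ℝ) 1,
    HasDerivWithinAt (θ i t) (m i t p * κ i t p) (Icc 0 1) p
  κp : ∀ i, ∀ t ∈ Ioo 0 T, ∀ p ∈ Icc (0 : ℝ) 1,
    HasDerivWithinAt (κ i t) (m i t p * ks i t p) (Icc 0 1) p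
  ksp : ∀ i, ∀ t ∈ Ioo 0 T, ∀ p ∈ Icc (0 : ℝ) 1,
    HasDerivWithinAt (ks i t) (m i t p * kss i t p) (Icc 0 1) p
  lamp : ∀ i, ∀ t ∈ Ioo 0 T, ∀ p ∈ Icc (0 : ℝ) 1,
    HasDerivWithinAt (lam i t) (mt i t p + κ i t p ^ 2 * m i t p) (Icc 0 1) p
  θt : ∀ i, ∀ t ∈ Ioo 0 T, ∀ p ∈ Icc (0 : ℝ) 1,
    HasDerivAt (fun s => θ i s p) (ks i t p + lam i t p * κ i t p) t
  κt : ∀ i, ∀ t ∈ Ioo 0 T, ∀ p ∈ Icc (0 : ℝ) 1,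
    HasDerivAt (fun s => κ i s p) (kss i t p + lam i t p * ks i t p + κ i t p ^ 3) t
  mt' : ∀ i, ∀ t ∈ Ioo 0 T, ∀ p ∈ Icc (0 : ℝ) 1, HasDerivAt (fun s => m i s p) (mt i t p) t
  xt : ∀ i, ∀ t ∈ Ioo 0 T, ∀ p ∈ Icc (0 : ℝ) 1, HasDerivAt (fun s => x i s p)
    (lam i t p * cos (θ i t p + αα i) - κ i t p * sin (θ i t p + αα i)) t
  yt : ∀ i, ∀ t ∈ Ioo 0 T, ∀ p ∈ Icc (0 : ℝ) 1, HasDerivAt (fun s => y i s p)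
    (lam i t p * sin (θ i t p + αα i) + κ i t p * cos (θ i t p + αα i)) t
  jθ : ∀ i, ∀ t ∈ Ico 0 T, θ i t 0 = θ 0 t 0
  jx : ∀ i, ∀ t ∈ Ico 0 T, x i t 0 = x 0 t 0
  jy : ∀ i, ∀ t ∈ Ico 0 T, y i t 0 = y 0 t 0
  jκ : ∀ t ∈ Ioo 0 T, κ 0 t 0 + κ 1 t 0 + κ 2 t 0 = 0
  jlam : ∀ i, ∀ t ∈ Ioo 0 T, lam i t 0 = (κ (i + 2) t 0 - κ (i + 1) t 0) / √3
  eθ0 : ∀ t ∈ Ico 0 T, θ 0 t 1 = π / 3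
  eθ1 : ∀ t ∈ Ico 0 T, θ 1 t 1 = 0
  eκ2 : ∀ t ∈ Ioo 0 T, κ 2 t 1 = 0
  el0 : ∀ t ∈ Ioo 0 T, lam 0 t 1 = 0
  el1 : ∀ t ∈ Ioo 0 T, lam 1 t 1 = -κ 1 t 1 / √3
  el2 : ∀ t ∈ Ioo 0 T, lam 2 t 1 = 0
  ex0 : ∀ t ∈ Ico 0 T, x 0 t 1 = 0
  ey1 : ∀ t ∈ Ico 0 T, y 1 t 1 = 0

namespace GS

variable {T : ℝ} (G : GS T)

/-- abscissa of the junction -/
def ξ (t : ℝ) : ℝ := G.x 0 t 0

/-- height of the junction -/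
def h (t : ℝ) : ℝ := G.y 0 t 0

/-- height of the top point -/
def H (t : ℝ) : ℝ := G.y 0 t 1

/-- abscissa of the junction on the horizontal axis -/
def ζ (t : ℝ) : ℝ := G.x 1 t 1

/-- arclength from the junction -/
noncomputable def s (i : Fin 3) (t p : ℝ) : ℝ := ∫ q in (0 : ℝ)..p, G.m i t q

/-- signed area `∫ y dx` under edge `i` up to the parameter `p` -/
noncomputable def ar (i : Fin 3) (t p : ℝ) : ℝ :=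
  ∫ q in (0 : ℝ)..p, G.y i t q * (G.m i t q * cos (G.θ i t q + αα i))

end GS

/-- subsolution used for the height of the top point -/
noncomputable def ΦΦ (t x : ℝ) : ℝ := σσ t ^ 3 * x / (9 * σσ t ^ 2 + x ^ 2)

/-- supersolution used for the thin region -/
noncomputable def ΨΨ (t x : ℝ) : ℝ := x ^ (1 / 32 : ℝ) * (x ^ 2 - 1.07 * σσ t ^ 2)

/-- properties of the initial network -/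
structure Init {T : ℝ} (G : GS T) : Prop where
  θ : ∀ i, ∀ p ∈ Icc (0 : ℝ) 1, 0 ≤ G.θ i 0 p ∧ G.θ i 0 p ≤ π / 3
  ex : G.x 2 0 1 = LL
  ey : G.y 2 0 1 = ηη
  area : G.ar 1 0 1 - G.ar 0 0 1 = π / 3 * TT
  b4 : ∀ p ∈ Icc (0 : ℝ) 1, sin (π / 3 - G.θ 0 0 p) ≤ 5 / 6 * G.x 0 0 p / σσ 0
  b5 : ∀ p ∈ Icc (0 : ℝ) 1, ΦΦ 0 (G.x 0 0 p) ≤ G.ar 0 0 p - G.ar 0 0 1
  b6 : ∀ i, ∀ p ∈ Icc (0 : ℝ) 1, G.θ i 0 p ≤ 10 / σσ 0 * G.y i 0 p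
  b7 : ∀ p ∈ Icc (0 : ℝ) 1, G.ar 2 0 p - G.ar 1 0 1 ≤ ηη * ΨΨ 0 (G.x 2 0 p)
  ξ0 : 1.05 * σσ 0 ≤ G.ξ 0
  h0 : G.h 0 = ηη

/-- consequences of the bounds on the tangent angle, and the area law -/
structure Mono {T : ℝ} (G : GS T) : Prop where
  θ : ∀ i, ∀ t ∈ Ico 0 T, ∀ p ∈ Icc (0 : ℝ) 1, 0 ≤ G.θ i t p ∧ G.θ i t p ≤ π / 3
  ex : ∀ t ∈ Ico 0 T, G.x 2 t 1 = LL
  ey : ∀ t ∈ Ico 0 T, G.y 2 t 1 = ηη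
  hpos : ∀ t ∈ Ico 0 T, 0 < G.h t
  x0 : ∀ t ∈ Ico 0 T, ∀ p ∈ Icc (0 : ℝ) 1, 0 ≤ G.x 0 t p ∧ G.x 0 t p ≤ G.ξ t
  y0 : ∀ t ∈ Ico 0 T, ∀ p ∈ Icc (0 : ℝ) 1, G.h t ≤ G.y 0 t p ∧ G.y 0 t p ≤ G.h t + G.s 0 t p
  x1 : ∀ t ∈ Ico 0 T, ∀ p ∈ Icc (0 : ℝ) 1, |G.x 1 t p - G.ξ t| ≤ G.h t
  y1 : ∀ t ∈ Ico 0 T, ∀ p ∈ Icc (0 : ℝ) 1, 0 ≤ G.y 1 t p ∧ G.y 1 t p ≤ G.h t
  x2 : ∀ t ∈ Ico 0 T, ∀ p ∈ Icc (0 : ℝ) 1, G.ξ t ≤ G.x 2 t p ∧ G.x 2 t p ≤ LL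
  y2 : ∀ t ∈ Ico 0 T, ∀ p ∈ Icc (0 : ℝ) 1,
    G.h t ≤ G.y 2 t p ∧ G.y 2 t p ≤ G.h t + G.s 2 t p ∧ G.y 2 t p ≤ ηη
  s0 : ∀ t ∈ Ico 0 T, G.ξ t ≤ G.s 0 t 1 ∧ G.s 0 t 1 ≤ 2 * G.ξ t
  s1 : ∀ t ∈ Ico 0 T, G.h t ≤ G.s 1 t 1 ∧ G.s 1 t 1 ≤ 2 * G.h t
  s2 : ∀ t ∈ Ico 0 T, LL - G.ξ t ≤ G.s 2 t 1 ∧ G.s 2 t 1 ≤ 2 * (LL - G.ξ t)
  smono : ∀ i, ∀ t ∈ Ico 0 T, ∀ p ∈ Icc (0 : ℝ) 1, 0 ≤ G.s i t p ∧ G.s i t p ≤ G.s i t 1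
  ar1 : ∀ t ∈ Ico 0 T, |G.ar 1 t 1| ≤ G.h t ^ 2
  κ0 : ∀ t ∈ Ioo 0 T, 0 ≤ G.κ 0 t 1
  κ1 : ∀ t ∈ Ioo 0 T, G.κ 1 t 1 ≤ 0
  art : ∀ i, ∀ t ∈ Ioo 0 T, ∀ p ∈ Icc (0 : ℝ) 1, HasDerivAt (fun s => G.ar i s p)
    (G.θ i t p - G.θ i t 0
      + G.y i t p * (G.lam i t p * cos (G.θ i t p + αα i) - G.κ i t p * sin (G.θ i t p + αα i))
      - G.y i t 0 * (G.lam i t 0 * cos (G.θ i t 0 + αα i) - G.κ i t 0 * sin (G.θ i t 0 + αα i))) t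
  jxt : ∀ i, ∀ t ∈ Ioo 0 T,
    G.lam i t 0 * cos (G.θ i t 0 + αα i) - G.κ i t 0 * sin (G.θ i t 0 + αα i)
      = G.lam 0 t 0 * cos (G.θ 0 t 0 + αα 0) - G.κ 0 t 0 * sin (G.θ 0 t 0 + αα 0)
  area : ∀ t ∈ Ico 0 T, G.ar 1 t 1 - G.ar 0 t 1 = π / 6 * σσ t ^ 2

/-- weak bootstrap hypothesis on `[0,t₁]` -/
def BW {T : ℝ} (G : GS T) (t₁ : ℝ) : Prop :=
  ∀ t ∈ Icc 0 t₁, 1.04 * σσ t ≤ G.ξ t ∧ G.h t ≤ σσ t / 1000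

/-- all estimates -/
structure Est {T : ℝ} (G : GS T) : Prop where
  ξ : ∀ t ∈ Ico 0 T, 1.04 * σσ t ≤ G.ξ t ∧ G.ξ t ≤ 12 * σσ t
  h : ∀ t ∈ Ico 0 T, G.h t ≤ σσ t ^ (1 + 1 / 32 : ℝ) / 1000
  h' : ∀ t ∈ Ico 0 T, G.h t ≤ σσ t / 1000
  θ : ∀ i, ∀ t ∈ Ico 0 T, ∀ p ∈ Icc (0 : ℝ) 1, G.θ i t p ≤ 10 / σσ t * G.y i t p
  κ0 : ∀ t ∈ Ioo 0 T, G.κ 0 t 1 ≤ 1 / σσ t
  κ1 : ∀ t ∈ Ioo 0 T, -(10 / σσ t) ≤ G.κ 1 t 1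
  y2 : ∀ t ∈ Ico 0 T, ∀ p ∈ Icc (0 : ℝ) 1,
    G.y 2 t p ≤ G.h t * exp (20 / σσ t * (G.x 2 t p - G.ξ t))

/-- numerical facts on the constants -/
structure S_NUM : Prop where
  TT : 0.58 ≤ 2 * TT ∧ 2 * TT ≤ 0.59
  sq : ∀ t ≤ Pool.Agent.P.MP_cf7202_gt.TT,
    σσ t ^ 2 = 2 * (Pool.Agent.P.MP_cf7202_gt.TT - t)
  pos : ∀ t < Pool.Agent.P.MP_cf7202_gt.TT, 0 < σσ t
  le : ∀ t, 0 ≤ t → σσ t ≤ 0.77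
  der : ∀ t < Pool.Agent.P.MP_cf7202_gt.TT, HasDerivAt σσ (-(σσ t)⁻¹) t
  cont : Continuous σσ

/-- minimum principle on a star shaped tree; `f1`, `f2` are the first two arclength derivatives -/
def S_MP : Prop :=
  ∀ (n : ℕ) (t₁ C : ℝ) (f f1 f2 ft m : Fin (n + 1) → ℝ → ℝ → ℝ),
    (∀ i, ContinuousOn (uncurry (f i)) (Icc 0 t₁ ×ˢ Icc 0 1)) →
    (∀ i, ∀ t ∈ Ioc 0 t₁, ∀ p ∈ Icc (0 : ℝ) 1, 0 < m i t p) →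
    (∀ i, ∀ t ∈ Ioc 0 t₁, ∀ p ∈ Icc (0 : ℝ) 1,
      HasDerivWithinAt (f i t) (m i t p * f1 i t p) (Icc 0 1) p) →
    (∀ i, ∀ t ∈ Ioc 0 t₁, ∀ p ∈ Icc (0 : ℝ) 1,
      HasDerivWithinAt (f1 i t) (m i t p * f2 i t p) (Icc 0 1) p) →
    (∀ i, ∀ t ∈ Ioc 0 t₁, ∀ p ∈ Icc (0 : ℝ) 1, HasDerivAt (fun s => f i s p) (ft i t p) t) →
    (∀ i, ∀ t ∈ Ioc 0 t₁, ∀ p ∈ Icc (0 : ℝ) 1,
      f i t p < 0 → f1 i t p = 0 → 0 ≤ f2 i t p → C * f i t p ≤ ft i t p) →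
    (∀ i, ∀ t ∈ Ioc 0 t₁, f i t 0 = f 0 t 0) →
    (∀ t ∈ Ioc 0 t₁, f 0 t 0 < 0 → ∑ i, f1 i t 0 ≤ 0) →
    (∀ i, ∀ t ∈ Ioc 0 t₁, f i t 1 < 0 → 0 ≤ f1 i t 1) →
    (∀ i, ∀ p ∈ Icc (0 : ℝ) 1, 0 ≤ f i 0 p) →
    ∀ i, ∀ t ∈ Icc 0 t₁, ∀ p ∈ Icc (0 : ℝ) 1, 0 ≤ f i t p

/-- construction of the jets from a solution of the quarter system -/
def S_GS : Prop :=
  ∀ (T K : ℝ) (u : ℝ → St), 0 < T → QS 0 T u → Cont0 T u → Adm K (u 0) → 0 < K →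
    ∃ G : GS T, G.θ = th u ∧ G.m = me u ∧ G.κ = ka u ∧ G.lam = la u ∧
      ∀ i, Sm 0 T (G.x i) ∧ Sm 0 T (G.y i)

/-- the initial state is admissible and has the properties `Init` -/
def S_INIT : Prop :=
  (∃ K > 0, Adm K d0) ∧
  ∀ (T : ℝ) (G : GS T), 0 < T → (∀ i p, G.θ i 0 p = d0.1 i p) →
    (∀ i p, G.m i 0 p = mm d0.2 i p) → Init G

def S_MONO : Prop := ∀ (T : ℝ) (G : GS T), 0 < T → T ≤ TT → Init G → Mono G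

def S_B4 : Prop :=
  ∀ (T t₁ : ℝ) (G : GS T), T ≤ TT → Init G → Mono G → t₁ ∈ Ico 0 T → BW G t₁ →
    ∀ t ∈ Icc 0 t₁, 1.05 * σσ t ≤ G.ξ t ∧ (0 < t → G.κ 0 t 1 ≤ 1 / σσ t)

def S_B5 : Prop :=
  ∀ (T t₁ : ℝ) (G : GS T), T ≤ TT → Init G → Mono G → t₁ ∈ Ico 0 T → BW G t₁ →
    ∀ t ∈ Icc 0 t₁, σσ t / 9 ≤ G.H t

def S_B6 : Prop :=
  ∀ (T t₁ : ℝ) (G : GS T), T ≤ TT → Init G → Mono G → t₁ ∈ Ico 0 T → BW G t₁ →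
    (∀ t ∈ Icc 0 t₁, σσ t / 9 ≤ G.H t) →
    ∀ t ∈ Icc 0 t₁, (∀ i, ∀ p ∈ Icc (0 : ℝ) 1, G.θ i t p ≤ 10 / σσ t * G.y i t p) ∧
      (0 < t → -(10 / σσ t) ≤ G.κ 1 t 1) ∧ G.ξ t ≤ 12 * σσ t ∧
      ∀ p ∈ Icc (0 : ℝ) 1, G.y 2 t p ≤ G.h t * exp (20 / σσ t * (G.x 2 t p - G.ξ t))

def S_B7 : Prop :=
  ∀ (T t₁ : ℝ) (G : GS T), T ≤ TT → Init G → Mono G → t₁ ∈ Ico 0 T → BW G t₁ →
    (∀ t ∈ Icc 0 t₁, G.h t ≤ 400 * ηη * σσ t ^ (1 + 1 / 32 : ℝ)) →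
    (∀ t ∈ Icc 0 t₁, G.ξ t ≤ 12 * σσ t) →
    ∀ t ∈ Icc 0 t₁, G.h t ≤ 340 * ηη * σσ t ^ (1 + 1 / 32 : ℝ)

def S_EST : Prop := ∀ (T : ℝ) (G : GS T), 0 < T → T ≤ TT → Init G → Mono G → Est G

/-- curvature at the junction controlled by the oscillation of the angle -/
def S_INT : Prop :=
  ∀ (θ κ ks m : ℝ → ℝ) (A δ : ℝ), ContinuousOn m (Icc 0 1) → ContinuousOn ks (Icc 0 1) →
    (∀ p ∈ Icc (0 : ℝ) 1, 0 < m p) →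
    (∀ p ∈ Icc (0 : ℝ) 1, HasDerivWithinAt θ (m p * κ p) (Icc 0 1) p) →
    (∀ p ∈ Icc (0 : ℝ) 1, HasDerivWithinAt κ (m p * ks p) (Icc 0 1) p) →
    0 < δ → δ ≤ ∫ q in (0 : ℝ)..1, m q →
    (∀ p ∈ Icc (0 : ℝ) 1, ∫ q in (0 : ℝ)..p, m q ≤ δ → 0 ≤ θ p ∧ θ p ≤ A) →
    |κ 0| ^ 3 ≤ 8 * A * (∫ q in (0 : ℝ)..1, ks q ^ 2 * m q) + 8 * A ^ 3 / δ ^ 3

/-- energy bound before the singular time -/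
def S_B9 : Prop :=
  ∀ (T t₀ : ℝ) (G : GS T), T < TT → Mono G → Est G → t₀ ∈ Ioo 0 T →
    ∃ K, ∀ t ∈ Ico t₀ T, ∀ i, ∫ p in (0 : ℝ)..1, G.κ i t p ^ 2 * G.m i t p ≤ K

/-- consequence of the monotonicity formula -/
def S_B10 : Prop :=
  ∀ (G : GS TT), Mono G → Est G → ∀ ε > 0, ∀ t₁ ∈ Ioo 0 TT, ∃ t ∈ Ioo t₁ TT,
    ∫ p in (0 : ℝ)..1, |G.κ 0 t p + (G.y 0 t p * cos (G.θ 0 t p + αα 0)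
      - G.x 0 t p * sin (G.θ 0 t p + αα 0)) / σσ t ^ 2| * G.m 0 t p ≤ ε

/-- a priori bound -/
def S_APR : Prop :=
  ∀ (T : ℝ) (u : ℝ → St), 0 < T → T < TT → QS 0 T u → Cont0 T u → u 0 = d0 →
    ∃ K > 0, ∀ t ∈ Ico (T / 2) T, Adm K (u t)

end Pool.Agent.P.MP_cf7202_gt
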