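import Pool.Agent.P.MP_cf7202_gt.Spec
import Pool.Agent.P.MP_cf7202_gt.DefGeo

/-! Final data: three moving base curves, the symmetric network built from them, and the
statements of the assembly packages. -/

namespace Pool.Agent.P.MP_cf7202_gt

open Set Filter Topology Function Real
open scoped ContDiff ENNReal

/-- the unit vector of angle `φ` -/
noncomputable def ee (φ : ℝ) : ℂ := ⟨cos φ, sin φ⟩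

/-- a smooth moving curve with tangent angle `φ`, speed `m`, curvature `κ`, normal velocity `κ`
and tangential velocity `lam` -/
structure MC (a b : ℝ) (X : ℝ → ℝ → ℂ) (φ m κ lam : ℝ → ℝ → ℝ) : Prop where
  sX : ContDiffOn ℝ ∞ (uncurry X) (Ioo a b ×ˢ Icc 0 1)
  sφ : Sm a b φ
  sm : Sm a b m
  sκ : Sm a b κ
  pos : ∀ t ∈ Ioo a b, ∀ p ∈ Icc (0 : ℝ) 1, 0 < m t p
  Xp : ∀ t ∈ Ioo a b, ∀ p ∈ Icc (0 : ℝ) 1,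
    HasDerivWithinAt (X t) (m t p • ee (φ t p)) (Icc 0 1) p
  φp : ∀ t ∈ Ioo a b, ∀ p ∈ Icc (0 : ℝ) 1,
    HasDerivWithinAt (φ t) (m t p * κ t p) (Icc 0 1) p
  Xt : ∀ t ∈ Ioo a b, ∀ p ∈ Icc (0 : ℝ) 1, HasDerivAt (fun s => X s p)
    (lam t p • ee (φ t p) + κ t p • (Complex.I * ee (φ t p))) t

/-- final data: curve `0` is the full upper arc, curve `1` the short edge and curve `2` the long
edge in the first quadrant -/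
structure FD where
  a : ℝ
  T : ℝ
  X : Fin 3 → ℝ → ℝ → ℂ
  φ : Fin 3 → ℝ → ℝ → ℝ
  m : Fin 3 → ℝ → ℝ → ℝ
  κ : Fin 3 → ℝ → ℝ → ℝ
  lam : Fin 3 → ℝ → ℝ → ℝ
  ξ : ℝ → ℝ
  h : ℝ → ℝ
  ζ : ℝ → ℝ
  σ : ℝ → ℝ
  ha : a < 0
  hT : 0 < T
  hσ : ∀ t, σ t = √(2 * (T - t))
  hσ1 : ∀ t ∈ Ioo a T, σ t ≤ 1
  mc : ∀ i, MC a T (X i) (φ i) (m i) (κ i) (lam i)
  start : ∀ i, ∀ t ∈ Ioo a T, X i t 0 = ⟨ξ t, h t⟩
  end0 : ∀ t ∈ Ioo a T, X 0 t 1 = ⟨-ξ t, h t⟩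
  end1 : ∀ t ∈ Ioo a T, X 1 t 1 = ⟨ζ t, 0⟩
  end2 : ∀ t ∈ Ioo a T, X 2 t 1 = ⟨LL, ηη⟩
  ang0 : ∀ t ∈ Ioo a T, φ 0 t 0 = φ 2 t 0 + 2 * π / 3
  ang1 : ∀ t ∈ Ioo a T, φ 1 t 0 = φ 2 t 0 + 4 * π / 3
  ang0' : ∀ t ∈ Ioo a T, φ 0 t 1 = 2 * π - φ 0 t 0
  ang1' : ∀ t ∈ Ioo a T, φ 1 t 1 = 4 * π / 3
  r0 : ∀ t ∈ Ioo a T, ∀ p ∈ Icc (0 : ℝ) 1, 2 * π / 3 ≤ φ 0 t p ∧ φ 0 t p ≤ 4 * π / 3
  r1 : ∀ t ∈ Ioo a T, ∀ p ∈ Icc (0 : ℝ) 1, 4 * π / 3 ≤ φ 1 t p ∧ φ 1 t p ≤ 5 * π / 3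
  r2 : ∀ t ∈ Ioo a T, ∀ p ∈ Icc (0 : ℝ) 1, 0 ≤ φ 2 t p ∧ φ 2 t p ≤ π / 3
  hpos : ∀ t ∈ Ioo a T, 0 < h t
  hle : ∀ t ∈ Ioo a T, h t ≤ σ t ^ (1 + 1 / 32 : ℝ) / 1000
  hle' : ∀ t ∈ Ioo a T, h t ≤ σ t / 1000
  ξb : ∀ t ∈ Ioo a T, 1.04 * σ t ≤ ξ t ∧ ξ t ≤ 12 * σ t
  x1 : ∀ t ∈ Ioo a T, ∀ p ∈ Icc (0 : ℝ) 1, |(X 1 t p).re - ξ t| ≤ h t
  y0 : ∀ t ∈ Ioo a T, ∀ p ∈ Icc (0 : ℝ) 1, h t ≤ (X 0 t p).im ∧ (X 0 t p).im ≤ 25 * σ t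
  φ1 : ∀ t ∈ Ioo a T, ∀ p ∈ Icc (0 : ℝ) 1, φ 1 t p - 4 * π / 3 ≤ 10 / σ t * h t
  φ2 : ∀ t ∈ Ioo a T, ∀ p ∈ Icc (0 : ℝ) 1, φ 2 t p ≤ 10 / σ t * (X 2 t p).im
  y2 : ∀ t ∈ Ioo a T, ∀ p ∈ Icc (0 : ℝ) 1,
    (X 2 t p).im ≤ h t * exp (20 / σ t * ((X 2 t p).re - ξ t))
  diss : ∀ ε > 0, ∀ t₁ ∈ Ioo a T, ∃ t ∈ Ioo t₁ T, ∫ p in (0 : ℝ)..1,
    |κ 0 t p + ((X 0 t p).im * cos (φ 0 t p) - (X 0 t p).re * sin (φ 0 t p)) / σ t ^ 2|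
      * m 0 t p ≤ ε

/-- reflections in the coordinate axes -/
def sy (b c : Bool) (z : ℂ) : ℂ := ⟨if b then -z.re else z.re, if c then -z.im else z.im⟩

/-- the eleven curves: central segment, two arcs, four short edges, four long edges -/
abbrev Ix : Type := Unit ⊕ Bool ⊕ (Bool × Bool) ⊕ (Bool × Bool)

/-- the symmetric network -/
def FD.net (D : FD) : Ix → ℝ → ℝ → ℂ
  | .inl _ => fun t p => ⟨D.ζ t * (2 * p - 1), 0⟩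
  | .inr (.inl c) => fun t p => sy false c (D.X 0 t p)
  | .inr (.inr (.inl bc)) => fun t p => sy bc.1 bc.2 (D.X 1 t p)
  | .inr (.inr (.inr bc)) => fun t p => sy bc.1 bc.2 (D.X 2 t p)

/-- radius of the disc -/
noncomputable def RR : ℝ := √(LL ^ 2 + ηη ^ 2)

/-- tangent angle of the curves of the network -/
noncomputable def FD.ang (D : FD) : Ix → ℝ → ℝ → ℝ
  | .inl _ => fun _ _ => 0
  | .inr (.inl c) => fun t p => if c then -D.φ 0 t p else D.φ 0 t p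
  | .inr (.inr (.inl bc)) => fun t p =>
      if bc.1 then (if bc.2 then π + D.φ 1 t p else π - D.φ 1 t p)
      else (if bc.2 then -D.φ 1 t p else D.φ 1 t p)
  | .inr (.inr (.inr bc)) => fun t p =>
      if bc.1 then (if bc.2 then π + D.φ 2 t p else π - D.φ 2 t p)
      else (if bc.2 then -D.φ 2 t p else D.φ 2 t p)

/-- speed of the curves of the network -/
noncomputable def FD.spd (D : FD) : Ix → ℝ → ℝ → ℝ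
  | .inl _ => fun t _ => 2 * D.ζ t
  | .inr (.inl _) => D.m 0
  | .inr (.inr (.inl _)) => D.m 1
  | .inr (.inr (.inr _)) => D.m 2

/-- the final data exist -/
def S_FD : Prop := ∀ u : ℝ → St, QS 0 TT u → Cont0 TT u → u 0 = d0 → Nonempty FD

/-- elementary facts on moving curves and on the curves of the network -/
structure S_MC : Prop where
  vel : ∀ a b X φ m κ lam, MC a b X φ m κ lam → ∀ t ∈ Ioo a b, ∀ p ∈ Icc (0 : ℝ) 1,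
    vel (X t) p = m t p • ee (φ t p) ∧ ‖vel (X t) p‖ = m t p ∧ unitTan (X t) p = ee (φ t p)
  motion : ∀ a b X φ m κ lam, MC a b X φ m κ lam → ∀ t ∈ Ioo a b, ∀ p ∈ Icc (0 : ℝ) 1,
    nor (unitTan (X t) p) (deriv (fun s => X s p) t) = curv (X t) p
  net : ∀ (D : FD) (i : Ix), ∃ κ lam, MC D.a D.T (D.net i) (D.ang i) (D.spd i) κ lam
  resc : ∀ (a T : ℝ) (γ : Ix → ℝ → ℝ → ℂ) (i : Ix) φ m κ lam, MC a T (γ i) φ m κ lam →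
    ∀ t ∈ Ioo a T, ∀ p ∈ Icc (0 : ℝ) 1,
      unitTan (resc γ T 0 t i) p = ee (φ t p) ∧
      arc (resc γ T 0 t i) p = (√(2 * (T - t)))⁻¹ * ∫ q in (0 : ℝ)..p, m t q

/-- location of the points of the three base curves -/
structure Loc (D : FD) (t : ℝ) : Prop where
  ζ : |D.ζ t - D.ξ t| ≤ D.h t ∧ 0 < D.ζ t
  a0 : StrictAntiOn (fun p => (D.X 0 t p).re) (Icc 0 1)
  a1 : StrictAntiOn (fun p => (D.X 1 t p).im) (Icc 0 1)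
  a2 : StrictMonoOn (fun p => (D.X 2 t p).re) (Icc 0 1)
  a2' : MonotoneOn (fun p => (D.X 2 t p).im) (Icc 0 1)
  x1 : ∀ p ∈ Icc (0 : ℝ) 1, 0 < (D.X 1 t p).re
  len0 : ∫ q in (0 : ℝ)..1, D.m 0 t q ≤ 48 * D.σ t
  len1 : ∫ q in (0 : ℝ)..1, D.m 1 t q ≤ 2 * D.h t
  len2 : 1 ≤ ∫ q in (0 : ℝ)..1, D.m 2 t q
  x2 : ∀ p ∈ Icc (0 : ℝ) 1, (∫ q in (0 : ℝ)..p, D.m 2 t q) / 2 ≤ (D.X 2 t p).re - D.ξ t ∧
    (D.X 2 t p).re - D.ξ t ≤ ∫ q in (0 : ℝ)..p, D.m 2 t q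

def S_LOC : Prop := ∀ (D : FD), ∀ t ∈ Ioo D.a D.T, Loc D t

/-- embeddedness, position in the disc, connectedness -/
def S_NETA : Prop :=
  ∀ (D : FD), ∀ t ∈ Ioo D.a D.T,
    (∀ i, ∀ x ∈ Ioo (0 : ℝ) 1, D.net i t x ∈ Metric.ball (0 : ℂ) RR) ∧
    supp (slice D.net t) ⊆ closure (Metric.ball (0 : ℂ) RR) ∧
    (∀ i j, ∀ x ∈ Ioo (0 : ℝ) 1, ∀ y ∈ Icc (0 : ℝ) 1,
      D.net i t x = D.net j t y → i = j ∧ x = y) ∧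
    IsConnected (supp (slice D.net t))

/-- the ends of the four long edges on the circle are simple, the other ends are triple -/
def S_NETB : Prop :=
  ∀ (D : FD), ∀ t ∈ Ioo D.a D.T, ∀ e : Ix × Bool,
    ((∃ bc, e = (.inr (.inr (.inr bc)), true)) ∧
      endPt (slice D.net t) e ∈ frontier (Metric.ball (0 : ℂ) RR) ∧
      IsSimpleEnd (slice D.net t) e) ∨ IsTripleEnd (slice D.net t) e

def S_FLOW : Prop :=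
  ∀ (D : FD), IsFlow (Metric.ball 0 RR) D.net D.T ∧
    ∀ i, ContDiffOn ℝ ∞ (uncurry (D.net i)) (Ico 0 D.T ×ˢ Icc 0 1)

/-- `p` is approached by points of `S` from the direction `v` -/
def IsDir (S : Set ℂ) (p v : ℂ) : Prop :=
  ∀ ε > 0, ∃ q ∈ S, q ≠ p ∧ ‖q - p‖ < ε ∧ ‖(‖q - p‖⁻¹ : ℝ) • (q - p) - v‖ < ε

/-- a point of a regular network approached from three directions is a curve end -/
def S_BR : Prop :=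
  ∀ (ι : Type) [Finite ι] (Ω : Set ℂ) (σ : ι → ℝ → ℂ), IsRegNet Ω σ →
    ∀ p ∈ supp σ, ∀ v₁ v₂ v₃ : ℂ, v₁ ≠ v₂ → v₁ ≠ v₃ → v₂ ≠ v₃ →
      IsDir (supp σ) p v₁ → IsDir (supp σ) p v₂ → IsDir (supp σ) p v₃ → ∃ e, endPt σ e = p

def S_MAX : Prop := ∀ (D : FD), IsMaximal (Metric.ball 0 RR) D.net D.T

/-- global solutions of the shrinker equation in terms of position and angle -/
def S_ODE : Prop :=
  ∀ (z₀ : ℂ) (φ₀ : ℝ), ∃ (c : ℝ → ℂ) (Φ : ℝ → ℝ), c 0 = z₀ ∧ Φ 0 = φ₀ ∧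
    (∀ s, HasDerivAt c (ee (Φ s)) s) ∧
    (∀ s, HasDerivAt Φ ((c s).re * sin (Φ s) - (c s).im * cos (Φ s)) s) ∧ IsShrinkerCurve c

/-- stability for the shrinker equation with an integrable error -/
def S_GR : Prop :=
  ∀ (c : ℝ → ℂ) (Φ : ℝ → ℝ), (∀ s, HasDerivAt c (ee (Φ s)) s) →
    (∀ s, HasDerivAt Φ ((c s).re * sin (Φ s) - (c s).im * cos (Φ s)) s) →
    ∀ S : ℝ, ∀ ε > 0, ∃ δ > 0, ∀ (Y : ℝ → ℂ) (φ m k : ℝ → ℝ),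
      ContinuousOn m (Icc 0 1) → ContinuousOn k (Icc 0 1) → (∀ p ∈ Icc (0 : ℝ) 1, 0 < m p) →
      (∀ p ∈ Icc (0 : ℝ) 1, HasDerivWithinAt Y (m p • ee (φ p)) (Icc 0 1) p) →
      (∀ p ∈ Icc (0 : ℝ) 1, HasDerivWithinAt φ (m p * k p) (Icc 0 1) p) →
      ∫ q in (0 : ℝ)..1, m q ≤ S → ‖Y 0 - c 0‖ ≤ δ → |φ 0 - Φ 0| ≤ δ →
      ∫ q in (0 : ℝ)..1, |k q + ((Y q).im * cos (φ q) - (Y q).re * sin (φ q))| * m q ≤ δ →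
      ∀ p ∈ Icc (0 : ℝ) 1, ‖Y p - c (∫ q in (0 : ℝ)..p, m q)‖ ≤ ε ∧
        |φ p - Φ (∫ q in (0 : ℝ)..p, m q)| ≤ ε

/-- a good sequence of times -/
structure Seq (D : FD) (t : ℕ → ℝ) (r l : ℝ) : Prop where
  times : ∀ j, t j ∈ Ico 0 D.T
  lim : Tendsto t atTop (𝓝 D.T)
  ξ : Tendsto (fun j => D.ξ (t j) / D.σ (t j)) atTop (𝓝 r)
  ζ : Tendsto (fun j => D.ζ (t j) / D.σ (t j)) atTop (𝓝 r)
  h : Tendsto (fun j => D.h (t j) / D.σ (t j)) atTop (𝓝 0)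
  σ : Tendsto (fun j => D.σ (t j)) atTop (𝓝 0)
  len : Tendsto (fun j => (D.σ (t j))⁻¹ * ∫ q in (0 : ℝ)..1, D.m 0 (t j) q) atTop (𝓝 l)
  diss : Tendsto (fun j => ∫ p in (0 : ℝ)..1, |D.κ 0 (t j) p + ((D.X 0 (t j) p).im
    * cos (D.φ 0 (t j) p) - (D.X 0 (t j) p).re * sin (D.φ 0 (t j) p)) / D.σ (t j) ^ 2|
      * D.m 0 (t j) p) atTop (𝓝 0)

/-- `C¹_loc` convergence of a rescaled base curve -/
def Conv (D : FD) (t : ℕ → ℝ) (i : Fin 3) (c : ℝ → ℂ) : Prop :=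
  ∀ S : ℝ, ∀ ε > 0, ∀ᶠ j in atTop, ∀ p ∈ Icc (0 : ℝ) 1,
    (D.σ (t j))⁻¹ * ∫ q in (0 : ℝ)..p, D.m i (t j) q ≤ S →
      ‖(D.σ (t j))⁻¹ • D.X i (t j) p - c ((D.σ (t j))⁻¹ * ∫ q in (0 : ℝ)..p, D.m i (t j) q)‖ ≤ ε ∧
      ‖ee (D.φ i (t j) p) - deriv c ((D.σ (t j))⁻¹ * ∫ q in (0 : ℝ)..p, D.m i (t j) q)‖ ≤ ε

/-- selection of the times and convergence of the three base curves -/
def S_CONV : Prop :=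
  ∀ (D : FD), ∃ (t : ℕ → ℝ) (r l : ℝ) (c₀ c₁ : ℝ → ℂ), Seq D t r l ∧
    IsShrinkerCurve c₀ ∧ IsShrinkerCurve c₁ ∧ Conv D t 0 c₀ ∧ Conv D t 1 c₁ ∧
    Conv D t 2 (fun s => ((r + s : ℝ) : ℂ))

def S_BLOW : Prop :=
  ∀ (D : FD), ∃ (t : ℕ → ℝ) (c : Ix → ℝ → ℂ) (ℓ : Ix → ℝ≥0∞), IsBlowUp D.net D.T 0 t c ℓ ∧
    ∃ i i', i ≠ i' ∧ ℓ i = ⊤ ∧ ℓ i' = ⊤ ∧
      ∃ r : ℝ, ∀ s : ℝ, c i s = ((r + s : ℝ) : ℂ) ∧ c i' s = ((r + s : ℝ) : ℂ)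

end Pool.Agent.P.MP_cf7202_gt
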