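import Pool.Agent.P.MP_cf7202_gt.DefGeo

/-! The bootstrap argument and the a priori bound before the singular time. -/

namespace Pool.Agent.P.MP_cf7202_gt

open Set Filter Topology Function Real
open scoped ContDiff

namespace ESTAux

theorem eta_pos : 0 < ηη := by unfold ηη; positivity

theorem slice0 {b : ℝ} {f : ℝ → ℝ → ℝ} (hf : Ct0 b f) :
    ContinuousOn (fun t => f t 0) (Ico 0 b) := by
  have h1 : ContinuousOn (fun t : ℝ => ((t, (0 : ℝ)) : ℝ × ℝ)) (Ico 0 b) :=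
    (continuous_id.prodMk continuous_const).continuousOn
  exact ContinuousOn.comp (g := uncurry f) hf h1
    (fun t ht => ⟨ht, left_mem_Icc.2 zero_le_one⟩)

theorem sliceT {a b : ℝ} {f : ℝ → ℝ → ℝ} (hf : Ct a b f) {t : ℝ} (ht : t ∈ Ioo a b) :
    ContinuousOn (f t) (Icc 0 1) := by
  have h1 : ContinuousOn (fun x : ℝ => ((t, x) : ℝ × ℝ)) (Icc 0 1) :=
    (continuous_const.prodMk continuous_id).continuousOn
  exact ContinuousOn.comp (g := uncurry f) hf h1 (fun x hx => ⟨ht, hx⟩)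

theorem sliceSm {a b : ℝ} {f : ℝ → ℝ → ℝ} (hf : Sm a b f) {t : ℝ} (ht : t ∈ Ioo a b) :
    ContDiffOn ℝ 1 (f t) (Icc 0 1) := by
  have h1 : ContDiffOn ℝ ∞ (fun x : ℝ => ((t, x) : ℝ × ℝ)) (Icc 0 1) :=
    (contDiff_const.prodMk contDiff_id).contDiffOn
  have h2 : ContDiffOn ℝ ∞ (f t) (Icc 0 1) :=
    ContDiffOn.comp (g := uncurry f) hf h1 (fun x hx => ⟨ht, hx⟩)
  exact h2.of_le (by exact_mod_cast le_top)

theorem rpow_le_self {s : ℝ} (h0 : 0 < s) (h1 : s ≤ 1) : s ^ (1 + 1 / 32 : ℝ) ≤ s := by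
  have := Real.rpow_le_rpow_of_exponent_ge h0 h1 (show (1 : ℝ) ≤ 1 + 1 / 32 by norm_num)
  simpa using this

theorem sq_le_rpow {s : ℝ} (h0 : 0 < s) (h1 : s ≤ 1) : s ^ 2 ≤ s ^ (1 + 1 / 32 : ℝ) := by
  have := Real.rpow_le_rpow_of_exponent_ge h0 h1 (show (1 + 1 / 32 : ℝ) ≤ 2 by norm_num)
  simpa using this

/-- the bootstrap set -/
def BH {T : ℝ} (G : GS T) : Set ℝ :=
  {t | 1.04 * σσ t ≤ G.ξ t ∧ G.h t ≤ 400 * ηη * σσ t ^ (1 + 1 / 32 : ℝ)}

theorem small {N : S_NUM} {t h : ℝ} (h0 : 0 ≤ t) (hT : t < TT)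
    (hh : h ≤ 400 * ηη * σσ t ^ (1 + 1 / 32 : ℝ)) :
    h ≤ σσ t ^ (1 + 1 / 32 : ℝ) / 1000 ∧ h ≤ σσ t / 1000 := by
  have hp := N.pos t hT
  have hl := N.le t h0
  have h1 : 0 < σσ t ^ (1 + 1 / 32 : ℝ) := Real.rpow_pos_of_pos hp _
  have h2 := rpow_le_self hp (by linarith)
  have h3 : h ≤ σσ t ^ (1 + 1 / 32 : ℝ) / 1000 := by
    refine hh.trans ?_
    unfold ηη
    nlinarith
  exact ⟨h3, by linarith⟩

theorem bw_of {N : S_NUM} {T t₁ : ℝ} {G : GS T} (hT : T ≤ TT) (ht : t₁ ∈ Ico 0 T)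
    (hs : Icc 0 t₁ ⊆ BH G) : BW G t₁ := by
  intro t htt
  have h := hs htt
  exact ⟨h.1, (small (N := N) htt.1 (by linarith [htt.2, ht.2]) h.2).2⟩

theorem boot (N : S_NUM) (b4 : S_B4) (b5 : S_B5) (b6 : S_B6) (b7 : S_B7) {T : ℝ} (G : GS T)
    (hT : T ≤ TT) (hI : Init G) (hM : Mono G) {t₂ : ℝ} (ht₂ : t₂ ∈ Ico 0 T) :
    Icc 0 t₂ ⊆ BH G := by
  have cξ : ContinuousOn G.ξ (Ico 0 T) := slice0 (G.cx 0)
  have ch : ContinuousOn G.h (Ico 0 T) := slice0 (G.cy 0)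
  have c1 : Continuous fun t => 1.04 * σσ t := continuous_const.mul N.cont
  have c2 : Continuous fun t => 400 * ηη * σσ t ^ (1 + 1 / 32 : ℝ) :=
    continuous_const.mul (N.cont.rpow_const fun _ => Or.inr (by norm_num))
  have hsub : Icc 0 t₂ ⊆ Ico 0 T := fun t ht => ⟨ht.1, ht.2.trans_lt ht₂.2⟩
  refine IsClosed.Icc_subset_of_forall_mem_nhdsGT_of_Icc_subset ?_ ?_ ?_
  · have k1 : IsClosed {t ∈ Icc 0 t₂ | 1.04 * σσ t ≤ G.ξ t} :=
      isClosed_Icc.isClosed_le c1.continuousOn (cξ.mono hsub)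
    have k2 : IsClosed {t ∈ Icc 0 t₂ | G.h t ≤ 400 * ηη * σσ t ^ (1 + 1 / 32 : ℝ)} :=
      isClosed_Icc.isClosed_le (ch.mono hsub) c2.continuousOn
    convert k1.inter k2 using 1
    ext t
    simp only [BH, mem_inter_iff, mem_ofPred_eq]
    tauto
  · have hT0 : 0 < TT := by linarith [ht₂.1, ht₂.2]
    have hp := N.pos 0 hT0
    have hl := N.le 0 le_rfl
    have hsq := N.sq 0 hT0.le
    have h58 := N.TT.1
    refine ⟨by linarith [hI.ξ0], ?_⟩
    rw [hI.h0]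
    have h2 := sq_le_rpow hp (by linarith)
    have h3 : (0.58 : ℝ) ≤ σσ 0 ^ (1 + 1 / 32 : ℝ) := by linarith
    nlinarith [eta_pos]
  · intro t ht hs
    have htT : t ∈ Ico 0 T := hsub ⟨ht.1, ht.2.le⟩
    have htt : t ∈ Icc 0 t := ⟨ht.1, le_rfl⟩
    have bw := bw_of (N := N) hT htT hs
    have e4 := b4 T t G hT hI hM htT bw
    have e5 := b5 T t G hT hI hM htT bw
    have e6 := b6 T t G hT hI hM htT bw e5
    have e7 := b7 T t G hT hI hM htT bw (fun r hr => (hs hr).2) (fun r hr => (e6 r hr).2.2.1)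
    have hp := N.pos t (by linarith [htT.2])
    have s1 : 1.04 * σσ t < G.ξ t := by linarith [(e4 t htt).1]
    have s2 : G.h t < 400 * ηη * σσ t ^ (1 + 1 / 32 : ℝ) := by
      have h1 : 0 < σσ t ^ (1 + 1 / 32 : ℝ) := Real.rpow_pos_of_pos hp _
      have h2 := mul_pos eta_pos h1
      linarith [e7 t htt]
    have hle : 𝓝[>] t ≤ 𝓝[Ico 0 T] t := by
      refine nhdsWithin_le_of_mem ?_
      exact mem_of_superset (Ioo_mem_nhdsGT htT.2) fun r hr => ⟨htT.1.trans hr.1.le, hr.2⟩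
    have v1 : ∀ᶠ r in 𝓝[Ico 0 T] t, 1.04 * σσ r < G.ξ r :=
      Filter.Tendsto.eventually_lt (c1.continuousWithinAt (s := Ico 0 T)) (cξ t htT) s1
    have v2 : ∀ᶠ r in 𝓝[Ico 0 T] t, G.h r < 400 * ηη * σσ r ^ (1 + 1 / 32 : ℝ) :=
      Filter.Tendsto.eventually_lt (ch t htT) (c2.continuousWithinAt (s := Ico 0 T)) s2
    filter_upwards [hle v1, hle v2] with r h1 h2
    exact ⟨le_of_lt h1, le_of_lt h2⟩

theorem gg_bd {x : ℝ} (hx : x ∈ Icc (0 : ℝ) 1) : 0 ≤ gg x ∧ gg x ≤ 3 / 2 := by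
  unfold gg
  obtain ⟨h0, h1⟩ := hx
  constructor <;> nlinarith [sq_nonneg (x - 1)]

theorem gg_cont : Continuous gg := by unfold gg; fun_prop

theorem mm_cont (L : Fin 3 → ℝ) (i : Fin 3) : Continuous (mm L i) := by
  have := gg_cont
  unfold mm
  fun_prop

theorem int_mm (L : Fin 3 → ℝ) (i : Fin 3) : ∫ q in (0 : ℝ)..1, mm L i q = L i := by
  have hd : ∀ q ∈ uIcc (0 : ℝ) 1,
      HasDerivAt (fun q : ℝ => L 1 * q + (L i - L 1) * (3 / 2 * q ^ 2 - q ^ 3 / 2))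
        (mm L i q) q := by
    intro q _
    have h1 : HasDerivAt (fun q : ℝ => L 1 * q + (L i - L 1) * (3 / 2 * q ^ 2 - q ^ 3 / 2))
        (L 1 * 1 + (L i - L 1) * (3 / 2 * (((2 : ℕ) : ℝ) * q ^ (2 - 1))
          - (((3 : ℕ) : ℝ) * q ^ (3 - 1)) / 2)) q :=
      ((hasDerivAt_id q).const_mul (L 1)).add
        ((((hasDerivAt_pow 2 q).const_mul (3 / 2)).sub
          ((hasDerivAt_pow 3 q).div_const 2)).const_mul (L i - L 1))
    convert h1 using 1
    unfold mm gg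
    push_cast
    ring
  rw [intervalIntegral.integral_eq_sub_of_hasDerivAt hd ((mm_cont L i).intervalIntegrable _ _)]
  ring

theorem LL_bd : 30 ≤ LL ∧ LL ≤ 31 := by
  unfold LL
  have h0 : 0 ≤ √3 := Real.sqrt_nonneg 3
  have h1 : √3 ≤ 2 := by
    rw [Real.sqrt_le_left (by norm_num)]
    norm_num
  constructor <;> linarith

theorem sigma_anti {s t : ℝ} (h : s ≤ t) : σσ t ≤ σσ s := by
  unfold σσ
  exact Real.sqrt_le_sqrt (by linarith)

end ESTAux

open ESTAux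

theorem est : S_TK → S_NUM → S_B4 → S_B5 → S_B6 → S_B7 → S_EST := by
  intro _ N b4 b5 b6 b7 T G _ hT hI hM
  have hb : ∀ t ∈ Ico 0 T, Icc 0 t ⊆ BH G := fun t ht => boot N b4 b5 b6 b7 G hT hI hM ht
  have bw : ∀ t ∈ Ico 0 T, BW G t := fun t ht => bw_of (N := N) hT ht (hb t ht)
  have e4 := fun t ht => b4 T t G hT hI hM ht (bw t ht) t ⟨ht.1, le_rfl⟩
  have e6 := fun t ht => b6 T t G hT hI hM ht (bw t ht) (b5 T t G hT hI hM ht (bw t ht)) t
    ⟨ht.1, le_rfl⟩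
  have hbt : ∀ t ∈ Ico 0 T, t ∈ BH G := fun t ht => hb t ht ⟨ht.1, le_rfl⟩
  have hs := fun t (ht : t ∈ Ico 0 T) =>
    small (N := N) ht.1 (by linarith [ht.2]) (hbt t ht).2
  exact
    { ξ := fun t ht => ⟨(hbt t ht).1, (e6 t ht).2.2.1⟩
      h := fun t ht => (hs t ht).1
      h' := fun t ht => (hs t ht).2
      θ := fun i t ht => (e6 t ht).1 i
      κ0 := fun t ht => (e4 t ⟨ht.1.le, ht.2⟩).2 ht.1
      κ1 := fun t ht => (e6 t ⟨ht.1.le, ht.2⟩).2.1 ht.1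
      y2 := fun t ht => (e6 t ht).2.2.2 }

theorem apr : S_TK → S_NUM → S_GS → S_INIT → S_MONO → S_EST → S_B9 → S_APR := by
  intro _ N gs ini mono hest b9 T u hT0 hT hQ hC hu0
  obtain ⟨⟨K₀, hK₀, hA₀⟩, hini⟩ := ini
  obtain ⟨G, gθ, gm, gκ, -, -⟩ := gs T K₀ u hT0 hQ hC (hu0 ▸ hA₀) hK₀
  have hI : Init G := by
    refine hini T G hT0 (fun i p => ?_) (fun i p => ?_)
    · rw [gθ, th, hu0]
    · rw [gm, me, hu0]
  have hM : Mono G := mono T G hT0 hT.le hI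
  have hE : Est G := hest T G hT0 hT.le hI hM
  obtain ⟨K₉, hK₉⟩ := b9 T (T / 2) G hT hM hE ⟨by linarith, by linarith⟩
  have hσT := N.pos T hT
  set c : ℝ := ηη * exp (-(20 / σσ T * LL)) with hc
  have hc0 : 0 < c := mul_pos eta_pos (exp_pos _)
  have hci : 0 < c⁻¹ := inv_pos.2 hc0
  refine ⟨100 * |K₉| + 62 + c⁻¹, by positivity, fun t ht => ?_⟩
  have ht0 : 0 < t := by linarith [ht.1]
  have hto : t ∈ Ioo 0 T := ⟨ht0, ht.2⟩
  have htc : t ∈ Ico 0 T := ⟨ht0.le, ht.2⟩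
  have hs : ∀ i, G.s i t 1 = (u t).2 i := by
    intro i
    unfold GS.s
    rw [gm]
    exact int_mm _ i
  have hσ := N.pos t (by linarith [ht.2])
  have hσ' := N.le t ht0.le
  have hσm : σσ T ≤ σσ t := sigma_anti ht.2.le
  obtain ⟨hL1, hL2⟩ := LL_bd
  obtain ⟨x1, x2⟩ := hE.ξ t htc
  have hh := hE.h' t htc
  have hh0 := hM.hpos t htc
  obtain ⟨a0, b0⟩ := hM.s0 t htc
  obtain ⟨a1, b1⟩ := hM.s1 t htc
  obtain ⟨a2, b2⟩ := hM.s2 t htc
  rw [hs] at a0 b0 a1 b1 a2 b2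
  have hch : c ≤ G.h t := by
    have h1 := hE.y2 t htc 1 (right_mem_Icc.2 zero_le_one)
    rw [hM.ey t htc, hM.ex t htc] at h1
    have h2 : 20 / σσ t * (LL - G.ξ t) ≤ 20 / σσ T * LL := by
      have h3 : 20 / σσ t ≤ 20 / σσ T := by gcongr
      have h4 : 0 < 20 / σσ t := by positivity
      calc 20 / σσ t * (LL - G.ξ t) ≤ 20 / σσ t * LL := by
            apply mul_le_mul_of_nonneg_left _ h4.le
            linarith
        _ ≤ 20 / σσ T * LL := by
            apply mul_le_mul_of_nonneg_right h3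
            linarith
    have h5 : ηη ≤ G.h t * exp (20 / σσ T * LL) :=
      h1.trans (mul_le_mul_of_nonneg_left (exp_le_exp.2 h2) hh0.le)
    rw [hc, exp_neg, ← div_eq_mul_inv, div_le_iff₀ (exp_pos _)]
    exact h5
  have hLi : ∀ i, (u t).2 1 ≤ (u t).2 i ∧ (u t).2 i ≤ 62 := by
    intro i
    fin_cases i
    · constructor
      · change (u t).2 1 ≤ (u t).2 0
        linarith
      · change (u t).2 0 ≤ 62
        linarith
    · constructor
      · exact le_rfl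
      · change (u t).2 1 ≤ 62
        linarith
    · constructor
      · change (u t).2 1 ≤ (u t).2 2
        linarith
      · change (u t).2 2 ≤ 62
        linarith
  have hmm : ∀ i, ∀ x ∈ Icc (0 : ℝ) 1, c ≤ mm (u t).2 i x ∧ mm (u t).2 i x ≤ 100 := by
    intro i x hx
    obtain ⟨g0, g1⟩ := gg_bd hx
    obtain ⟨l0, l1⟩ := hLi i
    have k0 : 0 ≤ ((u t).2 i - (u t).2 1) * gg x := mul_nonneg (by linarith) g0
    have k1 : ((u t).2 i - (u t).2 1) * gg x ≤ ((u t).2 i - (u t).2 1) * (3 / 2) :=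
      mul_le_mul_of_nonneg_left g1 (by linarith)
    unfold mm
    constructor <;> linarith
  have habs := abs_nonneg K₉
  refine
    { nrm := hQ.nrm t hto
      c1 := fun i => sliceSm (hQ.sth i) hto
      j0 := fun i => hQ.j0 t hto i
      e0 := hQ.e0 t hto
      e1 := hQ.e1 t hto
      en := fun i => ?_
      lo := fun i x hx => ?_
      hi := fun i => ?_ }
  · have hκ : ContinuousOn (G.κ i t) (Icc 0 1) := sliceT (G.cκ i) hto
    have hm : ContinuousOn (G.m i t) (Icc 0 1) := by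
      rw [gm]
      exact (mm_cont _ i).continuousOn
    have e1 : ∫ x in (0 : ℝ)..1, derivWithin ((u t).1 i) (Icc 0 1) x ^ 2
        = ∫ x in (0 : ℝ)..1, (G.κ i t x * G.m i t x) ^ 2 := by
      refine intervalIntegral.integral_congr fun x hx => ?_
      rw [uIcc_of_le zero_le_one] at hx
      have hp := hQ.pos t hto i x hx
      have e2 : G.κ i t x * G.m i t x = derivWithin ((u t).1 i) (Icc 0 1) x := by
        rw [gκ, gm, ka, div_mul_cancel₀ _ hp.ne']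
        rfl
      simp only [e2]
    have e3 : ∫ x in (0 : ℝ)..1, (G.κ i t x * G.m i t x) ^ 2
        ≤ ∫ x in (0 : ℝ)..1, 100 * (G.κ i t x ^ 2 * G.m i t x) := by
      refine intervalIntegral.integral_mono_on zero_le_one ?_ ?_ fun x hx => ?_
      · exact ((hκ.mul hm).pow 2).intervalIntegrable_of_Icc zero_le_one
      · exact (continuousOn_const.mul ((hκ.pow 2).mul hm)).intervalIntegrable_of_Icc zero_le_one
      · have m0 := G.mpos i t htc x hx
        have m1 : G.m i t x ≤ 100 := by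
          rw [gm]
          exact (hmm i x hx).2
        have k0 : 0 ≤ G.κ i t x ^ 2 * G.m i t x := by positivity
        calc (G.κ i t x * G.m i t x) ^ 2 = G.m i t x * (G.κ i t x ^ 2 * G.m i t x) := by ring
          _ ≤ 100 * (G.κ i t x ^ 2 * G.m i t x) := mul_le_mul_of_nonneg_right m1 k0
    rw [intervalIntegral.integral_const_mul] at e3
    have e4 := hK₉ t ht i
    have e5 := le_abs_self K₉
    rw [e1]
    linarith
  · refine le_trans ?_ (hmm i x hx).1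
    rw [inv_le_comm₀ (by positivity) hc0]
    linarith
  · obtain ⟨l0, l1⟩ := hLi i
    rw [abs_of_nonneg (by linarith)]
    linarith

end Pool.Agent.P.MP_cf7202_gt
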