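import Pool.Agent.P.MP_cf7202_gt.DefAbs

/-! Existence of a family of strong solutions that depends smoothly on the time scale. -/

namespace Pool.Agent.P.MP_cf7202_gt

open Set Filter Topology Function MeasureTheory
open scoped ContDiff ENNReal

namespace EXMUAux

theorem exists_eps {C γ c R δ τ : ℝ} (hC : 0 ≤ C) (hγ : 0 < γ) (hc : 0 < c) (hR : 0 < R)
    (hδ : 0 < δ) (hτ : 0 < τ) :
    ∃ ε : ℝ, 0 < ε ∧ ε ≤ 1 ∧ 6 * (C * ε) ≤ γ ∧ 2 * ε ≤ c ∧ ε * (2 * R) ≤ δ ∧ ε ^ 4 / c ≤ τ := by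
  obtain ⟨ε, h0, h1, h2, h3, h4, h5⟩ : ∃ ε : ℝ, 0 < ε ∧ ε ≤ 1 ∧ ε ≤ γ / (6 * (C + 1)) ∧
      ε ≤ c / 2 ∧ ε ≤ δ / (2 * R) ∧ ε ≤ c * τ := by
    refine ⟨min 1 (min (γ / (6 * (C + 1))) (min (c / 2) (min (δ / (2 * R)) (c * τ)))),
      by positivity, min_le_left _ _, ?_, ?_, ?_, ?_⟩ <;> simp
  refine ⟨ε, h0, h1, ?_, by linarith, ?_, ?_⟩
  · rw [le_div_iff₀ (by positivity)] at h2
    nlinarith
  · rwa [le_div_iff₀ (by positivity)] at h4
  · rw [div_le_iff₀ hc]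
    have : ε ^ 4 ≤ ε := pow_le_of_le_one h0.le h1 (by norm_num)
    linarith

variable {H V : Type} [NormedAddCommGroup H] [InnerProductSpace ℝ H]
  [NormedAddCommGroup V] [NormedSpace ℝ V]

/-- the state attached to a point of the space in which the fixed point is sought -/
noncomputable def st (ε : ℝ) (L0 : V) (U1 : C(II, H)) (U2 : L2 H) (S1 : L2 H →L[ℝ] C(II, H))
    (S2 : L2 H →L[ℝ] L2 H) (x : L2 H × C(II, V)) : C(II, V) × C(II, H) × L2 H :=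
  (ContinuousMap.const II L0 + ε • x.2, U1 + S1 x.1, U2 + S2 x.1)

theorem st_smooth (ε : ℝ) (L0 : V) (U1 : C(II, H)) (U2 : L2 H) (S1 : L2 H →L[ℝ] C(II, H))
    (S2 : L2 H →L[ℝ] L2 H) : ContDiff ℝ ∞ (st ε L0 U1 U2 S1 S2) :=
  (contDiff_const.add (contDiff_snd.const_smul ε)).prodMk
    ((contDiff_const.add (S1.contDiff.comp contDiff_fst)).prodMk
      (contDiff_const.add (S2.contDiff.comp contDiff_fst)))

theorem R2_smul {K : Type} (M : Modes H K) {b : ℝ} (hb : b ≠ 0) {h1 h2 : H}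
    (h : M.R2 (b • h1) h2) : M.R2 h1 (b⁻¹ • h2) := by
  intro k
  rw [inner_smul_right, h k, inner_smul_right]
  field_simp

end EXMUAux

open EXMUAux in
theorem exmu : S_MR → S_AEST → S_DYN → S_FIX → S_EXMU := by
  intro mr aest dyn fix H V Y K _ _ _ _ _ _ _ _ _ _ S R δ hR hδ
  have hγ := S.hγ
  have hγ1 := S.hγ1
  have hc := S.hc
  obtain ⟨R1, hR1⟩ : ∃ R1 : ℝ, S.γ * R1 = R + 1 := ⟨(R + 1) / S.γ, by field_simp⟩
  have hR1p : 0 < R1 := (mul_pos_iff_of_pos_left hγ).1 (by linarith)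
  have hR11 : 1 ≤ R1 := by nlinarith
  obtain ⟨C, hC, hE⟩ := aest H V Y K S (R + 2 * R1) (by linarith)
  refine ⟨max (R + 2 * R1) (√(2 / S.c) * (R + 2 * R1)), le_max_of_le_left (by linarith),
    fun τ₀ hτ₀ => ?_⟩
  obtain ⟨ε, hε, hε1, hεC, hεc, hεδ, hετ⟩ := exists_eps hC hγ hc hR1p hδ hτ₀
  refine ⟨ε ^ 4 / S.c, ⟨by positivity, hετ⟩, fun L0 h0 h1 hU hr1 hh1 => ?_⟩
  have hb : 0 < ε ^ 2 := by positivity
  obtain ⟨S1, S2, nS1, nS2, hM⟩ := mr H K S.M (ε ^ 2) hb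
  obtain ⟨U1, U2, nU1, nU2, hM1, -⟩ := hM h0 h1 hr1
  obtain ⟨w, G, -, sw, sG, hwG⟩ := dyn H V Y K S ε
  set s : L2 H × C(II, V) → C(II, V) × C(II, H) × L2 H := st ε L0 U1 U2 S1 S2 with hs
  have hmem : ∀ x : L2 H × C(II, V), ‖x‖ < 2 * R1 → ∀ t, (s x).1 t ∈ S.U := by
    intro x hx t
    apply hU
    have h2 : ‖x.2 t‖ < 2 * R1 :=
      ((x.2.norm_coe_le_norm t).trans (norm_snd_le x)).trans_lt hx
    rw [mem_ball_iff_norm]
    have e : (s x).1 t - L0 = ε • x.2 t := by simp [hs, st]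
    rw [e, norm_smul, Real.norm_of_nonneg hε.le]
    exact (mul_lt_mul_of_pos_left h2 hε).trans_le hεδ
  have n1 : ∀ x : L2 H × C(II, V), ‖(s x).2.1‖ ≤ R + ‖x‖ := fun x =>
    (norm_add_le U1 (S1 x.1)).trans (add_le_add (nU1.trans hh1) ((nS1 _).trans (norm_fst_le x)))
  have n2 : ∀ x : L2 H × C(II, V), ‖(s x).2.2‖ ≤ R + ‖x‖ := fun x =>
    (norm_add_le U2 (S2 x.1)).trans (add_le_add (nU2.trans hh1) ((nS2 _).trans (norm_fst_le x)))
  have d0 : ∀ x y : L2 H × C(II, V), ‖(s x).1 - (s y).1‖ ≤ ε * ‖x - y‖ := by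
    intro x y
    have e : (s x).1 - (s y).1 = ε • (x - y).2 := by simp [hs, st, smul_sub]
    rw [e, norm_smul, Real.norm_of_nonneg hε.le]
    exact mul_le_mul_of_nonneg_left (norm_snd_le _) hε.le
  have d1 : ∀ x y : L2 H × C(II, V), ‖(s x).2.1 - (s y).2.1‖ ≤ ‖x - y‖ := by
    intro x y
    have e : (s x).2.1 - (s y).2.1 = S1 (x - y).1 := by simp [hs, st]
    rw [e]
    exact (nS1 _).trans (norm_fst_le _)
  have d2 : ∀ x y : L2 H × C(II, V), ‖(s x).2.2 - (s y).2.2‖ ≤ ‖x - y‖ := by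
    intro x y
    have e : (s x).2.2 - (s y).2.2 = S2 (x - y).1 := by simp [hs, st]
    rw [e]
    exact (nS2 _).trans (norm_fst_le _)
  have hE' := fun μ (hμ : μ ∈ Ioo (1 / 2 : ℝ) 2) (x y : L2 H × C(II, V)) (hx : ‖x‖ < 2 * R1)
      (hy : ‖y‖ < 2 * R1) =>
    hE ε ⟨hε, hε1⟩ μ (Ioo_subset_Icc_self hμ) (s x).1 (s y).1 (s x).2.1 (s y).2.1 (s x).2.2
      (s y).2.2 (G (s x)) (G (s y)) (w (s x)) (w (s y)) (hmem x hx) (hmem y hy)
      ((n1 x).trans (by linarith)) ((n1 y).trans (by linarith)) ((n2 x).trans (by linarith))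
      ((n2 y).trans (by linarith)) (hwG _ (hmem x hx)).1 (hwG _ (hmem y hy)).1
      (hwG _ (hmem x hx)).2 (hwG _ (hmem y hy)).2
  have hco : ∀ μ ∈ Ioo (1 / 2 : ℝ) 2, ‖μ * ε / S.c‖ ≤ 1 := by
    intro μ hμ
    have h2 : 0 < μ := by linarith [hμ.1]
    rw [Real.norm_of_nonneg (by positivity), div_le_one hc]
    nlinarith [hμ.2]
  have hJ : ∀ μ ∈ Ioo (1 / 2 : ℝ) 2, ∀ f : L2 V, ‖(μ * ε / S.c) • JJ f‖ ≤ ‖f‖ := by
    intro μ hμ f
    rw [norm_smul]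
    exact (mul_le_of_le_one_left (norm_nonneg _) (hco μ hμ)).trans (JJ_norm f)
  let Φ : ℝ × (L2 H × C(II, V)) → L2 H × C(II, V) := fun p =>
    ((p.1 / S.c) • G (s p.2) - (s p.2).2.2, (p.1 * ε / S.c) • JJ (w (s p.2)))
  have hsm : ContDiff ℝ ∞ fun p : ℝ × (L2 H × C(II, V)) => s p.2 :=
    (st_smooth ε L0 U1 U2 S1 S2).comp contDiff_snd
  have hmaps : MapsTo (fun p : ℝ × (L2 H × C(II, V)) => s p.2)
      (Ioo (1 / 2 : ℝ) 2 ×ˢ Metric.ball 0 (2 * R1)) {s | ∀ t, s.1 t ∈ S.U} :=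
    fun p hp => hmem p.2 (mem_ball_zero_iff.1 hp.2)
  obtain ⟨z, sz, hz⟩ := fix (L2 H × C(II, V)) Φ (1 / 2) 2 R1 (1 - S.γ / 2) hR1p (by linarith)
    (by linarith)
    ((((contDiff_fst.div_const S.c).contDiffOn.smul (sG.comp hsm.contDiffOn hmaps)).sub
      hsm.snd.snd.contDiffOn).prodMk
      (((contDiff_fst.mul contDiff_const).div_const S.c).contDiffOn.smul
        ((JJ : L2 V →L[ℝ] C(II, V)).contDiff.comp_contDiffOn (sw.comp hsm.contDiffOn hmaps))))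
    (by
      intro μ hμ x hx y hy
      obtain ⟨-, -, e3, e4⟩ := hE' μ hμ x y (mem_ball_zero_iff.1 hx) (mem_ball_zero_iff.1 hy)
      have a0 := d0 x y
      have a1 := d1 x y
      have a2 := d2 x y
      have a3 := norm_nonneg (x - y)
      have a4 : 0 ≤ C * ε := by positivity
      have a5 : ε * ‖x - y‖ ≤ ‖x - y‖ := mul_le_of_le_one_left a3 hε1
      have a6 : C * ε * (3 * ‖x - y‖) ≤ S.γ / 2 * ‖x - y‖ := by nlinarith
      rw [Prod.norm_def]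
      apply max_le
      · refine e4.trans ?_
        have b1 : (1 - S.γ) * ‖(s x).2.2 - (s y).2.2‖ ≤ (1 - S.γ) * ‖x - y‖ :=
          mul_le_mul_of_nonneg_left a2 (by linarith)
        have b2 : C * ‖(s x).1 - (s y).1‖ ≤ C * (ε * ‖x - y‖) := mul_le_mul_of_nonneg_left a0 hC
        have b3 : C * ε * (‖(s x).2.1 - (s y).2.1‖ + ‖(s x).2.2 - (s y).2.2‖) ≤
            C * ε * (2 * ‖x - y‖) := mul_le_mul_of_nonneg_left (by linarith) a4
        nlinarith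
      · have e : (Φ (μ, x) - Φ (μ, y)).2 = (μ * ε / S.c) • JJ (w (s x) - w (s y)) := by
          simp only [Φ, Prod.snd_sub, map_sub, smul_sub]
        rw [e]
        refine (hJ μ hμ _).trans (e3.trans ?_)
        have b3 : C * ε * (‖(s x).1 - (s y).1‖ + ‖(s x).2.1 - (s y).2.1‖ +
            ‖(s x).2.2 - (s y).2.2‖) ≤ C * ε * (3 * ‖x - y‖) :=
          mul_le_mul_of_nonneg_left (by linarith) a4
        have b4 : S.γ * ‖x - y‖ ≤ ‖x - y‖ := mul_le_of_le_one_left a3 hγ1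
        linarith)
    (by
      intro μ hμ x hx
      obtain ⟨e1, e2, -, -⟩ := hE' μ hμ x x (by linarith) (by linarith)
      rw [Prod.norm_def]
      apply max_le
      · refine e2.trans ?_
        have b1 : (1 - S.γ) * ‖(s x).2.2‖ ≤ (1 - S.γ) * (R + R1) :=
          mul_le_mul_of_nonneg_left ((n2 x).trans (by linarith)) (by linarith)
        have b2 : 0 ≤ S.γ * R := by positivity
        nlinarith
      · exact (hJ μ hμ _).trans (e1.trans (by linarith)))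
  have hsz : ContDiffOn ℝ ∞ (fun μ => s (z μ)) (Ioo (1 / 2) 2) :=
    (st_smooth ε L0 U1 U2 S1 S2).comp_contDiffOn sz
  refine ⟨fun μ => (s (z μ)).1,
    fun μ => ContinuousMap.const II h0 + ε ^ 2 • JJ ((s (z μ)).2.2 + (z μ).1),
    fun μ => (s (z μ)).2.1, fun μ => (ε ^ 2)⁻¹ • (s (z μ)).2.2, fun μ => (ε ^ 2)⁻¹ • G (s (z μ)),
    fun μ => (ε ^ 2)⁻¹ • w (s (z μ)), hsz.fst,
    contDiffOn_const.add (((JJ : L2 H →L[ℝ] C(II, H)).contDiff.comp_contDiffOn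
      (hsz.snd.snd.add sz.fst)).const_smul (ε ^ 2)), hsz.snd.fst, fun μ hμ => ?_⟩
  obtain ⟨nz, fz⟩ := hz μ hμ
  have hμ0 : 0 < μ := by linarith [hμ.1]
  beta_reduce
  generalize z μ = x at nz fz ⊢
  have hx : ‖x‖ < 2 * R1 := by linarith
  have f1 : (μ / S.c) • G (s x) - (s x).2.2 = x.1 := congrArg Prod.fst fz
  have f2 : (μ * ε / S.c) • JJ (w (s x)) = x.2 := congrArg Prod.snd fz
  obtain ⟨m0, m1, m2⟩ := hM1 x.1
  have eL : ∀ t, (s x).1 t = L0 + (μ * (ε ^ 4 / S.c)) • JJ ((ε ^ 2)⁻¹ • w (s x)) t := by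
    intro t
    have e : (s x).1 t = L0 + ε • x.2 t := by simp [hs, st]
    rw [e, ← f2, map_smul, ContinuousMap.smul_apply, ContinuousMap.smul_apply, smul_smul,
      smul_smul]
    congr 2
    field_simp
  have eL0 : (s x).1 0 = L0 := by rw [eL, JJ_zero, smul_zero, add_zero]
  have eD : ∀ t, (ContinuousMap.const II h0 + ε ^ 2 • JJ ((s x).2.2 + x.1)) t =
      h0 + ε ^ 2 • JJ ((s x).2.2 + x.1) t := fun t => rfl
  have eD0 : (ContinuousMap.const II h0 + ε ^ 2 • JJ ((s x).2.2 + x.1)) 0 = h0 := by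
    rw [eD, JJ_zero, smul_zero, add_zero]
  have r2 : ∀ᵐ t : II, S.M.R2 ((s x).2.1 t) (((ε ^ 2)⁻¹ • (s x).2.2) t) := by
    filter_upwards [m2, Lp.coeFn_smul (ε ^ 2)⁻¹ (s x).2.2] with t h2 h3
    rw [h3, Pi.smul_apply]
    exact R2_smul S.M hb.ne' h2
  obtain ⟨aw, aG⟩ := hwG _ (hmem x hx)
  refine ⟨⟨hmem x hx, m1, r2, ?_, ?_, fun t => by rw [eL0, eL], fun t => ?_⟩, eL0, eD0, m0,
    le_max_of_le_left ((n1 x).trans (by linarith)), le_max_of_le_right ?_⟩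
  · filter_upwards [r2, aw, Lp.coeFn_smul (ε ^ 2)⁻¹ (s x).2.2, Lp.coeFn_smul (ε ^ 2)⁻¹ (w (s x))]
      with t h2 h3 h4 h5
    rw [h5, Pi.smul_apply, h3, Sys.v, ← S.hT ε ⟨hε, hε1⟩ _ _ h2, h4, Pi.smul_apply, Sys.vh]
    simp only [map_add, map_smul, smul_add, smul_smul, inv_mul_cancel₀ hb.ne', one_smul]
  · filter_upwards [aG, Lp.coeFn_smul (ε ^ 2)⁻¹ (s x).2.2, Lp.coeFn_smul (ε ^ 2)⁻¹ (w (s x)),
      Lp.coeFn_smul (ε ^ 2)⁻¹ (G (s x))] with t h3 h4 h5 h6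
    rw [h6, Pi.smul_apply, h3, Sys.F, h4, h5, Pi.smul_apply, Pi.smul_apply, Sys.Gh]
    simp only [map_smul, smul_add, smul_smul, inv_mul_cancel₀ hb.ne', one_smul]
  · rw [eD0, eD, ← f1, add_sub_cancel, map_smul, map_smul, ContinuousMap.smul_apply,
      ContinuousMap.smul_apply, smul_smul, smul_smul]
    congr 2
    field_simp
  · have e : √(μ * (ε ^ 4 / S.c)) = √(μ / S.c) * ε ^ 2 := by
      rw [show μ * (ε ^ 4 / S.c) = μ / S.c * (ε ^ 2) ^ 2 by ring,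
        Real.sqrt_mul (by positivity), Real.sqrt_sq hb.le]
    rw [e, norm_smul, Real.norm_of_nonneg (by positivity), mul_assoc, ← mul_assoc (ε ^ 2),
      mul_inv_cancel₀ hb.ne', one_mul]
    exact mul_le_mul (Real.sqrt_le_sqrt (div_le_div_of_nonneg_right hμ.2.le hc.le))
      ((n2 x).trans (by linarith)) (norm_nonneg _) (Real.sqrt_nonneg _)

end Pool.Agent.P.MP_cf7202_gt
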