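import Pool.Agent.P.MP_cf7202_gt.Scale

/-! Smoothness in time of the strong solution, by the scaling trick. -/

namespace Pool.Agent.P.MP_cf7202_gt

open Set Filter Topology Function MeasureTheory
open scoped ContDiff

namespace EXSMAux

/-- a smooth family of curves with the scaling property is smooth in time -/
theorem smooth_of_scale {E : Type} [NormedAddCommGroup E] [NormedSpace ℝ E]
    (Z : ℝ → C(II, E)) (hZ : ContDiffOn ℝ ∞ Z (Ioo (1 / 2) 2))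
    (hs : ∀ ρ : II, 1 / 3 < (ρ : ℝ) → (Z (3 / 2)).comp (scm ρ) = Z (ρ * (3 / 2))) :
    ContDiffOn ℝ ∞ (fun s : ℝ => Z (3 / 2) (pj s)) (Ioo 0 1) := by
  intro s0 hs0
  obtain ⟨t1, h1, h2, h3⟩ : ∃ t1 : ℝ, s0 < t1 ∧ t1 ≤ 1 ∧ t1 / 3 < s0 :=
    ⟨min 1 (2 * s0), lt_min hs0.2 (by linarith [hs0.1]), min_le_left _ _,
      by linarith [min_le_right 1 (2 * s0), hs0.1]⟩
  have h0 : 0 < t1 := hs0.1.trans h1
  have hn : Ioo (t1 / 3) t1 ∈ 𝓝 s0 := Ioo_mem_nhds h3 h1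
  have hlo : ∀ s ∈ Ioo (t1 / 3) t1, 1 / 3 < s / t1 := fun s hs => by
    rw [lt_div_iff₀ h0]; linarith [hs.1]
  have hhi : ∀ s ∈ Ioo (t1 / 3) t1, s / t1 < 1 := fun s hs => by
    rw [div_lt_iff₀ h0]; linarith [hs.2]
  have hev : (fun s : ℝ => Z (3 / 2) (pj s)) =ᶠ[𝓝 s0]
      fun s : ℝ => Z (s / t1 * (3 / 2)) ⟨t1, h0.le, h2⟩ := by
    filter_upwards [hn] with s hs'
    have a1 := hlo s hs'
    have a2 := hhi s hs'
    have hI : s ∈ Icc (0 : ℝ) 1 := ⟨by linarith [hs'.1], by linarith [hs'.2]⟩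
    have e := hs ⟨s / t1, by linarith, a2.le⟩ a1
    have e2 : pj s = (⟨s / t1, by linarith, a2.le⟩ : II) * ⟨t1, h0.le, h2⟩ := by
      apply Subtype.ext
      have : ((pj s : II) : ℝ) = s := by simp [pj, projIcc_of_mem _ hI]
      rw [this]
      show s = s / t1 * t1
      field_simp
    rw [e2]
    exact DFunLike.congr_fun e ⟨t1, h0.le, h2⟩
  have hm : s0 / t1 * (3 / 2) ∈ Ioo (1 / 2 : ℝ) 2 :=
    ⟨by linarith [hlo s0 ⟨h3, h1⟩], by linarith [hhi s0 ⟨h3, h1⟩]⟩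
  have hZ' : ContDiffAt ℝ ∞ Z (s0 / t1 * (3 / 2)) := hZ.contDiffAt (Ioo_mem_nhds hm.1 hm.2)
  have hl : ContDiffAt ℝ ∞ (fun s : ℝ => s / t1 * (3 / 2)) s0 :=
    (contDiffAt_id.div_const t1).mul contDiffAt_const
  have hc : ContDiffAt ℝ ∞ (fun s : ℝ => Z (s / t1 * (3 / 2))) s0 :=
    ContDiffAt.comp (g := Z) s0 hZ' hl
  have hd : ContDiffAt ℝ ∞ (fun s : ℝ => Z (s / t1 * (3 / 2)) ⟨t1, h0.le, h2⟩) s0 :=
    (ContinuousMap.evalCLM ℝ (⟨t1, h0.le, h2⟩ : II) (M := E)).contDiff.contDiffAt.comp s0 hc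
  exact (hd.congr_of_eventuallyEq hev).contDiffWithinAt

end EXSMAux

theorem exsm : S_UNI → S_EXMU → S_EXSM := by
  intro hU hE H V Y K _ _ _ _ _ _ _ _ _ _ S R δ hR hδ
  obtain ⟨R', hR', hE⟩ := hE H V Y K S R δ hR hδ
  obtain ⟨τ₀, hτ₀, hU⟩ := hU H V Y K S R' hR'
  obtain ⟨τ, hτ, hE⟩ := hE (τ₀ / 2) (by positivity)
  refine ⟨3 / 2 * τ, by linarith [hτ.1], fun L0 h0 h1 hb hr hn => ?_⟩
  obtain ⟨L, D0, D1, D2, F, w, sL, sD0, sD1, hS⟩ := hE L0 h0 h1 hb hr hn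
  have m1 : (3 / 2 : ℝ) ∈ Ioo (1 / 2 : ℝ) 2 := ⟨by norm_num, by norm_num⟩
  obtain ⟨W1, a1, a2, a3, a4, a5⟩ := hS _ m1
  have key : ∀ ρ : II, 1 / 3 < (ρ : ℝ) → (L (3 / 2)).comp (scm ρ) = L (ρ * (3 / 2)) ∧
      (D0 (3 / 2)).comp (scm ρ) = D0 (ρ * (3 / 2)) ∧
      (D1 (3 / 2)).comp (scm ρ) = D1 (ρ * (3 / 2)) := by
    intro ρ hρ
    have hρ0 : 0 < (ρ : ℝ) := by linarith
    have hρ1 : (ρ : ℝ) ≤ 1 := ρ.2.2
    have m2 : (ρ : ℝ) * (3 / 2) ∈ Ioo (1 / 2 : ℝ) 2 := ⟨by linarith, by linarith⟩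
    obtain ⟨W2, b1, b2, -, b4, b5⟩ := hS _ m2
    obtain ⟨D2', F', w', W3, c1, c2⟩ := W1.scale hρ0
    rw [← mul_assoc] at W3
    have ht : (ρ : ℝ) * (3 / 2) * τ ∈ Ioc 0 τ₀ :=
      ⟨mul_pos (by linarith) hτ.1, by nlinarith [hτ.1, hτ.2]⟩
    refine hU _ ht _ _ _ _ _ _ _ _ _ _ _ _ W3 W2 (c2.trans a4) b4 ?_ b5 ?_ ?_
    · rw [mul_assoc, Real.sqrt_mul hρ0.le, mul_comm √(ρ : ℝ), mul_assoc]
      exact (mul_le_mul_of_nonneg_left c1 (Real.sqrt_nonneg _)).trans a5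
    · rw [b1, ← a1]; simp
    · rw [b2, ← a2]; simp
  exact ⟨_, _, _, _, _, _, W1, a1, a2, a3,
    EXSMAux.smooth_of_scale L sL fun ρ h => (key ρ h).1,
    EXSMAux.smooth_of_scale D0 sD0 fun ρ h => (key ρ h).2.1,
    EXSMAux.smooth_of_scale D1 sD1 fun ρ h => (key ρ h).2.2⟩

end Pool.Agent.P.MP_cf7202_gt
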