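import Pool.Agent.P.MP_cf7202_gt.DefCon

/-! Package C6: local existence and uniqueness for the quarter system. -/

namespace Pool.Agent.P.MP_cf7202_gt

open Set Filter Topology Function MeasureTheory Real
open scoped ContDiff ENNReal

namespace EXcAux

theorem pj_coe {x : ℝ} (hx : x ∈ Icc (0 : ℝ) 1) : (pj x : ℝ) = x := by
  rw [pj, projIcc_of_mem _ hx]

theorem c1_apply (h : HH) (x : II) (i : Fin 3) : c1 h x i = -(JJ h 1 0) + JJ h x i := by
  fin_cases i <;> simp [c1, prim]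

theorem continuous_c1 : Continuous c1 := by
  have h1 : Continuous fun h : HH => JJ h 1 0 := by fun_prop
  unfold c1 prim
  refine Continuous.add (ContinuousMap.continuous_const'.comp ?_) (JJ (F := E3)).continuous
  fun_prop

theorem toSt_inj {L L' : VV} {h h' : HH} (e : toSt L h = toSt L' h') : h = h' := by
  have h1 : ∀ (x : II) i, c1 h x i = c1 h' x i := fun x i => by
    have := congrFun (congrFun (congrArg Prod.fst e) i) x
    simpa [toSt, pj, projIcc_val] using this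
  have h2 : JJ h 1 0 = JJ h' 1 0 := by
    have := h1 0 0
    simpa [c1_apply, JJ_zero] using this
  refine JJ_injective (ContinuousMap.ext fun x => PiLp.ext fun i => ?_)
  have := h1 x i
  rwa [c1_apply, c1_apply, h2, add_right_inj] at this

theorem norm_tL_sq (u : C(II, E3)) :
    ‖tL u‖ ^ 2 = ∑ i, ∫ x in (0 : ℝ)..1, u (pj x) i ^ 2 := by
  have hc : ∀ i, Continuous fun x : ℝ => u (pj x) i ^ 2 := fun i => by
    have : Continuous pj := continuous_projIcc
    fun_prop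
  rw [← real_inner_self_eq_norm_sq, MeasureTheory.L2.inner_def,
    ← intervalIntegral.integral_finsetSum fun i _ => (hc i).intervalIntegrable 0 1,
    ← integral_II_eq (fun x => ∑ i, u x i ^ 2)]
  refine integral_congr_ae ?_
  filter_upwards [tL_coe u] with x hx
  rw [hx, real_inner_self_eq_norm_sq, EuclideanSpace.real_norm_sq_eq]

/-- the derivative of the reference angle -/
noncomputable def θC : C(II, E3) := ⟨fun x => !₂[2 * π / 3 * x, 0, 0], by fun_prop⟩

theorem has_θs (i : Fin 3) (x : II) : HasDerivAt (θs i) (θC x i) x := by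
  fin_cases i
  · refine ((hasDerivAt_pow 2 (x : ℝ)).const_mul (π / 3)).congr_deriv ?_
    show _ = 2 * π / 3 * (x : ℝ)
    norm_num
    ring
  · exact hasDerivAt_const (x : ℝ) (0 : ℝ)
  · exact hasDerivAt_const (x : ℝ) (0 : ℝ)

theorem ball_sub {K : ℝ} (hK : 0 < K) {d : St} (hd : Adm K d) :
    Metric.ball d.2 (min K (8 * K)⁻¹) ⊆ UU K := by
  intro L hL
  rw [mem_ball_iff_norm, lt_min_iff] at hL
  have h0 : ‖d.2‖ ≤ K := (pi_norm_le_iff_of_nonneg hK.le).2 hd.hi
  have h1 : ∀ i, |L i - d.2 i| < (8 * K)⁻¹ := fun i => (norm_le_pi_norm (L - d.2) i).trans_lt hL.2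
  have h2 := hd.lo 1 0 ⟨le_rfl, zero_le_one⟩
  have e8 : (8 * K)⁻¹ = K⁻¹ / 8 := by field_simp
  have e2 : (2 * K)⁻¹ = K⁻¹ / 2 := by field_simp
  have hp : 0 < K⁻¹ := inv_pos.2 hK
  have h4 := abs_lt.1 (h1 1)
  refine ⟨?_, ?_, fun i => ?_⟩
  · have := norm_add_le (L - d.2) d.2
    rw [sub_add_cancel] at this
    linarith [hL.1]
  · simp only [mm, sub_self, zero_mul, add_zero] at h2
    linarith [h4.1]
  · have h3 := hd.lo i 1 ⟨zero_le_one, le_rfl⟩
    have h5 := abs_lt.1 (h1 i)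
    norm_num [mm, gg] at h3
    linarith [h4.2, h5.1]

theorem exists_h1 (tk : S_TK) {K : ℝ} {d : St} (hd : Adm K d) :
    ∃ h1 : HH, ‖h1‖ ≤ √(3 * K) + ‖tL θC‖ ∧ JJ h1 1 0 = JJ h1 1 1 ∧ toSt d.2 h1 = d := by
  have hu : UniqueDiffOn ℝ (Icc (0 : ℝ) 1) := uniqueDiffOn_Icc zero_lt_one
  have hc : ∀ i, Continuous fun x : II => derivWithin (d.1 i) (Icc 0 1) x := fun i =>
    ((hd.c1 i).continuousOn_derivWithin hu le_rfl).domRestrict
  let q : C(II, E3) := ⟨fun x => WithLp.toLp 2 fun i => derivWithin (d.1 i) (Icc 0 1) x, by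
    fun_prop⟩
  have hq : ‖tL q‖ ≤ √(3 * K) := by
    refine Real.le_sqrt_of_sq_le ?_
    rw [norm_tL_sq]
    have : ∀ i, ∫ x in (0 : ℝ)..1, q (pj x) i ^ 2 ≤ K := fun i => by
      refine le_trans (le_of_eq (intervalIntegral.integral_congr fun x hx => ?_)) (hd.en i)
      rw [uIcc_of_le zero_le_one] at hx
      show derivWithin (d.1 i) (Icc 0 1) (pj x) ^ 2 = _
      rw [pj_coe hx]
    rw [Fin.sum_univ_three]
    linarith [this 0, this 1, this 2]
  have hJ : ∀ (x : II) i, JJ (tL (q - θC)) x i = d.1 i x - θs i x - d.1 0 0 := fun x i => by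
    have h1 := tk.ftc (fun s => JJ (tL (q - θC)) (pj s) i - (d.1 i s - θs i s)) (fun _ => 0)
      continuousOn_const (fun y hy => ?_) x x.2
    · have h2 : θs i 0 = 0 := by fin_cases i <;> simp [θs]
      have h3 : pj 0 = 0 := by simp [pj]
      have h4 : pj x = x := by simp [pj]
      simp only [intervalIntegral.integral_zero, h3, h4, JJ_zero, h2, hd.j0 i, PiLp.zero_apply]
        at h1
      linarith
    · have h2 := (EuclideanSpace.proj (𝕜 := ℝ) i).hasFDerivAt.comp_hasDerivWithinAt y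
        (JJ_tL_hasDerivWithinAt (q - θC) ⟨y, hy⟩)
      have h3 := (((hd.c1 i).differentiableOn one_ne_zero) y hy).hasDerivWithinAt
      have h4 := (has_θs i ⟨y, hy⟩).hasDerivWithinAt (s := Icc 0 1)
      refine (h2.sub (h3.sub h4)).congr_deriv ?_
      simp [q]
  have h10 : JJ (tL (q - θC)) 1 0 = -d.1 0 0 := by
    rw [hJ]
    simp [hd.e0, θs]
  refine ⟨tL (q - θC), ?_, ?_, ?_⟩
  · rw [map_sub]
    exact (norm_sub_le _ _).trans (by linarith)
  · rw [h10, hJ]
    simp [hd.e1, θs]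
  · refine Prod.ext (funext fun i => funext fun x => ?_) rfl
    show θs i (pj x) + c1 (tL (q - θC)) (pj x) i = d.1 i x
    rw [c1_apply, h10, hJ, hd.nrm i x]
    ring

end EXcAux

open EXcAux

theorem exc (tk : S_TK) (hA : S_ABS) (hS : S_SYS) (hR : S_REL) (h4 : S_C4) (h5 : S_C5) :
    S_EX := by
  intro K hK
  obtain ⟨S, hC⟩ := hS K hK
  obtain ⟨r1, r2, -, -⟩ := hR S.M hC.m
  obtain ⟨τ, hτ, H⟩ := hA HH VV (E3 × E3) KK S (√(3 * K) + ‖tL θC‖) (min K (8 * K)⁻¹)
    (by positivity) (by positivity)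
  refine ⟨τ, hτ, fun d hd => ?_⟩
  obtain ⟨h1, hn, hJ, hst⟩ := exists_h1 tk hd
  have hb := ball_sub hK hd
  obtain ⟨L, D0, D1, D2, cl, sL, -, sD1, sD2, cL, -, cD1, hL0, -, hD1, uq⟩ :=
    H d.2 (tL (c1 h1)) h1 (hC.u ▸ hb) (r1 h1 hJ) hn
  refine ⟨fun t => toSt (L t) (D1 t), h4 K S hK hC τ L D0 D1 D2 cl sL sD1 sD2,
    ⟨fun i => ?_, fun i => (continuous_apply i).comp_continuousOn cL⟩, ?_, ?_⟩
  · have hp : Continuous fun z : ℝ × ℝ => pj z.2 := continuous_projIcc.comp continuous_snd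
    have h6 : ContinuousOn (fun z : ℝ × ℝ => c1 (D1 z.1) (pj z.2)) (Ico 0 τ ×ˢ Icc 0 1) :=
      (continuous_c1.comp_continuousOn
        (cD1.comp continuousOn_fst fun z hz => hz.1)).eval hp.continuousOn
    have h7 : Continuous (θs i) := by
      unfold θs
      fin_cases i <;> simp <;> fun_prop
    exact (h7.comp (continuous_subtype_val.comp hp)).continuousOn.add
      ((EuclideanSpace.proj (𝕜 := ℝ) i).continuous.comp_continuousOn h6)
  · show toSt (L 0) (D1 0) = d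
    rw [hL0, hD1, hst]
  · intro a b t₀ u' q ht hu
    have hc : ContinuousOn (fun t => (u' t).2) (Ioo a b) :=
      continuousOn_pi.2 fun i => (q.sL i).continuousOn
    have hmem : ∀ᶠ t in 𝓝 t₀, (u' t).2 ∈ UU K ∧ t < b := by
      refine Eventually.and ((hc.continuousAt (Ioo_mem_nhds ht.1 ht.2)).eventually_mem ?_)
        (Iio_mem_nhds ht.2)
      rw [hu]
      exact mem_of_superset (Metric.ball_mem_nhds _ (by positivity)) hb
    obtain ⟨η, hη, hball⟩ := Metric.eventually_nhds_iff.1 hmem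
    have hin : ∀ s ∈ Icc 0 (η / 2), (u' (t₀ + s)).2 ∈ UU K ∧ t₀ + s < b := fun s hs =>
      hball (by rw [Real.dist_eq, add_sub_cancel_left, abs_of_nonneg hs.1]; linarith [hs.2])
    have hη2 : 0 < η / 2 := half_pos hη
    obtain ⟨D0', D1', D2', cl', c0, c1', c2, hr⟩ := h5 K S hK hC a b t₀ (η / 2) u' q ht.1 hη2
      (hin _ ⟨hη2.le, le_rfl⟩).2 fun s hs => (hin s hs).1
    obtain ⟨e1, e2⟩ := hr 0 ⟨le_rfl, hη2⟩
    rw [add_zero, hu] at e2
    have e3 : D1' 0 = h1 := toSt_inj (e2.trans hst.symm)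
    obtain ⟨ε, hε, he⟩ := uq (η / 2) _ D0' D1' D2' hη2 cl'
      (hc.comp (f := fun s => t₀ + s) (by fun_prop) fun s hs =>
        ⟨by linarith [ht.1, hs.1], (hin s ⟨hs.1, hs.2.le⟩).2⟩)
      c0 c1' c2 (by simp only [add_zero, hu]) (by rw [(r2 _ _ e1).2, e3]) e3
    refine ⟨min ε (η / 2), lt_min hε hη2, fun s hs => ?_⟩
    obtain ⟨f1, -, f2⟩ := he s ⟨hs.1, hs.2.trans_le (min_le_left _ _)⟩
    rw [← (hr s ⟨hs.1.le, hs.2.trans_le (min_le_right _ _)⟩).2, f2]
    exact congrArg (fun l => toSt l (D1 s)) f1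

end Pool.Agent.P.MP_cf7202_gt
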