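import Pool.Agent.P.MP_cf7202_gt.DefFD

/-! Construction of the final data from a solution of the quarter system. -/

namespace Pool.Agent.P.MP_cf7202_gt

open Set Filter Topology Function Real
open scoped ContDiff

namespace FDcAux

theorem mk_smooth {x y : ℝ → ℝ → ℝ} {a b : ℝ} (hx : Sm a b x) (hy : Sm a b y) :
    ContDiffOn ℝ ∞ (uncurry fun t p => (⟨x t p, y t p⟩ : ℂ)) (Ioo a b ×ˢ Icc 0 1) :=
  Complex.equivRealProdCLM.symm.contDiff.comp_contDiffOn (ContDiffOn.prodMk hx hy)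

theorem mk_deriv {f g : ℝ → ℝ} {f' g' p : ℝ} {s : Set ℝ} (hf : HasDerivWithinAt f f' s p)
    (hg : HasDerivWithinAt g g' s p) {z : ℂ} (h1 : z.re = f') (h2 : z.im = g') :
    HasDerivWithinAt (fun p => (⟨f p, g p⟩ : ℂ)) z s p := by
  have := Complex.equivRealProdCLM.symm.hasFDerivAt.comp_hasDerivWithinAt p (hf.prodMk hg)
  rw [← h1, ← h2] at this
  exact this

theorem mk_derivAt {f g : ℝ → ℝ} {f' g' p : ℝ} (hf : HasDerivAt f f' p)
    (hg : HasDerivAt g g' p) {z : ℂ} (h1 : z.re = f') (h2 : z.im = g') :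
    HasDerivAt (fun p => (⟨f p, g p⟩ : ℂ)) z p :=
  hasDerivWithinAt_univ.1 (mk_deriv hf.hasDerivWithinAt hg.hasDerivWithinAt h1 h2)

theorem slice_cont {E : Type} [TopologicalSpace E] {f : ℝ → ℝ → E} {a b t : ℝ}
    (h : ContinuousOn (uncurry f) (Ioo a b ×ˢ Icc 0 1)) (ht : t ∈ Ioo a b) :
    ContinuousOn (f t) (Icc 0 1) :=
  h.comp (Continuous.prodMk_right t).continuousOn fun _ hp => ⟨ht, hp⟩

/-- a moving curve given by its coordinates -/
theorem mc_of {a b : ℝ} {x y φ m κ lam : ℝ → ℝ → ℝ} (sx : Sm a b x) (sy : Sm a b y)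
    (sφ : Sm a b φ) (sm : Sm a b m) (sκ : Sm a b κ)
    (pos : ∀ t ∈ Ioo a b, ∀ p ∈ Icc (0 : ℝ) 1, 0 < m t p)
    (xp : ∀ t ∈ Ioo a b, ∀ p ∈ Icc (0 : ℝ) 1,
      HasDerivWithinAt (x t) (m t p * cos (φ t p)) (Icc 0 1) p)
    (yp : ∀ t ∈ Ioo a b, ∀ p ∈ Icc (0 : ℝ) 1,
      HasDerivWithinAt (y t) (m t p * sin (φ t p)) (Icc 0 1) p)
    (φp : ∀ t ∈ Ioo a b, ∀ p ∈ Icc (0 : ℝ) 1,
      HasDerivWithinAt (φ t) (m t p * κ t p) (Icc 0 1) p)
    (xt : ∀ t ∈ Ioo a b, ∀ p ∈ Icc (0 : ℝ) 1, HasDerivAt (fun s => x s p)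
      (lam t p * cos (φ t p) - κ t p * sin (φ t p)) t)
    (yt : ∀ t ∈ Ioo a b, ∀ p ∈ Icc (0 : ℝ) 1, HasDerivAt (fun s => y s p)
      (lam t p * sin (φ t p) + κ t p * cos (φ t p)) t) :
    MC a b (fun t p => ⟨x t p, y t p⟩) φ m κ lam where
  sX := mk_smooth sx sy
  sφ := sφ
  sm := sm
  sκ := sκ
  pos := pos
  Xp t ht p hp := mk_deriv (xp t ht p hp) (yp t ht p hp) (by simp [ee]) (by simp [ee])
  φp := φp
  Xt t ht p hp := mk_derivAt (xt t ht p hp) (yt t ht p hp) (by simp [ee]; ring) (by simp [ee])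

theorem sm_shift {E : Type} [NormedAddCommGroup E] [NormedSpace ℝ E] {f : ℝ → ℝ → E}
    {a b a' b' c : ℝ} (h : ContDiffOn ℝ ∞ (uncurry f) (Ioo a b ×ˢ Icc 0 1))
    (hs : ∀ t ∈ Ioo a' b', t + c ∈ Ioo a b) :
    ContDiffOn ℝ ∞ (uncurry fun t => f (t + c)) (Ioo a' b' ×ˢ Icc 0 1) :=
  h.comp (f := fun z : ℝ × ℝ => (z.1 + c, z.2)) (by fun_prop) fun z hz => ⟨hs _ hz.1, hz.2⟩

theorem mc_shift {a b a' b' c : ℝ} {X : ℝ → ℝ → ℂ} {φ m κ lam : ℝ → ℝ → ℝ}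
    (h : MC a b X φ m κ lam) (hs : ∀ t ∈ Ioo a' b', t + c ∈ Ioo a b) :
    MC a' b' (fun t => X (t + c)) (fun t => φ (t + c)) (fun t => m (t + c))
      (fun t => κ (t + c)) (fun t => lam (t + c)) where
  sX := sm_shift h.sX hs
  sφ := sm_shift h.sφ hs
  sm := sm_shift h.sm hs
  sκ := sm_shift h.sκ hs
  pos t ht := h.pos _ (hs t ht)
  Xp t ht := h.Xp _ (hs t ht)
  φp t ht := h.φp _ (hs t ht)
  Xt t ht p hp := HasDerivAt.comp_add_const t c (h.Xt _ (hs t ht) p hp)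

/-- gluing of two functions along the middle of the interval -/
noncomputable def gl (f g : ℝ → ℝ) (p : ℝ) : ℝ := if p ≤ 1 / 2 then f (2 * p) else g (2 - 2 * p)

theorem gl_le {f g : ℝ → ℝ} {p : ℝ} (h : p ≤ 1 / 2) : gl f g p = f (2 * p) := if_pos h

theorem gl_gt {f g : ℝ → ℝ} {p : ℝ} (h : ¬p ≤ 1 / 2) : gl f g p = g (2 - 2 * p) := if_neg h

theorem gl_zero (f g : ℝ → ℝ) : gl f g 0 = f 0 := by
  rw [gl_le (by norm_num), mul_zero]

theorem gl_one (f g : ℝ → ℝ) : gl f g 1 = g 0 := by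
  rw [gl_gt (by norm_num)]
  norm_num

theorem mem_le {p : ℝ} (hp : p ∈ Icc (0 : ℝ) 1) (h : p ≤ 1 / 2) : 2 * p ∈ Icc (0 : ℝ) 1 :=
  ⟨by linarith [hp.1], by linarith⟩

theorem mem_gt {p : ℝ} (hp : p ∈ Icc (0 : ℝ) 1) (h : ¬p ≤ 1 / 2) : 2 - 2 * p ∈ Icc (0 : ℝ) 1 :=
  ⟨by linarith [hp.2], by linarith [not_le.1 h]⟩

theorem gl_deriv {f g f' g' : ℝ → ℝ}
    (hf : ∀ x ∈ Icc (0 : ℝ) 1, HasDerivWithinAt f (f' x) (Icc 0 1) x)
    (hg : ∀ x ∈ Icc (0 : ℝ) 1, HasDerivWithinAt g (g' x) (Icc 0 1) x) (h1 : f 1 = g 1)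
    (h2 : f' 1 = -g' 1) {p : ℝ} (hp : p ∈ Icc (0 : ℝ) 1) {d : ℝ}
    (hd : p ≤ 1 / 2 → d = 2 * f' (2 * p)) (hd' : ¬p ≤ 1 / 2 → d = -2 * g' (2 - 2 * p)) :
    HasDerivWithinAt (gl f g) d (Icc 0 1) p := by
  have hl : p ≤ 1 / 2 → HasDerivWithinAt (gl f g) (2 * f' (2 * p)) (Icc 0 (1 / 2)) p := by
    intro h
    have h3 : HasDerivWithinAt (fun q : ℝ => 2 * q) 2 (Icc 0 (1 / 2)) p := by
      simpa using ((hasDerivAt_id p).const_mul 2).hasDerivWithinAt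
    have h4 := (hf _ (mem_le hp h)).comp p h3 fun q hq => ⟨by linarith [hq.1], by linarith [hq.2]⟩
    rw [mul_comm] at h4
    exact h4.congr (fun q hq => gl_le hq.2) (gl_le h)
  have hr : 1 / 2 ≤ p → HasDerivWithinAt (gl f g) (-2 * g' (2 - 2 * p)) (Icc (1 / 2) 1) p := by
    intro h
    have h3 : HasDerivWithinAt (fun q : ℝ => 2 - 2 * q) (-2) (Icc (1 / 2) 1) p := by
      simpa using (((hasDerivAt_id p).const_mul 2).const_sub 2).hasDerivWithinAt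
    have h4 := (hg (2 - 2 * p) ⟨by linarith [hp.2], by linarith⟩).comp p h3
      fun q hq => show 2 - 2 * q ∈ Icc (0 : ℝ) 1 from ⟨by linarith [hq.2], by linarith [hq.1]⟩
    rw [mul_comm] at h4
    have h5 : ∀ q ∈ Icc (1 / 2 : ℝ) 1, gl f g q = g (2 - 2 * q) := fun q hq => by
      by_cases h6 : q ≤ 1 / 2
      · rw [gl_le h6, le_antisymm h6 hq.1]
        norm_num [h1]
      · exact gl_gt h6
    exact h4.congr h5 (h5 p ⟨h, hp.2⟩)
  rw [← Icc_union_Icc_eq_Icc (b := 1 / 2) (by norm_num) (by norm_num)]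
  rcases lt_trichotomy p (1 / 2) with h | h | h
  · rw [hd h.le]
    refine (hl h.le).union (HasFDerivWithinAt.of_notMem_closure ?_)
    rw [closure_Icc]
    exact fun h' => absurd h'.1 (not_le.2 h)
  · rw [hd h.le]
    refine (hl h.le).union ?_
    have h3 : 2 * f' (2 * p) = -2 * g' (2 - 2 * p) := by
      rw [h]
      norm_num [h2]
    rw [h3]
    exact hr h.ge
  · rw [hd' (not_le.2 h)]
    refine HasDerivWithinAt.union (HasFDerivWithinAt.of_notMem_closure ?_) (hr h.le)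
    rw [closure_Icc]
    exact fun h' => absurd h'.2 (not_le.2 h)

theorem int_gl (tk : S_TK) {W F : ℝ → ℝ} (hW : ContinuousOn W (Icc 0 1))
    (hF : ContinuousOn F (Icc 0 1)) (h1 : ∀ p, p ≤ 1 / 2 → F p = 2 * W (2 * p))
    (h2 : ∀ p, ¬p ≤ 1 / 2 → F p = 2 * W (2 - 2 * p)) :
    ∫ p in (0 : ℝ)..1, F p = 2 * ∫ p in (0 : ℝ)..1, W p := by
  have h3 := tk.ftc (gl (fun z => ∫ y in (0 : ℝ)..z, W y)
    fun z => 2 * (∫ y in (0 : ℝ)..1, W y) - ∫ y in (0 : ℝ)..z, W y) F hF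
    (fun p hp => gl_deriv (tk.int_dx W hW) (g' := fun x => -W x)
      (fun x hx => (tk.int_dx W hW x hx).const_sub _) (by ring) (by ring) hp (h1 p)
      fun h => by rw [h2 p h]; ring) 1 ⟨zero_le_one, le_rfl⟩
  rw [h3, gl_zero, gl_one]
  simp

theorem sm_of_deriv (tk : S_TK) {a b : ℝ} {f g : ℝ → ℝ → ℝ} (hg : Sm a b g)
    (h0 : Sm a b fun t _ => f t 0)
    (h : ∀ t ∈ Ioo a b, ∀ p ∈ Icc (0 : ℝ) 1, HasDerivWithinAt (f t) (g t p) (Icc 0 1) p) :
    Sm a b f := by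
  refine (ContDiffOn.add h0 (tk.sm_int a b g hg)).congr fun z hz => ?_
  have := tk.ftc (f z.1) (g z.1) (slice_cont hg.continuousOn hz.1) (h z.1 hz.1) z.2 hz.2
  change f z.1 z.2 = f z.1 0 + ∫ y in (0 : ℝ)..z.2, g z.1 y
  rw [this]
  ring

theorem sm_zero {a b : ℝ} {f : ℝ → ℝ → ℝ} (h : Sm a b f) : Sm a b fun t _ => f t 0 :=
  ContDiffOn.comp (g := uncurry f) (f := fun z : ℝ × ℝ => (z.1, (0 : ℝ))) h (by fun_prop)
    fun _ hz => ⟨hz.1, le_rfl, zero_le_one⟩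

theorem sm_mm {a b : ℝ} {u : ℝ → St} (h : QS a b u) (i : Fin 3) (c : ℝ) :
    Sm a b fun t p => mm (u t).2 i (c * p) := by
  have h1 : ∀ j, ContDiffOn ℝ ∞ (fun z : ℝ × ℝ => (u z.1).2 j) (Ioo a b ×ˢ Icc 0 1) := fun j =>
    (h.sL j).comp contDiffOn_fst fun _ hz => hz.1
  have h2 : ContDiffOn ℝ ∞ (fun z : ℝ × ℝ => gg (c * z.2)) (Ioo a b ×ˢ Icc 0 1) := by
    unfold gg
    fun_prop
  exact (h1 1).add (((h1 i).sub (h1 1)).mul h2)

variable {T : ℝ} (G : GS T)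

/-- abscissa of the full arc -/
noncomputable def x0 (t : ℝ) : ℝ → ℝ := gl (G.x 0 t) fun p => -G.x 0 t p

/-- ordinate of the full arc -/
noncomputable def y0 (t : ℝ) : ℝ → ℝ := gl (G.y 0 t) (G.y 0 t)

/-- tangent angle of the full arc -/
noncomputable def φ0 (t : ℝ) : ℝ → ℝ :=
  gl (fun p => G.θ 0 t p + αα 0) fun p => 2 * π - (G.θ 0 t p + αα 0)

/-- speed of the full arc -/
noncomputable def m0 (t : ℝ) : ℝ → ℝ := gl (fun p => 2 * G.m 0 t p) fun p => 2 * G.m 0 t p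

/-- curvature of the full arc -/
noncomputable def κ0 (t : ℝ) : ℝ → ℝ := gl (G.κ 0 t) (G.κ 0 t)

/-- tangential velocity of the full arc -/
noncomputable def l0 (t : ℝ) : ℝ → ℝ := gl (G.lam 0 t) fun p => -G.lam 0 t p

theorem αα0 : αα 0 = 2 * π / 3 := rfl

theorem αα1 : αα 1 = 4 * π / 3 := rfl

theorem αα2 : αα 2 = 0 := rfl

theorem mc0 (tk : S_TK) (sφ : Sm 0 T (φ0 G)) (sm : Sm 0 T (m0 G)) (sx : Sm 0 T (G.x 0))
    (sy : Sm 0 T (G.y 0)) :
    MC 0 T (fun t p => ⟨x0 G t p, y0 G t p⟩) (φ0 G) (m0 G) (κ0 G) (l0 G) := by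
  have hπ : ∀ t ∈ Ioo 0 T, G.θ 0 t 1 + αα 0 = π := fun t ht => by
    rw [G.eθ0 t (Ioo_subset_Ico_self ht), αα0]
    ring
  have pos : ∀ t ∈ Ioo 0 T, ∀ p ∈ Icc (0 : ℝ) 1, 0 < m0 G t p := fun t ht p hp => by
    by_cases h : p ≤ 1 / 2
    · rw [m0, gl_le h]
      linarith [G.mpos 0 t (Ioo_subset_Ico_self ht) _ (mem_le hp h)]
    · rw [m0, gl_gt h]
      linarith [G.mpos 0 t (Ioo_subset_Ico_self ht) _ (mem_gt hp h)]
  have xp : ∀ t ∈ Ioo 0 T, ∀ p ∈ Icc (0 : ℝ) 1,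
      HasDerivWithinAt (x0 G t) (m0 G t p * cos (φ0 G t p)) (Icc 0 1) p := fun t ht p hp => by
    have ht' := Ioo_subset_Ico_self ht
    refine gl_deriv (G.xp 0 t ht') (fun x hx => (G.xp 0 t ht' x hx).neg) (by simp [G.ex0 t ht'])
      (by ring) hp (fun h => ?_) fun h => ?_
    · rw [m0, φ0, gl_le h, gl_le h, mul_assoc]
    · rw [m0, φ0, gl_gt h, gl_gt h, cos_two_pi_sub]
      ring
  have yp : ∀ t ∈ Ioo 0 T, ∀ p ∈ Icc (0 : ℝ) 1,
      HasDerivWithinAt (y0 G t) (m0 G t p * sin (φ0 G t p)) (Icc 0 1) p := fun t ht p hp => by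
    have ht' := Ioo_subset_Ico_self ht
    refine gl_deriv (G.yp 0 t ht') (G.yp 0 t ht') rfl (by simp [hπ t ht]) hp (fun h => ?_)
      fun h => ?_
    · rw [m0, φ0, gl_le h, gl_le h, mul_assoc]
    · rw [m0, φ0, gl_gt h, gl_gt h, sin_two_pi_sub]
      ring
  have φp : ∀ t ∈ Ioo 0 T, ∀ p ∈ Icc (0 : ℝ) 1,
      HasDerivWithinAt (φ0 G t) (m0 G t p * κ0 G t p) (Icc 0 1) p := fun t ht p hp => by
    refine gl_deriv (fun x hx => (G.θp 0 t ht x hx).add_const _)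
      (fun x hx => ((G.θp 0 t ht x hx).add_const _).const_sub _) (by rw [hπ t ht]; ring)
      (by ring) hp (fun h => ?_) fun h => ?_
    · rw [m0, κ0, gl_le h, gl_le h, mul_assoc]
    · rw [m0, κ0, gl_gt h, gl_gt h]
      ring
  have s1 : Sm 0 T fun t p => m0 G t p * cos (φ0 G t p) := by
    unfold Sm at sm sφ ⊢
    exact sm.mul sφ.cos
  have s2 : Sm 0 T fun t p => m0 G t p * sin (φ0 G t p) := by
    unfold Sm at sm sφ ⊢
    exact sm.mul sφ.sin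
  refine mc_of (sm_of_deriv tk s1 ?_ xp) (sm_of_deriv tk s2 ?_ yp) sφ sm ?_ pos xp yp φp
    (fun t ht p hp => ?_) fun t ht p hp => ?_
  · simpa only [x0, gl_zero] using sm_zero sx
  · simpa only [y0, gl_zero] using sm_zero sy
  · refine (ContDiffOn.div (tk.sm_dx _ _ _ sφ) sm fun z hz => (pos _ hz.1 _ hz.2).ne').congr
      fun z hz => ?_
    change κ0 G z.1 z.2 = dx (φ0 G) z.1 z.2 / m0 G z.1 z.2
    rw [dx, (φp _ hz.1 _ hz.2).derivWithin (uniqueDiffOn_Icc zero_lt_one _ hz.2),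
      mul_div_cancel_left₀ _ (pos _ hz.1 _ hz.2).ne']
  · by_cases h : p ≤ 1 / 2
    · simpa only [x0, l0, κ0, φ0, gl_le h] using G.xt 0 t ht _ (mem_le hp h)
    · simp only [x0, l0, κ0, φ0, gl_gt h, cos_two_pi_sub, sin_two_pi_sub]
      exact (G.xt 0 t ht _ (mem_gt hp h)).neg.congr_deriv (by ring)
  · by_cases h : p ≤ 1 / 2
    · simpa only [y0, l0, κ0, φ0, gl_le h] using G.yt 0 t ht _ (mem_le hp h)
    · simp only [y0, l0, κ0, φ0, gl_gt h, cos_two_pi_sub, sin_two_pi_sub]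
      exact (G.yt 0 t ht _ (mem_gt hp h)).congr_deriv (by ring)

theorem mci (i : Fin 3) (sθ : Sm 0 T (G.θ i)) (sm : Sm 0 T (G.m i)) (sκ : Sm 0 T (G.κ i))
    (sx : Sm 0 T (G.x i)) (sy : Sm 0 T (G.y i)) :
    MC 0 T (fun t p => ⟨G.x i t p, G.y i t p⟩) (fun t p => G.θ i t p + αα i) (G.m i) (G.κ i)
      (G.lam i) :=
  mc_of sx sy (ContDiffOn.add sθ contDiffOn_const) sm sκ
    (fun t ht => G.mpos i t (Ioo_subset_Ico_self ht))
    (fun t ht => G.xp i t (Ioo_subset_Ico_self ht)) (fun t ht => G.yp i t (Ioo_subset_Ico_self ht))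
    (fun t ht p hp => (G.θp i t ht p hp).add_const _) (G.xt i) (G.yt i)

theorem diss_eq (tk : S_TK)
    (h0 : MC 0 T (fun t p => ⟨x0 G t p, y0 G t p⟩) (φ0 G) (m0 G) (κ0 G) (l0 G)) {t : ℝ}
    (ht : t ∈ Ioo 0 T) (σ : ℝ) :
    ∫ p in (0 : ℝ)..1, |κ0 G t p + (y0 G t p * cos (φ0 G t p) - x0 G t p * sin (φ0 G t p)) / σ ^ 2|
      * m0 G t p = 2 * ∫ p in (0 : ℝ)..1, |G.κ 0 t p + (G.y 0 t p * cos (G.θ 0 t p + αα 0)
        - G.x 0 t p * sin (G.θ 0 t p + αα 0)) / σ ^ 2| * G.m 0 t p := by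
  have c0 : ∀ f : ℝ → ℝ → ℝ, Ct0 T f → ContinuousOn (f t) (Icc 0 1) := fun f hf =>
    slice_cont (hf.mono (prod_mono Ioo_subset_Ico_self subset_rfl)) ht
  refine int_gl tk ?_ ?_ (fun p h => ?_) fun p h => ?_
  · have h1 := slice_cont (G.cκ 0) ht
    have h2 := c0 _ (G.cx 0)
    have h3 := c0 _ (G.cy 0)
    have h4 := c0 _ (G.cθ 0)
    have h5 := c0 _ (G.cm 0)
    fun_prop
  · have h1 := slice_cont h0.sκ.continuousOn ht
    have h6 := slice_cont h0.sX.continuousOn ht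
    have h2 : ContinuousOn (x0 G t) (Icc 0 1) := Complex.continuous_re.comp_continuousOn h6
    have h3 : ContinuousOn (y0 G t) (Icc 0 1) := Complex.continuous_im.comp_continuousOn h6
    have h4 := slice_cont h0.sφ.continuousOn ht
    have h5 := slice_cont h0.sm.continuousOn ht
    fun_prop
  · simp only [x0, y0, κ0, φ0, m0, gl_le h]
    ring
  · simp only [x0, y0, κ0, φ0, m0, gl_gt h, cos_two_pi_sub, sin_two_pi_sub, neg_mul_neg]
    ring

end FDcAux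

open FDcAux

theorem fd : S_TK → S_NUM → S_GS → S_INIT → S_MONO → S_EST → S_B10 → S_GLUE → S_FD := by
  intro tk num gs init mono est b10 glue u hu hc h0
  have hT : 0 < TT := by linarith [num.TT.1]
  obtain ⟨K, hK, hA⟩ := init.1
  obtain ⟨G, hθ, hm, hκ, -, hxy⟩ := gs TT K u hT hu hc (h0 ▸ hA) hK
  have hI : Init G := init.2 TT G hT (fun i p => by rw [hθ, ← h0]; rfl)
    fun i p => by rw [hm, ← h0]; rfl
  have hM : Mono G := mono TT G hT le_rfl hI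
  have hE : Est G := est TT G hT le_rfl hI hM
  have sm : ∀ i, Sm 0 TT (me u i) := fun i => by
    have := sm_mm hu i 1
    simp only [one_mul] at this
    exact this
  have M : ∀ i, MC 0 TT (fun t p => ⟨G.x i t p, G.y i t p⟩) (fun t p => G.θ i t p + αα i) (G.m i)
      (G.κ i) (G.lam i) := fun i => by
    refine mci G i (hθ ▸ hu.sth i) (hm ▸ sm i) ?_ (hxy i).1 (hxy i).2
    rw [hκ]
    exact ContDiffOn.div (tk.sm_dx _ _ _ (hu.sth i)) (sm i) fun z hz => (hu.pos _ hz.1 i _ hz.2).ne'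
  have M0 : MC 0 TT (fun t p => ⟨x0 G t p, y0 G t p⟩) (φ0 G) (m0 G) (κ0 G) (l0 G) := by
    refine mc0 G tk ?_ ?_ (hxy 0).1 (hxy 0).2
    · refine (ContDiffOn.add (glue 0 TT u hu) (contDiffOn_const (c := αα 0))).congr fun z _ => ?_
      change φ0 G z.1 z.2 = thG u z.1 z.2 + αα 0
      rw [φ0, gl, thG, hθ, αα0]
      split_ifs <;> ring
    · refine (ContDiffOn.mul (contDiffOn_const (c := 2)) (sm_mm hu 0 2)).congr fun z _ => ?_
      change m0 G z.1 z.2 = 2 * mm (u z.1).2 0 (2 * z.2)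
      rw [m0, gl, hm]
      split_ifs
      · rfl
      · simp only [me, mm, gg]
        ring
  have hs : ∀ t ∈ Ioo (-(TT / 2)) (TT / 2), t + TT / 2 ∈ Ioo 0 TT := fun t ht =>
    ⟨by linarith [ht.1], by linarith [ht.2]⟩
  have hs' : ∀ t ∈ Ioo (-(TT / 2)) (TT / 2), t + TT / 2 ∈ Ico 0 TT := fun t ht =>
    Ioo_subset_Ico_self (hs t ht)
  have hπ := pi_pos
  refine ⟨{ a := -(TT / 2)
            T := TT / 2
            X := ![fun t p => ⟨x0 G (t + TT / 2) p, y0 G (t + TT / 2) p⟩,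
              fun t p => ⟨G.x 1 (t + TT / 2) p, G.y 1 (t + TT / 2) p⟩,
              fun t p => ⟨G.x 2 (t + TT / 2) p, G.y 2 (t + TT / 2) p⟩]
            φ := ![fun t => φ0 G (t + TT / 2), fun t p => G.θ 1 (t + TT / 2) p + αα 1,
              fun t p => G.θ 2 (t + TT / 2) p + αα 2]
            m := ![fun t => m0 G (t + TT / 2), fun t => G.m 1 (t + TT / 2),
              fun t => G.m 2 (t + TT / 2)]
            κ := ![fun t => κ0 G (t + TT / 2), fun t => G.κ 1 (t + TT / 2),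
              fun t => G.κ 2 (t + TT / 2)]
            lam := ![fun t => l0 G (t + TT / 2), fun t => G.lam 1 (t + TT / 2),
              fun t => G.lam 2 (t + TT / 2)]
            ξ := fun t => G.ξ (t + TT / 2)
            h := fun t => G.h (t + TT / 2)
            ζ := fun t => G.ζ (t + TT / 2)
            σ := fun t => σσ (t + TT / 2)
            ha := by linarith
            hT := by linarith
            hσ := fun t => by rw [σσ]; congr 1; ring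
            hσ1 := fun t ht => (num.le _ (hs' t ht).1).trans (by norm_num)
            mc := ?_
            start := ?_
            end0 := fun t ht => ?_
            end1 := fun t ht => ?_
            end2 := fun t ht => ?_
            ang0 := fun t ht => ?_
            ang1 := fun t ht => ?_
            ang0' := fun t ht => ?_
            ang1' := fun t ht => ?_
            r0 := fun t ht p hp => ?_
            r1 := fun t ht p hp => ?_
            r2 := fun t ht p hp => ?_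
            hpos := fun t ht => hM.hpos _ (hs' t ht)
            hle := fun t ht => hE.h _ (hs' t ht)
            hle' := fun t ht => hE.h' _ (hs' t ht)
            ξb := fun t ht => hE.ξ _ (hs' t ht)
            x1 := fun t ht p hp => hM.x1 _ (hs' t ht) p hp
            y0 := fun t ht p hp => ?_
            φ1 := fun t ht p hp => ?_
            φ2 := fun t ht p hp => ?_
            y2 := fun t ht p hp => hE.y2 _ (hs' t ht) p hp
            diss := fun ε hε t₁ ht₁ => ?_ }⟩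
  · intro i
    fin_cases i
    exacts [mc_shift M0 hs, mc_shift (M 1) hs, mc_shift (M 2) hs]
  · intro i t ht
    fin_cases i
    · exact Complex.ext (gl_zero (G.x 0 _) fun p => -G.x 0 _ p) (gl_zero (G.y 0 _) (G.y 0 _))
    · exact Complex.ext (G.jx 1 _ (hs' t ht)) (G.jy 1 _ (hs' t ht))
    · exact Complex.ext (G.jx 2 _ (hs' t ht)) (G.jy 2 _ (hs' t ht))
  · exact Complex.ext (gl_one (G.x 0 _) fun p => -G.x 0 _ p) (gl_one (G.y 0 _) (G.y 0 _))
  · exact Complex.ext rfl (G.ey1 _ (hs' t ht))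
  · exact Complex.ext (hM.ex _ (hs' t ht)) (hM.ey _ (hs' t ht))
  · change φ0 G _ 0 = G.θ 2 _ 0 + αα 2 + _
    rw [φ0, gl_zero, G.jθ 2 _ (hs' t ht), αα0, αα2, add_zero]
  · change G.θ 1 _ 0 + αα 1 = G.θ 2 _ 0 + αα 2 + _
    rw [G.jθ 1 _ (hs' t ht), G.jθ 2 _ (hs' t ht), αα1, αα2, add_zero]
  · change φ0 G _ 1 = 2 * π - φ0 G _ 0
    rw [φ0, gl_zero, gl_one]
  · change G.θ 1 _ 1 + αα 1 = _
    rw [G.eθ1 _ (hs' t ht), αα1, zero_add]
  · change 2 * π / 3 ≤ φ0 G (t + TT / 2) p ∧ φ0 G (t + TT / 2) p ≤ 4 * π / 3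
    by_cases h : p ≤ 1 / 2
    · have := hM.θ 0 _ (hs' t ht) _ (mem_le hp h)
      rw [φ0, gl_le h, αα0]
      constructor <;> linarith [this.1, this.2]
    · have := hM.θ 0 _ (hs' t ht) _ (mem_gt hp h)
      rw [φ0, gl_gt h, αα0]
      constructor <;> linarith [this.1, this.2]
  · change 4 * π / 3 ≤ G.θ 1 (t + TT / 2) p + αα 1 ∧ G.θ 1 (t + TT / 2) p + αα 1 ≤ 5 * π / 3
    have := hM.θ 1 _ (hs' t ht) p hp
    rw [αα1]
    constructor <;> linarith [this.1, this.2]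
  · change 0 ≤ G.θ 2 (t + TT / 2) p + αα 2 ∧ G.θ 2 (t + TT / 2) p + αα 2 ≤ π / 3
    rw [αα2, add_zero]
    exact hM.θ 2 _ (hs' t ht) p hp
  · have key : ∀ q ∈ Icc (0 : ℝ) 1, G.h (t + TT / 2) ≤ G.y 0 (t + TT / 2) q ∧
        G.y 0 (t + TT / 2) q ≤ 25 * σσ (t + TT / 2) := fun q hq => by
      have h1 := hM.y0 _ (hs' t ht) q hq
      have h2 := hM.smono 0 _ (hs' t ht) q hq
      have h3 := hM.s0 _ (hs' t ht)
      have h4 := hE.ξ _ (hs' t ht)
      have h5 := hE.h' _ (hs' t ht)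
      have h6 := num.pos _ (hs t ht).2
      exact ⟨h1.1, by linarith [h1.2, h2.2, h3.2, h4.2]⟩
    change G.h (t + TT / 2) ≤ y0 G (t + TT / 2) p ∧ y0 G (t + TT / 2) p ≤ 25 * σσ (t + TT / 2)
    by_cases h : p ≤ 1 / 2
    · rw [y0, gl_le h]
      exact key _ (mem_le hp h)
    · rw [y0, gl_gt h]
      exact key _ (mem_gt hp h)
  · change G.θ 1 (t + TT / 2) p + αα 1 - 4 * π / 3 ≤ 10 / σσ (t + TT / 2) * G.h (t + TT / 2)
    rw [αα1, add_sub_cancel_right]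
    exact (hE.θ 1 _ (hs' t ht) p hp).trans (mul_le_mul_of_nonneg_left
      (hM.y1 _ (hs' t ht) p hp).2 (div_pos (by norm_num) (num.pos _ (hs t ht).2)).le)
  · change G.θ 2 (t + TT / 2) p + αα 2 ≤ 10 / σσ (t + TT / 2) * G.y 2 (t + TT / 2) p
    rw [αα2, add_zero]
    exact hE.θ 2 _ (hs' t ht) p hp
  · obtain ⟨t, ht, h⟩ := b10 G hM hE (ε / 2) (half_pos hε) _ (hs t₁ ht₁)
    obtain ⟨s, rfl⟩ : ∃ s, t = s + TT / 2 := ⟨t - TT / 2, by ring⟩
    refine ⟨s, ⟨by linarith [ht.1], by linarith [ht.2]⟩, ?_⟩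
    refine (diss_eq G tk M0 ⟨(hs t₁ ht₁).1.trans ht.1, ht.2⟩ (σσ (s + TT / 2))).trans_le ?_
    linarith

end Pool.Agent.P.MP_cf7202_gt
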