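import Pool.Agent.P.MP_cf7202_gt.DefAbs

/-! Smooth dependence of the fixed point of a contraction on a parameter. -/

namespace Pool.Agent.P.MP_cf7202_gt

open Set Filter Topology Function
open scoped ContDiff

namespace FIXAux

variable {X : Type} [NormedAddCommGroup X] [NormedSpace ℝ X] [CompleteSpace X]

omit [NormedSpace ℝ X] in
lemma ex_fix (g : X → X) (R q : ℝ) (hR : 0 < R) (hq0 : 0 ≤ q) (hq : q < 1)
    (hl : ∀ x ∈ Metric.ball (0 : X) (2 * R), ∀ y ∈ Metric.ball (0 : X) (2 * R),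
      ‖g x - g y‖ ≤ q * ‖x - y‖) (hm : ∀ x : X, ‖x‖ ≤ R → ‖g x‖ ≤ R) :
    ∃ z, ‖z‖ ≤ R ∧ g z = z := by
  have hs : MapsTo g (Metric.closedBall 0 R) (Metric.closedBall 0 R) := fun x hx =>
    mem_closedBall_zero_iff.2 (hm x (mem_closedBall_zero_iff.1 hx))
  have hb : ∀ x ∈ Metric.closedBall (0 : X) R, x ∈ Metric.ball (0 : X) (2 * R) := fun x hx =>
    mem_ball_zero_iff.2 ((mem_closedBall_zero_iff.1 hx).trans_lt (by linarith))
  have hc : ContractingWith ⟨q, hq0⟩ (hs.restrict g _ _) := by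
    refine ⟨by exact_mod_cast hq, LipschitzWith.of_dist_le_mul fun x y => ?_⟩
    rw [Subtype.dist_eq, Subtype.dist_eq, dist_eq_norm, dist_eq_norm]
    exact hl _ (hb _ x.2) _ (hb _ y.2)
  obtain ⟨z, hz, hf, -⟩ := hc.exists_fixedPoint' Metric.isClosed_closedBall.isComplete hs
    (Metric.mem_closedBall_self hR.le) (edist_ne_top _ _)
  exact ⟨z, mem_closedBall_zero_iff.1 hz, hf⟩

lemma inv_one_sub (D : X →L[ℝ] X) (h : ‖D‖ < 1) : (1 - D).IsInvertible :=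
  ⟨ContinuousLinearEquiv.unitsEquiv ℝ X (Units.oneSub D h), by ext x; simp⟩

end FIXAux

theorem fix : S_FIX := by
  intro X _ _ _ Φ a b R q hR hq0 hq hΦ hl hm
  have h1 : ∀ μ : ℝ, ∃ z : X, μ ∈ Ioo a b → ‖z‖ ≤ R ∧ Φ (μ, z) = z := fun μ => by
    by_cases hμ : μ ∈ Ioo a b
    · obtain ⟨z, hz⟩ := FIXAux.ex_fix (fun x => Φ (μ, x)) R q hR hq0 hq (hl μ hμ) (hm μ hμ)
      exact ⟨z, fun _ => hz⟩
    · exact ⟨0, fun h => absurd h hμ⟩
  choose z hz using h1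
  refine ⟨z, fun μ hμ => ContDiffAt.contDiffWithinAt ?_, hz⟩
  have hb : ∀ ν ∈ Ioo a b, z ν ∈ Metric.ball (0 : X) (2 * R) := fun ν hν =>
    mem_ball_zero_iff.2 ((hz ν hν).1.trans_lt (by linarith))
  have hΦ0 : ContDiffAt ℝ ∞ Φ (μ, z μ) :=
    hΦ.contDiffAt ((isOpen_Ioo.prod Metric.isOpen_ball).mem_nhds ⟨hμ, hb μ hμ⟩)
  have hf : ContDiffAt ℝ ∞ (fun v : ℝ × X => v.2 - Φ v) (μ, z μ) := contDiffAt_snd.sub hΦ0
  have hd : HasFDerivAt Φ (fderiv ℝ Φ (μ, z μ)) (μ, z μ) :=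
    (hΦ0.differentiableAt (by simp)).hasFDerivAt
  have hD : ‖fderiv ℝ Φ (μ, z μ) ∘L ContinuousLinearMap.inr ℝ ℝ X‖ ≤ q := by
    refine (hd.comp (z μ) (hasFDerivAt_prodMk_right μ (z μ))).le_of_lip' hq0 ?_
    filter_upwards [Metric.isOpen_ball.mem_nhds (hb μ hμ)] with x hx
    exact hl μ hμ x hx _ (hb μ hμ)
  have hi : (fderiv ℝ (fun v : ℝ × X => v.2 - Φ v) (μ, z μ) ∘L
      ContinuousLinearMap.inr ℝ ℝ X).IsInvertible := by
    have e : fderiv ℝ (fun v : ℝ × X => v.2 - Φ v) (μ, z μ) =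
        ContinuousLinearMap.snd ℝ ℝ X - fderiv ℝ Φ (μ, z μ) := (hasFDerivAt_snd.sub hd).fderiv
    have e' : (ContinuousLinearMap.snd ℝ ℝ X - fderiv ℝ Φ (μ, z μ)) ∘L
        ContinuousLinearMap.inr ℝ ℝ X =
        1 - fderiv ℝ Φ (μ, z μ) ∘L ContinuousLinearMap.inr ℝ ℝ X := by
      ext x
      simp
    rw [e, e']
    exact FIXAux.inv_one_sub _ (hD.trans_lt hq)
  have hψ := hf.contDiffAt_implicitFunction (by simp) hi
  refine hψ.congr_of_eventuallyEq ?_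
  have h0 : hf.implicitFunction (by simp) hi μ = z μ := hf.implicitFunction_apply_self (by simp) hi
  have h2 : ∀ᶠ ν in 𝓝 μ, hf.implicitFunction (by simp) hi ν ∈ Metric.ball (0 : X) (2 * R) :=
    hψ.continuousAt.eventually_mem (Metric.isOpen_ball.mem_nhds (by
      show hf.implicitFunction (by simp) hi μ ∈ _
      rw [h0]
      exact hb μ hμ))
  filter_upwards [h2, hf.eventually_apply_implicitFunction (by simp) hi,
    isOpen_Ioo.mem_nhds hμ] with ν h3 h4 hν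
  simp only [(hz μ hμ).2, sub_self, sub_eq_zero] at h4
  have h5 := hl ν hν _ (hb ν hν) _ h3
  rw [(hz ν hν).2, ← h4] at h5
  have h6 : ‖z ν - hf.implicitFunction (by simp) hi ν‖ ≤ 0 := by
    nlinarith [norm_nonneg (z ν - hf.implicitFunction (by simp) hi ν)]
  exact sub_eq_zero.1 (norm_le_zero_iff.1 h6)

end Pool.Agent.P.MP_cf7202_gt
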