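import Pool.Agent.P.MP_cf7202_gt.DefGeo

/-! Construction of the jets of the quarter network from a solution of the quarter system. -/

namespace Pool.Agent.P.MP_cf7202_gt

open Set Filter Topology Function Real
open scoped ContDiff

namespace GScAux

section basic
variable {a b : ℝ} {f g : ℝ → ℝ → ℝ}

theorem sm_ct (h : Sm a b f) : Ct a b f := ContDiffOn.continuousOn h

theorem sm_add (h : Sm a b f) (h' : Sm a b g) : Sm a b fun t x => f t x + g t x :=
  ContDiffOn.add h h'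

theorem sm_sub (h : Sm a b f) (h' : Sm a b g) : Sm a b fun t x => f t x - g t x :=
  ContDiffOn.sub h h'

theorem sm_neg (h : Sm a b f) : Sm a b fun t x => -f t x := ContDiffOn.neg h

theorem sm_mul (h : Sm a b f) (h' : Sm a b g) : Sm a b fun t x => f t x * g t x :=
  ContDiffOn.mul h h'

theorem sm_sq (h : Sm a b f) : Sm a b fun t x => f t x ^ 2 := ContDiffOn.pow h 2

theorem sm_div (h : Sm a b f) (h' : Sm a b g)
    (h0 : ∀ t ∈ Ioo a b, ∀ x ∈ Icc (0 : ℝ) 1, 0 < g t x) : Sm a b fun t x => f t x / g t x :=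
  ContDiffOn.div h h' fun z hz => (h0 z.1 hz.1 z.2 hz.2).ne'

theorem sm_div_const (h : Sm a b f) (c : ℝ) : Sm a b fun t x => f t x / c :=
  ContDiffOn.div_const h c

theorem sm_cos (h : Sm a b f) (c : ℝ) : Sm a b fun t x => cos (f t x + c) :=
  ContDiffOn.cos (ContDiffOn.add h contDiffOn_const)

theorem sm_sin (h : Sm a b f) (c : ℝ) : Sm a b fun t x => sin (f t x + c) :=
  ContDiffOn.sin (ContDiffOn.add h contDiffOn_const)

theorem sm_at (h : Sm a b f) {c : ℝ} (hc : c ∈ Icc (0 : ℝ) 1) : Sm a b fun t _ => f t c :=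
  ContDiffOn.comp h (f := fun z : ℝ × ℝ => (z.1, c)) (contDiffOn_fst.prodMk contDiffOn_const)
    fun _ hz => ⟨hz.1, hc⟩

theorem ct_slice (h : Ct a b f) {t : ℝ} (ht : t ∈ Ioo a b) : ContinuousOn (f t) (Icc 0 1) :=
  ContinuousOn.comp h (f := fun x : ℝ => (t, x)) (by fun_prop) fun _ hx => ⟨ht, hx⟩

theorem ct0_slice (h : Ct0 b f) {t : ℝ} (ht : t ∈ Ico 0 b) : ContinuousOn (f t) (Icc 0 1) :=
  ContinuousOn.comp h (f := fun x : ℝ => (t, x)) (by fun_prop) fun _ hx => ⟨ht, hx⟩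

theorem ct0_at (h : Ct0 b f) {c : ℝ} (hc : c ∈ Icc (0 : ℝ) 1) : Ct0 b fun t _ => f t c :=
  ContinuousOn.comp h (f := fun z : ℝ × ℝ => (z.1, c)) (by fun_prop) fun _ hz => ⟨hz.1, hc⟩

theorem has_dx_mul (tk : S_TK) (h : Sm a b f) {t p m : ℝ} (ht : t ∈ Ioo a b)
    (hp : p ∈ Icc (0 : ℝ) 1) (hm : 0 < m) :
    HasDerivWithinAt (f t) (m * (dx f t p / m)) (Icc 0 1) p := by
  rw [mul_div_cancel₀ _ hm.ne']; exact tk.has_dx a b f h t ht p hp

theorem z0 : (0 : ℝ) ∈ Icc (0 : ℝ) 1 := ⟨le_rfl, zero_le_one⟩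

theorem z1 : (1 : ℝ) ∈ Icc (0 : ℝ) 1 := ⟨zero_le_one, le_rfl⟩

/-- time derivative of a primitive -/
theorem prim_dt (tk : S_TK) (h : Sm a b f) {t : ℝ} (ht : t ∈ Ioo a b) {W : ℝ → ℝ}
    (hW : ∀ p ∈ Icc (0 : ℝ) 1, HasDerivWithinAt W (dt f t p) (Icc 0 1) p) {p : ℝ}
    (hp : p ∈ Icc (0 : ℝ) 1) : HasDerivAt (fun s => ∫ y in (0 : ℝ)..p, f s y) (W p - W 0) t := by
  have h1 := sm_ct (tk.sm_dt a b f h)
  rw [← tk.ftc W (dt f t) (ct_slice h1 ht) hW p hp]
  exact tk.int_dt a b f (dt f) (sm_ct h) h1 (tk.has_dt a b f h) t ht p hp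

end basic

theorem cos_a0 (φ : ℝ) : cos (φ + αα 0) = -cos φ / 2 - √3 * sin φ / 2 := by
  have h : αα 0 = π - π / 3 := by simp only [αα, Matrix.cons_val_zero]; ring
  rw [h, cos_add, cos_pi_sub, sin_pi_sub, cos_pi_div_three, sin_pi_div_three]; ring

theorem sin_a0 (φ : ℝ) : sin (φ + αα 0) = -sin φ / 2 + √3 * cos φ / 2 := by
  have h : αα 0 = π - π / 3 := by simp only [αα, Matrix.cons_val_zero]; ring
  rw [h, sin_add, cos_pi_sub, sin_pi_sub, cos_pi_div_three, sin_pi_div_three]; ring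

theorem cos_a1 (φ : ℝ) : cos (φ + αα 1) = -cos φ / 2 + √3 * sin φ / 2 := by
  have h : αα 1 = π / 3 + π := by simp only [αα, Matrix.cons_val_one, Matrix.cons_val_zero]; ring
  rw [h, cos_add, cos_add_pi, sin_add_pi, cos_pi_div_three, sin_pi_div_three]; ring

theorem sin_a1 (φ : ℝ) : sin (φ + αα 1) = -sin φ / 2 - √3 * cos φ / 2 := by
  have h : αα 1 = π / 3 + π := by simp only [αα, Matrix.cons_val_one, Matrix.cons_val_zero]; ring
  rw [h, sin_add, cos_add_pi, sin_add_pi, cos_pi_div_three, sin_pi_div_three]; ring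

theorem a2 : αα 2 = 0 := rfl

/-- the velocity of the junction does not depend on the edge -/
theorem junction (k : Fin 3 → ℝ) (hk : k 0 + k 1 + k 2 = 0) (φ : ℝ) (i : Fin 3) :
    (k (i + 2) - k (i + 1)) / √3 * cos (φ + αα i) - k i * sin (φ + αα i) =
      (k 1 - k 0) / √3 * cos φ - k 2 * sin φ ∧
    (k (i + 2) - k (i + 1)) / √3 * sin (φ + αα i) + k i * cos (φ + αα i) =
      (k 1 - k 0) / √3 * sin φ + k 2 * cos φ := by
  have h3 : √3 * √3 = 3 := mul_self_sqrt (by norm_num)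
  have h0 : √3 ≠ 0 := by positivity
  have e : ∀ x : ℝ, x / √3 = x * √3 / 3 := fun x => by
    rw [div_eq_div_iff h0 three_ne_zero, mul_assoc, h3]
  have h2 : k 2 = -k 0 - k 1 := by linarith
  fin_cases i
  · show (k 2 - k 1) / √3 * cos (φ + αα 0) - k 0 * sin (φ + αα 0) = _ ∧
      (k 2 - k 1) / √3 * sin (φ + αα 0) + k 0 * cos (φ + αα 0) = _
    rw [cos_a0, sin_a0, e, e, h2]
    constructor
    · linear_combination ((k 0 + 2 * k 1) * sin φ / 6) * h3
    · linear_combination (-(k 0 + 2 * k 1) * cos φ / 6) * h3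
  · show (k 0 - k 2) / √3 * cos (φ + αα 1) - k 1 * sin (φ + αα 1) = _ ∧
      (k 0 - k 2) / √3 * sin (φ + αα 1) + k 1 * cos (φ + αα 1) = _
    rw [cos_a1, sin_a1, e, e, h2]
    constructor
    · linear_combination ((2 * k 0 + k 1) * sin φ / 6) * h3
    · linear_combination (-(2 * k 0 + k 1) * cos φ / 6) * h3
  · show (k 1 - k 0) / √3 * cos (φ + αα 2) - k 2 * sin (φ + αα 2) = _ ∧
      (k 1 - k 0) / √3 * sin (φ + αα 2) + k 2 * cos (φ + αα 2) = _
    rw [a2, add_zero]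
    exact ⟨rfl, rfl⟩

/-- first arclength derivative of the curvature -/
noncomputable def ks (u : ℝ → St) (i : Fin 3) (t p : ℝ) : ℝ := dx (ka u i) t p / me u i t p

/-- second arclength derivative of the curvature -/
noncomputable def kss (u : ℝ → St) (i : Fin 3) (t p : ℝ) : ℝ := dx (ks u i) t p / me u i t p

noncomputable def cc (u : ℝ → St) (i : Fin 3) (t p : ℝ) : ℝ :=
  me u i t p * cos (th u i t p + αα i)

noncomputable def ss (u : ℝ → St) (i : Fin 3) (t p : ℝ) : ℝ :=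
  me u i t p * sin (th u i t p + αα i)

noncomputable def xx (u : ℝ → St) (i : Fin 3) (t p : ℝ) : ℝ :=
  -(∫ q in (0 : ℝ)..1, cc u 0 t q) + ∫ q in (0 : ℝ)..p, cc u i t q

noncomputable def yy (u : ℝ → St) (i : Fin 3) (t p : ℝ) : ℝ :=
  -(∫ q in (0 : ℝ)..1, ss u 1 t q) + ∫ q in (0 : ℝ)..p, ss u i t q

variable {a b : ℝ} {u : ℝ → St}

theorem sm_me (Q : QS a b u) (i : Fin 3) : Sm a b (me u i) := by
  have h : ∀ j, ContDiffOn ℝ ∞ (fun z : ℝ × ℝ => (u z.1).2 j) (Ioo a b ×ˢ Icc 0 1) := fun j =>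
    (Q.sL j).comp contDiffOn_fst fun _ hz => hz.1
  have hg : ContDiffOn ℝ ∞ (fun z : ℝ × ℝ => gg z.2) (Ioo a b ×ˢ Icc 0 1) := by
    unfold gg; fun_prop
  exact (h 1).add (((h i).sub (h 1)).mul hg)

theorem ct0_me (C : Cont0 b u) (i : Fin 3) : Ct0 b (me u i) := by
  have h : ∀ j, ContinuousOn (fun z : ℝ × ℝ => (u z.1).2 j) (Ico 0 b ×ˢ Icc 0 1) := fun j =>
    (C.cL j).comp continuousOn_fst fun _ hz => hz.1
  have hg : ContinuousOn (fun z : ℝ × ℝ => gg z.2) (Ico 0 b ×ˢ Icc 0 1) := by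
    unfold gg; fun_prop
  exact (h 1).add (((h i).sub (h 1)).mul hg)

theorem ct0_cc (C : Cont0 b u) (i : Fin 3) : Ct0 b (cc u i) :=
  ContinuousOn.mul (ct0_me C i)
    (continuous_cos.comp_continuousOn (ContinuousOn.add (C.cth i) continuousOn_const))

theorem ct0_ss (C : Cont0 b u) (i : Fin 3) : Ct0 b (ss u i) :=
  ContinuousOn.mul (ct0_me C i)
    (continuous_sin.comp_continuousOn (ContinuousOn.add (C.cth i) continuousOn_const))

theorem sm_cc (Q : QS a b u) (i : Fin 3) : Sm a b (cc u i) :=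
  sm_mul (sm_me Q i) (sm_cos (Q.sth i) _)

theorem sm_ss (Q : QS a b u) (i : Fin 3) : Sm a b (ss u i) :=
  sm_mul (sm_me Q i) (sm_sin (Q.sth i) _)

variable (tk : S_TK) (Q : QS a b u)
include tk Q

theorem sm_ka (i : Fin 3) : Sm a b (ka u i) :=
  sm_div (tk.sm_dx a b _ (Q.sth i)) (sm_me Q i) fun t ht => Q.pos t ht i

theorem sm_ks (i : Fin 3) : Sm a b (ks u i) :=
  sm_div (tk.sm_dx a b _ (sm_ka tk Q i)) (sm_me Q i) fun t ht => Q.pos t ht i

theorem sm_kss (i : Fin 3) : Sm a b (kss u i) :=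
  sm_div (tk.sm_dx a b _ (sm_ks tk Q i)) (sm_me Q i) fun t ht => Q.pos t ht i

theorem sm_src (i : Fin 3) :
    Sm a b fun t y => dt (me u i) t y + ka u i t y ^ 2 * me u i t y :=
  sm_add (tk.sm_dt a b _ (sm_me Q i)) (sm_mul (sm_sq (sm_ka tk Q i)) (sm_me Q i))

theorem sm_la (i : Fin 3) : Sm a b (la u i) :=
  sm_add (sm_div_const (sm_sub (sm_at (sm_ka tk Q _) z0) (sm_at (sm_ka tk Q _) z0)) _)
    (tk.sm_int a b _ (sm_src tk Q i))

theorem sm_xx (i : Fin 3) : Sm a b (xx u i) :=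
  sm_add (sm_neg (sm_at (tk.sm_int a b _ (sm_cc Q 0)) z1)) (tk.sm_int a b _ (sm_cc Q i))

theorem sm_yy (i : Fin 3) : Sm a b (yy u i) :=
  sm_add (sm_neg (sm_at (tk.sm_int a b _ (sm_ss Q 1)) z1)) (tk.sm_int a b _ (sm_ss Q i))

variable (i : Fin 3) {t : ℝ} (ht : t ∈ Ioo a b)
include ht

theorem th_p {p : ℝ} (hp : p ∈ Icc (0 : ℝ) 1) :
    HasDerivWithinAt (th u i t) (me u i t p * ka u i t p) (Icc 0 1) p :=
  has_dx_mul tk (Q.sth i) ht hp (Q.pos t ht i p hp)

theorem ka_p {p : ℝ} (hp : p ∈ Icc (0 : ℝ) 1) :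
    HasDerivWithinAt (ka u i t) (me u i t p * ks u i t p) (Icc 0 1) p :=
  has_dx_mul tk (sm_ka tk Q i) ht hp (Q.pos t ht i p hp)

theorem ks_p {p : ℝ} (hp : p ∈ Icc (0 : ℝ) 1) :
    HasDerivWithinAt (ks u i t) (me u i t p * kss u i t p) (Icc 0 1) p :=
  has_dx_mul tk (sm_ks tk Q i) ht hp (Q.pos t ht i p hp)

theorem la_p {p : ℝ} (hp : p ∈ Icc (0 : ℝ) 1) : HasDerivWithinAt (la u i t)
    (dt (me u i) t p + ka u i t p ^ 2 * me u i t p) (Icc 0 1) p :=
  (tk.int_dx _ (ct_slice (sm_ct (sm_src tk Q i)) ht) p hp).const_add _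

theorem th_t {p : ℝ} (hp : p ∈ Icc (0 : ℝ) 1) :
    HasDerivAt (fun s => th u i s p) (ks u i t p + la u i t p * ka u i t p) t := by
  have h := tk.has_dt a b _ (Q.sth i) t ht p hp
  rwa [Q.pde t ht i p hp] at h

theorem me_t {p : ℝ} (hp : p ∈ Icc (0 : ℝ) 1) :
    HasDerivAt (fun s => me u i s p) (dt (me u i) t p) t :=
  tk.has_dt a b _ (sm_me Q i) t ht p hp

theorem ka_t {p : ℝ} (hp : p ∈ Icc (0 : ℝ) 1) : HasDerivAt (fun s => ka u i s p)
    (kss u i t p + la u i t p * ks u i t p + ka u i t p ^ 3) t := by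
  have hm := (Q.pos t ht i p hp).ne'
  have h1 := tk.has_dt a b _ (tk.sm_dx a b _ (Q.sth i)) t ht p hp
  have h2 := ((ks_p tk Q i ht hp).add ((la_p tk Q i ht hp).mul (ka_p tk Q i ht hp))).congr
    (f₁ := dt (th u i) t) (fun x hx => Q.pde t ht i x hx) (Q.pde t ht i p hp)
  have h3 := h2.derivWithin (uniqueDiffOn_Icc zero_lt_one p hp)
  rw [tk.comm a b _ (Q.sth i) t ht p hp, dx, h3] at h1
  have h4 : dx (th u i) t p = me u i t p * ka u i t p := (mul_div_cancel₀ _ hm).symm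
  refine (h1.fun_div (me_t tk Q i ht hp) hm).congr_deriv ?_
  rw [h4]
  field_simp
  ring

theorem cc_t {p : ℝ} (hp : p ∈ Icc (0 : ℝ) 1) : HasDerivWithinAt
    (fun q => la u i t q * cos (th u i t q + αα i) - ka u i t q * sin (th u i t q + αα i))
    (dt (cc u i) t p) (Icc 0 1) p := by
  have h1 := ((me_t tk Q i ht hp).mul ((th_t tk Q i ht hp).add_const (αα i)).cos).deriv
  have h2 := (th_p tk Q i ht hp).add_const (αα i)
  refine (((la_p tk Q i ht hp).fun_mul h2.cos).fun_sub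
    ((ka_p tk Q i ht hp).fun_mul h2.sin)).congr_deriv (Eq.trans ?_ h1.symm)
  ring

theorem ss_t {p : ℝ} (hp : p ∈ Icc (0 : ℝ) 1) : HasDerivWithinAt
    (fun q => la u i t q * sin (th u i t q + αα i) + ka u i t q * cos (th u i t q + αα i))
    (dt (ss u i) t p) (Icc 0 1) p := by
  have h1 := ((me_t tk Q i ht hp).mul ((th_t tk Q i ht hp).add_const (αα i)).sin).deriv
  have h2 := (th_p tk Q i ht hp).add_const (αα i)
  refine (((la_p tk Q i ht hp).fun_mul h2.sin).fun_add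
    ((ka_p tk Q i ht hp).fun_mul h2.cos)).congr_deriv (Eq.trans ?_ h1.symm)
  ring

omit tk Q ht in
theorem la_zero (t : ℝ) : la u i t 0 = (ka u (i + 2) t 0 - ka u (i + 1) t 0) / √3 := by
  rw [la, intervalIntegral.integral_same, add_zero]

theorem xx_t {p : ℝ} (hp : p ∈ Icc (0 : ℝ) 1) : HasDerivAt (fun s => xx u i s p)
    (la u i t p * cos (th u i t p + αα i) - ka u i t p * sin (th u i t p + αα i)) t := by
  have h1 := prim_dt tk (sm_cc Q 0) ht (fun q hq => cc_t tk Q 0 ht hq) z1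
  have h2 := prim_dt tk (sm_cc Q i) ht (fun q hq => cc_t tk Q i ht hq) hp
  have j0 := (junction (fun j => ka u j t 0) (Q.j1 t ht) (th u 0 t 0) 0).1
  have ji := (junction (fun j => ka u j t 0) (Q.j1 t ht) (th u 0 t 0) i).1
  have e : π / 3 + αα 0 = π := by simp only [αα, Matrix.cons_val_zero]; ring
  refine (h1.fun_neg.fun_add h2).congr_deriv ?_
  simp only [la_zero, Q.j0 t ht i, Q.l0 t ht, Q.e0 t ht, e, sin_pi, j0, ji]
  ring

theorem yy_t {p : ℝ} (hp : p ∈ Icc (0 : ℝ) 1) : HasDerivAt (fun s => yy u i s p)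
    (la u i t p * sin (th u i t p + αα i) + ka u i t p * cos (th u i t p + αα i)) t := by
  have h1 := prim_dt tk (sm_ss Q 1) ht (fun q hq => ss_t tk Q 1 ht hq) z1
  have h2 := prim_dt tk (sm_ss Q i) ht (fun q hq => ss_t tk Q i ht hq) hp
  have j1 := (junction (fun j => ka u j t 0) (Q.j1 t ht) (th u 0 t 0) 1).2
  have ji := (junction (fun j => ka u j t 0) (Q.j1 t ht) (th u 0 t 0) i).2
  have h0 : √3 ≠ 0 := by positivity
  have e : -ka u 1 t 1 / √3 * sin (0 + αα 1) + ka u 1 t 1 * cos (0 + αα 1) = 0 := by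
    rw [sin_a1, cos_a1, sin_zero, cos_zero]; field_simp; ring
  refine (h1.fun_neg.fun_add h2).congr_deriv ?_
  simp only [la_zero, Q.j0 t ht i, Q.j0 t ht 1, Q.l1 t ht, Q.e1 t ht, e, j1, ji]
  ring

end GScAux

open GScAux in
theorem gs : S_TK → S_GS := by
  intro tk T K u _ Q C A hK
  have sp : ∀ {P : ℝ → Prop}, P 0 → (∀ t ∈ Ioo 0 T, P t) → ∀ t ∈ Ico 0 T, P t := by
    intro P h0 h t ht
    rcases ht.1.eq_or_lt with rfl | h1
    · exact h0
    · exact h t ⟨h1, ht.2⟩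
  refine ⟨{
    θ := th u, κ := ka u, ks := ks u, kss := kss u, m := me u, mt := fun i => dt (me u i)
    lam := la u, x := xx u, y := yy u
    cθ := C.cth
    cm := ct0_me C
    cx := fun i => ContinuousOn.add (ContinuousOn.neg (ct0_at (tk.ct0_int T _ (ct0_cc C 0)) z1))
      (tk.ct0_int T _ (ct0_cc C i))
    cy := fun i => ContinuousOn.add (ContinuousOn.neg (ct0_at (tk.ct0_int T _ (ct0_ss C 1)) z1))
      (tk.ct0_int T _ (ct0_ss C i))
    cκ := fun i => sm_ct (sm_ka tk Q i)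
    cks := fun i => sm_ct (sm_ks tk Q i)
    ckss := fun i => sm_ct (sm_kss tk Q i)
    cmt := fun i => sm_ct (tk.sm_dt 0 T _ (sm_me Q i))
    clam := fun i => sm_ct (sm_la tk Q i)
    mpos := fun i => sp (fun p hp => (inv_pos.mpr hK).trans_le (A.lo i p hp))
      fun t ht => Q.pos t ht i
    xp := fun i t ht p hp => (tk.int_dx _ (ct0_slice (ct0_cc C i) ht) p hp).const_add _
    yp := fun i t ht p hp => (tk.int_dx _ (ct0_slice (ct0_ss C i) ht) p hp).const_add _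
    θp := fun i t ht p hp => th_p tk Q i ht hp
    κp := fun i t ht p hp => ka_p tk Q i ht hp
    ksp := fun i t ht p hp => ks_p tk Q i ht hp
    lamp := fun i t ht p hp => la_p tk Q i ht hp
    θt := fun i t ht p hp => th_t tk Q i ht hp
    κt := fun i t ht p hp => ka_t tk Q i ht hp
    mt' := fun i t ht p hp => me_t tk Q i ht hp
    xt := fun i t ht p hp => xx_t tk Q i ht hp
    yt := fun i t ht p hp => yy_t tk Q i ht hp
    jθ := fun i => sp (A.j0 i) fun t ht => Q.j0 t ht i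
    jx := fun i t _ => by simp only [xx, intervalIntegral.integral_same]
    jy := fun i t _ => by simp only [yy, intervalIntegral.integral_same]
    jκ := Q.j1
    jlam := fun i t _ => la_zero i t
    eθ0 := sp A.e0 Q.e0
    eθ1 := sp A.e1 Q.e1
    eκ2 := Q.e2
    el0 := Q.l0
    el1 := Q.l1
    el2 := Q.l2
    ex0 := fun t _ => neg_add_cancel _
    ey1 := fun t _ => neg_add_cancel _ }, rfl, rfl, rfl, rfl,
    fun i => ⟨sm_xx tk Q i, sm_yy tk Q i⟩⟩

end Pool.Agent.P.MP_cf7202_gt
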