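import Pool.Agent.P.MP_cf7202_gt.DefGeo

/-! The initial network. -/

namespace Pool.Agent.P.MP_cf7202_gt

open Set Filter Topology Function Real

namespace INITAux

theorem s3lo : (1.732 : ℝ) < √3 := Real.lt_sqrt_of_sq_lt (by norm_num)

theorem s3hi : √3 < (1.7321 : ℝ) := (Real.sqrt_lt' (by norm_num)).2 (by norm_num)

theorem s3sq : √3 * √3 = (3 : ℝ) := Real.mul_self_sqrt (by norm_num)

theorem L00 : L0 0 = π / 3 := rfl

theorem L01 : L0 1 = 2 * ηη / √3 := rfl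

theorem L02 : L0 2 = 30 := rfl

theorem eta_pos : 0 < ηη := by unfold ηη; positivity

theorem eta_le : ηη ≤ 1 / 10 ^ 8 := le_rfl

theorem L1lo : ηη ≤ L0 1 := by
  rw [L01, le_div_iff₀ (by linarith [s3lo])]
  nlinarith [s3hi, eta_pos]

theorem L1hi : L0 1 ≤ 2 * ηη := by
  rw [L01, div_le_iff₀ (by linarith [s3lo])]
  nlinarith [s3lo, eta_pos]

theorem L1s : L0 1 * √3 = 2 * ηη := by
  rw [L01, div_mul_cancel₀ _ (by linarith [s3lo])]

theorem Lge (i : Fin 3) : L0 1 ≤ L0 i := by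
  have h1 := L1hi
  have h2 := eta_le
  have h3 := pi_gt_three
  fin_cases i
  · show L0 1 ≤ π / 3
    linarith
  · exact le_rfl
  · show L0 1 ≤ 30
    linarith

theorem Lle (i : Fin 3) : L0 i ≤ 30 := by
  have h1 := L1hi
  have h2 := eta_le
  have h3 := pi_lt_four
  fin_cases i
  · show π / 3 ≤ 30
    linarith
  · show L0 1 ≤ 30
    linarith
  · exact le_rfl

theorem gg_nonneg {x : ℝ} (hx : x ∈ Icc (0 : ℝ) 1) : 0 ≤ gg x := by
  unfold gg
  nlinarith [hx.1, hx.2]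

theorem gg_le {x : ℝ} : gg x ≤ 3 / 2 := by
  unfold gg
  nlinarith [sq_nonneg (x - 1)]

theorem mm_lo (i : Fin 3) {x : ℝ} (hx : x ∈ Icc (0 : ℝ) 1) : L0 1 ≤ mm L0 i x := by
  unfold mm
  nlinarith [mul_nonneg (sub_nonneg.2 (Lge i)) (gg_nonneg hx)]

/-- arclength along edge `i` at the initial time -/
noncomputable def ss (i : Fin 3) (x : ℝ) : ℝ :=
  L0 1 * x + (L0 i - L0 1) * (3 / 2 * x ^ 2 - x ^ 3 / 2)

theorem ss_deriv (i : Fin 3) (x : ℝ) : HasDerivAt (ss i) (mm L0 i x) x := by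
  have h := ((hasDerivAt_id x).const_mul (L0 1)).fun_add
    (((((hasDerivAt_id x).fun_pow 2).const_mul (3 / 2)).fun_sub
      (((hasDerivAt_id x).fun_pow 3).div_const 2)).const_mul (L0 i - L0 1))
  refine HasDerivAt.congr_deriv (f := ss i) h ?_
  simp only [mm, gg, id]
  push_cast
  ring

theorem ss_zero (i : Fin 3) : ss i 0 = 0 := by simp [ss]

theorem ss_one (i : Fin 3) : ss i 1 = L0 i := by
  unfold ss
  ring

theorem ss_mem (i : Fin 3) {x : ℝ} (hx : x ∈ Icc (0 : ℝ) 1) : 0 ≤ ss i x ∧ ss i x ≤ L0 i := by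
  have h1 : 0 ≤ 3 / 2 * x ^ 2 - x ^ 3 / 2 := by nlinarith [hx.1, hx.2, sq_nonneg x]
  have h2 : 3 / 2 * x ^ 2 - x ^ 3 / 2 ≤ 1 := by
    nlinarith [hx.1, hx.2, sq_nonneg x, mul_nonneg hx.1 (sub_nonneg.2 hx.2),
      mul_nonneg (mul_nonneg hx.1 hx.1) (sub_nonneg.2 hx.2),
      mul_nonneg (sub_nonneg.2 hx.2) (sub_nonneg.2 hx.2)]
  have h3 := sub_nonneg.2 (Lge i)
  have h4 : 0 ≤ L0 1 := eta_pos.le.trans L1lo
  unfold ss
  constructor
  · nlinarith [mul_nonneg h3 h1, mul_nonneg h4 hx.1]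
  · nlinarith [mul_le_mul_of_nonneg_left h2 h3, mul_le_mul_of_nonneg_left hx.2 h4]

theorem d00 {x : ℝ} (hx : x ∈ Icc (0 : ℝ) 1) : d0.1 0 x = ss 0 x := by
  show θ0 (projIcc (0 : ℝ) 1 zero_le_one x) = ss 0 x
  rw [projIcc_of_mem _ hx]
  rfl

theorem adm : Adm (10 ^ 9) d0 := by
  have hη : ηη = 1 / 10 ^ 8 := rfl
  refine ⟨fun i x => ?_, fun i => ?_, fun i => ?_, ?_, rfl, fun i => ?_, fun i x hx => ?_,
    fun i => ?_⟩
  · fin_cases i
    · show θ0 (projIcc (0 : ℝ) 1 zero_le_one x) =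
        θ0 (projIcc (0 : ℝ) 1 zero_le_one (projIcc (0 : ℝ) 1 zero_le_one x))
      rw [projIcc_val]
    · rfl
    · rfl
  · fin_cases i
    · refine ContDiffOn.congr (f := ss 0) ?_ fun x hx => d00 hx
      unfold ss
      fun_prop
    · exact contDiffOn_const
    · exact contDiffOn_const
  · have : d0.1 0 0 = 0 := by rw [d00 ⟨le_rfl, zero_le_one⟩, ss_zero]
    rw [this]
    fin_cases i
    · exact this
    · rfl
    · rfl
  · rw [d00 ⟨zero_le_one, le_rfl⟩, ss_one, L00]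
  · fin_cases i
    · have e : ∫ x in (0 : ℝ)..1, derivWithin (d0.1 0) (Icc 0 1) x ^ 2 =
          ∫ x in (0 : ℝ)..1, mm L0 0 x ^ 2 := by
        refine intervalIntegral.integral_congr fun x hx => ?_
        rw [uIcc_of_le zero_le_one] at hx
        have h := (ss_deriv 0 x).hasDerivWithinAt.congr_of_mem (s := Icc 0 1)
          (fun y hy => d00 hy) hx
        simp only [h.derivWithin (uniqueDiffOn_Icc zero_lt_one x hx)]
      show ∫ x in (0 : ℝ)..1, derivWithin (d0.1 0) (Icc 0 1) x ^ 2 ≤ 10 ^ 9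
      rw [e]
      have hc : Continuous fun x => mm L0 0 x ^ 2 := by
        unfold mm gg
        fun_prop
      calc _ ≤ ∫ _x in (0 : ℝ)..1, (10 ^ 9 : ℝ) := by
            refine intervalIntegral.integral_mono_on zero_le_one (hc.intervalIntegrable _ _)
              (continuous_const.intervalIntegrable _ _) fun x hx => ?_
            have h1 := mm_lo 0 hx
            have h2 : mm L0 0 x ≤ 100 := by
              unfold mm
              nlinarith [mul_le_mul_of_nonneg_left (gg_le (x := x)) (sub_nonneg.2 (Lge 0)),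
                Lle 0, Lle 1, eta_pos, L1lo]
            nlinarith [eta_pos, L1lo]
        _ = _ := by simp
    · show ∫ x in (0 : ℝ)..1, derivWithin (fun _ : ℝ => (0 : ℝ)) (Icc 0 1) x ^ 2 ≤ 10 ^ 9
      simp
    · show ∫ x in (0 : ℝ)..1, derivWithin (fun _ : ℝ => (0 : ℝ)) (Icc 0 1) x ^ 2 ≤ 10 ^ 9
      simp
  · have h1 := mm_lo i hx
    have h2 := L1lo
    show ((10 : ℝ) ^ 9)⁻¹ ≤ mm L0 i x
    rw [hη] at h2
    norm_num at h2 ⊢
    linarith
  · show |L0 i| ≤ 10 ^ 9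
    rw [abs_of_nonneg (eta_pos.le.trans (L1lo.trans (Lge i)))]
    linarith [Lle i]

theorem uniq (tk : S_TK) {f g f' : ℝ → ℝ}
    (hf : ∀ x ∈ Icc (0 : ℝ) 1, HasDerivWithinAt f (f' x) (Icc 0 1) x)
    (hg : ∀ x ∈ Icc (0 : ℝ) 1, HasDerivAt g (f' x) x) {c : ℝ} (hc : c ∈ Icc (0 : ℝ) 1)
    (h : f c = g c) : ∀ x ∈ Icc (0 : ℝ) 1, f x = g x := by
  have key := tk.ftc (fun x => f x - g x) (fun _ => 0) continuousOn_const fun x hx => by
    simpa using (hf x hx).fun_sub (hg x hx).hasDerivWithinAt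
  intro x hx
  have h1 := key x hx
  have h2 := key c hc
  simp only [intervalIntegral.integral_zero] at h1 h2
  linarith

theorem prim {F g k : ℝ → ℝ} (hF : ∀ x, HasDerivAt F (k x) x) (hk : Continuous k)
    (hg : ∀ x ∈ Icc (0 : ℝ) 1, g x = k x) {p : ℝ} (hp : p ∈ Icc (0 : ℝ) 1) :
    ∫ q in (0 : ℝ)..p, g q = F p - F 0 := by
  rw [← intervalIntegral.integral_eq_sub_of_hasDerivAt (fun x _ => hF x)
    (hk.intervalIntegrable _ _)]
  refine intervalIntegral.integral_congr fun x hx => hg x ?_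
  rw [uIcc_of_le hp.1] at hx
  exact ⟨hx.1, hx.2.trans hp.2⟩

theorem cos_a0 (t : ℝ) : cos (t + αα 0) = -cos (π / 3 - t) := by
  show cos (t + 2 * π / 3) = _
  rw [← cos_pi_sub]
  congr 1
  ring

theorem sin_a0 (t : ℝ) : sin (t + αα 0) = sin (π / 3 - t) := by
  show sin (t + 2 * π / 3) = _
  rw [← sin_pi_sub]
  congr 1
  ring

theorem cos_a1 : cos (0 + αα 1) = -(1 / 2) := by
  show cos (0 + 4 * π / 3) = _
  rw [show 0 + 4 * π / 3 = π / 3 + π by ring, cos_add_pi, cos_pi_div_three]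

theorem sin_a1 : sin (0 + αα 1) = -(√3 / 2) := by
  show sin (0 + 4 * π / 3) = _
  rw [show 0 + 4 * π / 3 = π / 3 + π by ring, sin_add_pi, sin_pi_div_three]

theorem cos_a2 : cos (0 + αα 2) = 1 := by
  show cos (0 + 0) = _
  simp

theorem sin_a2 : sin (0 + αα 2) = 0 := by
  show sin (0 + 0) = _
  simp

theorem mm1 (x : ℝ) : mm L0 1 x = L0 1 := by simp [mm]

theorem mm_cont (i : Fin 3) : Continuous (mm L0 i) := by
  unfold mm gg
  fun_prop

theorem ss_cont (i : Fin 3) : Continuous (ss i) := by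
  unfold ss
  fun_prop

theorem cos_lower {t : ℝ} (h0 : 0 ≤ t) (h1 : t ≤ π / 3) :
    0.28 * t ≤ cos (π / 3 - t) - 1 / 2 := by
  have hp1 := pi_gt_d2
  have hp2 := pi_lt_d2
  have h2 : 2 / π * t ≤ sin t := mul_le_sin h0 (by linarith)
  have h3 : 1 - t ^ 2 / 2 ≤ cos t := one_sub_sq_div_two_le_cos
  have h4 : (0.63 : ℝ) ≤ 2 / π := by
    rw [le_div_iff₀ pi_pos]
    linarith
  have h5 : 0.63 * t ≤ sin t := (mul_le_mul_of_nonneg_right h4 h0).trans h2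
  have h6 : t ≤ 1.05 := by linarith
  rw [cos_sub, cos_pi_div_three, sin_pi_div_three]
  have h7 : 1.732 / 2 * (0.63 * t) ≤ √3 / 2 * sin t :=
    mul_le_mul (by linarith [s3lo]) h5 (by positivity) (by positivity)
  nlinarith [mul_le_mul_of_nonneg_left h6 h0]

end INITAux

open INITAux in
theorem init : S_TK → S_NUM → S_INIT := by
  intro tk num
  refine ⟨⟨10 ^ 9, by positivity, adm⟩, fun T G hT hθ hm => ?_⟩
  have h0T : (0 : ℝ) ∈ Ico 0 T := ⟨le_rfl, hT⟩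
  have m0 : (0 : ℝ) ∈ Icc (0 : ℝ) 1 := ⟨le_rfl, zero_le_one⟩
  have m1 : (1 : ℝ) ∈ Icc (0 : ℝ) 1 := ⟨zero_le_one, le_rfl⟩
  have hTT : 0 < TT := by linarith [num.TT.1]
  have hσ : 0 < σσ 0 := num.pos 0 hTT
  have hσ1 : σσ 0 ≤ 0.77 := num.le 0 le_rfl
  have hσ2 : σσ 0 ^ 2 ≤ 0.59 := by
    rw [num.sq 0 hTT.le]
    linarith [num.TT.2]
  have hη := eta_pos
  have hη1 := eta_le
  have t0 : ∀ p ∈ Icc (0 : ℝ) 1, G.θ 0 0 p = ss 0 p := fun p hp => (hθ 0 p).trans (d00 hp)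
  have t1 : ∀ p, G.θ 1 0 p = 0 := fun p => hθ 1 p
  have t2 : ∀ p, G.θ 2 0 p = 0 := fun p => hθ 2 p
  have hm' : ∀ i p, G.m i 0 p = mm L0 i p := hm
  have hψ : ∀ x, HasDerivAt (fun x => π / 3 - ss 0 x) (-mm L0 0 x) x :=
    fun x => (ss_deriv 0 x).const_sub _
  have x0 : ∀ p ∈ Icc (0 : ℝ) 1, G.x 0 0 p = sin (π / 3 - ss 0 p) := by
    refine uniq tk (G.xp 0 0 h0T) (fun x hx => ?_) m1 ?_
    · refine (hψ x).sin.congr_deriv ?_
      rw [hm', t0 x hx, cos_a0]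
      ring
    · rw [G.ex0 0 h0T, ss_one, L00]
      simp
  have y1 : ∀ p ∈ Icc (0 : ℝ) 1, G.y 1 0 p = ηη * (1 - p) := by
    refine uniq tk (G.yp 1 0 h0T) (fun x _ => ?_) m1 ?_
    · refine (((hasDerivAt_id x).const_sub 1).const_mul ηη).congr_deriv ?_
      rw [hm', t1, sin_a1, mm1]
      linarith [L1s]
    · rw [G.ey1 0 h0T]
      simp
  have h0 : G.y 0 0 0 = ηη := by
    rw [← G.jy 1 0 h0T, y1 0 m0]
    simp
  have y0 : ∀ p ∈ Icc (0 : ℝ) 1, G.y 0 0 p = ηη + cos (π / 3 - ss 0 p) - 1 / 2 := by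
    refine uniq tk (G.yp 0 0 h0T) (fun x hx => ?_) m0 ?_
    · refine (((hψ x).cos.const_add ηη).sub_const (1 / 2)).congr_deriv ?_
      rw [hm', t0 x hx, sin_a0]
      ring
    · rw [h0, ss_zero, sub_zero, cos_pi_div_three]
      ring
  have ξ0 : G.x 0 0 0 = √3 / 2 := by
    rw [x0 0 m0, ss_zero, sub_zero, sin_pi_div_three]
  have x2 : ∀ p ∈ Icc (0 : ℝ) 1, G.x 2 0 p = √3 / 2 + ss 2 p := by
    refine uniq tk (G.xp 2 0 h0T) (fun x _ => ?_) m0 ?_
    · refine ((ss_deriv 2 x).const_add (√3 / 2)).congr_deriv ?_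
      rw [hm', t2, cos_a2, mul_one]
    · rw [G.jx 2 0 h0T, ξ0, ss_zero, add_zero]
  have y2 : ∀ p ∈ Icc (0 : ℝ) 1, G.y 2 0 p = ηη := by
    refine uniq tk (g := fun _ => ηη) (G.yp 2 0 h0T) (fun x _ => ?_) m0 ?_
    · refine (hasDerivAt_const x ηη).congr_deriv ?_
      rw [t2, sin_a2, mul_zero]
    · rw [G.jy 2 0 h0T, h0]
  set A : ℝ → ℝ := fun p => (ηη - 1 / 2) * sin (π / 3 - ss 0 p) + (π / 3 - ss 0 p) / 2 +
    sin (π / 3 - ss 0 p) * cos (π / 3 - ss 0 p) / 2 with hA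
  have a0 : ∀ p ∈ Icc (0 : ℝ) 1, G.ar 0 0 p = A p - A 0 := by
    intro p hp
    refine prim (k := fun q => (ηη + cos (π / 3 - ss 0 q) - 1 / 2) *
      (mm L0 0 q * -cos (π / 3 - ss 0 q))) (fun x => ?_) ?_ (fun x hx => ?_) hp
    · refine ((((hψ x).sin.const_mul (ηη - 1 / 2)).fun_add ((hψ x).div_const 2)).fun_add
        (((hψ x).sin.fun_mul (hψ x).cos).div_const 2)).congr_deriv ?_
      have := sin_sq_add_cos_sq (π / 3 - ss 0 x)
      linear_combination (mm L0 0 x / 2) * this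
    · have := mm_cont 0
      have := ss_cont 0
      fun_prop
    · rw [y0 x hx, hm', t0 x hx, cos_a0]
  have A1 : A 1 = 0 := by
    simp only [hA, ss_one, L00, sub_self]
    simp
  have A0 : A 0 = (ηη - 1 / 2) * (√3 / 2) + π / 6 + √3 / 8 := by
    simp only [hA, ss_zero, sub_zero, sin_pi_div_three, cos_pi_div_three]
    ring
  have a1 : G.ar 1 0 1 = -(ηη ^ 2 / (2 * √3)) := by
    have h := prim (F := fun q => ηη * L0 1 * (1 - q) ^ 2 / 4)
      (k := fun q => ηη * (1 - q) * (L0 1 * -(1 / 2)))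
      (g := fun q => G.y 1 0 q * (G.m 1 0 q * cos (G.θ 1 0 q + αα 1)))
      (fun x => by
        refine (((((hasDerivAt_id x).const_sub 1).fun_pow 2).const_mul (ηη * L0 1)).div_const
          4).congr_deriv ?_
        simp only [id]
        push_cast
        ring)
      (by fun_prop) (fun x hx => by rw [y1 x hx, hm', t1, cos_a1, mm1]) m1
    unfold GS.ar
    rw [h, L01]
    have : (√3 : ℝ) ≠ 0 := by linarith [s3lo]
    field_simp
    ring
  have a2 : ∀ p ∈ Icc (0 : ℝ) 1, G.ar 2 0 p = ηη * ss 2 p := by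
    intro p hp
    have h := prim (F := fun q => ηη * ss 2 q) (k := fun q => ηη * mm L0 2 q)
      (g := fun q => G.y 2 0 q * (G.m 2 0 q * cos (G.θ 2 0 q + αα 2)))
      (fun x => (ss_deriv 2 x).const_mul ηη) (continuous_const.mul (mm_cont 2))
      (fun x hx => by rw [y2 x hx, hm', t2, cos_a2, mul_one]) hp
    unfold GS.ar
    rw [h, ss_zero]
    ring
  have hs0 : ∀ p ∈ Icc (0 : ℝ) 1, 0 ≤ ss 0 p ∧ ss 0 p ≤ π / 3 := fun p hp => ss_mem 0 hp
  have hsin : ∀ p ∈ Icc (0 : ℝ) 1, 0 ≤ sin (π / 3 - ss 0 p) := fun p hp =>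
    sin_nonneg_of_nonneg_of_le_pi (by linarith [(hs0 p hp).2])
      (by linarith [(hs0 p hp).1, pi_pos])
  refine ⟨fun i p hp => ?_, ?_, y2 1 m1, ?_, fun p hp => ?_, fun p hp => ?_, fun i p hp => ?_,
    fun p hp => ?_, ?_, h0⟩
  · fin_cases i
    · show 0 ≤ G.θ 0 0 p ∧ G.θ 0 0 p ≤ π / 3
      rw [t0 p hp]
      exact hs0 p hp
    · show 0 ≤ G.θ 1 0 p ∧ G.θ 1 0 p ≤ π / 3
      rw [t1]
      exact ⟨le_rfl, by positivity⟩
    · show 0 ≤ G.θ 2 0 p ∧ G.θ 2 0 p ≤ π / 3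
      rw [t2]
      exact ⟨le_rfl, by positivity⟩
  · rw [x2 1 m1, ss_one, L02, LL]
    ring
  · rw [a1, a0 1 m1, A1, A0, TT]
    have := pi_pos.ne'
    field_simp
    ring
  · rw [t0 p hp, x0 p hp, le_div_iff₀ hσ]
    nlinarith [hsin p hp]
  · rw [a0 p hp, a0 1 m1, A1, x0 p hp]
    have h1 := hsin p hp
    have h2 : 1 / 2 ≤ cos (π / 3 - ss 0 p) := by
      have := cos_lower (hs0 p hp).1 (hs0 p hp).2
      linarith [(hs0 p hp).1]
    have h3 : sin (π / 3 - ss 0 p) ≤ π / 3 - ss 0 p := sin_le (by linarith [(hs0 p hp).2])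
    have h4 : sin (π / 3 - ss 0 p) / 4 ≤ A p := by
      simp only [hA]
      nlinarith [mul_le_mul_of_nonneg_left h2 h1, mul_nonneg hη.le h1]
    have h5 : ΦΦ 0 (sin (π / 3 - ss 0 p)) ≤ sin (π / 3 - ss 0 p) / 4 := by
      unfold ΦΦ
      rw [div_le_iff₀ (by positivity)]
      have h6 : σσ 0 ^ 3 ≤ σσ 0 ^ 2 := by nlinarith [sq_nonneg (σσ 0)]
      nlinarith [mul_le_mul_of_nonneg_right h6 h1, mul_nonneg h1 (sq_nonneg (σσ 0)),
        mul_nonneg h1 (sq_nonneg (sin (π / 3 - ss 0 p)))]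
    linarith
  · have h10 : 10 ≤ 10 / σσ 0 := by
      rw [le_div_iff₀ hσ]
      linarith
    fin_cases i
    · show G.θ 0 0 p ≤ 10 / σσ 0 * G.y 0 0 p
      rw [t0 p hp, y0 p hp]
      have h1 := cos_lower (hs0 p hp).1 (hs0 p hp).2
      have h2 := (hs0 p hp).1
      have h3 : 0 ≤ ηη + cos (π / 3 - ss 0 p) - 1 / 2 := by linarith
      nlinarith [mul_le_mul_of_nonneg_right h10 h3]
    · show G.θ 1 0 p ≤ 10 / σσ 0 * G.y 1 0 p
      rw [t1, y1 p hp]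
      exact mul_nonneg (by positivity) (mul_nonneg hη.le (sub_nonneg.2 hp.2))
    · show G.θ 2 0 p ≤ 10 / σσ 0 * G.y 2 0 p
      rw [t2, y2 p hp]
      positivity
  · rw [a2 p hp, a1, x2 p hp]
    have h1 := (ss_mem 2 hp).1
    set s := ss 2 p
    have h2 : (0.86 : ℝ) ≤ (√3 / 2 + s) ^ (1 / 32 : ℝ) := by
      calc (0.86 : ℝ) = 0.86 ^ (1 : ℝ) := (rpow_one _).symm
        _ ≤ 0.86 ^ (1 / 32 : ℝ) :=
          rpow_le_rpow_of_exponent_ge (by norm_num) (by norm_num) (by norm_num)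
        _ ≤ _ := rpow_le_rpow (by norm_num) (by linarith [s3lo]) (by norm_num)
    have h3 : 0.118 + 1.7 * s ≤ (√3 / 2 + s) ^ 2 - 1.07 * σσ 0 ^ 2 := by
      nlinarith [s3sq, s3lo, mul_le_mul_of_nonneg_right s3lo.le h1, sq_nonneg s]
    have h4 : 0.86 * (0.118 + 1.7 * s) ≤ ΨΨ 0 (√3 / 2 + s) :=
      mul_le_mul h2 h3 (by positivity) (by linarith)
    have h5 : ηη ^ 2 / (2 * √3) ≤ ηη * 0.1 := by
      rw [div_le_iff₀ (by linarith [s3lo])]
      nlinarith [s3lo]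
    nlinarith [mul_le_mul_of_nonneg_left h4 hη.le, mul_nonneg hη.le h1]
  · show 1.05 * σσ 0 ≤ G.x 0 0 0
    rw [ξ0]
    linarith [s3lo]

end Pool.Agent.P.MP_cf7202_gt
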