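import Pool.Agent.P.MP_cf7202_gt.DefFD

/-! Branch points of a regular network are curve ends; maximality of the singular time. -/

namespace Pool.Agent.P.MP_cf7202_gt

open Set Filter Topology Function Real
open scoped ContDiff ENNReal

namespace MAXAux

/-- normalisation of a vector -/
noncomputable def nz (z : ℂ) : ℂ := (‖z‖⁻¹ : ℝ) • z

theorem nz_smul_pos {a : ℝ} (ha : 0 < a) (z : ℂ) : nz (a • z) = nz z := by
  unfold nz
  rw [norm_smul, Real.norm_eq_abs, abs_of_pos ha, smul_smul]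
  congr 1
  by_cases hz : ‖z‖ = 0
  · simp [hz]
  · field_simp

theorem nz_neg (z : ℂ) : nz (-z) = -nz z := by
  unfold nz
  rw [norm_neg, smul_neg]

theorem nz_cont {w : ℂ} (hw : w ≠ 0) : ContinuousAt nz w := by
  unfold nz
  exact ((continuous_norm.continuousAt).inv₀ (norm_ne_zero_iff.2 hw)).smul continuousAt_id

theorem sub_eq_smul_slope (c : ℝ → ℂ) {x y : ℝ} (h : y ≠ x) :
    c y - c x = (y - x) • slope c x y := by
  rw [slope_def_module, smul_smul, mul_inv_cancel₀ (sub_ne_zero.2 h), one_smul]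

/-- near an interior regular point the normalised chords are close to one of two directions -/
theorem chords {c : ℝ → ℂ} {x : ℝ} {w : ℂ} (hc : HasDerivAt c w x) (hw : w ≠ 0) {ε : ℝ}
    (hε : 0 < ε) : ∃ δ > 0, ∀ y, y ≠ x → |y - x| < δ →
      ‖nz (c y - c x) - nz w‖ < ε ∨ ‖nz (c y - c x) + nz w‖ < ε := by
  have h1 : Tendsto (slope c x) (𝓝[≠] x) (𝓝 w) := hasDerivAt_iff_tendsto_slope.1 hc
  have h2 : Tendsto (fun y => nz (slope c x y)) (𝓝[≠] x) (𝓝 (nz w)) :=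
    (nz_cont hw).tendsto.comp h1
  have h3 := (Metric.tendsto_nhds.1 h2) ε hε
  rw [eventually_nhdsWithin_iff, Metric.eventually_nhds_iff] at h3
  obtain ⟨δ, hδ, h4⟩ := h3
  refine ⟨δ, hδ, fun y hy hyd => ?_⟩
  have h5 := h4 (y := y) (by rwa [Real.dist_eq]) hy
  rw [dist_eq_norm] at h5
  rw [sub_eq_smul_slope c hy]
  rcases lt_or_gt_of_ne hy with h | h
  · right
    have : (y - x) • slope c x y = (x - y) • (-slope c x y) := by
      rw [smul_neg, ← neg_smul, neg_sub]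
    have e : -nz (slope c x y) + nz w = -(nz (slope c x y) - nz w) := by ring
    rwa [this, nz_smul_pos (sub_pos.2 h), nz_neg, e, norm_neg]
  · left
    rwa [nz_smul_pos (sub_pos.2 h)]

/-- a direction of approach to an interior point is tangent -/
theorem dir_tangent {ι : Type} [Finite ι] {Ω : Set ℂ} {σ : ι → ℝ → ℂ} (hσ : IsRegNet Ω σ)
    (i : ι) {x : ℝ} (hx : x ∈ Ioo (0 : ℝ) 1) {v : ℂ} (hv : IsDir (supp σ) (σ i x) v) :
    v = nz (vel (σ i) x) ∨ v = -nz (vel (σ i) x) := by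
  have hxI : x ∈ Icc (0 : ℝ) 1 := Ioo_subset_Icc_self hx
  have hn : Icc (0 : ℝ) 1 ∈ 𝓝 x := Icc_mem_nhds hx.1 hx.2
  have hd : HasDerivAt (σ i) (vel (σ i) x) x :=
    (((hσ.smooth i).differentiableOn (by norm_num) x hxI).hasDerivWithinAt).hasDerivAt hn
  set τ := nz (vel (σ i) x) with hτ
  by_contra hcon
  push Not at hcon
  have h1 : 0 < ‖v - τ‖ := norm_pos_iff.2 (sub_ne_zero.2 hcon.1)
  have h2 : 0 < ‖v + τ‖ := by
    refine norm_pos_iff.2 fun h => hcon.2 ?_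
    exact eq_neg_of_add_eq_zero_left h
  set ε := min ‖v - τ‖ ‖v + τ‖ / 2 with hε
  have hε0 : 0 < ε := by positivity
  obtain ⟨δ, hδ, hch⟩ := chords hd (hσ.regular i x hxI) hε0
  have hcont : ∀ j, ContinuousOn (σ j) (Icc 0 1) := fun j => (hσ.smooth j).continuousOn
  classical
  let A : ι → Set ℝ := fun j => if j = i then Icc 0 1 \ Metric.ball x δ else Icc 0 1
  have hA : ∀ j, IsCompact (A j) := by
    intro j
    by_cases hj : j = i
    · simp only [A, if_pos hj]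
      exact isCompact_Icc.diff Metric.isOpen_ball
    · simp only [A, if_neg hj]
      exact isCompact_Icc
  have hAs : ∀ j, A j ⊆ Icc 0 1 := by
    intro j
    by_cases hj : j = i
    · simp only [A, if_pos hj]
      exact sdiff_subset
    · simp only [A, if_neg hj]
      exact Subset.rfl
  have hK : IsClosed (⋃ j, σ j '' A j) :=
    isClosed_iUnion_of_finite fun j =>
      ((hA j).image_of_continuousOn ((hcont j).mono (hAs j))).isClosed
  have hp : σ i x ∈ (⋃ j, σ j '' A j)ᶜ := by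
    intro h
    obtain ⟨j, y, hy, hxy⟩ := mem_iUnion.1 h
    obtain ⟨hij, rfl⟩ := hσ.embedded i j x hx y (hAs j hy) hxy.symm
    simp only [A, if_pos hij.symm] at hy
    exact hy.2 (Metric.mem_ball_self hδ)
  obtain ⟨r, hr, hball⟩ := Metric.isOpen_iff.1 hK.isOpen_compl _ hp
  obtain ⟨q, hq, hqp, hq1, hq2⟩ := hv (min ε r) (lt_min hε0 hr)
  obtain ⟨j, y, hy, rfl⟩ := mem_iUnion.1 hq
  have hqK : σ j y ∉ ⋃ j, σ j '' A j :=
    hball (by rw [Metric.mem_ball, dist_eq_norm]; exact hq1.trans_le (min_le_right _ _))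
  have hyA : y ∉ A j := fun h => hqK (mem_iUnion.2 ⟨j, y, h, rfl⟩)
  have hji : j = i := by
    by_contra hj
    simp only [A, if_neg hj] at hyA
    exact hyA hy
  subst hji
  have hyb : |y - x| < δ := by
    simp only [A, if_true] at hyA
    by_contra hb
    exact hyA ⟨hy, fun h => hb (by rwa [Metric.mem_ball, Real.dist_eq] at h)⟩
  have hyx : y ≠ x := fun h => hqp (by rw [h])
  have hq3 : ‖nz (σ j y - σ j x) - v‖ < ε := hq2.trans_le (min_le_left _ _)
  have m1 := min_le_left ‖v - τ‖ ‖v + τ‖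
  have m2 := min_le_right ‖v - τ‖ ‖v + τ‖
  rcases hch y hyx hyb with h | h
  · have : ‖v - τ‖ ≤ ‖nz (σ j y - σ j x) - τ‖ + ‖nz (σ j y - σ j x) - v‖ := by
      have e : v - τ = (nz (σ j y - σ j x) - τ) - (nz (σ j y - σ j x) - v) := by ring
      rw [e]
      exact norm_sub_le _ _
    linarith
  · have : ‖v + τ‖ ≤ ‖nz (σ j y - σ j x) + τ‖ + ‖nz (σ j y - σ j x) - v‖ := by
      have e : v + τ = (nz (σ j y - σ j x) + τ) - (nz (σ j y - σ j x) - v) := by ring
      rw [e]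
      exact norm_sub_le _ _
    linarith

theorem norm_ee (φ : ℝ) : ‖ee φ‖ = 1 := by
  have h : ‖ee φ‖ ^ 2 = 1 := by
    rw [Complex.sq_norm, Complex.normSq_apply]
    simp only [ee]
    nlinarith [sin_sq_add_cos_sq φ]
  nlinarith [norm_nonneg (ee φ)]

theorem nz_ee {m : ℝ} (hm : 0 < m) (φ : ℝ) : nz (m • ee φ) = ee φ := by
  rw [nz_smul_pos hm, nz, norm_ee, inv_one, one_smul]

/-- a curve leaves its starting point in the direction of its velocity -/
theorem isDir_start {S : Set ℂ} {c : ℝ → ℂ} {w : ℂ} (hc : HasDerivWithinAt c w (Icc 0 1) 0)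
    (hw : w ≠ 0) (hS : c '' Icc 0 1 ⊆ S) : IsDir S (c 0) (nz w) := by
  intro ε hε
  have h1 : Tendsto (slope c 0) (𝓝[Icc 0 1 \ {0}] 0) (𝓝 w) :=
    hasDerivWithinAt_iff_tendsto_slope.1 hc
  have hI : Icc (0 : ℝ) 1 \ {0} = Ioc 0 1 := Icc_sdiff_left
  rw [hI] at h1
  have : (𝓝[Ioc (0 : ℝ) 1] 0).NeBot := left_nhdsWithin_Ioc_neBot one_pos
  have h2 : Tendsto (fun y => nz (slope c 0 y)) (𝓝[Ioc 0 1] 0) (𝓝 (nz w)) :=
    (nz_cont hw).tendsto.comp h1
  have h3 := (Metric.tendsto_nhds.1 h2) ε hε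
  have h4 : ∀ᶠ y in 𝓝[Ioc (0 : ℝ) 1] 0, slope c 0 y ≠ 0 := h1.eventually_ne hw
  have h5 : Tendsto c (𝓝[Ioc (0 : ℝ) 1] 0) (𝓝 (c 0)) :=
    (hc.continuousWithinAt.mono Ioc_subset_Icc_self).tendsto
  have h6 := (Metric.tendsto_nhds.1 h5) ε hε
  obtain ⟨y, ⟨⟨hy3, hy4⟩, hy6⟩, hy⟩ := (((h3.and h4).and h6).and self_mem_nhdsWithin).exists
  have hy0 : y ≠ 0 := hy.1.ne'
  have e := sub_eq_smul_slope c hy0
  refine ⟨c y, hS ⟨y, Ioc_subset_Icc_self hy, rfl⟩, ?_, ?_, ?_⟩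
  · intro h
    rw [h, sub_self, sub_zero] at e
    rcases smul_eq_zero.1 e.symm with h' | h'
    · exact hy0 h'
    · exact hy4 h'
  · rwa [dist_eq_norm] at hy6
  · change ‖nz (c y - c 0) - nz w‖ < ε
    rw [e, nz_smul_pos (sub_pos.2 hy.1)]
    rwa [dist_eq_norm] at hy3

theorem ee_ne {a b : ℝ} (h : cos (a - b) ≠ 1) : ee a ≠ ee b := by
  intro hab
  have h1 : cos a = cos b := by simpa only [ee] using congrArg Complex.re hab
  have h2 : sin a = sin b := by simpa only [ee] using congrArg Complex.im hab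
  apply h
  rw [cos_sub, h1, h2]
  nlinarith [sin_sq_add_cos_sq b]

theorem cos_two : cos (2 * π / 3) ≠ 1 := by
  have : 2 * π / 3 = π - π / 3 := by ring
  rw [this, cos_pi_sub, cos_pi_div_three]
  norm_num

theorem cos_four : cos (4 * π / 3) ≠ 1 := by
  have : 4 * π / 3 = π / 3 + π := by ring
  rw [this, cos_add_pi, cos_pi_div_three]
  norm_num

theorem cos_ne {x : ℝ}
    (h : x = 2 * π / 3 ∨ x = -(2 * π / 3) ∨ x = 4 * π / 3 ∨ x = -(4 * π / 3)) : cos x ≠ 1 := by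
  rcases h with h | h | h | h
  · rw [h]; exact cos_two
  · rw [h, cos_neg]; exact cos_two
  · rw [h]; exact cos_four
  · rw [h, cos_neg]; exact cos_four

/-- every curve of the network leaves its starting point in the direction of its angle -/
theorem isDir_net (mc : S_MC) (D : FD) {t : ℝ} (ht : t ∈ Ioo D.a D.T) (i : Ix) :
    IsDir (supp (slice D.net t)) (D.net i t 0) (ee (D.ang i t 0)) := by
  obtain ⟨κ, lam, h⟩ := mc.net D i
  have h0 : (0 : ℝ) ∈ Icc (0 : ℝ) 1 := left_mem_Icc.2 zero_le_one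
  have hm := h.pos t ht 0 h0
  have hw : D.spd i t 0 • ee (D.ang i t 0) ≠ 0 := by
    refine smul_ne_zero hm.ne' fun h' => ?_
    have := norm_ee (D.ang i t 0)
    rw [h', norm_zero] at this
    exact zero_ne_one this
  have := isDir_start (S := supp (slice D.net t)) (h.Xp t ht 0 h0) hw
    (subset_iUnion (fun i => slice D.net t i '' Icc 0 1) i)
  rwa [nz_ee hm] at this

/-- the two right junctions are ends of every regular network with the same support -/
theorem junction_end (mc : S_MC) (br : S_BR) (D : FD) {t : ℝ} (ht : t ∈ Ioo D.a D.T)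
    {ι : Type} [Finite ι] {Ω : Set ℂ} {σ : ι → ℝ → ℂ} (hσ : IsRegNet Ω σ)
    (hs : supp σ = supp (slice D.net t)) (c : Bool) :
    ∃ e, endPt σ e = sy false c ⟨D.ξ t, D.h t⟩ := by
  have d0 := isDir_net mc D ht (.inr (.inl c))
  have d1 := isDir_net mc D ht (.inr (.inr (.inl (false, c))))
  have d2 := isDir_net mc D ht (.inr (.inr (.inr (false, c))))
  have hp : sy false c ⟨D.ξ t, D.h t⟩ ∈ supp σ := by
    rw [hs]
    refine mem_iUnion.2 ⟨.inr (.inl c), 0, left_mem_Icc.2 zero_le_one, ?_⟩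
    simp only [slice, FD.net, D.start 0 t ht]
  simp only [FD.net, D.start _ t ht] at d0 d1 d2
  rw [← hs] at d0 d1 d2
  refine br ι Ω σ hσ _ hp _ _ _ ?_ ?_ ?_ d0 d1 d2
  all_goals
    apply ee_ne
    apply cos_ne
    cases c <;> simp only [FD.ang, D.ang0 t ht, D.ang1 t ht, if_true, Bool.false_eq_true, if_false]
  · exact Or.inr (Or.inl (by ring))
  · exact Or.inl (by ring)
  · exact Or.inl (by ring)
  · exact Or.inr (Or.inl (by ring))
  · exact Or.inr (Or.inr (Or.inl (by ring)))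
  · exact Or.inr (Or.inr (Or.inr (by ring)))

theorem sigma_nonneg (D : FD) (t : ℝ) : 0 ≤ D.σ t := by
  rw [D.hσ]
  exact sqrt_nonneg _

theorem norm_junction (D : FD) {t : ℝ} (ht : t ∈ Ioo D.a D.T) (c : Bool) :
    ‖sy false c ⟨D.ξ t, D.h t⟩‖ ≤ 13 * D.σ t := by
  have h1 := D.ξb t ht
  have h2 := D.hpos t ht
  have h3 := D.hle' t ht
  have h4 := sigma_nonneg D t
  refine (Complex.norm_le_abs_re_add_abs_im _).trans ?_
  have h5 : |D.ξ t| ≤ 12 * D.σ t := abs_le.2 ⟨by linarith [h1.1], h1.2⟩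
  have h6 : |D.h t| ≤ D.σ t := abs_le.2 ⟨by linarith, by linarith⟩
  cases c <;> simp only [sy, if_true, Bool.false_eq_true, if_false, abs_neg] <;> linarith

theorem lt_RR : 13 < RR := by
  unfold RR
  rw [lt_sqrt (by norm_num)]
  have h : 30 ≤ LL := by
    unfold LL
    have := sqrt_nonneg 3
    linarith
  nlinarith [sq_nonneg ηη]

/-- four distinct ends close to the origin -/
theorem four_ends (mc : S_MC) (br : S_BR) (D : FD) {t : ℝ} (ht : t ∈ Ioo D.a D.T)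
    {ι : Type} [Finite ι] {σ : ι → ℝ → ℂ} (hσ : IsRegNet (Metric.ball 0 RR) σ)
    (hs : supp σ = supp (slice D.net t)) :
    ∃ e₀ e₁ e₂ e₃ : ι × Bool, e₀ ≠ e₁ ∧ e₀ ≠ e₂ ∧ e₁ ≠ e₂ ∧ e₃ ≠ e₀ ∧ e₃ ≠ e₁ ∧ e₃ ≠ e₂ ∧
      ‖endPt σ e₀‖ ≤ 13 * D.σ t ∧ ‖endPt σ e₁‖ ≤ 13 * D.σ t ∧ ‖endPt σ e₂‖ ≤ 13 * D.σ t ∧
      ‖endPt σ e₃‖ ≤ 13 * D.σ t := by
  obtain ⟨e₀, h0⟩ := junction_end mc br D ht hσ hs false
  obtain ⟨e₃, h3⟩ := junction_end mc br D ht hσ hs true
  have n0 := norm_junction D ht false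
  have n3 := norm_junction D ht true
  rw [← h0] at n0
  rw [← h3] at n3
  have hne : endPt σ e₃ ≠ endPt σ e₀ := by
    rw [h0, h3]
    intro h
    have h' := congrArg Complex.im h
    simp only [sy, if_true, Bool.false_eq_true, if_false] at h'
    linarith [D.hpos t ht]
  rcases hσ.ends e₀ with ⟨hf, -⟩ | ⟨e₁, e₂, a1, a2, a3, h, -⟩
  · exfalso
    have hR := lt_RR
    rw [frontier_ball _ (by linarith), mem_sphere_zero_iff_norm] at hf
    linarith [D.hσ1 t ht]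
  · have p1 : endPt σ e₁ = endPt σ e₀ := (h e₁).2 (Or.inr (Or.inl rfl))
    have p2 : endPt σ e₂ = endPt σ e₀ := (h e₂).2 (Or.inr (Or.inr rfl))
    refine ⟨e₀, e₁, e₂, e₃, a1, a2, a3, ?_, ?_, ?_, n0, p1 ▸ n0, p2 ▸ n0, n3⟩
    · rintro rfl
      exact hne rfl
    · rintro rfl
      exact hne p1
    · rintro rfl
      exact hne p2

/-- four distinct ends of a regular network cannot lie at the same point -/
theorem not_four {ι : Type} {Ω : Set ℂ} {σ : ι → ℝ → ℂ} (hσ : IsRegNet Ω σ)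
    {e₀ e₁ e₂ e₃ : ι × Bool} (a01 : e₀ ≠ e₁) (a02 : e₀ ≠ e₂) (a12 : e₁ ≠ e₂) (a30 : e₃ ≠ e₀)
    (a31 : e₃ ≠ e₁) (a32 : e₃ ≠ e₂) (h1 : endPt σ e₁ = endPt σ e₀)
    (h2 : endPt σ e₂ = endPt σ e₀) (h3 : endPt σ e₃ = endPt σ e₀) : False := by
  rcases hσ.ends e₀ with ⟨-, hs⟩ | ⟨f₁, f₂, -, -, -, h, -⟩
  · exact a01 (hs e₁ h1).symm
  · have b1 := ((h e₁).1 h1).resolve_left a01.symm
    have b2 := ((h e₂).1 h2).resolve_left a02.symm
    have b3 := ((h e₃).1 h3).resolve_left a30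
    rcases b1 with b1 | b1 <;> rcases b2 with b2 | b2 <;> rcases b3 with b3 | b3 <;>
      first
        | exact a12 (b1.trans b2.symm)
        | exact a31 (b3.trans b1.symm)
        | exact a32 (b3.trans b2.symm)

end MAXAux

open MAXAux

theorem br : S_BR := by
  intro ι _ Ω σ hσ p hp v₁ v₂ v₃ h12 h13 h23 d1 d2 d3
  obtain ⟨i, x, hx, rfl⟩ := mem_iUnion.1 hp
  by_cases h0 : x = 0
  · exact ⟨(i, false), by simp [endPt, h0]⟩
  by_cases h1 : x = 1
  · exact ⟨(i, true), by simp [endPt, h1]⟩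
  exfalso
  have hx' : x ∈ Ioo (0 : ℝ) 1 := ⟨lt_of_le_of_ne hx.1 (Ne.symm h0), lt_of_le_of_ne hx.2 h1⟩
  rcases dir_tangent hσ i hx' d1 with b1 | b1 <;> rcases dir_tangent hσ i hx' d2 with b2 | b2 <;>
    rcases dir_tangent hσ i hx' d3 with b3 | b3 <;>
      first
        | exact h12 (b1.trans b2.symm)
        | exact h13 (b1.trans b3.symm)
        | exact h23 (b2.trans b3.symm)

theorem mx : S_MC → S_LOC → S_BR → S_MAX := by
  intro mc _ br D ι _ γ T' hT' hγ hs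
  have hT : D.T ∈ Ico 0 T' := ⟨D.hT.le, hT'⟩
  have hn : Ico 0 T' ∈ 𝓝 D.T := Ico_mem_nhds D.hT hT'
  have hend : ∀ e, ContinuousAt (fun t => endPt (slice γ t) e) D.T := by
    intro e
    have hc : (if e.2 then (1 : ℝ) else 0) ∈ Icc (0 : ℝ) 1 := by
      split_ifs
      · exact right_mem_Icc.2 zero_le_one
      · exact left_mem_Icc.2 zero_le_one
    have h1 : ContinuousOn (fun t : ℝ => uncurry (γ e.1) (t, if e.2 then (1 : ℝ) else 0))
        (Ico 0 T') :=
      (hγ.cont e.1).comp (continuous_id.prodMk continuous_const).continuousOn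
        fun t ht => ⟨ht, hc⟩
    exact h1.continuousAt hn
  have hσc : ContinuousAt (fun t => 13 * D.σ t) D.T := by
    have : (fun t => 13 * D.σ t) = fun t => 13 * √(2 * (D.T - t)) := funext fun t => by rw [D.hσ]
    rw [this]
    fun_prop
  have hσ0 : 13 * D.σ D.T = 0 := by rw [D.hσ]; simp
  have hev : ∀ e, ∀ᶠ t in 𝓝 D.T,
      ‖endPt (slice γ t) e‖ ≤ 13 * D.σ t → endPt (slice γ D.T) e = 0 := by
    intro e
    by_cases h : endPt (slice γ D.T) e = 0
    · exact Eventually.of_forall fun _ _ => h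
    · have hlt : 13 * D.σ D.T < ‖endPt (slice γ D.T) e‖ := by
        rw [hσ0]
        exact norm_pos_iff.2 h
      filter_upwards [hσc.eventually_lt (hend e).norm hlt] with t ht ht'
      exact absurd ht' (not_le.2 ht)
  have hall := (eventually_all.2 hev).filter_mono (nhdsWithin_le_nhds (s := Iio D.T))
  have hIoo : ∀ᶠ t in 𝓝[<] D.T, t ∈ Ioo 0 D.T := Ioo_mem_nhdsLT D.hT
  obtain ⟨t, h0, ht⟩ := (hall.and hIoo).exists
  have ht' : t ∈ Ioo D.a D.T := ⟨D.ha.trans ht.1, ht.2⟩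
  obtain ⟨e₀, e₁, e₂, e₃, a01, a02, a12, a30, a31, a32, n0, n1, n2, n3⟩ :=
    four_ends mc br D ht' (hγ.net t ⟨ht.1.le, ht.2.trans hT'⟩) (hs t ⟨ht.1.le, ht.2⟩)
  exact not_four (hγ.net D.T hT) a01 a02 a12 a30 a31 a32
    ((h0 e₁ n1).trans (h0 e₀ n0).symm) ((h0 e₂ n2).trans (h0 e₀ n0).symm)
    ((h0 e₃ n3).trans (h0 e₀ n0).symm)

end Pool.Agent.P.MP_cf7202_gt
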