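import Pool.Agent.P.MP_cf7202_gt.DefFD

/-! Elementary facts on moving curves, location of the base curves, the flow. -/

namespace Pool.Agent.P.MP_cf7202_gt

open Set Filter Topology Function Real
open scoped ContDiff

namespace MClAux

theorem ee_re (φ : ℝ) : (ee φ).re = cos φ := rfl

theorem ee_im (φ : ℝ) : (ee φ).im = sin φ := rfl

theorem ee_eq (φ : ℝ) : ee φ = Complex.exp (φ * Complex.I) :=
  Complex.ext (Complex.exp_ofReal_mul_I_re φ).symm (Complex.exp_ofReal_mul_I_im φ).symm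

theorem norm_ee (φ : ℝ) : ‖ee φ‖ = 1 := by rw [ee_eq, Complex.norm_exp_ofReal_mul_I]

theorem hasDerivAt_ee (φ : ℝ) : HasDerivAt ee (Complex.I * ee φ) φ := by
  have h : ee = fun φ : ℝ => Complex.exp (φ * Complex.I) := funext ee_eq
  have h1 : HasDerivAt (fun φ : ℝ => (φ : ℂ) * Complex.I) ((1 : ℝ) * Complex.I) φ :=
    (hasDerivAt_id φ).ofReal_comp.mul_const _
  have h2 := h1.cexp
  rw [← ee_eq, ← h] at h2
  convert h2 using 1
  simp [mul_comm]

theorem nor_ee (φ a b : ℝ) :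
    nor (ee φ) (a • ee φ + b • (Complex.I * ee φ)) = b • (Complex.I * ee φ) := by
  have h : (inner ℝ (a • ee φ + b • (Complex.I * ee φ)) (ee φ) : ℝ) = a := by
    simp only [Complex.inner, Complex.mul_re, Complex.conj_re, Complex.conj_im, Complex.add_re,
      Complex.add_im, Complex.smul_re, Complex.smul_im, Complex.mul_im, Complex.I_re,
      Complex.I_im, ee_re, ee_im, smul_eq_mul]
    linear_combination a * cos_sq_add_sin_sq φ
  rw [nor, h]
  abel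

theorem ud {p : ℝ} (hp : p ∈ Icc (0 : ℝ) 1) : UniqueDiffWithinAt ℝ (Icc (0 : ℝ) 1) p :=
  uniqueDiffOn_Icc zero_lt_one p hp

theorem vel_of {c : ℝ → ℂ} {μ θ p : ℝ} (hp : p ∈ Icc (0 : ℝ) 1) (hμ : 0 < μ)
    (h : HasDerivWithinAt c (μ • ee θ) (Icc 0 1) p) :
    vel c p = μ • ee θ ∧ ‖vel c p‖ = μ ∧ unitTan c p = ee θ := by
  have h1 : vel c p = μ • ee θ := h.derivWithin (ud hp)
  have h2 : ‖vel c p‖ = μ := by rw [h1, norm_smul, norm_ee, mul_one, Real.norm_of_nonneg hμ.le]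
  refine ⟨h1, h2, ?_⟩
  rw [unitTan, h2, h1, smul_smul, inv_mul_cancel₀ hμ.ne', one_smul]

variable {a b : ℝ} {X : ℝ → ℝ → ℂ} {φ m κ lam : ℝ → ℝ → ℝ}

theorem motion (tk : S_TK) (H : MC a b X φ m κ lam) {t : ℝ} (ht : t ∈ Ioo a b) {p : ℝ}
    (hp : p ∈ Icc (0 : ℝ) 1) :
    nor (unitTan (X t) p) (deriv (fun s => X s p) t) = curv (X t) p := by
  obtain ⟨-, h2, h3⟩ := vel_of hp (H.pos t ht p hp) (H.Xp t ht p hp)
  have h4 : HasDerivWithinAt (fun q => ee (φ t q)) ((m t p * κ t p) • (Complex.I * ee (φ t p)))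
      (Icc 0 1) p := (hasDerivAt_ee (φ t p)).scomp_hasDerivWithinAt p (H.φp t ht p hp)
  have h5 := (tk.has_dx a b m H.sm t ht p hp).smul h4
  have h6 : vel (vel (X t)) p = dx m t p • ee (φ t p) +
      (m t p * (m t p * κ t p)) • (Complex.I * ee (φ t p)) := by
    have h7 := h5.congr (f₁ := vel (X t))
      (fun q hq => (vel_of hq (H.pos t ht q hq) (H.Xp t ht q hq)).1)
      (vel_of hp (H.pos t ht p hp) (H.Xp t ht p hp)).1
    rw [add_comm, ← smul_smul]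
    exact h7.derivWithin (ud hp)
  rw [curv, h3, h2, h6, (H.Xt t ht p hp).deriv, nor_ee, nor_ee, smul_smul]
  congr 1
  have := (H.pos t ht p hp).ne'
  field_simp

theorem map (H : MC a b X φ m κ lam) (L : ℂ →L[ℝ] ℂ) (c s : ℝ)
    (h1 : ∀ θ, L (ee θ) = ee (c + s * θ))
    (h2 : ∀ θ, L (Complex.I * ee θ) = s • (Complex.I * ee (c + s * θ))) :
    MC a b (fun t p => L (X t p)) (fun t p => c + s * φ t p) m (fun t p => s * κ t p) lam where
  sX := L.contDiff.comp_contDiffOn H.sX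
  sφ := contDiffOn_const.add (contDiffOn_const.mul H.sφ)
  sm := H.sm
  sκ := contDiffOn_const.mul H.sκ
  pos := H.pos
  Xp t ht p hp := by
    have h := L.hasFDerivAt.comp_hasDerivWithinAt p (H.Xp t ht p hp)
    rwa [map_smul, h1] at h
  φp t ht p hp := by
    have h := ((H.φp t ht p hp).const_mul s).const_add c
    rwa [mul_left_comm] at h
  Xt t ht p hp := by
    have h := L.hasFDerivAt.comp_hasDerivAt t (H.Xt t ht p hp)
    rwa [map_add, map_smul, map_smul, h1, h2, smul_smul, mul_comm (κ t p)] at h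

theorem sy_mc (H : MC a b X φ m κ lam) (u v : Bool) : ∃ κ', MC a b (fun t p => sy u v (X t p))
    (fun t p => if u then (if v then π + φ t p else π - φ t p)
      else (if v then -φ t p else φ t p)) m κ' lam := by
  cases u <;> cases v
  · exact ⟨κ, H⟩
  · have h := map H Complex.conjCLE.toContinuousLinearMap 0 (-1)
      (fun θ => Complex.ext (by simp [ee_re]) (by simp [ee_im]))
      (fun θ => Complex.ext (by simp [ee_im]) (by simp [ee_re]))
    refine ⟨fun t p => -1 * κ t p, ?_⟩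
    convert h using 3 with t p t p
    · exact Complex.ext (by simp [sy]) (by simp [sy])
    · simp
  · have h := map H (-Complex.conjCLE.toContinuousLinearMap) π (-1)
      (fun θ => Complex.ext (by simp [ee_re, cos_add]) (by simp [ee_im, sin_add]))
      (fun θ => Complex.ext (by simp [ee_im, sin_add]) (by simp [ee_re, cos_add]))
    refine ⟨fun t p => -1 * κ t p, ?_⟩
    convert h using 3 with t p t p
    · exact Complex.ext (by simp [sy]) (by simp [sy])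
    · simp [sub_eq_add_neg]
  · have h := map H (-ContinuousLinearMap.id ℝ ℂ) π 1
      (fun θ => Complex.ext (by simp [ee_re, cos_add]) (by simp [ee_im, sin_add]))
      (fun θ => Complex.ext (by simp [ee_im, sin_add]) (by simp [ee_re, cos_add]))
    refine ⟨fun t p => 1 * κ t p, ?_⟩
    convert h using 3 with t p t p
    · exact Complex.ext (by simp [sy]) (by simp [sy])
    · simp

theorem sig_pos (D : FD) {t : ℝ} (ht : t ∈ Ioo D.a D.T) : 0 < D.σ t := by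
  linarith [D.hpos t ht, D.hle' t ht]

theorem x1_pos (D : FD) {t : ℝ} (ht : t ∈ Ioo D.a D.T) {p : ℝ} (hp : p ∈ Icc (0 : ℝ) 1) :
    0 < (D.X 1 t p).re := by
  have h1 := abs_le.1 (D.x1 t ht p hp)
  linarith [h1.1, sig_pos D ht, D.hle' t ht, (D.ξb t ht).1]

theorem zeta_eq (D : FD) {t : ℝ} (ht : t ∈ Ioo D.a D.T) : D.ζ t = (D.X 1 t 1).re := by
  rw [D.end1 t ht]

theorem zeta_smooth (D : FD) : ContDiffOn ℝ ∞ D.ζ (Ioo D.a D.T) := by
  have h1 : ContDiffOn ℝ ∞ (fun t : ℝ => D.X 1 t 1) (Ioo D.a D.T) :=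
    (D.mc 1).sX.comp (f := fun t : ℝ => (t, (1 : ℝ))) (contDiffOn_id.prodMk contDiffOn_const)
      fun t ht => ⟨ht, right_mem_Icc.2 zero_le_one⟩
  exact (Complex.reCLM.contDiff.comp_contDiffOn h1).congr fun t ht => zeta_eq D ht

theorem seg (D : FD) : MC D.a D.T (fun t p => ⟨D.ζ t * (2 * p - 1), 0⟩) (fun _ _ => 0)
    (fun t _ => 2 * D.ζ t) (fun _ _ => 0) fun t p => deriv D.ζ t * (2 * p - 1) := by
  have hz : ContDiffOn ℝ ∞ (fun z : ℝ × ℝ => D.ζ z.1) (Ioo D.a D.T ×ˢ Icc 0 1) :=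
    (zeta_smooth D).comp contDiffOn_fst fun z hz => hz.1
  have he : ∀ r : ℝ, (⟨r, 0⟩ : ℂ) = Complex.ofRealCLM r := fun _ => rfl
  have h0 : ∀ r : ℝ, r • ee 0 = Complex.ofRealCLM r := fun r =>
    Complex.ext (by simp [ee_re]) (by simp [ee_im])
  refine ⟨?_, contDiffOn_const, contDiffOn_const.mul hz, contDiffOn_const, fun t ht p _ => ?_,
    fun t _ p _ => ?_, fun t _ p _ => ?_, fun t ht p _ => ?_⟩
  · exact Complex.ofRealCLM.contDiff.comp_contDiffOn
      (hz.mul ((contDiffOn_const.mul contDiffOn_snd).sub contDiffOn_const))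
  · have := x1_pos D ht (right_mem_Icc.2 zero_le_one)
    rw [← zeta_eq D ht] at this
    positivity
  · rw [h0]
    have h1 : HasDerivAt (fun p : ℝ => D.ζ t * (2 * p - 1)) (2 * D.ζ t) p := by
      have h2 := (((hasDerivAt_id p).const_mul 2).sub_const 1).const_mul (D.ζ t)
      rwa [mul_one, mul_comm] at h2
    exact (Complex.ofRealCLM.hasFDerivAt.comp_hasDerivAt p h1).hasDerivWithinAt
  · rw [mul_zero]
    exact hasDerivWithinAt_const _ _ _
  · rw [h0, zero_smul, add_zero]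
    have h1 : DifferentiableAt ℝ D.ζ t :=
      ((zeta_smooth D).contDiffAt (isOpen_Ioo.mem_nhds ht)).differentiableAt (by simp)
    exact Complex.ofRealCLM.hasFDerivAt.comp_hasDerivAt t (h1.hasDerivAt.mul_const _)

theorem net (D : FD) (i : Ix) : ∃ κ lam, MC D.a D.T (D.net i) (D.ang i) (D.spd i) κ lam := by
  rcases i with _ | c | bc | bc
  · exact ⟨_, _, seg D⟩
  · obtain ⟨κ', h⟩ := sy_mc (D.mc 0) false c
    exact ⟨κ', _, h⟩
  · obtain ⟨κ', h⟩ := sy_mc (D.mc 1) bc.1 bc.2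
    exact ⟨κ', _, h⟩
  · obtain ⟨κ', h⟩ := sy_mc (D.mc 2) bc.1 bc.2
    exact ⟨κ', _, h⟩

theorem resc_facts {T : ℝ} {γ : Ix → ℝ → ℝ → ℂ} {i : Ix} (H : MC a T (γ i) φ m κ lam) {t : ℝ}
    (ht : t ∈ Ioo a T) {p : ℝ} (hp : p ∈ Icc (0 : ℝ) 1) :
    unitTan (resc γ T 0 t i) p = ee (φ t p) ∧
      arc (resc γ T 0 t i) p = (√(2 * (T - t)))⁻¹ * ∫ q in (0 : ℝ)..p, m t q := by
  have hs : 0 < (√(2 * (T - t)))⁻¹ := inv_pos.2 (sqrt_pos.2 (by linarith [ht.2]))
  have h : ∀ q ∈ Icc (0 : ℝ) 1, ‖vel (resc γ T 0 t i) q‖ = (√(2 * (T - t)))⁻¹ * m t q ∧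
      unitTan (resc γ T 0 t i) q = ee (φ t q) := fun q hq => by
    refine (vel_of hq (mul_pos hs (H.pos t ht q hq)) ?_).2
    rw [← smul_smul]
    exact ((H.Xp t ht q hq).sub_const 0).const_smul (√(2 * (T - t)))⁻¹
  refine ⟨(h p hp).2, ?_⟩
  rw [arc, ← intervalIntegral.integral_const_mul]
  refine intervalIntegral.integral_congr fun q hq => (h q ?_).1
  rw [uIcc_of_le hp.1] at hq
  exact ⟨hq.1, hq.2.trans hp.2⟩

theorem half_le_cos {x : ℝ} (h1 : -(π / 3) ≤ x) (h2 : x ≤ π / 3) : 1 / 2 ≤ cos x := by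
  rw [← cos_abs, ← cos_pi_div_three]
  exact cos_le_cos_of_nonneg_of_le_pi (abs_nonneg x) (by linarith [pi_pos]) (abs_le.2 ⟨h1, h2⟩)

theorem cont_m (H : MC a b X φ m κ lam) {t : ℝ} (ht : t ∈ Ioo a b) :
    ContinuousOn (m t) (Icc 0 1) :=
  H.sm.continuousOn.comp (f := fun p : ℝ => (t, p)) (continuousOn_const.prodMk continuousOn_id)
    fun _ hp => ⟨ht, hp⟩

theorem cont_phi (H : MC a b X φ m κ lam) {t : ℝ} (ht : t ∈ Ioo a b) :
    ContinuousOn (φ t) (Icc 0 1) := fun p hp => (H.φp t ht p hp).continuousWithinAt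

theorem re_der (H : MC a b X φ m κ lam) {t : ℝ} (ht : t ∈ Ioo a b) (p : ℝ)
    (hp : p ∈ Icc (0 : ℝ) 1) :
    HasDerivWithinAt (fun q => (X t q).re) (m t p * cos (φ t p)) (Icc 0 1) p := by
  have h := Complex.reCLM.hasFDerivAt.comp_hasDerivWithinAt p (H.Xp t ht p hp)
  rwa [map_smul] at h

theorem im_der (H : MC a b X φ m κ lam) {t : ℝ} (ht : t ∈ Ioo a b) (p : ℝ)
    (hp : p ∈ Icc (0 : ℝ) 1) :
    HasDerivWithinAt (fun q => (X t q).im) (m t p * sin (φ t p)) (Icc 0 1) p := by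
  have h := Complex.imCLM.hasFDerivAt.comp_hasDerivWithinAt p (H.Xp t ht p hp)
  rwa [map_smul] at h

theorem mono_of {f g : ℝ → ℝ} (hf : ∀ p ∈ Icc (0 : ℝ) 1, HasDerivWithinAt f (g p) (Icc 0 1) p)
    (h : ∀ p ∈ Icc (0 : ℝ) 1, 0 ≤ g p) : MonotoneOn f (Icc 0 1) :=
  monotoneOn_of_hasDerivWithinAt_nonneg (convex_Icc 0 1)
    (fun p hp => (hf p hp).continuousWithinAt)
    (fun p hp => (hf p (interior_subset hp)).mono interior_subset)
    fun p hp => h p (interior_subset hp)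

theorem smono_of {f g : ℝ → ℝ} (hf : ∀ p ∈ Icc (0 : ℝ) 1, HasDerivWithinAt f (g p) (Icc 0 1) p)
    (h : ∀ p ∈ Icc (0 : ℝ) 1, 0 < g p) : StrictMonoOn f (Icc 0 1) :=
  strictMonoOn_of_hasDerivWithinAt_pos (convex_Icc 0 1)
    (fun p hp => (hf p hp).continuousWithinAt)
    (fun p hp => (hf p (interior_subset hp)).mono interior_subset)
    fun p hp => h p (interior_subset hp)

theorem santi_of {f g : ℝ → ℝ} (hf : ∀ p ∈ Icc (0 : ℝ) 1, HasDerivWithinAt f (g p) (Icc 0 1) p)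
    (h : ∀ p ∈ Icc (0 : ℝ) 1, g p < 0) : StrictAntiOn f (Icc 0 1) :=
  strictAntiOn_of_hasDerivWithinAt_neg (convex_Icc 0 1)
    (fun p hp => (hf p hp).continuousWithinAt)
    (fun p hp => (hf p (interior_subset hp)).mono interior_subset)
    fun p hp => h p (interior_subset hp)

/-- comparison of a function with a primitive -/
theorem cmp (tk : S_TK) {f g μ : ℝ → ℝ} (u v : ℝ) (hμ : ContinuousOn μ (Icc 0 1))
    (hf : ∀ p ∈ Icc (0 : ℝ) 1, HasDerivWithinAt f (g p) (Icc 0 1) p)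
    (h : ∀ p ∈ Icc (0 : ℝ) 1, u * μ p ≤ v * g p) {p : ℝ} (hp : p ∈ Icc (0 : ℝ) 1) :
    u * ∫ q in (0 : ℝ)..p, μ q ≤ v * (f p - f 0) := by
  have h1 := mono_of (f := fun z => v * f z - u * ∫ q in (0 : ℝ)..z, μ q)
    (fun q hq => ((hf q hq).const_mul v).sub ((tk.int_dx μ hμ q hq).const_mul u))
    (fun q hq => sub_nonneg.2 (h q hq)) (left_mem_Icc.2 zero_le_one) hp hp.1
  simp only [intervalIntegral.integral_same] at h1
  linarith

theorem not_simple {ι : Type} {σ : ι → ℝ → ℂ} {e : ι × Bool} (h : IsTripleEnd σ e) :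
    ¬IsSimpleEnd σ e := by
  obtain ⟨e₁, e₂, h1, -, -, h2, -⟩ := h
  exact fun hs => h1 (hs e₁ ((h2 e₁).2 (Or.inr (Or.inl rfl)))).symm

end MClAux

open MClAux

theorem mcl (tk : S_TK) : S_MC where
  vel _ _ _ _ _ _ _ H t ht p hp := vel_of hp (H.pos t ht p hp) (H.Xp t ht p hp)
  motion _ _ _ _ _ _ _ H _ ht _ hp := motion tk H ht hp
  net := net
  resc _ _ _ _ _ _ _ _ H _ ht _ hp := resc_facts H ht hp

theorem loc (tk : S_TK) : S_LOC := by
  intro D t ht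
  have h1 : (1 : ℝ) ∈ Icc (0 : ℝ) 1 := right_mem_Icc.2 zero_le_one
  have c0 : ∀ p ∈ Icc (0 : ℝ) 1, cos (D.φ 0 t p) ≤ -(1 / 2) := fun p hp => by
    have h := half_le_cos (x := D.φ 0 t p - π) (by linarith [(D.r0 t ht p hp).1])
      (by linarith [(D.r0 t ht p hp).2])
    rw [cos_sub_pi] at h
    linarith
  have s1 : ∀ p ∈ Icc (0 : ℝ) 1, sin (D.φ 1 t p) ≤ -(1 / 2) := fun p hp => by
    have h := half_le_cos (x := D.φ 1 t p - π / 2 - π) (by linarith [(D.r1 t ht p hp).1, pi_pos])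
      (by linarith [(D.r1 t ht p hp).2, pi_pos])
    rw [cos_sub_pi, cos_sub_pi_div_two] at h
    linarith
  have c2 : ∀ p ∈ Icc (0 : ℝ) 1, 1 / 2 ≤ cos (D.φ 2 t p) := fun p hp =>
    half_le_cos (by linarith [(D.r2 t ht p hp).1, pi_pos]) (D.r2 t ht p hp).2
  have s2 : ∀ p ∈ Icc (0 : ℝ) 1, 0 ≤ sin (D.φ 2 t p) := fun p hp =>
    sin_nonneg_of_nonneg_of_le_pi (D.r2 t ht p hp).1 (by linarith [(D.r2 t ht p hp).2, pi_pos])
  have pos : ∀ i, ∀ p ∈ Icc (0 : ℝ) 1, 0 < D.m i t p := fun i => (D.mc i).pos t ht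
  have hx2 : ∀ p ∈ Icc (0 : ℝ) 1,
      (∫ q in (0 : ℝ)..p, D.m 2 t q) / 2 ≤ (D.X 2 t p).re - D.ξ t ∧
      (D.X 2 t p).re - D.ξ t ≤ ∫ q in (0 : ℝ)..p, D.m 2 t q := fun p hp => by
    have e1 := cmp tk 1 2 (cont_m (D.mc 2) ht) (re_der (D.mc 2) ht)
      (fun q hq => by nlinarith [pos 2 q hq, c2 q hq]) hp
    have e2 := cmp tk (-1) (-1) (cont_m (D.mc 2) ht) (re_der (D.mc 2) ht)
      (fun q hq => by nlinarith [pos 2 q hq, cos_le_one (D.φ 2 t q)]) hp
    rw [D.start 2 t ht] at e1 e2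
    constructor <;> linarith
  refine ⟨⟨?_, ?_⟩, santi_of (re_der (D.mc 0) ht) fun p hp => ?_,
    santi_of (im_der (D.mc 1) ht) fun p hp => ?_, smono_of (re_der (D.mc 2) ht) fun p hp => ?_,
    mono_of (im_der (D.mc 2) ht) fun p hp => ?_, fun p hp => x1_pos D ht hp, ?_, ?_, ?_, hx2⟩
  · rw [zeta_eq D ht]
    exact D.x1 t ht 1 h1
  · rw [zeta_eq D ht]
    exact x1_pos D ht h1
  · nlinarith [pos 0 p hp, c0 p hp]
  · nlinarith [pos 1 p hp, s1 p hp]
  · nlinarith [pos 2 p hp, c2 p hp]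
  · exact mul_nonneg (pos 2 p hp).le (s2 p hp)
  · have e1 := cmp tk 1 (-2) (cont_m (D.mc 0) ht) (re_der (D.mc 0) ht)
      (fun q hq => by nlinarith [pos 0 q hq, c0 q hq]) h1
    rw [D.start 0 t ht, D.end0 t ht] at e1
    linarith [(D.ξb t ht).2]
  · have e1 := cmp tk 1 (-2) (cont_m (D.mc 1) ht) (im_der (D.mc 1) ht)
      (fun q hq => by nlinarith [pos 1 q hq, s1 q hq]) h1
    rw [D.start 1 t ht, D.end1 t ht] at e1
    linarith
  · have e1 := (hx2 1 h1).2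
    rw [D.end2 t ht] at e1
    have e2 : (30 : ℝ) ≤ LL := le_add_of_nonneg_right (by positivity)
    linarith [(D.ξb t ht).2, D.hσ1 t ht]

theorem flow (mc : S_MC) (na : S_NETA) (nb : S_NETB) : S_FLOW := by
  intro D
  have hs : Ico 0 D.T ⊆ Ioo D.a D.T := fun t ht => ⟨D.ha.trans_le ht.1, ht.2⟩
  choose κ lam H using mc.net D
  have hsm : ∀ i, ContDiffOn ℝ ∞ (uncurry (D.net i)) (Ico 0 D.T ×ˢ Icc 0 1) := fun i =>
    (H i).sX.mono (prod_mono hs subset_rfl)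
  refine ⟨⟨fun t ht => ?_, fun i => (hsm i).continuousOn,
    fun i => (hsm i).mono (prod_mono Ioo_subset_Ico_self subset_rfl), fun t ht e he => ?_,
    fun i t ht x hx => mc.motion _ _ _ _ _ _ _ (H i) t (hs (Ioo_subset_Ico_self ht)) x hx⟩, hsm⟩
  · obtain ⟨-, h2, h3, h4⟩ := na D t (hs ht)
    refine ⟨fun i => ?_, fun i x hx h0 => ?_, h2, h3, h4, fun e => ?_⟩
    · have h5 : ContDiffOn ℝ ∞ (D.net i t) (Icc 0 1) :=
        (H i).sX.comp (f := fun p : ℝ => (t, p)) (contDiffOn_const.prodMk contDiffOn_id)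
          fun p hp => ⟨hs ht, hp⟩
      exact h5.of_le (WithTop.coe_le_coe.2 (le_top : (2 : ℕ∞) ≤ ⊤))
    · have h5 := (mc.vel _ _ _ _ _ _ _ (H i) t (hs ht) x hx).2.1
      have h6 := (H i).pos t (hs ht) x hx
      change vel (D.net i t) x = 0 at h0
      rw [h0, norm_zero] at h5
      exact h6.ne h5
    · exact (nb D t (hs ht) e).imp_left And.right
  · obtain ⟨⟨bc, rfl⟩, -⟩ | h := nb D t (hs ht) e
    · change sy bc.1 bc.2 (D.X 2 t 1) = sy bc.1 bc.2 (D.X 2 0 1)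
      rw [D.end2 t (hs ht), D.end2 0 ⟨D.ha, D.hT⟩]
    · exact absurd he (not_simple h)

end Pool.Agent.P.MP_cf7202_gt
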