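import Pool.Agent.P.MP_cf7202_gt.DefCon

/-! Totality of the trigonometric systems and the eigenfunctions of the linearised problem. -/

namespace Pool.Agent.P.MP_cf7202_gt

open Set Filter Topology Function MeasureTheory Real

namespace MODESAux

theorem int_mul {u : II → ℝ} (hu : Continuous u) (f : L2 ℝ) :
    Integrable (fun x => u x * f x) :=
  (L2_integrable (cmul (ContinuousLinearMap.mul ℝ ℝ) ⟨u, hu⟩ f)).congr (cmul_coe _ _ f)

theorem inner_tL {F : Type} [NormedAddCommGroup F] [InnerProductSpace ℝ F] (u : C(II, F))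
    (h : L2 F) : inner ℝ (tL u) h = ∫ x, inner ℝ (u x) (h x) := by
  rw [L2.inner_def]
  refine integral_congr_ae ?_
  filter_upwards [tL_coe u] with x hx
  rw [hx]

theorem inner_tL2 {F : Type} [NormedAddCommGroup F] [InnerProductSpace ℝ F] (u v : C(II, F)) :
    inner ℝ (tL u) (tL v) = ∫ x, inner ℝ (u x) (v x) := by
  rw [inner_tL]
  refine integral_congr_ae ?_
  filter_upwards [tL_coe v] with x hx
  rw [hx]

/-- the generator of the cosine algebra -/
noncomputable def cg : C(II, ℝ) := ⟨fun x => cos (π * x), by fun_prop⟩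

theorem cos_tot (f : L2 ℝ) (hf : ∀ k : ℕ, ∫ x : II, cos (k * π * x) * f x = 0) : f = 0 := by
  have hz : ∀ k : ℤ, ∫ x : II, cos (k * π * x) * f x = 0 := fun k => by
    obtain ⟨n, rfl | rfl⟩ := k.eq_nat_or_neg
    · simpa using hf n
    · simpa using hf n
  have hn : ∀ n : ℕ, ∀ k : ℤ, ∫ x : II, cos (π * x) ^ n * cos (k * π * x) * f x = 0 := by
    intro n
    induction n with
    | zero => simpa using hz
    | succ n ih =>
      intro k
      have e : ∀ x : II, cos (π * x) ^ (n + 1) * cos (k * π * x) * f x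
          = (1 / 2) * (cos (π * x) ^ n * cos ((k + 1 : ℤ) * π * x) * f x
            + cos (π * x) ^ n * cos ((k - 1 : ℤ) * π * x) * f x) := fun x => by
        have e1 : ((k + 1 : ℤ) : ℝ) * π * x = k * π * x + π * x := by push_cast; ring
        have e2 : ((k - 1 : ℤ) : ℝ) * π * x = k * π * x - π * x := by push_cast; ring
        rw [e1, e2, cos_add, cos_sub]
        ring
      simp only [e]
      rw [integral_const_mul, integral_add (int_mul (by fun_prop) f) (int_mul (by fun_prop) f),
        ih, ih]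
      simp
  let Λ : C(II, ℝ) →L[ℝ] ℝ := (innerSL ℝ f).comp tL
  have hΛ : ∀ u, Λ u = ∫ x, u x * f x := fun u => by
    change inner ℝ f (tL u) = _
    rw [real_inner_comm, inner_tL]
    simp [mul_comm]
  have hp : ∀ p : Polynomial ℝ, Λ (Polynomial.aeval cg p) = 0 := fun p => by
    rw [Polynomial.aeval_eq_sum_range, map_sum]
    refine Finset.sum_eq_zero fun n _ => ?_
    rw [map_smul, hΛ]
    have := hn n 0
    simp only [Int.cast_zero, zero_mul, cos_zero, mul_one] at this
    simp [cg, this]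
  have hsep : (Algebra.adjoin ℝ {cg}).SeparatesPoints := by
    intro x y hxy
    refine ⟨_, ⟨cg, Algebra.self_mem_adjoin_singleton ℝ cg, rfl⟩, fun h => hxy ?_⟩
    have hm : ∀ z : II, π * z ∈ Icc 0 π := fun z =>
      ⟨mul_nonneg pi_pos.le z.2.1, mul_le_of_le_one_right pi_pos.le z.2.2⟩
    exact Subtype.ext (mul_left_cancel₀ pi_pos.ne' (injOn_cos (hm x) (hm y) h))
  have hcl := ContinuousMap.subalgebra_topologicalClosure_eq_top_of_separatesPoints _ hsep
  have h0 : ∀ u, Λ u = 0 := fun u => by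
    have hu : u ∈ closure ((Algebra.adjoin ℝ {cg} : Subalgebra ℝ C(II, ℝ)) : Set C(II, ℝ)) := by
      have : u ∈ (Algebra.adjoin ℝ {cg}).topologicalClosure := by rw [hcl]; trivial
      exact this
    refine closure_minimal (t := {u | Λ u = 0}) ?_ (isClosed_eq Λ.continuous continuous_const) hu
    intro v hv
    rw [SetLike.mem_coe, Algebra.adjoin_singleton_eq_range_aeval] at hv
    obtain ⟨p, rfl⟩ := hv
    exact hp p
  have h1 : ∀ g : L2 ℝ, inner ℝ f g = 0 := fun g =>
    tL_dense.induction_on (p := fun g => inner ℝ f g = 0) g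
      (isClosed_eq (continuous_const.inner continuous_id) continuous_const) h0
  exact inner_self_eq_zero.1 (h1 f)

theorem sin_tot (f : L2 ℝ) (hf : ∀ k : ℕ, ∫ x : II, sin ((k + 1) * π * x) * f x = 0) :
    f = 0 := by
  have hn : ∀ k : ℕ, ∫ x : II, sin (k * π * x) * f x = 0 := fun k => by
    cases k with
    | zero => simp
    | succ k => simpa using hf k
  have hz : ∀ k : ℤ, ∫ x : II, sin (k * π * x) * f x = 0 := fun k => by
    obtain ⟨n, rfl | rfl⟩ := k.eq_nat_or_neg
    · simpa using hn n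
    · simpa [integral_neg] using hn n
  let sg : C(II, ℝ) := ⟨fun x => sin (π * x), by fun_prop⟩
  have hF := cmul_coe (ContinuousLinearMap.mul ℝ ℝ) sg f
  have h0 : cmul (ContinuousLinearMap.mul ℝ ℝ) sg f = 0 := by
    refine cos_tot _ fun k => ?_
    have e : ∫ x : II, cos (k * π * x) * cmul (ContinuousLinearMap.mul ℝ ℝ) sg f x
        = ∫ x : II, (1 / 2) * (sin ((k + 1 : ℤ) * π * x) * f x
          - sin ((k - 1 : ℤ) * π * x) * f x) := by
      refine integral_congr_ae ?_
      filter_upwards [hF] with x hx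
      have e1 : ((k + 1 : ℤ) : ℝ) * π * x = k * π * x + π * x := by push_cast; ring
      have e2 : ((k - 1 : ℤ) : ℝ) * π * x = k * π * x - π * x := by push_cast; ring
      rw [hx, e1, e2, sin_add, sin_sub]
      simp only [sg, ContinuousLinearMap.mul_apply', ContinuousMap.coe_mk]
      ring
    rw [e, integral_const_mul, integral_sub (int_mul (by fun_prop) f) (int_mul (by fun_prop) f),
      hz, hz]
    simp
  apply Lp.ext
  rw [h0] at hF
  filter_upwards [hF, Lp.coeFn_zero ℝ 2 (volume : Measure II), Measure.ae_ne volume (0 : II),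
    Measure.ae_ne volume (1 : II)] with x h1 h2 h3 h4
  rw [h2] at h1 ⊢
  have hx0 : 0 < (x : ℝ) := lt_of_le_of_ne x.2.1 fun h => h3 (Subtype.ext h.symm)
  have hx1 : (x : ℝ) < 1 := lt_of_le_of_ne x.2.2 fun h => h4 (Subtype.ext h)
  have hs : 0 < sin (π * x) :=
    sin_pos_of_pos_of_lt_pi (mul_pos pi_pos hx0) (mul_lt_of_lt_one_right pi_pos hx1)
  simp only [sg, ContinuousLinearMap.mul_apply', ContinuousMap.coe_mk, Pi.zero_apply] at h1
  exact (mul_eq_zero.1 h1.symm).resolve_left hs.ne'

theorem int_cos (n : ℤ) : ∫ x : II, cos (n * π * x) = if n = 0 then 1 else 0 := by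
  split_ifs with h
  · simp [h]
  · have hc : (n : ℝ) * π ≠ 0 := mul_ne_zero (Int.cast_ne_zero.2 h) pi_pos.ne'
    rw [integral_II_eq]
    have : ∫ s in (0 : ℝ)..1, cos (n * π * (pj s : II)) = ∫ s in (0 : ℝ)..1, cos (n * π * s) := by
      refine intervalIntegral.integral_congr fun s hs => ?_
      rw [uIcc_of_le zero_le_one] at hs
      simp [pj, projIcc_of_mem _ hs]
    rw [this, intervalIntegral.integral_comp_mul_left cos hc]
    simp

theorem cos_refl (n : ℤ) (x : ℝ) : cos (n * π * (1 - x)) = cos (n * π) * cos (n * π * x) := by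
  rw [mul_sub, mul_one, cos_sub, sin_int_mul_pi]
  ring

theorem sin_refl (n : ℤ) (x : ℝ) : sin (n * π * (1 - x)) = -cos (n * π) * sin (n * π * x) := by
  rw [mul_sub, mul_one, sin_sub, sin_int_mul_pi]
  ring

theorem cos_ne (n : ℤ) : cos (n * π) ≠ 0 := fun h => by
  have := sin_sq_add_cos_sq (n * π)
  rw [h, sin_int_mul_pi] at this
  norm_num at this

theorem int_cos' (n : ℤ) : ∫ x : II, cos (n * π * (1 - x)) = if n = 0 then 1 else 0 := by
  simp only [cos_refl]
  rw [integral_const_mul, int_cos]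
  split_ifs with h
  · simp [h]
  · simp

theorem int_two (k j : ℕ) (s : ℝ) :
    ∫ x : II, (cos (((k : ℤ) - j : ℤ) * π * x) + s * cos (((k : ℤ) + j + 2 : ℤ) * π * x))
      = if k = j then 1 else 0 := by
  have hi : ∀ u : II → ℝ, Continuous u → Integrable u := fun u hu =>
    hu.integrable_of_hasCompactSupport (HasCompactSupport.of_compactSpace _)
  rw [integral_add (hi _ (by fun_prop)) (hi _ (by fun_prop)), integral_const_mul, int_cos, int_cos,
    if_neg (by omega : ¬((k : ℤ) + j + 2 = 0)), mul_zero, add_zero]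
  simp [sub_eq_zero]

theorem pair (T : S_TRIG) (A B : L2 ℝ)
    (h : ∀ k : ℤ, ∫ x : II, (cos (k * π * (1 - x)) * A x + sin (k * π * (1 - x)) * B x) = 0) :
    A = 0 ∧ B = 0 := by
  have h1 : ∀ k : ℤ, (∫ x : II, cos (k * π * x) * A x) - ∫ x : II, sin (k * π * x) * B x = 0 := by
    intro k
    have h2 := h k
    have e : ∀ x : II, cos (k * π * (1 - x)) * A x + sin (k * π * (1 - x)) * B x
        = cos (k * π) * (cos (k * π * x) * A x - sin (k * π * x) * B x) := fun x => by
      rw [cos_refl, sin_refl]; ring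
    simp only [e] at h2
    rw [integral_const_mul, integral_sub (int_mul (by fun_prop) A) (int_mul (by fun_prop) B)] at h2
    exact (mul_eq_zero.1 h2).resolve_left (cos_ne k)
  have h2 : ∀ k : ℤ, (∫ x : II, cos (k * π * x) * A x) = 0 ∧
      ∫ x : II, sin (k * π * x) * B x = 0 := fun k => by
    have a := h1 k
    have b := h1 (-k)
    simp only [Int.cast_neg, neg_mul, cos_neg, sin_neg, integral_neg] at b
    constructor <;> linarith
  exact ⟨T.1 A fun k => by simpa using (h2 k).1, T.2 B fun k => by simpa using (h2 (k + 1)).2⟩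

/-- pointwise inner product with a continuous field -/
noncomputable def ipf (u : C(II, E3)) (h : HH) : L2 ℝ :=
  cmul (innerSL ℝ : E3 →L[ℝ] E3 →L[ℝ] ℝ) u h

theorem in3 (a b : E3) : inner ℝ a b = a 0 * b 0 + a 1 * b 1 + a 2 * b 2 := by
  simp [PiLp.inner_apply, Fin.sum_univ_three, mul_comm]

theorem ipf_coe (u : C(II, E3)) (h : HH) :
    ∀ᵐ x : II, ipf u h x = u x 0 * h x 0 + u x 1 * h x 1 + u x 2 * h x 2 := by
  filter_upwards [cmul_coe (innerSL ℝ : E3 →L[ℝ] E3 →L[ℝ] ℝ) u h] with x hx
  rw [← in3]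
  exact hx

theorem omg_inr (k : ℤ) (y : ℝ) : omg (.inr k) * y = omg (.inr 0) * y + k * π * y := by
  simp only [omg]
  push_cast
  ring

theorem fin (h : HH) (h0 : ipf zC h = 0) (h1 : ipf (eC (.inr 0)) h = 0)
    (h2 : ipf (etC (.inr 0)) h = 0) : h = 0 := by
  apply Lp.ext
  have a0 := ipf_coe zC h
  have a1 := ipf_coe (eC (.inr 0)) h
  have a2 := ipf_coe (etC (.inr 0)) h
  rw [h0] at a0
  rw [h1] at a1
  rw [h2] at a2
  filter_upwards [a0, a1, a2, Lp.coeFn_zero ℝ 2 (volume : Measure II),
    Lp.coeFn_zero E3 2 (volume : Measure II)] with x b0 b1 b2 z1 z2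
  rw [z1] at b0 b1 b2
  rw [z2]
  simp only [zC, eC, etC, ContinuousMap.const_apply, ContinuousMap.coe_mk, Pi.zero_apply,
    Matrix.cons_val_zero, Matrix.cons_val_one, Matrix.cons_val] at b0 b1 b2
  have hsc := sin_sq_add_cos_sq (omg (.inr 0) * (1 - x))
  set s := sin (omg (.inr 0) * (1 - x))
  set c := cos (omg (.inr 0) * (1 - x))
  have hr : (√2 : ℝ) ≠ 0 := by positivity
  have e2 : h x 2 = 0 := by linear_combination (-c) * b1 - s * b2 - h x 2 * hsc
  have e3 : (h x 0 + h x 1) / √2 = 0 := by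
    linear_combination (-s) * b1 + c * b2 - (h x 0 + h x 1) / √2 * hsc
  have e4 : h x 0 + h x 1 = 0 := (div_eq_zero_iff.1 e3).resolve_right hr
  ext i
  fin_cases i
  · change h x 0 = 0
    linarith
  · change h x 1 = 0
    linarith
  · exact e2

theorem sq2 : (√2 : ℝ)⁻¹ ^ 2 = 1 / 2 := by
  rw [inv_pow, sq_sqrt zero_le_two, one_div]

theorem oe : Orthonormal ℝ fun k => tL (eC k) := by
  rw [orthonormal_iff_ite]
  intro k j
  rw [inner_tL2]
  simp only [in3]
  rcases k with k | k <;> rcases j with j | j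
  · rw [show (if (Sum.inl k : KK) = Sum.inl j then (1 : ℝ) else 0) = if k = j then 1 else 0 by simp,
      ← int_two k j (-1)]
    congr 1
    funext x
    have e1 : (((k : ℤ) - j : ℤ) : ℝ) * π * x = (k + 1) * π * x - (j + 1) * π * x := by
      push_cast; ring
    have e2 : (((k : ℤ) + j + 2 : ℤ) : ℝ) * π * x = (k + 1) * π * x + (j + 1) * π * x := by
      push_cast; ring
    rw [e1, e2, cos_add, cos_sub]
    simp [eC, omg]
    ring
  · simp [eC]
  · simp [eC]
  · rw [show (if (Sum.inr k : KK) = Sum.inr j then (1 : ℝ) else 0) = if k - j = 0 then 1 else 0 by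
      simp [sub_eq_zero], ← int_cos']
    congr 1
    funext x
    have e1 : ((k - j : ℤ) : ℝ) * π * (1 - x)
        = omg (.inr k) * (1 - x) - omg (.inr j) * (1 - x) := by
      simp only [omg]; push_cast; ring
    rw [e1, cos_sub]
    simp only [eC, ContinuousMap.coe_mk, Matrix.cons_val_zero, Matrix.cons_val_one,
      Matrix.cons_val]
    linear_combination (2 * sin (omg (.inr k) * (1 - x)) * sin (omg (.inr j) * (1 - x))) * sq2

theorem oet : Orthonormal ℝ fun k => tL (etC k) := by
  rw [orthonormal_iff_ite]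
  intro k j
  rw [inner_tL2]
  simp only [in3]
  rcases k with k | k <;> rcases j with j | j
  · rw [show (if (Sum.inl k : KK) = Sum.inl j then (1 : ℝ) else 0) = if k = j then 1 else 0 by simp,
      ← int_two k j 1]
    congr 1
    funext x
    have e1 : (((k : ℤ) - j : ℤ) : ℝ) * π * x = (k + 1) * π * x - (j + 1) * π * x := by
      push_cast; ring
    have e2 : (((k : ℤ) + j + 2 : ℤ) : ℝ) * π * x = (k + 1) * π * x + (j + 1) * π * x := by
      push_cast; ring
    rw [e1, e2, cos_add, cos_sub]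
    simp [etC, omg]
  · simp [etC]
  · simp [etC]
  · rw [show (if (Sum.inr k : KK) = Sum.inr j then (1 : ℝ) else 0) = if k - j = 0 then 1 else 0 by
      simp [sub_eq_zero], ← int_cos']
    congr 1
    funext x
    have e1 : ((k - j : ℤ) : ℝ) * π * (1 - x)
        = omg (.inr k) * (1 - x) - omg (.inr j) * (1 - x) := by
      simp only [omg]; push_cast; ring
    rw [e1, cos_sub]
    simp only [etC, ContinuousMap.coe_mk, Matrix.cons_val_zero, Matrix.cons_val_one,
      Matrix.cons_val]
    linear_combination (2 * cos (omg (.inr k) * (1 - x)) * cos (omg (.inr j) * (1 - x))) * sq2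

theorem oz (k : KK) : inner ℝ (tL zC) (tL (etC k)) = 0 := by
  rw [inner_tL2]
  simp only [in3]
  rcases k with k | k
  · have h1 := int_cos (k + 1)
    rw [if_neg (by omega)] at h1
    have e : ∀ x : II, zC x 0 * etC (.inl k) x 0 + zC x 1 * etC (.inl k) x 1
        + zC x 2 * etC (.inl k) x 2 = 2 * cos (((k : ℤ) + 1 : ℤ) * π * x) := fun x => by
      simp [zC, etC, omg]
      ring
    simp only [e]
    rw [integral_const_mul, h1, mul_zero]
  · simp [zC, etC]

theorem te (T : S_TRIG) (h : HH) (hh : ∀ k, inner ℝ (tL (eC k)) h = 0) : h = 0 := by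
  simp only [inner_tL, in3] at hh
  have h0 : ipf zC h = 0 := T.2 _ fun k => by
    rw [← hh (.inl k)]
    refine integral_congr_ae ?_
    filter_upwards [ipf_coe zC h] with x hx
    rw [hx]
    simp [zC, eC, omg]
    ring
  obtain ⟨h1, h2⟩ := pair T (ipf (eC (.inr 0)) h) (-ipf (etC (.inr 0)) h) fun k => by
    rw [← hh (.inr k)]
    refine integral_congr_ae ?_
    filter_upwards [ipf_coe (eC (.inr 0)) h, ipf_coe (etC (.inr 0)) h,
      Lp.coeFn_neg (ipf (etC (.inr 0)) h)] with x a1 a2 a3
    rw [a3, Pi.neg_apply, a1, a2]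
    simp only [eC, etC, ContinuousMap.coe_mk, Matrix.cons_val_zero, Matrix.cons_val_one,
      Matrix.cons_val, omg_inr k, sin_add, cos_add]
    ring
  exact fin h h0 h1 (neg_eq_zero.1 h2)

theorem tet (T : S_TRIG) (h : HH) (hh : ∀ k, inner ℝ (tL (etC k)) h = 0)
    (hz : inner ℝ (tL zC) h = 0) : h = 0 := by
  simp only [inner_tL, in3] at hh hz
  have h0 : ipf zC h = 0 := T.1 _ fun k => by
    cases k with
    | zero =>
      rw [← hz]
      refine integral_congr_ae ?_
      filter_upwards [ipf_coe zC h] with x hx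
      rw [hx]
      simp
    | succ k =>
      rw [← hh (.inl k)]
      refine integral_congr_ae ?_
      filter_upwards [ipf_coe zC h] with x hx
      rw [hx]
      simp [zC, etC, omg]
      ring
  obtain ⟨h1, h2⟩ := pair T (ipf (etC (.inr 0)) h) (ipf (eC (.inr 0)) h) fun k => by
    rw [← hh (.inr k)]
    refine integral_congr_ae ?_
    filter_upwards [ipf_coe (eC (.inr 0)) h, ipf_coe (etC (.inr 0)) h] with x a1 a2
    rw [a1, a2]
    simp only [eC, etC, ContinuousMap.coe_mk, Matrix.cons_val_zero, Matrix.cons_val_one,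
      Matrix.cons_val, omg_inr k, sin_add, cos_add]
    ring
  exact fin h h0 h2 h1

end MODESAux

open MODESAux in
theorem trig : S_TRIG := ⟨cos_tot, sin_tot⟩

open MODESAux in
theorem modes : S_TRIG → S_MODES := fun T =>
  ⟨⟨fun k => tL (eC k), fun k => tL (etC k), tL zC, omg, oe, oet, oz, te T, tet T⟩,
    fun _ => rfl, fun _ => rfl, rfl, rfl⟩

end Pool.Agent.P.MP_cf7202_gt
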