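import Pool.Agent.P.MP_cf7202_gt.DefGeo

/-! Bounds on the tangent angle, their consequences, and the area law. -/

namespace Pool.Agent.P.MP_cf7202_gt

open Set Filter Topology Function Real

namespace MONOAux

/-- a function with nonnegative derivative on the unit interval is monotone -/
lemma mono_of (F F' : ℝ → ℝ) (h : ∀ p ∈ Icc (0 : ℝ) 1, HasDerivWithinAt F (F' p) (Icc 0 1) p)
    (h0 : ∀ p ∈ Icc (0 : ℝ) 1, 0 ≤ F' p) {p q : ℝ} (hp : p ∈ Icc (0 : ℝ) 1)
    (hq : q ∈ Icc (0 : ℝ) 1) (hpq : p ≤ q) : F p ≤ F q := by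
  have hm : MonotoneOn F (Icc 0 1) := by
    refine monotoneOn_of_hasDerivWithinAt_nonneg (f' := F') (convex_Icc 0 1)
      (fun x hx => (h x hx).continuousWithinAt) (fun x hx => ?_) (fun x hx => ?_)
    · exact (h x (interior_subset hx)).mono interior_subset
    · exact h0 x (interior_subset hx)
  exact hm hp hq hpq

lemma lt_of (F F' : ℝ → ℝ) (h : ∀ p ∈ Icc (0 : ℝ) 1, HasDerivWithinAt F (F' p) (Icc 0 1) p)
    (h0 : ∀ p ∈ Icc (0 : ℝ) 1, 0 < F' p) : F 0 < F 1 := by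
  obtain ⟨c, hc, hc'⟩ := exists_hasDerivAt_eq_slope F F' zero_lt_one
    (fun x hx => (h x hx).continuousWithinAt)
    (fun x hx => (h x (Ioo_subset_Icc_self hx)).hasDerivAt (Icc_mem_nhds hx.1 hx.2))
  have := h0 c (Ioo_subset_Icc_self hc)
  rw [hc'] at this
  simpa using this

/-- a continuous function on `[0,T)` with zero derivative inside is constant -/
lemma const_of {T : ℝ} (f : ℝ → ℝ) (hc : ContinuousOn f (Ico 0 T))
    (hd : ∀ t ∈ Ioo 0 T, HasDerivAt f 0 t) {t : ℝ} (ht : t ∈ Ico 0 T) : f t = f 0 := by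
  rcases ht.1.eq_or_lt with h | h
  · rw [← h]
  · obtain ⟨c, _, hc'⟩ := exists_hasDerivAt_eq_slope f (fun _ => 0) h
      (hc.mono (Icc_subset_Ico_right ht.2))
      (fun x hx => hd x ⟨hx.1, hx.2.trans ht.2⟩)
    have h1 : t - 0 ≠ 0 := by simpa using h.ne'
    have := (div_eq_zero_iff.1 hc'.symm).resolve_right h1
    linarith

/-- sign of the one-sided derivative at a maximum at the right end -/
lemma end_nonneg (F : ℝ → ℝ) (d : ℝ) (h : HasDerivWithinAt F d (Icc 0 1) 1)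
    (hm : ∀ p ∈ Icc (0 : ℝ) 1, F p ≤ F 1) : 0 ≤ d := by
  have h1 : HasDerivWithinAt F d (Ico 0 1) 1 := h.mono Ico_subset_Icc_self
  rw [hasDerivWithinAt_iff_tendsto_slope' (by simp)] at h1
  have : (𝓝[Ico (0 : ℝ) 1] 1).NeBot := right_nhdsWithin_Ico_neBot zero_lt_one
  refine ge_of_tendsto h1 ?_
  filter_upwards [self_mem_nhdsWithin] with p hp
  rw [slope_def_field]
  exact div_nonneg_of_nonpos (sub_nonpos.2 (hm p (Ico_subset_Icc_self hp))) (sub_nonpos.2 hp.2.le)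

lemma cos_half {a : ℝ} (h : |a| ≤ π / 3) : 1 / 2 ≤ cos a := by
  rw [← cos_abs, ← cos_pi_div_three]
  exact cos_le_cos_of_nonneg_of_le_pi (abs_nonneg a) (by linarith [pi_pos]) h

lemma trig0 {a : ℝ} (h : 0 ≤ a ∧ a ≤ π / 3) :
    cos (a + αα 0) ≤ -1 / 2 ∧ 0 ≤ sin (a + αα 0) := by
  have e : a + αα 0 = π - (π / 3 - a) := by simp [αα]; ring
  rw [e, cos_pi_sub, sin_pi_sub]
  have h1 := cos_half (a := π / 3 - a) (abs_le.2 ⟨by linarith [h.2, pi_pos], by linarith [h.1]⟩)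
  exact ⟨by linarith, sin_nonneg_of_nonneg_of_le_pi (by linarith [h.2]) (by linarith [h.1, pi_pos])⟩

lemma trig1 {a : ℝ} (h : 0 ≤ a ∧ a ≤ π / 3) :
    sin (a + αα 1) ≤ -1 / 2 ∧ -1 / 2 ≤ cos (a + αα 1) ∧ cos (a + αα 1) ≤ 1 / 2 := by
  have e : a + αα 1 = (a - π / 6) + π / 2 + π := by simp [αα]; ring
  rw [e, cos_add_pi, sin_add_pi, cos_add_pi_div_two, sin_add_pi_div_two]
  have h1 := cos_half (a := a - π / 6)
    (abs_le.2 ⟨by linarith [h.1, pi_pos], by linarith [h.2, pi_pos]⟩)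
  have h2 : sin (a - π / 6) ≤ sin (π / 6) :=
    sin_le_sin_of_le_of_le_pi_div_two (by linarith [h.1, pi_pos]) (by linarith [pi_pos])
      (by linarith [h.2])
  have h3 : sin (-(π / 6)) ≤ sin (a - π / 6) :=
    sin_le_sin_of_le_of_le_pi_div_two (by linarith [pi_pos]) (by linarith [h.2, pi_pos])
      (by linarith [h.1])
  rw [sin_neg, sin_pi_div_six] at h3
  rw [sin_pi_div_six] at h2
  exact ⟨by linarith, by linarith, by linarith⟩

lemma trig2 {a : ℝ} (h : 0 ≤ a ∧ a ≤ π / 3) :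
    1 / 2 ≤ cos (a + αα 2) ∧ 0 ≤ sin (a + αα 2) := by
  have e : a + αα 2 = a := by simp [αα]
  rw [e]
  exact ⟨cos_half (abs_le.2 ⟨by linarith [h.1, pi_pos], h.2⟩),
    sin_nonneg_of_nonneg_of_le_pi h.1 (by linarith [h.2, pi_pos])⟩

lemma ct_of {T : ℝ} {f : ℝ → ℝ → ℝ} (h : Ct0 T f) : Ct 0 T f :=
  ContinuousOn.mono h (prod_mono Ioo_subset_Ico_self subset_rfl)

lemma slice0 {T : ℝ} {f : ℝ → ℝ → ℝ} (h : Ct0 T f) {t : ℝ} (ht : t ∈ Ico 0 T) :
    ContinuousOn (f t) (Icc 0 1) :=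
  ContinuousOn.comp (g := uncurry f) (f := fun p => (t, p)) h (by fun_prop)
    (fun _ hp => ⟨ht, hp⟩)

lemma slice {T : ℝ} {f : ℝ → ℝ → ℝ} (h : Ct 0 T f) {t : ℝ} (ht : t ∈ Ioo 0 T) :
    ContinuousOn (f t) (Icc 0 1) :=
  ContinuousOn.comp (g := uncurry f) (f := fun p => (t, p)) h (by fun_prop)
    (fun _ hp => ⟨ht, hp⟩)

lemma tslice {T : ℝ} {f : ℝ → ℝ → ℝ} (h : Ct0 T f) {p : ℝ} (hp : p ∈ Icc (0 : ℝ) 1) :
    ContinuousOn (fun t => f t p) (Ico 0 T) :=
  ContinuousOn.comp (g := uncurry f) (f := fun t => (t, p)) h (by fun_prop)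
    (fun _ ht => ⟨ht, hp⟩)

variable {T : ℝ} (G : GS T)

lemma th_lo (mp : S_MP) (I : Init G) (i : Fin 3) {t : ℝ} (ht : t ∈ Ico 0 T) {p : ℝ}
    (hp : p ∈ Icc (0 : ℝ) 1) : 0 ≤ G.θ i t p := by
  have s1 : ∀ s ∈ Ioc 0 t, s ∈ Ioo 0 T := fun s hs => ⟨hs.1, hs.2.trans_lt ht.2⟩
  have s2 : ∀ s ∈ Ioc 0 t, s ∈ Ico 0 T := fun s hs => ⟨hs.1.le, hs.2.trans_lt ht.2⟩
  refine mp 2 t 0 G.θ G.κ G.ks (fun i t p => G.ks i t p + G.lam i t p * G.κ i t p) G.m
    (fun i => (G.cθ i).mono (prod_mono (Icc_subset_Ico_right ht.2) subset_rfl))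
    (fun i s hs => G.mpos i s (s2 s hs)) (fun i s hs => G.θp i s (s1 s hs))
    (fun i s hs => G.κp i s (s1 s hs)) (fun i s hs => G.θt i s (s1 s hs))
    (fun i s _ q _ _ h1 h2 => by rw [h1]; linarith) (fun i s hs => G.jθ i s (s2 s hs))
    (fun s hs _ => by rw [Fin.sum_univ_three]; exact (G.jκ s (s1 s hs)).le)
    (fun i s hs h => ?_) (fun i q hq => (I.θ i q hq).1) i t ⟨ht.1, le_rfl⟩ p hp
  have h0 := G.eθ0 s (s2 s hs)
  have h1 := G.eθ1 s (s2 s hs)
  have h2 := G.eκ2 s (s1 s hs)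
  fin_cases i
  · exact absurd h (by simp only [Fin.zero_eta]; rw [h0]; exact not_lt.2 (by positivity))
  · exact absurd h (by simp only [Fin.mk_one]; rw [h1]; exact lt_irrefl _)
  · exact h2.ge

lemma th_hi (mp : S_MP) (I : Init G) (i : Fin 3) {t : ℝ} (ht : t ∈ Ico 0 T) {p : ℝ}
    (hp : p ∈ Icc (0 : ℝ) 1) : G.θ i t p ≤ π / 3 := by
  have s1 : ∀ s ∈ Ioc 0 t, s ∈ Ioo 0 T := fun s hs => ⟨hs.1, hs.2.trans_lt ht.2⟩
  have s2 : ∀ s ∈ Ioc 0 t, s ∈ Ico 0 T := fun s hs => ⟨hs.1.le, hs.2.trans_lt ht.2⟩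
  refine sub_nonneg.1 (mp 2 t 0 (fun i t p => π / 3 - G.θ i t p) (fun i t p => -G.κ i t p)
    (fun i t p => -G.ks i t p) (fun i t p => -(G.ks i t p + G.lam i t p * G.κ i t p)) G.m
    (fun i => continuousOn_const.sub
      ((G.cθ i).mono (prod_mono (Icc_subset_Ico_right ht.2) subset_rfl)))
    (fun i s hs => G.mpos i s (s2 s hs))
    (fun i s hs q hq => by simpa using (G.θp i s (s1 s hs) q hq).const_sub (π / 3))
    (fun i s hs q hq => by simpa using (G.κp i s (s1 s hs) q hq).fun_neg)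
    (fun i s hs q hq => (G.θt i s (s1 s hs) q hq).const_sub (π / 3))
    (fun i s _ q _ _ h1 h2 => by rw [neg_eq_zero.1 h1]; linarith)
    (fun i s hs => by rw [G.jθ i s (s2 s hs)])
    (fun s hs _ => by rw [Fin.sum_univ_three]; linarith [G.jκ s (s1 s hs)])
    (fun i s hs h => ?_) (fun i q hq => sub_nonneg.2 (I.θ i q hq).2) i t ⟨ht.1, le_rfl⟩ p hp)
  have h0 := G.eθ0 s (s2 s hs)
  have h1 := G.eθ1 s (s2 s hs)
  have h2 := G.eκ2 s (s1 s hs)
  fin_cases i
  · exact absurd h (by simp only [Fin.zero_eta]; rw [h0, sub_self]; exact lt_irrefl _)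
  · exact absurd h (by simp only [Fin.mk_one]; rw [h1, sub_zero]; exact not_lt.2 (by positivity))
  · exact (neg_eq_zero.2 h2).ge

lemma sp (tk : S_TK) (i : Fin 3) {t : ℝ} (ht : t ∈ Ico 0 T) {p : ℝ} (hp : p ∈ Icc (0 : ℝ) 1) :
    HasDerivWithinAt (G.s i t) (G.m i t p) (Icc 0 1) p :=
  tk.int_dx _ (slice0 (G.cm i) ht) p hp

lemma s_zero (i : Fin 3) (t : ℝ) : G.s i t 0 = 0 := intervalIntegral.integral_same

lemma ar_zero (i : Fin 3) (t : ℝ) : G.ar i t 0 = 0 := intervalIntegral.integral_same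

lemma car (i : Fin 3) :
    Ct0 T (fun t q => G.y i t q * (G.m i t q * cos (G.θ i t q + αα i))) :=
  ContinuousOn.mul (G.cy i) (ContinuousOn.mul (G.cm i)
    (continuous_cos.comp_continuousOn (ContinuousOn.add (G.cθ i) continuousOn_const)))

lemma arp (tk : S_TK) (i : Fin 3) {t : ℝ} (ht : t ∈ Ico 0 T) {p : ℝ} (hp : p ∈ Icc (0 : ℝ) 1) :
    HasDerivWithinAt (G.ar i t) (G.y i t p * (G.m i t p * cos (G.θ i t p + αα i)))
      (Icc 0 1) p :=
  tk.int_dx _ (slice0 (car G i) ht) p hp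

/-- monotonicity of a linear combination of `x`, `y` and the arclength -/
lemma comb (tk : S_TK) (i : Fin 3) {t : ℝ} (ht : t ∈ Ico 0 T) (a b c : ℝ)
    (h : ∀ p ∈ Icc (0 : ℝ) 1, 0 ≤ a * cos (G.θ i t p + αα i) + b * sin (G.θ i t p + αα i) + c)
    {p q : ℝ} (hp : p ∈ Icc (0 : ℝ) 1) (hq : q ∈ Icc (0 : ℝ) 1) (hpq : p ≤ q) :
    a * G.x i t p + b * G.y i t p + c * G.s i t p
      ≤ a * G.x i t q + b * G.y i t q + c * G.s i t q := by
  refine mono_of (fun r => a * G.x i t r + b * G.y i t r + c * G.s i t r)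
    (fun r => G.m i t r * (a * cos (G.θ i t r + αα i) + b * sin (G.θ i t r + αα i) + c))
    (fun r hr => ?_) (fun r hr => mul_nonneg (G.mpos i t ht r hr).le (h r hr)) hp hq hpq
  refine ((((G.xp i t ht r hr).const_mul a).fun_add ((G.yp i t ht r hr).const_mul b)).fun_add
    ((sp G tk i ht hr).const_mul c)).congr_deriv ?_
  ring

lemma art (tk : S_TK) (i : Fin 3) {t : ℝ} (ht : t ∈ Ioo 0 T) {p : ℝ} (hp : p ∈ Icc (0 : ℝ) 1) :
    HasDerivAt (fun s => G.ar i s p)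
    (G.θ i t p - G.θ i t 0
      + G.y i t p * (G.lam i t p * cos (G.θ i t p + αα i) - G.κ i t p * sin (G.θ i t p + αα i))
      - G.y i t 0 * (G.lam i t 0 * cos (G.θ i t 0 + αα i)
        - G.κ i t 0 * sin (G.θ i t 0 + αα i))) t := by
  set g : ℝ → ℝ → ℝ := fun t q =>
    (G.lam i t q * sin (G.θ i t q + αα i) + G.κ i t q * cos (G.θ i t q + αα i))
        * (G.m i t q * cos (G.θ i t q + αα i))
      + G.y i t q * (G.mt i t q * cos (G.θ i t q + αα i)
        + G.m i t q * (-sin (G.θ i t q + αα i) * (G.ks i t q + G.lam i t q * G.κ i t q)))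
    with hg
  have cc : Ct 0 T (fun t q => cos (G.θ i t q + αα i)) :=
    continuous_cos.comp_continuousOn (ContinuousOn.add (ct_of (G.cθ i)) continuousOn_const)
  have cs : Ct 0 T (fun t q => sin (G.θ i t q + αα i)) :=
    continuous_sin.comp_continuousOn (ContinuousOn.add (ct_of (G.cθ i)) continuousOn_const)
  have cg : Ct 0 T g :=
    ContinuousOn.add
      (ContinuousOn.mul (ContinuousOn.add (ContinuousOn.mul (G.clam i) cs)
        (ContinuousOn.mul (G.cκ i) cc)) (ContinuousOn.mul (ct_of (G.cm i)) cc))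
      (ContinuousOn.mul (ct_of (G.cy i)) (ContinuousOn.add (ContinuousOn.mul (G.cmt i) cc)
        (ContinuousOn.mul (ct_of (G.cm i)) (ContinuousOn.mul (ContinuousOn.neg cs)
          (ContinuousOn.add (G.cks i) (ContinuousOn.mul (G.clam i) (G.cκ i)))))))
  have h1 := tk.int_dt 0 T _ g (ct_of (car G i)) cg
    (fun s hs q hq => (G.yt i s hs q hq).fun_mul ((G.mt' i s hs q hq).fun_mul
      ((G.θt i s hs q hq).add_const (αα i)).cos)) t ht p hp
  have ht' : t ∈ Ico 0 T := Ioo_subset_Ico_self ht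
  have h2 := tk.ftc (fun q => G.θ i t q + G.y i t q *
      (G.lam i t q * cos (G.θ i t q + αα i) - G.κ i t q * sin (G.θ i t q + αα i))) (g t)
    (slice cg ht) (fun q hq => by
      have a1 := (G.θp i t ht q hq).add_const (αα i)
      refine ((G.θp i t ht q hq).fun_add ((G.yp i t ht' q hq).fun_mul
        (((G.lamp i t ht q hq).fun_mul a1.cos).fun_sub
          ((G.κp i t ht q hq).fun_mul a1.sin)))).congr_deriv ?_
      have a2 := sin_sq_add_cos_sq (G.θ i t q + αα i)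
      simp only [hg]
      linear_combination (-(G.m i t q * G.κ i t q)) * a2) p hp
  rw [h2] at h1
  refine h1.congr_deriv ?_
  ring

lemma jxt (i : Fin 3) {t : ℝ} (ht : t ∈ Ioo 0 T) :
    G.lam i t 0 * cos (G.θ i t 0 + αα i) - G.κ i t 0 * sin (G.θ i t 0 + αα i)
      = G.lam 0 t 0 * cos (G.θ 0 t 0 + αα 0) - G.κ 0 t 0 * sin (G.θ 0 t 0 + αα 0) := by
  have z : (0 : ℝ) ∈ Icc (0 : ℝ) 1 := ⟨le_rfl, zero_le_one⟩
  refine (G.xt i t ht 0 z).unique ((G.xt 0 t ht 0 z).congr_of_eventuallyEq ?_)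
  filter_upwards [Ioo_mem_nhds ht.1 ht.2] with s hs
  exact G.jx i s (Ioo_subset_Ico_self hs)

lemma area (tk : S_TK) (I : Init G) {t : ℝ} (ht : t ∈ Ico 0 T) :
    G.ar 1 t 1 - G.ar 0 t 1 = π / 3 * (TT - t) := by
  have o : (1 : ℝ) ∈ Icc (0 : ℝ) 1 := ⟨zero_le_one, le_rfl⟩
  have c : ∀ i, ContinuousOn (fun s => G.ar i s 1) (Ico 0 T) :=
    fun i => tslice (tk.ct0_int T _ (car G i)) o
  have := const_of (fun s => G.ar 1 s 1 - G.ar 0 s 1 + π / 3 * s)
    (((c 1).sub (c 0)).add (by fun_prop)) (fun s hs => by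
      have hs' : s ∈ Ico 0 T := Ioo_subset_Ico_self hs
      refine (((art G tk 1 hs o).fun_sub (art G tk 0 hs o)).fun_add
        ((hasDerivAt_id' s).const_mul (π / 3))).congr_deriv ?_
      have e : π / 3 + αα 0 = π := by simp [αα]; ring
      rw [jxt G 1 hs, G.eθ0 s hs', G.eθ1 s hs', G.ey1 s hs', G.el0 s hs, G.jθ 1 s hs',
        G.jy 1 s hs', e, sin_pi]
      ring) ht
  have h0 := I.area
  linarith

end MONOAux

open MONOAux in
theorem mono : S_TK → S_NUM → S_MP → S_MONO := by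
  intro tk num mp T G _ hT I
  have z : (0 : ℝ) ∈ Icc (0 : ℝ) 1 := ⟨le_rfl, zero_le_one⟩
  have o : (1 : ℝ) ∈ Icc (0 : ℝ) 1 := ⟨zero_le_one, le_rfl⟩
  have hθ : ∀ i, ∀ t ∈ Ico 0 T, ∀ p ∈ Icc (0 : ℝ) 1, 0 ≤ G.θ i t p ∧ G.θ i t p ≤ π / 3 :=
    fun i t ht p hp => ⟨th_lo G mp I i ht hp, th_hi G mp I i ht hp⟩
  have hex : ∀ t ∈ Ico 0 T, G.x 2 t 1 = LL := fun t ht => by
    rw [← I.ex]
    refine const_of (fun s => G.x 2 s 1) (tslice (G.cx 2) o) (fun s hs => ?_) ht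
    simpa [G.el2 s hs, G.eκ2 s hs] using G.xt 2 s hs 1 o
  have hey : ∀ t ∈ Ico 0 T, G.y 2 t 1 = ηη := fun t ht => by
    rw [← I.ey]
    refine const_of (fun s => G.y 2 s 1) (tslice (G.cy 2) o) (fun s hs => ?_) ht
    simpa [G.el2 s hs, G.eκ2 s hs] using G.yt 2 s hs 1 o
  have t0 := fun t ht p hp => trig0 (hθ 0 t ht p hp)
  have t1 := fun t ht p hp => trig1 (hθ 1 t ht p hp)
  have t2 := fun t ht p hp => trig2 (hθ 2 t ht p hp)
  have hx : ∀ i, ∀ t ∈ Ico 0 T, G.x i t 0 = G.ξ t := G.jx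
  have hy : ∀ i, ∀ t ∈ Ico 0 T, G.y i t 0 = G.h t := G.jy
  have hs1 : ∀ t ∈ Ico 0 T, G.h t ≤ G.s 1 t 1 ∧ G.s 1 t 1 ≤ 2 * G.h t := fun t ht => by
    have a := comb G tk 1 ht 0 1 1
      (fun r _ => by linarith [neg_one_le_sin (G.θ 1 t r + αα 1)]) z o zero_le_one
    have b := comb G tk 1 ht 0 (-2) (-1)
      (fun r hr => by linarith [(t1 t ht r hr).1]) z o zero_le_one
    rw [hy 1 t ht, G.ey1 t ht, s_zero] at a b
    constructor <;> linarith
  have hy1 : ∀ t ∈ Ico 0 T, ∀ p ∈ Icc (0 : ℝ) 1, 0 ≤ G.y 1 t p ∧ G.y 1 t p ≤ G.h t :=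
    fun t ht p hp => by
      have a := comb G tk 1 ht 0 (-1) 0
        (fun r hr => by linarith [(t1 t ht r hr).1]) z hp hp.1
      have b := comb G tk 1 ht 0 (-1) 0
        (fun r hr => by linarith [(t1 t ht r hr).1]) hp o hp.2
      rw [hy 1 t ht] at a
      rw [G.ey1 t ht] at b
      constructor <;> linarith
  refine
    { θ := hθ, ex := hex, ey := hey, hpos := fun t ht => ?_, x0 := fun t ht p hp => ?_,
      y0 := fun t ht p hp => ?_, x1 := fun t ht p hp => ?_, y1 := hy1,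
      x2 := fun t ht p hp => ?_, y2 := fun t ht p hp => ?_, s0 := fun t ht => ?_, s1 := hs1,
      s2 := fun t ht => ?_, smono := fun i t ht p hp => ?_, ar1 := fun t ht => ?_,
      κ0 := fun t ht => ?_, κ1 := fun t ht => ?_, art := fun i t ht p hp => art G tk i ht hp,
      jxt := fun i t ht => jxt G i ht, area := fun t ht => ?_ }
  · have a := lt_of (G.s 1 t) (G.m 1 t) (fun r hr => sp G tk 1 ht hr) (G.mpos 1 t ht)
    rw [s_zero] at a
    linarith [(hs1 t ht).2]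
  · have a := comb G tk 0 ht (-1) 0 0 (fun r hr => by linarith [(t0 t ht r hr).1]) z hp hp.1
    have b := comb G tk 0 ht (-1) 0 0 (fun r hr => by linarith [(t0 t ht r hr).1]) hp o hp.2
    rw [hx 0 t ht] at a
    rw [G.ex0 t ht] at b
    constructor <;> linarith
  · have a := comb G tk 0 ht 0 1 0 (fun r hr => by linarith [(t0 t ht r hr).2]) z hp hp.1
    have b := comb G tk 0 ht 0 (-1) 1
      (fun r _ => by linarith [sin_le_one (G.θ 0 t r + αα 0)]) z hp hp.1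
    rw [hy 0 t ht, s_zero] at a b
    constructor <;> linarith
  · have a := comb G tk 1 ht (-1) (-1) 0
      (fun r hr => by linarith [(t1 t ht r hr).1, (t1 t ht r hr).2.2]) z hp hp.1
    have b := comb G tk 1 ht 1 (-1) 0
      (fun r hr => by linarith [(t1 t ht r hr).1, (t1 t ht r hr).2.1]) z hp hp.1
    rw [hx 1 t ht, hy 1 t ht] at a b
    have c := (hy1 t ht p hp).1
    exact abs_le.2 ⟨by linarith, by linarith⟩
  · have a := comb G tk 2 ht 1 0 0 (fun r hr => by linarith [(t2 t ht r hr).1]) z hp hp.1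
    have b := comb G tk 2 ht 1 0 0 (fun r hr => by linarith [(t2 t ht r hr).1]) hp o hp.2
    rw [hx 2 t ht] at a
    rw [hex t ht] at b
    constructor <;> linarith
  · have a := comb G tk 2 ht 0 1 0 (fun r hr => by linarith [(t2 t ht r hr).2]) z hp hp.1
    have b := comb G tk 2 ht 0 (-1) 1
      (fun r _ => by linarith [sin_le_one (G.θ 2 t r + αα 2)]) z hp hp.1
    have c := comb G tk 2 ht 0 1 0 (fun r hr => by linarith [(t2 t ht r hr).2]) hp o hp.2
    rw [hy 2 t ht, s_zero] at a b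
    rw [hey t ht] at c
    exact ⟨by linarith, by linarith, by linarith⟩
  · have a := comb G tk 0 ht 1 0 1
      (fun r _ => by linarith [neg_one_le_cos (G.θ 0 t r + αα 0)]) z o zero_le_one
    have b := comb G tk 0 ht (-2) 0 (-1)
      (fun r hr => by linarith [(t0 t ht r hr).1]) z o zero_le_one
    rw [hx 0 t ht, G.ex0 t ht, s_zero] at a b
    constructor <;> linarith
  · have a := comb G tk 2 ht (-1) 0 1
      (fun r _ => by linarith [cos_le_one (G.θ 2 t r + αα 2)]) z o zero_le_one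
    have b := comb G tk 2 ht 2 0 (-1)
      (fun r hr => by linarith [(t2 t ht r hr).1]) z o zero_le_one
    rw [hx 2 t ht, hex t ht, s_zero] at a b
    constructor <;> linarith
  · have a := comb G tk i ht 0 0 1 (fun r _ => by linarith) z hp hp.1
    have b := comb G tk i ht 0 0 1 (fun r _ => by linarith) hp o hp.2
    rw [s_zero] at a
    constructor <;> linarith
  · have key : ∀ e : ℝ, |e| ≤ 1 → -G.h t ^ 2 ≤ e * G.ar 1 t 1 := fun e he => by
      have a := mono_of (fun r => e * G.ar 1 t r - G.y 1 t r * G.y 1 t r)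
        (fun r => G.y 1 t r * G.m 1 t r *
          (e * cos (G.θ 1 t r + αα 1) - 2 * sin (G.θ 1 t r + αα 1)))
        (fun r hr => by
          refine (((arp G tk 1 ht hr).const_mul e).fun_sub
            ((G.yp 1 t ht r hr).fun_mul (G.yp 1 t ht r hr))).congr_deriv ?_
          ring)
        (fun r hr => by
          refine mul_nonneg (mul_nonneg (hy1 t ht r hr).1 (G.mpos 1 t ht r hr).le) ?_
          have b1 := (t1 t ht r hr).1
          have b2 : |e * cos (G.θ 1 t r + αα 1)| ≤ 1 := by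
            rw [abs_mul]
            exact mul_le_one₀ he (abs_nonneg _) (abs_cos_le_one _)
          linarith [(abs_le.1 b2).1]) z o zero_le_one
      simp only [ar_zero, hy 1 t ht, G.ey1 t ht] at a
      nlinarith
    have a := key 1 (by simp)
    have b := key (-1) (by simp)
    exact abs_le.2 ⟨by linarith, by linarith⟩
  · have ht' : t ∈ Ico 0 T := Ioo_subset_Ico_self ht
    have a := end_nonneg _ _ (G.θp 0 t ht 1 o)
      (fun p hp => by rw [G.eθ0 t ht']; exact (hθ 0 t ht' p hp).2)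
    exact nonneg_of_mul_nonneg_right a (G.mpos 0 t ht' 1 o)
  · have ht' : t ∈ Ico 0 T := Ioo_subset_Ico_self ht
    have a := end_nonneg _ _ (G.θp 1 t ht 1 o).fun_neg
      (fun p hp => by rw [G.eθ1 t ht']; exact neg_le_neg (hθ 1 t ht' p hp).1)
    have b := G.mpos 1 t ht' 1 o
    by_contra c
    have := mul_pos b (not_le.1 c)
    linarith
  · rw [area G tk I ht, num.sq t (ht.2.le.trans hT)]
    ring

end Pool.Agent.P.MP_cf7202_gt
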