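import Pool.Agent.P.MP_cf7202_gt.DefAbs

/-! Composition operators on spaces of continuous functions are smooth. -/

namespace Pool.Agent.P.MP_cf7202_gt

open Set Filter Topology Function MeasureTheory
open scoped ContDiff ENNReal

set_option linter.unusedSectionVars false

namespace NEMAux

section
variable {X Y : Type} [NormedAddCommGroup X] [NormedSpace ℝ X] [NormedAddCommGroup Y]
  [NormedSpace ℝ Y]

open Classical in
/-- the composition operator -/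
noncomputable def NN (G : X → Y) (u : C(II, X)) : C(II, Y) :=
  if h : Continuous (fun t => G (u t)) then ⟨_, h⟩ else 0

theorem NN_apply {U : Set X} {G : X → Y} (hG : ContinuousOn G U) (u : C(II, X))
    (hu : ∀ t, u t ∈ U) (t : II) : NN G u t = G (u t) := by
  have h : Continuous (fun t => G (u t)) := hG.comp_continuous u.continuous hu
  rw [NN, dif_pos h]
  rfl

theorem thick {U : Set X} (hU : IsOpen U) (u : C(II, X)) (hu : ∀ t, u t ∈ U) :
    ∃ δ > 0, ∀ t x, ‖x - u t‖ < δ → x ∈ U := by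
  have hK : IsCompact (range u) := isCompact_range u.continuous
  obtain ⟨δ, hδ, hs⟩ := hK.exists_thickening_subset_open hU (by rintro _ ⟨t, rfl⟩; exact hu t)
  refine ⟨δ, hδ, fun t x hx => hs ?_⟩
  rw [Metric.mem_thickening_iff]
  exact ⟨u t, ⟨t, rfl⟩, by rwa [dist_eq_norm]⟩

theorem unif {U : Set X} {G : X → Y} (hU : IsOpen U) (hG : ContinuousOn G U) (u : C(II, X))
    (hu : ∀ t, u t ∈ U) {ε : ℝ} (hε : 0 < ε) :
    ∃ δ > 0, ∀ t x, ‖x - u t‖ < δ → x ∈ U ∧ ‖G x - G (u t)‖ ≤ ε := by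
  have hK : IsCompact (range u) := isCompact_range u.continuous
  have h1 := hK.uniformContinuousAt_of_continuousAt G
    (by rintro _ ⟨t, rfl⟩; exact hG.continuousAt (hU.mem_nhds (hu t)))
    (Metric.dist_mem_uniformity hε)
  obtain ⟨δ₁, hδ₁, h2⟩ := Metric.mem_uniformity_dist.mp h1
  obtain ⟨δ₂, hδ₂, h3⟩ := thick hU u hu
  refine ⟨min δ₁ δ₂, lt_min hδ₁ hδ₂, fun t x hx => ⟨h3 t x (hx.trans_le (min_le_right _ _)), ?_⟩⟩
  have h4 : dist (u t) x < δ₁ := by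
    rw [dist_comm, dist_eq_norm]; exact hx.trans_le (min_le_left _ _)
  have h5 : dist (G (u t)) (G x) < ε := h2 h4 ⟨t, rfl⟩
  rw [dist_comm, dist_eq_norm] at h5
  exact h5.le

theorem pt_lt {u v : C(II, X)} {δ : ℝ} (h : ‖v - u‖ < δ) (t : II) : ‖v t - u t‖ < δ :=
  ((v - u).norm_coe_le_norm t).trans_lt h

theorem isOpen_Om {U : Set X} (hU : IsOpen U) : IsOpen {u : C(II, X) | ∀ t, u t ∈ U} := by
  rw [Metric.isOpen_iff]
  intro u hu
  obtain ⟨δ, hδ, h⟩ := thick hU u hu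
  exact ⟨δ, hδ, fun v hv t => h t _ (pt_lt (mem_ball_iff_norm.mp hv) t)⟩

theorem NN_cont {U : Set X} {G : X → Y} (hU : IsOpen U) (hG : ContinuousOn G U) :
    ContinuousOn (NN G) {u : C(II, X) | ∀ t, u t ∈ U} := by
  rw [Metric.continuousOn_iff]
  intro u hu ε hε
  obtain ⟨δ, hδ, h⟩ := unif hU hG u hu (half_pos hε)
  refine ⟨δ, hδ, fun v hv hd => ?_⟩
  rw [dist_eq_norm] at hd ⊢
  refine lt_of_le_of_lt ((ContinuousMap.norm_le _ (half_pos hε).le).2 fun t => ?_) (half_lt_self hε)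
  rw [ContinuousMap.sub_apply, NN_apply hG v hv, NN_apply hG u hu]
  exact (h t _ (pt_lt hd t)).2

theorem NN_deriv {U : Set X} {G : X → Y} (hU : IsOpen U) (hG : DifferentiableOn ℝ G U)
    (hG' : ContinuousOn (fderiv ℝ G) U) (u : C(II, X)) (hu : ∀ t, u t ∈ U) :
    HasFDerivAt (NN G) (cbil (ContinuousLinearMap.id ℝ (X →L[ℝ] Y)) (NN (fderiv ℝ G) u)) u := by
  rw [hasFDerivAt_iff_isLittleO, Asymptotics.isLittleO_iff]
  intro ε hε
  obtain ⟨δ, hδ, h⟩ := unif hU hG' u hu hε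
  filter_upwards [Metric.ball_mem_nhds u hδ] with v hv
  have hd := mem_ball_iff_norm.mp hv
  have hv' : ∀ t, v t ∈ U := fun t => (h t _ (pt_lt hd t)).1
  refine (ContinuousMap.norm_le _ (by positivity)).2 fun t => ?_
  rw [ContinuousMap.sub_apply, ContinuousMap.sub_apply, cbil_apply, NN_apply hG.continuousOn v hv',
    NN_apply hG.continuousOn u hu, NN_apply hG' u hu, ContinuousLinearMap.id_apply,
    ContinuousMap.sub_apply]
  have key := Convex.norm_image_sub_le_of_norm_hasFDerivWithin_le' (𝕜 := ℝ) (f := G)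
    (f' := fderiv ℝ G) (s := Metric.ball (u t) δ) (φ := fderiv ℝ G (u t)) (C := ε)
    (x := u t) (y := v t)
    (fun x hx => ((hG.differentiableAt
      (hU.mem_nhds (h t x (mem_ball_iff_norm.mp hx)).1)).hasFDerivAt).hasFDerivWithinAt)
    (fun x hx => (h t x (mem_ball_iff_norm.mp hx)).2) (convex_ball _ _)
    (Metric.mem_ball_self hδ) (mem_ball_iff_norm.mpr (pt_lt hd t))
  refine key.trans ?_
  gcongr
  exact (v - u).norm_coe_le_norm t

end

theorem NN_nat {X : Type} [NormedAddCommGroup X] [NormedSpace ℝ X] {U : Set X} (hU : IsOpen U)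
    (n : ℕ) : ∀ (Y : Type) [NormedAddCommGroup Y] [NormedSpace ℝ Y] (G : X → Y),
      ContDiffOn ℝ ∞ G U → ContDiffOn ℝ n (NN G) {u : C(II, X) | ∀ t, u t ∈ U} := by
  induction n with
  | zero =>
    intro Y _ _ G hG
    simpa using NN_cont hU hG.continuousOn
  | succ n ih =>
    intro Y _ _ G hG
    obtain ⟨h1, h2⟩ := (contDiffOn_infty_iff_fderiv_of_isOpen hU).mp hG
    have hD := NN_deriv hU h1 h2.continuousOn
    rw [Nat.cast_succ, contDiffOn_succ_iff_fderiv_of_isOpen (isOpen_Om hU)]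
    refine ⟨fun u hu => (hD u hu).differentiableAt.differentiableWithinAt, by simp, ?_⟩
    have h3 : ContDiff ℝ n
        (fun z : C(II, X →L[ℝ] Y) => cbil (ContinuousLinearMap.id ℝ (X →L[ℝ] Y)) z) :=
      ContinuousLinearMap.contDiff _
    exact ContDiffOn.congr (h3.comp_contDiffOn (ih _ _ h2)) fun u hu => (hD u hu).fderiv

/-- the pair of two continuous functions as a continuous linear map -/
noncomputable def pr {V H : Type} [NormedAddCommGroup V] [NormedSpace ℝ V] [NormedAddCommGroup H]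
    [NormedSpace ℝ H] (Z : Type) [NormedAddCommGroup Z] [NormedSpace ℝ Z] :
    C(II, V) × C(II, H) × Z →L[ℝ] C(II, V × H) :=
  ((ContinuousLinearMap.inl ℝ V H).compLeftContinuous ℝ II).comp (ContinuousLinearMap.fst ℝ _ _) +
  ((ContinuousLinearMap.inr ℝ V H).compLeftContinuous ℝ II).comp
    ((ContinuousLinearMap.fst ℝ _ _).comp (ContinuousLinearMap.snd ℝ _ _))

theorem pr_apply {V H Z : Type} [NormedAddCommGroup V] [NormedSpace ℝ V] [NormedAddCommGroup H]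
    [NormedSpace ℝ H] [NormedAddCommGroup Z] [NormedSpace ℝ Z]
    (s : C(II, V) × C(II, H) × Z) (t : II) : pr Z s t = (s.1 t, s.2.1 t) := by
  simp [pr]

theorem pr_smooth {V H Z : Type} [NormedAddCommGroup V] [NormedSpace ℝ V] [NormedAddCommGroup H]
    [NormedSpace ℝ H] [NormedAddCommGroup Z] [NormedSpace ℝ Z] :
    ContDiff ℝ ∞ (fun s : C(II, V) × C(II, H) × Z => pr Z s) := ContinuousLinearMap.contDiff _

section
variable {P E F : Type} [NormedAddCommGroup P] [NormedSpace ℝ P] [NormedAddCommGroup E]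
  [NormedSpace ℝ E] [NormedAddCommGroup F] [NormedSpace ℝ F]

theorem lin_smooth (T : E →L[ℝ] F) {a : P → E} {O : Set P} (ha : ContDiffOn ℝ ∞ a O) :
    ContDiffOn ℝ ∞ (fun s => T (a s)) O := T.contDiff.comp_contDiffOn ha

theorem cmul_smooth {a : P → C(II, E →L[ℝ] F)} {b : P → L2 E} {O : Set P}
    (ha : ContDiffOn ℝ ∞ a O) (hb : ContDiffOn ℝ ∞ b O) :
    ContDiffOn ℝ ∞ (fun s => cmul (ContinuousLinearMap.id ℝ (E →L[ℝ] F)) (a s) (b s)) O := by
  have h : ContDiffOn ℝ ∞ (fun s => cmul (ContinuousLinearMap.id ℝ (E →L[ℝ] F)) (a s)) O :=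
    lin_smooth (F := L2 E →L[ℝ] L2 F) _ ha
  exact h.clm_apply hb

theorem tL_smooth (c : ℝ) {a : P → C(II, E)} {O : Set P} (ha : ContDiffOn ℝ ∞ a O) :
    ContDiffOn ℝ ∞ (fun s => c • tL (a s)) O :=
  (lin_smooth (F := L2 E) tL ha).const_smul c

end

end NEMAux

open NEMAux

theorem nem : S_NEM := by
  intro X Y _ _ _ _ U G hU hG
  exact ⟨isOpen_Om hU, NN G, contDiffOn_infty.mpr fun n => NN_nat hU n Y G hG,
    fun u hu t => NN_apply hG.continuousOn u hu t⟩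

theorem dyn : S_NEM → S_DYN := by
  intro hN H V Y K _ _ _ _ _ _ _ _ _ _ S ε
  have oP : IsOpen (S.U ×ˢ (univ : Set H)) := S.oU.prod isOpen_univ
  obtain ⟨hO, NA, sA, eA⟩ := hN _ _ S.U S.A S.oU S.sA
  obtain ⟨-, NW, sW, eW⟩ := hN _ _ S.U S.W S.oU S.sW
  obtain ⟨-, N0, s0, e0⟩ := hN _ _ _ S.N0 oP S.sN0
  obtain ⟨-, N1, s1, e1⟩ := hN _ _ _ S.N1 oP S.sN1
  obtain ⟨-, W0, sW0, eW0⟩ := hN _ _ _ S.W0 oP S.sW0
  have mP : ∀ s : C(II, V) × C(II, H) × L2 H, (∀ t, s.1 t ∈ S.U) →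
      ∀ t, pr (L2 H) s t ∈ S.U ×ˢ (univ : Set H) := fun s hs t => by
    rw [pr_apply]; exact ⟨hs t, mem_univ _⟩
  have cA : ContDiffOn ℝ ∞ (fun s : C(II, V) × C(II, H) × L2 H => NA s.1)
      {s | ∀ t, s.1 t ∈ S.U} := sA.comp contDiff_fst.contDiffOn fun s hs => hs
  have cW : ContDiffOn ℝ ∞ (fun s : C(II, V) × C(II, H) × L2 H => NW s.1)
      {s | ∀ t, s.1 t ∈ S.U} := sW.comp contDiff_fst.contDiffOn fun s hs => hs
  have c0 : ContDiffOn ℝ ∞ (fun s : C(II, V) × C(II, H) × L2 H => N0 (pr (L2 H) s))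
      {s | ∀ t, s.1 t ∈ S.U} := s0.comp pr_smooth.contDiffOn fun s hs => mP s hs
  have c1 : ContDiffOn ℝ ∞ (fun s : C(II, V) × C(II, H) × L2 H => N1 (pr (L2 H) s))
      {s | ∀ t, s.1 t ∈ S.U} := s1.comp pr_smooth.contDiffOn fun s hs => mP s hs
  have cW0 : ContDiffOn ℝ ∞ (fun s : C(II, V) × C(II, H) × L2 H => W0 (pr (L2 H) s))
      {s | ∀ t, s.1 t ∈ S.U} := sW0.comp pr_smooth.contDiffOn fun s hs => mP s hs
  have cD1 : ContDiff ℝ ∞ (fun s : C(II, V) × C(II, H) × L2 H => s.2.1) := contDiff_snd.fst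
  have cD2 : ContDiff ℝ ∞ (fun s : C(II, V) × C(II, H) × L2 H => s.2.2) := contDiff_snd.snd
  set w : C(II, V) × C(II, H) × L2 H → L2 V := fun s =>
    cmul (ContinuousLinearMap.id ℝ (Y →L[ℝ] V)) (NW s.1)
      (ε ^ 2 • tL ((S.T1 ε).compLeftContinuous ℝ II s.2.1) + (S.T2 ε).compLpL 2 volume s.2.2)
      + ε ^ 2 • tL (W0 (pr (L2 H) s)) with hw
  have cw : ContDiffOn ℝ ∞ w {s | ∀ t, s.1 t ∈ S.U} := by
    refine ContDiffOn.add (cmul_smooth cW (ContDiffOn.add (tL_smooth _ ?_) ?_)) (tL_smooth _ cW0)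
    · exact lin_smooth (E := C(II, H)) (F := C(II, Y)) _ cD1.contDiffOn
    · exact lin_smooth (E := L2 H) (F := L2 Y) _ cD2.contDiffOn
  refine ⟨w, fun s => cmul (ContinuousLinearMap.id ℝ (H →L[ℝ] H)) (NA s.1) s.2.2
      + ε ^ 2 • tL (N0 (pr (L2 H) s))
      + cmul (ContinuousLinearMap.id ℝ (V →L[ℝ] H)) (N1 (pr (L2 H) s)) (w s),
    hO.preimage continuous_fst, cw, ?_, fun s hs => ⟨?_, ?_⟩⟩
  · exact ((cmul_smooth cA cD2.contDiffOn).add (tL_smooth _ c0)).add (cmul_smooth c1 cw)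
  · filter_upwards [Lp.coeFn_add (cmul (ContinuousLinearMap.id ℝ (Y →L[ℝ] V)) (NW s.1)
        (ε ^ 2 • tL ((S.T1 ε).compLeftContinuous ℝ II s.2.1) + (S.T2 ε).compLpL 2 volume s.2.2))
        (ε ^ 2 • tL (W0 (pr (L2 H) s))),
      cmul_coe (ContinuousLinearMap.id ℝ (Y →L[ℝ] V)) (NW s.1)
        (ε ^ 2 • tL ((S.T1 ε).compLeftContinuous ℝ II s.2.1) + (S.T2 ε).compLpL 2 volume s.2.2),
      Lp.coeFn_add (ε ^ 2 • tL ((S.T1 ε).compLeftContinuous ℝ II s.2.1))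
        ((S.T2 ε).compLpL 2 volume s.2.2),
      Lp.coeFn_smul (ε ^ 2) (tL ((S.T1 ε).compLeftContinuous ℝ II s.2.1)),
      tL_coe ((S.T1 ε).compLeftContinuous ℝ II s.2.1),
      (S.T2 ε).coeFn_compLpL (p := 2) (μ := volume) s.2.2,
      Lp.coeFn_smul (ε ^ 2) (tL (W0 (pr (L2 H) s))), tL_coe (W0 (pr (L2 H) s))]
      with t a1 a2 a3 a4 a5 a6 a7 a8
    rw [hw]
    dsimp only
    rw [a1, Pi.add_apply, a2, a3, Pi.add_apply, a4, a7, Pi.smul_apply, Pi.smul_apply, a5, a6, a8,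
      eW _ hs, eW0 _ (mP s hs), pr_apply]
    rfl
  · filter_upwards [Lp.coeFn_add (cmul (ContinuousLinearMap.id ℝ (H →L[ℝ] H)) (NA s.1) s.2.2
        + ε ^ 2 • tL (N0 (pr (L2 H) s)))
        (cmul (ContinuousLinearMap.id ℝ (V →L[ℝ] H)) (N1 (pr (L2 H) s)) (w s)),
      Lp.coeFn_add (cmul (ContinuousLinearMap.id ℝ (H →L[ℝ] H)) (NA s.1) s.2.2)
        (ε ^ 2 • tL (N0 (pr (L2 H) s))),
      cmul_coe (ContinuousLinearMap.id ℝ (H →L[ℝ] H)) (NA s.1) s.2.2,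
      cmul_coe (ContinuousLinearMap.id ℝ (V →L[ℝ] H)) (N1 (pr (L2 H) s)) (w s),
      Lp.coeFn_smul (ε ^ 2) (tL (N0 (pr (L2 H) s))), tL_coe (N0 (pr (L2 H) s))]
      with t a1 a2 a3 a4 a5 a6
    rw [a1, Pi.add_apply, a2, Pi.add_apply, a3, a4, a5, Pi.smul_apply, a6, eA _ hs,
      e0 _ (mP s hs), e1 _ (mP s hs), pr_apply]
    rfl

end Pool.Agent.P.MP_cf7202_gt
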