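import Pool.Agent.P.MP_cf7202_gt.DefFD

/-! The symmetric network is embedded, connected, inside the disc, and its ends are either
simple ends on the circle or triple junctions. -/

namespace Pool.Agent.P.MP_cf7202_gt

open Set Filter Topology Function Real

namespace NETAAux

theorem sy_re (b c : Bool) (z : ℂ) : (sy b c z).re = if b then -z.re else z.re := rfl

theorem sy_im (b c : Bool) (z : ℂ) : (sy b c z).im = if c then -z.im else z.im := rfl

theorem abs_sy_re (b c : Bool) (z : ℂ) : |(sy b c z).re| = |z.re| := by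
  cases b <;> simp [sy_re]

theorem abs_sy_im (b c : Bool) (z : ℂ) : |(sy b c z).im| = |z.im| := by
  cases c <;> simp [sy_im]

theorem sy_abs {b c b' c' : Bool} {z w : ℂ} (h : sy b c z = sy b' c' w) :
    |z.re| = |w.re| ∧ |z.im| = |w.im| := by
  refine ⟨?_, ?_⟩
  · rw [← abs_sy_re b c z, h, abs_sy_re]
  · rw [← abs_sy_im b c z, h, abs_sy_im]

theorem sy_b {b c b' c' : Bool} {z w : ℂ} (h : sy b c z = sy b' c' w) (hz : 0 < z.re)
    (hw : 0 < w.re) : b = b' := by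
  have h1 := congrArg Complex.re h
  rw [sy_re, sy_re] at h1
  cases b <;> cases b' <;> simp at h1 ⊢ <;> linarith

theorem sy_c {b c b' c' : Bool} {z w : ℂ} (h : sy b c z = sy b' c' w) (hz : 0 < z.im)
    (hw : 0 < w.im) : c = c' := by
  have h1 := congrArg Complex.im h
  rw [sy_im, sy_im] at h1
  cases c <;> cases c' <;> simp at h1 ⊢ <;> linarith

theorem sy_cont (b c : Bool) : Continuous (sy b c) := by
  have h : sy b c = fun z : ℂ => (((if b then -z.re else z.re : ℝ) : ℂ)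
      + ((if c then -z.im else z.im : ℝ) : ℂ) * Complex.I) := by
    funext z
    apply Complex.ext <;> simp [sy]
  rw [h]
  cases b <;> cases c <;> simp only [if_true, if_false, Bool.false_eq_true] <;> fun_prop

theorem sy_add (b c : Bool) (z w : ℂ) : sy b c (z + w) = sy b c z + sy b c w := by
  apply Complex.ext <;> cases b <;> cases c <;> simp [sy] <;> ring

theorem sy_zero (b c : Bool) : sy b c 0 = 0 := by
  apply Complex.ext <;> cases b <;> cases c <;> simp [sy]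

theorem LL_ge : 30 ≤ LL := by
  unfold LL
  have := Real.sqrt_nonneg 3
  linarith

theorem eta_pos : 0 < ηη := by unfold ηη; positivity

theorem RR_pos : 0 < RR := by
  unfold RR
  have := LL_ge
  have := eta_pos
  positivity

theorem mem_ball_of {z : ℂ} (h : z.re ^ 2 + z.im ^ 2 < LL ^ 2 + ηη ^ 2) :
    z ∈ Metric.ball (0 : ℂ) RR := by
  rw [mem_ball_zero_iff, Complex.norm_eq_sqrt_sq_add_sq, RR]
  exact Real.sqrt_lt_sqrt (by positivity) h

theorem mem_closure_of {z : ℂ} (h : z.re ^ 2 + z.im ^ 2 ≤ LL ^ 2 + ηη ^ 2) :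
    z ∈ closure (Metric.ball (0 : ℂ) RR) := by
  rw [closure_ball _ RR_pos.ne', mem_closedBall_zero_iff, Complex.norm_eq_sqrt_sq_add_sq, RR]
  exact Real.sqrt_le_sqrt h

theorem sq_sy (b c : Bool) (z : ℂ) :
    (sy b c z).re ^ 2 + (sy b c z).im ^ 2 = z.re ^ 2 + z.im ^ 2 := by
  cases b <;> cases c <;> simp [sy]

/-- the position facts on the three base curves at a fixed time -/
structure Pos (A E B : ℝ → ℂ) (ξ h ζ : ℝ) : Prop where
  h0 : 0 < h
  h1 : h ≤ 1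
  ξ0 : 0 < ξ
  ξ1 : ξ ≤ 12
  ζ0 : 0 < ζ
  ζ1 : ζ ≤ 13
  A0 : A 0 = ⟨ξ, h⟩
  E0 : E 0 = ⟨ξ, h⟩
  B0 : B 0 = ⟨ξ, h⟩
  A1 : A 1 = ⟨-ξ, h⟩
  E1 : E 1 = ⟨ζ, 0⟩
  B1 : B 1 = ⟨LL, ηη⟩
  a0 : StrictAntiOn (fun p => (A p).re) (Icc 0 1)
  a1 : StrictAntiOn (fun p => (E p).im) (Icc 0 1)
  a2 : StrictMonoOn (fun p => (B p).re) (Icc 0 1)
  a2' : MonotoneOn (fun p => (B p).im) (Icc 0 1)
  Aim : ∀ p ∈ Icc (0 : ℝ) 1, h ≤ (A p).im ∧ (A p).im ≤ 25
  Ere : ∀ p ∈ Icc (0 : ℝ) 1, 0 < (E p).re ∧ (E p).re ≤ 13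

theorem pos_of (D : FD) {t : ℝ} (ht : t ∈ Ioo D.a D.T) (L : Loc D t) :
    Pos (D.X 0 t) (D.X 1 t) (D.X 2 t) (D.ξ t) (D.h t) (D.ζ t) := by
  have h0 := D.hpos t ht
  have h1 := D.hle' t ht
  have h2 := D.hσ1 t ht
  have h3 := D.ξb t ht
  have h4 := abs_le.1 L.ζ.1
  refine ⟨h0, by linarith, by linarith [h3.1], by linarith [h3.2], L.ζ.2, by linarith [h3.2],
    D.start 0 t ht, D.start 1 t ht, D.start 2 t ht, D.end0 t ht, D.end1 t ht, D.end2 t ht,
    L.a0, L.a1, L.a2, L.a2', fun p hp => ?_, fun p hp => ?_⟩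
  · have := D.y0 t ht p hp
    exact ⟨this.1, by linarith [this.2]⟩
  · have := abs_le.1 (D.x1 t ht p hp)
    exact ⟨L.x1 p hp, by linarith [h3.2]⟩

namespace Pos

variable {A E B : ℝ → ℂ} {ξ h ζ : ℝ} (P : Pos A E B ξ h ζ)
include P

omit P in
theorem z01 : (0 : ℝ) ∈ Icc (0 : ℝ) 1 := ⟨le_rfl, zero_le_one⟩

omit P in
theorem o01 : (1 : ℝ) ∈ Icc (0 : ℝ) 1 := ⟨zero_le_one, le_rfl⟩

theorem Are {p : ℝ} (hp : p ∈ Icc (0 : ℝ) 1) : |(A p).re| ≤ ξ := by
  have h1 := P.a0.antitoneOn Pos.z01 hp hp.1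
  have h2 := P.a0.antitoneOn hp Pos.o01 hp.2
  simp only [P.A0, P.A1] at h1 h2
  exact abs_le.2 ⟨h2, h1⟩

theorem Are' {p : ℝ} (hp : p ∈ Ioo (0 : ℝ) 1) : |(A p).re| < ξ := by
  have h1 := P.a0 Pos.z01 (Ioo_subset_Icc_self hp) hp.1
  have h2 := P.a0 (Ioo_subset_Icc_self hp) Pos.o01 hp.2
  simp only [P.A0, P.A1] at h1 h2
  exact abs_lt.2 ⟨h2, h1⟩

theorem Eim {p : ℝ} (hp : p ∈ Icc (0 : ℝ) 1) : 0 ≤ (E p).im ∧ (E p).im ≤ h := by
  have h1 := P.a1.antitoneOn Pos.z01 hp hp.1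
  have h2 := P.a1.antitoneOn hp Pos.o01 hp.2
  simp only [P.E0, P.E1] at h1 h2
  exact ⟨h2, h1⟩

theorem Eim' {p : ℝ} (hp : p ∈ Ioo (0 : ℝ) 1) : 0 < (E p).im ∧ (E p).im < h := by
  have h1 := P.a1 Pos.z01 (Ioo_subset_Icc_self hp) hp.1
  have h2 := P.a1 (Ioo_subset_Icc_self hp) Pos.o01 hp.2
  simp only [P.E0, P.E1] at h1 h2
  exact ⟨h2, h1⟩

theorem E_top {p : ℝ} (hp : p ∈ Icc (0 : ℝ) 1) (h1 : h ≤ (E p).im) : (E p).re = ξ := by
  have h2 : (E p).im = (E 0).im := by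
    rw [P.E0]
    exact le_antisymm (P.Eim hp).2 h1
  have h3 : p = 0 := P.a1.injOn hp Pos.z01 h2
  rw [h3, P.E0]

theorem E_bot {p : ℝ} (hp : p ∈ Icc (0 : ℝ) 1) (h1 : (E p).im = 0) : (E p).re = ζ := by
  have h2 : (E p).im = (E 1).im := by
    rw [P.E1]
    exact h1
  have h3 : p = 1 := P.a1.injOn hp Pos.o01 h2
  rw [h3, P.E1]

theorem Bre {p : ℝ} (hp : p ∈ Icc (0 : ℝ) 1) : ξ ≤ (B p).re ∧ (B p).re ≤ LL := by
  have h1 := P.a2.monotoneOn Pos.z01 hp hp.1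
  have h2 := P.a2.monotoneOn hp Pos.o01 hp.2
  simp only [P.B0, P.B1] at h1 h2
  exact ⟨h1, h2⟩

theorem Bre' {p : ℝ} (hp : p ∈ Ioo (0 : ℝ) 1) : ξ < (B p).re ∧ (B p).re < LL := by
  have h1 := P.a2 Pos.z01 (Ioo_subset_Icc_self hp) hp.1
  have h2 := P.a2 (Ioo_subset_Icc_self hp) Pos.o01 hp.2
  simp only [P.B0, P.B1] at h1 h2
  exact ⟨h1, h2⟩

theorem Bim {p : ℝ} (hp : p ∈ Icc (0 : ℝ) 1) : h ≤ (B p).im ∧ (B p).im ≤ ηη := by
  have h1 := P.a2' Pos.z01 hp hp.1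
  have h2 := P.a2' hp Pos.o01 hp.2
  simp only [P.B0, P.B1] at h1 h2
  exact ⟨h1, h2⟩

end Pos

/-- the network at a fixed time built from three base curves -/
def nt (A E B : ℝ → ℂ) (ζ : ℝ) : Ix → ℝ → ℂ
  | .inl _ => fun p => ⟨ζ * (2 * p - 1), 0⟩
  | .inr (.inl c) => fun p => sy false c (A p)
  | .inr (.inr (.inl bc)) => fun p => sy bc.1 bc.2 (E p)
  | .inr (.inr (.inr bc)) => fun p => sy bc.1 bc.2 (B p)

theorem slice_eq (D : FD) (t : ℝ) :
    slice D.net t = nt (D.X 0 t) (D.X 1 t) (D.X 2 t) (D.ζ t) := by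
  funext i
  rcases i with _ | c | bc | bc <;> rfl

theorem seg_sy (ζ p : ℝ) : (⟨ζ * (2 * p - 1), 0⟩ : ℂ) = sy false false ⟨ζ * (2 * p - 1), 0⟩ := rfl

section

variable {A E B : ℝ → ℂ} {ξ h ζ : ℝ} (P : Pos A E B ξ h ζ)
include P

theorem seg_abs {p : ℝ} (hp : p ∈ Icc (0 : ℝ) 1) : |ζ * (2 * p - 1)| ≤ ζ := by
  have := P.ζ0
  rw [abs_le]
  constructor <;> nlinarith [hp.1, hp.2]

theorem seg_abs' {p : ℝ} (hp : p ∈ Ioo (0 : ℝ) 1) : |ζ * (2 * p - 1)| < ζ := by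
  have := P.ζ0
  rw [abs_lt]
  constructor <;> nlinarith [hp.1, hp.2]

omit P in
theorem small {x y : ℝ} (hx : |x| ≤ 13) (hy : |y| ≤ 25) : x ^ 2 + y ^ 2 < LL ^ 2 + ηη ^ 2 := by
  have h1 := LL_ge
  have h2 : x ^ 2 ≤ 13 ^ 2 := sq_le_sq' (abs_le.1 hx).1 (abs_le.1 hx).2
  have h3 : y ^ 2 ≤ 25 ^ 2 := sq_le_sq' (abs_le.1 hy).1 (abs_le.1 hy).2
  nlinarith [sq_nonneg ηη]

theorem sq_lt (i : Ix) {p : ℝ} (hp : p ∈ Icc (0 : ℝ) 1)
    (hi : (∀ bc, i ≠ .inr (.inr (.inr bc))) ∨ p ∈ Ioo (0 : ℝ) 1) :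
    (nt A E B ζ i p).re ^ 2 + (nt A E B ζ i p).im ^ 2 < LL ^ 2 + ηη ^ 2 := by
  rcases i with _ | c | bc | bc
  · exact small ((seg_abs P hp).trans P.ζ1) (by simp [nt])
  · simp only [nt, sq_sy]
    have h1 := P.Aim p hp
    exact small ((P.Are hp).trans (by linarith [P.ξ1]))
      (abs_le.2 ⟨by linarith [P.h0], h1.2⟩)
  · simp only [nt, sq_sy]
    have h1 := P.Ere p hp
    have h2 := P.Eim hp
    exact small (abs_le.2 ⟨by linarith, h1.2⟩) (abs_le.2 ⟨by linarith, by linarith [P.h1]⟩)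
  · simp only [nt, sq_sy]
    rcases hi with hi | hi
    · exact absurd rfl (hi bc)
    have h1 := P.Bre' hi
    have h2 := P.Bim hp
    have h3 := P.ξ0
    have h4 := P.h0
    nlinarith

theorem sq_le (i : Ix) {p : ℝ} (hp : p ∈ Icc (0 : ℝ) 1) :
    (nt A E B ζ i p).re ^ 2 + (nt A E B ζ i p).im ^ 2 ≤ LL ^ 2 + ηη ^ 2 := by
  by_cases hi : ∀ bc, i ≠ .inr (.inr (.inr bc))
  · exact (sq_lt P i hp (Or.inl hi)).le
  · push Not at hi
    obtain ⟨bc, rfl⟩ := hi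
    simp only [nt, sq_sy]
    have h1 := P.Bre hp
    have h2 := P.Bim hp
    have h3 := P.ξ0
    have h4 := P.h0
    nlinarith

theorem emb (i j : Ix) {x y : ℝ} (hx : x ∈ Ioo (0 : ℝ) 1) (hy : y ∈ Icc (0 : ℝ) 1)
    (e : nt A E B ζ i x = nt A E B ζ j y) : i = j ∧ x = y := by
  have hx' := Ioo_subset_Icc_self hx
  have h0 := P.h0
  have hξ := P.ξ0
  have hζ := P.ζ0
  have Ax := P.Aim x hx'
  have Ay := P.Aim y hy
  have Ax' := P.Are' hx
  have Ay' := P.Are hy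
  have Ex := P.Eim' hx
  have Ey := P.Eim hy
  have Ex' := (P.Ere x hx').1
  have Ey' := (P.Ere y hy).1
  have Bx := P.Bre' hx
  have By := P.Bre hy
  have Bx' := P.Bim hx'
  have By' := P.Bim hy
  have aAx : |(A x).im| = (A x).im := abs_of_pos (by linarith)
  have aAy : |(A y).im| = (A y).im := abs_of_pos (by linarith)
  have aEx : |(E x).im| = (E x).im := abs_of_pos Ex.1
  have aEy : |(E y).im| = (E y).im := abs_of_nonneg Ey.1
  have aEx' : |(E x).re| = (E x).re := abs_of_pos Ex'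
  have aEy' : |(E y).re| = (E y).re := abs_of_pos Ey'
  have aBx : |(B x).im| = (B x).im := abs_of_pos (by linarith)
  have aBy : |(B y).im| = (B y).im := abs_of_pos (by linarith)
  have aBx' : |(B x).re| = (B x).re := abs_of_pos (by linarith)
  have aBy' : |(B y).re| = (B y).re := abs_of_pos (by linarith)
  rcases i with u | c | bc | bc <;> rcases j with u' | c' | bc' | bc' <;> simp only [nt] at e
  · have h1 : ζ * (2 * x - 1) = ζ * (2 * y - 1) := congrArg Complex.re e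
    have h2 := mul_left_cancel₀ hζ.ne' h1
    exact ⟨rfl, by linarith⟩
  · rw [seg_sy] at e
    have h1 := (sy_abs e).2
    simp only [abs_zero] at h1
    exact absurd h1 (by linarith)
  · rw [seg_sy] at e
    obtain ⟨h1, h2⟩ := sy_abs e
    simp only [abs_zero] at h1 h2
    have h3 := P.E_bot hy (by linarith)
    have h4 := seg_abs' P hx
    exact absurd h1 (by linarith)
  · rw [seg_sy] at e
    have h1 := (sy_abs e).2
    simp only [abs_zero] at h1
    exact absurd h1 (by linarith)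
  · rw [seg_sy] at e
    have h1 := (sy_abs e).2
    simp only [abs_zero] at h1
    exact absurd h1 (by linarith)
  · have h1 := sy_c e (by linarith) (by linarith)
    have h2 : (A x).re = (A y).re := (congrArg Complex.re e :)
    exact ⟨by rw [h1], P.a0.injOn hx' hy h2⟩
  · obtain ⟨h1, h2⟩ := sy_abs e
    have h3 := P.E_top hy (by linarith)
    exact absurd h1 (by linarith)
  · obtain ⟨h1, h2⟩ := sy_abs e
    exact absurd h1 (by linarith)
  · rw [seg_sy] at e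
    have h1 := (sy_abs e).2
    simp only [abs_zero] at h1
    exact absurd h1 (by linarith)
  · obtain ⟨h1, h2⟩ := sy_abs e
    exact absurd h2 (by linarith)
  · obtain ⟨h1, h2⟩ := sy_abs e
    have h3 : x = y := P.a1.injOn hx' hy (show (E x).im = (E y).im by linarith)
    have h4 := sy_b e Ex' Ey'
    have h5 := sy_c e Ex.1 (by linarith)
    exact ⟨by rw [Prod.ext h4 h5], h3⟩
  · obtain ⟨h1, h2⟩ := sy_abs e
    exact absurd h2 (by linarith)
  · rw [seg_sy] at e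
    have h1 := (sy_abs e).2
    simp only [abs_zero] at h1
    exact absurd h1 (by linarith)
  · obtain ⟨h1, h2⟩ := sy_abs e
    exact absurd h1 (by linarith)
  · obtain ⟨h1, h2⟩ := sy_abs e
    have h3 := P.E_top hy (by linarith)
    exact absurd h1 (by linarith)
  · obtain ⟨h1, h2⟩ := sy_abs e
    have h3 : x = y := P.a2.injOn hx' hy (show (B x).re = (B y).re by linarith)
    have h4 := sy_b e (by linarith) (by linarith)
    have h5 := sy_c e (by linarith) (by linarith)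
    exact ⟨by rw [Prod.ext h4 h5], h3⟩

theorem conn (cA : ContinuousOn A (Icc 0 1)) (cE : ContinuousOn E (Icc 0 1))
    (cB : ContinuousOn B (Icc 0 1)) : IsConnected (supp (nt A E B ζ)) := by
  have hc : ∀ i, ContinuousOn (nt A E B ζ i) (Icc 0 1) := by
    intro i
    rcases i with _ | c | bc | bc
    · have h1 : nt A E B ζ (.inl ()) = fun p : ℝ => ((ζ * (2 * p - 1) : ℝ) : ℂ) := by
        funext p
        apply Complex.ext <;> simp [nt]
      rw [h1]
      fun_prop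
    · exact (sy_cont _ _).comp_continuousOn cA
    · exact (sy_cont _ _).comp_continuousOn cE
    · exact (sy_cont _ _).comp_continuousOn cB
  have hp : ∀ i, IsPreconnected (nt A E B ζ i '' Icc 0 1) := fun i =>
    isPreconnected_Icc.image _ (hc i)
  have hs : ∀ i, nt A E B ζ i '' Icc 0 1 ⊆ supp (nt A E B ζ) := fun i =>
    subset_iUnion (fun i => nt A E B ζ i '' Icc 0 1) i
  have hseg : ∀ bc : Bool × Bool, nt A E B ζ (.inr (.inr (.inl bc))) 1
      ∈ nt A E B ζ (.inl ()) '' Icc 0 1 := by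
    rintro ⟨b, c⟩
    cases b
    · refine ⟨1, Pos.o01, ?_⟩
      apply Complex.ext <;> simp [nt, P.E1, sy]
      ring
    · refine ⟨0, Pos.z01, ?_⟩
      apply Complex.ext <;> simp [nt, P.E1, sy]
  have hmeet : ∀ i, ∃ bc : Bool × Bool, ∃ z, z ∈ nt A E B ζ (.inr (.inr (.inl bc))) '' Icc 0 1 ∧
      z ∈ nt A E B ζ i '' Icc 0 1 := by
    intro i
    rcases i with _ | c | bc | bc
    · exact ⟨(false, false), _, ⟨1, Pos.o01, rfl⟩, hseg _⟩
    · exact ⟨(false, c), _, ⟨0, Pos.z01, rfl⟩, ⟨0, Pos.z01, by simp only [nt, P.A0, P.E0]⟩⟩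
    · exact ⟨bc, _, ⟨0, Pos.z01, rfl⟩, ⟨0, Pos.z01, rfl⟩⟩
    · exact ⟨bc, _, ⟨0, Pos.z01, rfl⟩, ⟨0, Pos.z01, by simp only [nt, P.B0, P.E0]⟩⟩
  refine ⟨⟨_, hs (.inl ()) ⟨0, Pos.z01, rfl⟩⟩, ?_⟩
  refine isPreconnected_of_forall (nt A E B ζ (.inl ()) 0) fun y hy => ?_
  obtain ⟨i, hi⟩ := mem_iUnion.1 hy
  obtain ⟨bc, z, hz1, hz2⟩ := hmeet i
  refine ⟨(nt A E B ζ (.inl ()) '' Icc 0 1 ∪ nt A E B ζ (.inr (.inr (.inl bc))) '' Icc 0 1)
    ∪ nt A E B ζ i '' Icc 0 1, union_subset (union_subset (hs _) (hs _)) (hs _),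
    Or.inl (Or.inl ⟨0, Pos.z01, rfl⟩), Or.inr hi, ?_⟩
  exact IsPreconnected.union z (Or.inr hz1) hz2
    (IsPreconnected.union _ (hseg bc) ⟨1, Pos.o01, rfl⟩ (hp _) (hp _)) (hp _)

end

/-- the label of the vertex at which a curve end lies -/
def cl : Ix × Bool → Fin 3 × Bool × Bool
  | (.inl _, b) => (1, !b, false)
  | (.inr (.inl c), b) => (0, b, c)
  | (.inr (.inr (.inl bc)), false) => (0, bc.1, bc.2)
  | (.inr (.inr (.inl bc)), true) => (1, bc.1, false)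
  | (.inr (.inr (.inr bc)), false) => (0, bc.1, bc.2)
  | (.inr (.inr (.inr bc)), true) => (2, bc.1, bc.2)

/-- the position of a vertex -/
noncomputable def vx (ξ h ζ : ℝ) (v : Fin 3 × Bool × Bool) : ℂ :=
  sy v.2.1 v.2.2 (![⟨ξ, h⟩, ⟨ζ, 0⟩, ⟨LL, ηη⟩] v.1)

theorem cl_norm : ∀ e, (cl e).1 = 1 → (cl e).2.2 = false := by decide

section

variable {A E B : ℝ → ℂ} {ξ h ζ : ℝ} (P : Pos A E B ξ h ζ)
include P

theorem endPt_eq (e : Ix × Bool) : endPt (nt A E B ζ) e = vx ξ h ζ (cl e) := by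
  rcases e with ⟨_ | c | ⟨b, c⟩ | ⟨b, c⟩, _ | _⟩ <;> apply Complex.ext <;>
    simp [endPt, nt, cl, vx, sy, P.A0, P.A1, P.E0, P.E1, P.B0, P.B1]
  ring

theorem vx_inj (v w : Fin 3 × Bool × Bool) (hv : v.1 = 1 → v.2.2 = false)
    (hw : w.1 = 1 → w.2.2 = false) (e : vx ξ h ζ v = vx ξ h ζ w) : v = w := by
  obtain ⟨i, b, c⟩ := v
  obtain ⟨j, b', c'⟩ := w
  have h0 := P.h0
  have hξ := P.ξ0
  have hξ1 := P.ξ1
  have hζ := P.ζ0
  have hL := LL_ge
  have hη := eta_pos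
  simp only [vx] at e hv hw
  obtain ⟨h1, h2⟩ := sy_abs e
  fin_cases i <;> fin_cases j <;>
    simp only [Fin.zero_eta, Fin.mk_one, Fin.reduceFinMk, Matrix.cons_val_zero, Matrix.cons_val_one,
      Matrix.cons_val, abs_of_pos h0, abs_of_pos hξ, abs_of_pos hζ, abs_of_pos hη,
      abs_of_pos (show 0 < LL by linarith), abs_zero, forall_const] at e h1 h2 hv hw
  · rw [sy_b e hξ hξ, sy_c e h0 h0]
  · exact absurd h2 (by linarith)
  · exact absurd h1 (by linarith)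
  · exact absurd h2 (by linarith)
  · rw [sy_b e hζ hζ, hv, hw]
  · exact absurd h2 (by linarith)
  · exact absurd h1 (by linarith)
  · exact absurd h2 (by linarith)
  · rw [sy_b e (show 0 < LL by linarith) (show 0 < LL by linarith), sy_c e hη hη]

theorem endPt_iff (e e' : Ix × Bool) :
    endPt (nt A E B ζ) e' = endPt (nt A E B ζ) e ↔ cl e' = cl e := by
  rw [endPt_eq P, endPt_eq P]
  exact ⟨vx_inj P _ _ (cl_norm e') (cl_norm e), fun h => by rw [h]⟩

end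

theorem tri {σ : Ix → ℝ → ℂ} (hcl : ∀ e e', endPt σ e' = endPt σ e ↔ cl e' = cl e)
    (e e₁ e₂ : Ix × Bool) (hd : e ≠ e₁ ∧ e ≠ e₂ ∧ e₁ ≠ e₂ ∧
      ∀ e', cl e' = cl e ↔ e' = e ∨ e' = e₁ ∨ e' = e₂)
    (hs : endTan σ e + endTan σ e₁ + endTan σ e₂ = 0) :
    IsTripleEnd σ e ∧ IsTripleEnd σ e₁ ∧ IsTripleEnd σ e₂ := by
  obtain ⟨d1, d2, d3, d4⟩ := hd
  have c1 : cl e₁ = cl e := (d4 e₁).2 (Or.inr (Or.inl rfl))
  have c2 : cl e₂ = cl e := (d4 e₂).2 (Or.inr (Or.inr rfl))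
  refine ⟨⟨e₁, e₂, d1, d2, d3, fun e' => by rw [hcl, d4], hs⟩,
    ⟨e, e₂, d1.symm, d3, d2, fun e' => by rw [hcl, c1, d4]; tauto, by linear_combination hs⟩,
    ⟨e, e₁, d2.symm, d3.symm, d1, fun e' => by rw [hcl, c2, d4]; tauto, by linear_combination hs⟩⟩

theorem cl0 (b c : Bool) (e' : Ix × Bool) : cl e' = cl (.inr (.inl c), b) ↔
    e' = (.inr (.inl c), b) ∨ e' = (.inr (.inr (.inl (b, c))), false) ∨
      e' = (.inr (.inr (.inr (b, c))), false) := by
  rcases e' with ⟨_ | c' | ⟨b', c'⟩ | ⟨b', c'⟩, _ | _⟩ <;> simp [cl] <;> tauto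

theorem cl1 (b : Bool) (e' : Ix × Bool) : cl e' = cl (.inl (), !b) ↔
    e' = (.inl (), !b) ∨ e' = (.inr (.inr (.inl (b, false))), true) ∨
      e' = (.inr (.inr (.inl (b, true))), true) := by
  rcases e' with ⟨_ | c' | ⟨b', _ | _⟩ | ⟨b', c'⟩, _ | _⟩ <;> cases b <;> simp [cl]

theorem cl2 (b c : Bool) (e' : Ix × Bool) (h : cl e' = cl (.inr (.inr (.inr (b, c))), true)) :
    e' = (.inr (.inr (.inr (b, c))), true) := by
  revert h
  rcases e' with ⟨_ | c' | ⟨b', c'⟩ | ⟨b', c'⟩, _ | _⟩ <;> simp [cl]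

theorem ee_sum (φ : ℝ) : ee (φ + 2 * π / 3) + ee (φ + 4 * π / 3) + ee φ = 0 := by
  have c1 : cos (2 * π / 3) = -(1 / 2) := by
    rw [show 2 * π / 3 = π - π / 3 by ring, cos_pi_sub, cos_pi_div_three]
  have s1 : sin (2 * π / 3) = √3 / 2 := by
    rw [show 2 * π / 3 = π - π / 3 by ring, sin_pi_sub, sin_pi_div_three]
  have c2 : cos (4 * π / 3) = -(1 / 2) := by
    rw [show 4 * π / 3 = π / 3 + π by ring, cos_add_pi, cos_pi_div_three]
  have s2 : sin (4 * π / 3) = -(√3 / 2) := by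
    rw [show 4 * π / 3 = π / 3 + π by ring, sin_add_pi, sin_pi_div_three]
  apply Complex.ext
  · simp only [ee, Complex.add_re, Complex.zero_re, cos_add, c1, s1, c2, s2]
    ring
  · simp only [ee, Complex.add_im, Complex.zero_im, sin_add, c1, s1, c2, s2]
    ring

theorem ee_sy (b c : Bool) (φ : ℝ) :
    ee (if b then (if c then π + φ else π - φ) else (if c then -φ else φ)) = sy b c (ee φ) := by
  cases b <;> cases c <;> apply Complex.ext <;> simp [ee, sy, cos_add, sin_add]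

end NETAAux

open NETAAux

theorem neta : S_LOC → S_NETA := by
  intro hL D t ht
  have P := pos_of D ht (hL D t ht)
  have hn : ∀ i x, D.net i t x = nt (D.X 0 t) (D.X 1 t) (D.X 2 t) (D.ζ t) i x := fun i x =>
    congrFun (congrFun (slice_eq D t) i) x
  have hc : ∀ i, ContinuousOn (D.X i t) (Icc 0 1) := fun i p hp =>
    ((D.mc i).Xp t ht p hp).continuousWithinAt
  refine ⟨fun i x hx => ?_, ?_, fun i j x hx y hy e => ?_, ?_⟩
  · rw [hn]
    exact mem_ball_of (sq_lt P i (Ioo_subset_Icc_self hx) (Or.inr hx))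
  · rw [slice_eq]
    intro z hz
    obtain ⟨i, p, hp, rfl⟩ := mem_iUnion.1 hz
    exact mem_closure_of (sq_le P i hp)
  · rw [hn, hn] at e
    exact emb P i j hx hy e
  · rw [slice_eq]
    exact conn P (hc 0) (hc 1) (hc 2)

theorem netb : S_MC → S_LOC → S_NETB := by
  intro hM hL D t ht
  have P := pos_of D ht (hL D t ht)
  have hcl : ∀ e e', endPt (slice D.net t) e' = endPt (slice D.net t) e ↔ cl e' = cl e := by
    rw [slice_eq]
    exact endPt_iff P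
  have hu : ∀ i, ∀ p ∈ Icc (0 : ℝ) 1, unitTan (slice D.net t i) p = ee (D.ang i t p) := by
    intro i p hp
    obtain ⟨κ, lam, hmc⟩ := hM.net D i
    exact (hM.vel _ _ _ _ _ _ _ hmc t ht p hp).2.2
  have h0 : ∀ i, endTan (slice D.net t) (i, false) = ee (D.ang i t 0) := fun i => by
    simp only [endTan, Bool.false_eq_true, if_false]
    exact hu i 0 Pos.z01
  have h1 : ∀ i, endTan (slice D.net t) (i, true) = -ee (D.ang i t 1) := fun i => by
    simp only [endTan, if_true]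
    rw [hu i 1 Pos.o01]
  have hA : ∀ b c : Bool, endTan (slice D.net t) (.inr (.inl c), b)
      = sy b c (ee (D.φ 2 t 0 + 2 * π / 3)) := by
    intro b c
    rw [← D.ang0 t ht]
    cases b
    · rw [h0, ← ee_sy]
      rfl
    · rw [h1]
      cases c <;> apply Complex.ext <;> simp [FD.ang, ee, sy, D.ang0' t ht]
  have V0 : ∀ b c : Bool, IsTripleEnd (slice D.net t) (.inr (.inl c), b) ∧
      IsTripleEnd (slice D.net t) (.inr (.inr (.inl (b, c))), false) ∧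
      IsTripleEnd (slice D.net t) (.inr (.inr (.inr (b, c))), false) := by
    intro b c
    refine tri hcl _ _ _ ⟨by simp, by simp, by simp, cl0 b c⟩ ?_
    rw [hA, h0, h0]
    simp only [FD.ang]
    rw [ee_sy, ee_sy, D.ang1 t ht, ← sy_add, ← sy_add, ee_sum, sy_zero]
  have V1 : ∀ b : Bool, IsTripleEnd (slice D.net t) (.inl (), !b) ∧
      IsTripleEnd (slice D.net t) (.inr (.inr (.inl (b, false))), true) ∧
      IsTripleEnd (slice D.net t) (.inr (.inr (.inl (b, true))), true) := by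
    intro b
    refine tri hcl _ _ _ ⟨by simp, by simp, by simp, cl1 b⟩ ?_
    have c2 : cos (4 * π / 3) = -(1 / 2) := by
      rw [show 4 * π / 3 = π / 3 + π by ring, cos_add_pi, cos_pi_div_three]
    have hE : ∀ c : Bool, ee (D.ang (.inr (.inr (.inl (b, c)))) t 1)
        = sy b c (ee (4 * π / 3)) := fun c => by
      rw [← D.ang1' t ht, ← ee_sy]
      rfl
    rw [h1, h1, hE, hE]
    cases b
    · rw [Bool.not_false, h1]
      apply Complex.ext <;> simp [FD.ang, ee, sy, c2]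
      norm_num
    · rw [Bool.not_true, h0]
      apply Complex.ext <;> simp [FD.ang, ee, sy, c2]
      norm_num
  rintro ⟨u | c | ⟨b, c⟩ | ⟨b, c⟩, s⟩
  · right
    have := (V1 (!s)).1
    rwa [Bool.not_not] at this
  · exact Or.inr (V0 s c).1
  · right
    cases s
    · exact (V0 b c).2.1
    · cases c
      · exact (V1 b).2.1
      · exact (V1 b).2.2
  · cases s
    · exact Or.inr (V0 b c).2.2
    · refine Or.inl ⟨⟨_, rfl⟩, ?_, fun e' he' => ?_⟩
      · rw [frontier_ball _ RR_pos.ne', mem_sphere_zero_iff_norm, slice_eq, endPt_eq P,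
          Complex.norm_eq_sqrt_sq_add_sq, vx, sq_sy]
        rfl
      · rw [hcl] at he'
        exact cl2 b c e' he'

end Pool.Agent.P.MP_cf7202_gt
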