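import Pool.Agent.P.MP_cf7202_gt.DefGeo

/-! Numerical facts, the minimum principle on a star, and the interpolation inequality. -/

namespace Pool.Agent.P.MP_cf7202_gt

open Set Filter Topology Function Real
open scoped ContDiff

namespace NUMMPAux

theorem sqrt3_bounds : (1.732 : ℝ) < √3 ∧ √3 < 1.7321 := by
  constructor
  · exact Real.lt_sqrt_of_sq_lt (by norm_num)
  · exact (Real.sqrt_lt' (by norm_num)).2 (by norm_num)

theorem TT_bounds : 0.58 ≤ 2 * TT ∧ 2 * TT ≤ 0.59 := by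
  obtain ⟨h1, h2⟩ := sqrt3_bounds
  have hp1 := Real.pi_gt_d4
  have hp2 := Real.pi_lt_d4
  have hp : 0 < π := Real.pi_pos
  have h3 : 0 ≤ ηη ^ 2 / (2 * √3) := by positivity
  have h4 : ηη ^ 2 / (2 * √3) ≤ 1 / 10 ^ 8 := by
    rw [div_le_iff₀ (by positivity)]
    unfold ηη
    nlinarith
  have h5 : 0 ≤ √3 / 2 * ηη := by unfold ηη; positivity
  have h6 : √3 / 2 * ηη ≤ 1 / 10 ^ 8 := by unfold ηη; nlinarith
  have key : 2 * TT = (π - 6 * (√3 / 8 - √3 / 2 * ηη + ηη ^ 2 / (2 * √3))) / π := by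
    unfold TT
    generalize ηη ^ 2 / (2 * √3) = w
    field_simp
    ring
  rw [key]
  constructor
  · rw [le_div_iff₀ hp]
    nlinarith
  · rw [div_le_iff₀ hp]
    nlinarith

/-- sign of the derivative at a one-sided minimum (right side) -/
theorem der_nonneg {f : ℝ → ℝ} {d p q : ℝ} {S : Set ℝ} (hf : HasDerivWithinAt f d S p)
    (hpq : p < q) (hS : Icc p q ⊆ S) (hmin : ∀ x ∈ Icc p q, f p ≤ f x) : 0 ≤ d := by
  have h1 : HasDerivWithinAt f d (Ioc p q) p := hf.mono (Ioc_subset_Icc_self.trans hS)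
  have h2 := (hasDerivWithinAt_iff_tendsto_slope' (s := Ioc p q) (by simp)).1 h1
  have : (𝓝[Ioc p q] p).NeBot := by
    rw [nhdsWithin_Ioc_eq_nhdsGT hpq]; infer_instance
  refine ge_of_tendsto h2 ?_
  filter_upwards [self_mem_nhdsWithin] with x hx
  rw [slope_def_field]
  exact div_nonneg (sub_nonneg.2 (hmin x ⟨hx.1.le, hx.2⟩)) (sub_nonneg.2 hx.1.le)

/-- sign of the derivative at a one-sided minimum (left side) -/
theorem der_nonpos {f : ℝ → ℝ} {d p q : ℝ} {S : Set ℝ} (hf : HasDerivWithinAt f d S p)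
    (hpq : q < p) (hS : Icc q p ⊆ S) (hmin : ∀ x ∈ Icc q p, f p ≤ f x) : d ≤ 0 := by
  have h1 : HasDerivWithinAt f d (Ico q p) p := hf.mono (Ico_subset_Icc_self.trans hS)
  have h2 := (hasDerivWithinAt_iff_tendsto_slope' (s := Ico q p) (by simp)).1 h1
  have : (𝓝[Ico q p] p).NeBot := by
    rw [nhdsWithin_Ico_eq_nhdsLT hpq]; infer_instance
  refine le_of_tendsto h2 ?_
  filter_upwards [self_mem_nhdsWithin] with x hx
  rw [slope_def_field]
  exact div_nonpos_of_nonneg_of_nonpos (sub_nonneg.2 (hmin x ⟨hx.1, hx.2.le⟩))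
    (sub_nonpos.2 hx.2.le)

/-- second order condition at a minimum on `[0,1]` where the first derivative vanishes -/
theorem second_nonneg {f f1 m : ℝ → ℝ} {d p : ℝ} (hp : p ∈ Icc (0 : ℝ) 1)
    (hm : ∀ x ∈ Icc (0 : ℝ) 1, 0 < m x)
    (hf : ∀ x ∈ Icc (0 : ℝ) 1, HasDerivWithinAt f (m x * f1 x) (Icc 0 1) x)
    (hf1 : HasDerivWithinAt f1 d (Icc 0 1) p) (h0 : f1 p = 0)
    (hmin : ∀ x ∈ Icc (0 : ℝ) 1, f p ≤ f x) : 0 ≤ d := by
  by_contra hd
  push Not at hd
  have hc : ContinuousOn f (Icc 0 1) := fun x hx => (hf x hx).continuousWithinAt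
  have hin : ∀ x ∈ Ioo (0 : ℝ) 1, HasDerivAt f (m x * f1 x) x := fun x hx =>
    (hf x (Ioo_subset_Icc_self hx)).hasDerivAt (Icc_mem_nhds hx.1 hx.2)
  rcases lt_or_eq_of_le hp.2 with h1 | h1
  · have h2 : HasDerivWithinAt f1 d (Ioc p 1) p :=
      hf1.mono (fun x hx => ⟨hp.1.trans hx.1.le, hx.2⟩)
    have h3 := (hasDerivWithinAt_iff_tendsto_slope' (s := Ioc p 1) (by simp)).1 h2
    rw [nhdsWithin_Ioc_eq_nhdsGT h1] at h3
    have h4 : ∀ᶠ x in 𝓝[>] p, slope f1 p x < 0 := h3.eventually (Iio_mem_nhds hd)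
    obtain ⟨r, hr, hr'⟩ := (mem_nhdsGT_iff_exists_Ioo_subset).1 h4
    have hr0 : p < r := hr
    set b := min r 1 with hb
    have hpb : p < b := lt_min hr0 h1
    have hb1 : b ≤ 1 := min_le_right _ _
    obtain ⟨c, hc1, hc2⟩ := exists_hasDerivAt_eq_slope f (fun x => m x * f1 x) hpb
      (hc.mono (Icc_subset_Icc hp.1 hb1))
      (fun x hx => hin x ⟨hp.1.trans_lt hx.1, hx.2.trans_le hb1⟩)
    have h5 : slope f1 p c < 0 := hr' ⟨hc1.1, hc1.2.trans_le (min_le_left _ _)⟩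
    rw [slope_def_field, h0, sub_zero] at h5
    have h6 : f1 c < 0 := by
      by_contra h
      push Not at h
      exact absurd (div_nonneg h (sub_nonneg.2 hc1.1.le)) (not_le.2 h5)
    have h7 : m c * f1 c < 0 :=
      mul_neg_of_pos_of_neg (hm c ⟨hp.1.trans hc1.1.le, hc1.2.le.trans hb1⟩) h6
    have h8 : 0 ≤ (f b - f p) / (b - p) :=
      div_nonneg (sub_nonneg.2 (hmin b ⟨hp.1.trans hpb.le, hb1⟩)) (sub_nonneg.2 hpb.le)
    linarith
  · subst h1
    have h2 : HasDerivWithinAt f1 d (Ico 0 1) 1 := hf1.mono Ico_subset_Icc_self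
    have h3 := (hasDerivWithinAt_iff_tendsto_slope' (s := Ico (0 : ℝ) 1) (by simp)).1 h2
    rw [nhdsWithin_Ico_eq_nhdsLT zero_lt_one] at h3
    have h4 : ∀ᶠ x in 𝓝[<] (1 : ℝ), slope f1 1 x < 0 := h3.eventually (Iio_mem_nhds hd)
    obtain ⟨r, hr, hr'⟩ := (mem_nhdsLT_iff_exists_Ioo_subset).1 h4
    have hr0 : r < 1 := hr
    set b := max r 0 with hb
    have hpb : b < 1 := max_lt hr0 zero_lt_one
    have hb1 : 0 ≤ b := le_max_right _ _
    obtain ⟨c, hc1, hc2⟩ := exists_hasDerivAt_eq_slope f (fun x => m x * f1 x) hpb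
      (hc.mono (Icc_subset_Icc hb1 le_rfl))
      (fun x hx => hin x ⟨hb1.trans_lt hx.1, hx.2⟩)
    have h5 : slope f1 1 c < 0 := hr' ⟨(le_max_left _ _).trans_lt hc1.1, hc1.2⟩
    rw [slope_def_field, h0, sub_zero] at h5
    have h6 : 0 < f1 c := by
      by_contra h
      push Not at h
      exact absurd (div_nonneg_of_nonpos h (sub_nonpos.2 hc1.2.le)) (not_le.2 h5)
    have h7 : 0 < m c * f1 c := mul_pos (hm c ⟨hb1.trans hc1.1.le, hc1.2.le⟩) h6
    have h8 : (f 1 - f b) / (1 - b) ≤ 0 :=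
      div_nonpos_of_nonpos_of_nonneg (sub_nonpos.2 (hmin b ⟨hb1, hpb.le⟩)) (sub_nonneg.2 hpb.le)
    linarith

/-- the one-sided form of the interpolation inequality -/
theorem core (tk : S_TK) (θ κ ks m : ℝ → ℝ) (A δ : ℝ) (cm : ContinuousOn m (Icc 0 1))
    (cks : ContinuousOn ks (Icc 0 1)) (hm : ∀ p ∈ Icc (0 : ℝ) 1, 0 < m p)
    (hθ : ∀ p ∈ Icc (0 : ℝ) 1, HasDerivWithinAt θ (m p * κ p) (Icc 0 1) p)
    (hκ : ∀ p ∈ Icc (0 : ℝ) 1, HasDerivWithinAt κ (m p * ks p) (Icc 0 1) p)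
    (hδ : 0 < δ) (hδ1 : δ ≤ ∫ q in (0 : ℝ)..1, m q) (hA0 : 0 ≤ A)
    (hA : ∀ p ∈ Icc (0 : ℝ) 1, ∫ q in (0 : ℝ)..p, m q ≤ δ → θ p - θ 0 ≤ A) (hk : 0 < κ 0) :
    κ 0 ^ 3 ≤ 8 * A * (∫ q in (0 : ℝ)..1, ks q ^ 2 * m q) + 8 * A ^ 3 / δ ^ 3 := by
  set k := κ 0 with hkdef
  set J := ∫ q in (0 : ℝ)..1, ks q ^ 2 * m q with hJ
  have cκ : ContinuousOn κ (Icc 0 1) := fun x hx => (hκ x hx).continuousWithinAt
  have hint : ∀ {g : ℝ → ℝ}, ContinuousOn g (Icc 0 1) → ∀ a ∈ Icc (0 : ℝ) 1, ∀ b ∈ Icc (0 : ℝ) 1,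
      IntervalIntegrable g MeasureTheory.volume a b := by
    intro g hg a ha b hb
    exact (hg.mono (uIcc_subset_Icc ha hb)).intervalIntegrable
  have h0 : (0 : ℝ) ∈ Icc (0 : ℝ) 1 := ⟨le_rfl, zero_le_one⟩
  have h1 : (1 : ℝ) ∈ Icc (0 : ℝ) 1 := ⟨zero_le_one, le_rfl⟩
  have mono : ∀ {g : ℝ → ℝ}, ContinuousOn g (Icc 0 1) → (∀ x ∈ Icc (0 : ℝ) 1, 0 ≤ g x) →
      ∀ a ∈ Icc (0 : ℝ) 1, ∀ b ∈ Icc (0 : ℝ) 1, a ≤ b →
      ∫ q in (0 : ℝ)..a, g q ≤ ∫ q in (0 : ℝ)..b, g q := by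
    intro g hg hg0 a ha b hb hab
    have e := intervalIntegral.integral_add_adjacent_intervals (hint hg 0 h0 a ha) (hint hg a ha b hb)
    have : 0 ≤ ∫ q in a..b, g q :=
      intervalIntegral.integral_nonneg hab (fun x hx => hg0 x ⟨ha.1.trans hx.1, hx.2.trans hb.2⟩)
    linarith
  have cJ : ContinuousOn (fun q => ks q ^ 2 * m q) (Icc 0 1) := (cks.pow 2).mul cm
  have pJ : ∀ x ∈ Icc (0 : ℝ) 1, 0 ≤ ks x ^ 2 * m x := fun x hx =>
    mul_nonneg (sq_nonneg _) (hm x hx).le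
  have hJ0 : 0 ≤ J := intervalIntegral.integral_nonneg zero_le_one pJ
  obtain ⟨s, hs0, hsδ, hsJ, hs⟩ :
      ∃ s, 0 < s ∧ s ≤ δ ∧ J * s ≤ k ^ 2 / 4 ∧ (s = δ ∨ J * s = k ^ 2 / 4) := by
    by_cases h : J * δ ≤ k ^ 2 / 4
    · exact ⟨δ, hδ, le_rfl, h, Or.inl rfl⟩
    · push Not at h
      have hJp : 0 < J := by
        by_contra h'
        have : J = 0 := le_antisymm (not_lt.1 h') hJ0
        rw [this] at h
        nlinarith [sq_nonneg k]
      have e : J * (k ^ 2 / (4 * J)) = k ^ 2 / 4 := by field_simp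
      refine ⟨k ^ 2 / (4 * J), by positivity, ?_, e.le, Or.inr e⟩
      rw [div_le_iff₀ (by positivity)]
      nlinarith
  have cs : ContinuousOn (fun z => ∫ q in (0 : ℝ)..z, m q) (Icc 0 1) := fun x hx =>
    (tk.int_dx m cm x hx).continuousWithinAt
  obtain ⟨p, hp, hps⟩ : ∃ p ∈ Icc (0 : ℝ) 1, ∫ q in (0 : ℝ)..p, m q = s := by
    have := intermediate_value_Icc zero_le_one cs
    exact this ⟨by simpa using hs0.le, hsδ.trans hδ1⟩
  set g := k / (2 * s) with hg
  have hg0 : 0 < g := by positivity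
  have hκlo : ∀ x ∈ Icc (0 : ℝ) p, k / 2 ≤ κ x := by
    intro x hx
    have hx1 : x ∈ Icc (0 : ℝ) 1 := ⟨hx.1, hx.2.trans hp.2⟩
    have e1 := tk.ftc κ (fun q => m q * ks q) (cm.mul cks) hκ x hx1
    have e2 : ∫ q in (0 : ℝ)..x, (-(g / 2) * m q - 1 / (2 * g) * (ks q ^ 2 * m q)) ≤
        ∫ q in (0 : ℝ)..x, m q * ks q := by
      apply intervalIntegral.integral_mono_on hx.1
      · exact hint ((continuousOn_const.mul cm).sub (continuousOn_const.mul cJ)) 0 h0 x hx1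
      · exact hint (cm.mul cks) 0 h0 x hx1
      · intro y hy
        have hy1 : y ∈ Icc (0 : ℝ) 1 := ⟨hy.1, hy.2.trans hx1.2⟩
        have : m y * ks y - (-(g / 2) * m y - 1 / (2 * g) * (ks y ^ 2 * m y)) =
            m y * (ks y + g) ^ 2 / (2 * g) := by
          field_simp
          ring
        have h' : 0 ≤ m y * (ks y + g) ^ 2 / (2 * g) := by
          have := hm y hy1
          positivity
        linarith
    rw [intervalIntegral.integral_sub ((hint cm 0 h0 x hx1).const_mul _)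
      ((hint cJ 0 h0 x hx1).const_mul _), intervalIntegral.integral_const_mul,
      intervalIntegral.integral_const_mul] at e2
    have e3 : ∫ q in (0 : ℝ)..x, m q ≤ s := by
      rw [← hps]
      exact mono cm (fun y hy => (hm y hy).le) x hx1 p hp hx.2
    have e4 : ∫ q in (0 : ℝ)..x, ks q ^ 2 * m q ≤ J := mono cJ pJ x hx1 1 h1 hx1.2
    have e5 : g / 2 * (∫ q in (0 : ℝ)..x, m q) ≤ k / 4 := by
      calc g / 2 * (∫ q in (0 : ℝ)..x, m q) ≤ g / 2 * s :=
            mul_le_mul_of_nonneg_left e3 (by positivity)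
        _ = k / 4 := by rw [hg]; field_simp; ring
    have e6 : 1 / (2 * g) * (∫ q in (0 : ℝ)..x, ks q ^ 2 * m q) ≤ k / 4 := by
      calc 1 / (2 * g) * (∫ q in (0 : ℝ)..x, ks q ^ 2 * m q) ≤ 1 / (2 * g) * J :=
            mul_le_mul_of_nonneg_left e4 (by positivity)
        _ = J * s / k := by rw [hg]; field_simp
        _ ≤ k ^ 2 / 4 / k := div_le_div_of_nonneg_right hsJ hk.le
        _ = k / 4 := by field_simp
    linarith
  have e1 := tk.ftc θ (fun q => m q * κ q) (cm.mul cκ) hθ p hp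
  have e2 : ∫ q in (0 : ℝ)..p, k / 2 * m q ≤ ∫ q in (0 : ℝ)..p, m q * κ q := by
    apply intervalIntegral.integral_mono_on hp.1
    · exact hint (continuousOn_const.mul cm) 0 h0 p hp
    · exact hint (cm.mul cκ) 0 h0 p hp
    · intro y hy
      have := hm y ⟨hy.1, hy.2.trans hp.2⟩
      nlinarith [hκlo y hy]
  rw [intervalIntegral.integral_const_mul, hps] at e2
  have e3 := hA p hp (hps.le.trans hsδ)
  have e4 : k * s ≤ 2 * A := by linarith
  rcases hs with hs | hs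
  · subst hs
    have a1 : k ≤ 2 * A / s := by rw [le_div_iff₀ hs0]; exact e4
    have a2 : k ^ 3 ≤ (2 * A / s) ^ 3 := pow_le_pow_left₀ hk.le a1 3
    have a3 : (2 * A / s) ^ 3 = 8 * A ^ 3 / s ^ 3 := by ring
    have a4 : 0 ≤ 8 * A * J := by positivity
    linarith
  · have a1 : k ^ 3 = 4 * J * (k * s) := by
      have : k ^ 2 = 4 * (J * s) := by linarith
      calc k ^ 3 = k ^ 2 * k := by ring
        _ = 4 * J * (k * s) := by rw [this]; ring
    have a2 : 4 * J * (k * s) ≤ 4 * J * (2 * A) :=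
      mul_le_mul_of_nonneg_left e4 (by positivity)
    have a3 : 0 ≤ 8 * A ^ 3 / δ ^ 3 := by positivity
    linarith

end NUMMPAux

open NUMMPAux

theorem num : S_NUM where
  TT := TT_bounds
  sq := fun t ht => by
    unfold σσ
    exact Real.sq_sqrt (by linarith)
  pos := fun t ht => by
    unfold σσ
    exact Real.sqrt_pos.2 (by linarith)
  le := fun t ht => by
    unfold σσ
    refine Real.sqrt_le_iff.2 ⟨by norm_num, ?_⟩
    have := TT_bounds.2
    nlinarith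
  der := fun t ht => by
    have h1 : HasDerivAt (fun s : ℝ => 2 * (TT - s)) (2 * (-1)) t :=
      ((hasDerivAt_id t).const_sub TT).const_mul 2
    have h2 := h1.sqrt (by linarith)
    have h3 : 0 < √(2 * (TT - t)) := Real.sqrt_pos.2 (by linarith)
    unfold σσ
    convert h2 using 1
    field_simp
  cont := by
    unfold σσ
    fun_prop

theorem mp : S_MP := by
  intro n t₁ C f f1 f2 ft m hc hm hf hf1 hft hpde hj hjs he h0 i₀ t₀ ht₀ p₀ hp₀
  by_contra hneg
  push Not at hneg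
  set K : Set (ℝ × ℝ) := Icc 0 t₁ ×ˢ Icc 0 1 with hK
  have hKc : IsCompact K := isCompact_Icc.prod isCompact_Icc
  have hKn : K.Nonempty := ⟨(t₀, p₀), ht₀, hp₀⟩
  let g : Fin (n + 1) → ℝ × ℝ → ℝ := fun i z => exp (-(C + 1) * z.1) * f i z.1 z.2
  have hgc : ∀ i, ContinuousOn (g i) K := fun i =>
    (Continuous.continuousOn (by fun_prop)).mul (hc i)
  choose z hzK hz using fun i => hKc.exists_isMinOn hKn (hgc i)
  obtain ⟨i, -, hi⟩ := Finset.exists_min_image Finset.univ (fun i => g i (z i))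
    Finset.univ_nonempty
  obtain ⟨t, p, e⟩ : ∃ t p, z i = (t, p) := ⟨_, _, rfl⟩
  have htp : (t, p) ∈ K := e ▸ hzK i
  have ht : t ∈ Icc 0 t₁ := htp.1
  have hp : p ∈ Icc (0 : ℝ) 1 := htp.2
  have hmin : ∀ j, ∀ s ∈ Icc 0 t₁, ∀ q ∈ Icc (0 : ℝ) 1,
      exp (-(C + 1) * t) * f i t p ≤ exp (-(C + 1) * s) * f j s q := by
    intro j s hs q hq
    have a1 : g i (z i) ≤ g j (z j) := hi j (Finset.mem_univ _)
    have a2 : g j (z j) ≤ g j (s, q) := hz j (show (s, q) ∈ K from ⟨hs, hq⟩)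
    rw [e] at a1
    exact a1.trans a2
  have hE : 0 < exp (-(C + 1) * t) := exp_pos _
  have hfneg : f i t p < 0 := by
    have a1 := hmin i₀ t₀ ht₀ p₀ hp₀
    have a2 : exp (-(C + 1) * t₀) * f i₀ t₀ p₀ < 0 := mul_neg_of_pos_of_neg (exp_pos _) hneg
    by_contra h
    push Not at h
    have := mul_nonneg hE.le h
    linarith
  have htpos : 0 < t := by
    rcases eq_or_lt_of_le ht.1 with h | h
    · subst h
      exact absurd (h0 i p hp) (not_le.2 hfneg)
    · exact h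
  have ht' : t ∈ Ioc 0 t₁ := ⟨htpos, ht.2⟩
  have hsp : ∀ j, ∀ q ∈ Icc (0 : ℝ) 1, f i t p ≤ f j t q := fun j q hq =>
    le_of_mul_le_mul_left (hmin j t ht q hq) hE
  have i0 : (0 : ℝ) ∈ Icc (0 : ℝ) 1 := ⟨le_rfl, zero_le_one⟩
  have hf10 : f1 i t p = 0 := by
    have hmp := hm i t ht' p hp
    have lo : p < 1 → 0 ≤ f1 i t p := fun h => by
      have := der_nonneg (hf i t ht' p hp) h (Icc_subset_Icc hp.1 le_rfl)
        (fun x hx => hsp i x ⟨hp.1.trans hx.1, hx.2⟩)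
      exact (mul_nonneg_iff_of_pos_left hmp).1 this
    have up : 0 < p → f1 i t p ≤ 0 := fun h => by
      have := der_nonpos (hf i t ht' p hp) h (Icc_subset_Icc le_rfl hp.2)
        (fun x hx => hsp i x ⟨hx.1, hx.2.trans hp.2⟩)
      by_contra h'
      push Not at h'
      exact absurd (mul_pos hmp h') (not_lt.2 this)
    rcases eq_or_lt_of_le hp.1 with h | h
    · subst h
      have a0 : ∀ j, f j t 0 = f i t 0 := fun j => (hj j t ht').trans (hj i t ht').symm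
      have a1 : ∀ j, 0 ≤ f1 j t 0 := fun j => by
        have := der_nonneg (hf j t ht' 0 i0) zero_lt_one subset_rfl
          (fun x hx => (a0 j).le.trans (hsp j x hx))
        exact (mul_nonneg_iff_of_pos_left (hm j t ht' 0 i0)).1 this
      have a2 := hjs t ht' ((a0 0).trans_lt hfneg)
      have a3 : f1 i t 0 ≤ ∑ j, f1 j t 0 :=
        Finset.single_le_sum (f := fun j => f1 j t 0) (fun j _ => a1 j) (Finset.mem_univ i)
      exact le_antisymm (a3.trans a2) (a1 i)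
    · rcases eq_or_lt_of_le hp.2 with h' | h'
      · subst h'
        exact le_antisymm (up h) (he i t ht' hfneg)
      · exact le_antisymm (up h) (lo h')
  have hf2 : 0 ≤ f2 i t p := by
    have := second_nonneg hp (hm i t ht') (hf i t ht') (hf1 i t ht' p hp) hf10 (hsp i)
    exact (mul_nonneg_iff_of_pos_left (hm i t ht' p hp)).1 this
  have hP := hpde i t ht' p hp hfneg hf10 hf2
  have hd : HasDerivAt (fun s => exp (-(C + 1) * s) * f i s p)
      (exp (-(C + 1) * t) * (-(C + 1) * 1) * f i t p + exp (-(C + 1) * t) * ft i t p) t :=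
    (((hasDerivAt_id t).const_mul (-(C + 1))).exp).mul (hft i t ht' p hp)
  have hle := der_nonpos (S := univ) hd.hasDerivWithinAt htpos (subset_univ _)
    (fun s hs => hmin i s ⟨hs.1, hs.2.trans ht.2⟩ p hp)
  have : exp (-(C + 1) * t) * (ft i t p - (C + 1) * f i t p) ≤ 0 := by linarith
  have h2 : 0 < ft i t p - (C + 1) * f i t p := by linarith
  exact absurd (mul_pos hE h2) (not_lt.2 this)

theorem intp : S_TK → S_INT := by
  intro tk θ κ ks m A δ cm cks hm hθ hκ hδ hδ1 hA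
  have i0 : (0 : ℝ) ∈ Icc (0 : ℝ) 1 := ⟨le_rfl, zero_le_one⟩
  have h0 := hA 0 i0 (by simpa using hδ.le)
  have hA0 : 0 ≤ A := h0.1.trans h0.2
  rcases lt_trichotomy (κ 0) 0 with hk | hk | hk
  · have := core tk (fun p => -θ p) (fun p => -κ p) (fun p => -ks p) m A δ cm cks.neg hm
      (fun p hp => by rw [mul_neg]; exact (hθ p hp).fun_neg)
      (fun p hp => by rw [mul_neg]; exact (hκ p hp).fun_neg)
      hδ hδ1 hA0 (fun p hp h => by have := hA p hp h; linarith [this.1, h0.2]) (by linarith)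
    rw [abs_of_neg hk]
    simpa using this
  · rw [hk]
    have hJ0 : 0 ≤ ∫ q in (0 : ℝ)..1, ks q ^ 2 * m q :=
      intervalIntegral.integral_nonneg zero_le_one
        (fun x hx => mul_nonneg (sq_nonneg _) (hm x hx).le)
    simp only [abs_zero, ne_eq, OfNat.ofNat_ne_zero, not_false_eq_true, zero_pow]
    positivity
  · rw [abs_of_pos hk]
    exact core tk θ κ ks m A δ cm cks hm hθ hκ hδ hδ1 hA0
      (fun p hp h => by have := hA p hp h; linarith [this.2, h0.1]) hk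

end Pool.Agent.P.MP_cf7202_gt
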