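import Pool.Agent.P.MP_cf7202_gt.DefFD

/-! Global solutions of the shrinker equation and stability under an integrable error. -/

namespace Pool.Agent.P.MP_cf7202_gt

open Set Filter Topology Function Real
open scoped ContDiff ENNReal NNReal

namespace ODEAux

lemma ee_eq (φ : ℝ) : ee φ = ((cos φ : ℝ) : ℂ) + ((sin φ : ℝ) : ℂ) * Complex.I := by
  apply Complex.ext <;> simp [ee, -Complex.ofReal_cos, -Complex.ofReal_sin]

@[simp] lemma ee_re (φ : ℝ) : (ee φ).re = cos φ := rfl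

@[simp] lemma ee_im (φ : ℝ) : (ee φ).im = sin φ := rfl

lemma norm_ee (φ : ℝ) : ‖ee φ‖ = 1 := by
  have h : ‖ee φ‖ ^ 2 = 1 := by
    rw [Complex.sq_norm, Complex.normSq_apply, ee_re, ee_im]
    nlinarith [sin_sq_add_cos_sq φ]
  nlinarith [norm_nonneg (ee φ)]

lemma contDiff_ee {n : WithTop ℕ∞} : ContDiff ℝ n ee := by
  have h : ee = fun φ => (Complex.ofRealCLM (cos φ)) + (Complex.ofRealCLM (sin φ)) * Complex.I := by
    funext φ
    rw [ee_eq]
    rfl
  rw [h]
  exact (Complex.ofRealCLM.contDiff.comp Real.contDiff_cos).add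
    ((Complex.ofRealCLM.contDiff.comp Real.contDiff_sin).mul contDiff_const)

lemma hasDerivAt_ee (φ : ℝ) : HasDerivAt ee (Complex.I * ee φ) φ := by
  have h : ee = fun φ => ((cos φ : ℝ) : ℂ) + ((sin φ : ℝ) : ℂ) * Complex.I := by
    funext φ
    exact ee_eq φ
  have h1 := (Real.hasDerivAt_cos φ).ofReal_comp
  have h2 := (Real.hasDerivAt_sin φ).ofReal_comp.mul_const Complex.I
  have h3 := h1.add h2
  have h4 : Complex.I * ee φ = ((-sin φ : ℝ) : ℂ) + ((cos φ : ℝ) : ℂ) * Complex.I := by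
    apply Complex.ext <;> simp [-Complex.ofReal_cos, -Complex.ofReal_sin]
  rw [h4, h]
  exact h3

lemma norm_ee_sub (a b : ℝ) : ‖ee a - ee b‖ ≤ 2 * |a - b| := by
  have h1 := Complex.norm_le_abs_re_add_abs_im (ee a - ee b)
  have h2 := Real.abs_cos_sub_cos_le a b
  have h3 := Real.abs_sin_sub_sin_le a b
  simp only [Complex.sub_re, Complex.sub_im, ee_re, ee_im] at h1
  linarith

/-- the vector field, with the angle divided by `M` -/
noncomputable def fld (M : ℝ) (x : ℂ × ℝ) : ℂ × ℝ :=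
  (ee (M * x.2), (x.1.re * sin (M * x.2) - x.1.im * cos (M * x.2)) / M)

lemma contDiff_fld (M : ℝ) : ContDiff ℝ 1 (fld M) := by
  have h0 : ContDiff ℝ 1 (fun x : ℂ × ℝ => M * x.2) := contDiff_const.mul contDiff_snd
  have hre : ContDiff ℝ 1 (fun x : ℂ × ℝ => x.1.re) := Complex.reCLM.contDiff.comp contDiff_fst
  have him : ContDiff ℝ 1 (fun x : ℂ × ℝ => x.1.im) := Complex.imCLM.contDiff.comp contDiff_fst
  exact (contDiff_ee.comp h0).prodMk
    (((hre.mul (Real.contDiff_sin.comp h0)).sub (him.mul (Real.contDiff_cos.comp h0))).div_const M)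

lemma lip_fld (M : ℝ) (x : ℂ × ℝ) (r : ℝ) :
    ∃ K, LipschitzOnWith K (fld M) (Metric.closedBall x r) :=
  LocallyLipschitzOn.exists_lipschitzOnWith_of_compact (isCompact_closedBall x r)
    (contDiff_fld M).locallyLipschitz.locallyLipschitzOn

lemma abs_comb_le (z : ℂ) (φ : ℝ) : |z.re * sin φ - z.im * cos φ| ≤ 2 * ‖z‖ := by
  have h1 := Complex.abs_re_le_norm z
  have h2 := Complex.abs_im_le_norm z
  have h3 : |z.re * sin φ| ≤ |z.re| := by
    rw [abs_mul]
    exact mul_le_of_le_one_right (abs_nonneg _) (abs_sin_le_one φ)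
  have h4 : |z.im * cos φ| ≤ |z.im| := by
    rw [abs_mul]
    exact mul_le_of_le_one_right (abs_nonneg _) (abs_cos_le_one φ)
  have h5 := abs_sub (z.re * sin φ) (z.im * cos φ)
  linarith

/-- solutions on `[-n,n]` -/
lemma loc (x₀ : ℂ × ℝ) (n : ℕ) : ∃ α : ℝ → ℂ × ℝ, α 0 = x₀ ∧
    ∀ t ∈ Icc (-(n : ℝ)) n, HasDerivWithinAt α (fld 1 (α t)) (Icc (-(n : ℝ)) n) t := by
  set M : ℝ := 2 * (‖x₀.1‖ + n) + 1 with hM
  have hn : (0 : ℝ) ≤ n := Nat.cast_nonneg n
  have hMpos : 0 < M := by positivity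
  set y₀ : ℂ × ℝ := (x₀.1, x₀.2 / M) with hy₀
  obtain ⟨K, hK⟩ := lip_fld M y₀ n
  have h0 : (0 : ℝ) ∈ Icc (-(n : ℝ)) n := ⟨by linarith, hn⟩
  have hb : ∀ x ∈ Metric.closedBall y₀ ((n : ℝ≥0) : ℝ), ‖fld M x‖ ≤ ((1 : ℝ≥0) : ℝ) := by
    intro x hx
    have hx1 : ‖x.1 - x₀.1‖ ≤ n := by
      have h1 : ‖x - y₀‖ ≤ n := by simpa [dist_eq_norm] using hx
      exact (norm_fst_le (x - y₀)).trans h1
    have hx2 : ‖x.1‖ ≤ ‖x₀.1‖ + n := by
      have := norm_sub_norm_le x.1 x₀.1
      linarith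
    rw [Prod.norm_def]
    refine max_le (by simp [fld, norm_ee]) ?_
    have h3 := abs_comb_le x.1 (M * x.2)
    simp only [fld, Real.norm_eq_abs, NNReal.coe_one]
    rw [abs_div, abs_of_pos hMpos, div_le_one hMpos]
    linarith
  have hpl : IsPicardLindelof (fun _ => fld M) (⟨0, h0⟩ : Icc (-(n : ℝ)) n) y₀ n 0 1 K :=
    IsPicardLindelof.of_time_independent hb (by simpa using hK) (by simp)
  obtain ⟨β, hβ0, hβ⟩ := hpl.exists_eq_forall_mem_Icc_hasDerivWithinAt₀
  refine ⟨fun t => ((β t).1, M * (β t).2), ?_, fun t ht => ?_⟩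
  · have h1 : β 0 = y₀ := hβ0
    simp only [h1, hy₀]
    rw [mul_div_cancel₀ _ hMpos.ne']
  · have h1 := hβ t ht
    have h2 := (hasFDerivWithinAt_fst (𝕜 := ℝ) (s := univ) (p := β t)).comp_hasDerivWithinAt t h1
      (fun _ _ => mem_univ _)
    have h3 := (hasFDerivWithinAt_snd (𝕜 := ℝ) (s := univ) (p := β t)).comp_hasDerivWithinAt t h1
      (fun _ _ => mem_univ _)
    have h4 := h2.prodMk (h3.const_mul M)
    have h5 : fld 1 ((β t).1, M * (β t).2)
        = ((ContinuousLinearMap.fst ℝ ℂ ℝ) (fld M (β t)),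
          M * (ContinuousLinearMap.snd ℝ ℂ ℝ) (fld M (β t))) := by
      simp only [fld, one_mul, div_one, ContinuousLinearMap.coe_fst', ContinuousLinearMap.coe_snd']
      rw [mul_div_cancel₀ _ hMpos.ne']
    rw [h5]
    exact h4

lemma uniq {α β : ℝ → ℂ × ℝ} {a b : ℝ} (ha : 0 < a) (hab : a ≤ b) (h0 : α 0 = β 0)
    (hα : ∀ t ∈ Icc (-a) a, HasDerivWithinAt α (fld 1 (α t)) (Icc (-a) a) t)
    (hβ : ∀ t ∈ Icc (-b) b, HasDerivWithinAt β (fld 1 (β t)) (Icc (-b) b) t) :
    EqOn α β (Ioo (-a) a) := by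
  have hsub : Icc (-a) a ⊆ Icc (-b) b := Icc_subset_Icc (by linarith) hab
  have cα : ContinuousOn α (Icc (-a) a) := fun t ht => (hα t ht).continuousWithinAt
  have cβ : ContinuousOn β (Icc (-b) b) := fun t ht => (hβ t ht).continuousWithinAt
  obtain ⟨A, hA⟩ := isCompact_Icc.exists_bound_of_continuousOn cα
  obtain ⟨B, hB⟩ := isCompact_Icc.exists_bound_of_continuousOn cβ
  obtain ⟨K, hK⟩ := lip_fld 1 0 (max A B)
  refine ODE_solution_unique_of_mem_Ioo (v := fun _ => fld 1)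
    (s := fun _ => Metric.closedBall 0 (max A B)) (K := K) (t₀ := 0) (fun _ _ => hK)
    ⟨by linarith, ha⟩ (fun t ht => ⟨?_, ?_⟩) (fun t ht => ⟨?_, ?_⟩) h0
  · exact (hα t (Ioo_subset_Icc_self ht)).hasDerivAt (Icc_mem_nhds ht.1 ht.2)
  · rw [mem_closedBall_zero_iff]
    exact (hA t (Ioo_subset_Icc_self ht)).trans (le_max_left _ _)
  · exact (hβ t (hsub (Ioo_subset_Icc_self ht))).hasDerivAt
      (Icc_mem_nhds (by linarith [ht.1]) (by linarith [ht.2]))
  · rw [mem_closedBall_zero_iff]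
    exact (hB t (hsub (Ioo_subset_Icc_self ht))).trans (le_max_right _ _)

lemma glob (x₀ : ℂ × ℝ) : ∃ α : ℝ → ℂ × ℝ, α 0 = x₀ ∧ ∀ t, HasDerivAt α (fld 1 (α t)) t := by
  choose α h0 hα using loc x₀
  have key : ∀ (n m : ℕ) (t : ℝ), |t| < n → |t| < m → α n t = α m t := by
    intro n m t hn hm
    have hn0 : (0 : ℝ) < n := lt_of_le_of_lt (abs_nonneg t) hn
    have hm0 : (0 : ℝ) < m := lt_of_le_of_lt (abs_nonneg t) hm
    rcases le_total n m with h | h
    · exact uniq hn0 (by exact_mod_cast h) (by rw [h0, h0]) (hα n) (hα m) (abs_lt.1 hn)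
    · exact (uniq hm0 (by exact_mod_cast h) (by rw [h0, h0]) (hα m) (hα n) (abs_lt.1 hm)).symm
  have hN : ∀ t : ℝ, |t| < ((⌊|t|⌋₊ + 1 : ℕ) : ℝ) := fun t => by
    push_cast
    exact Nat.lt_floor_add_one _
  refine ⟨fun t => α (⌊|t|⌋₊ + 1) t, h0 _, fun t => ?_⟩
  have ht := abs_lt.1 (hN t)
  have h1 := (hα (⌊|t|⌋₊ + 1) t ⟨ht.1.le, ht.2.le⟩).hasDerivAt (Icc_mem_nhds ht.1 ht.2)
  refine h1.congr_of_eventuallyEq ?_
  filter_upwards [Ioo_mem_nhds ht.1 ht.2] with s hs
  exact key _ _ s (hN s) (abs_lt.2 hs)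

end ODEAux

open ODEAux

theorem ode : S_ODE := by
  intro z₀ φ₀
  obtain ⟨α, h0, hα⟩ := glob (z₀, φ₀)
  have hc : ∀ s, HasDerivAt (fun t => (α t).1) (ee (α s).2) s := fun s => by
    have h := (hasFDerivAt_fst (𝕜 := ℝ) (p := α s)).comp_hasDerivAt s (hα s)
    have h1 : (ContinuousLinearMap.fst ℝ ℂ ℝ) (fld 1 (α s)) = ee (α s).2 := by simp [fld]
    rw [h1] at h
    exact h
  have hΦ : ∀ s, HasDerivAt (fun t => (α t).2)
      ((α s).1.re * sin (α s).2 - (α s).1.im * cos (α s).2) s := fun s => by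
    have h := (hasFDerivAt_snd (𝕜 := ℝ) (p := α s)).comp_hasDerivAt s (hα s)
    have h1 : (ContinuousLinearMap.snd ℝ ℂ ℝ) (fld 1 (α s))
        = (α s).1.re * sin (α s).2 - (α s).1.im * cos (α s).2 := by simp [fld]
    rw [h1] at h
    exact h
  refine ⟨fun t => (α t).1, fun t => (α t).2, by simp [h0], by simp [h0], hc, hΦ, ?_⟩
  have hd : deriv (fun t => (α t).1) = fun s => ee (α s).2 := funext fun s => (hc s).deriv
  have hcc : Continuous fun t => (α t).1 := continuous_iff_continuousAt.2 fun s =>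
    (hc s).continuousAt
  have hΦc : Continuous fun t => (α t).2 := continuous_iff_continuousAt.2 fun s =>
    (hΦ s).continuousAt
  have hΦ1 : ContDiff ℝ 1 fun t => (α t).2 := by
    rw [contDiff_one_iff_deriv]
    refine ⟨fun s => (hΦ s).differentiableAt, ?_⟩
    have h1 : deriv (fun t => (α t).2)
        = fun s => (α s).1.re * sin (α s).2 - (α s).1.im * cos (α s).2 :=
      funext fun s => (hΦ s).deriv
    rw [h1]
    exact ((Complex.continuous_re.comp hcc).mul (Real.continuous_sin.comp hΦc)).sub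
      ((Complex.continuous_im.comp hcc).mul (Real.continuous_cos.comp hΦc))
  refine ⟨?_, fun s => ⟨?_, ?_⟩⟩
  · have h2 : (2 : WithTop ℕ∞) = 1 + 1 := by norm_num
    rw [h2, contDiff_succ_iff_deriv]
    refine ⟨fun s => (hc s).differentiableAt, by simp, ?_⟩
    rw [hd]
    exact contDiff_ee.comp hΦ1
  · rw [hd]
    exact norm_ee _
  · rw [hd]
    have h3 := (hasDerivAt_ee (α s).2).scomp s (hΦ s)
    have h4 : deriv (fun s => ee (α s).2) s
        = ((α s).1.re * sin (α s).2 - (α s).1.im * cos (α s).2) • (Complex.I * ee (α s).2) :=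
      h3.deriv
    rw [h4]
    have h5 := sin_sq_add_cos_sq (α s).2
    apply Complex.ext
    · simp [nor, Complex.inner, -Complex.ofReal_cos, -Complex.ofReal_sin]
      linear_combination (-(α s).1.re) * h5
    · simp [nor, Complex.inner, -Complex.ofReal_cos, -Complex.ofReal_sin]
      linear_combination (-(α s).1.im) * h5

theorem gr : S_TK → S_GR := by
  intro tk c Φ hc hΦ S ε hε
  set C : ℝ := ‖c 0‖ + |S| with hC
  have hC0 : 0 ≤ C := by positivity
  set K : ℝ := 5 + 8 * C with hK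
  have hK0 : 0 < K := by positivity
  set δ : ℝ := ε / (2 * exp (K * S)) with hδ
  have hδ0 : 0 < δ := by positivity
  refine ⟨δ, hδ0, ?_⟩
  intro Y φ m k cm ck mpos hY hφ hS hY0 hφ0 herr
  have cY : ContinuousOn Y (Icc 0 1) := fun p hp => (hY p hp).continuousWithinAt
  have cφ : ContinuousOn φ (Icc 0 1) := fun p hp => (hφ p hp).continuousWithinAt
  set g : ℝ → ℝ := fun q => (k q + ((Y q).im * cos (φ q) - (Y q).re * sin (φ q))) * m q with hg
  have cg0 : ContinuousOn
      (fun q => k q + ((Y q).im * cos (φ q) - (Y q).re * sin (φ q))) (Icc 0 1) :=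
    ck.add (((Complex.continuous_im.comp_continuousOn cY).mul
      (Real.continuous_cos.comp_continuousOn cφ)).sub
      ((Complex.continuous_re.comp_continuousOn cY).mul
      (Real.continuous_sin.comp_continuousOn cφ)))
  have cg : ContinuousOn g (Icc 0 1) := cg0.mul cm
  set s : ℝ → ℝ := fun p => ∫ q in (0 : ℝ)..p, m q with hs
  set e : ℝ → ℝ := fun p => ∫ q in (0 : ℝ)..p, g q with he
  have ds : ∀ p ∈ Icc (0 : ℝ) 1, HasDerivWithinAt s (m p) (Icc 0 1) p := tk.int_dx m cm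
  have de : ∀ p ∈ Icc (0 : ℝ) 1, HasDerivWithinAt e (g p) (Icc 0 1) p := tk.int_dx g cg
  have mono : ∀ (f : ℝ → ℝ), ContinuousOn f (Icc 0 1) → (∀ q ∈ Icc (0 : ℝ) 1, 0 ≤ f q) →
      ∀ p ∈ Icc (0 : ℝ) 1, ∫ q in (0 : ℝ)..p, f q ≤ ∫ q in (0 : ℝ)..1, f q := by
    intro f cf hf p hp
    refine intervalIntegral.integral_mono_interval le_rfl hp.1 hp.2 ?_
      (cf.intervalIntegrable_of_Icc zero_le_one)
    filter_upwards [MeasureTheory.ae_restrict_mem measurableSet_Ioc] with q hq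
    exact hf q (Ioc_subset_Icc_self hq)
  have s0 : ∀ p ∈ Icc (0 : ℝ) 1, 0 ≤ s p := fun p hp =>
    intervalIntegral.integral_nonneg hp.1 fun q hq => (mpos q ⟨hq.1, hq.2.trans hp.2⟩).le
  have sS : ∀ p ∈ Icc (0 : ℝ) 1, s p ≤ S := fun p hp =>
    (mono m cm (fun q hq => (mpos q hq).le) p hp).trans hS
  have eδ : ∀ p ∈ Icc (0 : ℝ) 1, |e p| ≤ δ := by
    intro p hp
    have h1 : |e p| ≤ ∫ q in (0 : ℝ)..p, |g q| :=
      intervalIntegral.abs_integral_le_integral_abs hp.1
    have h2 := mono (fun q => |g q|) cg.abs (fun q _ => abs_nonneg _) p hp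
    have h3 : ∫ q in (0 : ℝ)..1, |g q| = ∫ q in (0 : ℝ)..1,
        |k q + ((Y q).im * cos (φ q) - (Y q).re * sin (φ q))| * m q := by
      refine intervalIntegral.integral_congr fun q hq => ?_
      rw [uIcc_of_le zero_le_one] at hq
      simp only [hg]
      rw [abs_mul, abs_of_pos (mpos q hq)]
    linarith
  have cb : ∀ x : ℝ, ‖c x‖ ≤ ‖c 0‖ + |x| := by
    intro x
    have h1 : ‖c x - c 0‖ ≤ 1 * ‖x - 0‖ :=
      Convex.norm_image_sub_le_of_norm_hasDerivWithin_le (f' := fun x => ee (Φ x)) (s := univ)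
        (fun y _ => (hc y).hasDerivWithinAt) (fun y _ => (norm_ee _).le) convex_univ
        (mem_univ _) (mem_univ _)
    have h2 := norm_sub_norm_le (c x) (c 0)
    simp only [sub_zero, Real.norm_eq_abs, one_mul] at h1
    linarith
  have cb' : ∀ p ∈ Icc (0 : ℝ) 1, ‖c (s p)‖ ≤ C := fun p hp => by
    have h1 := cb (s p)
    rw [abs_of_nonneg (s0 p hp)] at h1
    have h2 := sS p hp
    have h3 := le_abs_self S
    linarith
  set f : ℝ → ℂ × ℝ := fun p => (Y p - c (s p), φ p - Φ (s p) - e p) with hf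
  set f' : ℝ → ℂ × ℝ := fun p => (m p • ee (φ p) - m p • ee (Φ (s p)),
    m p * k p - ((c (s p)).re * sin (Φ (s p)) - (c (s p)).im * cos (Φ (s p))) * m p - g p)
    with hf'
  have df : ∀ p ∈ Icc (0 : ℝ) 1, HasDerivWithinAt f (f' p) (Icc 0 1) p := by
    intro p hp
    have h1 := (hc (s p)).scomp_hasDerivWithinAt p (ds p hp)
    have h2 := (hΦ (s p)).comp_hasDerivWithinAt p (ds p hp)
    exact ((hY p hp).sub h1).prodMk (((hφ p hp).sub h2).sub (de p hp))
  set B : ℝ → ℝ := fun p => δ * exp (K * s p) with hB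
  have dB : ∀ p ∈ Icc (0 : ℝ) 1,
      HasDerivWithinAt B (δ * (exp (K * s p) * (K * m p))) (Icc 0 1) p := fun p hp =>
    (((ds p hp).const_mul K).exp).const_mul δ
  have Bδ : ∀ p ∈ Icc (0 : ℝ) 1, δ ≤ B p := fun p hp =>
    le_mul_of_one_le_right hδ0.le (one_le_exp (mul_nonneg hK0.le (s0 p hp)))
  have right : ∀ p ∈ Ico (0 : ℝ) 1, Icc (0 : ℝ) 1 ∈ 𝓝[Ici p] p := fun p hp =>
    Icc_mem_nhdsGE_of_mem hp
  have main : ∀ ⦃p⦄, p ∈ Icc (0 : ℝ) 1 → ‖f p‖ ≤ B p := by
    refine image_norm_le_of_norm_deriv_right_lt_deriv_boundary' (f' := f')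
      (B' := fun p => δ * (exp (K * s p) * (K * m p)))
      (fun p hp => (df p hp).continuousWithinAt)
      (fun p hp => (df p (Ico_subset_Icc_self hp)).mono_of_mem_nhdsWithin (right p hp)) ?_
      (fun p hp => (dB p hp).continuousWithinAt)
      (fun p hp => (dB p (Ico_subset_Icc_self hp)).mono_of_mem_nhdsWithin (right p hp)) ?_
    · have h1 : s 0 = 0 := by simp [hs]
      have h2 : e 0 = 0 := by simp [he]
      simp only [hf, hB, h1, h2, sub_zero, mul_zero, exp_zero, mul_one, Prod.norm_def,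
        Real.norm_eq_abs]
      exact max_le hY0 hφ0
    · intro p hp hfB
      have hp' := Ico_subset_Icc_self hp
      have hm := mpos p hp'
      have hb := Bδ p hp'
      have hb0 : 0 < B p := lt_of_lt_of_le hδ0 hb
      have ha : ‖Y p - c (s p)‖ ≤ B p := (norm_fst_le (f p)).trans hfB.le
      have hβ : |φ p - Φ (s p) - e p| ≤ B p := (norm_snd_le (f p)).trans hfB.le
      have hd : |φ p - Φ (s p)| ≤ 2 * B p := by
        have h1 := abs_add_le (φ p - Φ (s p) - e p) (e p)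
        rw [sub_add_cancel] at h1
        linarith [eδ p hp']
      have hmB : 0 < m p * B p := mul_pos hm hb0
      have hrhs : δ * (exp (K * s p) * (K * m p)) = K * (m p * B p) := by
        simp only [hB]
        ring
      rw [hrhs, Prod.norm_def]
      refine max_lt ?_ ?_
      · have h1 : ‖(f' p).1‖ = m p * ‖ee (φ p) - ee (Φ (s p))‖ := by
          simp only [hf']
          rw [← smul_sub, norm_smul, Real.norm_eq_abs, abs_of_pos hm]
        have h2 := norm_ee_sub (φ p) (Φ (s p))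
        have h3 : m p * ‖ee (φ p) - ee (Φ (s p))‖ ≤ m p * (4 * B p) :=
          mul_le_mul_of_nonneg_left (by linarith) hm.le
        have h4 : 0 ≤ C * (m p * B p) := mul_nonneg hC0 hmB.le
        rw [h1, hK]
        nlinarith
      · have h1 : (f' p).2 = m p * (((Y p - c (s p)).re * sin (φ p)
            - (Y p - c (s p)).im * cos (φ p))
            + ((c (s p)).re * (sin (φ p) - sin (Φ (s p)))
            - (c (s p)).im * (cos (φ p) - cos (Φ (s p))))) := by
          simp only [hf', hg, Complex.sub_re, Complex.sub_im]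
          ring
        have h2 := abs_comb_le (Y p - c (s p)) (φ p)
        have h3 : |(c (s p)).re * (sin (φ p) - sin (Φ (s p)))| ≤ C * (2 * B p) := by
          rw [abs_mul]
          exact mul_le_mul ((Complex.abs_re_le_norm _).trans (cb' p hp'))
            ((Real.abs_sin_sub_sin_le _ _).trans hd) (abs_nonneg _) hC0
        have h4 : |(c (s p)).im * (cos (φ p) - cos (Φ (s p)))| ≤ C * (2 * B p) := by
          rw [abs_mul]
          exact mul_le_mul ((Complex.abs_im_le_norm _).trans (cb' p hp'))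
            ((Real.abs_cos_sub_cos_le _ _).trans hd) (abs_nonneg _) hC0
        have h5 := abs_sub ((c (s p)).re * (sin (φ p) - sin (Φ (s p))))
          ((c (s p)).im * (cos (φ p) - cos (Φ (s p))))
        have h6 := abs_add_le ((Y p - c (s p)).re * sin (φ p) - (Y p - c (s p)).im * cos (φ p))
          ((c (s p)).re * (sin (φ p) - sin (Φ (s p)))
            - (c (s p)).im * (cos (φ p) - cos (Φ (s p))))
        have h7 : |(f' p).2| ≤ m p * (2 * B p + 4 * (C * B p)) := by
          rw [h1, abs_mul, abs_of_pos hm]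
          exact mul_le_mul_of_nonneg_left (by nlinarith) hm.le
        have h8 : 0 ≤ C * (m p * B p) := mul_nonneg hC0 hmB.le
        rw [Real.norm_eq_abs, hK]
        nlinarith
  intro p hp
  have hBε : 2 * B p ≤ ε := by
    have h1 : exp (K * s p) ≤ exp (K * S) :=
      exp_le_exp.2 (mul_le_mul_of_nonneg_left (sS p hp) hK0.le)
    have h2 : δ * exp (K * s p) ≤ δ * exp (K * S) := mul_le_mul_of_nonneg_left h1 hδ0.le
    have h3 : δ * exp (K * S) = ε / 2 := by
      rw [hδ]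
      field_simp
    simp only [hB]
    linarith
  have ha : ‖Y p - c (s p)‖ ≤ B p := (norm_fst_le (f p)).trans (main hp)
  have hβ : |φ p - Φ (s p) - e p| ≤ B p := (norm_snd_le (f p)).trans (main hp)
  have hb := Bδ p hp
  have h1 := abs_add_le (φ p - Φ (s p) - e p) (e p)
  rw [sub_add_cancel] at h1
  have h2 := eδ p hp
  exact ⟨by linarith, by linarith⟩

end Pool.Agent.P.MP_cf7202_gt
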