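import Pool.Agent.P.MP_cf7202_gt.DefCon

/-! Meaning of the mode relations, and the trace operators. -/

namespace Pool.Agent.P.MP_cf7202_gt

open Set Filter Topology Function MeasureTheory Real
open scoped ContDiff ENNReal

namespace RELAux

section
variable {E F G : Type} [NormedAddCommGroup E] [NormedSpace ℝ E] [NormedAddCommGroup F]
  [NormedSpace ℝ F] [NormedAddCommGroup G] [NormedSpace ℝ G]

theorem J2_tL (B : E →L[ℝ] F →L[ℝ] G) (a : C(II, E)) (b : C(II, F)) (t : II) :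
    J2 B (tL a) (tL b) t = JJ (tL (cbil B a b)) t := by
  rw [J2_apply, JJ_apply]
  refine integral_congr_ae (ae_restrict_of_ae ?_)
  filter_upwards [tL_coe a, tL_coe b, tL_coe (cbil B a b)] with s h1 h2 h3
  rw [h1, h2, h3, cbil_apply]

theorem Iic_one : (Iic (1 : II)) = univ := eq_univ_of_forall fun s => s.2.2

/-- integration by parts against a primitive -/
theorem ibp [CompleteSpace F] [CompleteSpace G] [SecondCountableTopology F]
    (B : E →L[ℝ] F →L[ℝ] G) (Φ : ℝ → E) (φ φ' : C(II, E)) (hΦ : ∀ t : II, Φ t = φ t)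
    (hd : ∀ t : II, HasDerivAt Φ (φ' t) t) (c : F) (h : L2 F) :
    J2 B (tL φ') (tL (ContinuousMap.const II c + JJ h)) 1 + J2 B (tL φ) h 1 =
      B (φ 1) (c + JJ h 1) - B (φ 0) c := by
  refine tL_dense.induction_on h (isClosed_eq (by fun_prop) (by fun_prop)) fun u => ?_
  set P : C(II, F) := ContinuousMap.const II c + JJ (tL u) with hP
  have hPt : ∀ t, P t = c + JJ (tL u) t := fun t => rfl
  have h1 := ftc_II zero_le_one (fun s => B (Φ s) (c + JJ (tL u) (pj s)))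
    (cbil B φ' P + cbil B φ u) ?_ ?_ 1
  · have e1 : pj (1 : ℝ) = 1 := by simp [pj]
    have e0 : pj (0 : ℝ) = 0 := by simp [pj]
    have e2 : Φ 1 = φ 1 := hΦ 1
    have e3 : Φ 0 = φ 0 := hΦ 0
    simp only [Set.Icc.coe_one, one_mul, e1, e0, e2, e3, JJ_zero, add_zero, one_smul, map_add tL,
      map_add JJ, ContinuousMap.add_apply] at h1
    rw [J2_tL, J2_tL, h1]
    abel
  · have hc : ContinuousOn Φ (Icc 0 1) := fun s hs =>
      (hd ⟨s, hs⟩).continuousAt.continuousWithinAt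
    have hc2 : Continuous fun s : ℝ => c + JJ (tL u) (pj s) :=
      continuous_const.add ((JJ (tL u)).continuous.comp continuous_projIcc)
    exact (B.continuous.comp_continuousOn hc).clm_apply hc2.continuousOn
  · intro t ht
    have h2 := ((JJ_tL_hasDerivWithinAt u t).hasDerivAt (Icc_mem_nhds ht.1 ht.2)).const_add c
    have h3 := (B.hasFDerivAt.comp_hasDerivAt (t : ℝ) (hd t)).clm_apply h2
    have e : pj (t : ℝ) = t := by simp [pj, projIcc_val]
    rw [one_mul]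
    refine HasDerivAt.congr_deriv h3 ?_
    simp only [ContinuousMap.add_apply, cbil_apply, hPt, e, Function.comp_apply, hΦ]

end

/-- the inner product as a bilinear map -/
noncomputable def inn : E3 →L[ℝ] E3 →L[ℝ] ℝ := innerSL ℝ

theorem inn_apply (a b : E3) : inn a b = a 0 * b 0 + a 1 * b 1 + a 2 * b 2 := by
  change inner ℝ a b = _
  simp [PiLp.inner_apply, Fin.sum_univ_three, mul_comm]

theorem inner_eq (f g : HH) : inner ℝ f g = J2 inn f g 1 := by
  rw [J2_apply, Iic_one, Measure.restrict_univ, L2.inner_def]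
  rfl

theorem hasDerivAt_vec {f g k : ℝ → ℝ} {f' g' k' x : ℝ} (hf : HasDerivAt f f' x)
    (hg : HasDerivAt g g' x) (hk : HasDerivAt k k' x) :
    HasDerivAt (fun s => (!₂[f s, g s, k s] : E3)) (!₂[f', g', k'] : E3) x := by
  have h : HasDerivAt (fun s => ![f s, g s, k s]) ![f', g', k'] x := by
    rw [hasDerivAt_pi]
    intro i
    fin_cases i
    · exact hf
    · exact hg
    · exact hk
  exact (EuclideanSpace.equiv (Fin 3) ℝ).symm.hasFDerivAt.comp_hasDerivAt x h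

theorem ibp_e (k : KK) (c : E3) (h : HH) :
    omg k * inner ℝ (tL (etC k)) (tL (prim c h)) + inner ℝ (tL (eC k)) h =
      inn (eC k 1) (prim c h 1) - inn (eC k 0) c := by
  have key : ∃ Φ : ℝ → E3, (∀ t : II, Φ t = eC k t) ∧
      ∀ t : II, HasDerivAt Φ ((omg k • etC k) t) t := by
    rcases k with k | k
    · refine ⟨fun x => !₂[sin (omg (.inl k) * x), -sin (omg (.inl k) * x), 0], fun t => rfl,
        fun t => ?_⟩
      have h1 := ((hasDerivAt_id (t : ℝ)).const_mul (omg (.inl k))).sin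
      refine (hasDerivAt_vec h1 h1.neg (hasDerivAt_const (t : ℝ) (0 : ℝ))).congr_deriv ?_
      ext i
      fin_cases i <;> simp [etC, mul_comm]
    · refine ⟨fun x => !₂[sin (omg (.inr k) * (1 - x)) / √2, sin (omg (.inr k) * (1 - x)) / √2,
        cos (omg (.inr k) * (1 - x))], fun t => rfl, fun t => ?_⟩
      have h1 := ((hasDerivAt_id (t : ℝ)).const_sub 1).const_mul (omg (.inr k))
      refine (hasDerivAt_vec (h1.sin.div_const √2) (h1.sin.div_const √2) h1.cos).congr_deriv ?_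
      ext i
      fin_cases i <;> simp [etC] <;> ring
  obtain ⟨Φ, h1, h2⟩ := key
  have h3 := ibp inn Φ _ _ h1 h2 c h
  rw [← inner_eq, ← inner_eq, map_smul, real_inner_smul_left] at h3
  exact h3

theorem ibp_et (k : KK) (c : E3) (h : HH) :
    -omg k * inner ℝ (tL (eC k)) (tL (prim c h)) + inner ℝ (tL (etC k)) h =
      inn (etC k 1) (prim c h 1) - inn (etC k 0) c := by
  have key : ∃ Φ : ℝ → E3, (∀ t : II, Φ t = etC k t) ∧
      ∀ t : II, HasDerivAt Φ ((-omg k • eC k) t) t := by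
    rcases k with k | k
    · refine ⟨fun x => !₂[cos (omg (.inl k) * x), -cos (omg (.inl k) * x), 0], fun t => rfl,
        fun t => ?_⟩
      have h1 := ((hasDerivAt_id (t : ℝ)).const_mul (omg (.inl k))).cos
      refine (hasDerivAt_vec h1 h1.neg (hasDerivAt_const (t : ℝ) (0 : ℝ))).congr_deriv ?_
      ext i
      fin_cases i <;> simp [eC, mul_comm]
    · refine ⟨fun x => !₂[-cos (omg (.inr k) * (1 - x)) / √2, -cos (omg (.inr k) * (1 - x)) / √2,
        sin (omg (.inr k) * (1 - x))], fun t => rfl, fun t => ?_⟩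
      have h1 := ((hasDerivAt_id (t : ℝ)).const_sub 1).const_mul (omg (.inr k))
      refine (hasDerivAt_vec (h1.cos.neg.div_const √2) (h1.cos.neg.div_const √2)
        h1.sin).congr_deriv ?_
      ext i
      fin_cases i <;> simp [eC] <;> ring
  obtain ⟨Φ, h1, h2⟩ := key
  have h3 := ibp inn Φ _ _ h1 h2 c h
  rw [← inner_eq, ← inner_eq, map_smul, real_inner_smul_left] at h3
  exact h3

theorem inner_z (h : HH) : inner ℝ (tL zC) h = JJ h 1 0 - JJ h 1 1 := by
  have h3 := ibp inn (fun _ => (!₂[1, -1, 0] : E3)) zC 0 (fun _ => rfl)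
    (fun t => hasDerivAt_const _ _) 0 h
  rw [← inner_eq, ← inner_eq, map_zero, inner_zero_left, zero_add, zero_add, map_zero, sub_zero,
    inn_apply] at h3
  rw [h3]
  simp [zC, sub_eq_add_neg]

theorem JJ_const (c : E3) : JJ (tL (ContinuousMap.const II c)) 1 = c := by
  rw [JJ_tL]
  simp

theorem sin_omg (k : ℤ) : sin (omg (.inr k)) = √2 * cos (omg (.inr k)) := by
  have h1 : sin (arctan (√2)) = √2 * cos (arctan (√2)) := by
    have := tan_arctan (√2)
    rw [tan_eq_sin_div_cos, div_eq_iff (cos_arctan_pos _).ne'] at this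
    exact this
  simp only [omg, sin_add_int_mul_pi, cos_add_int_mul_pi, h1]
  ring

theorem omg_ne (k : KK) : omg k ≠ 0 := by
  rcases k with k | k
  · have : (0 : ℝ) < (k + 1) * π := by positivity
    exact this.ne'
  · intro h
    have := sin_omg k
    rw [h, sin_zero, cos_zero, mul_one] at this
    have s2 : (√2 : ℝ) ≠ 0 := by positivity
    exact s2 this.symm

theorem r1 (h1 : HH) (hh : JJ h1 1 0 = JJ h1 1 1) (k : KK) :
    inner ℝ (tL (etC k)) h1 = omg k * inner ℝ (tL (eC k)) (tL (c1 h1)) := by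
  have h := ibp_et k !₂[-(JJ h1 1 0), -(JJ h1 1 0), -(JJ h1 1 0)] h1
  have s2 : (√2 : ℝ) ≠ 0 := by positivity
  have e1 : inn (etC k 1) (prim !₂[-(JJ h1 1 0), -(JJ h1 1 0), -(JJ h1 1 0)] h1 1) = 0 := by
    rw [inn_apply]
    rcases k with k | k <;> simp [prim, etC, hh]
  have e0 : inn (etC k 0) !₂[-(JJ h1 1 0), -(JJ h1 1 0), -(JJ h1 1 0)] = 0 := by
    rw [inn_apply]
    rcases k with k | k
    · simp [etC]
    · have h2 : (√2 : ℝ) * √2 = 2 := mul_self_sqrt (by norm_num)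
      simp only [etC, ContinuousMap.coe_mk, Set.Icc.coe_zero, sub_zero, mul_one, sin_omg]
      simp
      field_simp
      rw [sq, h2]
      ring
  rw [e1, e0] at h
  rw [c1]
  linarith

theorem r3 (c : E3) (h2 : HH) (hc : c 0 + c 1 + c 2 = 0) (hp : prim c h2 1 2 = 0) (k : KK) :
    inner ℝ (tL (eC k)) h2 = -(omg k * inner ℝ (tL (etC k)) (tL (prim c h2))) := by
  have h := ibp_e k c h2
  have s2 : (√2 : ℝ) ≠ 0 := by positivity
  have e1 : inn (eC k 1) (prim c h2 1) = 0 := by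
    rw [inn_apply, hp]
    rcases k with k | k
    · have : sin (omg (.inl k)) = 0 := by
        have := sin_nat_mul_pi (k + 1)
        simpa [omg] using this
      simp [eC, this]
    · simp [eC]
  have e0 : inn (eC k 0) c = 0 := by
    rw [inn_apply]
    rcases k with k | k
    · simp [eC]
    · simp only [eC, ContinuousMap.coe_mk, Set.Icc.coe_zero, sub_zero, mul_one, sin_omg]
      simp
      linear_combination cos (omg (.inr k)) * hc
  rw [e1, e0] at h
  linarith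

/-- integral against a continuous weight -/
noncomputable def wt (φ : C(II, ℝ)) : HH →L[ℝ] E3 :=
  (ContinuousMap.evalCLM ℝ (1 : II)).comp (J2 (ContinuousLinearMap.lsmul ℝ ℝ) (tL φ))

theorem wt_apply (φ : C(II, ℝ)) (h : HH) :
    wt φ h = J2 (ContinuousLinearMap.lsmul ℝ ℝ) (tL φ) h 1 := rfl

theorem wt_norm (φ : C(II, ℝ)) (h : HH) : ‖wt φ h‖ ≤ ‖tL φ‖ * ‖h‖ := by
  rw [wt_apply]
  refine (ContinuousMap.norm_coe_le_norm _ _).trans ((J2_norm _ _ _).trans ?_)
  have h1 : ‖(ContinuousLinearMap.lsmul ℝ ℝ : ℝ →L[ℝ] E3 →L[ℝ] E3)‖ ≤ 1 :=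
    ContinuousLinearMap.opNorm_lsmul_le
  calc _ ≤ 1 * ‖tL φ‖ * ‖h‖ := by gcongr
    _ = _ := by rw [one_mul]

theorem norm_sq_tL (φ : C(II, ℝ)) : ‖tL φ‖ ^ 2 = ∫ s in (0 : ℝ)..1, φ (pj s) ^ 2 := by
  rw [← real_inner_self_eq_norm_sq, L2.inner_def, ← integral_II_eq (fun s => φ s ^ 2)]
  refine integral_congr_ae ?_
  filter_upwards [tL_coe φ] with s hs
  rw [hs, real_inner_self_eq_norm_sq, Real.norm_eq_abs, sq_abs]

/-- monomials in `x` and in `1 - x` -/
noncomputable def pw (a : ℝ) (n : ℕ) : C(II, ℝ) := ⟨fun x => a * (x : ℝ) ^ n, by fun_prop⟩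
noncomputable def qw (a : ℝ) (n : ℕ) : C(II, ℝ) := ⟨fun x => a * (1 - (x : ℝ)) ^ n, by fun_prop⟩

theorem pw_norm (a : ℝ) (n : ℕ) : ‖tL (pw a n)‖ ^ 2 = a ^ 2 / (2 * n + 1) := by
  rw [norm_sq_tL]
  have : ∫ s in (0 : ℝ)..1, pw a n (pj s) ^ 2 = ∫ s in (0 : ℝ)..1, a ^ 2 * s ^ (2 * n) := by
    refine intervalIntegral.integral_congr fun s hs => ?_
    rw [uIcc_of_le zero_le_one] at hs
    simp only [pw, pj, projIcc_of_mem _ hs, ContinuousMap.coe_mk]
    ring
  rw [this, intervalIntegral.integral_const_mul, integral_pow]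
  simp [div_eq_mul_inv]

theorem qw_norm (a : ℝ) (n : ℕ) : ‖tL (qw a n)‖ ^ 2 = a ^ 2 / (2 * n + 1) := by
  rw [norm_sq_tL]
  have : ∫ s in (0 : ℝ)..1, qw a n (pj s) ^ 2 =
      ∫ s in (0 : ℝ)..1, (fun r : ℝ => a ^ 2 * r ^ (2 * n)) (1 - s) := by
    refine intervalIntegral.integral_congr fun s hs => ?_
    rw [uIcc_of_le zero_le_one] at hs
    simp only [qw, pj, projIcc_of_mem _ hs, ContinuousMap.coe_mk]
    ring
  rw [this, intervalIntegral.integral_comp_sub_left (fun r : ℝ => a ^ 2 * r ^ (2 * n)),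
    intervalIntegral.integral_const_mul, integral_pow]
  simp [div_eq_mul_inv]

/-- the exponent attached to the width `δ` -/
noncomputable def nn (δ : ℝ) : ℕ := ⌊(δ ^ 2)⁻¹⌋₊ - 1

theorem nn_spec {δ : ℝ} (hδ : δ ∈ Ioc (0 : ℝ) 1) :
    δ ^ 2 * (nn δ + 1) ≤ 1 ∧ 1 ≤ δ ^ 2 * (nn δ + 2) := by
  have h0 : 0 < δ ^ 2 := pow_pos hδ.1 2
  have h1 : 1 ≤ (δ ^ 2)⁻¹ := (one_le_inv₀ h0).2 (pow_le_one₀ hδ.1.le hδ.2)
  have h2 : 1 ≤ ⌊(δ ^ 2)⁻¹⌋₊ := Nat.le_floor (by simpa using h1)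
  have h3 : (nn δ : ℝ) + 1 = ⌊(δ ^ 2)⁻¹⌋₊ := by
    rw [nn, Nat.cast_sub h2]; simp
  have h4 := Nat.floor_le (zero_le_one.trans h1)
  have h5 := Nat.lt_floor_add_one (δ ^ 2)⁻¹
  have h6 : δ ^ 2 * (δ ^ 2)⁻¹ = 1 := mul_inv_cancel₀ h0.ne'
  constructor
  · rw [h3]; nlinarith
  · rw [show (nn δ : ℝ) + 2 = nn δ + 1 + 1 by ring, h3]; nlinarith

theorem big_le {δ N : ℝ} (hδ : δ ∈ Ioc (0 : ℝ) 1) (hN0 : 0 ≤ N)
    (hN : N ^ 2 = ((nn δ : ℝ) + 1) ^ 2 / (2 * nn δ + 1)) : δ * N ≤ 1 := by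
  have h1 := (nn_spec hδ).1
  have h0 : (0 : ℝ) ≤ nn δ := Nat.cast_nonneg _
  have h2 : N ^ 2 ≤ nn δ + 1 := by
    rw [hN, div_le_iff₀ (by positivity)]; nlinarith
  refine (pow_le_one_iff_of_nonneg (mul_nonneg hδ.1.le hN0) two_ne_zero).1 ?_
  rw [mul_pow]
  exact (mul_le_mul_of_nonneg_left h2 (sq_nonneg δ)).trans h1

theorem small_le {δ N : ℝ} (hδ : δ ∈ Ioc (0 : ℝ) 1)
    (hN : N ^ 2 = 1 ^ 2 / (2 * ((nn δ + 1 : ℕ) : ℝ) + 1)) : N ≤ δ := by
  have h1 := (nn_spec hδ).2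
  have h0 : (0 : ℝ) ≤ nn δ := Nat.cast_nonneg _
  have h2 : N ^ 2 ≤ δ ^ 2 := by
    rw [hN, div_le_iff₀ (by positivity)]
    push_cast
    nlinarith [sq_nonneg δ]
  exact (abs_le_of_sq_le_sq' h2 hδ.1.le).2

end RELAux

open RELAux

theorem rel : S_REL := by
  rintro M ⟨he, het, hz, hom⟩
  have p1 : ∀ h1 : HH, JJ h1 1 0 = JJ h1 1 1 → M.R1 (tL (c1 h1)) h1 := fun h1 hh =>
    ⟨fun k => by rw [he, het, hom]; exact r1 h1 hh k, by rw [hz, inner_z, hh, sub_self]⟩
  have p3 : ∀ (c : E3) (h2 : HH), c 0 + c 1 + c 2 = 0 → prim c h2 1 2 = 0 →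
      M.R2 (tL (prim c h2)) h2 := fun c h2 hc hp k => by
    rw [he, het, hom]; exact r3 c h2 hc hp k
  have hne : ∀ k, M.om k ≠ 0 := fun k => by rw [hom]; exact omg_ne k
  refine ⟨p1, fun h0 h1 hR => ?_, p3, fun h1 h2 hR => ?_⟩
  · have hh : JJ h1 1 0 = JJ h1 1 1 := by
      have := hR.2
      rwa [hz, inner_z, sub_eq_zero] at this
    refine ⟨hh, sub_eq_zero.1 (M.te _ fun k => ?_)⟩
    rw [inner_sub_right, sub_eq_zero]
    exact mul_left_cancel₀ (hne k) ((hR.1 k).symm.trans ((p1 h1 hh).1 k))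
  · set a : ℝ := inner ℝ (tL zC) h1 - inner ℝ (tL zC) (tL (JJ h2)) with ha
    set c : E3 := !₂[(JJ h2 1 2 + a) / 2, (JJ h2 1 2 - a) / 2, -(JJ h2 1 2)] with hc
    have hc0 : c 0 + c 1 + c 2 = 0 := by simp [hc]; ring
    have hp : prim c h2 1 2 = 0 := by simp [prim, hc]
    refine ⟨c, hc0, hp, sub_eq_zero.1 (M.tet _ (fun k => ?_) ?_)⟩
    · rw [inner_sub_right, sub_eq_zero]
      exact mul_left_cancel₀ (hne k) (neg_injective ((hR k).symm.trans (p3 c h2 hc0 hp k)))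
    · rw [inner_sub_right, hz, prim, map_add, inner_add_right,
        inner_z (tL (ContinuousMap.const II c)), JJ_const]
      have : c 0 - c 1 = a := by simp [hc]; ring
      rw [this, ha]
      ring

theorem tr : S_TR := by
  refine ⟨fun δ => (wt (qw (nn δ + 1) (nn δ))).prod (wt (pw (nn δ + 1) (nn δ))),
    fun δ => (-wt (qw 1 (nn δ + 1))).prod (wt (pw 1 (nn δ + 1))), fun δ hδ h => ?_,
    fun δ hδ h => ?_, fun δ hδ c h => ?_⟩
  · rw [ContinuousLinearMap.prod_apply, Prod.norm_mk, mul_max_of_nonneg _ _ hδ.1.le]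
    refine max_le ?_ ?_
    · refine (mul_le_mul_of_nonneg_left (wt_norm _ _) hδ.1.le).trans ?_
      rw [← mul_assoc]
      exact mul_le_mul_of_nonneg_right (big_le hδ (norm_nonneg _) (qw_norm _ _)) (norm_nonneg _)
    · refine (mul_le_mul_of_nonneg_left (wt_norm _ _) hδ.1.le).trans ?_
      rw [← mul_assoc]
      exact mul_le_mul_of_nonneg_right (big_le hδ (norm_nonneg _) (pw_norm _ _)) (norm_nonneg _)
  · rw [ContinuousLinearMap.prod_apply, Prod.norm_mk, one_mul]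
    refine max_le ?_ ?_
    · rw [neg_apply, norm_neg]
      exact (wt_norm _ _).trans
        (mul_le_mul_of_nonneg_right (small_le hδ (qw_norm _ _)) (norm_nonneg _))
    · exact (wt_norm _ _).trans
        (mul_le_mul_of_nonneg_right (small_le hδ (pw_norm _ _)) (norm_nonneg _))
  · have h1 := ibp (ContinuousLinearMap.lsmul ℝ ℝ : ℝ →L[ℝ] E3 →L[ℝ] E3)
      (fun x => 1 * (1 - x) ^ (nn δ + 1)) (qw 1 (nn δ + 1)) (-qw (nn δ + 1) (nn δ))
      (fun _ => rfl) (fun t => by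
        refine ((((hasDerivAt_id (t : ℝ)).const_sub 1).pow (nn δ + 1)).const_mul 1).congr_deriv ?_
        simp [qw]) c h
    have h2 := ibp (ContinuousLinearMap.lsmul ℝ ℝ : ℝ →L[ℝ] E3 →L[ℝ] E3)
      (fun x => 1 * x ^ (nn δ + 1)) (pw 1 (nn δ + 1)) (pw (nn δ + 1) (nn δ))
      (fun _ => rfl) (fun t => by
        refine ((hasDerivAt_pow (nn δ + 1) (t : ℝ)).const_mul 1).congr_deriv ?_
        simp [pw]) c h
    have a1 : qw 1 (nn δ + 1) 1 = 0 := by simp [qw]
    have a0 : qw 1 (nn δ + 1) 0 = 1 := by simp [qw]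
    have b1 : pw 1 (nn δ + 1) 1 = 1 := by simp [pw]
    have b0 : pw 1 (nn δ + 1) 0 = 0 := by simp [pw]
    rw [map_neg, map_neg, neg_apply, ContinuousMap.neg_apply, a1, a0] at h1
    rw [b1, b0] at h2
    simp only [ContinuousLinearMap.lsmul_apply, zero_smul, one_smul, zero_sub, sub_zero] at h1 h2
    rw [ContinuousLinearMap.prod_apply, ContinuousLinearMap.prod_apply, Prod.mk_add_mk,
      neg_apply, wt_apply, wt_apply, wt_apply, wt_apply]
    refine Prod.ext ?_ h2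
    rw [← neg_inj, ← h1, prim, neg_add, neg_neg]

end Pool.Agent.P.MP_cf7202_gt
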