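import Pool.Agent.P.MP_cf7202_gt.DefAbs

/-! The scalar equation `a' = g - l a` on the unit interval. -/

namespace Pool.Agent.P.MP_cf7202_gt

open Set Filter Topology Function MeasureTheory
open scoped ContDiff ENNReal

namespace SCAux

/-- the exponential -/
noncomputable def EE (l : ℝ) : C(II, ℝ) := ⟨fun t => Real.exp (-(l * t)), by fun_prop⟩

theorem EE_apply (l : ℝ) (t : II) : EE l t = Real.exp (-(l * t)) := rfl

/-- the solution operator -/
noncomputable def KK (l : ℝ) : L2 ℝ →L[ℝ] C(II, ℝ) :=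
  (cbil (ContinuousLinearMap.mul ℝ ℝ) (EE l)).comp
    (JJ.comp (cmul (ContinuousLinearMap.mul ℝ ℝ) (EE (-l))))

theorem pj_mem {s : ℝ} (hs : s ∈ Icc (0 : ℝ) 1) : ((pj s : II) : ℝ) = s := by
  simp [pj, projIcc_of_mem _ hs]

theorem pj_coe (t : II) : pj (t : ℝ) = t := by simp [pj, projIcc_val]

theorem cont_pj (u : C(II, ℝ)) : Continuous fun s : ℝ => u (pj s) :=
  u.continuous.comp continuous_projIcc

theorem norm_sq_tL (u : C(II, ℝ)) : ‖tL u‖ ^ 2 = ∫ s in (0 : ℝ)..1, u (pj s) ^ 2 := by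
  rw [← real_inner_self_eq_norm_sq, L2.inner_def, ← integral_II_eq (fun t => u t ^ 2)]
  refine integral_congr_ae ?_
  filter_upwards [tL_coe u] with t ht
  rw [ht, real_inner_self_eq_norm_sq, Real.norm_eq_abs, sq_abs]

theorem cmul_tL (v u : C(II, ℝ)) :
    cmul (ContinuousLinearMap.mul ℝ ℝ) v (tL u) = tL (v * u) := by
  apply Lp.ext
  filter_upwards [cmul_coe (ContinuousLinearMap.mul ℝ ℝ) v (tL u), tL_coe u, tL_coe (v * u)]
    with t h1 h2 h3
  rw [h1, h2, h3]
  simp

/-- the classical solution -/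
noncomputable def aa (l : ℝ) (u : C(II, ℝ)) (s : ℝ) : ℝ :=
  Real.exp (-(l * s)) * ∫ r in (0 : ℝ)..s, (EE (-l) * u) (pj r)

theorem KK_tL (l : ℝ) (u : C(II, ℝ)) (t : II) : KK l (tL u) t = aa l u t := by
  simp only [KK, ContinuousLinearMap.comp_apply, cbil_apply, cmul_tL, JJ_tL, aa, EE_apply,
    ContinuousLinearMap.mul_apply']

theorem KK_pj (l : ℝ) (u : C(II, ℝ)) {s : ℝ} (hs : s ∈ Icc (0 : ℝ) 1) :
    KK l (tL u) (pj s) = aa l u s := by
  rw [KK_tL, pj_mem hs]

theorem aa_zero (l : ℝ) (u : C(II, ℝ)) : aa l u 0 = 0 := by simp [aa]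

theorem exp_deriv (l s : ℝ) :
    HasDerivAt (fun r => Real.exp (-(l * r))) (-(l * Real.exp (-(l * s)))) s := by
  have h := (((hasDerivAt_id s).const_mul l).neg).exp
  simp only [id, mul_one, Pi.neg_apply] at h
  convert h using 1
  ring

theorem aa_deriv' (l : ℝ) (u : C(II, ℝ)) (s : ℝ) :
    HasDerivAt (aa l u) (Real.exp (-(l * s)) * (EE (-l) * u) (pj s) - l * aa l u s) s := by
  have hc := cont_pj (EE (-l) * u)
  have h1 := intervalIntegral.integral_hasDerivAt_right (hc.intervalIntegrable 0 s)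
    (hc.stronglyMeasurableAtFilter _ _) hc.continuousAt
  refine ((exp_deriv l s).mul h1).congr_deriv ?_
  simp only [aa]
  ring

theorem aa_cont (l : ℝ) (u : C(II, ℝ)) : Continuous (aa l u) :=
  continuous_iff_continuousAt.2 fun s => (aa_deriv' l u s).continuousAt

theorem aa_deriv (l : ℝ) (u : C(II, ℝ)) {s : ℝ} (hs : s ∈ Icc (0 : ℝ) 1) :
    HasDerivAt (aa l u) (u (pj s) - l * aa l u s) s := by
  have h := aa_deriv' l u s
  rw [ContinuousMap.mul_apply, EE_apply, pj_mem hs, ← mul_assoc, ← Real.exp_add] at h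
  simpa using h

theorem eq_tL (l : ℝ) (u : C(II, ℝ)) (t : II) :
    KK l (tL u) t = JJ (tL u - l • tL (KK l (tL u))) t := by
  have h := ftc_II (F := ℝ) zero_le_one (aa l u) (u - l • KK l (tL u)) (aa_cont l u).continuousOn
    (fun x _ => by
      have h1 := aa_deriv l u x.2
      rw [pj_coe] at h1
      rw [one_mul]
      simpa [KK_tL] using h1) t
  rw [one_mul, aa_zero, zero_add, one_smul, map_sub, map_smul] at h
  rw [KK_tL, h]

theorem eq_all (l : ℝ) (g : L2 ℝ) (t : II) : KK l g t = JJ (g - l • tL (KK l g)) t := by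
  refine (tL_dense (F := ℝ)).induction_on g (isClosed_eq ?_ ?_) fun u => eq_tL l u t
  · fun_prop
  · fun_prop

theorem int_le (u : C(II, ℝ)) (t : II) :
    ∫ s in (0 : ℝ)..t, u (pj s) ^ 2 ≤ ∫ s in (0 : ℝ)..1, u (pj s) ^ 2 := by
  refine intervalIntegral.integral_mono_interval le_rfl t.2.1 t.2.2
    (Eventually.of_forall fun s => sq_nonneg _) (((cont_pj u).pow 2).intervalIntegrable _ _)

theorem sup_tL (l : ℝ) (u : C(II, ℝ)) (t : II) :
    2 * l * KK l (tL u) t ^ 2 ≤ ‖tL u‖ ^ 2 := by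
  rw [norm_sq_tL, KK_tL]
  refine le_trans ?_ (int_le u t)
  have hc := aa_cont l u
  have hu := cont_pj u
  have h1 : ∫ s in (0 : ℝ)..t, 2 * l * (2 * aa l u s * (u (pj s) - l * aa l u s))
      = 2 * l * aa l u t ^ 2 - 2 * l * aa l u 0 ^ 2 := by
    refine intervalIntegral.integral_eq_sub_of_hasDerivAt (f := fun s => 2 * l * aa l u s ^ 2)
      (fun s hs => ?_) (Continuous.intervalIntegrable (by fun_prop) _ _)
    rw [uIcc_of_le t.2.1] at hs
    have h := ((aa_deriv l u ⟨hs.1, hs.2.trans t.2.2⟩).pow 2).const_mul (2 * l)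
    simpa using h
  rw [aa_zero] at h1
  have h2 : 2 * l * aa l u t ^ 2
      = ∫ s in (0 : ℝ)..t, 2 * l * (2 * aa l u s * (u (pj s) - l * aa l u s)) := by
    rw [h1]; ring
  rw [h2]
  refine intervalIntegral.integral_mono_on t.2.1 (Continuous.intervalIntegrable (by fun_prop) _ _)
    (Continuous.intervalIntegrable (by fun_prop) _ _) fun s _ => ?_
  nlinarith [sq_nonneg (u (pj s) - 2 * l * aa l u s)]

theorem sup_all (l : ℝ) (g : L2 ℝ) (t : II) : 2 * l * KK l g t ^ 2 ≤ ‖g‖ ^ 2 := by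
  refine (tL_dense (F := ℝ)).induction_on g (isClosed_le ?_ ?_) fun u => sup_tL l u t
  · fun_prop
  · fun_prop

theorem l2_tL {l : ℝ} (hl : 0 ≤ l) (u : C(II, ℝ)) : l * ‖tL (KK l (tL u))‖ ≤ ‖tL u‖ := by
  refine abs_le_of_sq_le_sq' ?_ (norm_nonneg _) |>.2
  rw [mul_pow, norm_sq_tL, norm_sq_tL, ← intervalIntegral.integral_const_mul]
  have hc := aa_cont l u
  have hu := cont_pj u
  have h0 : ∫ s in (0 : ℝ)..1, l ^ 2 * KK l (tL u) (pj s) ^ 2
      = ∫ s in (0 : ℝ)..1, l ^ 2 * aa l u s ^ 2 := by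
    refine intervalIntegral.integral_congr fun s hs => ?_
    rw [uIcc_of_le zero_le_one] at hs
    simp only [KK_pj l u hs]
  have h1 : ∫ s in (0 : ℝ)..1, l * (2 * aa l u s * (u (pj s) - l * aa l u s))
      = l * aa l u 1 ^ 2 - l * aa l u 0 ^ 2 := by
    refine intervalIntegral.integral_eq_sub_of_hasDerivAt (f := fun s => l * aa l u s ^ 2)
      (fun s hs => ?_) (Continuous.intervalIntegrable (by fun_prop) _ _)
    rw [uIcc_of_le zero_le_one] at hs
    have h := ((aa_deriv l u hs).pow 2).const_mul l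
    simpa using h
  have h2 : ∫ s in (0 : ℝ)..1, (l ^ 2 * aa l u s ^ 2
      + l * (2 * aa l u s * (u (pj s) - l * aa l u s))) ≤ ∫ s in (0 : ℝ)..1, u (pj s) ^ 2 := by
    refine intervalIntegral.integral_mono_on zero_le_one
      (Continuous.intervalIntegrable (by fun_prop) _ _)
      (Continuous.intervalIntegrable (by fun_prop) _ _) fun s _ => ?_
    nlinarith [sq_nonneg (u (pj s) - l * aa l u s)]
  rw [intervalIntegral.integral_add (Continuous.intervalIntegrable (by fun_prop) _ _)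
    (Continuous.intervalIntegrable (by fun_prop) _ _), h1, aa_zero] at h2
  rw [h0]
  nlinarith [mul_nonneg hl (sq_nonneg (aa l u 1))]

theorem l2_all {l : ℝ} (hl : 0 ≤ l) (g : L2 ℝ) : l * ‖tL (KK l g)‖ ≤ ‖g‖ := by
  refine (tL_dense (F := ℝ)).induction_on g (isClosed_le ?_ ?_) fun u => l2_tL hl u
  · fun_prop
  · fun_prop

theorem EE_eq (l : ℝ) (t : II) : EE l t = 1 + JJ (-(l • tL (EE l))) t := by
  have h := ftc_II (F := ℝ) zero_le_one (fun r => Real.exp (-(l * r))) (-(l • EE l))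
    (Continuous.continuousOn (by fun_prop))
    (fun x _ => by
      rw [one_mul]
      simpa [EE_apply] using exp_deriv l x) t
  rw [one_mul, one_smul, map_neg, map_smul] at h
  simpa [EE_apply] using h

theorem EE_le {l : ℝ} (hl : 0 ≤ l) (t : II) : |EE l t| ≤ 1 := by
  rw [EE_apply, abs_of_pos (Real.exp_pos _), Real.exp_le_one_iff]
  have := mul_nonneg hl t.2.1
  linarith

theorem EE_l2 (l : ℝ) : 2 * l * ‖tL (EE l)‖ ^ 2 ≤ 1 := by
  rw [norm_sq_tL, ← intervalIntegral.integral_const_mul]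
  have hc := cont_pj (EE l)
  have h1 : ∫ s in (0 : ℝ)..1, 2 * l * EE l (pj s) ^ 2
      = -Real.exp (-(l * 1)) ^ 2 - -Real.exp (-(l * 0)) ^ 2 := by
    refine intervalIntegral.integral_eq_sub_of_hasDerivAt
      (f := fun s => -Real.exp (-(l * s)) ^ 2)
      (fun s hs => ?_) (Continuous.intervalIntegrable (by fun_prop) _ _)
    rw [uIcc_of_le zero_le_one] at hs
    have h := ((exp_deriv l s).pow 2).neg
    rw [EE_apply, pj_mem hs]
    refine h.congr_deriv ?_
    norm_num
    ring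
  rw [h1]
  simp only [mul_zero, neg_zero, Real.exp_zero]
  nlinarith [sq_nonneg (Real.exp (-(l * 1)))]

theorem zero_of (l : ℝ) (d : C(II, ℝ)) (hd : ∀ t, d t = JJ (-(l • tL d)) t) : d = 0 := by
  have hc := cont_pj (-(l • d))
  set f : ℝ → ℝ := fun s => ∫ r in (0 : ℝ)..s, (-(l • d)) (pj r) with hf
  have hf1 : ∀ s, HasDerivAt f ((-(l • d)) (pj s)) s := fun s =>
    intervalIntegral.integral_hasDerivAt_right (hc.intervalIntegrable 0 s)
      (hc.stronglyMeasurableAtFilter _ _) hc.continuousAt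
  have hf2 : ∀ t : II, d t = f t := fun t => by
    rw [hd, ← map_smul, ← map_neg, JJ_tL]
  have hf3 : ∀ s ∈ Icc (0 : ℝ) 1, d (pj s) = f s := fun s hs => by rw [hf2, pj_mem hs]
  have hfc : Continuous f := continuous_iff_continuousAt.2 fun s => (hf1 s).continuousAt
  have h := constant_of_has_deriv_right_zero (f := fun s => Real.exp (-(-l * s)) * f s)
    (a := 0) (b := 1) (Continuous.continuousOn (by fun_prop)) (fun s hs => by
      have h1 := (exp_deriv (-l) s).mul (hf1 s)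
      refine HasDerivAt.hasDerivWithinAt (h1.congr_deriv ?_)
      simp only [ContinuousMap.neg_apply, ContinuousMap.smul_apply, smul_eq_mul,
        hf3 s (Ico_subset_Icc_self hs)]
      ring)
  ext t
  have h2 := h t t.2
  have h3 : f 0 = 0 := by simp [hf]
  simp only [h3, mul_zero, mul_eq_zero, (Real.exp_pos _).ne', false_or] at h2
  rw [hf2, h2]
  rfl

theorem uniq (l : ℝ) (a : C(II, ℝ)) (a0 : ℝ) (g : L2 ℝ)
    (h : ∀ t, a t = a0 + JJ (g - l • tL a) t) : a = a0 • EE l + KK l g := by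
  rw [← sub_eq_zero]
  refine zero_of l _ fun t => ?_
  have h1 := h t
  have h2 := eq_all l g t
  have h3 := EE_eq l t
  simp only [map_sub, map_smul, map_neg, map_add, ContinuousMap.sub_apply, ContinuousMap.add_apply,
    ContinuousMap.smul_apply, ContinuousMap.neg_apply, smul_eq_mul] at h1 h2 h3 ⊢
  linear_combination h1 - a0 * h3 - h2

end SCAux

open SCAux in
theorem sc : S_SC := fun l hl =>
  ⟨KK l, EE l, eq_all l, sup_all l, l2_all hl, EE_eq l, EE_le hl, EE_l2 l, uniq l⟩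

end Pool.Agent.P.MP_cf7202_gt
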