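import Pool.Agent.P.MP_cf7202_gt.DefCon

/-! The concrete system. -/

namespace Pool.Agent.P.MP_cf7202_gt

open Set Filter Topology Function MeasureTheory Real
open scoped ContDiff ENNReal

namespace SYSAux

section calculus

variable {X Y Z W : Type} [NormedAddCommGroup X] [NormedSpace ℝ X] [NormedAddCommGroup Y]
  [NormedSpace ℝ Y] [NormedAddCommGroup Z] [NormedSpace ℝ Z] [NormedAddCommGroup W]
  [NormedSpace ℝ W] {S : Set X} {T : ℝ → Set X}

/-- smooth on `S`, bounded and Lipschitz on all `T R` -/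
def SB (S : Set X) (T : ℝ → Set X) (F : X → Y) : Prop :=
  ContDiffOn ℝ ∞ F S ∧ ∀ R, BL (T R) F

theorem SB.const (y : Y) : SB S T (fun _ => y) :=
  ⟨contDiffOn_const, fun _ => ⟨‖y‖, norm_nonneg _, fun _ _ => le_rfl, fun _ _ _ _ => by
    rw [sub_self, norm_zero]; positivity⟩⟩

theorem SB.clm {F : X → Y} (h : SB S T F) (A : Y →L[ℝ] Z) : SB S T (fun x => A (F x)) := by
  refine ⟨A.contDiff.comp_contDiffOn h.1, fun R => ?_⟩
  obtain ⟨C, h0, h1, h2⟩ := h.2 R
  refine ⟨‖A‖ * C, by positivity, fun x hx => (A.le_opNorm _).trans (by gcongr; exact h1 x hx),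
    fun x hx y hy => ?_⟩
  rw [← map_sub, mul_assoc]
  exact (A.le_opNorm _).trans (by gcongr; exact h2 x hx y hy)

theorem SB.add {F G : X → Y} (h : SB S T F) (h' : SB S T G) : SB S T (fun x => F x + G x) := by
  refine ⟨h.1.add h'.1, fun R => ?_⟩
  obtain ⟨C, h0, h1, h2⟩ := h.2 R
  obtain ⟨D, k0, k1, k2⟩ := h'.2 R
  refine ⟨C + D, by positivity, fun x hx => norm_add_le_of_le (h1 x hx) (k1 x hx),
    fun x hx y hy => ?_⟩
  rw [add_sub_add_comm, add_mul]
  exact norm_add_le_of_le (h2 x hx y hy) (k2 x hx y hy)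

theorem SB.neg {F : X → Y} (h : SB S T F) : SB S T (fun x => -F x) :=
  h.clm (-ContinuousLinearMap.id ℝ Y)

theorem SB.sub {F G : X → Y} (h : SB S T F) (h' : SB S T G) : SB S T (fun x => F x - G x) := by
  simpa only [sub_eq_add_neg] using h.add h'.neg

theorem SB.bil {F : X → Y} {G : X → Z} (h : SB S T F) (h' : SB S T G) (B : Y →L[ℝ] Z →L[ℝ] W) :
    SB S T (fun x => B (F x) (G x)) := by
  refine ⟨(h.clm B).1.clm_apply h'.1, fun R => ?_⟩
  obtain ⟨C, h0, h1, h2⟩ := h.2 R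
  obtain ⟨D, k0, k1, k2⟩ := h'.2 R
  have hp : 0 ≤ ‖B‖ * C * D := by positivity
  refine ⟨2 * (‖B‖ * C * D), by positivity, fun x hx => ?_, fun x hx y hy => ?_⟩
  · have : ‖B (F x) (G x)‖ ≤ ‖B‖ * C * D :=
      (B.le_opNorm₂ _ _).trans (by gcongr; exacts [h1 x hx, k1 x hx])
    linarith
  · have e : B (F x) (G x) - B (F y) (G y) = B (F x - F y) (G x) + B (F y) (G x - G y) := by
      simp
    have a1 : ‖B (F x - F y) (G x)‖ ≤ ‖B‖ * (C * ‖x - y‖) * D :=
      (B.le_opNorm₂ _ _).trans (by gcongr; exacts [h2 x hx y hy, k1 x hx])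
    have a2 : ‖B (F y) (G x - G y)‖ ≤ ‖B‖ * C * (D * ‖x - y‖) :=
      (B.le_opNorm₂ _ _).trans (by gcongr; exacts [h1 y hy, k2 x hx y hy])
    rw [e]
    exact (norm_add_le_of_le a1 a2).trans_eq (by ring)

theorem SB.id {B : ℝ} (h : ∀ x ∈ S, ‖x‖ ≤ B) : SB S (fun _ => S) (fun x => x) :=
  ⟨contDiffOn_id, fun _ => ⟨max B 1, by positivity, fun x hx => (h x hx).trans (le_max_left _ _),
    fun _ _ _ _ => le_mul_of_one_le_left (norm_nonneg _) (le_max_right _ _)⟩⟩

theorem SB.fst {F : X → Y} (h : SB S (fun _ => S) F) :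
    SB (S ×ˢ (univ : Set Z)) (fun R => S ×ˢ Metric.closedBall 0 R) (fun z => F z.1) := by
  refine ⟨h.1.comp contDiffOn_fst fun z hz => hz.1, fun R => ?_⟩
  obtain ⟨C, h0, h1, h2⟩ := h.2 R
  exact ⟨C, h0, fun x hx => h1 _ hx.1, fun x hx y hy => (h2 _ hx.1 _ hy.1).trans
    (by gcongr; exact norm_fst_le (x - y))⟩

theorem SB.snd :
    SB (S ×ˢ (univ : Set Z)) (fun R => S ×ˢ Metric.closedBall 0 R) (fun z => z.2) :=
  ⟨contDiffOn_snd, fun R => ⟨max R 1, by positivity,
    fun x hx => (mem_closedBall_zero_iff.1 hx.2).trans (le_max_left _ _),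
    fun x _ y _ => (norm_snd_le (x - y)).trans
      (le_mul_of_one_le_left (norm_nonneg _) (le_max_right _ _))⟩⟩

theorem cmul_tL (B : X →L[ℝ] Y →L[ℝ] Z) (u : C(II, X)) (v : C(II, Y)) :
    cmul B u (tL v) = tL (cbil B u v) := by
  apply Lp.ext
  filter_upwards [cmul_coe B u (tL v), tL_coe v, tL_coe (cbil B u v)] with t h1 h2 h3
  rw [h1, h2, h3, cbil_apply]

theorem J2_tL (B : X →L[ℝ] Y →L[ℝ] Z) (u : C(II, X)) (v : C(II, Y)) (t : II) :
    J2 B (tL u) (tL v) t = ∫ s in (0 : ℝ)..t, B (u (pj s)) (v (pj s)) := by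
  rw [J2_apply, ← setIntegral_Iic_eq (fun s => B (u s) (v s))]
  refine integral_congr_ae (ae_restrict_of_ae ?_)
  filter_upwards [tL_coe u, tL_coe v] with s h1 h2
  rw [h1, h2]

end calculus

theorem mu_le (a : VV) (v : E3) : ‖(WithLp.toLp 2 fun i => a i * v i : E3)‖ ≤ 1 * ‖a‖ * ‖v‖ := by
  rw [one_mul, ← abs_of_nonneg (mul_nonneg (norm_nonneg a) (norm_nonneg v)),
    ← abs_of_nonneg (norm_nonneg (_ : E3)), ← sq_le_sq, mul_pow, EuclideanSpace.real_norm_sq_eq,
    EuclideanSpace.real_norm_sq_eq, Finset.mul_sum]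
  refine Finset.sum_le_sum fun i _ => ?_
  rw [mul_pow]
  exact mul_le_mul_of_nonneg_right
    (sq_le_sq.2 ((norm_le_pi_norm a i).trans (le_abs_self _))) (sq_nonneg _)

/-- componentwise product -/
noncomputable def mu : VV →L[ℝ] E3 →L[ℝ] E3 :=
  LinearMap.mkContinuous₂
    (LinearMap.mk₂ ℝ (fun (a : VV) (v : E3) => (WithLp.toLp 2 fun i => a i * v i : E3))
      (fun _ _ _ => by ext; simp [add_mul]) (fun _ _ _ => by ext; simp [mul_assoc])
      (fun _ _ _ => by ext; simp [mul_add]) (fun _ _ _ => by ext; simp [mul_left_comm])) 1 mu_le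

@[simp] theorem mu_apply (a : VV) (v : E3) (i : Fin 3) : mu a v i = a i * v i := rfl

theorem mu_norm : ‖mu‖ ≤ 1 := LinearMap.mkContinuous₂_norm_le _ zero_le_one _

/-- coordinates -/
noncomputable def co : E3 →L[ℝ] VV := (EuclideanSpace.equiv (Fin 3) ℝ : E3 →L[ℝ] VV)

/-- componentwise product of two vectors -/
noncomputable def nu : E3 →L[ℝ] E3 →L[ℝ] VV := (ContinuousLinearMap.mul ℝ VV).bilinearComp co co

@[simp] theorem nu_apply (a v : E3) (i : Fin 3) : nu a v i = a i * v i := rfl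

/-- `L ↦ L 1 * f + (L i - L 1) * g` -/
noncomputable def pf (f g : C(II, ℝ)) : VV →L[ℝ] C(II, VV) :=
  LinearMap.toContinuousLinearMap
    { toFun := fun L => ⟨fun x i => L 1 * f x + (L i - L 1) * g x, by fun_prop⟩
      map_add' := fun _ _ => by ext; simp; ring
      map_smul' := fun _ _ => by ext; simp; ring }

@[simp] theorem pf_apply (f g : C(II, ℝ)) (L : VV) (x : II) (i : Fin 3) :
    pf f g L x i = L 1 * f x + (L i - L 1) * g x := rfl

/-- the speed -/
noncomputable def mC : VV →L[ℝ] C(II, VV) := pf 1 ⟨fun x => gg x, by unfold gg; fun_prop⟩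

theorem mC_apply (L : VV) (x : II) (i : Fin 3) : mC L x i = mm L i x := by simp [mC, mm]

/-- the derivative of the speed -/
noncomputable def mx : VV →L[ℝ] C(II, VV) := pf 0 ⟨fun x => 3 - 3 * x, by fun_prop⟩

/-- the primitive of the speed -/
noncomputable def Mx : VV →L[ℝ] C(II, VV) :=
  pf ⟨fun x => x, by fun_prop⟩ ⟨fun x => 3 / 2 * x ^ 2 - x ^ 3 / 2, by fun_prop⟩

/-- tangential velocities at the junction -/
noncomputable def lam0 : VV →L[ℝ] C(II, VV) :=
  (ContinuousLinearMap.const ℝ II).comp (LinearMap.toContinuousLinearMap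
    { toFun := fun a : VV => (![-a 0, a 0 + a 2, -a 2] : VV)
      map_add' := fun _ _ => by ext i; fin_cases i <;> simp <;> ring
      map_smul' := fun _ _ => by ext i; fin_cases i <;> simp; ring })

@[simp] theorem lam0_apply (a : VV) (x : II) : lam0 a x = ![-a 0, a 0 + a 2, -a 2] := rfl

/-- boundary terms -/
noncomputable def bd : E3 × E3 →L[ℝ] VV :=
  LinearMap.toContinuousLinearMap
    { toFun := fun z i => (![0, -(z.2 1), 0] i - (z.1 (i + 2) - z.1 (i + 1))) / √3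
      map_add' := fun _ _ => by ext i; fin_cases i <;> simp <;> ring
      map_smul' := fun _ _ => by ext i; fin_cases i <;> simp <;> ring }

theorem bd_apply (z : E3 × E3) (i : Fin 3) :
    bd z i = (![0, -(z.2 1), 0] i - (z.1 (i + 2) - z.1 (i + 1))) / √3 := rfl

/-- the inverse of the speed -/
noncomputable def rr (L : VV) : C(II, VV) := Ring.inverse (mC L)

variable {K : ℝ}

theorem mm_bd {L : VV} (hL : L ∈ UU K) (x : II) (i : Fin 3) :
    (2 * K)⁻¹ < mm L i x ∧ mm L i x < 8 * K := by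
  obtain ⟨h1, h2, h3⟩ := hL
  have a1 := abs_lt.1 ((norm_le_pi_norm L 1).trans_lt h1)
  have a2 := abs_lt.1 ((norm_le_pi_norm L i).trans_lt h1)
  have x0 := x.2.1
  have x1 := x.2.2
  have g0 : 0 ≤ gg x := by unfold gg; nlinarith
  have g1 : gg x ≤ 3 / 2 := by unfold gg; nlinarith
  have h4 := h3 i
  unfold mm
  constructor
  · rcases le_total 0 (L i - L 1) with h | h <;> nlinarith
  · rcases le_total 0 (L i - L 1) with h | h <;> nlinarith

theorem mm_pos (hK : 0 < K) {L : VV} (hL : L ∈ UU K) (x : II) (i : Fin 3) : 0 < mm L i x :=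
  lt_trans (by positivity) (mm_bd hL x i).1

theorem mC_unit (hK : 0 < K) {L : VV} (hL : L ∈ UU K) : IsUnit (mC L) :=
  (ContinuousMap.isUnit_iff_forall_isUnit _).2 fun x => Pi.isUnit_iff.2 fun i => by
    rw [mC_apply]; exact (mm_pos hK hL x i).ne'.isUnit

theorem rr_apply (hK : 0 < K) {L : VV} (hL : L ∈ UU K) (x : II) (i : Fin 3) :
    rr L x i = (mm L i x)⁻¹ := by
  have h := congrArg (fun f : C(II, VV) => f x i) (Ring.inverse_mul_cancel _ (mC_unit hK hL))
  refine eq_inv_of_mul_eq_one_left ?_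
  rw [← mC_apply]
  exact h

theorem rr_bd (hK : 0 < K) {L : VV} (hL : L ∈ UU K) (x : II) (i : Fin 3) :
    (8 * K)⁻¹ ≤ rr L x i ∧ rr L x i ≤ 2 * K := by
  rw [rr_apply hK hL]
  exact ⟨inv_anti₀ (mm_pos hK hL x i) (mm_bd hL x i).2.le,
    inv_le_of_inv_le₀ (by positivity) (mm_bd hL x i).1.le⟩

theorem rr_norm (hK : 0 < K) {L : VV} (hL : L ∈ UU K) : ‖rr L‖ ≤ 2 * K :=
  (ContinuousMap.norm_le _ (by positivity)).2 fun x =>
    (pi_norm_le_iff_of_nonneg (by positivity)).2 fun i => by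
      rw [Real.norm_of_nonneg (le_trans (by positivity) (rr_bd hK hL x i).1)]
      exact (rr_bd hK hL x i).2

theorem sb_rr (hK : 0 < K) : SB (UU K) (fun _ => UU K) rr := by
  refine ⟨fun L hL => ?_, fun _ => ⟨2 * K + 2 * K * (2 * K) * ‖mC‖, by positivity,
    fun L hL => (rr_norm hK hL).trans (le_add_of_nonneg_right (by positivity)),
    fun L hL L' hL' => ?_⟩⟩
  · have h := contDiffAt_ringInverse ℝ (n := ∞) (mC_unit hK hL).unit
    rw [IsUnit.unit_spec] at h
    exact (h.comp L mC.contDiff.contDiffAt).contDiffWithinAt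
  · have e : rr L - rr L' = -(rr L * rr L' * mC (L - L')) := by
      have h1 : rr L * mC L = 1 := Ring.inverse_mul_cancel _ (mC_unit hK hL)
      have h2 : rr L' * mC L' = 1 := Ring.inverse_mul_cancel _ (mC_unit hK hL')
      rw [map_sub]
      linear_combination rr L' * h1 - rr L * h2
    have h3 : ‖rr L * rr L' * mC (L - L')‖ ≤ 2 * K * (2 * K) * (‖mC‖ * ‖L - L'‖) :=
      (norm_mul_le _ _).trans (mul_le_mul ((norm_mul_le _ _).trans
        (mul_le_mul (rr_norm hK hL) (rr_norm hK hL') (norm_nonneg _) (by positivity)))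
        (mC.le_opNorm _) (norm_nonneg _) (by positivity))
    rw [e, norm_neg]
    have : 0 ≤ 2 * K * ‖L - L'‖ := by positivity
    nlinarith

theorem sb_id : SB (UU K) (fun _ => UU K) (fun L => L) := SB.id fun _ h => h.1.le

theorem open_UU : IsOpen (UU K) := by
  have h1 : IsOpen {L : VV | ‖L‖ < 2 * K} := isOpen_lt (by fun_prop) (by fun_prop)
  have h2 : IsOpen {L : VV | (2 * K)⁻¹ < L 1} := isOpen_lt (by fun_prop) (by fun_prop)
  have h3 : IsOpen {L : VV | ∀ i, (2 * K)⁻¹ < L 1 + 3 / 2 * (L i - L 1)} := by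
    rw [ofPred_forall]
    exact isOpen_iInter_of_finite fun i => isOpen_lt (by fun_prop) (by fun_prop)
  exact h1.inter (h2.inter h3)

/-- first derivative of the reference angle -/
noncomputable def r1 : C(II, E3) := ⟨fun x => !₂[2 * π / 3 * x, 0, 0], by fun_prop⟩

/-- second derivative of the reference angle -/
noncomputable def r2 : C(II, E3) := ContinuousMap.const II !₂[2 * π / 3, 0, 0]

theorem r1_apply (x : II) (i : Fin 3) : r1 x i = θs1 i x := by fin_cases i <;> rfl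

theorem r2_apply (x : II) (i : Fin 3) : r2 x i = θs2 i := by fin_cases i <;> rfl

/-- curvature -/
noncomputable def ka (z : VV × HH) : HH := cmul mu (rr z.1) (tL r1 + z.2)

/-- primitive of the squared curvature -/
noncomputable def ss (z : VV × HH) : C(II, VV) := J2 nu (tL r1 + z.2) (ka z)

noncomputable def AA (L : VV) : HH →L[ℝ] HH := cmul mu (rr L * rr L)

noncomputable def N0 (z : VV × HH) : HH :=
  cmul mu (rr z.1 * rr z.1) (tL r2) - cmul mu (rr z.1 * rr z.1 * mx z.1) (ka z) +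
    cmul mu (lam0 (ss z 1) + ss z) (ka z)

noncomputable def N1 (z : VV × HH) : VV →L[ℝ] HH := ((cmul mu).comp (lam0 + Mx)).flip (ka z)

noncomputable def WW (L : VV) : E3 × E3 →L[ℝ] VV := rr L 0 1 • bd

noncomputable def W0 (z : VV × HH) : VV := -ss z 1

theorem sb_sq (hK : 0 < K) : SB (UU K) (fun _ => UU K) (fun L => rr L * rr L) :=
  (sb_rr hK).bil (sb_rr hK) (ContinuousLinearMap.mul ℝ _)

theorem sb_ka (hK : 0 < K) :
    SB (UU K ×ˢ univ) (fun R => UU K ×ˢ Metric.closedBall 0 R) ka :=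
  (sb_rr hK).fst.bil ((SB.const _).add SB.snd) (cmul mu)

theorem sb_ss (hK : 0 < K) :
    SB (UU K ×ˢ univ) (fun R => UU K ×ˢ Metric.closedBall 0 R) ss :=
  ((SB.const _).add SB.snd).bil (sb_ka hK) (J2 nu)

theorem sb_s1 (hK : 0 < K) :
    SB (UU K ×ˢ univ) (fun R => UU K ×ˢ Metric.closedBall 0 R) (fun z => ss z 1) :=
  (sb_ss hK).clm (ContinuousMap.evalCLM ℝ 1)

theorem sb_AA (hK : 0 < K) : SB (UU K) (fun _ => UU K) AA := (sb_sq hK).clm (cmul mu)

theorem sb_N0 (hK : 0 < K) :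
    SB (UU K ×ˢ univ) (fun R => UU K ×ˢ Metric.closedBall 0 R) N0 :=
  (((sb_sq hK).fst.bil (SB.const _) (cmul mu)).sub
    (((sb_sq hK).bil (sb_id.clm mx) (ContinuousLinearMap.mul ℝ _)).fst.bil (sb_ka hK)
      (cmul mu))).add ((((sb_s1 hK).clm lam0).add (sb_ss hK)).bil (sb_ka hK) (cmul mu))

theorem sb_N1 (hK : 0 < K) :
    SB (UU K ×ˢ univ) (fun R => UU K ×ˢ Metric.closedBall 0 R) N1 := (sb_ka hK).clm _

theorem sb_WW (hK : 0 < K) : SB (UU K) (fun _ => UU K) WW :=
  (((sb_rr hK).clm (ContinuousMap.evalCLM ℝ 0)).clm (ContinuousLinearMap.proj 1)).clm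
    (ContinuousLinearMap.toSpanSingleton ℝ bd)

theorem sb_W0 (hK : 0 < K) :
    SB (UU K ×ˢ univ) (fun R => UU K ×ˢ Metric.closedBall 0 R) W0 := (sb_s1 hK).neg

theorem cmul_one (h : HH) : cmul mu 1 h = h := by
  apply Lp.ext
  filter_upwards [cmul_coe mu 1 h] with t ht
  rw [ht]
  ext i
  simp

theorem AA_bd (hK : 0 < K) {L : VV} (hL : L ∈ UU K) {μ : ℝ} (hμ : μ ∈ Icc (1 / 2 : ℝ) 2)
    (h : HH) :
    ‖(μ / (8 * K ^ 2)) • AA L h - h‖ ≤ (1 - min 1 (1024 * K ^ 4)⁻¹) * ‖h‖ := by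
  have e : (μ / (8 * K ^ 2)) • AA L h - h = cmul mu ((μ / (8 * K ^ 2)) • (rr L * rr L) - 1) h := by
    rw [map_sub, map_smul, sub_apply, cmul_one]
    rfl
  have h0 : 0 ≤ 1 - min 1 (1024 * K ^ 4)⁻¹ := sub_nonneg.2 (min_le_left _ _)
  have h1 : ‖(μ / (8 * K ^ 2)) • (rr L * rr L) - 1‖ ≤ 1 - min 1 (1024 * K ^ 4)⁻¹ := by
    refine (ContinuousMap.norm_le _ h0).2 fun x => (pi_norm_le_iff_of_nonneg h0).2 fun i => ?_
    change |μ / (8 * K ^ 2) * (rr L x i * rr L x i) - 1| ≤ _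
    obtain ⟨a1, a2⟩ := rr_bd hK hL x i
    have a0 : 0 ≤ rr L x i := le_trans (by positivity) a1
    have m0 : 0 ≤ μ := le_trans (by norm_num) hμ.1
    have b1 : μ / (8 * K ^ 2) * (rr L x i * rr L x i) ≤ 2 / (8 * K ^ 2) * (2 * K * (2 * K)) := by
      gcongr
      exact hμ.2
    have b2 : 1 / 2 / (8 * K ^ 2) * ((8 * K)⁻¹ * (8 * K)⁻¹) ≤
        μ / (8 * K ^ 2) * (rr L x i * rr L x i) := by
      gcongr
      exact hμ.1
    have c1 : 2 / (8 * K ^ 2) * (2 * K * (2 * K)) = 1 := by field_simp; norm_num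
    have c2 : 1 / 2 / (8 * K ^ 2) * ((8 * K)⁻¹ * (8 * K)⁻¹) = (1024 * K ^ 4)⁻¹ := by
      field_simp; norm_num
    have c3 := min_le_right 1 (1024 * K ^ 4)⁻¹
    rw [abs_le]
    constructor <;> linarith
  rw [e]
  refine (cmul_norm _ _ _).trans ?_
  gcongr
  exact (mul_le_mul mu_norm h1 (norm_nonneg _) zero_le_one).trans_eq (one_mul _)

theorem ka_tL (L : VV) (p : C(II, E3)) : ka (L, tL p) = tL (cbil mu (rr L) (r1 + p)) := by
  rw [ka, ← map_add, cmul_tL]

theorem Pf_eq (p : C(II, E3)) (i : Fin 3) (x : II) : Pf p i x = r1 x i + p x i := by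
  rw [Pf, r1_apply, show pj (x : ℝ) = x by simp [pj, projIcc_val]]

theorem ss_tL (hK : 0 < K) {L : VV} (hL : L ∈ UU K) (p : C(II, E3)) (x : II) (i : Fin 3) :
    ss (L, tL p) x i = sF L p i x := by
  have hc : Continuous fun s : ℝ => nu ((r1 + p) (pj s)) (cbil mu (rr L) (r1 + p) (pj s)) :=
    (cbil nu (r1 + p) (cbil mu (rr L) (r1 + p))).continuous.comp continuous_projIcc
  rw [ss, ka_tL, ← map_add, J2_tL, sF]
  refine ((ContinuousLinearMap.proj (R := ℝ) (φ := fun _ : Fin 3 => ℝ) i).intervalIntegral_comp_comm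
    (hc.intervalIntegrable 0 x)).symm.trans (intervalIntegral.integral_congr fun y hy => ?_)
  rw [uIcc_of_le x.2.1] at hy
  have hy' : y ∈ Icc (0 : ℝ) 1 := ⟨hy.1, hy.2.trans x.2.2⟩
  have e : y = (pj y : II) := by simp [pj, projIcc_of_mem _ hy']
  change (r1 (pj y) i + p (pj y) i) * (rr L (pj y) i * (r1 (pj y) i + p (pj y) i)) =
    Pf p i y ^ 2 / mm L i y
  rw [rr_apply hK hL, ← Pf_eq, ← e]
  ring

theorem F_eq (hK : 0 < K) {L : VV} (hL : L ∈ UU K) (p q Fc : C(II, E3)) (w : VV)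
    (h : ∀ (x : II) i, Fc x i = FF L p (q x i) w i x) :
    AA L (tL q) + N0 (L, tL p) + N1 (L, tL p) w = tL Fc := by
  change cmul mu _ _ + (cmul mu _ _ - cmul mu _ _ + cmul mu _ _) +
    cmul mu (lam0 w + Mx w) (ka (L, tL p)) = _
  rw [ka_tL]
  simp only [cmul_tL, ← map_add, ← map_sub]
  congr 1
  ext x i
  have h1 : ∀ j, ss (L, tL p) 1 j = sF L p j 1 := fun j => ss_tL hK hL p 1 j
  have h2 : lamF L p w i x = lam0 w x i + lam0 (ss (L, tL p) 1) x i + Mx w x i +
      ss (L, tL p) x i := by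
    rw [lamF, ss_tL hK hL, lam0_apply, lam0_apply, h1, h1]
    fin_cases i <;> simp [Mx] <;> ring
  have h3 := (mm_pos hK hL x i).ne'
  rw [h, FF, h2, Pf_eq, ← r2_apply x]
  simp only [ContinuousMap.add_apply, ContinuousMap.sub_apply, ContinuousMap.mul_apply,
    cbil_apply, PiLp.add_apply, PiLp.sub_apply, mu_apply, Pi.add_apply, Pi.mul_apply,
    rr_apply hK hL, mx, pf_apply, ContinuousMap.zero_apply, ContinuousMap.coe_mk]
  field_simp
  ring

theorem v_eq (hK : 0 < K) {L : VV} (hL : L ∈ UU K) (p : C(II, E3)) :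
    WW L (p 0, p 1) + W0 (L, tL p) = vF L p := by
  funext i
  change rr L 0 1 * bd (p 0, p 1) i + -ss (L, tL p) 1 i = _
  rw [ss_tL hK hL, rr_apply hK hL, bd_apply, vF, mm, sub_self, zero_mul, add_zero]
  simp only [Set.Icc.coe_one]
  ring

end SYSAux

open SYSAux in
theorem sys (hM : S_MODES) (hR : S_REL) (hT : S_TR) : S_SYS := by
  intro K hK
  obtain ⟨M, hM⟩ := hM
  obtain ⟨T1, T2, hT⟩ := hT
  refine ⟨{ M := M
            U := UU K
            A := AA
            N0 := N0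
            N1 := N1
            W := WW
            W0 := W0
            T1 := T1
            T2 := T2
            c := 8 * K ^ 2
            γ := min 1 (1024 * K ^ 4)⁻¹
            CT := 1
            hc := by positivity
            hγ := by positivity
            hγ1 := min_le_left _ _
            hCT := zero_le_one
            oU := open_UU
            sA := (sb_AA hK).1
            sN0 := (sb_N0 hK).1
            sN1 := (sb_N1 hK).1
            sW := (sb_WW hK).1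
            sW0 := (sb_W0 hK).1
            bA := (sb_AA hK).2 0
            bN0 := (sb_N0 hK).2
            bN1 := (sb_N1 hK).2
            bW := (sb_WW hK).2 0
            bW0 := (sb_W0 hK).2
            hA := fun L hL μ hμ h => AA_bd hK hL hμ h
            hT1 := hT.h1
            hT2 := hT.h2
            hT := fun δ hδ h1 h2 h => ?_ },
    hM, rfl, hT, fun L hL p q Fc w h => F_eq hK hL p q Fc w h, fun L hL p h2 h => ?_⟩
  · obtain ⟨c, -, -, rfl⟩ := (hR M hM).2.2.2 h1 h2 h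
    rw [hT.val δ hδ, hT.val 1 ⟨zero_lt_one, le_rfl⟩]
  · exact (congrArg (fun z => WW L z + W0 (L, tL p)) h).trans (v_eq hK hL p)

end Pool.Agent.P.MP_cf7202_gt
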