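import Pool.Agent.P.MP_cf7202_gt.DefCl

/-! The calculus toolkit on `(a,b) × [0,1]`. -/

namespace Pool.Agent.P.MP_cf7202_gt

open Set Filter Topology Function Real
open scoped ContDiff

namespace TKAux

theorem uniq (a b : ℝ) : UniqueDiffOn ℝ (Ioo a b ×ˢ Icc (0 : ℝ) 1) :=
  (uniqueDiffOn_Ioo a b).prod (uniqueDiffOn_Icc zero_lt_one)

/-- continuous first derivative in time and a space derivative give a total derivative -/
theorem hasF {a b : ℝ} {f g₁ : ℝ → ℝ → ℝ} {t x c : ℝ} (hg : Ct a b g₁)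
    (h₁ : ∀ s ∈ Ioo a b, ∀ y ∈ Icc (0 : ℝ) 1, HasDerivAt (fun r => f r y) (g₁ s y) s)
    (ht : t ∈ Ioo a b) (hx : x ∈ Icc (0 : ℝ) 1)
    (h₂ : HasDerivWithinAt (f t) c (Icc 0 1) x) :
    HasFDerivWithinAt (uncurry f)
      (g₁ t x • ContinuousLinearMap.fst ℝ ℝ ℝ + c • ContinuousLinearMap.snd ℝ ℝ ℝ)
      (Ioo a b ×ˢ Icc (0 : ℝ) 1) (t, x) := by
  rw [hasFDerivWithinAt_iff_isLittleO, Asymptotics.isLittleO_iff]
  intro ε hε
  have hε2 : 0 < ε / 2 := by linarith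
  have hc : ContinuousWithinAt (uncurry g₁) (Ioo a b ×ˢ Icc (0 : ℝ) 1) (t, x) :=
    hg (t, x) ⟨ht, hx⟩
  obtain ⟨δ, hδ, hδ'⟩ := Metric.continuousWithinAt_iff.1 hc (ε / 2) hε2
  have h2' := (Asymptotics.isLittleO_iff.1 (hasDerivWithinAt_iff_isLittleO.1 h₂)) hε2
  have hsnd : Tendsto (Prod.snd : ℝ × ℝ → ℝ) (𝓝[Ioo a b ×ˢ Icc (0 : ℝ) 1] (t, x))
      (𝓝[Icc (0 : ℝ) 1] x) := by
    apply tendsto_nhdsWithin_of_tendsto_nhds_of_eventually_within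
    · exact (continuous_snd.tendsto (t, x)).mono_left nhdsWithin_le_nhds
    · filter_upwards [self_mem_nhdsWithin] with z hz using hz.2
  have hball : ∀ᶠ z in 𝓝[Ioo a b ×ˢ Icc (0 : ℝ) 1] (t, x), z ∈ Metric.ball (t, x) δ :=
    mem_nhdsWithin_of_mem_nhds (Metric.ball_mem_nhds _ hδ)
  filter_upwards [hsnd.eventually h2', hball, self_mem_nhdsWithin] with z hz1 hz2 hz3
  obtain ⟨s, y⟩ := z
  have hs : s ∈ Ioo a b := hz3.1
  have hy : y ∈ Icc (0 : ℝ) 1 := hz3.2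
  rw [Metric.mem_ball, Prod.dist_eq, max_lt_iff] at hz2
  have hmv : ‖(f s y - g₁ t x * s) - (f t y - g₁ t x * t)‖ ≤ ε / 2 * ‖s - t‖ := by
    apply Convex.norm_image_sub_le_of_norm_hasDerivWithin_le
      (f := fun r => f r y - g₁ t x * r) (f' := fun r => g₁ r y - g₁ t x)
      (s := Ioo a b ∩ Metric.ball t δ)
    · intro r hr
      have := (h₁ r hr.1 y hy).fun_sub ((hasDerivAt_id' r).const_mul (g₁ t x))
      rw [mul_one] at this
      exact this.hasDerivWithinAt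
    · intro r hr
      have h3 : dist (r, y) (t, x) < δ := by
        rw [Prod.dist_eq, max_lt_iff]
        exact ⟨hr.2, hz2.2⟩
      have := hδ' (x := (r, y)) ⟨hr.1, hy⟩ h3
      rw [Real.dist_eq] at this
      exact this.le
    · exact (convex_Ioo a b).inter (convex_ball t δ)
    · exact ⟨ht, Metric.mem_ball_self hδ⟩
    · exact ⟨hs, hz2.1⟩
  have n1 : ‖s - t‖ ≤ ‖((s, y) : ℝ × ℝ) - (t, x)‖ := norm_fst_le (((s, y) : ℝ × ℝ) - (t, x))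
  have n2 : ‖y - x‖ ≤ ‖((s, y) : ℝ × ℝ) - (t, x)‖ := norm_snd_le (((s, y) : ℝ × ℝ) - (t, x))
  have e : uncurry f (s, y) - uncurry f (t, x) -
      (g₁ t x • ContinuousLinearMap.fst ℝ ℝ ℝ + c • ContinuousLinearMap.snd ℝ ℝ ℝ)
        (((s, y) : ℝ × ℝ) - (t, x)) =
      ((f s y - g₁ t x * s) - (f t y - g₁ t x * t)) + (f t y - f t x - (y - x) • c) := by
    simp [uncurry]
    ring
  rw [e]
  have h4 := norm_add_le ((f s y - g₁ t x * s) - (f t y - g₁ t x * t)) (f t y - f t x - (y - x) • c)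
  have h5 : ε / 2 * ‖s - t‖ ≤ ε / 2 * ‖((s, y) : ℝ × ℝ) - (t, x)‖ :=
    mul_le_mul_of_nonneg_left n1 hε2.le
  have h6 : ε / 2 * ‖y - x‖ ≤ ε / 2 * ‖((s, y) : ℝ × ℝ) - (t, x)‖ :=
    mul_le_mul_of_nonneg_left n2 hε2.le
  simp only at hz1
  linarith

theorem fam (a b : ℝ) (𝓕 : Set (ℝ → ℝ → ℝ)) (h0 : ∀ f ∈ 𝓕, Ct a b f)
    (h1 : ∀ f ∈ 𝓕, ∃ g ∈ 𝓕, ∀ t ∈ Ioo a b, ∀ x ∈ Icc (0 : ℝ) 1,
      HasDerivAt (fun s => f s x) (g t x) t)
    (h2 : ∀ f ∈ 𝓕, ∃ g ∈ 𝓕, ∀ t ∈ Ioo a b, ∀ x ∈ Icc (0 : ℝ) 1,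
      HasDerivWithinAt (f t) (g t x) (Icc 0 1) x) :
    ∀ f ∈ 𝓕, Sm a b f := by
  have key : ∀ n : ℕ, ∀ f ∈ 𝓕, ContDiffOn ℝ n (uncurry f) (Ioo a b ×ˢ Icc (0 : ℝ) 1) := by
    intro n
    induction n with
    | zero =>
      intro f hf
      exact contDiffOn_zero.2 (h0 f hf)
    | succ n ih =>
      intro f hf
      obtain ⟨g₁, hg₁, e₁⟩ := h1 f hf
      obtain ⟨g₂, hg₂, e₂⟩ := h2 f hf
      rw [Nat.cast_succ, contDiffOn_succ_iff_hasFDerivWithinAt_of_uniqueDiffOn (uniq a b)]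
      refine ⟨fun h => absurd h (by simp), fun z => uncurry g₁ z • ContinuousLinearMap.fst ℝ ℝ ℝ +
        uncurry g₂ z • ContinuousLinearMap.snd ℝ ℝ ℝ, ?_, ?_⟩
      · exact ((ih g₁ hg₁).smul contDiffOn_const).add ((ih g₂ hg₂).smul contDiffOn_const)
      · rintro ⟨t, x⟩ hz
        exact hasF (h0 g₁ hg₁) e₁ hz.1 hz.2 (e₂ t hz.1 x hz.2)
  intro f hf
  exact contDiffOn_infty.2 fun n => key n f hf

theorem hasFD {a b : ℝ} {f : ℝ → ℝ → ℝ} (hf : Sm a b f) {t x : ℝ} (ht : t ∈ Ioo a b)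
    (hx : x ∈ Icc (0 : ℝ) 1) :
    HasFDerivWithinAt (uncurry f)
      (fderivWithin ℝ (uncurry f) (Ioo a b ×ˢ Icc (0 : ℝ) 1) (t, x))
      (Ioo a b ×ˢ Icc (0 : ℝ) 1) (t, x) :=
  ((hf.differentiableOn (by simp)) (t, x) ⟨ht, hx⟩).hasFDerivWithinAt

theorem has_dx' {a b : ℝ} {f : ℝ → ℝ → ℝ} (hf : Sm a b f) {t x : ℝ} (ht : t ∈ Ioo a b)
    (hx : x ∈ Icc (0 : ℝ) 1) :
    HasDerivWithinAt (f t)
      (fderivWithin ℝ (uncurry f) (Ioo a b ×ˢ Icc (0 : ℝ) 1) (t, x) (0, 1)) (Icc 0 1) x := by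
  have h1 : HasDerivWithinAt (fun y : ℝ => ((t, y) : ℝ × ℝ)) (0, 1) (Icc 0 1) x :=
    ((hasDerivAt_const x t).prodMk (hasDerivAt_id x)).hasDerivWithinAt
  exact (hasFD hf ht hx).comp_hasDerivWithinAt x h1 fun y hy => ⟨ht, hy⟩

theorem has_dt' {a b : ℝ} {f : ℝ → ℝ → ℝ} (hf : Sm a b f) {t x : ℝ} (ht : t ∈ Ioo a b)
    (hx : x ∈ Icc (0 : ℝ) 1) :
    HasDerivAt (fun s => f s x)
      (fderivWithin ℝ (uncurry f) (Ioo a b ×ˢ Icc (0 : ℝ) 1) (t, x) (1, 0)) t := by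
  have h1 : HasDerivWithinAt (fun s : ℝ => ((s, x) : ℝ × ℝ)) (1, 0) (Ioo a b) t :=
    ((hasDerivAt_id t).prodMk (hasDerivAt_const t x)).hasDerivWithinAt
  have hm : MapsTo (fun s : ℝ => ((s, x) : ℝ × ℝ)) (Ioo a b) (Ioo a b ×ˢ Icc (0 : ℝ) 1) :=
    fun s hs => ⟨hs, hx⟩
  have h2 := (hasFD hf ht hx).comp_hasDerivWithinAt t h1 hm
  exact h2.hasDerivAt (Ioo_mem_nhds ht.1 ht.2)

theorem dx_eq {f : ℝ → ℝ → ℝ} {t x c : ℝ} (hx : x ∈ Icc (0 : ℝ) 1)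
    (h : HasDerivWithinAt (f t) c (Icc 0 1) x) : dx f t x = c :=
  h.derivWithin (uniqueDiffOn_Icc zero_lt_one x hx)

theorem dt_eq {f : ℝ → ℝ → ℝ} {t x c : ℝ} (h : HasDerivAt (fun s => f s x) c t) :
    dt f t x = c :=
  h.deriv

theorem has_dx (a b : ℝ) (f : ℝ → ℝ → ℝ) (hf : Sm a b f) (t : ℝ) (ht : t ∈ Ioo a b) (x : ℝ)
    (hx : x ∈ Icc (0 : ℝ) 1) : HasDerivWithinAt (f t) (dx f t x) (Icc 0 1) x := by
  rw [dx_eq hx (has_dx' hf ht hx)]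
  exact has_dx' hf ht hx

theorem has_dt (a b : ℝ) (f : ℝ → ℝ → ℝ) (hf : Sm a b f) (t : ℝ) (ht : t ∈ Ioo a b) (x : ℝ)
    (hx : x ∈ Icc (0 : ℝ) 1) : HasDerivAt (fun s => f s x) (dt f t x) t := by
  rw [dt_eq (has_dt' hf ht hx)]
  exact has_dt' hf ht hx

theorem sm_fd {a b : ℝ} {f : ℝ → ℝ → ℝ} (hf : Sm a b f) (v : ℝ × ℝ) :
    ContDiffOn ℝ ∞ (fun z => fderivWithin ℝ (uncurry f) (Ioo a b ×ˢ Icc (0 : ℝ) 1) z v)
      (Ioo a b ×ˢ Icc (0 : ℝ) 1) :=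
  (ContDiffOn.fderivWithin hf (uniq a b) (by simp)).clm_apply contDiffOn_const

theorem sm_dx (a b : ℝ) (f : ℝ → ℝ → ℝ) (hf : Sm a b f) : Sm a b (dx f) :=
  (sm_fd hf (0, 1)).congr fun _ hz => dx_eq hz.2 (has_dx' hf hz.1 hz.2)

theorem sm_dt (a b : ℝ) (f : ℝ → ℝ → ℝ) (hf : Sm a b f) : Sm a b (dt f) :=
  (sm_fd hf (1, 0)).congr fun _ hz => dt_eq (has_dt' hf hz.1 hz.2)

theorem sm_ct {a b : ℝ} {f : ℝ → ℝ → ℝ} (hf : Sm a b f) : Ct a b f :=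
  ContDiffOn.continuousOn hf

theorem slice {T : Set ℝ} {f : ℝ → ℝ → ℝ} (hf : ContinuousOn (uncurry f) (T ×ˢ Icc (0 : ℝ) 1))
    {t : ℝ} (ht : t ∈ T) : ContinuousOn (f t) (Icc 0 1) :=
  hf.comp (f := fun y : ℝ => ((t, y) : ℝ × ℝ)) (by fun_prop) fun _ hy => ⟨ht, hy⟩

theorem uIcc_sub {x : ℝ} (hx : x ∈ Icc (0 : ℝ) 1) : uIcc 0 x ⊆ Icc (0 : ℝ) 1 := by
  rw [uIcc_of_le hx.1]
  exact Icc_subset_Icc le_rfl hx.2

theorem ii {g : ℝ → ℝ} (hg : ContinuousOn g (Icc 0 1)) {x : ℝ} (hx : x ∈ Icc (0 : ℝ) 1) :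
    IntervalIntegrable g MeasureTheory.volume 0 x :=
  (hg.mono (uIcc_sub hx)).intervalIntegrable

theorem int_dx (f : ℝ → ℝ) (hf : ContinuousOn f (Icc 0 1)) (x : ℝ) (hx : x ∈ Icc (0 : ℝ) 1) :
    HasDerivWithinAt (fun z => ∫ y in (0 : ℝ)..z, f y) (f x) (Icc 0 1) x := by
  have hc : Continuous fun y : ℝ => f (projIcc (0 : ℝ) 1 zero_le_one y) :=
    hf.comp_continuous (continuous_subtype_val.comp continuous_projIcc)
      fun y => (projIcc (0 : ℝ) 1 zero_le_one y).2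
  have h2 : HasDerivAt (fun z => ∫ y in (0 : ℝ)..z, f (projIcc (0 : ℝ) 1 zero_le_one y))
      (f (projIcc (0 : ℝ) 1 zero_le_one x)) x :=
    intervalIntegral.integral_hasDerivAt_right (hc.intervalIntegrable _ _)
      (hc.stronglyMeasurableAtFilter _ _) hc.continuousAt
  rw [projIcc_of_mem _ hx] at h2
  have e : ∀ z ∈ Icc (0 : ℝ) 1, ∫ y in (0 : ℝ)..z, f y =
      ∫ y in (0 : ℝ)..z, f (projIcc (0 : ℝ) 1 zero_le_one y) := by
    intro z hz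
    apply intervalIntegral.integral_congr
    intro y hy
    simp only [projIcc_of_mem _ (uIcc_sub hz hy)]
  exact h2.hasDerivWithinAt.congr e (e x hx)

theorem ftc (f g : ℝ → ℝ) (hg : ContinuousOn g (Icc 0 1))
    (h : ∀ x ∈ Icc (0 : ℝ) 1, HasDerivWithinAt f (g x) (Icc 0 1) x) (x : ℝ)
    (hx : x ∈ Icc (0 : ℝ) 1) : ∫ y in (0 : ℝ)..x, g y = f x - f 0 := by
  apply intervalIntegral.integral_eq_sub_of_hasDerivAt_of_le hx.1
  · intro y hy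
    exact (h y ⟨hy.1, hy.2.trans hx.2⟩).continuousWithinAt.mono (Icc_subset_Icc le_rfl hx.2)
  · intro y hy
    exact (h y ⟨hy.1.le, hy.2.le.trans hx.2⟩).hasDerivAt
      (Icc_mem_nhds hy.1 (hy.2.trans_le hx.2))
  · exact ii hg hx

theorem int_dt (a b : ℝ) (f g : ℝ → ℝ → ℝ) (hf : Ct a b f) (hg : Ct a b g)
    (h : ∀ t ∈ Ioo a b, ∀ x ∈ Icc (0 : ℝ) 1, HasDerivAt (fun s => f s x) (g t x) t)
    (t : ℝ) (ht : t ∈ Ioo a b) (x : ℝ) (hx : x ∈ Icc (0 : ℝ) 1) :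
    HasDerivAt (fun s => ∫ y in (0 : ℝ)..x, f s y) (∫ y in (0 : ℝ)..x, g t y) t := by
  have hsub : Icc ((a + t) / 2) ((t + b) / 2) ⊆ Ioo a b := by
    intro s hs
    exact ⟨by linarith [ht.1, hs.1], by linarith [ht.2, hs.2]⟩
  have hnh : Icc ((a + t) / 2) ((t + b) / 2) ∈ 𝓝 t :=
    Icc_mem_nhds (by linarith [ht.1]) (by linarith [ht.2])
  have hK : IsCompact (Icc ((a + t) / 2) ((t + b) / 2) ×ˢ Icc (0 : ℝ) 1) :=
    isCompact_Icc.prod isCompact_Icc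
  obtain ⟨C, hC⟩ := hK.exists_bound_of_continuousOn
    (ContinuousOn.mono hg (prod_mono hsub Subset.rfl))
  have hI : ∀ y ∈ uIoc (0 : ℝ) x, y ∈ Icc (0 : ℝ) 1 := fun y hy =>
    uIcc_sub hx (uIoc_subset_uIcc hy)
  refine (intervalIntegral.hasDerivAt_integral_of_dominated_loc_of_deriv_le
    (F := f) (F' := g) (bound := fun _ => C) hnh ?_ (ii (slice hf ht) hx) ?_ ?_ ?_ ?_).2
  · filter_upwards [hnh] with s hs
    exact (intervalIntegrable_iff.1 (ii (slice hf (hsub hs)) hx)).aestronglyMeasurable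
  · exact (intervalIntegrable_iff.1 (ii (slice hg ht) hx)).aestronglyMeasurable
  · exact Eventually.of_forall fun y hy s hs => hC (s, y) ⟨hs, hI y hy⟩
  · exact intervalIntegrable_const
  · exact Eventually.of_forall fun y hy s hs => h s (hsub hs) y (hI y hy)

theorem c_int (T : Set ℝ) (f : ℝ → ℝ → ℝ)
    (hf : ContinuousOn (uncurry f) (T ×ˢ Icc (0 : ℝ) 1)) :
    ContinuousOn (uncurry fun t x => ∫ y in (0 : ℝ)..x, f t y) (T ×ˢ Icc (0 : ℝ) 1) := by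
  have hc : Continuous (uncurry fun (t : T) (y : ℝ) => f t (projIcc (0 : ℝ) 1 zero_le_one y)) := by
    refine hf.comp_continuous
      (f := fun z : T × ℝ => ((z.1.1, (projIcc (0 : ℝ) 1 zero_le_one z.2).1) : ℝ × ℝ)) ?_ ?_
    · exact (continuous_subtype_val.comp continuous_fst).prodMk
        (continuous_subtype_val.comp (continuous_projIcc.comp continuous_snd))
    · exact fun z => ⟨z.1.2, (projIcc (0 : ℝ) 1 zero_le_one z.2).2⟩
  have h1 := intervalIntegral.continuous_parametric_primitive_of_continuous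
    (μ := MeasureTheory.volume) (a₀ := 0) hc
  rw [continuousOn_iff_continuous_domRestrict]
  have h2 : Continuous fun z : (T ×ˢ Icc (0 : ℝ) 1 : Set (ℝ × ℝ)) =>
      (((⟨z.1.1, z.2.1⟩ : T), z.1.2) : T × ℝ) :=
    ((continuous_fst.comp continuous_subtype_val).subtype_mk _).prodMk
      (continuous_snd.comp continuous_subtype_val)
  refine (h1.comp h2).congr fun z => ?_
  apply intervalIntegral.integral_congr
  intro y hy
  simp only [projIcc_of_mem _ (uIcc_sub z.2.2 hy)]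

theorem comm (a b : ℝ) (f : ℝ → ℝ → ℝ) (hf : Sm a b f) (t : ℝ) (ht : t ∈ Ioo a b) (x : ℝ)
    (hx : x ∈ Icc (0 : ℝ) 1) : dt (dx f) t x = dx (dt f) t x := by
  have h0 : (0 : ℝ) ∈ Icc (0 : ℝ) 1 := ⟨le_rfl, zero_le_one⟩
  have sx := sm_dx a b f hf
  have stx := sm_dt a b _ sx
  have e : ∀ y ∈ Icc (0 : ℝ) 1, dt f t y = dt f t 0 + ∫ z in (0 : ℝ)..y, dt (dx f) t z := by
    intro y hy
    have d1 := (has_dt a b f hf t ht 0 h0).add
      (int_dt a b (dx f) (dt (dx f)) (sm_ct sx) (sm_ct stx) (has_dt a b _ sx) t ht y hy)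
    apply dt_eq
    apply d1.congr_of_eventuallyEq
    filter_upwards [Ioo_mem_nhds ht.1 ht.2] with s hs
    have := ftc (f s) (dx f s) (slice (sm_ct sx) hs) (has_dx a b f hf s hs) y hy
    simp only [Pi.add_apply]
    linarith
  have d2 := (int_dx (dt (dx f) t) (slice (sm_ct stx) ht) x hx).const_add (dt f t 0)
  exact (dx_eq hx (d2.congr e (e x hx))).symm

theorem sm_int (a b : ℝ) (f : ℝ → ℝ → ℝ) (hf : Sm a b f) :
    Sm a b (fun t x => ∫ y in (0 : ℝ)..x, f t y) := by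
  apply fam a b {g | Sm a b g ∨ ∃ h, Sm a b h ∧ g = fun t x => ∫ y in (0 : ℝ)..x, h t y}
  · rintro g (hg | ⟨h, hh, rfl⟩)
    · exact sm_ct hg
    · exact c_int _ h (sm_ct hh)
  · rintro g (hg | ⟨h, hh, rfl⟩)
    · exact ⟨dt g, Or.inl (sm_dt a b g hg), has_dt a b g hg⟩
    · exact ⟨_, Or.inr ⟨dt h, sm_dt a b h hh, rfl⟩,
        int_dt a b h (dt h) (sm_ct hh) (sm_ct (sm_dt a b h hh)) (has_dt a b h hh)⟩
  · rintro g (hg | ⟨h, hh, rfl⟩)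
    · exact ⟨dx g, Or.inl (sm_dx a b g hg), has_dx a b g hg⟩
    · exact ⟨h, Or.inl hh, fun t ht x hx => int_dx (h t) (slice (sm_ct hh) ht) x hx⟩
  · exact Or.inr ⟨f, hf, rfl⟩

theorem sm_ts (a b : ℝ) (f : ℝ → ℝ → ℝ) (hf : Sm a b f) : TS a b f := by
  have key : ∀ k : ℕ, Sm a b (dt^[k] f) := by
    intro k
    induction k with
    | zero => exact hf
    | succ k ih =>
      rw [iterate_succ_apply']
      exact sm_dt a b _ ih
  intro k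
  exact ⟨sm_ct (key k), fun t ht x hx => (has_dt a b _ (key k) t ht x hx).differentiableAt⟩

theorem ts_cm (a b : ℝ) (F : ℝ → C(unitInterval, ℝ)) (f : ℝ → ℝ → ℝ)
    (hF : ContDiffOn ℝ ∞ F (Ioo a b)) (e : ∀ t ∈ Ioo a b, ∀ x : unitInterval, f t x = F t x) :
    TS a b f := by
  have hd : ∀ (F : ℝ → C(unitInterval, ℝ)) (f : ℝ → ℝ → ℝ), ContDiffOn ℝ ∞ F (Ioo a b) →
      (∀ t ∈ Ioo a b, ∀ x : unitInterval, f t x = F t x) → ∀ t ∈ Ioo a b, ∀ x : unitInterval,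
        HasDerivAt (fun s => f s x) (deriv F t x) t := by
    intro F f hF e t ht x
    have h1 : HasDerivAt F (deriv F t) t :=
      (((hF.differentiableOn (by simp)) t ht).differentiableAt
        (Ioo_mem_nhds ht.1 ht.2)).hasDerivAt
    have h2 := (ContinuousMap.evalCLM ℝ x : C(unitInterval, ℝ) →L[ℝ] ℝ).hasFDerivAt.comp_hasDerivAt
      t h1
    apply h2.congr_of_eventuallyEq
    filter_upwards [Ioo_mem_nhds ht.1 ht.2] with s hs
    exact e s hs x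
  intro k
  induction k generalizing F f with
  | zero =>
    refine ⟨?_, fun t ht x hx => (hd F f hF e t ht ⟨x, hx⟩).differentiableAt⟩
    have h1 : ContinuousOn
        (fun z : ℝ × ℝ => (F z.1, projIcc (0 : ℝ) 1 zero_le_one z.2)) (Ioo a b ×ˢ Icc (0 : ℝ) 1) :=
      (hF.continuousOn.comp continuousOn_fst fun z hz => hz.1).prodMk
        (continuous_projIcc.comp continuous_snd).continuousOn
    refine (continuous_eval.comp_continuousOn h1).congr fun z hz => ?_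
    have := e z.1 hz.1 ⟨z.2, hz.2⟩
    simp only [comp_apply, projIcc_of_mem _ hz.2]
    exact this
  | succ k ih =>
    rw [iterate_succ_apply]
    exact ih (deriv F) (dt f) (hF.deriv_of_isOpen isOpen_Ioo (by simp))
      fun t ht x => dt_eq (hd F f hF e t ht x)

end TKAux

theorem tk : S_TK where
  fam := TKAux.fam
  sm_dx := TKAux.sm_dx
  sm_dt := TKAux.sm_dt
  has_dx := TKAux.has_dx
  has_dt := TKAux.has_dt
  comm := TKAux.comm
  int_dt := TKAux.int_dt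
  int_dx := TKAux.int_dx
  ftc := TKAux.ftc
  ct_int := fun _ _ f hf => TKAux.c_int _ f hf
  ct0_int := fun _ f hf => TKAux.c_int _ f hf
  sm_int := TKAux.sm_int
  sm_ts := TKAux.sm_ts
  ts_cm := TKAux.ts_cm

end Pool.Agent.P.MP_cf7202_gt
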