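import Pool.Agent.P.MP_cf7202_gt.Glue
import Pool.Agent.P.MP_cf7202_gt.TK
import Pool.Agent.P.MP_cf7202_gt.BOOT
import Pool.Agent.P.MP_cf7202_gt.CONT
import Pool.Agent.P.MP_cf7202_gt.NUMMP
import Pool.Agent.P.MP_cf7202_gt.GSc
import Pool.Agent.P.MP_cf7202_gt.INIT
import Pool.Agent.P.MP_cf7202_gt.MONO
import Pool.Agent.P.MP_cf7202_gt.B4
import Pool.Agent.P.MP_cf7202_gt.B5
import Pool.Agent.P.MP_cf7202_gt.B6
import Pool.Agent.P.MP_cf7202_gt.B7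
import Pool.Agent.P.MP_cf7202_gt.EST
import Pool.Agent.P.MP_cf7202_gt.B9
import Pool.Agent.P.MP_cf7202_gt.B10
import Pool.Agent.P.MP_cf7202_gt.FDc
import Pool.Agent.P.MP_cf7202_gt.MCl
import Pool.Agent.P.MP_cf7202_gt.NETA
import Pool.Agent.P.MP_cf7202_gt.MAX
import Pool.Agent.P.MP_cf7202_gt.ODE
import Pool.Agent.P.MP_cf7202_gt.CONV
import Pool.Agent.P.MP_cf7202_gt.BLOW
import Pool.Agent.P.MP_cf7202_gt.SC
import Pool.Agent.P.MP_cf7202_gt.MR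
import Pool.Agent.P.MP_cf7202_gt.NEM
import Pool.Agent.P.MP_cf7202_gt.FIX
import Pool.Agent.P.MP_cf7202_gt.AEST
import Pool.Agent.P.MP_cf7202_gt.EXMU
import Pool.Agent.P.MP_cf7202_gt.EXSM
import Pool.Agent.P.MP_cf7202_gt.ABS
import Pool.Agent.P.MP_cf7202_gt.MODES
import Pool.Agent.P.MP_cf7202_gt.REL
import Pool.Agent.P.MP_cf7202_gt.SYS
import Pool.Agent.P.MP_cf7202_gt.C4
import Pool.Agent.P.MP_cf7202_gt.C5
import Pool.Agent.P.MP_cf7202_gt.EXc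

/-! All packages put together. -/

namespace Pool.Agent.P.MP_cf7202_gt

open Set Function
open scoped ContDiff ENNReal

theorem abs_all : S_ABS :=
  abs_ex (uni (mr sc) aest) (exsm (uni (mr sc) aest) (exmu (mr sc) aest (dyn nem) fix))

theorem ex_all : S_EX :=
  exc tk abs_all (sys (modes trig) rel tr) rel (c4 tk (boot tk) rel) (c5 tk rel)

theorem est_all : S_EST := est tk num (b4 tk num mp) (b5 tk num mp) (b6 tk num mp) (b7 tk num mp)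

theorem final :
    ∃ (R T : ℝ) (ι : Type) (_ : Finite ι) (γ : ι → ℝ → ℝ → ℂ), 0 < R ∧ 0 < T ∧
      IsFlow (Metric.ball 0 R) γ T ∧
      (∀ i, ContDiffOn ℝ ∞ (uncurry (γ i)) (Ico 0 T ×ˢ Icc 0 1)) ∧
      (∀ i, ∀ t ∈ Ico 0 T, ∀ x ∈ Ioo (0 : ℝ) 1, γ i t x ∈ Metric.ball (0 : ℂ) R) ∧
      IsMaximal (Metric.ball 0 R) γ T ∧
      ∃ (x₀ : ℂ) (t : ℕ → ℝ) (c : ι → ℝ → ℂ) (ℓ : ι → ℝ≥0∞), IsBlowUp γ T x₀ t c ℓ ∧
        ∃ i i', i ≠ i' ∧ ℓ i = ⊤ ∧ ℓ i' = ⊤ ∧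
          ∃ r : ℝ, ∀ s : ℝ, c i s = ((r + s : ℝ) : ℂ) ∧ c i' s = ((r + s : ℝ) : ℂ) :=
  final_of num (cont tk ex_all) (init tk num)
    (apr tk num (gs tk) (init tk num) (mono tk num mp) est_all (b9 tk num (intp tk)))
    (fd tk num (gs tk) (init tk num) (mono tk num mp) est_all (b10 tk num) (glue tk (boot tk)))
    (neta (loc tk)) (flow (mcl tk) (neta (loc tk)) (netb (mcl tk) (loc tk)))
    (mx (mcl tk) (loc tk) br) (blow (mcl tk) (loc tk) (conv tk (loc tk) ode (gr tk)))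

end Pool.Agent.P.MP_cf7202_gt
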