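import Pool.Agent.P.MP_cf7202_gt.DefFD

/-! The final statement from the package statements. -/

namespace Pool.Agent.P.MP_cf7202_gt

open Set Filter Topology Function
open scoped ContDiff ENNReal

theorem RR_pos : 0 < RR := by
  unfold RR LL
  positivity

theorem final_of (num : S_NUM) (cont : S_CONT) (init : S_INIT) (apr : S_APR) (fd : S_FD)
    (neta : S_NETA) (flow : S_FLOW) (mx : S_MAX) (blow : S_BLOW) :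
    ∃ (R T : ℝ) (ι : Type) (_ : Finite ι) (γ : ι → ℝ → ℝ → ℂ), 0 < R ∧ 0 < T ∧
      IsFlow (Metric.ball 0 R) γ T ∧
      (∀ i, ContDiffOn ℝ ∞ (uncurry (γ i)) (Ico 0 T ×ˢ Icc 0 1)) ∧
      (∀ i, ∀ t ∈ Ico 0 T, ∀ x ∈ Ioo (0 : ℝ) 1, γ i t x ∈ Metric.ball (0 : ℂ) R) ∧
      IsMaximal (Metric.ball 0 R) γ T ∧
      ∃ (x₀ : ℂ) (t : ℕ → ℝ) (c : ι → ℝ → ℂ) (ℓ : ι → ℝ≥0∞), IsBlowUp γ T x₀ t c ℓ ∧
        ∃ i i', i ≠ i' ∧ ℓ i = ⊤ ∧ ℓ i' = ⊤ ∧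
          ∃ r : ℝ, ∀ s : ℝ, c i s = ((r + s : ℝ) : ℂ) ∧ c i' s = ((r + s : ℝ) : ℂ) := by
  obtain ⟨K, hK, hd⟩ := init.1
  have hT : 0 < TT := by linarith [num.TT.1]
  obtain ⟨u, hu, hc, h0⟩ := cont TT K d0 hT hK hd apr
  obtain ⟨D⟩ := fd u hu hc h0
  obtain ⟨t, c, ℓ, hb⟩ := blow D
  exact ⟨RR, D.T, Ix, inferInstance, D.net, RR_pos, D.hT, (flow D).1, (flow D).2,
    fun i t ht => (neta D t ⟨D.ha.trans_le ht.1, ht.2⟩).1 i, mx D, 0, t, c, ℓ, hb⟩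

end Pool.Agent.P.MP_cf7202_gt
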