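import Pool.Agent.P.MP_cf7202_gt.DefAbs

/-! Maximal regularity in `L²`. -/

namespace Pool.Agent.P.MP_cf7202_gt

open Set Filter Topology Function MeasureTheory

set_option linter.unusedSectionVars false

namespace MRAux

theorem key {X K : Type} [NormedAddCommGroup X] [CompleteSpace X] (u : K → X) (c : K → ℝ) {B : ℝ}
    (hB : 0 ≤ B) (h0 : ∀ k, 0 ≤ c k) (h1 : ∀ s : Finset K, ‖∑ k ∈ s, u k‖ ^ 2 ≤ ∑ k ∈ s, c k)
    (h2 : ∀ s : Finset K, ∑ k ∈ s, c k ≤ B ^ 2) : ∃ x, HasSum u x ∧ ‖x‖ ≤ B := by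
  have hc : Summable c := summable_of_sum_le h0 h2
  have hu : Summable u := by
    rw [summable_iff_vanishing_norm] at hc ⊢
    intro ε hε
    obtain ⟨s, hs⟩ := hc (ε ^ 2) (by positivity)
    refine ⟨s, fun t ht => ?_⟩
    exact lt_of_pow_lt_pow_left₀ 2 hε.le ((h1 t).trans_lt ((le_abs_self _).trans_lt (hs t ht)))
  refine ⟨_, hu.hasSum, le_of_tendsto' (Tendsto.norm hu.hasSum) fun s => ?_⟩
  exact le_of_pow_le_pow_left₀ two_ne_zero hB ((h1 s).trans (h2 s))

variable {H K : Type} [NormedAddCommGroup H] [InnerProductSpace ℝ H] [CompleteSpace H]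

theorem exC {f : K → H} (hf : Orthonormal ℝ f) {z : H} (hz : ∀ k, inner ℝ z (f k) = 0)
    (φ : K → C(II, ℝ)) (c : K → ℝ) {B : ℝ} (hB : 0 ≤ B) (h1 : ∀ k t, φ k t ^ 2 ≤ c k)
    (h2 : ∀ s : Finset K, ∑ k ∈ s, c k ≤ B ^ 2) :
    ∃ u : C(II, H), ‖u‖ ≤ B ∧ (∀ k t, inner ℝ (f k) (u t) = φ k t) ∧ ∀ t, inner ℝ z (u t) = 0 := by
  classical
  have h0 : ∀ k, 0 ≤ c k := fun k => (sq_nonneg _).trans (h1 k 0)
  obtain ⟨u, hu, hn⟩ := key (fun k => (⟨fun t => φ k t • f k, by fun_prop⟩ : C(II, H))) c hB h0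
    (fun s => by
      have h3 : 0 ≤ ∑ k ∈ s, c k := Finset.sum_nonneg fun k _ => h0 k
      rw [← Real.sq_sqrt h3]
      refine pow_le_pow_left₀ (norm_nonneg _)
        ((ContinuousMap.norm_le _ (Real.sqrt_nonneg _)).2 fun t => Real.le_sqrt_of_sq_le ?_) 2
      rw [ContinuousMap.coe_sum, Finset.sum_apply, ← real_inner_self_eq_norm_sq]
      simp only [ContinuousMap.coe_mk]
      rw [hf.inner_sum]
      exact Finset.sum_le_sum fun k _ => by simpa [sq] using h1 k t) h2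
  have h3 : ∀ (w : H) t, HasSum (fun k => φ k t * inner ℝ w (f k)) (inner ℝ w (u t)) := fun w t => by
    have := ((innerSL ℝ w).comp (ContinuousMap.evalCLM ℝ t)).hasSum hu
    simpa [inner_smul_right] using this
  refine ⟨u, hn, fun k t => (h3 (f k) t).unique ?_, fun t => (h3 z t).unique ?_⟩
  · convert hasSum_single (f := fun j => φ j t * inner ℝ (f k) (f j)) k fun j hj => ?_ using 1
    · rw [real_inner_self_eq_norm_sq, hf.1 k]; simp
    · rw [hf.2 (Ne.symm hj), mul_zero]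
  · simp [hz]

/-- the mode of an `L²` function -/
noncomputable def PM (w : H) : L2 H →L[ℝ] L2 ℝ := (innerSL ℝ w).compLpL 2 volume

/-- the `L²` function with one mode -/
noncomputable def Q (w : H) : L2 ℝ →L[ℝ] L2 H :=
  (ContinuousLinearMap.toSpanSingleton ℝ w).compLpL 2 volume

theorem P_coe (w : H) (g : L2 H) : ∀ᵐ t : II, PM w g t = inner ℝ w (g t) :=
  (innerSL ℝ w).coeFn_compLpL g

theorem Q_coe (w : H) (ψ : L2 ℝ) : ∀ᵐ t : II, Q w ψ t = ψ t • w :=
  (ContinuousLinearMap.toSpanSingleton ℝ w).coeFn_compLpL ψ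

theorem adj (w : H) (ψ : L2 ℝ) (g : L2 H) : inner ℝ (Q w ψ) g = inner ℝ ψ (PM w g) := by
  rw [L2.inner_def, L2.inner_def]
  refine integral_congr_ae ?_
  filter_upwards [P_coe w g, Q_coe w ψ] with t h1 h2
  rw [h1, h2, real_inner_smul_left]
  simp [mul_comm]

theorem PQ (v w : H) (ψ : L2 ℝ) : PM v (Q w ψ) = inner ℝ v w • ψ := by
  apply Lp.ext
  filter_upwards [P_coe v (Q w ψ), Q_coe w ψ, Lp.coeFn_smul (inner ℝ v w) ψ] with t h1 h2 h3
  rw [h1, h2, h3, inner_smul_right]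
  simp [mul_comm]

theorem pyth {f : K → H} (hf : Orthonormal ℝ f) (ψ : K → L2 ℝ) (s : Finset K) :
    ‖∑ k ∈ s, Q (f k) (ψ k)‖ ^ 2 = ∑ k ∈ s, ‖ψ k‖ ^ 2 := by
  classical
  rw [← real_inner_self_eq_norm_sq, sum_inner]
  refine Finset.sum_congr rfl fun k hk => ?_
  rw [adj, map_sum, Finset.sum_eq_single k, PQ, real_inner_self_eq_norm_sq (f k), hf.1 k, one_pow,
    one_smul, real_inner_self_eq_norm_sq]
  · intro j _ hj
    rw [PQ, hf.2 (Ne.symm hj), zero_smul]
  · exact fun h => absurd hk h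

theorem bessel {f : K → H} (hf : Orthonormal ℝ f) (g : L2 H) (s : Finset K) :
    ∑ k ∈ s, ‖PM (f k) g‖ ^ 2 ≤ ‖g‖ ^ 2 := by
  have h1 := pyth hf (fun k => PM (f k) g) s
  have h2 : inner ℝ (∑ k ∈ s, Q (f k) (PM (f k) g)) g = ∑ k ∈ s, ‖PM (f k) g‖ ^ 2 := by
    rw [sum_inner]
    exact Finset.sum_congr rfl fun k _ => by rw [adj, real_inner_self_eq_norm_sq]
  have h3 := real_inner_le_norm (∑ k ∈ s, Q (f k) (PM (f k) g)) g
  nlinarith [sq_nonneg (‖∑ k ∈ s, Q (f k) (PM (f k) g)‖ - ‖g‖)]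

theorem exL {f : K → H} (hf : Orthonormal ℝ f) (ψ : K → L2 ℝ) (c : K → ℝ) {B : ℝ} (hB : 0 ≤ B)
    (h1 : ∀ k, ‖ψ k‖ ^ 2 ≤ c k) (h2 : ∀ s : Finset K, ∑ k ∈ s, c k ≤ B ^ 2) :
    ∃ u : L2 H, ‖u‖ ≤ B ∧ ∀ k, PM (f k) u = ψ k := by
  obtain ⟨u, hu, hn⟩ := key (fun k => Q (f k) (ψ k)) c hB (fun k => (sq_nonneg _).trans (h1 k))
    (fun s => (pyth hf ψ s).le.trans (Finset.sum_le_sum fun k _ => h1 k)) h2
  refine ⟨u, hn, fun k => ((PM (f k)).hasSum hu).unique ?_⟩
  convert hasSum_single (f := fun j => PM (f k) (Q (f j) (ψ j))) k fun j hj => ?_ using 1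
  · rw [PQ, real_inner_self_eq_norm_sq, hf.1 k, one_pow, one_smul]
  · rw [PQ, hf.2 (Ne.symm hj), zero_smul]

theorem extC (M : Modes H K) {u v : H} (h1 : ∀ k, inner ℝ (M.et k) u = inner ℝ (M.et k) v)
    (h2 : inner ℝ M.z u = inner ℝ M.z v) : u = v :=
  sub_eq_zero.1 (M.tet _ (fun k => by rw [inner_sub_right, h1, sub_self])
    (by rw [inner_sub_right, h2, sub_self]))

theorem extL [Countable K] (M : Modes H K) {u v : L2 H} (h : ∀ k, PM (M.e k) u = PM (M.e k) v) :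
    u = v := by
  apply Lp.ext
  filter_upwards [ae_all_iff.2 fun k => P_coe (M.e k) u, ae_all_iff.2 fun k => P_coe (M.e k) v]
    with t h1 h2
  exact sub_eq_zero.1 (M.te _ fun k => by rw [inner_sub_right, ← h1, ← h2, h, sub_self])

theorem mode (w h0 : H) (b : ℝ) (D g : L2 H) (t : II) :
    inner ℝ w (h0 + b • JJ (D + g) t) = inner ℝ w h0 + JJ (b • PM w g + b • PM w D) t := by
  rw [← smul_add, ← map_add, map_smul, ContinuousMap.smul_apply, PM, JJ_comp, inner_add_right,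
    inner_smul_right, add_comm g]
  rfl

end MRAux

open MRAux

theorem mr : S_SC → S_MR := by
  intro hs H _ _ _ K _ M b hb
  choose KK EE k1 k2 k3 e1 e2 e3 un using fun k => hs (b ^ 2 * M.om k ^ 2) (by positivity)
  have hbn : ∀ g : L2 ℝ, ‖b • g‖ = b * ‖g‖ := fun g => by rw [norm_smul, Real.norm_of_nonneg hb.le]
  choose s1 n1 m1 z1 using fun g : L2 H => exC M.oet M.oz
    (fun k => M.om k • KK k (b • PM (M.e k) g)) (fun k => ‖PM (M.e k) g‖ ^ 2) (norm_nonneg g)
    (fun k t => by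
      have h := k2 k (b • PM (M.e k) g) t
      rw [hbn] at h
      rw [ContinuousMap.smul_apply, smul_eq_mul]
      refine le_of_mul_le_mul_left ?_ (pow_pos hb 2)
      nlinarith [sq_nonneg (b * ‖PM (M.e k) g‖)]) (bessel M.oe g)
  choose s2 n2 m2 using fun g : L2 H => exL M.oe
    (fun k => -(b * M.om k ^ 2) • tL (KK k (b • PM (M.e k) g))) (fun k => ‖PM (M.e k) g‖ ^ 2)
    (norm_nonneg g) (fun k => by
      have h := k3 k (b • PM (M.e k) g)
      rw [hbn] at h
      refine pow_le_pow_left₀ (norm_nonneg _) ?_ 2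
      rw [norm_smul, norm_neg, Real.norm_of_nonneg (by positivity)]
      refine le_of_mul_le_mul_left ?_ hb
      linarith) (bessel M.oe g)
  let S1 : L2 H →L[ℝ] C(II, H) := LinearMap.mkContinuous
    { toFun := s1
      map_add' := fun g g' => ContinuousMap.ext fun t => extC M
        (fun k => by simp [inner_add_right, m1]) (by simp [inner_add_right, z1])
      map_smul' := fun c g => ContinuousMap.ext fun t => extC M
        (fun k => by simp [inner_smul_right, m1]; ring) (by simp [inner_smul_right, z1]) } 1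
    fun g => by simpa using n1 g
  let S2 : L2 H →L[ℝ] L2 H := LinearMap.mkContinuous
    { toFun := s2
      map_add' := fun g g' => extL M fun k => by simp only [map_add, m2, smul_add]
      map_smul' := fun c g => extL M fun k => by
        simp only [map_smul, m2, RingHom.id_apply]
        module } 1
    fun g => by simpa using n2 g
  refine ⟨S1, S2, n1, n2, fun h0 h1 hr => ?_⟩
  have hbs : ∀ s : Finset K, ∑ k ∈ s, (M.om k * inner ℝ (M.e k) h0) ^ 2 ≤ ‖h1‖ ^ 2 := fun s => by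
    simpa only [hr.1, Real.norm_eq_abs, sq_abs] using M.oet.sum_inner_products_le h1 (s := s)
  obtain ⟨U1, nU1, mU1, zU1⟩ := exC M.oet M.oz (fun k => (M.om k * inner ℝ (M.e k) h0) • EE k) _
    (norm_nonneg h1) (fun k t => by
      have h := (sq_le_one_iff_abs_le_one _).2 (e2 k t)
      rw [ContinuousMap.smul_apply, smul_eq_mul, mul_pow]
      exact mul_le_of_le_one_right (sq_nonneg _) h) hbs
  obtain ⟨U2, nU2, mU2⟩ := exL M.oe
    (fun k => (-(b * M.om k ^ 2) * inner ℝ (M.e k) h0) • tL (EE k)) _ (norm_nonneg h1)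
    (fun k => by
      have h := e3 k
      rw [norm_smul, mul_pow, Real.norm_eq_abs, sq_abs]
      nlinarith [sq_nonneg (M.om k * inner ℝ (M.e k) h0),
        mul_le_mul_of_nonneg_left h (sq_nonneg (M.om k * inner ℝ (M.e k) h0))]) hbs
  let a : L2 H → K → C(II, ℝ) := fun g k => inner ℝ (M.e k) h0 • EE k + KK k (b • PM (M.e k) g)
  have a1 : ∀ g k t, inner ℝ (M.et k) ((U1 + S1 g) t) = M.om k * a g k t := fun g k t => by
    change inner ℝ _ (U1 t + s1 g t) = _
    simp only [inner_add_right, mU1, m1, a, ContinuousMap.add_apply, ContinuousMap.smul_apply,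
      smul_eq_mul]
    ring
  have a2 : ∀ g t, inner ℝ M.z ((U1 + S1 g) t) = 0 := fun g t => by
    change inner ℝ _ (U1 t + s1 g t) = _
    rw [inner_add_right, zU1, z1, add_zero]
  have a3 : ∀ g k, PM (M.e k) (U2 + S2 g) = -(b * M.om k ^ 2) • tL (a g k) := fun g k => by
    change PM _ (U2 + s2 g) = _
    simp only [map_add, mU2, m2, a, map_smul]
    module
  have a4 : ∀ (x y : L2 ℝ) k, b • x + b • -(b * M.om k ^ 2) • y = b • x - (b ^ 2 * M.om k ^ 2) • y :=
    fun x y k => by module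
  have a5 : ∀ g k t, inner ℝ (M.e k) (h0 + b • JJ (U2 + S2 g + g) t) = a g k t := fun g k t => by
    have h2 := k1 k (b • PM (M.e k) g) t
    have h3 := e1 k t
    rw [mode, a3, a4]
    simp only [a, map_add, map_sub, map_neg, map_smul, ContinuousMap.add_apply,
      ContinuousMap.sub_apply, ContinuousMap.neg_apply, ContinuousMap.smul_apply,
      smul_eq_mul] at h2 h3 ⊢
    linear_combination -h2 - inner ℝ (M.e k) h0 * h3
  refine ⟨U1, U2, nU1, nU2, fun g => ⟨extC M (fun k => ?_) (by rw [a2, hr.2]),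
    fun t => ⟨fun k => by rw [a1, a5], a2 g t⟩, ae_all_iff.2 fun k => ?_⟩,
    fun D1 D2 g r1 r2 => ?_⟩
  · rw [a1, ← a5, JJ_zero, smul_zero, add_zero, hr.1]
  · filter_upwards [P_coe (M.e k) (U2 + S2 g), Lp.coeFn_smul (-(b * M.om k ^ 2)) (tL (a g k)),
      tL_coe (a g k)] with t h2 h3 h4
    rw [← h2, a3, h3, Pi.smul_apply, h4, inner_smul_right, a1, smul_eq_mul]
    ring
  · let a' : K → C(II, ℝ) := fun k =>
      ⟨fun t => inner ℝ (M.e k) (h0 + b • JJ (D2 + g) t), by fun_prop⟩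
    have b1 : ∀ k, PM (M.e k) D2 = -(b * M.om k ^ 2) • tL (a' k) := fun k => by
      apply Lp.ext
      filter_upwards [P_coe (M.e k) D2, Lp.coeFn_smul (-(b * M.om k ^ 2)) (tL (a' k)),
        tL_coe (a' k), r2] with t h2 h3 h4 h5
      rw [h2, h3, Pi.smul_apply, h4, h5 k, inner_smul_right, (r1 t).1 k, smul_eq_mul]
      change _ = _ * inner ℝ _ _
      ring
    have b2 : ∀ k, a' k = a g k := fun k => un k _ _ _ fun t => by
      rw [← a4, ← b1, ← mode]
      rfl
    refine ⟨ContinuousMap.ext fun t => extC M (fun k => ?_) (by rw [a2, (r1 t).2]),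
      extL M fun k => by rw [a3, b1, b2]⟩
    rw [a1, ← b2, (r1 t).1 k]
    rfl

end Pool.Agent.P.MP_cf7202_gt
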