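import Mathlib

/-! Generic operators on `L²([0,1],F)` and `C([0,1],F)`. -/

namespace Pool.Agent.P.MP_cf7202_gt

open Set Filter Topology Function MeasureTheory
open scoped ContDiff ENNReal

set_option linter.unusedSectionVars false

/-- the unit interval as a type -/
abbrev II : Type := ↥unitInterval

/-- square integrable functions on the unit interval -/
abbrev L2 (F : Type) [NormedAddCommGroup F] : Type := ↥(Lp F 2 (volume : Measure II))

/-- projection of the real line onto the unit interval -/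
noncomputable abbrev pj (s : ℝ) : II := projIcc (0 : ℝ) 1 zero_le_one s

section
variable {E F G : Type} [NormedAddCommGroup E] [NormedSpace ℝ E] [NormedAddCommGroup F]
  [NormedSpace ℝ F] [NormedAddCommGroup G] [NormedSpace ℝ G]

/-- continuous functions as elements of `L²` -/
noncomputable def tL : C(II, F) →L[ℝ] L2 F := ContinuousMap.toLp 2 volume ℝ

theorem tL_coe (u : C(II, F)) : ∀ᵐ t : II, tL u t = u t := ContinuousMap.coeFn_toLp volume u

theorem toLp_norm_le' (p : ℝ≥0∞) [Fact (1 ≤ p)] (u : C(II, F)) :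
    ‖ContinuousMap.toLp (E := F) p (volume : Measure II) ℝ u‖ ≤ ‖u‖ := by
  have h := ContinuousMap.toLp_norm_le (E := F) (p := p) (volume : Measure II) (𝕜 := ℝ)
  have h1 : (measureUnivNNReal (volume : Measure II) : ℝ) = 1 := by
    simp [measureUnivNNReal]
  have h2 : ‖(ContinuousMap.toLp p (volume : Measure II) ℝ : C(II, F) →L[ℝ] _)‖ ≤ 1 := by
    refine h.trans ?_
    rw [h1, Real.one_rpow]
  calc _ ≤ ‖(ContinuousMap.toLp p (volume : Measure II) ℝ : C(II, F) →L[ℝ] _)‖ * ‖u‖ :=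
        ContinuousLinearMap.le_opNorm _ _
    _ ≤ 1 * ‖u‖ := by gcongr
    _ = ‖u‖ := one_mul _

theorem tL_norm (u : C(II, F)) : ‖tL u‖ ≤ ‖u‖ := toLp_norm_le' 2 u

instance : Measure.IsOpenPosMeasure (volume : Measure II) :=
  ⟨fun U hU hne h0 => by
    obtain ⟨x, hx⟩ := hne
    obtain ⟨a, b, hab, hx', hs⟩ : ∃ a b : II, a < b ∧ True ∧ Ioo a b ⊆ U := by
      by_cases h1 : x < 1
      · obtain ⟨b, hb, hs⟩ := exists_Ico_subset_of_mem_nhds (hU.mem_nhds hx) ⟨1, h1⟩
        exact ⟨x, b, hb, trivial, Ioo_subset_Ico_self.trans hs⟩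
      · have h0 : (0 : II) < x := by
          have : x = 1 := le_antisymm x.2.2 (not_lt.mp h1)
          rw [this]; exact zero_lt_one
        obtain ⟨a, ha, hs⟩ := exists_Ioc_subset_of_mem_nhds (hU.mem_nhds hx) ⟨0, h0⟩
        exact ⟨a, x, ha, trivial, Ioo_subset_Ioc_self.trans hs⟩
    have := measure_mono_null hs h0
    rw [unitInterval.volume_Ioo, ENNReal.ofReal_eq_zero] at this
    have h' : (a : ℝ) < b := hab
    linarith⟩

theorem tL_injective : Injective (tL : C(II, F) → L2 F) :=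
  ContinuousMap.toLp_injective (𝕜 := ℝ) volume

theorem tL_dense [SecondCountableTopology F] : DenseRange (tL : C(II, F) → L2 F) :=
  ContinuousMap.toLp_denseRange F volume ℝ (by simp)

theorem L2_integrable (f : L2 F) : Integrable f (volume : Measure II) :=
  (Lp.memLp f).integrable (by norm_num)

/-- a pointwise bound gives a bound on the norms -/
theorem L2_norm_le (f : L2 F) (g : L2 G) (g' : L2 E) {a b c : ℝ} (ha : 0 ≤ a) (hb : 0 ≤ b)
    (hc : 0 ≤ c) (h : ∀ᵐ t : II, ‖f t‖ ≤ a * ‖g t‖ + b * ‖g' t‖ + c) :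
    ‖f‖ ≤ a * ‖g‖ + b * ‖g'‖ + c := by
  set w : L2 ℝ := a • (Lp.memLp g).norm.toLp _ + b • (Lp.memLp g').norm.toLp _
    + tL (ContinuousMap.const II c) with hw
  have h1 : ‖f‖ ≤ ‖w‖ := by
    refine Lp.norm_le_norm_of_ae_le ?_
    filter_upwards [h, Lp.coeFn_add (a • (Lp.memLp g).norm.toLp _ + b • (Lp.memLp g').norm.toLp _)
      (tL (ContinuousMap.const II c)), Lp.coeFn_add (a • (Lp.memLp g).norm.toLp _)
      (b • (Lp.memLp g').norm.toLp _), Lp.coeFn_smul a ((Lp.memLp g).norm.toLp _),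
      Lp.coeFn_smul b ((Lp.memLp g').norm.toLp _), (Lp.memLp g).norm.coeFn_toLp,
      (Lp.memLp g').norm.coeFn_toLp, tL_coe (ContinuousMap.const II c)] with t h0 e1 e2 e3 e4 e5 e6 e7
    refine h0.trans (le_of_eq_of_le ?_ (le_abs_self _))
    rw [hw, e1, Pi.add_apply, e2, Pi.add_apply, e3, e4, Pi.smul_apply, Pi.smul_apply, e5, e6, e7]
    simp
  have n1 : ‖(Lp.memLp g).norm.toLp _‖ = ‖g‖ := by
    rw [Lp.norm_toLp, eLpNorm_norm, Lp.norm_def]
  have n2 : ‖(Lp.memLp g').norm.toLp _‖ = ‖g'‖ := by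
    rw [Lp.norm_toLp, eLpNorm_norm, Lp.norm_def]
  have n3 : ‖tL (ContinuousMap.const II c)‖ ≤ c :=
    (tL_norm _).trans ((ContinuousMap.norm_le _ hc).2 fun _ => by simp [abs_of_nonneg hc])
  refine h1.trans ((norm_add_le _ _).trans ?_)
  refine add_le_add ((norm_add_le _ _).trans (le_of_eq ?_)) n3
  rw [norm_smul, norm_smul, n1, n2, Real.norm_of_nonneg ha, Real.norm_of_nonneg hb]

/-- product of a continuous function and an `L²` function through a bilinear map -/
noncomputable def cmul (B : E →L[ℝ] F →L[ℝ] G) : C(II, E) →L[ℝ] L2 F →L[ℝ] L2 G :=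
  (B.holderL (volume : Measure II) ⊤ 2 2).comp (ContinuousMap.toLp ⊤ volume ℝ)

theorem cmul_coe (B : E →L[ℝ] F →L[ℝ] G) (u : C(II, E)) (f : L2 F) :
    ∀ᵐ t : II, cmul B u f t = B (u t) (f t) := by
  filter_upwards [B.coeFn_holder (r := 2) (ContinuousMap.toLp ⊤ (volume : Measure II) ℝ u) f,
    ContinuousMap.coeFn_toLp (p := ⊤) (𝕜 := ℝ) (volume : Measure II) u] with t h1 h2
  rw [← h2]; exact h1

theorem cmul_norm (B : E →L[ℝ] F →L[ℝ] G) (u : C(II, E)) (f : L2 F) :
    ‖cmul B u f‖ ≤ ‖B‖ * ‖u‖ * ‖f‖ := by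
  refine (B.norm_holder_apply_apply_le (r := 2) _ f).trans ?_
  gcongr
  exact toLp_norm_le' ⊤ u

/-- product of two continuous functions through a bilinear map -/
noncomputable def cbil {K : Type} [TopologicalSpace K] [CompactSpace K] (B : E →L[ℝ] F →L[ℝ] G) :
    C(K, E) →L[ℝ] C(K, F) →L[ℝ] C(K, G) :=
  LinearMap.mkContinuous₂
    (LinearMap.mk₂ ℝ (fun u v => (⟨fun t => B (u t) (v t), by fun_prop⟩ : C(K, G)))
      (fun _ _ _ => by ext; simp) (fun _ _ _ => by ext; simp) (fun _ _ _ => by ext; simp)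
      (fun _ _ _ => by ext; simp)) ‖B‖
    (fun u v => (ContinuousMap.norm_le _ (by positivity)).2 fun t =>
      (B.le_opNorm₂ _ _).trans (by gcongr <;> exact ContinuousMap.norm_coe_le_norm _ _))

@[simp] theorem cbil_apply {K : Type} [TopologicalSpace K] [CompactSpace K]
    (B : E →L[ℝ] F →L[ℝ] G) (u : C(K, E)) (v : C(K, F)) (t : K) :
    cbil B u v t = B (u t) (v t) := rfl

theorem cbil_norm {K : Type} [TopologicalSpace K] [CompactSpace K]
    (B : E →L[ℝ] F →L[ℝ] G) (u : C(K, E)) (v : C(K, F)) : ‖cbil B u v‖ ≤ ‖B‖ * ‖u‖ * ‖v‖ :=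
  (ContinuousMap.norm_le _ (by positivity)).2 fun t =>
    (B.le_opNorm₂ _ _).trans (by gcongr <;> exact ContinuousMap.norm_coe_le_norm _ _)

theorem continuous_prim {f : II → F} (hf : Integrable f) :
    Continuous fun t : II => ∫ s in Iic t, f s := by
  rw [continuous_iff_continuousAt]
  intro t₀
  simp_rw [← integral_indicator measurableSet_Iic]
  refine continuousAt_of_dominated (bound := fun s => ‖f s‖) ?_ ?_ hf.norm ?_
  · exact Eventually.of_forall fun t => hf.1.indicator measurableSet_Iic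
  · exact Eventually.of_forall fun t => Eventually.of_forall fun s => norm_indicator_le_norm_self _ _
  · have : ∀ᵐ s : II, s ≠ t₀ := by
      rw [ae_iff]; simp
    filter_upwards [this] with s hs
    rcases lt_or_gt_of_ne hs with h | h
    · refine (continuousAt_const (y := f s)).congr ?_
      filter_upwards [Ioi_mem_nhds h] with t ht
      rw [indicator_of_mem (mem_Iic.mpr (le_of_lt ht))]
    · refine (continuousAt_const (y := (0 : F))).congr ?_
      filter_upwards [Iio_mem_nhds h] with t ht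
      rw [indicator_of_notMem (fun hh => not_le.mpr ht (mem_Iic.mp hh))]

theorem Lp_integrable (p : ℝ≥0∞) [hp : Fact (1 ≤ p)] (f : Lp F p (volume : Measure II)) :
    Integrable f (volume : Measure II) := (Lp.memLp f).integrable hp.out

theorem integral_norm_le_Lp (p : ℝ≥0∞) [hp : Fact (1 ≤ p)] (f : Lp F p (volume : Measure II)) :
    ∫ s, ‖f s‖ ≤ ‖f‖ := by
  rw [Lp.norm_def, integral_norm_eq_lintegral_enorm (Lp.aestronglyMeasurable f),
    ← eLpNorm_one_eq_lintegral_enorm]
  exact ENNReal.toReal_mono (Lp.eLpNorm_ne_top f)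
    (eLpNorm_le_eLpNorm_of_exponent_le hp.out (Lp.aestronglyMeasurable f))

/-- primitive of an `Lᵖ` function -/
noncomputable def Jp (p : ℝ≥0∞) [Fact (1 ≤ p)] : Lp F p (volume : Measure II) →L[ℝ] C(II, F) :=
  LinearMap.mkContinuous
    { toFun := fun f => ⟨fun t => ∫ s in Iic t, f s, continuous_prim (Lp_integrable p f)⟩
      map_add' := fun f g => by
        ext t
        simp only [ContinuousMap.coe_mk, ContinuousMap.add_apply]
        rw [← integral_add (Lp_integrable p f).integrableOn (Lp_integrable p g).integrableOn]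
        exact integral_congr_ae (ae_restrict_of_ae (Lp.coeFn_add f g))
      map_smul' := fun c f => by
        ext t
        simp only [ContinuousMap.coe_mk, ContinuousMap.smul_apply, RingHom.id_apply]
        rw [← integral_smul]
        exact integral_congr_ae (ae_restrict_of_ae (Lp.coeFn_smul c f)) } 1
    (fun f => by
      rw [one_mul]
      refine (ContinuousMap.norm_le _ (norm_nonneg _)).2 fun t => ?_
      refine (norm_integral_le_integral_norm _).trans (le_trans ?_ (integral_norm_le_Lp p f))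
      exact setIntegral_le_integral (Lp_integrable p f).norm
        (Eventually.of_forall fun _ => norm_nonneg _))

theorem Jp_apply (p : ℝ≥0∞) [Fact (1 ≤ p)] (f : Lp F p (volume : Measure II)) (t : II) :
    Jp p f t = ∫ s in Iic t, f s := rfl

theorem Jp_norm (p : ℝ≥0∞) [Fact (1 ≤ p)] (f : Lp F p (volume : Measure II)) : ‖Jp p f‖ ≤ ‖f‖ := by
  have := (Jp (F := F) p).le_opNorm f
  have h1 : ‖Jp (F := F) p‖ ≤ 1 := LinearMap.mkContinuous_norm_le _ zero_le_one _
  nlinarith [norm_nonneg f]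

/-- primitive of an `L²` function -/
noncomputable def JJ : L2 F →L[ℝ] C(II, F) := Jp 2

theorem JJ_apply (f : L2 F) (t : II) : JJ f t = ∫ s in Iic t, f s := rfl

theorem JJ_norm (f : L2 F) : ‖JJ f‖ ≤ ‖f‖ := Jp_norm 2 f

theorem JJ_zero (f : L2 F) : JJ f 0 = 0 := by
  rw [JJ_apply]
  exact setIntegral_measure_zero _ (by simp)

/-- primitive of the product of two `L²` functions -/
noncomputable def J2 (B : E →L[ℝ] F →L[ℝ] G) : L2 E →L[ℝ] L2 F →L[ℝ] C(II, G) :=
  ((ContinuousLinearMap.compL ℝ (L2 F) (Lp G 1 (volume : Measure II)) C(II, G)) (Jp 1)).comp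
    (B.holderL (volume : Measure II) 2 2 1)

theorem J2_apply (B : E →L[ℝ] F →L[ℝ] G) (f : L2 E) (g : L2 F) (t : II) :
    J2 B f g t = ∫ s in Iic t, B (f s) (g s) :=
  integral_congr_ae (ae_restrict_of_ae (B.coeFn_holder (r := 1) f g))

theorem J2_norm (B : E →L[ℝ] F →L[ℝ] G) (f : L2 E) (g : L2 F) :
    ‖J2 B f g‖ ≤ ‖B‖ * ‖f‖ * ‖g‖ :=
  (Jp_norm 1 _).trans (B.norm_holder_apply_apply_le (r := 1) f g)

/-- set integrals on the unit interval as interval integrals -/
theorem setIntegral_Iic_eq (f : II → F) (t : II) :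
    ∫ s in Iic t, f s = ∫ s in (0 : ℝ)..t, f (pj s) := by
  have h1 : ∫ s in Iic t, f s = ∫ s in Iic t, (fun r : ℝ => f (pj r)) (s : II) := by
    simp [pj, projIcc_val]
  rw [h1, intervalIntegral.integral_of_le t.2.1, ← integral_Icc_eq_integral_Ioc]
  have h2 : (Iic t : Set II) = ((↑) : II → ℝ) ⁻¹' Icc 0 (t : ℝ) := by
    ext s; simp [s.2.1]
  rw [h2, unitInterval.measurePreserving_coe.setIntegral_preimage_emb
    unitInterval.measurableEmbedding_coe (fun r : ℝ => f (pj r)),
    Measure.restrict_restrict measurableSet_Icc]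
  congr 2
  exact inter_eq_left.mpr (Icc_subset_Icc le_rfl t.2.2)

theorem integral_II_eq (f : II → F) : ∫ s, f s = ∫ s in (0 : ℝ)..1, f (pj s) := by
  have := setIntegral_Iic_eq f 1
  rwa [show (Iic (1 : II)) = univ from eq_univ_of_forall fun s => s.2.2,
    Measure.restrict_univ] at this

theorem JJ_eq (f : L2 F) (t : II) : JJ f t = ∫ s in (0 : ℝ)..t, f (pj s) :=
  setIntegral_Iic_eq f t

theorem JJ_tL (u : C(II, F)) (t : II) : JJ (tL u) t = ∫ s in (0 : ℝ)..t, u (pj s) := by
  rw [JJ_apply, ← setIntegral_Iic_eq]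
  exact integral_congr_ae (ae_restrict_of_ae (tL_coe u))

/-- almost everywhere on the unit interval, read on the real line -/
theorem ae_II_iff {P : II → Prop} :
    (∀ᵐ t : II, P t) ↔ ∀ᵐ s : ℝ, s ∈ Icc (0 : ℝ) 1 → P (pj s) := by
  rw [← ae_restrict_iff' measurableSet_Icc, ← unitInterval.measurePreserving_coe.map_eq,
    unitInterval.measurableEmbedding_coe.ae_map_iff]
  simp [pj, projIcc_val]

theorem intervalIntegrable_pj {f : II → F} (hf : Integrable f) :
    IntervalIntegrable (fun s => f (pj s)) volume 0 1 := by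
  rw [intervalIntegrable_iff_integrableOn_Icc_of_le zero_le_one, IntegrableOn,
    ← unitInterval.measurePreserving_coe.integrable_comp_emb unitInterval.measurableEmbedding_coe]
  simpa [Function.comp_def, pj, projIcc_val] using hf

/-- Lebesgue differentiation for the primitive -/
theorem JJ_ae_hasDerivAt [CompleteSpace F] (f : L2 F) :
    ∀ᵐ t : II, HasDerivAt (fun s : ℝ => JJ f (pj s)) (f t) t := by
  rw [ae_II_iff]
  have h01 : ∀ᵐ s : ℝ, s ≠ 0 ∧ s ≠ 1 := by
    filter_upwards [Measure.ae_ne volume (0 : ℝ), Measure.ae_ne volume (1 : ℝ)] with s a b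
    exact ⟨a, b⟩
  filter_upwards [(intervalIntegrable_pj (L2_integrable f)).ae_hasDerivAt_integral, h01]
    with s hs h01 hI
  have hI' : s ∈ Ioo (0 : ℝ) 1 := ⟨lt_of_le_of_ne hI.1 h01.1.symm, lt_of_le_of_ne hI.2 h01.2⟩
  have h1 := hs (by rwa [uIcc_of_le zero_le_one]) 0 (by simp)
  have h2 : ((pj s : II) : ℝ) = s := by simp [pj, projIcc_of_mem _ hI]
  rw [h2]
  refine h1.congr_of_eventuallyEq ?_
  filter_upwards [Ioo_mem_nhds hI'.1 hI'.2] with r hr
  rw [JJ_eq, show ((pj r : II) : ℝ) = r by simp [pj, projIcc_of_mem _ (Ioo_subset_Icc_self hr)]]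

/-- the primitive determines the function -/
theorem JJ_injective [CompleteSpace F] : Injective (JJ : L2 F → C(II, F)) := by
  intro f g h
  apply Lp.ext
  filter_upwards [JJ_ae_hasDerivAt f, JJ_ae_hasDerivAt g] with t h1 h2
  rw [h] at h1
  exact h1.unique h2

/-- the primitive of a continuous function is differentiable on `[0,1]` -/
theorem JJ_tL_hasDerivWithinAt [CompleteSpace F] (u : C(II, F)) (x : II) :
    HasDerivWithinAt (fun s : ℝ => JJ (tL u) (pj s)) (u x) (Icc 0 1) x := by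
  have hc : Continuous fun s : ℝ => u (pj s) := u.continuous.comp continuous_projIcc
  have h1 := (intervalIntegral.integral_hasDerivAt_right (hc.intervalIntegrable 0 x)
    (hc.stronglyMeasurableAtFilter _ _) hc.continuousAt).hasDerivWithinAt (s := Icc 0 1)
  rw [show pj (x : ℝ) = x by simp [pj, projIcc_val]] at h1
  refine h1.congr (fun y hy => ?_) ?_
  · rw [JJ_tL, show ((pj y : II) : ℝ) = y by simp [pj, projIcc_of_mem _ hy]]
  · rw [JJ_tL, show pj (x : ℝ) = x by simp [pj, projIcc_val]]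

/-- fundamental theorem of calculus on the rescaled interval -/
theorem ftc_II [CompleteSpace F] {τ : ℝ} (hτ : 0 ≤ τ) (w : ℝ → F) (u : C(II, F))
    (hw : ContinuousOn w (Icc 0 τ)) (hd : ∀ t : II, (t : ℝ) ∈ Ioo (0 : ℝ) 1 →
      HasDerivAt w (u t) (τ * t)) (t : II) : w (τ * t) = w 0 + τ • JJ (tL u) t := by
  have hc : Continuous fun s : ℝ => u (pj s) := u.continuous.comp continuous_projIcc
  have h1 : ∫ s in (0 : ℝ)..t, τ • u (pj s) = w (τ * t) - w (τ * 0) := by
    refine intervalIntegral.integral_eq_sub_of_hasDerivAt_of_le (f := fun s => w (τ * s)) t.2.1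
      ?_ ?_ ((hc.const_smul τ).intervalIntegrable _ _)
    · refine hw.comp (by fun_prop) fun s hs => ⟨mul_nonneg hτ hs.1, ?_⟩
      exact mul_le_of_le_one_right hτ (hs.2.trans t.2.2)
    · intro s hs
      have hs' : s ∈ Ioo (0 : ℝ) 1 := ⟨hs.1, hs.2.trans_le t.2.2⟩
      have e : ((pj s : II) : ℝ) = s := by simp [pj, projIcc_of_mem _ (Ioo_subset_Icc_self hs')]
      have := hd (pj s) (by rwa [e])
      rw [e] at this
      simpa [Function.comp_def] using this.scomp s ((hasDerivAt_id s).const_mul τ)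
  rw [JJ_tL, ← intervalIntegral.integral_smul, h1]
  simp

/-- continuous linear maps commute with the primitive -/
theorem JJ_comp [CompleteSpace F] [CompleteSpace G] (A : F →L[ℝ] G) (f : L2 F) (t : II) :
    JJ (A.compLpL 2 volume f) t = A (JJ f t) := by
  rw [JJ_apply, JJ_apply, ← A.integral_comp_comm (L2_integrable f).integrableOn]
  exact integral_congr_ae (ae_restrict_of_ae (A.coeFn_compLpL f))

/-- multiplication by a fixed element of the unit interval -/
def scm (ρ : II) : C(II, II) := ⟨fun t => ρ * t, by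
  refine Continuous.subtype_mk (f := fun t : II => (ρ : ℝ) * t) (by fun_prop) _⟩

@[simp] theorem scm_apply (ρ t : II) : scm ρ t = ρ * t := rfl

theorem map_scm_le {ρ : II} (hρ : 0 < (ρ : ℝ)) :
    Measure.map (scm ρ) volume ≤ ENNReal.ofReal (ρ : ℝ)⁻¹ • (volume : Measure II) := by
  rw [Measure.le_iff]
  intro s hs
  rw [Measure.map_apply (scm ρ).continuous.measurable hs, Measure.smul_apply, smul_eq_mul,
    unitInterval.volume_apply, unitInterval.volume_apply, ← abs_of_pos (inv_pos.mpr hρ),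
    ← Real.volume_preimage_mul_left hρ.ne']
  refine measure_mono ?_
  rintro _ ⟨t, ht, rfl⟩
  exact ⟨ρ * t, ht, rfl⟩

theorem sc_ae {ρ : II} (hρ : 0 < (ρ : ℝ)) {P : II → Prop} (h : ∀ᵐ t : II, P t) :
    ∀ᵐ t : II, P (ρ * t) := by
  have h1 : Measure.map (scm ρ) volume ≪ (volume : Measure II) :=
    (Measure.absolutelyContinuous_of_le (map_scm_le hρ)).trans Measure.smul_absolutelyContinuous
  exact ae_of_ae_map (scm ρ).continuous.measurable.aemeasurable (h1 h)

/-- rescaling of the variable in `L²` -/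
theorem sc_exists [CompleteSpace F] {ρ : II} (hρ : 0 < (ρ : ℝ)) (f : L2 F) :
    ∃ g : L2 F, (∀ᵐ t : II, g t = f (ρ * t)) ∧ √(ρ : ℝ) * ‖g‖ ≤ ‖f‖ ∧
      ∀ t : II, (ρ : ℝ) • JJ g t = JJ f (ρ * t) := by
  have hm : AEMeasurable (scm ρ) volume := (scm ρ).continuous.measurable.aemeasurable
  have h1 : MemLp f 2 (Measure.map (scm ρ) volume) :=
    ((Lp.memLp f).smul_measure ENNReal.ofReal_ne_top).mono_measure (map_scm_le hρ)
  have h2 : MemLp (f ∘ scm ρ) 2 volume := h1.comp_of_map hm
  refine ⟨h2.toLp _, h2.coeFn_toLp, ?_, fun t => ?_⟩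
  · rw [Lp.norm_toLp, ← eLpNorm_map_measure h1.1 hm, Lp.norm_def]
    have h3 := eLpNorm_mono_measure (p := 2) f (map_scm_le hρ)
    rw [eLpNorm_smul_measure_of_ne_top (by simp)] at h3
    have h4 := ENNReal.toReal_mono (ENNReal.mul_ne_top (ENNReal.rpow_ne_top_of_nonneg (by simp)
      ENNReal.ofReal_ne_top) (Lp.eLpNorm_ne_top f)) h3
    rw [ENNReal.toReal_mul, ← ENNReal.toReal_rpow, ENNReal.toReal_ofReal (inv_pos.mpr hρ).le] at h4
    have h5 : (ρ : ℝ)⁻¹ ^ (1 / 2 : ℝ≥0∞).toReal = (√(ρ : ℝ))⁻¹ := by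
      rw [← Real.sqrt_inv, Real.sqrt_eq_rpow]; norm_num
    rw [h5] at h4
    have h6 : 0 < √(ρ : ℝ) := Real.sqrt_pos.mpr hρ
    calc _ ≤ √(ρ : ℝ) * ((√(ρ : ℝ))⁻¹ * (eLpNorm f 2 volume).toReal) := by gcongr
      _ = _ := by field_simp
  · have h3 : JJ (h2.toLp _) t = ∫ s in Iic t, f (ρ * s) :=
      integral_congr_ae (ae_restrict_of_ae h2.coeFn_toLp)
    rw [h3, setIntegral_Iic_eq, JJ_eq]
    have h4 := intervalIntegral.smul_integral_comp_mul_left (a := 0) (b := (t : ℝ))
      (fun s => f (pj s)) (ρ : ℝ)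
    rw [mul_zero] at h4
    rw [Set.Icc.coe_mul, ← h4]
    congr 1
    refine intervalIntegral.integral_congr fun s hs => ?_
    rw [uIcc_of_le t.2.1] at hs
    have hs' : s ∈ Icc (0 : ℝ) 1 := ⟨hs.1, hs.2.trans t.2.2⟩
    have hs2 : (ρ : ℝ) * s ∈ Icc (0 : ℝ) 1 :=
      ⟨mul_nonneg ρ.2.1 hs'.1, mul_le_one₀ ρ.2.2 hs'.1 hs'.2⟩
    simp only [pj, projIcc_of_mem _ hs', projIcc_of_mem _ hs2]
    rfl

end

end Pool.Agent.P.MP_cf7202_gt
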