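import Pool.Agent.P.MP_cf7202_gt.DefAbs

/-! Restriction of a strong solution to a shorter time interval. -/

namespace Pool.Agent.P.MP_cf7202_gt

open Set Filter Topology Function MeasureTheory

theorem Sys.WS.scale {H V Y K : Type} [NormedAddCommGroup H] [InnerProductSpace ℝ H]
    [CompleteSpace H] [NormedAddCommGroup V] [NormedSpace ℝ V] [CompleteSpace V]
    [NormedAddCommGroup Y] [NormedSpace ℝ Y] {S : Sys H V Y K} {τ : ℝ} {L : C(II, V)}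
    {D0 D1 : C(II, H)} {D2 F : L2 H} {w : L2 V} (h : S.WS τ L D0 D1 D2 F w) {ρ : II}
    (hρ : 0 < (ρ : ℝ)) :
    ∃ (D2' F' : L2 H) (w' : L2 V), S.WS (ρ * τ) (L.comp (scm ρ)) (D0.comp (scm ρ))
      (D1.comp (scm ρ)) D2' F' w' ∧ √(ρ : ℝ) * ‖D2'‖ ≤ ‖D2‖ ∧ ‖D1.comp (scm ρ)‖ ≤ ‖D1‖ := by
  obtain ⟨D2', a1, a2, -⟩ := sc_exists hρ D2
  obtain ⟨F', b1, -, b3⟩ := sc_exists hρ F
  obtain ⟨w', c1, -, c3⟩ := sc_exists hρ w
  refine ⟨D2', F', w', ⟨fun t => h.mem _, fun t => h.r1 _, ?_, ?_, ?_, fun t => ?_, fun t => ?_⟩,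
    a2, (ContinuousMap.norm_le _ (norm_nonneg _)).2 fun t => D1.norm_coe_le_norm _⟩
  · filter_upwards [a1, sc_ae hρ h.r2] with t e1 e2
    rw [e1]; exact e2
  · filter_upwards [a1, c1, sc_ae hρ h.hw] with t e1 e2 e3
    rw [e1, e2]; exact e3
  · filter_upwards [a1, b1, c1, sc_ae hρ h.hF] with t e1 e2 e3 e4
    rw [e1, e2, e3]; exact e4
  · simp only [ContinuousMap.comp_apply, scm_apply, mul_zero]
    rw [h.iL (ρ * t), ← c3, smul_smul, mul_comm τ]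
  · simp only [ContinuousMap.comp_apply, scm_apply, mul_zero]
    rw [h.iD (ρ * t), ← b3, smul_smul, mul_comm τ]

end Pool.Agent.P.MP_cf7202_gt
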