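import Mathlib

/-! Curvature flow of planar networks: the notions used in the final statement.
The plane is `ℂ` with its Euclidean inner product; curves are parametrised on `[0,1]`. -/

namespace Pool.Agent.P.MP_cf7202_gt

open Set Filter Topology Function
open scoped ContDiff ENNReal

variable {ι : Type}

/-- derivative of a curve parametrised on `[0,1]` (one-sided at the two ends) -/
noncomputable def vel (c : ℝ → ℂ) (x : ℝ) : ℂ := derivWithin c (Icc 0 1) x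

/-- unit tangent vector -/
noncomputable def unitTan (c : ℝ → ℂ) (x : ℝ) : ℂ := (‖vel c x‖⁻¹ : ℝ) • vel c x

/-- the component of `v` orthogonal to the unit vector `τ` -/
noncomputable def nor (τ v : ℂ) : ℂ := v - (inner ℝ v τ : ℝ) • τ

/-- curvature vector: normal part of the second derivative divided by the squared speed -/
noncomputable def curv (c : ℝ → ℂ) (x : ℝ) : ℂ :=
  ((‖vel c x‖ ^ 2)⁻¹ : ℝ) • nor (unitTan c x) (vel (vel c) x)

/-- length of the arc of `c` with parameters in `[0,x]` -/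
noncomputable def arc (c : ℝ → ℂ) (x : ℝ) : ℝ := ∫ y in (0 : ℝ)..x, ‖vel c y‖

/-- the position of a curve end: `(i, false)` is the start and `(i, true)` the end of curve `i` -/
def endPt (σ : ι → ℝ → ℂ) (e : ι × Bool) : ℂ := σ e.1 (if e.2 then 1 else 0)

/-- the unit tangent at a curve end, pointing into the curve -/
noncomputable def endTan (σ : ι → ℝ → ℂ) (e : ι × Bool) : ℂ :=
  if e.2 then -unitTan (σ e.1) 1 else unitTan (σ e.1) 0

/-- no other curve end lies at the position of the end `e` -/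
def IsSimpleEnd (σ : ι → ℝ → ℂ) (e : ι × Bool) : Prop :=
  ∀ e', endPt σ e' = endPt σ e → e' = e

/-- exactly three curve ends lie at the position of the end `e`, and their inner unit tangents
sum to zero -/
def IsTripleEnd (σ : ι → ℝ → ℂ) (e : ι × Bool) : Prop :=
  ∃ e₁ e₂, e ≠ e₁ ∧ e ≠ e₂ ∧ e₁ ≠ e₂ ∧
    (∀ e', endPt σ e' = endPt σ e ↔ e' = e ∨ e' = e₁ ∨ e' = e₂) ∧
    endTan σ e + endTan σ e₁ + endTan σ e₂ = 0

/-- the subset of the plane covered by the curves -/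
def supp (σ : ι → ℝ → ℂ) : Set ℂ := ⋃ i, σ i '' Icc 0 1

/-- regular network in the closure of `Ω` -/
structure IsRegNet (Ω : Set ℂ) (σ : ι → ℝ → ℂ) : Prop where
  smooth : ∀ i, ContDiffOn ℝ 2 (σ i) (Icc 0 1)
  regular : ∀ i, ∀ x ∈ Icc (0 : ℝ) 1, vel (σ i) x ≠ 0
  inside : supp σ ⊆ closure Ω
  embedded : ∀ i j, ∀ x ∈ Ioo (0 : ℝ) 1, ∀ y ∈ Icc (0 : ℝ) 1, σ i x = σ j y → i = j ∧ x = y
  connected : IsConnected (supp σ)
  ends : ∀ e, (endPt σ e ∈ frontier Ω ∧ IsSimpleEnd σ e) ∨ IsTripleEnd σ e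

/-- the network at time `t` of a family of moving curves `γ i t x` -/
def slice (γ : ι → ℝ → ℝ → ℂ) (t : ℝ) : ι → ℝ → ℂ := fun i => γ i t

/-- curvature flow of regular networks on the time interval `[0,T)` -/
structure IsFlow (Ω : Set ℂ) (γ : ι → ℝ → ℝ → ℂ) (T : ℝ) : Prop where
  net : ∀ t ∈ Ico 0 T, IsRegNet Ω (slice γ t)
  cont : ∀ i, ContinuousOn (uncurry (γ i)) (Ico 0 T ×ˢ Icc 0 1)
  smooth : ∀ i, ContDiffOn ℝ ∞ (uncurry (γ i)) (Ioo 0 T ×ˢ Icc 0 1)
  fixed : ∀ t ∈ Ico 0 T, ∀ e, IsSimpleEnd (slice γ t) e →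
    endPt (slice γ t) e = endPt (slice γ 0) e
  motion : ∀ i, ∀ t ∈ Ioo 0 T, ∀ x ∈ Icc (0 : ℝ) 1,
    nor (unitTan (γ i t) x) (deriv (fun s => γ i s x) t) = curv (γ i t) x

/-- `T` is a singular time: no curvature flow on a longer time interval, however parametrised
and with whatever number of curves, covers the same sets at all times in `[0,T)` -/
def IsMaximal (Ω : Set ℂ) (γ : ι → ℝ → ℝ → ℂ) (T : ℝ) : Prop :=
  ∀ (ι' : Type) [Finite ι'] (γ' : ι' → ℝ → ℝ → ℂ) (T' : ℝ), T < T' → IsFlow Ω γ' T' →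
    ¬ ∀ t ∈ Ico 0 T, supp (slice γ' t) = supp (slice γ t)

/-- a unit speed `C²` curve solving the shrinker equation `k + x^⊥ = 0` -/
def IsShrinkerCurve (c : ℝ → ℂ) : Prop :=
  ContDiff ℝ 2 c ∧ ∀ s, ‖deriv c s‖ = 1 ∧ deriv (deriv c) s + nor (deriv c s) (c s) = 0

/-- Huisken's rescaling of curve `i` at time `t` around `(x₀,T)` -/
noncomputable def resc (γ : ι → ℝ → ℝ → ℂ) (T : ℝ) (x₀ : ℂ) (t : ℝ) (i : ι) (x : ℝ) : ℂ :=
  ((√(2 * (T - t)))⁻¹ : ℝ) • (γ i t x - x₀)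

/-- Along the times `t j → T` the rescaled networks converge in `C¹_loc` to the (possibly
degenerate) shrinker whose `i`-th curve is `c i` restricted to `0 ≤ s ≤ ℓ i`: the length of the
`i`-th rescaled curve tends to `ℓ i ∈ [0,∞]`, the rescaled curves parametrised by arclength converge
together with their unit tangents to `c i` uniformly on bounded arclength intervals, and the far
arcs leave every bounded set. -/
structure IsBlowUp (γ : ι → ℝ → ℝ → ℂ) (T : ℝ) (x₀ : ℂ) (t : ℕ → ℝ) (c : ι → ℝ → ℂ)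
    (ℓ : ι → ℝ≥0∞) : Prop where
  times : ∀ j, t j ∈ Ico 0 T
  lim : Tendsto t atTop (𝓝 T)
  shrinker : ∀ i, IsShrinkerCurve (c i)
  length : ∀ i, Tendsto (fun j => ENNReal.ofReal (arc (resc γ T x₀ (t j) i) 1)) atTop (𝓝 (ℓ i))
  conv : ∀ i, ∀ S : ℝ, ∀ ε > 0, ∀ᶠ j in atTop, ∀ x ∈ Icc (0 : ℝ) 1,
    arc (resc γ T x₀ (t j) i) x ≤ S →
      ‖resc γ T x₀ (t j) i x - c i (arc (resc γ T x₀ (t j) i) x)‖ ≤ ε ∧
      ‖unitTan (resc γ T x₀ (t j) i) x - deriv (c i) (arc (resc γ T x₀ (t j) i) x)‖ ≤ ε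
  proper : ∀ R : ℝ, ∃ S : ℝ, ∀ᶠ j in atTop, ∀ i, ∀ x ∈ Icc (0 : ℝ) 1,
    S < arc (resc γ T x₀ (t j) i) x → R < ‖resc γ T x₀ (t j) i x‖

end Pool.Agent.P.MP_cf7202_gt
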